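import Pool.Agent.Lib.MP_8daebb_an.LG.Lip

open MeasureTheory Metric Set Filter Topology
open scoped RealInnerProductSpace NNReal

namespace Pool.Agent.Lib.MP_8daebb_an.LG

variable {m : ℕ} {ι : Type}

/-! POIN. Poincare inequalities for Lipschitz functions on balls. -/

theorem intOn_grad_poin {f : E m → ℝ} {K : ℝ≥0} (hf : LipschitzWith K f) (c : E m) (r : ℝ) :
    IntegrableOn (fun x => ‖gradient f x‖ ^ 2) (ball c r) := by
  refine intOn_ball (C := (K : ℝ) ^ 2) ((meas_grad f).norm.pow_const 2).aestronglyMeasurable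
    (Eventually.of_forall fun x _ => ?_)
  rw [Real.norm_eq_abs, abs_of_nonneg (by positivity)]
  exact pow_le_pow_left₀ (norm_nonneg _) (norm_grad_le hf x) 2

theorem intOn_cont_poin {g : E m → ℝ} (hg : Continuous g) (c : E m) (r : ℝ) :
    IntegrableOn g (ball c r) :=
  (hg.continuousOn.integrableOn_compact (isCompact_closedBall c r)).mono_set ball_subset_closedBall

theorem diff_le_poin {f : E m → ℝ} {K : ℝ≥0} (hf : LipschitzWith K f) (x h : E m) :
    |f (x + h) - f x| ≤ K * ‖h‖ := by
  have := hf.dist_le_mul (x + h) x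
  rwa [Real.dist_eq, dist_eq_norm, add_sub_cancel_left] at this

/-- A translated integral over `A` is at most the integral over `S ⊇ A + v`. -/
theorem shift_le_poin {φ : E m → ℝ} (h0 : ∀ x, 0 ≤ φ x) {A S : Set (E m)} (hA : MeasurableSet A)
    (hS : MeasurableSet S) (hi : IntegrableOn φ S) {v : E m} (hv : ∀ x ∈ A, x + v ∈ S) :
    IntegrableOn (fun x => φ (x + v)) A ∧ ∫ x in A, φ (x + v) ≤ ∫ x in S, φ x := by
  have h1 : Integrable (S.indicator φ) := (integrable_indicator_iff hS).2 hi
  have h2 : Integrable (fun x => S.indicator φ (x + v)) := h1.comp_add_right v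
  have h3 : IntegrableOn (fun x => φ (x + v)) A :=
    h2.integrableOn.congr_fun (fun x hx => indicator_of_mem (hv x hx) _) hA
  refine ⟨h3, ?_⟩
  rw [← integral_indicator hS, ← integral_add_right_eq_self (S.indicator φ) v,
    ← integral_indicator hA]
  refine integral_mono ((integrable_indicator_iff hA).2 h3) h2 fun x => ?_
  by_cases hx : x ∈ A
  · simp only [indicator_of_mem hx, indicator_of_mem (hv x hx), le_refl]
  · simp only [indicator_of_notMem hx]
    exact indicator_nonneg (fun y _ => h0 y) _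

/-- The basic estimate. -/
theorem key_poin {f : E m → ℝ} {K : ℝ≥0} (hf : LipschitzWith K f) {A : Set (E m)}
    (hA : MeasurableSet A) {c c' : E m} {R R' : ℝ} (hAb : A ⊆ ball c R) (h : E m)
    (hS : ∀ x ∈ A, ∀ t ∈ Icc (0 : ℝ) 1, x + t • h ∈ ball c' R') :
    ∫ x in A, (f (x + h) - f x) ^ 2 ≤ ‖h‖ ^ 2 * ∫ x in ball c' R', ‖gradient f x‖ ^ 2 := by
  have hfc := hf.continuous
  set g : E m → ℝ := fun x => f (x + h) - f x with hg
  have hgc : Continuous g := by fun_prop
  have hFc : ∀ t : ℝ, Continuous fun x => g x * f (x + t • h) := fun t => by fun_prop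
  have hFi : ∀ t : ℝ, IntegrableOn (fun x => g x * f (x + t • h)) A := fun t =>
    (intOn_cont_poin (hFc t) c R).mono_set hAb
  have hg2 : IntegrableOn (fun x => g x ^ 2) A :=
    (intOn_cont_poin (hgc.pow 2) c R).mono_set hAb
  have hder : ∀ t : ℝ, Integrable (fun x => g x * fderiv ℝ f (x + t • h) h) (volume.restrict A) ∧
      HasDerivAt (fun s : ℝ => ∫ x in A, g x * f (x + s • h))
        (∫ x in A, g x * fderiv ℝ f (x + t • h) h) t := by
    intro t
    refine hasDerivAt_integral_of_dominated_loc_of_lip (μ := volume.restrict A)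
      (F := fun s x => g x * f (x + s • h)) (s := univ) (bound := fun x => |g x| * (K * ‖h‖))
      univ_mem (Eventually.of_forall fun s => (hFc s).aestronglyMeasurable) (hFi t) ?_ ?_ ?_ ?_
    · refine (hgc.measurable.mul ?_).aestronglyMeasurable
      exact (measurable_fderiv_apply_const ℝ f h).comp (measurable_add_const _)
    · refine Eventually.of_forall fun x => ?_
      refine LipschitzWith.lipschitzOnWith (LipschitzWith.of_dist_le_mul fun s s' => ?_)
      rw [Real.dist_eq, Real.dist_eq, ← mul_sub, abs_mul, Real.coe_nnabs,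
        abs_of_nonneg (a := |g x| * (K * ‖h‖)) (by positivity), mul_assoc]
      refine mul_le_mul_of_nonneg_left ?_ (abs_nonneg _)
      have := hf.dist_le_mul (x + s • h) (x + s' • h)
      rw [Real.dist_eq, dist_eq_norm, add_sub_add_left_eq_sub, ← sub_smul, norm_smul,
        Real.norm_eq_abs] at this
      linarith
    · exact (intOn_cont_poin (by fun_prop) c R).mono_set hAb
    · have h1 : ∀ᵐ x : E m, DifferentiableAt ℝ f (x + t • h) :=
        (measurePreserving_add_right volume (t • h)).quasiMeasurePreserving.ae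
          (hf.ae_differentiableAt (μ := volume))
      refine (ae_restrict_of_ae h1).mono fun x hx => ?_
      have h2 : HasDerivAt (fun s : ℝ => x + s • h) h t := by
        simpa using ((hasDerivAt_id t).smul_const h).const_add x
      exact (hx.hasFDerivAt.comp_hasDerivAt t h2).const_mul (g x)
  obtain ⟨t, ht, hte⟩ := exists_hasDerivAt_eq_slope (fun s : ℝ => ∫ x in A, g x * f (x + s • h))
    (fun s => ∫ x in A, g x * fderiv ℝ f (x + s • h) h) one_pos
    (fun s _ => (hder s).2.continuousAt.continuousWithinAt) (fun s _ => (hder s).2)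
  have hG : (∫ x in A, g x * f (x + (1 : ℝ) • h)) - ∫ x in A, g x * f (x + (0 : ℝ) • h) =
      ∫ x in A, g x ^ 2 := by
    rw [← integral_sub (hFi 1) (hFi 0)]
    refine integral_congr_ae (Eventually.of_forall fun x => ?_)
    simp only [one_smul, zero_smul, add_zero, hg]
    ring
  obtain ⟨hs1, hs2⟩ := shift_le_poin (φ := fun x => ‖gradient f x‖ ^ 2) (fun x => by positivity) hA
    measurableSet_ball (intOn_grad_poin hf c' R') (v := t • h)
    (fun x hx => hS x hx t ⟨ht.1.le, ht.2.le⟩)
  have hle : ∫ x in A, g x * fderiv ℝ f (x + t • h) h ≤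
      ∫ x in A, (g x ^ 2 / 2 + ‖h‖ ^ 2 / 2 * ‖gradient f (x + t • h)‖ ^ 2) := by
    refine integral_mono (hder t).1 ((hg2.div_const 2).add (hs1.const_mul _)) fun x => ?_
    have h1 : |fderiv ℝ f (x + t • h) h| ≤ ‖gradient f (x + t • h)‖ * ‖h‖ := by
      rw [norm_grad_eq]; exact (fderiv ℝ f (x + t • h)).le_opNorm h
    have h2 : (fderiv ℝ f (x + t • h) h) ^ 2 ≤ (‖gradient f (x + t • h)‖ * ‖h‖) ^ 2 := by
      rw [← sq_abs]; exact pow_le_pow_left₀ (abs_nonneg _) h1 2
    show g x * fderiv ℝ f (x + t • h) h ≤ _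
    nlinarith [sq_nonneg (g x - fderiv ℝ f (x + t • h) h)]
  rw [integral_add (hg2.div_const 2) (hs1.const_mul _), integral_div, integral_const_mul] at hle
  rw [hG, sub_zero, div_one] at hte
  have h4 := mul_le_mul_of_nonneg_left hs2 (by positivity : 0 ≤ ‖h‖ ^ 2 / 2)
  show ∫ x in A, g x ^ 2 ≤ _
  linarith

/-- The translation estimate. -/
theorem transl_est {f : E m → ℝ} {K : ℝ≥0} (hf : LipschitzWith K f) (c h : E m) (r : ℝ) :
    ∫ x in ball c r, (f (x + h) - f x) ^ 2 ≤
      ‖h‖ ^ 2 * ∫ x in ball c (r + ‖h‖), ‖gradient f x‖ ^ 2 := by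
  refine key_poin hf measurableSet_ball Subset.rfl h fun x hx t ht => ?_
  rw [mem_ball_iff_norm] at hx ⊢
  have h1 : ‖t • h‖ ≤ ‖h‖ := by
    rw [norm_smul, Real.norm_eq_abs, abs_of_nonneg ht.1]
    exact mul_le_of_le_one_left (norm_nonneg _) ht.2
  calc ‖x + t • h - c‖ = ‖(x - c) + t • h‖ := by congr 1; abel
    _ ≤ ‖x - c‖ + ‖t • h‖ := norm_add_le _ _
    _ < r + ‖h‖ := by linarith

/-- Exchange of the order of integration, with a bound. -/
theorem swap_poin {Φ : E m → E m → ℝ} (hΦ : Measurable (Function.uncurry Φ)) {c : E m}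
    {r ρ M N : ℝ} (hρ : 0 < ρ) (hM : ∀ y ∈ ball c r, ∀ h ∈ ball (0 : E m) ρ, |Φ y h| ≤ M)
    (hN : ∀ h ∈ ball (0 : E m) ρ, ∫ y in ball c r, Φ y h ≤ N) :
    IntegrableOn (fun y => ∫ h in ball (0 : E m) ρ, Φ y h) (ball c r) ∧
      ∫ y in ball c r, ∫ h in ball (0 : E m) ρ, Φ y h ≤ vb m * ρ ^ m * N := by
  have : IsFiniteMeasure (volume.restrict (ball c r)) :=
    isFiniteMeasure_restrict.2 measure_ball_lt_top.ne
  have : IsFiniteMeasure (volume.restrict (ball (0 : E m) ρ)) :=
    isFiniteMeasure_restrict.2 measure_ball_lt_top.ne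
  have hi : Integrable (Function.uncurry Φ)
      ((volume.restrict (ball c r)).prod (volume.restrict (ball (0 : E m) ρ))) := by
    refine Integrable.of_bound hΦ.aestronglyMeasurable M ?_
    rw [Measure.prod_restrict]
    exact ae_restrict_of_forall_mem (measurableSet_ball.prod measurableSet_ball)
      fun p hp => hM p.1 hp.1 p.2 hp.2
  refine ⟨hi.integral_prod_left, ?_⟩
  rw [integral_integral_swap hi]
  calc ∫ h in ball (0 : E m) ρ, ∫ y in ball c r, Φ y h ≤ ∫ _ in ball (0 : E m) ρ, N :=
        setIntegral_mono_on hi.integral_prod_right (integrable_const N) measurableSet_ball hN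
    _ = vb m * ρ ^ m * N := by rw [setIntegral_const, vol_ball _ hρ, smul_eq_mul]

/-- The double integral of the squared differences. -/
theorem dbl_poin {f : E m → ℝ} {K : ℝ≥0} (hf : LipschitzWith K f) (c : E m) {r : ℝ} (hr : 0 < r) :
    IntegrableOn (fun y => ∫ x in ball c r, (f x - f y) ^ 2) (ball c r) ∧
      ∫ y in ball c r, ∫ x in ball c r, (f x - f y) ^ 2 ≤
        vb m * (2 * r) ^ m * ((2 * r) ^ 2 * ∫ x in ball c r, ‖gradient f x‖ ^ 2) := by
  have hfc := hf.continuous
  have hD : 0 ≤ ∫ x in ball c r, ‖gradient f x‖ ^ 2 := integral_nonneg fun x => by positivity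
  let Φ : E m → E m → ℝ := fun y h => (ball c r).indicator (fun x => (f x - f y) ^ 2) (y + h)
  have hΦ : Measurable (Function.uncurry Φ) := by
    have h1 : Function.uncurry Φ = {p : E m × E m | p.1 + p.2 ∈ ball c r}.indicator
        (fun p => (f (p.1 + p.2) - f p.1) ^ 2) := by
      funext p
      by_cases hp : p.1 + p.2 ∈ ball c r
      · simp only [Function.uncurry, Φ, indicator_of_mem hp,
          indicator_of_mem (show p ∈ {p : E m × E m | p.1 + p.2 ∈ ball c r} from hp)]
      · simp only [Function.uncurry, Φ, indicator_of_notMem hp,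
          indicator_of_notMem (show p ∉ {p : E m × E m | p.1 + p.2 ∈ ball c r} from hp)]
    rw [h1]
    refine Measurable.indicator (Continuous.measurable (by fun_prop)) ?_
    exact (isOpen_ball.preimage (by fun_prop : Continuous fun p : E m × E m => p.1 + p.2)).measurableSet
  obtain ⟨h1, h2⟩ := swap_poin hΦ (c := c) (r := r) (ρ := 2 * r) (M := (K * (2 * r)) ^ 2)
    (N := (2 * r) ^ 2 * ∫ x in ball c r, ‖gradient f x‖ ^ 2) (by positivity)
    (fun y _ h hh => by
      rw [mem_ball_zero_iff] at hh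
      by_cases hp : y + h ∈ ball c r
      · simp only [Φ, indicator_of_mem hp]
        rw [abs_pow]
        refine pow_le_pow_left₀ (abs_nonneg _) ((diff_le_poin hf y h).trans ?_) 2
        exact mul_le_mul_of_nonneg_left hh.le K.2
      · simp only [Φ, indicator_of_notMem hp, abs_zero]
        positivity)
    (fun h hh => by
      rw [mem_ball_zero_iff] at hh
      have hB : MeasurableSet ((fun y => y + h) ⁻¹' ball c r) :=
        measurableSet_ball.preimage (measurable_add_const h)
      have e1 : ∫ y in ball c r, Φ y h =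
          ∫ y in ball c r ∩ (fun y => y + h) ⁻¹' ball c r, (f (y + h) - f y) ^ 2 := by
        rw [← setIntegral_indicator hB]
        refine integral_congr_ae (Eventually.of_forall fun y => ?_)
        by_cases hp : y + h ∈ ball c r
        · rw [indicator_of_mem (show y ∈ (fun y => y + h) ⁻¹' ball c r from hp)]
          exact indicator_of_mem hp _
        · rw [indicator_of_notMem (show y ∉ (fun y => y + h) ⁻¹' ball c r from hp)]
          exact indicator_of_notMem hp _
      rw [e1]
      refine (key_poin hf (measurableSet_ball.inter hB) inter_subset_left h (c' := c) (R' := r)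
        fun x hx t ht => (convex_ball c r).add_smul_mem hx.1 hx.2 ht).trans ?_
      exact mul_le_mul_of_nonneg_right (pow_le_pow_left₀ (norm_nonneg _) hh.le 2) hD)
  have e2 : ∀ y ∈ ball c r, ∫ h in ball (0 : E m) (2 * r), Φ y h =
      ∫ x in ball c r, (f x - f y) ^ 2 := by
    intro y hy
    rw [setIntegral_eq_integral_of_forall_compl_eq_zero, ← integral_indicator measurableSet_ball]
    · exact integral_add_left_eq_self ((ball c r).indicator fun x => (f x - f y) ^ 2) y
    · intro h hh
      refine indicator_of_notMem (fun hp => hh ?_) _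
      rw [mem_ball_iff_norm] at hy hp
      rw [mem_ball_zero_iff]
      calc ‖h‖ = ‖(y + h - c) - (y - c)‖ := by congr 1; abel
        _ ≤ ‖y + h - c‖ + ‖y - c‖ := norm_sub_le _ _
        _ < 2 * r := by linarith
  exact ⟨h1.congr_fun e2 measurableSet_ball,
    (setIntegral_congr_fun measurableSet_ball e2).symm.le.trans h2⟩

/-- A lower bound of an integral by the values on a subset. -/
theorem lower_poin {ψ : E m → ℝ} {S T : Set (E m)} (hT : MeasurableSet T) (hTS : T ⊆ S)
    (hi : IntegrableOn ψ S) (h0 : ∀ x, 0 ≤ ψ x) {a : ℝ} (ha : ∀ x ∈ T, ψ x = a) :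
    volume.real T * a ≤ ∫ x in S, ψ x := by
  calc volume.real T * a = ∫ _ in T, a := by rw [setIntegral_const, smul_eq_mul]
    _ = ∫ x in T, ψ x := (setIntegral_congr_fun hT ha).symm
    _ ≤ ∫ x in S, ψ x :=
        setIntegral_mono_set hi (Eventually.of_forall h0) (LE.le.eventuallyLE hTS)

theorem poincare (m : ℕ) : ∃ C > 0, ∀ (f : E m → ℝ) (K : ℝ≥0), LipschitzWith K f →
    ∀ (c : E m) (r : ℝ), 0 < r → ∃ a : ℝ,
      ∫ x in ball c r, (f x - a) ^ 2 ≤ C * r ^ 2 * ∫ x in ball c r, ‖gradient f x‖ ^ 2 := by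
  refine ⟨4 * 2 ^ m, by positivity, fun f K hf c r hr => ?_⟩
  obtain ⟨h1, h2⟩ := dbl_poin hf c hr
  obtain ⟨y, -, hy⟩ := exists_le_setAverage (measure_ball_pos volume c hr).ne'
    measure_ball_lt_top.ne h1
  refine ⟨f y, hy.trans ?_⟩
  have hv : 0 < vb m * r ^ m := mul_pos (vb_pos m) (by positivity)
  rw [setAverage_eq, vol_ball c hr, smul_eq_mul, inv_mul_le_iff₀ hv]
  refine h2.trans (le_of_eq ?_)
  rw [mul_pow]
  ring

theorem poincare_half (m : ℕ) : ∃ C > 0, ∀ (f : E m → ℝ) (K : ℝ≥0), LipschitzWith K f →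
    ∀ (c : E m) (r : ℝ), 0 < r →
      volume.real ({x | f x ≠ 0} ∩ ball c r) ≤ volume.real (ball c r) / 2 →
      ∫ x in ball c r, f x ^ 2 ≤ C * r ^ 2 * ∫ x in ball c r, ‖gradient f x‖ ^ 2 := by
  refine ⟨8 * 2 ^ m, by positivity, fun f K hf c r hr hh => ?_⟩
  obtain ⟨h1, h2⟩ := dbl_poin hf c hr
  have hZ : MeasurableSet {x | f x = 0} := (isClosed_eq hf.continuous continuous_const).measurableSet
  have h3 := lower_poin (T := {x | f x = 0} ∩ ball c r) (hZ.inter measurableSet_ball)
    inter_subset_right h1 (fun y => integral_nonneg fun x => sq_nonneg _)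
    (a := ∫ x in ball c r, f x ^ 2) (fun y hy => by
      have : f y = 0 := hy.1
      simp only [this, sub_zero])
  have h4 : volume.real (ball c r) ≤
      volume.real ({x | f x = 0} ∩ ball c r) + volume.real ({x | f x ≠ 0} ∩ ball c r) := by
    refine le_trans (measureReal_mono (fun x hx => ?_) ?_) (measureReal_union_le _ _)
    · by_cases h : f x = 0
      exacts [Or.inl ⟨h, hx⟩, Or.inr ⟨h, hx⟩]
    · exact ((measure_mono (union_subset inter_subset_right inter_subset_right)).trans_lt
        measure_ball_lt_top).ne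
  rw [vol_ball c hr] at h4 hh
  have hv : 0 < vb m * r ^ m := mul_pos (vb_pos m) (by positivity)
  have hI : 0 ≤ ∫ x in ball c r, f x ^ 2 := integral_nonneg fun x => sq_nonneg _
  have h5 : vb m * r ^ m / 2 * ∫ x in ball c r, f x ^ 2 ≤
      volume.real ({x | f x = 0} ∩ ball c r) * ∫ x in ball c r, f x ^ 2 :=
    mul_le_mul_of_nonneg_right (by linarith) hI
  refine le_of_mul_le_mul_left ((h5.trans (h3.trans h2)).trans (le_of_eq ?_)) (half_pos hv)
  rw [mul_pow]
  ring

/-- Functions that vanish outside a set of small measure. -/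
theorem poincare_small (m : ℕ) {κ : ℝ} (hκ : 0 < κ) : ∃ η > 0, ∀ (f : E m → ℝ) (K : ℝ≥0),
    LipschitzWith K f → ∀ (c : E m) (r : ℝ), 0 < r →
      volume.real ({x | f x ≠ 0} ∩ ball c (2 * r)) ≤ η * r ^ m →
      ∫ x in ball c (3 / 2 * r), f x ^ 2 ≤
        κ * r ^ 2 * ∫ x in ball c (2 * r), ‖gradient f x‖ ^ 2 := by
  obtain ⟨l, hl0, hl1, hl2⟩ : ∃ l : ℝ, 0 < l ∧ l ≤ 1 / 2 ∧ 2 * l ^ 2 ≤ κ := by
    refine ⟨min (1 / 2) κ, lt_min (by norm_num) hκ, min_le_left _ _, ?_⟩
    have h1 := min_le_left (1 / 2 : ℝ) κ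
    have h2 := min_le_right (1 / 2 : ℝ) κ
    have h3 : 0 < min (1 / 2 : ℝ) κ := lt_min (by norm_num) hκ
    nlinarith
  have hvb := vb_pos m
  refine ⟨vb m * l ^ m / 2, by positivity, fun f K hf c r hr hh => ?_⟩
  have hfc := hf.continuous
  have ht : 0 < l * r := mul_pos hl0 hr
  have htr : l * r ≤ r / 2 := by nlinarith
  have hD : 0 ≤ ∫ x in ball c (2 * r), ‖gradient f x‖ ^ 2 :=
    integral_nonneg fun x => by positivity
  obtain ⟨h1, h2⟩ := swap_poin (Φ := fun y h => (f (y + h) - f y) ^ 2)
    (Continuous.measurable (by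
      show Continuous fun p : E m × E m => (f (p.1 + p.2) - f p.1) ^ 2
      fun_prop)) (c := c) (r := 3 / 2 * r) (ρ := l * r) (M := (K * (l * r)) ^ 2)
    (N := (l * r) ^ 2 * ∫ x in ball c (2 * r), ‖gradient f x‖ ^ 2) ht
    (fun y _ h hh => by
      rw [mem_ball_zero_iff] at hh
      rw [abs_pow]
      refine pow_le_pow_left₀ (abs_nonneg _) ((diff_le_poin hf y h).trans ?_) 2
      exact mul_le_mul_of_nonneg_left hh.le K.2)
    (fun h hh => by
      rw [mem_ball_zero_iff] at hh
      refine (transl_est hf c h _).trans (mul_le_mul (pow_le_pow_left₀ (norm_nonneg _) hh.le 2)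
        ?_ (integral_nonneg fun x => by positivity) (by positivity))
      exact setIntegral_mono_set (intOn_grad_poin hf c _)
        (Eventually.of_forall fun x => by positivity)
        (LE.le.eventuallyLE (ball_subset_ball (by linarith))))
  have hv : 0 < vb m * (l * r) ^ m := by positivity
  have h3 : ∀ y ∈ ball c (3 / 2 * r), vb m * (l * r) ^ m / 2 * f y ^ 2 ≤
      ∫ h in ball (0 : E m) (l * r), (f (y + h) - f y) ^ 2 := by
    intro y hy
    have hZ : MeasurableSet {h | f (y + h) = 0} :=
      (isClosed_eq (by fun_prop) continuous_const).measurableSet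
    have h4 := lower_poin (T := {h | f (y + h) = 0} ∩ ball 0 (l * r)) (hZ.inter measurableSet_ball)
      inter_subset_right (intOn_cont_poin (g := fun h => (f (y + h) - f y) ^ 2) (by fun_prop) 0 _)
      (fun h => sq_nonneg _) (a := f y ^ 2) (fun h hh => by
        have : f (y + h) = 0 := hh.1
        simp only [this, zero_sub, neg_sq])
    have hfin : volume ((fun h => y + h) ⁻¹' ({x | f x ≠ 0} ∩ ball c (2 * r))) ≠ ⊤ := by
      rw [measure_preimage_add]
      exact ((measure_mono inter_subset_right).trans_lt measure_ball_lt_top).ne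
    have h5 : volume.real (ball (0 : E m) (l * r)) ≤
        volume.real ({h | f (y + h) = 0} ∩ ball 0 (l * r)) +
          volume.real ((fun h => y + h) ⁻¹' ({x | f x ≠ 0} ∩ ball c (2 * r))) := by
      refine le_trans (measureReal_mono (fun h hh => ?_) ?_) (measureReal_union_le _ _)
      · by_cases h0 : f (y + h) = 0
        · exact Or.inl ⟨h0, hh⟩
        · refine Or.inr ⟨h0, ?_⟩
          rw [mem_ball_iff_norm] at hy ⊢
          rw [mem_ball_zero_iff] at hh
          calc ‖y + h - c‖ = ‖(y - c) + h‖ := by congr 1; abel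
            _ ≤ ‖y - c‖ + ‖h‖ := norm_add_le _ _
            _ < 2 * r := by linarith
      · exact (measure_union_lt_top ((measure_mono inter_subset_right).trans_lt
          measure_ball_lt_top) hfin.lt_top).ne
    have h6 : volume.real ((fun h => y + h) ⁻¹' ({x | f x ≠ 0} ∩ ball c (2 * r))) =
        volume.real ({x | f x ≠ 0} ∩ ball c (2 * r)) := by
      rw [measureReal_def, measureReal_def, measure_preimage_add]
    rw [vol_ball _ ht, h6] at h5
    have h7 : vb m * l ^ m / 2 * r ^ m = vb m * (l * r) ^ m / 2 := by rw [mul_pow]; ring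
    exact (mul_le_mul_of_nonneg_right (by linarith) (sq_nonneg _)).trans h4
  have h8 := setIntegral_mono_on
    ((intOn_cont_poin (g := fun y => f y ^ 2) (by fun_prop) c (3 / 2 * r)).const_mul
      (vb m * (l * r) ^ m / 2)) h1 measurableSet_ball h3
  rw [integral_const_mul] at h8
  have h9 : ∫ x in ball c (3 / 2 * r), f x ^ 2 ≤
      2 * l ^ 2 * r ^ 2 * ∫ x in ball c (2 * r), ‖gradient f x‖ ^ 2 := by
    refine le_of_mul_le_mul_left ((h8.trans h2).trans (le_of_eq ?_)) (half_pos hv)
    ring
  exact h9.trans (mul_le_mul_of_nonneg_right (mul_le_mul_of_nonneg_right hl2 (sq_nonneg r)) hD)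

end Pool.Agent.Lib.MP_8daebb_an.LG
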