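import Pool.Agent.Lib.MP_8daebb_an.LG.Lip

open MeasureTheory Metric Set Filter Topology
open scoped RealInnerProductSpace NNReal

namespace Pool.Agent.Lib.MP_8daebb_an.LG

variable {m : ℕ} {ι : Type}

/-! CUT. The cut-off functions. -/

theorem pr_nonneg (c : E m) (r : ℝ) (x : E m) : 0 ≤ pr c r x :=
  le_max_right _ _

theorem pr_le_one (c : E m) (r : ℝ) (x : E m) : pr c r x ≤ 1 :=
  max_le (sub_le_self _ (by positivity)) zero_le_one

theorem pr_eq_zero {c : E m} {r : ℝ} (hr : 0 < r) {x : E m} (hx : x ∉ ball c r) :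
    pr c r x = 0 := by
  rw [mem_ball_iff_norm, not_lt] at hx
  refine max_eq_right (sub_nonpos.2 ?_)
  rw [one_le_div (by positivity)]
  exact pow_le_pow_left₀ hr.le hx 2

theorem pr_ge {c : E m} {r η : ℝ} (hr : 0 < r) (hη : 0 ≤ η) (hη1 : η ≤ 1) {x : E m}
    (hx : x ∈ ball c ((1 - η) * r)) : η ≤ pr c r x := by
  rw [mem_ball_iff_norm] at hx
  refine le_trans ?_ (le_max_left _ _)
  have h1 : ‖x - c‖ ^ 2 / r ^ 2 ≤ (1 - η) ^ 2 := by
    rw [div_le_iff₀ (by positivity), ← mul_pow]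
    exact pow_le_pow_left₀ (norm_nonneg _) hx.le 2
  nlinarith

theorem pr_ge_half {c : E m} {r : ℝ} (hr : 0 < r) {x : E m} (hx : x ∈ ball c (r / 2)) :
    3 / 4 ≤ pr c r x := by
  rw [mem_ball_iff_norm] at hx
  refine le_trans ?_ (le_max_left _ _)
  have h1 : ‖x - c‖ ^ 2 / r ^ 2 ≤ 1 / 4 := by
    rw [div_le_iff₀ (by positivity)]
    nlinarith [norm_nonneg (x - c)]
  linarith

theorem continuous_pr (c : E m) (r : ℝ) : Continuous (pr c r) := by
  unfold pr
  fun_prop

theorem chi_nonneg (c : E m) (r : ℝ) (x : E m) : 0 ≤ chi c r x :=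
  pow_nonneg (pr_nonneg c r x) 3

theorem chi_le_one (c : E m) (r : ℝ) (x : E m) : chi c r x ≤ 1 :=
  pow_le_one₀ (pr_nonneg c r x) (pr_le_one c r x)

theorem om_nonneg (c : E m) (r : ℝ) (x : E m) : 0 ≤ om c r x :=
  mul_nonneg (by norm_num) (sq_nonneg _)

theorem om_le (c : E m) (r : ℝ) (x : E m) : om c r x ≤ 3 := by
  have h : pr c r x ^ 2 ≤ 1 := pow_le_one₀ (pr_nonneg c r x) (pr_le_one c r x)
  unfold om
  linarith

theorem om_sq_le (c : E m) (r : ℝ) (x : E m) : om c r x ^ 2 ≤ 9 * chi c r x := by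
  have h := mul_le_of_le_one_right (chi_nonneg c r x) (pr_le_one c r x)
  unfold chi at h
  unfold om chi
  nlinarith

theorem om_le_split {c : E m} {r : ℝ} (hr : 0 < r) (x : E m) :
    om c r x ≤ 4 * (‖x - c‖ ^ 2 / r ^ 2) * om c r x + 8 * chi c r x := by
  have h0 := om_nonneg c r x
  have h1 := chi_nonneg c r x
  have h2 : 0 ≤ ‖x - c‖ ^ 2 / r ^ 2 := by positivity
  rcases le_total (1 / 4) (‖x - c‖ ^ 2 / r ^ 2) with h | h
  · nlinarith
  · have h3 : 3 / 4 ≤ pr c r x := le_trans (by linarith) (le_max_left _ _)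
    have h4 : om c r x ≤ 8 * chi c r x := by
      unfold om chi
      nlinarith [sq_nonneg (pr c r x)]
    nlinarith [mul_nonneg h2 h0]

theorem supp_cut {c : E m} {r : ℝ} {φ : E m → ℝ} (h : ∀ x, x ∉ ball c r → φ x = 0) :
    tsupport φ ⊆ closedBall c r :=
  closure_minimal (fun x hx => ball_subset_closedBall (not_not.1 fun h' => hx (h x h')))
    isClosed_closedBall

theorem tsupport_chi {c : E m} {r : ℝ} (hr : 0 < r) : tsupport (chi c r) ⊆ closedBall c r :=
  supp_cut fun x hx => by simp [chi, pr_eq_zero hr hx]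

theorem tsupport_om {c : E m} {r : ℝ} (hr : 0 < r) : tsupport (om c r) ⊆ closedBall c r :=
  supp_cut fun x hx => by simp [om, pr_eq_zero hr hx]

theorem pos_pow_cut (n : ℕ) (t : ℝ) :
    HasDerivAt (fun s : ℝ => max s 0 ^ (n + 2)) ((n + 2 : ℝ) * max t 0 ^ (n + 1)) t := by
  rcases lt_trichotomy t 0 with h | h | h
  · have h1 : (fun s : ℝ => max s 0 ^ (n + 2)) =ᶠ[𝓝 t] fun _ => 0 := by
      filter_upwards [Iio_mem_nhds h] with s hs
      simp [max_eq_right (mem_Iio.1 hs).le]
    rw [max_eq_right h.le]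
    simpa using (hasDerivAt_const t (0 : ℝ)).congr_of_eventuallyEq h1
  · subst h
    rw [hasDerivAt_iff_isLittleO_nhds_zero]
    refine (Asymptotics.IsBigO.of_bound' (Eventually.of_forall fun s => ?_)).trans_isLittleO
      (Asymptotics.isLittleO_pow_id (n := n + 2) (by omega))
    simp only [zero_add, max_self, ne_eq, Nat.add_eq_zero_iff, OfNat.ofNat_ne_zero, and_false,
      not_false_eq_true, zero_pow, sub_zero, one_ne_zero, mul_zero, smul_zero, norm_pow,
      Real.norm_eq_abs]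
    refine pow_le_pow_left₀ (abs_nonneg _) ?_ _
    rw [abs_of_nonneg (le_max_right _ _)]
    exact max_le (le_abs_self s) (abs_nonneg s)
  · have h1 : (fun s : ℝ => max s 0 ^ (n + 2)) =ᶠ[𝓝 t] fun s => s ^ (n + 2) := by
      filter_upwards [Ioi_mem_nhds h] with s hs
      rw [max_eq_left (le_of_lt hs)]
    rw [max_eq_left h.le]
    simpa using (hasDerivAt_pow (n + 2) t).congr_of_eventuallyEq h1

theorem contDiff_pow_cut (c : E m) (r : ℝ) (n : ℕ) : ContDiff ℝ 1 fun x => pr c r x ^ (n + 2) := by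
  have h1 : ContDiff ℝ 1 fun s : ℝ => max s 0 ^ (n + 2) := by
    refine contDiff_one_iff_deriv.2 ⟨fun t => (pos_pow_cut n t).differentiableAt, ?_⟩
    rw [show deriv (fun s : ℝ => max s 0 ^ (n + 2)) = fun t => (n + 2 : ℝ) * max t 0 ^ (n + 1) from
      funext fun t => (pos_pow_cut n t).deriv]
    fun_prop
  have h2 : ContDiff ℝ 1 fun x : E m => 1 - ‖x - c‖ ^ 2 / r ^ 2 :=
    contDiff_const.sub (((contDiff_id.sub contDiff_const).norm_sq ℝ).div_const _)
  exact h1.comp h2

theorem contDiff_chi (c : E m) (r : ℝ) : ContDiff ℝ 1 (chi c r) :=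
  contDiff_pow_cut c r 1

theorem contDiff_om (c : E m) (r : ℝ) : ContDiff ℝ 1 (om c r) :=
  contDiff_const.mul (contDiff_pow_cut c r 0)

theorem grad_pow_cut (c : E m) (r a : ℝ) (n : ℕ) (x : E m) :
    gradient (fun x => a * pr c r x ^ (n + 2)) x =
      -(2 * (a * (n + 2) * pr c r x ^ (n + 1)) / r ^ 2) • (x - c) := by
  have h1 := ((((hasFDerivAt_id x).sub_const c).norm_sq.mul_const (r ^ 2)⁻¹).const_sub 1)
  have h2 := ((pos_pow_cut n _).comp_hasFDerivAt x h1).const_mul a
  refine HasGradientAt.gradient (hasGradientAt_iff_hasFDerivAt.2 (h2.congr_fderiv ?_))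
  ext1 v
  simp [pr, div_eq_mul_inv]
  ring

theorem grad_chi (c : E m) (r : ℝ) (x : E m) :
    gradient (chi c r) x = -(2 * om c r x / r ^ 2) • (x - c) := by
  have h := grad_pow_cut c r 1 1 x
  simp only [one_mul] at h
  refine h.trans ?_
  unfold om
  norm_num

theorem grad_om (c : E m) (r : ℝ) (x : E m) :
    gradient (om c r) x = -(12 * pr c r x / r ^ 2) • (x - c) := by
  refine (grad_pow_cut c r 3 0 x).trans ?_
  congr 1
  push_cast
  ring

theorem ind_cut (c : E m) (r B : ℝ) : Integrable ((ball c r).indicator fun _ => B) :=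
  (integrable_indicator_iff measurableSet_ball).2 (integrableOn_const measure_ball_lt_top.ne)

/-- Products of a function of the profile with a locally bounded function are integrable. -/
theorem int_cut {c : E m} {r : ℝ} (hr : 0 < r) {φ f : E m → ℝ} (hφ : Continuous φ)
    (hφ0 : ∀ x, x ∉ ball c r → φ x = 0) (hf : AEStronglyMeasurable f volume) {C : ℝ}
    (h : ∀ᵐ x, x ∈ ball c r → |f x| ≤ C) : Integrable fun x => φ x * f x := by
  have _ := hr
  obtain ⟨M, hM⟩ := (isCompact_closedBall c r).exists_bound_of_continuousOn hφ.continuousOn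
  refine (ind_cut c r (M * C)).mono' (hφ.aestronglyMeasurable.mul hf) ?_
  filter_upwards [h] with x hx
  by_cases h1 : x ∈ ball c r
  · rw [indicator_of_mem h1, norm_mul]
    have h2 := hM x (ball_subset_closedBall h1)
    exact mul_le_mul h2 (hx h1) (norm_nonneg _) ((norm_nonneg _).trans h2)
  · simp [indicator_of_notMem h1, hφ0 x h1]

theorem der_pow_cut (c : E m) (n : ℕ) (x : E m) {t : ℝ} (ht : 0 < t) :
    HasDerivAt (fun t => pr c t x ^ (n + 2))
      ((n + 2 : ℝ) * pr c t x ^ (n + 1) * (2 * (‖x - c‖ ^ 2 / t ^ 2) / t)) t := by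
  have h1 : HasDerivAt (fun t : ℝ => 1 - ‖x - c‖ ^ 2 / t ^ 2) (2 * (‖x - c‖ ^ 2 / t ^ 2) / t) t := by
    have h2 := ((hasDerivAt_const t (‖x - c‖ ^ 2)).fun_div (hasDerivAt_pow 2 t)
      (pow_pos ht 2).ne').const_sub 1
    refine h2.congr_deriv ?_
    have := ht.ne'
    norm_num
    field_simp
  exact (pos_pow_cut n _).comp t h1

theorem int_pow_cut (c : E m) {r : ℝ} (hr : 0 < r) {f : E m → ℝ} (n : ℕ)
    (hf : AEStronglyMeasurable f volume) {C : ℝ} (h : ∀ᵐ x, x ∈ ball c (2 * r) → |f x| ≤ C) :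
    HasDerivAt (fun t => ∫ x, pr c t x ^ (n + 2) * f x)
      (∫ x, (n + 2 : ℝ) * pr c r x ^ (n + 1) * (2 * (‖x - c‖ ^ 2 / r ^ 2) / r) * f x) r := by
  have hc := continuous_pr c r
  refine (hasDerivAt_integral_of_dominated_loc_of_deriv_le (s := Ioo (r / 2) (2 * r))
    (F' := fun t x => (n + 2 : ℝ) * pr c t x ^ (n + 1) * (2 * (‖x - c‖ ^ 2 / t ^ 2) / t) * f x)
    (bound := (ball c (2 * r)).indicator fun _ => (n + 2 : ℝ) * 1 * (2 * 16 / (r / 2)) * C)
    (Ioo_mem_nhds (by linarith) (by linarith))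
    (Eventually.of_forall fun t => ((continuous_pr c t).pow _).aestronglyMeasurable.mul hf)
    ?_ ?_ ?_ (ind_cut _ _ _) ?_).2
  · refine int_cut (c := c) (C := C) hr (hc.pow _) (fun x hx => by simp [pr_eq_zero hr hx]) hf ?_
    filter_upwards [h] with x hx h1 using hx (ball_subset_ball (by linarith) h1)
  · exact (Continuous.aestronglyMeasurable (by fun_prop)).mul hf
  · filter_upwards [h] with x hx t ht
    have ht0 : 0 < t := by linarith [ht.1]
    by_cases h1 : x ∈ ball c (2 * r)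
    · have h2 := pr_nonneg c t x
      rw [indicator_of_mem h1, norm_mul, Real.norm_of_nonneg (by positivity)]
      refine mul_le_mul ?_ (hx h1) (norm_nonneg _) (by positivity)
      have h3 : ‖x - c‖ ^ 2 / t ^ 2 ≤ 16 := by
        rw [div_le_iff₀ (by positivity)]
        rw [mem_ball_iff_norm] at h1
        nlinarith [norm_nonneg (x - c), ht.1]
      have h4 : pr c t x ^ (n + 1) ≤ 1 := pow_le_one₀ h2 (pr_le_one c t x)
      gcongr
      exact ht.1.le
    · have h2 : pr c t x = 0 := pr_eq_zero ht0 fun h' => h1 (ball_subset_ball ht.2.le h')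
      simp [indicator_of_notMem h1, h2]
  · exact Eventually.of_forall fun x t ht =>
      (der_pow_cut c n x (by linarith [ht.1])).mul_const (f x)

theorem hasDerivAt_int_chi (c : E m) {r : ℝ} (hr : 0 < r) {f : E m → ℝ}
    (hf : AEStronglyMeasurable f volume) {C : ℝ} (h : ∀ᵐ x, x ∈ ball c (2 * r) → |f x| ≤ C) :
    HasDerivAt (fun t => ∫ x, chi c t x * f x)
      ((∫ x, 2 * (‖x - c‖ ^ 2 / r ^ 2) * om c r x * f x) / r) r := by
  refine (int_pow_cut c hr 1 hf h).congr_deriv ?_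
  rw [← integral_div]
  refine integral_congr_ae (Eventually.of_forall fun x => ?_)
  simp only [om]
  push_cast
  ring

theorem hasDerivAt_int_om (c : E m) {r : ℝ} (hr : 0 < r) {f : E m → ℝ}
    (hf : AEStronglyMeasurable f volume) {C : ℝ} (h : ∀ᵐ x, x ∈ ball c (2 * r) → |f x| ≤ C) :
    HasDerivAt (fun t => ∫ x, om c t x * f x)
      ((∫ x, 12 * (‖x - c‖ ^ 2 / r ^ 2) * pr c r x * f x) / r) r := by
  have h1 := (int_pow_cut c hr 0 hf h).const_mul 3
  simp only [← integral_const_mul, ← mul_assoc] at h1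
  refine h1.congr_deriv ?_
  rw [← integral_div]
  refine integral_congr_ae (Eventually.of_forall fun x => ?_)
  push_cast
  ring

end Pool.Agent.Lib.MP_8daebb_an.LG
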