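import Pool.Agent.Lib.MP_8daebb_an.LG.Lip

open MeasureTheory Metric Set Filter Topology
open scoped RealInnerProductSpace NNReal

namespace Pool.Agent.Lib.MP_8daebb_an.LG

variable {m : ℕ} {ι : Type}

/-! VIT. Vitali covering and Lebesgue points. -/

theorem fin_ball_vit (c : E m) (r : ℝ) : IsFiniteMeasure (volume.restrict (ball c r)) :=
  ⟨by rw [Measure.restrict_apply_univ]; exact measure_ball_lt_top⟩

theorem ball_ae_vit (x : E m) {r : ℝ} (hr : 0 < r) : ball x r =ᵐ[volume] closedBall x r :=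
  ae_eq_of_subset_of_measure_ge ball_subset_closedBall
    (by rw [Measure.addHaar_closedBall _ x hr.le, Measure.addHaar_ball_of_pos _ x hr])
    measurableSet_ball.nullMeasurableSet measure_closedBall_lt_top.ne

theorem mem_cb_vit (x : E m) : ∀ᶠ r : ℝ in 𝓝[>] 0, x ∈ closedBall x (1 * r) := by
  filter_upwards [self_mem_nhdsWithin] with r hr
  exact mem_closedBall_self (by rw [one_mul]; exact le_of_lt hr)

theorem avg_eq_vit (f : E m → ℝ) (x : E m) {r : ℝ} (hr : 0 < r) :
    vb m * ⨍ y in closedBall x r, f y = (∫ y in ball x r, f y) / r ^ m := by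
  rw [← setAverage_congr (ball_ae_vit x hr), setAverage_eq, vol_ball x hr, smul_eq_mul]
  have h1 := (vb_pos m).ne'
  have h2 := (pow_pos hr m).ne'
  field_simp

theorem close_vit {g k : E m → ℝ} {c : E m} {r A : ℝ} (hr : 0 < r)
    (hg : IntegrableOn g (ball c r)) (hk : IntegrableOn k (ball c r))
    (h : ∀ y, A ≤ 2 * g y + 2 * k y) :
    A * (vb m * r ^ m) ≤ 2 * (∫ y in ball c r, g y) + 2 * ∫ y in ball c r, k y := by
  haveI : IsFiniteMeasure (volume.restrict (ball c r)) := fin_ball_vit c r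
  have h1 : ∫ _ in ball c r, A ≤ ∫ y in ball c r, (2 * g y + 2 * k y) :=
    integral_mono (integrable_const A) ((hg.const_mul 2).add (hk.const_mul 2)) h
  rw [setIntegral_const, vol_ball c hr, smul_eq_mul, integral_add (hg.const_mul 2) (hk.const_mul 2),
    integral_const_mul, integral_const_mul] at h1
  linarith

/-- The Vitali covering argument. -/
theorem vitali_sum {F G : E m → ℝ} {S T : Set (E m)} {r₀ : ℝ} (hF0 : ∀ x, 0 ≤ F x)
    (hG0 : ∀ x, 0 ≤ G x) (hF : LocallyIntegrable F) (hG : IntegrableOn G T)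
    (h : ∀ x ∈ S, ∃ r, 0 < r ∧ r ≤ r₀ ∧ ball x r ⊆ T ∧
      ∫ y in ball x (6 * r), F y ≤ ∫ y in ball x r, G y) :
    ∫ x in S, F x ≤ ∫ x in T, G x := by
  classical
  choose! r hr0 hr1 hrT hrI using h
  obtain ⟨u, huS, hud, hcov⟩ :=
    Vitali.exists_disjoint_subfamily_covering_enlargement_closedBall S (fun x => x) r r₀ hr1 5
      (by norm_num)
  have hud' : u.PairwiseDisjoint fun a => ball a (r a) :=
    hud.mono fun _ => ball_subset_closedBall
  have huc : u.Countable :=
    hud'.countable_of_isOpen (fun _ _ => isOpen_ball) fun a ha => nonempty_ball.2 (hr0 a (huS ha))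
  haveI : Countable u := huc.to_subtype
  have hsub : S ⊆ ⋃ b : u, ball (b : E m) (6 * r b) := by
    intro a ha
    obtain ⟨b, hb, hab⟩ := hcov a ha
    refine mem_iUnion.2 ⟨⟨b, hb⟩, ?_⟩
    have h1 : a ∈ closedBall b (5 * r b) := hab (mem_closedBall_self (hr0 a ha).le)
    exact closedBall_subset_ball (by linarith [hr0 b (huS hb)]) h1
  have key : ∫⁻ x in S, ENNReal.ofReal (F x) ≤ ∫⁻ x in T, ENNReal.ofReal (G x) := by
    calc ∫⁻ x in S, ENNReal.ofReal (F x)
        ≤ ∫⁻ x in ⋃ b : u, ball (b : E m) (6 * r b), ENNReal.ofReal (F x) := lintegral_mono_set hsub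
      _ ≤ ∑' b : u, ∫⁻ x in ball (b : E m) (6 * r b), ENNReal.ofReal (F x) :=
          lintegral_iUnion_le _ _
      _ ≤ ∑' b : u, ∫⁻ x in ball (b : E m) (r b), ENNReal.ofReal (G x) := by
          refine ENNReal.tsum_le_tsum fun b => ?_
          have hFi : IntegrableOn F (ball (b : E m) (6 * r b)) :=
            (hF.integrableOn_isCompact (isCompact_closedBall _ _)).mono_set ball_subset_closedBall
          have hGi : IntegrableOn G (ball (b : E m) (r b)) := hG.mono_set (hrT b (huS b.2))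
          rw [← ofReal_integral_eq_lintegral_ofReal hFi (Eventually.of_forall hF0),
            ← ofReal_integral_eq_lintegral_ofReal hGi (Eventually.of_forall hG0)]
          exact ENNReal.ofReal_le_ofReal (hrI b (huS b.2))
      _ = ∫⁻ x in ⋃ b ∈ u, ball b (r b), ENNReal.ofReal (G x) :=
          (lintegral_biUnion huc (fun _ _ => measurableSet_ball) hud' _).symm
      _ ≤ ∫⁻ x in T, ENNReal.ofReal (G x) :=
          lintegral_mono_set (iUnion₂_subset fun b hb => hrT b (huS hb))
  rw [integral_eq_lintegral_of_nonneg_ae (Eventually.of_forall hF0)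
      hF.aestronglyMeasurable.restrict,
    integral_eq_lintegral_of_nonneg_ae (Eventually.of_forall hG0) hG.aestronglyMeasurable]
  refine ENNReal.toReal_mono ?_ key
  rw [← ofReal_integral_eq_lintegral_ofReal hG (Eventually.of_forall hG0)]
  exact ENNReal.ofReal_ne_top

theorem ae_lebesgue {f : E m → ℝ} (hf : LocallyIntegrable f) : ∀ᵐ x,
    Tendsto (fun r : ℝ => (∫ y in ball x r, f y) / r ^ m) (𝓝[>] 0) (𝓝 (vb m * f x)) := by
  filter_upwards [IsUnifLocDoublingMeasure.ae_tendsto_average volume hf 1] with x hx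
  have h1 := (hx (fun _ : ℝ => x) (fun r => r) tendsto_id (mem_cb_vit x)).const_mul (vb m)
  refine h1.congr' ?_
  filter_upwards [self_mem_nhdsWithin] with r hr
  exact avg_eq_vit f x hr

theorem ae_lebesgue_norm {Ψ : E m → E m} (hf : LocallyIntegrable Ψ) : ∀ᵐ x,
    Tendsto (fun r : ℝ => (∫ y in ball x r, ‖Ψ y - Ψ x‖) / r ^ m) (𝓝[>] 0) (𝓝 0) := by
  filter_upwards [IsUnifLocDoublingMeasure.ae_tendsto_average_norm_sub volume hf 1] with x hx
  have h1 := (hx (fun _ : ℝ => x) (fun r => r) tendsto_id (mem_cb_vit x)).const_mul (vb m)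
  rw [mul_zero] at h1
  refine h1.congr' ?_
  filter_upwards [self_mem_nhdsWithin] with r hr
  exact avg_eq_vit (fun y => ‖Ψ y - Ψ x‖) x hr

/-- The Cauchy-Schwarz inequality on a ball. -/
theorem int_le_sqrt {f : E m → ℝ} {c : E m} {r : ℝ} (hr : 0 < r)
    (hf : AEStronglyMeasurable f (volume.restrict (ball c r)))
    (h2 : IntegrableOn (fun y => f y ^ 2) (ball c r)) :
    IntegrableOn f (ball c r) ∧
      ∫ y in ball c r, |f y| ≤ √(vb m * r ^ m) * √(∫ y in ball c r, f y ^ 2) := by
  haveI : IsFiniteMeasure (volume.restrict (ball c r)) := fin_ball_vit c r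
  have hi : IntegrableOn f (ball c r) :=
    ((memLp_two_iff_integrable_sq hf).2 h2).integrable (by norm_num)
  refine ⟨hi, ?_⟩
  have hV : 0 < vb m * r ^ m := mul_pos (vb_pos m) (pow_pos hr m)
  set V := vb m * r ^ m with hVd
  set I := ∫ y in ball c r, |f y| with hI
  set J := ∫ y in ball c r, f y ^ 2 with hJ
  have hia : IntegrableOn (fun y => |f y|) (ball c r) := hi.abs
  have h0 : 0 ≤ ∫ y in ball c r, (f y ^ 2 - 2 * (I / V) * |f y| + (I / V) ^ 2) := by
    refine integral_nonneg fun y => ?_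
    have : f y ^ 2 - 2 * (I / V) * |f y| + (I / V) ^ 2 = (|f y| - I / V) ^ 2 := by
      rw [← sq_abs (f y)]; ring
    simp only [Pi.zero_apply]
    rw [this]; exact sq_nonneg _
  have hs : Integrable (fun y => f y ^ 2 - 2 * (I / V) * |f y|) (volume.restrict (ball c r)) :=
    h2.sub (hia.const_mul _)
  rw [integral_add hs (integrable_const _), integral_sub h2 (hia.const_mul _), integral_const_mul,
    setIntegral_const, vol_ball c hr, smul_eq_mul, ← hVd, ← hI, ← hJ] at h0
  have h1 : I ^ 2 ≤ V * J := by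
    have e : J - 2 * (I / V) * I + V * (I / V) ^ 2 = J - I ^ 2 / V := by
      field_simp; ring
    rw [e, sub_nonneg, div_le_iff₀ hV] at h0
    linarith
  rw [← Real.sqrt_mul hV.le]
  exact Real.le_sqrt_of_sq_le h1

/-- Two vectors that are both close to a square integrable field on a ball are close. -/
theorem close_of_int {Ψ : E m → E m} {c : E m} {r : ℝ} (hr : 0 < r)
    (hΨ : MemLp Ψ 2 (volume.restrict (ball c r))) (p q : E m) :
    ‖p - q‖ ^ 2 * (vb m * r ^ m) ≤
      2 * (∫ y in ball c r, ‖Ψ y - p‖ ^ 2) + 2 * ∫ y in ball c r, ‖Ψ y - q‖ ^ 2 := by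
  haveI : IsFiniteMeasure (volume.restrict (ball c r)) := fin_ball_vit c r
  have hi : ∀ p : E m, Integrable (fun y => ‖Ψ y - p‖ ^ 2) (volume.restrict (ball c r)) := by
    intro p
    have h1 : MemLp (fun y => Ψ y - p) 2 (volume.restrict (ball c r)) := hΨ.sub (memLp_const p)
    exact (memLp_two_iff_integrable_sq_norm h1.aestronglyMeasurable).1 h1
  refine close_vit hr (hi p) (hi q) fun y => ?_
  have h1 : ‖p - q‖ ≤ ‖Ψ y - p‖ + ‖Ψ y - q‖ := by
    have : p - q = (Ψ y - q) - (Ψ y - p) := by abel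
    rw [this, add_comm]
    exact norm_sub_le _ _
  have h2 : ‖p - q‖ ^ 2 ≤ (‖Ψ y - p‖ + ‖Ψ y - q‖) ^ 2 := pow_le_pow_left₀ (norm_nonneg _) h1 2
  nlinarith [sq_nonneg (‖Ψ y - p‖ - ‖Ψ y - q‖)]

/-- The same for numbers. -/
theorem close_of_int' {f : E m → ℝ} {c : E m} {r : ℝ} (hr : 0 < r) (hf : Continuous f)
    (a b : ℝ) : (a - b) ^ 2 * (vb m * r ^ m) ≤
      2 * (∫ y in ball c r, (f y - a) ^ 2) + 2 * ∫ y in ball c r, (f y - b) ^ 2 := by
  have hi : ∀ a : ℝ, IntegrableOn (fun y => (f y - a) ^ 2) (ball c r) := by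
    intro a
    have h1 : Continuous fun y => (f y - a) ^ 2 := by fun_prop
    exact (h1.continuousOn.integrableOn_compact (isCompact_closedBall c r)).mono_set
      ball_subset_closedBall
  refine close_vit hr (hi a) (hi b) fun y => ?_
  nlinarith [sq_nonneg (f y - a + (f y - b))]

/-- Some value is at most the average. -/
theorem exists_le_avg {f : E m → ℝ} {c : E m} {r A : ℝ} (hr : 0 < r)
    (hf : IntegrableOn f (ball c r)) (h : ∫ y in ball c r, f y ≤ A * (vb m * r ^ m)) :
    ∃ y ∈ ball c r, f y ≤ A := by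
  have hV : 0 < vb m * r ^ m := mul_pos (vb_pos m) (pow_pos hr m)
  obtain ⟨y, hy, h1⟩ := exists_le_setAverage (measure_ball_pos volume c hr).ne'
    measure_ball_lt_top.ne hf
  refine ⟨y, hy, h1.trans ?_⟩
  rw [setAverage_eq, vol_ball c hr, smul_eq_mul, ← div_eq_inv_mul, div_le_iff₀ hV]
  exact h

end Pool.Agent.Lib.MP_8daebb_an.LG
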