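import Pool.Agent.Lib.MP_8daebb_an.LG.Base

open MeasureTheory Metric Set Filter Topology
open scoped RealInnerProductSpace NNReal

namespace Pool.Agent.Lib.MP_8daebb_an.LG

variable {m : ℕ} {ι : Type}

/-! ALGC. Traces and chains. -/

theorem norm_eb_algc (b : Fin m) : ‖(eb b : E m)‖ = 1 := by
  simp [eb]

theorem inner_eb_algc (x : E m) (b : Fin m) : ⟪x, eb b⟫ = x b := by
  simp [eb, EuclideanSpace.inner_single_right]

theorem abs_sum_eb_le_algc (A : E m → E m) {c : ℝ} (h : ∀ b, ‖A (eb b)‖ ≤ c) :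
    |∑ b, ⟪A (eb b), eb b⟫| ≤ m * c := by
  calc |∑ b, ⟪A (eb b), eb b⟫| ≤ ∑ b, |⟪A (eb b), eb b⟫| := Finset.abs_sum_le_sum_abs _ _
    _ ≤ ∑ _b : Fin m, c := by
        refine Finset.sum_le_sum fun b _ => ?_
        calc |⟪A (eb b), eb b⟫| ≤ ‖A (eb b)‖ * ‖(eb b : E m)‖ := abs_real_inner_le_norm _ _
          _ = ‖A (eb b)‖ := by rw [norm_eb_algc, mul_one]
          _ ≤ c := h b
    _ = m * c := by simp

theorem abs_trS_le (S : E m →L[ℝ] E m) : |trS S| ≤ m * ‖S‖ := by
  refine abs_sum_eb_le_algc (fun x => S x) fun b => ?_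
  calc ‖S (eb b)‖ ≤ ‖S‖ * ‖(eb b : E m)‖ := S.le_opNorm _
    _ = ‖S‖ := by rw [norm_eb_algc, mul_one]

theorem trS_id : trS (ContinuousLinearMap.id ℝ (E m)) = m := by
  unfold trS
  have : ∀ b : Fin m, ⟪(ContinuousLinearMap.id ℝ (E m)) (eb b), eb b⟫ = (1 : ℝ) := by
    intro b
    rw [ContinuousLinearMap.id_apply, real_inner_self_eq_norm_sq, norm_eb_algc]
    norm_num
  simp only [this]
  simp

theorem trS_add (S T : E m →L[ℝ] E m) : trS (S + T) = trS S + trS T := by
  unfold trS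
  rw [← Finset.sum_add_distrib]
  refine Finset.sum_congr rfl fun b _ => ?_
  rw [add_apply, inner_add_left]

theorem trS_smul (c : ℝ) (S : E m →L[ℝ] E m) : trS (c • S) = c * trS S := by
  unfold trS
  rw [Finset.mul_sum]
  refine Finset.sum_congr rfl fun b _ => ?_
  rw [smul_apply, real_inner_smul_left]

theorem sum_inner_eb_algc (x y : E m) : ∑ b, ⟪x, eb b⟫ * ⟪y, eb b⟫ = ⟪x, y⟫ := by
  simp only [inner_eb_algc]
  rw [PiLp.inner_apply]
  refine Finset.sum_congr rfl fun b _ => ?_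
  simp [mul_comm]

/-- The trace of the rank one map `y ↦ ⟪a, y⟫ • b`. -/
theorem trS_rankOne (a b : E m) : trS ((innerSL ℝ a).smulRight b) = ⟪a, b⟫ := by
  unfold trS
  rw [← sum_inner_eb_algc a b]
  refine Finset.sum_congr rfl fun k _ => ?_
  rw [ContinuousLinearMap.smulRight_apply, innerSL_apply_apply, real_inner_smul_left]

theorem sum_inner_eb (x y : E m) : ∑ b, ⟪x, eb b⟫ * ⟪y, eb b⟫ = ⟪x, y⟫ :=
  sum_inner_eb_algc x y

theorem abs_sum_eb_le (A : E m → E m) {c : ℝ} (h : ∀ b, ‖A (eb b)‖ ≤ c) :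
    |∑ b, ⟪A (eb b), eb b⟫| ≤ m * c :=
  abs_sum_eb_le_algc A h

theorem grad_quad {S : E m →L[ℝ] E m} (hS : Sym S) (p c : E m) (a : ℝ) (y : E m) :
    HasGradientAt (fun y => a + ⟪p, y - c⟫ + ⟪S (y - c), y - c⟫ / 2) (p + S (y - c)) y := by
  have h0 : HasFDerivAt (fun y : E m => y - c) (ContinuousLinearMap.id ℝ (E m)) y :=
    (hasFDerivAt_id y).sub_const c
  have h1 : HasFDerivAt (fun y : E m => S (y - c)) (S.comp (ContinuousLinearMap.id ℝ (E m))) y :=
    S.hasFDerivAt.comp y h0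
  have h2 := (hasFDerivAt_const p y).inner ℝ h0
  have h3 := h1.inner ℝ h0
  have h4 := (h2.const_add a).add (h3.mul_const (2 : ℝ)⁻¹)
  rw [hasGradientAt_iff_hasFDerivAt]
  have e1 : (fun y => a + ⟪p, y - c⟫ + ⟪S (y - c), y - c⟫ / 2) =
      (fun y => a + ⟪p, y - c⟫) + fun y => ⟪S (y - c), y - c⟫ * (2 : ℝ)⁻¹ := by
    funext y
    simp [div_eq_mul_inv]
  rw [e1]
  refine h4.congr_fderiv (ContinuousLinearMap.ext fun v => ?_)
  have := hS v (y - c)
  simp only [InnerProductSpace.toDual_apply_apply, inner_add_left, add_apply,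
    ContinuousLinearMap.comp_apply, ContinuousLinearMap.prod_apply, fderivInnerCLM_apply,
    ContinuousLinearMap.id_apply, zero_apply, inner_zero_left,
    smul_apply, smul_eq_mul]
  rw [this, real_inner_comm (S (y - c)) v]
  ring

theorem chain_card_algc [DecidableEq ι] (s : Finset ι) (a : ι → ℝ) {δ : ℝ} (hδ : 0 ≤ δ)
    (h : ∀ J ⊆ s, J.Nonempty → J ≠ s → ∃ i ∈ J, ∃ j ∈ s \ J, |a i - a j| ≤ δ)
    {l : ι} (hl : l ∈ s) (k : ℕ) :
    k + 1 ≤ (s.filter fun i => a i ≤ a l + k * δ).card ∨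
      (s.filter fun i => a i ≤ a l + k * δ) = s := by
  induction k with
  | zero =>
    left
    refine Finset.card_pos.2 ⟨l, ?_⟩
    simp [hl]
  | succ k ih =>
    have hsub : (s.filter fun i => a i ≤ a l + k * δ) ⊆
        s.filter fun i => a i ≤ a l + ((k + 1 : ℕ) : ℝ) * δ := by
      intro i hi
      rw [Finset.mem_filter] at hi ⊢
      refine ⟨hi.1, ?_⟩
      have := hi.2
      push_cast
      nlinarith
    by_cases hs : (s.filter fun i => a i ≤ a l + k * δ) = s
    · right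
      refine Finset.Subset.antisymm (Finset.filter_subset _ _) ?_
      intro i hi
      apply hsub
      rw [hs]
      exact hi
    · left
      have hk := ih.resolve_right hs
      have hne : (s.filter fun i => a i ≤ a l + k * δ).Nonempty :=
        Finset.card_pos.1 (by omega)
      obtain ⟨i, hi, j, hj, hij⟩ := h _ (Finset.filter_subset _ _) hne hs
      rw [Finset.mem_sdiff] at hj
      have hj' : j ∈ s.filter fun i => a i ≤ a l + ((k + 1 : ℕ) : ℝ) * δ := by
        rw [Finset.mem_filter] at hi ⊢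
        refine ⟨hj.1, ?_⟩
        have h1 := hi.2
        have h2 := (abs_le.1 hij).1
        push_cast
        linarith
      have hss : (s.filter fun i => a i ≤ a l + k * δ) ⊂
          s.filter fun i => a i ≤ a l + ((k + 1 : ℕ) : ℝ) * δ :=
        (Finset.ssubset_iff_of_subset hsub).2 ⟨j, hj', hj.2⟩
      have := Finset.card_lt_card hss
      omega

/-- If every proper part of a finite family of numbers is `δ`-close to the rest, all numbers are
close to each other. -/
theorem chain_bound [DecidableEq ι] (s : Finset ι) (a : ι → ℝ) {δ : ℝ} (hδ : 0 ≤ δ)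
    (h : ∀ J ⊆ s, J.Nonempty → J ≠ s → ∃ i ∈ J, ∃ j ∈ s \ J, |a i - a j| ≤ δ) :
    ∀ i ∈ s, ∀ j ∈ s, |a i - a j| ≤ s.card * δ := by
  have key : ∀ l ∈ s, ∀ i ∈ s, a i ≤ a l + s.card * δ := by
    intro l hl i hi
    rcases chain_card_algc s a hδ h hl s.card with h1 | h1
    · have := Finset.card_le_card
        (Finset.filter_subset (fun i => a i ≤ a l + (s.card : ℝ) * δ) s)
      omega
    · have : i ∈ s.filter fun i => a i ≤ a l + (s.card : ℝ) * δ := by
        rw [h1]
        exact hi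
      exact (Finset.mem_filter.1 this).2
  intro i hi j hj
  have h1 := key i hi j hj
  have h2 := key j hj i hi
  rw [abs_le]
  constructor <;> linarith

end Pool.Agent.Lib.MP_8daebb_an.LG
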