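import Pool.Agent.Lib.MP_8daebb_an.LG.Base

open MeasureTheory Metric Set Filter Topology
open scoped RealInnerProductSpace NNReal

namespace Pool.Agent.Lib.MP_8daebb_an.LG

variable {m : ℕ} {ι : Type}

/-! ALGA. Elementary inequalities for the area integrand. -/

theorem one_le_W (p : E m) : 1 ≤ W p :=
  Real.one_le_sqrt.mpr (by nlinarith [sq_nonneg ‖p‖])

theorem W_pos_alga (p : E m) : 0 < W p := lt_of_lt_of_le one_pos (one_le_W p)

theorem W_sq (p : E m) : W p ^ 2 = 1 + ‖p‖ ^ 2 :=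
  Real.sq_sqrt (by positivity)

theorem norm_le_W (p : E m) : ‖p‖ ≤ W p :=
  Real.le_sqrt_of_sq_le (by linarith)

theorem one_le_WL (L : ℝ) : 1 ≤ WL L :=
  Real.one_le_sqrt.mpr (by nlinarith [sq_nonneg L])

theorem W_le_WL {p : E m} {L : ℝ} (h : ‖p‖ ≤ L) : W p ≤ WL L :=
  Real.sqrt_le_sqrt (by nlinarith [norm_nonneg p])

theorem contDiff_W : ContDiff ℝ ⊤ (W : E m → ℝ) :=
  (contDiff_const.add (contDiff_norm_sq ℝ)).sqrt (fun x => by positivity)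

theorem contDiff_aa : ContDiff ℝ ⊤ (aa : E m → E m) :=
  (contDiff_W.inv fun p => (W_pos_alga p).ne').smul contDiff_id

theorem continuous_MM : Continuous fun z : E m × E m => MM z.1 z.2 := by
  have h : Continuous fun z : E m × E m => W z.1 := contDiff_W.continuous.comp continuous_fst
  exact (h.smul continuous_snd).sub (((continuous_fst.inner continuous_snd).div h
    fun z => (W_pos_alga z.1).ne').smul continuous_fst)

theorem continuous_AA : Continuous fun z : E m × E m => AA z.1 z.2 := by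
  have h : Continuous fun z : E m × E m => W z.1 := contDiff_W.continuous.comp continuous_fst
  exact ((h.inv₀ fun z => (W_pos_alga z.1).ne').smul continuous_snd).sub
    (((continuous_fst.inner continuous_snd).div (h.pow 3)
      fun z => (pow_pos (W_pos_alga z.1) 3).ne').smul continuous_fst)

theorem hasDerivAt_W_alga {γ : ℝ → E m} {h : E m} {t : ℝ} (hγ : HasDerivAt γ h t) :
    HasDerivAt (fun s => W (γ s)) (⟪γ t, h⟫ / W (γ t)) t := by
  have h1 : HasDerivAt (fun s => 1 + ‖γ s‖ ^ 2) (2 * ⟪γ t, h⟫) t := hγ.norm_sq.const_add 1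
  have h2 := h1.sqrt (by positivity)
  refine h2.congr_deriv ?_
  rw [W]
  have : √(1 + ‖γ t‖ ^ 2) ≠ 0 := (W_pos_alga (γ t)).ne'
  field_simp

theorem hasDerivAt_Winv_alga {γ : ℝ → E m} {h : E m} {t : ℝ} (hγ : HasDerivAt γ h t) :
    HasDerivAt (fun s => (W (γ s))⁻¹) (-(⟪γ t, h⟫ / W (γ t) ^ 3)) t := by
  have h0 := (W_pos_alga (γ t)).ne'
  refine ((hasDerivAt_W_alga hγ).inv h0).congr_deriv ?_
  field_simp

theorem hasDerivAt_aa_alga {γ : ℝ → E m} {h : E m} {t : ℝ} (hγ : HasDerivAt γ h t) :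
    HasDerivAt (fun s => aa (γ s)) (AA (γ t) h) t := by
  refine ((hasDerivAt_Winv_alga hγ).smul hγ).congr_deriv ?_
  rw [AA, neg_smul, sub_eq_add_neg]

theorem hasDerivAt_line_alga (p q : E m) (t : ℝ) : HasDerivAt (fun s : ℝ => p + s • q) q t := by
  simpa using ((hasDerivAt_id t).smul_const q).const_add p

theorem fderiv_W (p q : E m) : fderiv ℝ W p q = ⟪aa p, q⟫ := by
  have h1 : HasFDerivAt W (fderiv ℝ W p) (p + (0 : ℝ) • q) := by
    simpa using (contDiff_W.differentiable (by simp) p).hasFDerivAt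
  have h2 := h1.comp_hasDerivAt (0 : ℝ) (hasDerivAt_line_alga p q 0)
  have h3 := hasDerivAt_W_alga (hasDerivAt_line_alga p q 0)
  rw [h2.unique h3, aa, real_inner_smul_left]
  simp only [zero_smul, add_zero]
  ring

theorem fderiv_aa (p q : E m) : fderiv ℝ aa p q = AA p q := by
  have h1 : HasFDerivAt aa (fderiv ℝ aa p) (p + (0 : ℝ) • q) := by
    simpa using (contDiff_aa.differentiable (by simp) p).hasFDerivAt
  have h2 := h1.comp_hasDerivAt (0 : ℝ) (hasDerivAt_line_alga p q 0)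
  have h3 := hasDerivAt_aa_alga (hasDerivAt_line_alga p q 0)
  rw [h2.unique h3]
  simp only [zero_smul, add_zero]

theorem AA_add (p q q' : E m) : AA p (q + q') = AA p q + AA p q' := by
  simp only [AA, inner_add_right, add_div, add_smul, smul_add]
  abel

theorem AA_smul (p q : E m) (c : ℝ) : AA p (c • q) = c • AA p q := by
  simp only [AA, real_inner_smul_right, smul_sub, smul_smul]
  rw [mul_comm c (W p)⁻¹, mul_div_assoc]

theorem AA_symm (p q q' : E m) : ⟪AA p q, q'⟫ = ⟪q, AA p q'⟫ := by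
  simp only [AA, inner_sub_left, inner_sub_right, real_inner_smul_left, real_inner_smul_right]
  rw [real_inner_comm p q]
  ring

theorem norm_sub_smul_alga (p q : E m) (a b : ℝ) :
    ‖a • q - b • p‖ ^ 2 = a ^ 2 * ‖q‖ ^ 2 - 2 * (a * b * ⟪p, q⟫) + b ^ 2 * ‖p‖ ^ 2 := by
  rw [norm_sub_sq_real, norm_smul, norm_smul, real_inner_smul_left, real_inner_smul_right,
    real_inner_comm, mul_pow, mul_pow, Real.norm_eq_abs, Real.norm_eq_abs, sq_abs, sq_abs]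
  ring

theorem norm_MM_le (p e : E m) : ‖MM p e‖ ≤ W p * ‖e‖ := by
  have h0 := W_pos_alga p
  refine (pow_le_pow_iff_left₀ (norm_nonneg _) (by positivity) two_ne_zero).mp ?_
  rw [MM, norm_sub_smul_alga]
  have h1 : (⟪p, e⟫ / W p) ^ 2 * ‖p‖ ^ 2 ≤ (⟪p, e⟫ / W p) ^ 2 * W p ^ 2 :=
    mul_le_mul_of_nonneg_left (by rw [W_sq]; linarith) (sq_nonneg _)
  have h2 : (⟪p, e⟫ / W p) ^ 2 * W p ^ 2 = ⟪p, e⟫ ^ 2 := by field_simp
  have h3 : W p * (⟪p, e⟫ / W p) * ⟪p, e⟫ = ⟪p, e⟫ ^ 2 := by field_simp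
  nlinarith [sq_nonneg ⟪p, e⟫]

theorem norm_AA_le (p q : E m) : ‖AA p q‖ ≤ ‖q‖ := by
  have h0 := W_pos_alga p
  have h1 : AA p q = (W p ^ 2)⁻¹ • MM p q := by
    rw [AA, MM, smul_sub, smul_smul, smul_smul]
    congr 2 <;> field_simp
  rw [h1, norm_smul, Real.norm_eq_abs, abs_of_pos (by positivity)]
  refine (mul_le_mul_of_nonneg_left (norm_MM_le p q) (by positivity)).trans ?_
  have h2 : (W p ^ 2)⁻¹ * (W p * ‖q‖) = ‖q‖ / W p := by field_simp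
  rw [h2]
  exact div_le_self (norm_nonneg _) (one_le_W p)

theorem AA_coercive {p : E m} {L : ℝ} (h : ‖p‖ ≤ L) (q : E m) :
    ‖q‖ ^ 2 ≤ WL L ^ 3 * ⟪AA p q, q⟫ := by
  have h0 := W_pos_alga p
  have h1 : W p ^ 3 * ⟪AA p q, q⟫ = W p ^ 2 * ‖q‖ ^ 2 - ⟪p, q⟫ ^ 2 := by
    simp only [AA, inner_sub_left, real_inner_smul_left, real_inner_self_eq_norm_sq]
    field_simp
  have h2 : ⟪p, q⟫ ^ 2 ≤ ‖p‖ ^ 2 * ‖q‖ ^ 2 := by
    rw [← mul_pow, ← sq_abs]
    exact pow_le_pow_left₀ (abs_nonneg _) (abs_real_inner_le_norm p q) 2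
  have h3 : ‖q‖ ^ 2 ≤ W p ^ 3 * ⟪AA p q, q⟫ := by
    rw [h1, W_sq]
    linarith
  have h4 : 0 ≤ ⟪AA p q, q⟫ :=
    nonneg_of_mul_nonneg_right (h3.trans' (sq_nonneg _)) (pow_pos h0 3)
  exact h3.trans (mul_le_mul_of_nonneg_right (pow_le_pow_left₀ h0.le (W_le_WL h) 3) h4)

theorem AA_sub_self (p q : E m) : ‖AA p q - q‖ ≤ 2 * ‖p‖ ^ 2 * ‖q‖ := by
  have h0 := W_pos_alga p
  have h1 := one_le_W p
  have e : AA p q - q = ((W p)⁻¹ - 1) • q - (⟪p, q⟫ / W p ^ 3) • p := by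
    rw [AA, sub_smul, one_smul]
    abel
  have h2 : |(W p)⁻¹ - 1| ≤ ‖p‖ ^ 2 := by
    have h3 : (W p)⁻¹ ≤ 1 := inv_le_one_of_one_le₀ h1
    have h4 : W p * (W p)⁻¹ = 1 := mul_inv_cancel₀ h0.ne'
    rw [abs_of_nonpos (by linarith)]
    nlinarith [W_sq p, inv_pos.mpr h0]
  have h3 : |⟪p, q⟫ / W p ^ 3| ≤ ‖p‖ * ‖q‖ := by
    rw [abs_div, abs_of_pos (pow_pos h0 3)]
    exact (div_le_self (abs_nonneg _) (one_le_pow₀ h1)).trans (abs_real_inner_le_norm p q)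
  rw [e]
  refine (norm_sub_le _ _).trans ?_
  rw [norm_smul, norm_smul, Real.norm_eq_abs, Real.norm_eq_abs]
  nlinarith [mul_le_mul_of_nonneg_right h2 (norm_nonneg q),
    mul_le_mul_of_nonneg_right h3 (norm_nonneg p)]

theorem hasDerivAt_AA_alga {γ : ℝ → E m} {h : E m} {t : ℝ} (hγ : HasDerivAt γ h t) (q : E m) :
    HasDerivAt (fun s => AA (γ s) q) (-(⟪γ t, h⟫ / W (γ t) ^ 3) • q -
      ((⟪γ t, q⟫ / W (γ t) ^ 3) • h + (⟪h, q⟫ / W (γ t) ^ 3 -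
        3 * ⟪γ t, q⟫ * ⟪γ t, h⟫ / W (γ t) ^ 5) • γ t)) t := by
  have h0 := (W_pos_alga (γ t)).ne'
  have h1 : HasDerivAt (fun s => ⟪γ s, q⟫) ⟪h, q⟫ t := by
    simpa using hγ.inner ℝ (hasDerivAt_const t q)
  have h2 : HasDerivAt (fun s => ⟪γ s, q⟫ / W (γ s) ^ 3) (⟪h, q⟫ / W (γ t) ^ 3 -
      3 * ⟪γ t, q⟫ * ⟪γ t, h⟫ / W (γ t) ^ 5) t := by
    refine (h1.div ((hasDerivAt_W_alga hγ).pow 3) (pow_ne_zero 3 h0)).congr_deriv ?_
    simp only [Pi.pow_apply]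
    field_simp
    ring
  exact ((hasDerivAt_Winv_alga hγ).smul_const q).sub (h2.smul hγ)

theorem norm_D3_alga (p h q : E m) :
    ‖-(⟪p, h⟫ / W p ^ 3) • q - ((⟪p, q⟫ / W p ^ 3) • h + (⟪h, q⟫ / W p ^ 3 -
        3 * ⟪p, q⟫ * ⟪p, h⟫ / W p ^ 5) • p)‖ ≤ 6 * ‖h‖ * ‖q‖ := by
  have h0 := W_pos_alga p
  have h1 := one_le_W p
  have hp := norm_le_W p
  have hp3 : ‖p‖ ≤ W p ^ 3 := hp.trans (le_self_pow₀ h1 (by norm_num))
  have key : ∀ x : E m, |⟪p, x⟫ / W p ^ 3| ≤ ‖x‖ := fun x => by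
    rw [abs_div, abs_of_pos (pow_pos h0 3), div_le_iff₀ (pow_pos h0 3)]
    nlinarith [abs_real_inner_le_norm p x, mul_le_mul_of_nonneg_left hp3 (norm_nonneg x)]
  have k2 : |⟪h, q⟫ / W p ^ 3| * ‖p‖ ≤ ‖h‖ * ‖q‖ := by
    rw [abs_div, abs_of_pos (pow_pos h0 3), div_mul_eq_mul_div, div_le_iff₀ (pow_pos h0 3)]
    exact mul_le_mul (abs_real_inner_le_norm h q) hp3 (norm_nonneg _) (by positivity)
  have k3 : |3 * ⟪p, q⟫ * ⟪p, h⟫ / W p ^ 5| * ‖p‖ ≤ 3 * (‖h‖ * ‖q‖) := by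
    rw [abs_div, abs_of_pos (pow_pos h0 5), div_mul_eq_mul_div, div_le_iff₀ (pow_pos h0 5),
      abs_mul, abs_mul, abs_of_pos (by norm_num : (0 : ℝ) < 3)]
    have a1 : |⟪p, q⟫| * |⟪p, h⟫| ≤ (‖p‖ * ‖q‖) * (‖p‖ * ‖h‖) :=
      mul_le_mul (abs_real_inner_le_norm p q) (abs_real_inner_le_norm p h) (abs_nonneg _)
        (by positivity)
    have a2 : ‖p‖ ^ 3 ≤ W p ^ 5 :=
      (pow_le_pow_left₀ (norm_nonneg _) hp 3).trans (pow_le_pow_right₀ h1 (by norm_num))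
    have a3 := mul_le_mul_of_nonneg_right a1 (norm_nonneg p)
    have a4 := mul_le_mul_of_nonneg_left a2 (by positivity : 0 ≤ ‖h‖ * ‖q‖)
    nlinarith
  have k4 : |⟪h, q⟫ / W p ^ 3 - 3 * ⟪p, q⟫ * ⟪p, h⟫ / W p ^ 5| * ‖p‖ ≤ 4 * (‖h‖ * ‖q‖) := by
    have := mul_le_mul_of_nonneg_right
      (abs_sub (⟪h, q⟫ / W p ^ 3) (3 * ⟪p, q⟫ * ⟪p, h⟫ / W p ^ 5)) (norm_nonneg p)
    linarith
  refine (norm_sub_le _ _).trans ((add_le_add_right (norm_add_le _ _) _).trans ?_)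
  simp only [norm_smul, Real.norm_eq_abs, abs_neg]
  nlinarith [mul_le_mul_of_nonneg_right (key h) (norm_nonneg q),
    mul_le_mul_of_nonneg_right (key q) (norm_nonneg h)]

theorem mvt_alga {F : Type} [NormedAddCommGroup F] [NormedSpace ℝ F] {f f' : ℝ → F} {C : ℝ}
    (hf : ∀ t, HasDerivAt f (f' t) t) (hb : ∀ t, 0 ≤ t → t ≤ 1 → ‖f' t‖ ≤ C) :
    ‖f 1 - f 0‖ ≤ C :=
  norm_image_sub_le_of_norm_deriv_le_segment_01' (fun t _ => (hf t).hasDerivWithinAt)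
    fun t ht => hb t ht.1 ht.2.le

theorem AA_lip (p p' q : E m) : ‖AA p q - AA p' q‖ ≤ 6 * ‖p - p'‖ * ‖q‖ := by
  have h := mvt_alga (fun t => hasDerivAt_AA_alga (hasDerivAt_line_alga p' (p - p') t) q)
    (fun t _ _ => norm_D3_alga _ _ _)
  simpa using h

theorem norm_aa_le (p : E m) : ‖aa p‖ ≤ ‖p‖ := by
  rw [aa, norm_smul, Real.norm_eq_abs, abs_of_pos (inv_pos.mpr (W_pos_alga p))]
  exact mul_le_of_le_one_left (norm_nonneg _) (inv_le_one_of_one_le₀ (one_le_W p))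

theorem norm_aa_le_one (p : E m) : ‖aa p‖ ≤ 1 := by
  rw [aa, norm_smul, Real.norm_eq_abs, abs_of_pos (inv_pos.mpr (W_pos_alga p)),
    inv_mul_le_iff₀ (W_pos_alga p), mul_one]
  exact norm_le_W p

theorem aa_lip (p q : E m) : ‖aa p - aa q‖ ≤ ‖p - q‖ := by
  have h := mvt_alga (fun t => hasDerivAt_aa_alga (hasDerivAt_line_alga q (p - q) t))
    (fun t _ _ => norm_AA_le _ _)
  simpa using h

theorem aa_taylor (p q : E m) : ‖aa (p + q) - aa p - AA p q‖ ≤ 6 * ‖q‖ ^ 2 := by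
  have h := mvt_alga (C := 6 * ‖q‖ ^ 2) (fun t => (hasDerivAt_aa_alga
    (hasDerivAt_line_alga p q t)).sub (hasDerivAt_line_alga 0 (AA p q) t)) (fun t h0 h1 => by
      refine (AA_lip _ _ _).trans ?_
      rw [add_sub_cancel_left, norm_smul, Real.norm_eq_abs, abs_of_nonneg h0]
      nlinarith [mul_le_mul_of_nonneg_right h1 (sq_nonneg ‖q‖)])
  have e : aa (p + q) - aa p - AA p q = aa (p + q) - AA p q - aa p := by abel
  rw [e]
  simpa using h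

theorem W_taylor (p q : E m) :
    |W (p + q) - W p - ⟪aa p, q⟫ - ⟪AA p q, q⟫ / 2| ≤ 6 * ‖q‖ ^ 3 := by
  have hd : ∀ t : ℝ, HasDerivAt
      (fun s : ℝ => W (p + s • q) - s * ⟪aa p, q⟫ - s ^ 2 * (⟪AA p q, q⟫ / 2))
      ⟪aa (p + t • q) - aa p - AA p (t • q), q⟫ t := by
    intro t
    have h1 := hasDerivAt_W_alga (hasDerivAt_line_alga p q t)
    have h2 := (hasDerivAt_id t).mul_const ⟪aa p, q⟫
    have h3 := (hasDerivAt_pow 2 t).mul_const (⟪AA p q, q⟫ / 2)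
    refine ((h1.sub h2).sub h3).congr_deriv ?_
    rw [inner_sub_left, inner_sub_left, AA_smul, real_inner_smul_left, aa, aa,
      real_inner_smul_left, real_inner_smul_left]
    push_cast
    ring
  have h := mvt_alga (C := 6 * ‖q‖ ^ 3) hd (fun t h0 h1 => by
    refine (norm_inner_le_norm (𝕜 := ℝ) _ _).trans ?_
    have h2 := aa_taylor p (t • q)
    rw [norm_smul, Real.norm_eq_abs, abs_of_nonneg h0] at h2
    have h3 : (t * ‖q‖) ^ 2 ≤ ‖q‖ ^ 2 :=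
      pow_le_pow_left₀ (by positivity) (mul_le_of_le_one_left (norm_nonneg _) h1) 2
    nlinarith [mul_le_mul_of_nonneg_right (h2.trans (by linarith : _ ≤ 6 * ‖q‖ ^ 2))
      (norm_nonneg q)])
  rw [Real.norm_eq_abs] at h
  convert h using 2
  simp only [one_smul, zero_smul, add_zero]
  ring

end Pool.Agent.Lib.MP_8daebb_an.LG
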