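import Pool.Agent.Lib.MP_8daebb_an.LG.AlgA

open MeasureTheory Metric Set Filter Topology
open scoped RealInnerProductSpace NNReal

namespace Pool.Agent.Lib.MP_8daebb_an.LG

variable {m : ℕ} {ι : Type}

/-! ALGB. The monotone modification and the radial weight. -/

theorem ta_eq {p : E m} {L : ℝ} (h : ‖p‖ ≤ L) : ta L p = aa p := by
  have h1 : (WL L)⁻¹ ≤ (W p)⁻¹ :=
    inv_anti₀ (lt_of_lt_of_le one_pos (one_le_W p)) (W_le_WL h)
  rw [ta, max_eq_left h1, aa]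

theorem low_algb {s t a b w : ℝ} (ht : 0 ≤ t) (hts : t ≤ s) (ha : a ^ 2 = 1 + s ^ 2)
    (hb : b ^ 2 = 1 + t ^ 2) (a1 : 1 ≤ a) (b1 : 1 ≤ b) (haw : a ≤ w) :
    (w ^ 3)⁻¹ * (s - t) ≤ s * a⁻¹ - t * b⁻¹ := by
  have hba : b ≤ a := by
    by_contra h
    nlinarith
  have h1 : 1 + s * t ≤ a * b := by
    refine le_of_sq_le_sq ?_ (by positivity)
    rw [mul_pow, ha, hb]
    nlinarith [sq_nonneg (s - t)]
  have hs : 0 ≤ s := ht.trans hts
  have h2 : s - t ≤ (s * b - t * a) * a := by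
    have := mul_le_mul_of_nonneg_left h1 hs
    nlinarith
  have h3 : a * a * b ≤ w ^ 3 := by
    have k1 : a * a * b ≤ a * a * a := mul_le_mul_of_nonneg_left hba (by positivity)
    have k2 : a ^ 3 ≤ w ^ 3 := pow_le_pow_left₀ (by positivity) haw 3
    nlinarith
  have h4 : (w ^ 3)⁻¹ ≤ (a * a * b)⁻¹ := inv_anti₀ (by positivity) h3
  have h5 : s * a⁻¹ - t * b⁻¹ = (a * a * b)⁻¹ * ((s * b - t * a) * a) := by
    field_simp
  rw [h5]
  exact mul_le_mul h4 h2 (by linarith) (by positivity)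

theorem rad_algb {s t a b w l : ℝ} (ht : 0 ≤ t) (hts : t ≤ s) (ha : a ^ 2 = 1 + s ^ 2)
    (hb : b ^ 2 = 1 + t ^ 2) (a1 : 1 ≤ a) (b1 : 1 ≤ b) (hl : 0 ≤ l) (hw : w ^ 2 = 1 + l ^ 2)
    (w1 : 1 ≤ w) :
    (w ^ 3)⁻¹ * (s - t) ≤ s * max a⁻¹ w⁻¹ - t * max b⁻¹ w⁻¹ ∧
      s * max a⁻¹ w⁻¹ - t * max b⁻¹ w⁻¹ ≤ s - t := by
  have hs : 0 ≤ s := ht.trans hts
  have hba : b ≤ a := by
    by_contra h
    nlinarith
  have w3 : (w ^ 3)⁻¹ ≤ w⁻¹ := inv_anti₀ (by positivity) (le_self_pow₀ w1 (by norm_num))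
  have m1 : s * a⁻¹ ≤ s * max a⁻¹ w⁻¹ := mul_le_mul_of_nonneg_left (le_max_left _ _) hs
  have m2 : s * w⁻¹ ≤ s * max a⁻¹ w⁻¹ := mul_le_mul_of_nonneg_left (le_max_right _ _) hs
  constructor
  · rcases le_total w b with h | h
    · rw [max_eq_right (inv_anti₀ (by positivity) h)]
      have := mul_le_mul_of_nonneg_right w3 (sub_nonneg.2 hts)
      nlinarith
    · rw [max_eq_left (inv_anti₀ (by positivity) h)]
      rcases le_total a w with h' | h'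
      · linarith [low_algb ht hts ha hb a1 b1 h']
      · have k1 : t ≤ l := by
          by_contra k
          nlinarith
        have k2 : l ≤ s := by
          by_contra k
          nlinarith
        have k3 := low_algb ht k1 hw hb w1 b1 le_rfl
        have k4 := mul_le_mul_of_nonneg_right w3 (sub_nonneg.2 k2)
        nlinarith
  · have k1 : max a⁻¹ w⁻¹ ≤ max b⁻¹ w⁻¹ := max_le_max (inv_anti₀ (by positivity) hba) le_rfl
    have k2 : max b⁻¹ w⁻¹ ≤ 1 := max_le (inv_le_one_of_one_le₀ b1) (inv_le_one_of_one_le₀ w1)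
    have k3 := mul_le_mul_of_nonneg_left k1 hs
    have k4 := mul_le_mul_of_nonneg_left k2 (sub_nonneg.2 hts)
    nlinarith

theorem WL_sq_algb (L : ℝ) : WL L ^ 2 = 1 + |L| ^ 2 := by
  rw [WL, Real.sq_sqrt (by positivity), sq_abs]

theorem kap_algb (L : ℝ) : 0 < (WL L ^ 3)⁻¹ ∧ (WL L ^ 3)⁻¹ ≤ 1 := by
  have w1 := one_le_WL L
  exact ⟨by positivity, inv_le_one_of_one_le₀ (one_le_pow₀ w1)⟩

theorem ta_contract (L : ℝ) (p q : E m) :
    ‖(p - ta L p) - (q - ta L q)‖ ≤ (1 - (WL L ^ 3)⁻¹) * ‖p - q‖ := by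
  have w1 := one_le_WL L
  have w3 : (WL L ^ 3)⁻¹ ≤ (WL L)⁻¹ :=
    inv_anti₀ (by positivity) (le_self_pow₀ w1 (by norm_num))
  have hk := (kap_algb L).2
  have hf : ∀ x : E m, 0 ≤ 1 - max (W x)⁻¹ (WL L)⁻¹ ∧
      1 - max (W x)⁻¹ (WL L)⁻¹ ≤ 1 - (WL L ^ 3)⁻¹ := fun x =>
    ⟨sub_nonneg.2 (max_le (inv_le_one_of_one_le₀ (one_le_W x)) (inv_le_one_of_one_le₀ w1)),
      by linarith [le_max_right (W x)⁻¹ (WL L)⁻¹]⟩
  have he : ∀ x : E m, x - ta L x = (1 - max (W x)⁻¹ (WL L)⁻¹) • x := fun x => by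
    rw [ta, sub_smul, one_smul]
  have hr : ∀ x y : E m, ‖y‖ ≤ ‖x‖ →
      ((1 - max (W x)⁻¹ (WL L)⁻¹) * ‖x‖ - (1 - max (W y)⁻¹ (WL L)⁻¹) * ‖y‖) ^ 2 ≤
        ((1 - (WL L ^ 3)⁻¹) * (‖x‖ - ‖y‖)) ^ 2 := by
    intro x y h
    obtain ⟨k1, k2⟩ := rad_algb (norm_nonneg y) h (W_sq x) (W_sq y) (one_le_W x) (one_le_W y)
      (abs_nonneg L) (WL_sq_algb L) w1
    exact pow_le_pow_left₀ (by linarith) (by linarith) 2
  have hr' : ((1 - max (W p)⁻¹ (WL L)⁻¹) * ‖p‖ - (1 - max (W q)⁻¹ (WL L)⁻¹) * ‖q‖) ^ 2 ≤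
      ((1 - (WL L ^ 3)⁻¹) * (‖p‖ - ‖q‖)) ^ 2 := by
    rcases le_total ‖q‖ ‖p‖ with h | h
    · exact hr p q h
    · have := hr q p h
      nlinarith
  rw [he, he]
  obtain ⟨a0, a1⟩ := hf p
  obtain ⟨b0, b1⟩ := hf q
  generalize 1 - max (W p)⁻¹ (WL L)⁻¹ = a at *
  generalize 1 - max (W q)⁻¹ (WL L)⁻¹ = b at *
  have k0 : 0 ≤ 1 - (WL L ^ 3)⁻¹ := by linarith
  generalize 1 - (WL L ^ 3)⁻¹ = k at *
  refine le_of_sq_le_sq ?_ (by positivity)
  rw [mul_pow, norm_sub_sq_real, norm_sub_sq_real, norm_smul, norm_smul, real_inner_smul_left,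
    real_inner_smul_right, Real.norm_of_nonneg a0, Real.norm_of_nonneg b0]
  have h1 : a * b ≤ k ^ 2 := by nlinarith [mul_le_mul a1 b1 b0 k0]
  have h2 := mul_le_mul_of_nonneg_left (real_inner_le_norm p q) (sub_nonneg.2 h1)
  nlinarith

theorem ta_lip (L : ℝ) (p q : E m) : ‖ta L p - ta L q‖ ≤ 2 * ‖p - q‖ := by
  have h := ta_contract L p q
  have hk := (kap_algb L).1
  have e : ta L p - ta L q = (p - q) - ((p - ta L p) - (q - ta L q)) := by abel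
  rw [e]
  refine (norm_sub_le _ _).trans ?_
  nlinarith [norm_nonneg (p - q)]

theorem ta_mono (L : ℝ) (p q : E m) : ‖p - q‖ ^ 2 ≤ WL L ^ 3 * ⟪ta L p - ta L q, p - q⟫ := by
  have h := ta_contract L p q
  have w1 := one_le_WL L
  have e : ta L p - ta L q = (p - q) - ((p - ta L p) - (q - ta L q)) := by abel
  have h1 := real_inner_le_norm ((p - ta L p) - (q - ta L q)) (p - q)
  have h2 := mul_le_mul_of_nonneg_right h (norm_nonneg (p - q))
  rw [e, inner_sub_left, real_inner_self_eq_norm_sq, ← inv_mul_le_iff₀ (by positivity)]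
  nlinarith

theorem aa_mono {p q : E m} {L : ℝ} (hp : ‖p‖ ≤ L) (hq : ‖q‖ ≤ L) :
    ‖p - q‖ ^ 2 ≤ WL L ^ 3 * ⟪aa p - aa q, p - q⟫ := by
  rw [← ta_eq hp, ← ta_eq hq]
  exact ta_mono L p q

theorem ta_taylor {L : ℝ} (hL : 1 ≤ L) {p : E m} (hp : ‖p‖ ≤ 1 / 2) (q : E m) :
    ‖ta L (p + q) - aa p - AA p q‖ ≤ 6 * ‖q‖ ^ 2 := by
  rcases le_total ‖q‖ (1 / 2) with h | h
  · rw [ta_eq (show ‖p + q‖ ≤ L by linarith [norm_add_le p q])]
    exact aa_taylor p q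
  · have h1 := ta_lip L (p + q) p
    rw [add_sub_cancel_left, ta_eq (show ‖p‖ ≤ L by linarith)] at h1
    have h2 := norm_AA_le p q
    refine (norm_sub_le _ _).trans ?_
    nlinarith

theorem mu_le (p x : E m) : mu p x ≤ 1 := by
  refine div_le_one_of_le₀ ((real_inner_le_norm _ _).trans ?_) (by positivity)
  rw [sq]
  exact mul_le_mul_of_nonneg_right (norm_AA_le p x) (norm_nonneg x)

theorem mu_nonneg (p x : E m) : 0 ≤ mu p x := by
  have w1 := one_le_WL ‖p‖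
  refine div_nonneg ?_ (by positivity)
  exact nonneg_of_mul_nonneg_right ((sq_nonneg _).trans (AA_coercive le_rfl x)) (by positivity)

theorem mu_ge {p : E m} {L : ℝ} (h : ‖p‖ ≤ L) {x : E m} (hx : x ≠ 0) :
    1 ≤ WL L ^ 3 * mu p x := by
  have h0 : 0 < ‖x‖ := norm_pos_iff.2 hx
  rw [mu, ← mul_div_assoc, one_le_div (by positivity)]
  exact AA_coercive h x

theorem mu_sub_one (p : E m) {x : E m} (hx : x ≠ 0) : |mu p x - 1| ≤ 2 * ‖p‖ ^ 2 := by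
  have h0 : 0 < ‖x‖ := norm_pos_iff.2 hx
  have e : mu p x - 1 = ⟪AA p x - x, x⟫ / ‖x‖ ^ 2 := by
    rw [mu, inner_sub_left, real_inner_self_eq_norm_sq, sub_div, div_self (by positivity)]
  rw [e, abs_div, abs_of_pos (by positivity : 0 < ‖x‖ ^ 2), div_le_iff₀ (by positivity)]
  refine (abs_real_inner_le_norm _ _).trans ?_
  nlinarith [mul_le_mul_of_nonneg_right (AA_sub_self p x) h0.le]

theorem mu_lip (p p' x : E m) : |mu p x - mu p' x| ≤ 6 * ‖p - p'‖ := by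
  rw [mu, mu, ← sub_div, ← inner_sub_left, abs_div, abs_of_nonneg (by positivity : 0 ≤ ‖x‖ ^ 2)]
  refine div_le_of_le_mul₀ (by positivity) (by positivity) ?_
  refine (abs_real_inner_le_norm _ _).trans ?_
  nlinarith [mul_le_mul_of_nonneg_right (AA_lip p p' x) (norm_nonneg x)]

theorem measurable_mu : Measurable fun z : E m × E m => mu z.1 z.2 :=
  (continuous_AA.inner continuous_snd).measurable.div (continuous_snd.norm.pow 2).measurable

end Pool.Agent.Lib.MP_8daebb_an.LG
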