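import Pool.Agent.Lib.MP_8daebb_an.LG.Defs

/-!
Working definitions for the proof.
-/

open MeasureTheory Metric Set Filter Topology
open scoped RealInnerProductSpace NNReal

namespace Pool.Agent.Lib.MP_8daebb_an.LG

variable {m : ℕ} {ι : Type}

/-- The area element. -/
noncomputable def W (p : E m) : ℝ := √(1 + ‖p‖ ^ 2)

/-- The area element for slope `L`. -/
noncomputable def WL (L : ℝ) : ℝ := √(1 + L ^ 2)

/-- The gradient of the area element. -/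
noncomputable def aa (p : E m) : E m := (W p)⁻¹ • p

/-- The stress matrix `W I - p ⊗ p / W` applied to `e`. -/
noncomputable def MM (p e : E m) : E m := W p • e - (⟪p, e⟫ / W p) • p

/-- The Hessian of the area element applied to `q`. -/
noncomputable def AA (p q : E m) : E m := (W p)⁻¹ • q - (⟪p, q⟫ / W p ^ 3) • p

/-- The uniformly monotone modification of `aa` outside the ball of radius `L`. -/
noncomputable def ta (L : ℝ) (p : E m) : E m := max (W p)⁻¹ (WL L)⁻¹ • p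

/-- The standard basis. -/
noncomputable def eb (b : Fin m) : E m := EuclideanSpace.single b 1

/-- The trace of a linear map. -/
noncomputable def trS (S : E m →L[ℝ] E m) : ℝ := ∑ b, ⟪S (eb b), eb b⟫

/-- The trace of `A(p) S`. -/
noncomputable def trA (p : E m) (S : E m →L[ℝ] E m) : ℝ := ∑ b, ⟪AA p (S (eb b)), eb b⟫

/-- Symmetric linear maps. -/
def Sym (S : E m →L[ℝ] E m) : Prop := ∀ x y, ⟪S x, y⟫ = ⟪x, S y⟫

/-- The divergence of a vector field. -/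
noncomputable def dv (Y : E m → E m) (x : E m) : ℝ := trS (fderiv ℝ Y x)

/-- Weakly divergence free vector fields. -/
def DivFree (Ξ : E m → E m) (Ω : Set (E m)) : Prop :=
  ∀ ζ : E m → ℝ, LocallyLipschitz ζ → HasCompactSupport ζ → tsupport ζ ⊆ Ω →
    ∫ x, ⟪Ξ x, gradient ζ x⟫ = 0

/-- Stationarity of the sum of the graphs of `u i`, `i ∈ s`, over `Ω`, tested with locally
Lipschitz functions. -/
def Stat (s : Finset ι) (u : ι → E m → ℝ) (Ω : Set (E m)) : Prop :=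
  ∀ ψ : E m × ℝ → ℝ, LocallyLipschitz ψ → ∀ K : Set (E m), IsCompact K → K ⊆ Ω →
    (∀ i ∈ s, ∀ x, x ∉ K → ψ (x, u i x) = 0) →
    (∑ i ∈ s, ∫ x, ⟪aa (gradient (u i) x), gradient (fun y => ψ (y, u i y)) x⟫ = 0) ∧
      ∀ e : E m,
        ∑ i ∈ s, ∫ x, ⟪MM (gradient (u i) x) e, gradient (fun y => ψ (y, u i y)) x⟫ = 0

/-- The basic profile `(1 - |x - c|² / r²)₊`. -/
noncomputable def pr (c : E m) (r : ℝ) (x : E m) : ℝ := max (1 - ‖x - c‖ ^ 2 / r ^ 2) 0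

/-- The cut-off function. -/
noncomputable def chi (c : E m) (r : ℝ) (x : E m) : ℝ := pr c r x ^ 3

/-- The boundary weight; `∇ chi = -(2 om / r²) (x - c)`. -/
noncomputable def om (c : E m) (r : ℝ) (x : E m) : ℝ := 3 * pr c r x ^ 2

/-- The energy relative to the slope `p`. -/
noncomputable def En (s : Finset ι) (u : ι → E m → ℝ) (p c : E m) (r : ℝ) : ℝ :=
  ∫ x in ball c r, ∑ i ∈ s, ‖gradient (u i) x - p‖ ^ 2

/-- The cubic energy relative to the slope `p`. -/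
noncomputable def En3 (s : Finset ι) (u : ι → E m → ℝ) (p c : E m) (r : ℝ) : ℝ :=
  ∫ x in ball c r, ∑ i ∈ s, ‖gradient (u i) x - p‖ ^ 3

/-- The squared height relative to the level `z`. -/
noncomputable def Ht (s : Finset ι) (u : ι → E m → ℝ) (z : ℝ) (c : E m) (r : ℝ) : ℝ :=
  ∫ x in ball c r, ∑ i ∈ s, (u i x - z) ^ 2

/-! ### The frequency quantities relative to a horizontal plane -/

noncomputable def dF (s : Finset ι) (u : ι → E m → ℝ) (c : E m) (r : ℝ) : ℝ :=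
  r ^ 2 / r ^ m * ∫ x, chi c r x * ∑ i ∈ s, 2 * (W (gradient (u i) x) - 1)

noncomputable def tF (s : Finset ι) (u : ι → E m → ℝ) (c : E m) (r : ℝ) : ℝ :=
  r ^ 2 / r ^ m * ∫ x, chi c r x * ∑ i ∈ s, ‖gradient (u i) x‖ ^ 2 / W (gradient (u i) x)

noncomputable def rF (s : Finset ι) (u : ι → E m → ℝ) (c : E m) (r : ℝ) : ℝ :=
  2 / r ^ m * ∫ x, om c r x * ∑ i ∈ s, ⟪x - c, gradient (u i) x⟫ ^ 2 / W (gradient (u i) x)

noncomputable def hF (s : Finset ι) (u : ι → E m → ℝ) (z : ℝ) (c : E m) (r : ℝ) : ℝ :=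
  2 / r ^ m * ∫ x, om c r x * ∑ i ∈ s, (u i x - z) ^ 2

noncomputable def t0F (s : Finset ι) (u : ι → E m → ℝ) (z : ℝ) (c : E m) (r : ℝ) : ℝ :=
  2 / r ^ m * ∫ x, om c r x * ∑ i ∈ s, (u i x - z) * ⟪x - c, gradient (u i) x⟫

/-! ### The average, the separation and the intrinsic frequency quantities -/

section
variable [Fintype ι]

/-- The average of the sheets. -/
noncomputable def wav (u : ι → E m → ℝ) (x : E m) : ℝ := (Fintype.card ι : ℝ)⁻¹ * ∑ i, u i x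

/-- The sheets minus their average. -/
noncomputable def vv (u : ι → E m → ℝ) (i : ι) (x : E m) : ℝ := u i x - wav u x

/-- The average flux. -/
noncomputable def Xi (u : ι → E m → ℝ) (x : E m) : E m :=
  (Fintype.card ι : ℝ)⁻¹ • ∑ i, aa (gradient (u i) x)

/-- The separation energy in the ball of radius `r` about `c`. -/
noncomputable def Sep (u : ι → E m → ℝ) (c : E m) (r : ℝ) : ℝ := En Finset.univ (vv u) 0 c r

/-- The separation energy about the origin. -/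
noncomputable def DD (u : ι → E m → ℝ) (r : ℝ) : ℝ := Sep u 0 r

/-- The weight `⟨A(p) x, x⟩ / |x|²`. -/
noncomputable def mu (p x : E m) : ℝ := ⟪AA p x, x⟫ / ‖x‖ ^ 2

noncomputable def qI (u : ι → E m → ℝ) (x : E m) : ℝ :=
  ∑ i, ⟪AA (gradient (wav u) x) (gradient (vv u i) x), gradient (vv u i) x⟫

noncomputable def kI (u : ι → E m → ℝ) (x : E m) : ℝ :=
  mu (gradient (wav u) x) x * ∑ i, vv u i x ^ 2

noncomputable def dI (u : ι → E m → ℝ) (r : ℝ) : ℝ :=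
  r ^ 2 / r ^ m * ∫ x, chi 0 r x * qI u x

noncomputable def dI1 (u : ι → E m → ℝ) (r : ℝ) : ℝ :=
  (2 - m) * dI u r + r ^ 2 / r ^ m * ∫ x, 2 * (‖x‖ ^ 2 / r ^ 2) * om 0 r x * qI u x

noncomputable def hI (u : ι → E m → ℝ) (r : ℝ) : ℝ :=
  2 / r ^ m * ∫ x, om 0 r x * kI u x

noncomputable def hI1 (u : ι → E m → ℝ) (r : ℝ) : ℝ :=
  -(m : ℝ) * hI u r + 2 / r ^ m * ∫ x, 12 * (‖x‖ ^ 2 / r ^ 2) * pr 0 r x * kI u x

noncomputable def UI (u : ι → E m → ℝ) (Ψ : E m → E m) (r : ℝ) : ℝ :=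
  2 / r ^ m * ∫ x, om 0 r x * ∑ i, vv u i x * ⟪AA (Ψ x) (gradient (vv u i) x), x⟫

noncomputable def rI (u : ι → E m → ℝ) (Ψ : E m → E m) (r : ℝ) : ℝ :=
  2 / r ^ m * ∫ x, om 0 r x * ∑ i, ⟪AA (Ψ x) (gradient (vv u i) x), x⟫ ^ 2 / mu (Ψ x) x

/-- The normalised setting at unit scale. -/
structure Setting (L : ℝ≥0) (ε : ℝ) (u : ι → E m → ℝ) : Prop where
  lip : ∀ i, LipschitzWith L (u i)
  zero : ∀ i, u i 0 = 0
  stat : Stat Finset.univ u (ball 0 2)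
  en : En Finset.univ u 0 0 1 ≤ ε ^ 2
  dec : ∀ t ∈ Ioc (0 : ℝ) 2, DD u t ≤ ε ^ 2 * (t / 5) ^ (m + 3)
  half : ∀ t ∈ Ioc (0 : ℝ) 2, volume.real ({x | ∃ i j, u i x ≠ u j x} ∩ ball 0 t) ≤
    volume.real (ball (0 : E m) t) / 2
  flat : Tendsto (fun t : ℝ => En Finset.univ u 0 0 t / t ^ m) (𝓝[>] 0) (𝓝 0)
  inf : ∀ k : ℕ, ∃ C : ℝ, ∀ t ∈ Ioc (0 : ℝ) 1, DD u t ≤ C * t ^ k

/-- The separation energy is small at all scales above `l` around the ball of radius `r`. -/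
def Good (ε : ℝ) (u : ι → E m → ℝ) (r l : ℝ) : Prop :=
  ∀ t ∈ Icc l 1, DD u (r + t) ≤ ε ^ 2 * t ^ (m + 3)

/-- A centre: `Ψ = ∇ w + g` is the Lipschitz gradient of a minimal graph over the ball of radius
`ρ > r`, and all superlinear errors are at most `δ² D`. -/
structure Centre (L : ℝ≥0) (u : ι → E m → ℝ) (Ψ g : E m → E m) (r ρ CP δ D : ℝ) : Prop where
  r_pos : 0 < r
  r_le : r ≤ 1 / 4
  lt : r < ρ
  δ_pos : 0 < δ
  δ_le : δ ≤ 1
  lip : ∀ i, LipschitzWith L (u i)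
  zero : ∀ i, u i 0 = 0
  stat : Stat Finset.univ u (ball 0 ρ)
  lipΨ : LipschitzWith 1 Ψ
  small : ∀ x ∈ ball (0 : E m) r, ‖Ψ x‖ ≤ r
  meas : Measurable g
  eq : ∀ᵐ x, x ∈ ball (0 : E m) ρ → Ψ x = gradient (wav u) x + g x
  div : DivFree (fun x => aa (Ψ x)) (ball 0 ρ)
  sym : ∀ᵐ x, x ∈ ball (0 : E m) ρ → Sym (fderiv ℝ Ψ x)
  mem : MemLp g 2 volume
  apx : ∀ η > 0, ∃ ζ : E m → ℝ, ContDiff ℝ 2 ζ ∧ HasCompactSupport ζ ∧
    ∫ x, ‖g x - gradient ζ x‖ ^ 2 ≤ η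
  g2 : ∫ x in ball 0 r, ‖g x‖ ^ 2 ≤ δ ^ 2 * D
  v3 : En3 Finset.univ (vv u) 0 0 r ≤ δ ^ 2 * D
  v2 : DD u r ≤ D
  v0 : Ht Finset.univ (vv u) 0 0 r ≤ CP * r ^ 2 * D

/-- The density of all superlinear errors. -/
noncomputable def er (u : ι → E m → ℝ) (g : E m → E m) (r : ℝ) (x : E m) : ℝ :=
  ∑ i, (‖g x‖ * ‖gradient (vv u i) x‖ + ‖g x‖ ^ 2 + ‖gradient (vv u i) x‖ ^ 3 +
    |vv u i x| / r * ‖gradient (vv u i) x‖ ^ 2 + |vv u i x| / r * ‖g x‖)

/-- The quadratic energy density relative to the centre. -/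
noncomputable def qC (u : ι → E m → ℝ) (Ψ : E m → E m) (x : E m) : ℝ :=
  ∑ i, ⟪AA (Ψ x) (gradient (u i) x - Ψ x), gradient (u i) x - Ψ x⟫

end

/-- The radial field adapted to the centre. -/
noncomputable def ZZ (Ψ : E m → E m) (x : E m) : E m := (mu (Ψ x) x)⁻¹ • AA (Ψ x) x

/-- The differential inequalities of the frequency function at radius `r` with error `e`. -/
def KeyAt (C r d h d1 h1 e A : ℝ) : Prop :=
  ∃ U ρ : ℝ, |h1 - 2 * U| ≤ C * r * h + e ∧ |U - d| ≤ e ∧ U ^ 2 ≤ (h + e) * ρ ∧ 0 ≤ ρ ∧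
    ρ ≤ C * A ∧ 2 * ρ - C * r * d - e ≤ d1

/-- The normalising constant of the mollifier. -/
noncomputable def cm (m : ℕ) : ℝ := (∫ z : E m, pr 0 1 z ^ 4)⁻¹

/-- The mollification of `k` at scale `t`. -/
noncomputable def mol (t : ℝ) (k : E m → ℝ) (y : E m) : ℝ :=
  cm m / t ^ m * ∫ z, pr y t z ^ 4 * k z

end Pool.Agent.Lib.MP_8daebb_an.LG
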