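import Pool.Agent.Lib.MP_8daebb_an.LG.Lip

open MeasureTheory Metric Set Filter Topology
open scoped RealInnerProductSpace NNReal

namespace Pool.Agent.Lib.MP_8daebb_an.LG

variable {m : ℕ} {ι : Type}

/-! WEAK. Weak-star convergence of gradients, mollification, symmetry of derivatives. -/

theorem int_inner_grad_weak {f : E m → ℝ} {K : ℝ≥0} (hf : LipschitzWith K f) {Ξ : E m → E m}
    (hΞ : Integrable Ξ) : Integrable (fun x => ⟪Ξ x, gradient f x⟫) := by
  refine (hΞ.norm.mul_const (K : ℝ)).mono'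
    (hΞ.aestronglyMeasurable.inner (meas_grad f).aestronglyMeasurable) (ae_of_all _ fun x => ?_)
  exact (norm_inner_le_norm _ _).trans
    (mul_le_mul_of_nonneg_left (norm_grad_le hf x) (norm_nonneg _))

theorem cont_dv_weak {Φ : E m → E m} (hΦ : ContDiff ℝ 1 Φ) : Continuous (dv Φ) := by
  have h := hΦ.continuous_fderiv (by norm_num)
  unfold dv trS
  exact continuous_finsetSum _ fun b _ => (h.clm_apply continuous_const).inner continuous_const

theorem cs_dv_weak {Φ : E m → E m} (hc : HasCompactSupport Φ) : HasCompactSupport (dv Φ) := by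
  refine (hc.fderiv ℝ).mono fun x hx => ?_
  intro h0
  apply hx
  simp [dv, trS, h0]

/-- Integration by parts against a `C¹` field with compact support. -/
theorem ibp_weak {f : E m → ℝ} {K : ℝ≥0} (hf : LipschitzWith K f) {Φ : E m → E m}
    (hΦ : ContDiff ℝ 1 Φ) (hc : HasCompactSupport Φ) :
    ∫ x, ⟪Φ x, gradient f x⟫ = -∫ x, f x * dv Φ x := by
  have h0 := integral_dv_eq_zero (locLip_smul hf.locallyLipschitz hΦ.locallyLipschitz)
    (hc.smul_left (f := f))
  have h1 : ∀ᵐ x, dv (fun y => f y • Φ y) x = ⟪Φ x, gradient f x⟫ + f x * dv Φ x := by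
    filter_upwards [locLip_ae_diff hf.locallyLipschitz] with x hx
    rw [dv_smul hx (hΦ.differentiable (by norm_num) x), real_inner_comm]
  have i1 := int_inner_grad_weak hf (hΦ.continuous.integrable_of_hasCompactSupport hc)
  have i2 : Integrable (fun x => f x * dv Φ x) :=
    (hf.continuous.mul (cont_dv_weak hΦ)).integrable_of_hasCompactSupport
      ((cs_dv_weak hc).mul_left (f := f))
  rw [integral_congr_ae h1, integral_add i1 i2] at h0
  linarith

theorem lip_of_lim_weak {V : Type} [PseudoMetricSpace V] {f : ℕ → V → ℝ} {g : V → ℝ} {K : ℝ≥0}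
    (hf : ∀ n, LipschitzWith K (f n)) (hlim : ∀ x, Tendsto (fun n => f n x) atTop (𝓝 (g x))) :
    LipschitzWith K g :=
  LipschitzWith.of_dist_le_mul fun x y =>
    le_of_tendsto' ((hlim x).dist (hlim y)) fun n => (hf n).dist_le_mul x y

theorem weakStar_smooth_weak {f : ℕ → E m → ℝ} {g : E m → ℝ} {K : ℝ≥0}
    (hf : ∀ n, LipschitzWith K (f n)) (hlim : ∀ x, Tendsto (fun n => f n x) atTop (𝓝 (g x)))
    {Φ : E m → E m} (hΦ : ContDiff ℝ 1 Φ) (hc : HasCompactSupport Φ) :
    Tendsto (fun n => ∫ x, ⟪Φ x, gradient (f n) x⟫) atTop (𝓝 (∫ x, ⟪Φ x, gradient g x⟫)) := by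
  simp only [ibp_weak (hf _) hΦ hc, ibp_weak (lip_of_lim_weak hf hlim) hΦ hc]
  refine Tendsto.neg ?_
  obtain ⟨C, hC⟩ : ∃ C, ∀ n, |f n 0| ≤ C := by
    obtain ⟨C, hC⟩ := (hlim 0).abs.bddAbove_range
    exact ⟨C, fun n => hC ⟨n, rfl⟩⟩
  refine tendsto_integral_of_dominated_convergence (fun x => (C + K * ‖x‖) * ‖dv Φ x‖)
    (fun n => ((hf n).continuous.mul (cont_dv_weak hΦ)).aestronglyMeasurable) ?_
    (fun n => ae_of_all _ fun x => ?_) (ae_of_all _ fun x => (hlim x).mul_const _)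
  · exact ((continuous_const.add (continuous_const.mul continuous_norm)).mul
      (cont_dv_weak hΦ).norm).integrable_of_hasCompactSupport
      ((cs_dv_weak hc).norm.mul_left)
  · rw [norm_mul]
    refine mul_le_mul_of_nonneg_right ?_ (norm_nonneg _)
    have h1 := (hf n).dist_le_mul x 0
    rw [Real.dist_eq, dist_zero_right] at h1
    have h2 := hC n
    have h3 := abs_add_le (f n x - f n 0) (f n 0)
    rw [sub_add_cancel] at h3
    rw [Real.norm_eq_abs]
    linarith

theorem abs_diff_weak {f : E m → ℝ} {K : ℝ≥0} (hf : LipschitzWith K f) {Ξ Φ : E m → E m}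
    (hΞ : Integrable Ξ) (hΦ : Integrable Φ) :
    |(∫ x, ⟪Ξ x, gradient f x⟫) - ∫ x, ⟪Φ x, gradient f x⟫| ≤ (∫ x, ‖Ξ x - Φ x‖) * K := by
  rw [← integral_sub (int_inner_grad_weak hf hΞ) (int_inner_grad_weak hf hΦ),
    ← integral_mul_const, ← Real.norm_eq_abs]
  refine norm_integral_le_of_norm_le ((hΞ.sub hΦ).norm.mul_const _) (ae_of_all _ fun x => ?_)
  rw [← inner_sub_left]
  exact (norm_inner_le_norm _ _).trans
    (mul_le_mul_of_nonneg_left (norm_grad_le hf x) (norm_nonneg _))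

/-- Gradients of uniformly Lipschitz, pointwise convergent functions converge weakly-star. -/
theorem weakStar {f : ℕ → E m → ℝ} {g : E m → ℝ} {K : ℝ≥0} (hf : ∀ n, LipschitzWith K (f n))
    (hlim : ∀ x, Tendsto (fun n => f n x) atTop (𝓝 (g x))) {Ξ : E m → E m} (hΞ : Integrable Ξ) :
    Tendsto (fun n => ∫ x, ⟪Ξ x, gradient (f n) x⟫) atTop (𝓝 (∫ x, ⟪Ξ x, gradient g x⟫)) := by
  rw [Metric.tendsto_atTop]
  intro ε hε
  have hη : 0 < ε / (3 * (K + 1)) := by positivity
  obtain ⟨Φ, hc, hΦ, hd⟩ := (memLp_one_iff_integrable.mpr hΞ).exist_eLpNorm_sub_le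
    (by simp) le_rfl hη
  have hΦ1 : ContDiff ℝ 1 Φ := hΦ.of_le (by simp)
  have iΦ : Integrable Φ := hΦ.continuous.integrable_of_hasCompactSupport hc
  have hd' : ∫ x, ‖Ξ x - Φ x‖ ≤ ε / (3 * (K + 1)) := by
    rw [eLpNorm_one_eq_lintegral_enorm, ← ofReal_integral_norm_eq_lintegral_enorm (hΞ.sub iΦ),
      ENNReal.ofReal_le_ofReal_iff hη.le] at hd
    exact hd
  have hK : (∫ x, ‖Ξ x - Φ x‖) * K ≤ ε / 3 := by
    have h1 : ε / (3 * (K + 1)) * K ≤ ε / 3 := by
      rw [div_mul_eq_mul_div, div_le_div_iff₀ (by positivity) (by positivity)]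
      nlinarith [K.coe_nonneg]
    exact (mul_le_mul_of_nonneg_right hd' K.coe_nonneg).trans h1
  obtain ⟨N, hN⟩ := Metric.tendsto_atTop.mp (weakStar_smooth_weak hf hlim hΦ1 hc) (ε / 3)
    (by positivity)
  refine ⟨N, fun n hn => ?_⟩
  have a1 := abs_diff_weak (hf n) hΞ iΦ
  have a2 := abs_diff_weak (lip_of_lim_weak hf hlim) hΞ iΦ
  have a3 := hN n hn
  rw [Real.dist_eq] at a3 ⊢
  rw [abs_le] at a1 a2
  rw [abs_lt] at a3 ⊢
  constructor <;> linarith [a1.1, a1.2, a2.1, a2.2, a3.1, a3.2]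

/-- Smooth approximation of a compactly supported Lipschitz function on a finite dimensional
space. -/
theorem exists_smooth_approx {V : Type} [NormedAddCommGroup V] [NormedSpace ℝ V]
    [FiniteDimensional ℝ V] {ψ : V → ℝ} {K : ℝ≥0} (hψ : LipschitzWith K ψ)
    (hc : HasCompactSupport ψ) {O : Set V} (hO : IsOpen O) (hs : tsupport ψ ⊆ O) :
    ∃ (φ : ℕ → V → ℝ) (K' : Set V), IsCompact K' ∧ K' ⊆ O ∧ (∀ n, ContDiff ℝ 2 (φ n)) ∧
      (∀ n, tsupport (φ n) ⊆ K') ∧ (∀ n, LipschitzWith K (φ n)) ∧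
      ∀ x, Tendsto (fun n => φ n x) atTop (𝓝 (ψ x)) := by
  let _ : MeasurableSpace V := borel V
  have _ : BorelSpace V := ⟨rfl⟩
  have _ : ProperSpace V := FiniteDimensional.proper ℝ V
  let μ : Measure V := Measure.addHaar
  obtain ⟨δ, hδ, hδO⟩ := hc.isCompact.exists_cthickening_subset_open hO hs
  let β : ℕ → ContDiffBump (0 : V) := fun n =>
    ⟨δ / ((n : ℝ) + 1) / 2, δ / ((n : ℝ) + 1), by positivity, by
      have : 0 < δ / ((n : ℝ) + 1) := by positivity
      linarith⟩
  have hβ : ∀ n, (β n).rOut ≤ δ := fun n => by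
    change δ / ((n : ℝ) + 1) ≤ δ
    exact div_le_self hδ.le (by linarith [n.cast_nonneg (α := ℝ)])
  refine ⟨fun n => convolution ((β n).normed μ) ψ (ContinuousLinearMap.lsmul ℝ ℝ) μ,
    cthickening δ (tsupport ψ), hc.isCompact.cthickening, hδO, fun n => ?_, fun n => ?_,
    fun n => ?_, fun x => ?_⟩
  · exact (β n).hasCompactSupport_normed.contDiff_convolution_left _ (n := 2)
      (β n).contDiff_normed hψ.continuous.locallyIntegrable
  · refine closure_minimal ?_ isClosed_cthickening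
    refine (support_convolution_subset _).trans ?_
    rintro _ ⟨a, ha, b, hb, rfl⟩
    rw [(β n).support_normed_eq] at ha
    refine mem_cthickening_of_dist_le _ b δ _ (subset_tsupport _ hb) ?_
    change dist (a + b) b ≤ δ
    rw [dist_eq_norm, add_sub_cancel_right]
    exact (mem_ball_zero_iff.mp ha).le.trans (hβ n)
  · refine LipschitzWith.of_dist_le_mul fun x y => ?_
    have hi : ∀ z : V, Integrable (fun t => (β n).normed μ t * ψ (z - t)) μ := fun z =>
      ((β n).continuous_normed.mul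
        (hψ.continuous.comp (continuous_const.sub continuous_id))).integrable_of_hasCompactSupport
        ((β n).hasCompactSupport_normed.mul_right)
    simp only [convolution_def, ContinuousLinearMap.lsmul_apply, smul_eq_mul]
    rw [dist_eq_norm, ← integral_sub (hi x) (hi y)]
    have hb : ∫ t, (β n).normed μ t * (K * dist x y) ∂μ = K * dist x y := by
      rw [integral_mul_const, (β n).integral_normed, one_mul]
    rw [← hb]
    refine norm_integral_le_of_norm_le ((β n).integrable_normed.mul_const _)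
      (ae_of_all _ fun t => ?_)
    rw [← mul_sub, norm_mul, Real.norm_of_nonneg ((β n).nonneg_normed t)]
    refine mul_le_mul_of_nonneg_left ?_ ((β n).nonneg_normed t)
    have h1 := hψ.dist_le_mul (x - t) (y - t)
    rwa [dist_sub_right, dist_eq_norm] at h1
  · refine ContDiffBump.convolution_tendsto_right_of_continuous ?_ hψ.continuous x
    exact tendsto_const_nhds.div_atTop
      (tendsto_atTop_add_const_right _ _ tendsto_natCast_atTop_atTop)

theorem divFree_of_smooth {Ξ : E m → E m} {Ω : Set (E m)} (hΩ : IsOpen Ω)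
    (hΞ : ∀ K, IsCompact K → K ⊆ Ω → IntegrableOn Ξ K)
    (h : ∀ ζ : E m → ℝ, ContDiff ℝ 2 ζ → HasCompactSupport ζ → tsupport ζ ⊆ Ω →
      ∫ x, ⟪Ξ x, gradient ζ x⟫ = 0) : DivFree Ξ Ω := by
  intro ζ hl hc hs
  obtain ⟨K, hK⟩ := locLip_compact hl hc
  obtain ⟨φ, K', hK', hKO, h2, hsup, hlip, hlim⟩ := exists_smooth_approx hK hc hΩ hs
  have hζ : tsupport ζ ⊆ K' := by
    refine closure_minimal (fun x hx => ?_) hK'.isClosed
    by_contra hn
    have h0 : ∀ n, φ n x = 0 := fun n => image_eq_zero_of_notMem_tsupport fun hh => hn (hsup n hh)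
    have h1 := hlim x
    simp only [h0] at h1
    exact hx (tendsto_nhds_unique h1 tendsto_const_nhds)
  have key : ∀ g : E m → ℝ, tsupport g ⊆ K' →
      ∫ x, ⟪K'.indicator Ξ x, gradient g x⟫ = ∫ x, ⟪Ξ x, gradient g x⟫ := by
    intro g hg
    refine integral_congr_ae (ae_of_all _ fun x => ?_)
    by_cases hx : x ∈ K'
    · simp only [indicator_of_mem hx]
    · simp only [grad_eq_zero_of_notMem (fun hh => hx (hg hh)), inner_zero_right]
  have hw := weakStar hlip hlim
    ((integrable_indicator_iff hK'.measurableSet).mpr (hΞ K' hK' hKO))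
  have h0 : ∀ n, ∫ x, ⟪K'.indicator Ξ x, gradient (φ n) x⟫ = 0 := fun n => by
    rw [key _ (hsup n)]
    exact h _ (h2 n) (hK'.of_isClosed_subset (isClosed_tsupport _) (hsup n)) ((hsup n).trans hKO)
  simp only [h0, key _ hζ] at hw
  exact tendsto_nhds_unique hw tendsto_const_nhds

theorem DivFree.mono {Ξ : E m → E m} {Ω Ω' : Set (E m)} (h : DivFree Ξ Ω) (h' : Ω' ⊆ Ω) :
    DivFree Ξ Ω' := fun ζ h1 h2 h3 => h ζ h1 h2 (h3.trans h')

theorem DivFree.congr {Ξ Ξ' : E m → E m} {Ω : Set (E m)} (h : DivFree Ξ Ω)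
    (h' : ∀ᵐ x, x ∈ Ω → Ξ' x = Ξ x) : DivFree Ξ' Ω := by
  intro ζ h1 h2 h3
  rw [← h ζ h1 h2 h3]
  refine integral_congr_ae ?_
  filter_upwards [h'] with x hx
  by_cases hm : x ∈ Ω
  · rw [hx hm]
  · simp only [grad_eq_zero_of_notMem (fun hh => hm (h3 hh)), inner_zero_right]

/-- The Hessian of the area element as a continuous linear map. -/
noncomputable def AAclm_weak (p : E m) : E m →L[ℝ] E m :=
  (W p)⁻¹ • ContinuousLinearMap.id ℝ (E m) - (W p ^ 3)⁻¹ • (innerSL ℝ p).smulRight p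

theorem AAclm_apply_weak (p q : E m) : AAclm_weak p q = AA p q := by
  simp [AAclm_weak, AA, smul_smul, div_eq_inv_mul]

/-- An affine vector field with trace free linear part is divergence free. -/
theorem divFree_affine (p c b : E m) (S : E m →L[ℝ] E m) (h : trA p S = 0) (Ω : Set (E m)) :
    DivFree (fun y => b + AA p (S (y - c))) Ω := by
  intro ζ h1 h2 _
  have e : (fun y => b + AA p (S (y - c))) = fun y => b + ((AAclm_weak p).comp S) (y - c) := by
    ext1 y
    rw [ContinuousLinearMap.comp_apply, AAclm_apply_weak]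
  have hd : ∀ x, HasFDerivAt (fun y => b + ((AAclm_weak p).comp S) (y - c))
      ((AAclm_weak p).comp S) x := fun x => by
    have := (((AAclm_weak p).comp S).hasFDerivAt.comp x
      ((hasFDerivAt_id x).sub_const c)).const_add b
    simpa using this
  have hC : ContDiff ℝ 1 (fun y => b + ((AAclm_weak p).comp S) (y - c)) :=
    contDiff_const.add (((AAclm_weak p).comp S).contDiff.comp (contDiff_id.sub contDiff_const))
  have h0 := integral_dv_eq_zero (locLip_smul h1 hC.locallyLipschitz) (h2.smul_right)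
  rw [← h0]
  refine integral_congr_ae ?_
  filter_upwards [locLip_ae_diff h1] with x hx
  have ht : trS ((AAclm_weak p).comp S) = 0 := by
    rw [← h]
    simp only [trS, trA, ContinuousLinearMap.comp_apply, AAclm_apply_weak]
  rw [dv_smul hx (hd x).differentiableAt, dv, (hd x).fderiv, ht, mul_zero, add_zero,
    real_inner_comm, ContinuousLinearMap.comp_apply, AAclm_apply_weak]

theorem swap_grad_weak {φ f : E m → ℝ} {K : ℝ≥0} (hφ : ContDiff ℝ 2 φ) (hc : HasCompactSupport φ)
    (hf : LipschitzWith K f) (a b : E m) :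
    ∫ x, ⟪fderiv ℝ φ x a • b, gradient f x⟫ = ∫ x, ⟪fderiv ℝ φ x b • a, gradient f x⟫ := by
  have h1 : ContDiff ℝ 1 (fderiv ℝ φ) := hφ.fderiv_right (by norm_num)
  have hs : ∀ a : E m, ContDiff ℝ 1 (fun x => fderiv ℝ φ x a) := fun a =>
    h1.clm_apply contDiff_const
  have hcs : ∀ a b : E m, HasCompactSupport (fun x => fderiv ℝ φ x a • b) := fun a b =>
    (hc.fderiv ℝ).mono fun x hx h0 => hx (by simp [h0])
  have hdv : ∀ a b x : E m, dv (fun x => fderiv ℝ φ x a • b) x
      = fderiv ℝ (fderiv ℝ φ) x b a := fun a b x => by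
    rw [dv_smul ((hs a).differentiable (by norm_num) x) (differentiableAt_const b), inner_grad]
    have e : dv (fun _ : E m => b) x = 0 := by simp [dv, trS]
    rw [e, mul_zero, add_zero, fderiv_clm_apply (h1.differentiable (by norm_num) x)
      (differentiableAt_const a)]
    simp
  have hsm : ∀ a b : E m, ContDiff ℝ 1 (fun x => fderiv ℝ φ x a • b) := fun a b =>
    (hs a).smul contDiff_const
  rw [ibp_weak hf (hsm a b) (hcs a b), ibp_weak hf (hsm b a) (hcs b a)]
  congr 1
  refine integral_congr_ae (ae_of_all _ fun x => ?_)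
  simp only [hdv]
  rw [(hφ.contDiffAt.isSymmSndFDerivAt (by simp)) b a]

/-- A field supported in a ball that is orthogonal to all gradients is orthogonal to their
limits. -/
theorem orth_limit_weak {Ψ Φ : E m → E m} (hΨ : Continuous Ψ) {c : E m} {ρ : ℝ}
    (h : ∀ η > 0, ∃ f : E m → ℝ, (∃ K', LipschitzWith K' f) ∧
      ∫ x in ball c ρ, ‖Ψ x - gradient f x‖ ^ 2 ≤ η)
    (hΦ : Continuous Φ) (hc : HasCompactSupport Φ) (hs : ∀ x, x ∉ ball c ρ → Φ x = 0)
    (h0 : ∀ (f : E m → ℝ) (K' : ℝ≥0), LipschitzWith K' f → ∫ x, ⟪Φ x, gradient f x⟫ = 0) :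
    ∫ x, ⟪Φ x, Ψ x⟫ = 0 := by
  have iΦ : Integrable Φ := hΦ.integrable_of_hasCompactSupport hc
  have i1 : Integrable (fun x => ⟪Φ x, Ψ x⟫) :=
    (hΦ.inner hΨ).integrable_of_hasCompactSupport (hc.mono fun x hx h0 => hx (by simp [h0]))
  have i2 : Integrable (fun x => ‖Φ x‖ ^ 2) :=
    (hΦ.norm.pow 2).integrable_of_hasCompactSupport (hc.mono fun x hx h0 => hx (by simp [h0]))
  set A := ∫ x, ‖Φ x‖ ^ 2 with hA
  have hA0 : 0 ≤ A := integral_nonneg fun x => by positivity
  have key : ∀ t > 0, |∫ x, ⟪Φ x, Ψ x⟫| ≤ t * (A + 1) := by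
    intro t ht
    obtain ⟨f, ⟨K', hf⟩, hη⟩ := h (t ^ 2) (by positivity)
    obtain ⟨C, hC⟩ := (isCompact_closedBall c ρ).exists_bound_of_continuousOn hΨ.continuousOn
    have i3 : IntegrableOn (fun x => ‖Ψ x - gradient f x‖ ^ 2) (ball c ρ) := by
      refine intOn_ball (C := (C + K') ^ 2)
        ((hΨ.measurable.sub (meas_grad f)).norm.pow_const 2).aestronglyMeasurable
        (ae_of_all _ fun x hx => ?_)
      rw [Real.norm_of_nonneg (by positivity)]
      refine pow_le_pow_left₀ (norm_nonneg _) ((norm_sub_le _ _).trans ?_) 2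
      exact add_le_add (hC x (ball_subset_closedBall hx)) (norm_grad_le hf x)
    have i4 := (integrable_indicator_iff measurableSet_ball).mpr i3
    have e : ∫ x, ⟪Φ x, Ψ x⟫ = ∫ x, ⟪Φ x, Ψ x - gradient f x⟫ := by
      simp only [inner_sub_right]
      rw [integral_sub i1 (int_inner_grad_weak hf iΦ), h0 f K' hf, sub_zero]
    have hb : ‖∫ x, ⟪Φ x, Ψ x - gradient f x⟫‖ ≤ ∫ x, (t * ‖Φ x‖ ^ 2 +
        t⁻¹ * (ball c ρ).indicator (fun x => ‖Ψ x - gradient f x‖ ^ 2) x) := by
      refine norm_integral_le_of_norm_le ((i2.const_mul t).add (i4.const_mul _))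
        (ae_of_all _ fun x => ?_)
      by_cases hx : x ∈ ball c ρ
      · rw [indicator_of_mem hx]
        refine (norm_inner_le_norm _ _).trans ?_
        set u := ‖Φ x‖
        set v := ‖Ψ x - gradient f x‖
        have hu : 0 ≤ u := norm_nonneg _
        have hv : 0 ≤ v := norm_nonneg _
        have : t * u ^ 2 + t⁻¹ * v ^ 2 - u * v = t⁻¹ * ((t * u - v) ^ 2 + t * (u * v)) := by
          field_simp
          ring
        have h2 : 0 ≤ t⁻¹ * ((t * u - v) ^ 2 + t * (u * v)) := by positivity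
        linarith
      · simp [hs x hx, indicator_of_notMem hx]
    rw [integral_add (i2.const_mul t) (i4.const_mul _), integral_const_mul, integral_const_mul,
      integral_indicator measurableSet_ball, Real.norm_eq_abs] at hb
    have h3 : t⁻¹ * ∫ x in ball c ρ, ‖Ψ x - gradient f x‖ ^ 2 ≤ t := by
      calc _ ≤ t⁻¹ * t ^ 2 := mul_le_mul_of_nonneg_left hη (by positivity)
        _ = t := by field_simp
    rw [e]
    linarith
  by_contra hne
  have hp : 0 < |∫ x, ⟪Φ x, Ψ x⟫| := abs_pos.mpr hne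
  have h1 := key (|∫ x, ⟪Φ x, Ψ x⟫| / (2 * (A + 1))) (by positivity)
  have h2 : |∫ x, ⟪Φ x, Ψ x⟫| / (2 * (A + 1)) * (A + 1) = |∫ x, ⟪Φ x, Ψ x⟫| / 2 := by
    field_simp
  linarith

theorem ibp_field_weak {Ψ : E m → E m} {K : ℝ≥0} (hΨ : LipschitzWith K Ψ) {φ : E m → ℝ}
    (hφ : ContDiff ℝ 1 φ) (hc : HasCompactSupport φ) (a b : E m) :
    ∫ x, (⟪fderiv ℝ φ x a • b, Ψ x⟫ + φ x * ⟪b, fderiv ℝ Ψ x a⟫) = 0 := by
  have hl : LocallyLipschitz fun x => ⟪b, Ψ x⟫ :=
    locLip_inner (LocallyLipschitz.const b) hΨ.locallyLipschitz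
  rw [← integral_grad_eq_zero (locLip_mul hφ.locallyLipschitz hl) hc.mul_right a]
  refine integral_congr_ae ?_
  filter_upwards [locLip_ae_diff hΨ.locallyLipschitz] with x hx
  have h1 : HasFDerivAt (fun x => ⟪b, Ψ x⟫) ((innerSL ℝ b).comp (fderiv ℝ Ψ x)) x :=
    (innerSL ℝ b).hasFDerivAt.comp x hx.hasFDerivAt
  have h2 := ((hφ.differentiable (by norm_num) x).hasFDerivAt.mul h1).fderiv
  rw [inner_grad]
  change _ = fderiv ℝ (φ * fun x => ⟪b, Ψ x⟫) x a
  rw [h2]
  simp [inner_smul_left]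
  ring

theorem sym_of_basis_weak {S : E m →L[ℝ] E m}
    (h : ∀ a b : Fin m, ⟪eb b, S (eb a)⟫ = ⟪eb a, S (eb b)⟫) : Sym S := by
  intro x y
  have e : ∀ z : E m, z = ∑ a, z a • eb a := fun z => by
    conv_lhs => rw [← (EuclideanSpace.basisFun (Fin m) ℝ).sum_repr z]
    simp [eb]
  rw [e x, e y]
  simp only [map_sum, map_smul, sum_inner, inner_sum, inner_smul_left, inner_smul_right]
  refine Finset.sum_congr rfl fun b _ => ?_
  congr 1
  refine Finset.sum_congr rfl fun a _ => ?_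
  rw [← h a b, real_inner_comm]

/-- A Lipschitz vector field that is a limit of gradients has symmetric derivative. -/
theorem sym_of_limit {Ψ : E m → E m} {K : ℝ≥0} (hΨ : LipschitzWith K Ψ) {c : E m} {ρ : ℝ}
    (h : ∀ η > 0, ∃ f : E m → ℝ, (∃ K', LipschitzWith K' f) ∧
      ∫ x in ball c ρ, ‖Ψ x - gradient f x‖ ^ 2 ≤ η) :
    ∀ᵐ x, x ∈ ball c ρ → Sym (fderiv ℝ Ψ x) := by
  have hloc : ∀ a b : E m, LocallyIntegrable (fun x => ⟪b, fderiv ℝ Ψ x a⟫) := fun a b => by
    refine (memLp_top_of_bound ?_ (‖b‖ * (K * ‖a‖)) (ae_of_all _ fun x => ?_)).locallyIntegrable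
      le_top
    · exact (measurable_const.inner (measurable_fderiv_apply_const ℝ Ψ a)).aestronglyMeasurable
    · refine (norm_inner_le_norm _ _).trans (mul_le_mul_of_nonneg_left ?_ (norm_nonneg _))
      exact ((fderiv ℝ Ψ x).le_opNorm a).trans
        (mul_le_mul_of_nonneg_right (norm_fderiv_le_of_lipschitz ℝ hΨ) (norm_nonneg _))
  have key : ∀ a b : E m, ∀ᵐ x, x ∈ ball c ρ →
      ⟪b, fderiv ℝ Ψ x a⟫ - ⟪a, fderiv ℝ Ψ x b⟫ = 0 := fun a b => by
    refine isOpen_ball.ae_eq_zero_of_integral_contDiff_smul_eq_zero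
      (((hloc a b).sub (hloc b a)).locallyIntegrableOn _) fun φ hφ hc hs => ?_
    have hφ2 : ContDiff ℝ 2 φ := hφ.of_le (WithTop.coe_le_coe.mpr (le_top : (2 : ℕ∞) ≤ ⊤))
    have hφ1 : ContDiff ℝ 1 φ := hφ.of_le (by simp)
    have hD : Continuous (fderiv ℝ φ) := hφ1.continuous_fderiv (by norm_num)
    have hcont : ∀ a b : E m, Continuous (fun x => fderiv ℝ φ x a • b) := fun a b =>
      (hD.clm_apply continuous_const).smul continuous_const
    have hcs : ∀ a b : E m, HasCompactSupport (fun x => fderiv ℝ φ x a • b) := fun a b =>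
      (hc.fderiv ℝ).mono fun x hx h0 => hx (by simp [h0])
    have hint : ∀ a b : E m, Integrable (fun x => fderiv ℝ φ x a • b) := fun a b =>
      (hcont a b).integrable_of_hasCompactSupport (hcs a b)
    have h0 := orth_limit_weak (Φ := fun x => fderiv ℝ φ x a • b - fderiv ℝ φ x b • a)
      hΨ.continuous h ((hcont a b).sub (hcont b a)) ((hcs a b).sub (hcs b a))
      (fun x hx => by
        have : fderiv ℝ φ x = 0 := by
          by_contra hne
          exact hx (hs (support_fderiv_subset ℝ hne))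
        simp [this])
      (fun f K' hf => by
        simp only [inner_sub_left]
        rw [integral_sub (int_inner_grad_weak hf (hint a b)) (int_inner_grad_weak hf (hint b a)),
          swap_grad_weak hφ2 hc hf a b, sub_self])
    have j1 : ∀ a b : E m, Integrable (fun x => ⟪fderiv ℝ φ x a • b, Ψ x⟫) := fun a b =>
      ((hcont a b).inner hΨ.continuous).integrable_of_hasCompactSupport
        ((hcs a b).mono fun x hx h0 => hx (by
          have h0' : fderiv ℝ φ x a • b = 0 := h0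
          simp only [h0', inner_zero_left]))
    have j2 : ∀ a b : E m, Integrable (fun x => φ x * ⟪b, fderiv ℝ Ψ x a⟫) := fun a b =>
      (hloc a b).integrable_smul_left_of_hasCompactSupport hφ.continuous hc
    have k1 := ibp_field_weak hΨ hφ1 hc a b
    have k2 := ibp_field_weak hΨ hφ1 hc b a
    rw [integral_add (j1 _ _) (j2 _ _)] at k1 k2
    simp only [inner_sub_left] at h0
    rw [integral_sub (j1 _ _) (j1 _ _)] at h0
    simp only [smul_eq_mul, mul_sub]
    rw [integral_sub (j2 _ _) (j2 _ _)]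
    linarith
  have hall : ∀ᵐ x, ∀ a b : Fin m, x ∈ ball c ρ →
      ⟪eb b, fderiv ℝ Ψ x (eb a)⟫ - ⟪eb a, fderiv ℝ Ψ x (eb b)⟫ = 0 :=
    ae_all_iff.mpr fun a => ae_all_iff.mpr fun b => key _ _
  filter_upwards [hall] with x hx hm
  exact sym_of_basis_weak fun a b => sub_eq_zero.mp (hx a b hm)

end Pool.Agent.Lib.MP_8daebb_an.LG
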