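import Pool.Agent.Lib.MP_8daebb_an.LG.Alg
import Pool.Agent.Lib.MP_8daebb_an.LG.Weak

open MeasureTheory Metric Set Filter Topology
open scoped RealInnerProductSpace NNReal

namespace Pool.Agent.Lib.MP_8daebb_an.LG

variable {m : ℕ} {ι : Type}

/-! BRIDGE. From smooth test vector fields to Lipschitz test functions. -/

theorem firstVar_rank_bridge (p : E m) (D : (E m × ℝ) →L[ℝ] ℝ) (w : E m × ℝ) :
    firstVar p (D.smulRight w) =
      W p * (D w - D (-p, 1) * (⟪w.1, -p⟫ + w.2) / W p ^ 2) := by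
  have h1 : ((D.smulRight w : (E m × ℝ) →L[ℝ] (E m × ℝ)) : (E m × ℝ) →ₗ[ℝ] (E m × ℝ)) =
      (D : (E m × ℝ) →ₗ[ℝ] ℝ).smulRight w := rfl
  unfold firstVar
  rw [h1, LinearMap.trace_smulRight, W_sq]
  simp only [ContinuousLinearMap.smulRight_apply, Prod.smul_fst, Prod.smul_snd, smul_eq_mul,
    real_inner_smul_left, ContinuousLinearMap.coe_coe, W]
  ring

theorem split_bridge (D : (E m × ℝ) →L[ℝ] ℝ) (v : E m) (t : ℝ) :
    D (v, t) = D (v, 0) + t * D (0, 1) := by
  have : ((v, t) : E m × ℝ) = (v, 0) + t • ((0 : E m), (1 : ℝ)) := by simp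
  rw [this, map_add, map_smul, smul_eq_mul]

theorem comb_bridge (D : (E m × ℝ) →L[ℝ] ℝ) (a b : ℝ) (v v' : E m) :
    D (a • v - b • v', 0) = a * D (v, 0) - b * D (v', 0) := by
  have : ((a • v - b • v', 0) : E m × ℝ) = a • (v, (0 : ℝ)) - b • (v', (0 : ℝ)) := by simp
  rw [this, map_sub, map_smul, map_smul, smul_eq_mul, smul_eq_mul]

theorem neg_bridge (D : (E m × ℝ) →L[ℝ] ℝ) (p : E m) : D (-p, 1) = D (0, 1) - D (p, 0) := by
  have : ((-p, 1) : E m × ℝ) = ((0 : E m), (1 : ℝ)) - (p, 0) := by simp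
  rw [this, map_sub]

theorem firstVar_vert_bridge (p : E m) (D : (E m × ℝ) →L[ℝ] ℝ) :
    firstVar p (D.smulRight ((0 : E m), (1 : ℝ))) = D (aa p, ⟪p, aa p⟫) := by
  have hW : W p ≠ 0 := (lt_of_lt_of_le one_pos (one_le_W p)).ne'
  have h2 := W_sq p
  have h3 : D (aa p, 0) = (W p)⁻¹ * D (p, 0) := by
    have := comb_bridge D (W p)⁻¹ 0 p p
    simpa [aa] using this
  rw [firstVar_rank_bridge, split_bridge D (aa p), h3, neg_bridge]
  simp only [aa, inner_zero_left, real_inner_smul_right, real_inner_self_eq_norm_sq]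
  have h4 : ‖p‖ ^ 2 = W p ^ 2 - 1 := by linarith
  rw [h4]
  field_simp
  ring

theorem firstVar_hor_bridge (p e : E m) (D : (E m × ℝ) →L[ℝ] ℝ) :
    firstVar p (D.smulRight (e, (0 : ℝ))) = D (MM p e, ⟪p, MM p e⟫) := by
  have hW : W p ≠ 0 := (lt_of_lt_of_le one_pos (one_le_W p)).ne'
  have h2 := W_sq p
  rw [firstVar_rank_bridge, split_bridge D (MM p e), neg_bridge]
  unfold MM
  rw [comb_bridge]
  simp only [inner_sub_right, real_inner_smul_right, real_inner_self_eq_norm_sq, inner_neg_right,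
    real_inner_comm p e]
  have h4 : ‖p‖ ^ 2 = W p ^ 2 - 1 := by linarith
  rw [h4]
  field_simp
  ring

theorem chain_bridge {u : E m → ℝ} {φ : E m × ℝ → ℝ} {x : E m} (hu : DifferentiableAt ℝ u x)
    (hφ : DifferentiableAt ℝ φ (x, u x)) (v : E m) :
    ⟪v, gradient (fun y => φ (y, u y)) x⟫ = fderiv ℝ φ (x, u x) (v, ⟪gradient u x, v⟫) := by
  have h1 : HasFDerivAt (fun y => (y, u y))
      ((ContinuousLinearMap.id ℝ (E m)).prod (fderiv ℝ u x)) x :=
    (hasFDerivAt_id x).prodMk hu.hasFDerivAt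
  have h2 := hφ.hasFDerivAt.comp x h1
  rw [real_inner_comm, inner_grad, inner_grad]
  have h3 : fderiv ℝ (fun y => φ (y, u y)) x = _ := h2.fderiv
  rw [h3]
  rfl

theorem smooth_bridge {Q : ℕ} {u : Fin Q → E m → ℝ} {L : ℝ≥0}
    (hL : ∀ i, LipschitzWith L (u i)) {Ω : Set (E m)} (h : IsStationaryGraph u Ω)
    {w : E m × ℝ} {Z : E m → E m}
    (hZ : ∀ (p : E m) (D : (E m × ℝ) →L[ℝ] ℝ), firstVar p (D.smulRight w) = D (Z p, ⟪p, Z p⟫))
    {φ : E m × ℝ → ℝ} (hφ : ContDiff ℝ 2 φ) (hc : HasCompactSupport φ)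
    (hs : tsupport φ ⊆ Ω ×ˢ univ) :
    ∑ i, ∫ x, ⟪Z (gradient (u i) x), gradient (fun y => φ (y, u i y)) x⟫ = 0 := by
  have hφ1 : ContDiff ℝ 1 φ := hφ.of_le (by norm_num)
  have hd : Differentiable ℝ φ := hφ1.differentiable one_ne_zero
  have hs' : tsupport (fun z => φ z • w) ⊆ tsupport φ := tsupport_smul_subset_left _ _
  have h1 := h (fun z => φ z • w) (hφ1.smul contDiff_const)
    (hc.isCompact.of_isClosed_subset (isClosed_tsupport _) hs') (hs'.trans hs)
  rw [← h1]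
  refine Finset.sum_congr rfl fun i _ => integral_congr_ae ?_
  filter_upwards [locLip_ae_diff (hL i).locallyLipschitz] with x hx
  rw [chain_bridge hx (hd _), fderiv_smul_const (hd _), hZ]

theorem cutoff_bridge {V : Type} [PseudoMetricSpace V] [ProperSpace V] {C O : Set V}
    (hC : IsCompact C) (hO : IsOpen O) (hCO : C ⊆ O) :
    ∃ θ : V → ℝ, LocallyLipschitz θ ∧ HasCompactSupport θ ∧ tsupport θ ⊆ O ∧
      ∀ z ∈ C, θ z = 1 := by
  obtain ⟨δ, hδ, hsub⟩ := hC.exists_cthickening_subset_open hO hCO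
  have hsupp : tsupport (fun z => (thickenedIndicator hδ C z : ℝ)) ⊆ cthickening δ C := by
    refine (closure_mono ?_).trans (closure_thickening_subset_cthickening δ C)
    intro z hz
    by_contra hz'
    exact hz (by simp only [thickenedIndicator_zero hδ C hz', NNReal.coe_zero])
  refine ⟨fun z => (thickenedIndicator hδ C z : ℝ), ?_, ?_, hsupp.trans hsub, fun z hz => ?_⟩
  · exact (NNReal.isometry_coe.lipschitz.comp (lipschitzWith_thickenedIndicator hδ C)).locallyLipschitz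
  · exact hC.cthickening.of_isClosed_subset (isClosed_tsupport _) hsupp
  · simp only [thickenedIndicator_one hδ C hz, NNReal.coe_one]

theorem indicator_bridge {S : Set (E m)} (hS : IsClosed S) {f : E m → ℝ}
    (hf : ∀ y, y ∉ S → f y = 0) (Ξ : E m → E m) (x : E m) :
    ⟪S.indicator Ξ x, gradient f x⟫ = ⟪Ξ x, gradient f x⟫ := by
  by_cases hx : x ∈ S
  · rw [indicator_of_mem hx]
  · have h1 : tsupport f ⊆ S := by
      refine closure_minimal (fun y hy => ?_) hS
      by_contra hy'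
      exact hy (hf y hy')
    rw [grad_eq_zero_of_notMem fun h => hx (h1 h), inner_zero_right, inner_zero_right]

theorem core_bridge {Q : ℕ} {u : Fin Q → E m → ℝ} {L : ℝ≥0}
    (hL : ∀ i, LipschitzWith L (u i)) {Ω : Set (E m)} (hΩ : IsOpen Ω)
    (h : IsStationaryGraph u Ω) {w : E m × ℝ} {Z : E m → E m}
    (hZ : ∀ (p : E m) (D : (E m × ℝ) →L[ℝ] ℝ), firstVar p (D.smulRight w) = D (Z p, ⟪p, Z p⟫))
    (hZc : Continuous Z) {B : ℝ} (hZb : ∀ p, ‖p‖ ≤ L → ‖Z p‖ ≤ B)
    {ψ : E m × ℝ → ℝ} (hψ : LocallyLipschitz ψ) {K : Set (E m)} (hK : IsCompact K) (hKΩ : K ⊆ Ω)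
    (h0 : ∀ i x, x ∉ K → ψ (x, u i x) = 0) :
    ∑ i, ∫ x, ⟪Z (gradient (u i) x), gradient (fun y => ψ (y, u i y)) x⟫ = 0 := by
  have hO : IsOpen (Ω ×ˢ (univ : Set ℝ)) := hΩ.prod isOpen_univ
  have hC : IsCompact (⋃ i, (fun x => (x, u i x)) '' K) :=
    isCompact_iUnion fun i => hK.image (continuous_id.prodMk (hL i).continuous)
  have hCO : (⋃ i, (fun x => (x, u i x)) '' K) ⊆ Ω ×ˢ (univ : Set ℝ) := by
    refine iUnion_subset fun i => ?_
    rintro _ ⟨x, hx, rfl⟩
    exact ⟨hKΩ hx, mem_univ _⟩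
  obtain ⟨θ, hθl, hθc, hθs, hθ1⟩ := cutoff_bridge hC hO hCO
  have hs' : tsupport (fun z => θ z * ψ z) ⊆ tsupport θ := tsupport_mul_subset_left
  have hc' : HasCompactSupport (fun z => θ z * ψ z) :=
    hθc.isCompact.of_isClosed_subset (isClosed_tsupport _) hs'
  obtain ⟨M, hM⟩ := locLip_compact (locLip_mul hθl hψ) hc'
  obtain ⟨φ, K', hK', hK'O, hφ, hφs, hφl, hlim⟩ := exists_smooth_approx hM hc' hO (hs'.trans hθs)
  have heq : ∀ i y, θ (y, u i y) * ψ (y, u i y) = ψ (y, u i y) := by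
    intro i y
    by_cases hy : y ∈ K
    · rw [hθ1 _ (mem_iUnion.mpr ⟨i, y, hy, rfl⟩), one_mul]
    · rw [h0 i y hy, mul_zero]
  have hS : IsCompact (Prod.fst '' K') := hK'.image continuous_fst
  have hz : ∀ n i y, y ∉ Prod.fst '' K' → φ n (y, u i y) = 0 := by
    intro n i y hy
    by_contra hne
    exact hy ⟨(y, u i y), hφs n (subset_tsupport _ hne), rfl⟩
  have hlim' : ∀ i y, Tendsto (fun n => φ n (y, u i y)) atTop (𝓝 (ψ (y, u i y))) := by
    intro i y
    have := hlim (y, u i y)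
    rwa [heq] at this
  have hz' : ∀ i y, y ∉ Prod.fst '' K' → ψ (y, u i y) = 0 := by
    intro i y hy
    have h1 := hlim' i y
    simp only [hz _ i y hy] at h1
    exact tendsto_nhds_unique h1 tendsto_const_nhds
  have hint : ∀ i, Integrable ((Prod.fst '' K').indicator fun x => Z (gradient (u i) x)) := by
    intro i
    refine int_of_compact (C := B) ?_ hS (Eventually.of_forall fun x hx => ?_)
      (Eventually.of_forall fun x hx => indicator_of_notMem hx _)
    · exact ((hZc.measurable.comp (meas_grad (u i))).indicator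
        hS.isClosed.measurableSet).aestronglyMeasurable
    · rw [indicator_of_mem hx]
      exact hZb _ (norm_grad_le (hL i) x)
  have hT : ∀ i, Tendsto
      (fun n => ∫ x, ⟪Z (gradient (u i) x), gradient (fun y => φ n (y, u i y)) x⟫) atTop
      (𝓝 (∫ x, ⟪Z (gradient (u i) x), gradient (fun y => ψ (y, u i y)) x⟫)) := by
    intro i
    have h1 := weakStar (f := fun n y => φ n (y, u i y)) (g := fun y => ψ (y, u i y))
      (fun n => (hφl n).comp (LipschitzWith.id.prodMk (hL i))) (hlim' i) (hint i)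
    simp only [indicator_bridge hS.isClosed (hz _ i), indicator_bridge hS.isClosed (hz' i)] at h1
    exact h1
  have hsum := tendsto_finsetSum Finset.univ fun i _ => hT i
  have hzero : ∀ n, ∑ i, ∫ x, ⟪Z (gradient (u i) x), gradient (fun y => φ n (y, u i y)) x⟫ = 0 :=
    fun n => smooth_bridge hL h hZ (hφ n)
      (hK'.of_isClosed_subset (isClosed_tsupport _) (hφs n)) ((hφs n).trans hK'O)
  simp only [hzero] at hsum
  exact tendsto_nhds_unique hsum tendsto_const_nhds

theorem stat_of_stationaryGraph {Q : ℕ} {u : Fin Q → E m → ℝ} {L : ℝ≥0}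
    (hL : ∀ i, LipschitzWith L (u i)) {Ω : Set (E m)} (hΩ : IsOpen Ω)
    (h : IsStationaryGraph u Ω) : Stat Finset.univ u Ω := by
  intro ψ hψ K hK hKΩ h0
  have h0' : ∀ i x, x ∉ K → ψ (x, u i x) = 0 := fun i => h0 i (Finset.mem_univ i)
  refine ⟨?_, fun e => ?_⟩
  · exact core_bridge hL hΩ h firstVar_vert_bridge contDiff_aa.continuous (B := 1)
      (fun p _ => norm_aa_le_one p) hψ hK hKΩ h0'
  · have hc : Continuous fun p : E m => MM p e := by
      have h1 : Continuous fun p : E m => ((p, e) : E m × E m) :=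
        continuous_id.prodMk continuous_const
      have h2 := (continuous_MM (m := m)).comp h1
      simpa only [Function.comp_def] using h2
    refine core_bridge hL hΩ h (Z := fun p => MM p e) (fun p D => firstVar_hor_bridge p e D)
      hc (B := WL L * ‖e‖) (fun p hp => ?_) hψ hK hKΩ h0'
    exact (norm_MM_le p e).trans (mul_le_mul_of_nonneg_right (W_le_WL hp) (norm_nonneg e))

theorem IsStationaryGraph.congr {Q : ℕ} {u u' : Fin Q → E m → ℝ} {Ω : Set (E m)} (hΩ : IsOpen Ω)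
    (h : IsStationaryGraph u Ω) (h' : ∀ i, EqOn (u' i) (u i) Ω) : IsStationaryGraph u' Ω := by
  intro X hX hc hs
  rw [← h X hX hc hs]
  refine Finset.sum_congr rfl fun i _ => ?_
  congr 1
  funext x
  by_cases hx : x ∈ Ω
  · have h1 : u' i =ᶠ[𝓝 x] u i := (h' i).eventuallyEq_of_mem (hΩ.mem_nhds hx)
    rw [h1.gradient_eq, h' i hx]
  · have h1 : ∀ z : ℝ, fderiv ℝ X (x, z) = 0 := fun z =>
      fderiv_of_notMem_tsupport ℝ fun hz => hx (hs hz).1
    rw [h1, h1]
    simp [firstVar]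

end Pool.Agent.Lib.MP_8daebb_an.LG
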