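import Pool.Agent.Lib.MP_8daebb_an.LG.Lip
import Pool.Agent.Lib.MP_8daebb_an.LG.Alg

open MeasureTheory Metric Set Filter Topology
open scoped RealInnerProductSpace NNReal

namespace Pool.Agent.Lib.MP_8daebb_an.LG

variable {m : ℕ} {ι : Type}

/-! LIPD. Locally Lipschitz functions on balls. -/

theorem locLip_extend {f : E m → ℝ} (hf : LocallyLipschitz f) (c : E m) (r : ℝ) :
    ∃ (f' : E m → ℝ) (K : ℝ≥0), LipschitzWith K f' ∧ EqOn f' f (ball c r) := by
  obtain ⟨K, hK⟩ := (hf.locallyLipschitzOn (s := closedBall c r)).exists_lipschitzOnWith_of_compact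
    (isCompact_closedBall c r)
  obtain ⟨g, hg, hfg⟩ := hK.extend_real
  exact ⟨g, K, hg, fun x hx => (hfg (ball_subset_closedBall hx)).symm⟩

theorem grad_congr_open {f g : E m → ℝ} {O : Set (E m)} (hO : IsOpen O) (h : EqOn f g O) {x : E m}
    (hx : x ∈ O) : gradient f x = gradient g x := by
  have h1 : f =ᶠ[𝓝 x] g := by
    filter_upwards [hO.mem_nhds hx] with y hy using h hy
  exact h1.gradient_eq

theorem locLip_grad_bdd {f : E m → ℝ} (hf : LocallyLipschitz f) (c : E m) (r : ℝ) :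
    ∃ C : ℝ, ∀ x ∈ ball c r, ‖gradient f x‖ ≤ C := by
  obtain ⟨g, K, hg, hfg⟩ := locLip_extend hf c r
  refine ⟨K, fun x hx => ?_⟩
  rw [← grad_congr_open isOpen_ball hfg hx]
  exact norm_grad_le hg x

theorem locLip_fderiv_bdd {Y : E m → E m} (hY : LocallyLipschitz Y) (c : E m) (r : ℝ) :
    ∃ C : ℝ, ∀ x ∈ ball c r, ‖fderiv ℝ Y x‖ ≤ C := by
  obtain ⟨K, hK⟩ := (hY.locallyLipschitzOn (s := closedBall c r)).exists_lipschitzOnWith_of_compact
    (isCompact_closedBall c r)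
  exact ⟨K, fun x hx => norm_fderiv_le_of_lipschitzOn ℝ
    (mem_of_superset (isOpen_ball.mem_nhds hx) ball_subset_closedBall) hK⟩

theorem memLp_grad {f : E m → ℝ} (hf : LocallyLipschitz f) (c : E m) (r : ℝ) :
    MemLp (gradient f) 2 (volume.restrict (ball c r)) := by
  obtain ⟨C, hC⟩ := locLip_grad_bdd hf c r
  have : IsFiniteMeasure (volume.restrict (ball c r)) :=
    isFiniteMeasure_restrict.mpr measure_ball_lt_top.ne
  refine MemLp.of_bound (meas_grad f).aestronglyMeasurable C ?_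
  filter_upwards [ae_restrict_mem measurableSet_ball] with x hx using hC x hx

theorem memLp_bdd {Ξ : E m → E m} (hΞ : AEStronglyMeasurable Ξ volume) {c : E m} {r C : ℝ}
    (h : ∀ᵐ x, x ∈ ball c r → ‖Ξ x‖ ≤ C) : MemLp Ξ 2 (volume.restrict (ball c r)) := by
  have : IsFiniteMeasure (volume.restrict (ball c r)) :=
    isFiniteMeasure_restrict.mpr measure_ball_lt_top.ne
  exact MemLp.of_bound hΞ.restrict C ((ae_restrict_iff' measurableSet_ball).mpr h)

theorem continuous_ta (L : ℝ) : Continuous (ta L : E m → E m) := by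
  refine (LipschitzWith.of_dist_le_mul (K := 2) fun p q => ?_).continuous
  rw [dist_eq_norm, dist_eq_norm]
  exact ta_lip L p q

theorem memLp_ta (L : ℝ) {Ξ : E m → E m} {μ : Measure (E m)} (h : MemLp Ξ 2 μ) :
    MemLp (fun x => ta L (Ξ x)) 2 μ := by
  refine h.of_le_mul (c := 2) ((continuous_ta L).comp_aestronglyMeasurable h.1)
    (Eventually.of_forall fun x => ?_)
  have h1 := ta_lip L (Ξ x) 0
  have h2 : ta L (0 : E m) = 0 := smul_zero _
  rwa [h2, sub_zero, sub_zero] at h1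

/-- The derivative of a map that is Lipschitz on an open set is bounded there. -/
theorem norm_fderiv_le_of_lipOn {Y : E m → E m} {O : Set (E m)} (hO : IsOpen O) {K : ℝ}
    (h : ∀ x ∈ O, ∀ y ∈ O, ‖Y x - Y y‖ ≤ K * ‖x - y‖) (hK : 0 ≤ K) {x : E m} (hx : x ∈ O) :
    ‖fderiv ℝ Y x‖ ≤ K := by
  have h1 : LipschitzOnWith ⟨K, hK⟩ Y O := LipschitzOnWith.of_dist_le_mul fun x hx y hy => by
    rw [dist_eq_norm, dist_eq_norm]
    exact h x hx y hy
  exact norm_fderiv_le_of_lipschitzOn ℝ (hO.mem_nhds hx) h1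

theorem int_sq_add_le {A B : E m → E m} {μ : Measure (E m)} (hA : MemLp A 2 μ) (hB : MemLp B 2 μ) :
    ∫ x, ‖A x + B x‖ ^ 2 ∂μ ≤ 2 * (∫ x, ‖A x‖ ^ 2 ∂μ) + 2 * ∫ x, ‖B x‖ ^ 2 ∂μ := by
  have h1 := (memLp_two_iff_integrable_sq_norm hA.1).mp hA
  have h2 := (memLp_two_iff_integrable_sq_norm hB.1).mp hB
  rw [← integral_const_mul, ← integral_const_mul, ← integral_add (h1.const_mul 2) (h2.const_mul 2)]
  refine integral_mono_of_nonneg (Eventually.of_forall fun x => sq_nonneg _)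
    ((h1.const_mul 2).add (h2.const_mul 2)) (Eventually.of_forall fun x => ?_)
  have h3 := pow_le_pow_left₀ (norm_nonneg _) (norm_add_le (A x) (B x)) 2
  show ‖A x + B x‖ ^ 2 ≤ 2 * ‖A x‖ ^ 2 + 2 * ‖B x‖ ^ 2
  nlinarith [sq_nonneg (‖A x‖ - ‖B x‖)]

end Pool.Agent.Lib.MP_8daebb_an.LG
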