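import Pool.Agent.Lib.MP_8daebb_an.LG.Alg
import Pool.Agent.Lib.MP_8daebb_an.LG.Cut
import Pool.Agent.Lib.MP_8daebb_an.LG.Weak
import Pool.Agent.Lib.MP_8daebb_an.LG.LipD

open MeasureTheory Metric Set Filter Topology
open scoped RealInnerProductSpace NNReal

namespace Pool.Agent.Lib.MP_8daebb_an.LG

variable {m : ℕ} {ι : Type}

/-! CACC. The Caccioppoli inequality around a quadratic polynomial. -/

theorem pt_cacc {Λ c κ : ℝ} (hΛ : 1 ≤ Λ) (hc0 : 0 ≤ c) (hc1 : c ≤ 1) (hκ : 0 ≤ κ)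
    {D R g H : E m} (hmono : ‖g‖ ^ 2 ≤ Λ * ⟪D, g⟫) (hD : ‖D‖ ≤ 2 * ‖g‖) (hH : ‖H‖ ≤ c * κ) :
    c ^ 2 * ‖g‖ ^ 2 ≤ 2 * Λ * ⟪D + R, (c ^ 2) • g + H⟫ + 10 * Λ ^ 2 * κ ^ 2 +
      4 * Λ ^ 2 * ‖R‖ ^ 2 := by
  have hg := norm_nonneg g
  have hR := norm_nonneg R
  have hΛ0 : 0 ≤ Λ := by linarith
  have a1 : (c * ‖g‖) ^ 2 ≤ Λ * (c ^ 2 * ⟪D, g⟫) := by
    have := mul_le_mul_of_nonneg_left hmono (sq_nonneg c)
    nlinarith
  have a2 : -(2 * (c * ‖g‖) * κ) ≤ ⟪D, H⟫ := by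
    have h1 := (abs_le.1 (abs_real_inner_le_norm D H)).1
    have h2 : ‖D‖ * ‖H‖ ≤ 2 * ‖g‖ * (c * κ) := mul_le_mul hD hH (norm_nonneg _) (by positivity)
    nlinarith
  have a3 : -(c * ‖g‖ * ‖R‖) ≤ c ^ 2 * ⟪R, g⟫ := by
    have h1 := (abs_le.1 (abs_real_inner_le_norm R g)).1
    have h2 := mul_le_mul_of_nonneg_left h1 (sq_nonneg c)
    have h3 : 0 ≤ (1 - c) * (c * ‖g‖ * ‖R‖) := mul_nonneg (by linarith) (by positivity)
    nlinarith
  have a4 : -(Λ * ‖R‖ * κ) ≤ ⟪R, H⟫ := by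
    have h1 := (abs_le.1 (abs_real_inner_le_norm R H)).1
    have h2 : ‖R‖ * ‖H‖ ≤ ‖R‖ * (c * κ) := mul_le_mul_of_nonneg_left hH hR
    have h3 : 0 ≤ (Λ - c) * (‖R‖ * κ) := mul_nonneg (by linarith) (by positivity)
    nlinarith
  have b2 := mul_le_mul_of_nonneg_left a2 hΛ0
  have b3 := mul_le_mul_of_nonneg_left a3 hΛ0
  have b4 := mul_le_mul_of_nonneg_left a4 hΛ0
  simp only [inner_add_left, inner_add_right, real_inner_smul_right]
  nlinarith [sq_nonneg (c * ‖g‖ - 4 * (Λ * κ)), sq_nonneg (c * ‖g‖ - 2 * (Λ * ‖R‖)),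
    sq_nonneg (Λ * κ - Λ * ‖R‖), sq_nonneg (Λ * κ), sq_nonneg (Λ * ‖R‖)]

theorem int_inner_cacc {A B : E m → E m} {μ : Measure (E m)} (hA : MemLp A 2 μ)
    (hB : MemLp B 2 μ) : Integrable (fun x => ⟪A x, B x⟫) μ :=
  (hA.norm.integrable_mul hB.norm).mono' (hA.1.inner hB.1)
    (ae_of_all _ fun x => norm_inner_le_norm (A x) (B x))

theorem norm_grad_chi_cacc {ρ : ℝ} (hρ : 0 < ρ) (x : E m) :
    ‖gradient (chi 0 (3 * ρ / 2)) x‖ ≤ √(chi 0 (3 * ρ / 2) x) * (4 / ρ) := by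
  have hr : 0 < 3 * ρ / 2 := by positivity
  have ho := om_nonneg (0 : E m) (3 * ρ / 2) x
  have h1 : om 0 (3 * ρ / 2) x ≤ 3 * √(chi 0 (3 * ρ / 2) x) := by
    refine abs_le_of_sq_le_sq' ?_ (by positivity) |>.2
    rw [mul_pow, Real.sq_sqrt (chi_nonneg _ _ _)]
    linarith [om_sq_le (0 : E m) (3 * ρ / 2) x]
  rw [grad_chi, norm_smul, norm_neg, Real.norm_of_nonneg (by positivity), sub_zero]
  by_cases hx : x ∈ ball (0 : E m) (3 * ρ / 2)
  · have h2 : ‖x‖ ≤ 3 * ρ / 2 := (mem_ball_zero_iff.1 hx).le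
    calc 2 * om 0 (3 * ρ / 2) x / (3 * ρ / 2) ^ 2 * ‖x‖
        ≤ 2 * (3 * √(chi 0 (3 * ρ / 2) x)) / (3 * ρ / 2) ^ 2 * (3 * ρ / 2) := by gcongr
      _ = _ := by field_simp; ring
  · have : om 0 (3 * ρ / 2) x = 0 := by rw [om, pr_eq_zero hr hx]; simp
    rw [this]
    simp only [mul_zero, zero_div, zero_mul]
    positivity

theorem cacc_quad (m : ℕ) {L₁ : ℝ} (hL₁ : 1 ≤ L₁) : ∃ C > 0,
    ∀ (f : E m → ℝ) (Ξ : E m → E m) (a : ℝ) (p : E m) (S : E m →L[ℝ] E m) (ρ : ℝ),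
      LocallyLipschitz f → 0 < ρ → Sym S → trA p S = 0 → ‖p‖ + 2 * ρ * ‖S‖ ≤ 1 / 2 →
      MemLp Ξ 2 (volume.restrict (ball 0 (2 * ρ))) → DivFree Ξ (ball 0 (2 * ρ)) →
      ∫ y in ball 0 ρ, ‖gradient f y - p - S y‖ ^ 2 ≤
        C * ((∫ y in ball 0 (2 * ρ), (f y - (a + ⟪p, y⟫ + ⟪S y, y⟫ / 2)) ^ 2) / ρ ^ 2 +
          (∫ y in ball 0 (2 * ρ), ‖Ξ y - ta L₁ (gradient f y)‖ ^ 2) + ‖S‖ ^ 4 * ρ ^ (m + 4)) := by
  have hΛ : 1 ≤ WL L₁ ^ 3 := one_le_pow₀ (one_le_WL L₁)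
  have hvb := vb_pos m
  set Λ := WL L₁ ^ 3 with hΛdef
  refine ⟨27 * Λ ^ 2 * (168 + 4608 * (vb m * 2 ^ m)), by positivity, ?_⟩
  intro f Ξ a p S ρ hf hρ hS htr hp hΞ hdiv
  have hr : 0 < 3 * ρ / 2 := by positivity
  set q : E m → ℝ := fun y => a + ⟪p, y⟫ + ⟪S y, y⟫ / 2 with hq
  have hqg : ∀ y, HasGradientAt q (p + S y) y := fun y => by
    simpa only [sub_zero] using grad_quad hS p 0 a y
  have hq1 : ContDiff ℝ 1 q :=
    (contDiff_const.add (contDiff_const.inner ℝ contDiff_id)).add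
      ((S.contDiff.inner ℝ contDiff_id).div_const 2)
  have hk : LocallyLipschitz fun y => f y - q y := by
    simpa [sub_eq_add_neg] using hf.add hq1.locallyLipschitz.neg
  set χ : E m → ℝ := chi 0 (3 * ρ / 2) with hχ
  have hχ1 : ContDiff ℝ 1 χ := contDiff_chi _ _
  have hζ : LocallyLipschitz fun y => χ y * (f y - q y) := locLip_mul hχ1.locallyLipschitz hk
  have hts : tsupport (fun y => χ y * (f y - q y)) ⊆ closedBall 0 (3 * ρ / 2) :=
    (tsupport_mul_subset_left (f := χ) (g := fun y => f y - q y)).trans (tsupport_chi hr)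
  have hcs : HasCompactSupport fun y => χ y * (f y - q y) :=
    (isCompact_closedBall _ _).of_isClosed_subset (isClosed_tsupport _) hts
  have hsub : tsupport (fun y => χ y * (f y - q y)) ⊆ ball 0 (2 * ρ) :=
    hts.trans (closedBall_subset_ball (by linarith))
  have hz : ∀ T : E m → E m, ∫ y in ball 0 (2 * ρ),
      ⟪T y, gradient (fun y => χ y * (f y - q y)) y⟫ =
      ∫ y, ⟪T y, gradient (fun y => χ y * (f y - q y)) y⟫ := fun T =>
    setIntegral_eq_integral_of_forall_compl_eq_zero fun y hy => by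
      rw [grad_eq_zero_of_notMem fun h => hy (hsub h), inner_zero_right]
  have hSy : ∀ y ∈ ball (0 : E m) (2 * ρ), ‖S y‖ ≤ 2 * ρ * ‖S‖ := fun y hy => by
    have h1 := S.le_opNorm y
    have h2 := mul_le_mul_of_nonneg_left (mem_ball_zero_iff.1 hy).le (norm_nonneg S)
    linarith
  have hgz := memLp_grad hζ 0 (2 * ρ)
  have haff : MemLp (fun y => aa p + AA p (S y)) 2 (volume.restrict (ball 0 (2 * ρ))) := by
    have h1 : Continuous fun y : E m => AA p (S y) := by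
      have := (continuous_AA (m := m)).comp ((continuous_const (y := p)).prodMk S.continuous)
      exact this
    refine memLp_bdd (continuous_const.add h1).aestronglyMeasurable (C := 1 + 2 * ρ * ‖S‖)
      (ae_of_all _ fun y hy => (norm_add_le _ _).trans ?_)
    exact add_le_add (norm_aa_le_one p) ((norm_AA_le _ _).trans (hSy y hy))
  have i1 := int_inner_cacc hΞ hgz
  have i2 := int_inner_cacc haff hgz
  have z1 := (hz Ξ).trans (hdiv _ hζ hcs hsub)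
  have z2 := (hz fun y => aa p + AA p (S y)).trans (by
    simpa only [sub_zero] using divFree_affine p 0 (aa p) S htr _ _ hζ hcs hsub)
  have i3 : IntegrableOn (fun y => (f y - q y) ^ 2) (ball 0 (2 * ρ)) :=
    ((hk.continuous.pow 2).continuousOn.integrableOn_compact (isCompact_closedBall _ _)).mono_set
      ball_subset_closedBall
  have i4 : IntegrableOn (fun y => ‖Ξ y - ta L₁ (gradient f y)‖ ^ 2) (ball 0 (2 * ρ)) :=
    (hΞ.sub (memLp_ta L₁ (memLp_grad hf 0 (2 * ρ)))).integrable_norm_pow two_ne_zero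
  have i5 : IntegrableOn (fun _ : E m => ‖S‖ ^ 4 * ρ ^ 4) (ball 0 (2 * ρ)) :=
    integrableOn_const measure_ball_lt_top.ne
  have pt : ∀ᵐ y ∂volume.restrict (ball (0 : E m) (2 * ρ)),
      (ball (0 : E m) ρ).indicator (fun y => ‖gradient f y - p - S y‖ ^ 2) y ≤
        54 * Λ * (⟪Ξ y, gradient (fun y => χ y * (f y - q y)) y⟫ -
          ⟪aa p + AA p (S y), gradient (fun y => χ y * (f y - q y)) y⟫) +
        27 * Λ ^ 2 * (160 / ρ ^ 2 * (f y - q y) ^ 2 + 8 * ‖Ξ y - ta L₁ (gradient f y)‖ ^ 2 +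
          4608 * (‖S‖ ^ 4 * ρ ^ 4)) := by
    rw [ae_restrict_iff' measurableSet_ball]
    filter_upwards [locLip_ae_diff hf] with y hy hyB
    have hqd := (hqg y).differentiableAt
    have hc2 : √(χ y) ^ 2 = χ y := Real.sq_sqrt (chi_nonneg _ _ _)
    have e1 : gradient (fun y => χ y * (f y - q y)) y =
        (√(χ y) ^ 2) • (gradient f y - (p + S y)) + (f y - q y) • gradient χ y := by
      rw [grad_mul (hχ1.differentiable one_ne_zero y) (hy.fun_sub hqd), grad_sub hy hqd,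
        (hqg y).gradient, hc2]
    have hpS : ‖p + S y‖ ≤ L₁ := (norm_add_le _ _).trans (by linarith [hSy y hyB])
    have hH : ‖(f y - q y) • gradient χ y‖ ≤ √(χ y) * (4 / ρ * |f y - q y|) := by
      rw [norm_smul, Real.norm_eq_abs]
      have := mul_le_mul_of_nonneg_left (norm_grad_chi_cacc hρ y) (abs_nonneg (f y - q y))
      linarith
    have key := pt_cacc hΛ (Real.sqrt_nonneg (χ y)) (Real.sqrt_le_one.2 (chi_le_one _ _ _))
      (by positivity) (R := (Ξ y - ta L₁ (gradient f y)) + (aa (p + S y) - aa p - AA p (S y)))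
      (ta_mono L₁ (gradient f y) (p + S y)) (ta_lip L₁ _ _) hH
    have e2 : ta L₁ (gradient f y) - ta L₁ (p + S y) +
        ((Ξ y - ta L₁ (gradient f y)) + (aa (p + S y) - aa p - AA p (S y))) =
        Ξ y - (aa p + AA p (S y)) := by
      rw [ta_eq hpS]; abel
    rw [e2, ← e1, inner_sub_left, hc2, mul_pow, sq_abs, div_pow] at key
    have hR : ‖(Ξ y - ta L₁ (gradient f y)) + (aa (p + S y) - aa p - AA p (S y))‖ ^ 2 ≤
        2 * ‖Ξ y - ta L₁ (gradient f y)‖ ^ 2 + 1152 * (‖S‖ ^ 4 * ρ ^ 4) := by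
      have h1 : ‖aa (p + S y) - aa p - AA p (S y)‖ ≤ 24 * (‖S‖ ^ 2 * ρ ^ 2) := by
        refine (aa_taylor _ _).trans ?_
        have := pow_le_pow_left₀ (norm_nonneg _) (hSy y hyB) 2
        nlinarith
      have h2 := pow_le_pow_left₀ (norm_nonneg _) ((norm_add_le (Ξ y - ta L₁ (gradient f y))
        (aa (p + S y) - aa p - AA p (S y))).trans (add_le_add_right h1 _)) 2
      nlinarith [sq_nonneg (‖Ξ y - ta L₁ (gradient f y)‖ - 24 * (‖S‖ ^ 2 * ρ ^ 2))]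
    have hR' := mul_le_mul_of_nonneg_left hR (by positivity : 0 ≤ 4 * Λ ^ 2)
    have hind : (ball (0 : E m) ρ).indicator (fun y => ‖gradient f y - p - S y‖ ^ 2) y ≤
        27 * (χ y * ‖gradient f y - (p + S y)‖ ^ 2) := by
      by_cases hyρ : y ∈ ball (0 : E m) ρ
      · rw [indicator_of_mem hyρ, sub_sub]
        have h1 : 1 / 3 ≤ pr 0 (3 * ρ / 2) y :=
          pr_ge hr (by norm_num) (by norm_num) (by convert hyρ using 2; ring)
        have h2 : 1 / 27 ≤ χ y := by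
          have := pow_le_pow_left₀ (by norm_num) h1 3
          rw [hχ, chi]; linarith
        nlinarith [sq_nonneg ‖gradient f y - (p + S y)‖]
      · rw [indicator_of_notMem hyρ]
        exact mul_nonneg (by norm_num) (mul_nonneg (chi_nonneg _ _ _) (sq_nonneg _))
    have e3 : 160 / ρ ^ 2 * (f y - q y) ^ 2 = 10 * (4 ^ 2 / ρ ^ 2 * (f y - q y) ^ 2) := by ring
    rw [e3]
    linarith
  have j1 := (i1.sub i2).const_mul (54 * Λ)
  have j2 := (i3.const_mul (160 / ρ ^ 2)).add (i4.const_mul 8)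
  have j3 := (j2.add (i5.const_mul 4608)).const_mul (27 * Λ ^ 2)
  have main := integral_mono_of_nonneg (ae_of_all _ fun y =>
    indicator_nonneg (fun y _ => sq_nonneg ‖gradient f y - p - S y‖) y) (j1.add j3) pt
  rw [setIntegral_indicator measurableSet_ball,
    inter_eq_right.2 (ball_subset_ball (by linarith)), integral_add' j1 j3, integral_const_mul,
    integral_const_mul, integral_sub' i1 i2, z1, z2, integral_add' j2 (i5.const_mul 4608),
    integral_add' (i3.const_mul _) (i4.const_mul 8), integral_const_mul, integral_const_mul,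
    integral_const_mul, setIntegral_const, vol_ball _ (by positivity), smul_eq_mul] at main
  have n3 : 0 ≤ (∫ y in ball 0 (2 * ρ), (f y - q y) ^ 2) / ρ ^ 2 :=
    div_nonneg (integral_nonneg fun y => sq_nonneg _) (sq_nonneg _)
  have n4 : 0 ≤ ∫ y in ball 0 (2 * ρ), ‖Ξ y - ta L₁ (gradient f y)‖ ^ 2 :=
    integral_nonneg fun y => sq_nonneg _
  have n5 : 0 ≤ ‖S‖ ^ 4 * ρ ^ (m + 4) := by positivity
  have n6 : 0 ≤ vb m * 2 ^ m := by positivity
  refine main.trans ?_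
  rw [sub_zero, mul_zero, zero_add, mul_assoc (27 * Λ ^ 2)]
  refine mul_le_mul_of_nonneg_left ?_ (by positivity)
  have e4 : vb m * (2 * ρ) ^ m * (‖S‖ ^ 4 * ρ ^ 4) = vb m * 2 ^ m * (‖S‖ ^ 4 * ρ ^ (m + 4)) := by
    rw [mul_pow, pow_add]; ring
  have e5 : 160 / ρ ^ 2 * ∫ y in ball 0 (2 * ρ), (f y - q y) ^ 2 =
      160 * ((∫ y in ball 0 (2 * ρ), (f y - q y) ^ 2) / ρ ^ 2) := by ring
  rw [e4, e5]
  nlinarith [mul_nonneg n6 n3, mul_nonneg n6 n4]

end Pool.Agent.Lib.MP_8daebb_an.LG
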