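import Pool.Agent.Lib.MP_8daebb_an.LG.Alg
import Pool.Agent.Lib.MP_8daebb_an.LG.Weak
import Pool.Agent.Lib.MP_8daebb_an.LG.LipD

open MeasureTheory Metric Set Filter Topology
open scoped RealInnerProductSpace NNReal

namespace Pool.Agent.Lib.MP_8daebb_an.LG

variable {m : ℕ} {ι : Type}

/-! CEN. Solution of the Dirichlet problem for the monotone operator. -/

theorem abstract_cen {X : Type} [NormedAddCommGroup X] [InnerProductSpace ℝ X] [CompleteSpace X]
    (S : Submodule ℝ X) (N : X → X) {κ : ℝ} (h0 : 0 ≤ κ) (h1 : κ < 1)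
    (hN : ∀ a b, ‖(a - N a) - (b - N b)‖ ≤ κ * ‖a - b‖) :
    ∃ g ∈ closure (S : Set X), (∀ h ∈ S, ⟪N g, h⟫ = 0) ∧ (1 - κ) * ‖g‖ ≤ ‖N 0‖ := by
  let H : Submodule ℝ X := S.topologicalClosure
  let T : X → X := fun a => H.starProjection (a - N a)
  have hT : ∀ a b, ‖T a - T b‖ ≤ κ * ‖a - b‖ := by
    intro a b
    have h2 : T a - T b = H.starProjection ((a - N a) - (b - N b)) := (map_sub _ _ _).symm
    rw [h2]
    exact (H.norm_starProjection_apply_le _).trans (hN a b)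
  have hC : ContractingWith ⟨κ, h0⟩ T :=
    ⟨h1, LipschitzWith.of_dist_le_mul fun a b => by
      rw [dist_eq_norm, dist_eq_norm]
      exact hT a b⟩
  obtain ⟨g, hg⟩ : ∃ g, T g = g := ⟨hC.fixedPoint T, hC.fixedPoint_isFixedPt⟩
  have hgH : g ∈ H := by
    rw [← hg]
    exact H.starProjection_apply_mem _
  refine ⟨g, hgH, fun h hh => ?_, ?_⟩
  · have h2 : H.starProjection g - H.starProjection (N g) = g := by
      rw [← map_sub]
      exact hg
    rw [H.starProjection_eq_self_iff.mpr hgH, sub_eq_self,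
      Submodule.starProjection_apply_eq_zero_iff] at h2
    exact Submodule.inner_left_of_mem_orthogonal (S.le_topologicalClosure hh) h2
  · have h2 := hT g 0
    rw [hg, sub_zero] at h2
    have h3 : ‖T 0‖ ≤ ‖N 0‖ := by
      refine (H.norm_starProjection_apply_le _).trans ?_
      rw [zero_sub, norm_neg]
    have h4 : ‖g‖ ≤ ‖g - T 0‖ + ‖T 0‖ := norm_le_norm_sub_add _ _
    linarith

theorem norm_sq_cen {μ : Measure (E m)} (a : Lp (E m) 2 μ) : ‖a‖ ^ 2 = ∫ x, ‖a x‖ ^ 2 ∂μ := by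
  rw [← real_inner_self_eq_norm_sq, L2.inner_def]
  simp only [real_inner_self_eq_norm_sq]

/-- The classes of gradients of test functions. -/
def gradSub_cen (m : ℕ) (R : ℝ) : Submodule ℝ (Lp (E m) 2 (volume.restrict (ball (0 : E m) R))) where
  carrier := {h | ∃ ζ : E m → ℝ, ContDiff ℝ 2 ζ ∧ HasCompactSupport ζ ∧ tsupport ζ ⊆ ball 0 R ∧
    h =ᵐ[volume.restrict (ball (0 : E m) R)] gradient ζ}
  zero_mem' := by
    refine ⟨fun _ => 0, contDiff_const, HasCompactSupport.zero, ?_, ?_⟩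
    · have : tsupport (fun _ : E m => (0 : ℝ)) = ∅ := tsupport_eq_empty_iff.mpr rfl
      rw [this]
      exact empty_subset _
    · filter_upwards [Lp.coeFn_zero (E m) 2 (volume.restrict (ball (0 : E m) R))] with x hx
      rw [hx, gradient_fun_const]
      rfl
  add_mem' := by
    rintro a b ⟨ζ, h1, h2, h3, h4⟩ ⟨ξ, k1, k2, k3, k4⟩
    refine ⟨fun x => ζ x + ξ x, h1.add k1, h2.add k2,
      (tsupport_add ζ ξ).trans (union_subset h3 k3), ?_⟩
    filter_upwards [Lp.coeFn_add a b, h4, k4] with x hx hx1 hx2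
    rw [hx, Pi.add_apply, hx1, hx2, grad_add (h1.differentiable two_ne_zero x)
      (k1.differentiable two_ne_zero x)]
  smul_mem' := by
    rintro c a ⟨ζ, h1, h2, h3, h4⟩
    refine ⟨fun x => c * ζ x, contDiff_const.mul h1, h2.mul_left,
      (tsupport_mul_subset_right (f := fun _ => c) (g := ζ)).trans h3, ?_⟩
    filter_upwards [Lp.coeFn_smul c a, h4] with x hx hx1
    rw [hx, Pi.smul_apply, hx1, grad_const_mul]

theorem exists_centre {f : E m → ℝ} {K : ℝ≥0} (hf : LipschitzWith K f) {Ξ : E m → E m}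
    (hΞ : Measurable Ξ) (hΞ1 : ∀ x, ‖Ξ x‖ ≤ 1) {R : ℝ} (hd : DivFree Ξ (ball 0 R)) (L₁ : ℝ) :
    ∃ g : E m → E m, Measurable g ∧ MemLp g 2 volume ∧
      DivFree (fun x => ta L₁ (gradient f x + g x)) (ball 0 R) ∧
      ∫ x, ‖g x‖ ^ 2 ≤ WL L₁ ^ 6 * ∫ x in ball 0 R, ‖Ξ x - ta L₁ (gradient f x)‖ ^ 2 ∧
      ∀ η > 0, ∃ ζ : E m → ℝ, ContDiff ℝ 2 ζ ∧ HasCompactSupport ζ ∧
        ∫ x, ‖g x - gradient ζ x‖ ^ 2 ≤ η := by
  have hB : MeasurableSet (ball (0 : E m) R) := measurableSet_ball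
  have : IsFiniteMeasure (volume.restrict (ball (0 : E m) R)) :=
    isFiniteMeasure_restrict.mpr measure_ball_lt_top.ne
  have hΞ2 : MemLp Ξ 2 (volume.restrict (ball (0 : E m) R)) :=
    memLp_bdd hΞ.aestronglyMeasurable (Eventually.of_forall fun x _ => hΞ1 x)
  have hta : ∀ a : E m → E m, MemLp a 2 (volume.restrict (ball (0 : E m) R)) →
      MemLp (fun x => ta L₁ (gradient f x + a x)) 2 (volume.restrict (ball (0 : E m) R)) :=
    fun a ha => memLp_ta L₁ ((memLp_grad hf.locallyLipschitz 0 R).add ha)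
  obtain ⟨N, hN⟩ : ∃ N : Lp (E m) 2 (volume.restrict (ball (0 : E m) R)) →
      Lp (E m) 2 (volume.restrict (ball (0 : E m) R)),
      ∀ a, N a =ᵐ[volume.restrict (ball (0 : E m) R)] fun x => ta L₁ (gradient f x + a x) - Ξ x :=
    ⟨fun a => ((hta a (Lp.memLp a)).sub hΞ2).toLp _, fun a => MemLp.coeFn_toLp _⟩
  have hW1 : 1 ≤ WL L₁ ^ 3 := one_le_pow₀ (one_le_WL L₁)
  have hW0 : 0 < WL L₁ ^ 3 := zero_lt_one.trans_le hW1
  obtain ⟨g₀, hg₀, horth, hnorm⟩ := abstract_cen (gradSub_cen m R) N (κ := 1 - (WL L₁ ^ 3)⁻¹)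
    (sub_nonneg.mpr (inv_le_one_of_one_le₀ hW1)) (sub_lt_self _ (inv_pos.mpr hW0)) (by
      intro a b
      refine Lp.norm_le_mul_norm_of_ae_le_mul ?_
      filter_upwards [Lp.coeFn_sub (a - N a) (b - N b), Lp.coeFn_sub a (N a), Lp.coeFn_sub b (N b),
        Lp.coeFn_sub a b, hN a, hN b] with x h1 h2 h3 h4 h5 h6
      rw [h1, Pi.sub_apply, h2, h3, h4, Pi.sub_apply, Pi.sub_apply, Pi.sub_apply, h5, h6]
      have h7 := ta_contract L₁ (gradient f x + a x) (gradient f x + b x)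
      rw [add_sub_add_left_eq_sub] at h7
      refine le_trans (le_of_eq ?_) h7
      congr 1
      abel)
  have hmeas := (Lp.stronglyMeasurable g₀).measurable
  have hind : ∀ᵐ x ∂(volume.restrict (ball (0 : E m) R)),
      (ball (0 : E m) R).indicator g₀ x = g₀ x := by
    filter_upwards [ae_restrict_mem hB] with x hx
    exact indicator_of_mem hx _
  have hgrad0 : ∀ ζ : E m → ℝ, tsupport ζ ⊆ ball 0 R → ∀ x, x ∉ ball (0 : E m) R →
      gradient ζ x = 0 := fun ζ hζ x hx => grad_eq_zero_of_notMem fun h => hx (hζ h)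
  refine ⟨(ball (0 : E m) R).indicator g₀, hmeas.indicator hB,
    (memLp_indicator_iff_restrict hB).mpr (Lp.memLp g₀), ?_, ?_, ?_⟩
  · have hmem := hta _ ((Lp.memLp g₀).indicator hB)
    refine divFree_of_smooth isOpen_ball
      (fun K' _ hK' => IntegrableOn.mono_set (hmem.integrable one_le_two) hK') ?_
    intro ζ h1 h2 h3
    have hζL : LocallyLipschitz ζ := (h1.of_le one_le_two).locallyLipschitz
    have hζ2 := memLp_grad hζL 0 R
    have h4 := horth (hζ2.toLp _) ⟨ζ, h1, h2, h3, MemLp.coeFn_toLp _⟩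
    have h5 := hd ζ hζL h2 h3
    rw [← setIntegral_eq_integral_of_forall_compl_eq_zero (s := ball 0 R)
      (fun x hx => by rw [hgrad0 ζ h3 x hx, inner_zero_right])] at h5 ⊢
    have hΞi : Integrable (fun x => ⟪Ξ x, gradient ζ x⟫) (volume.restrict (ball (0 : E m) R)) := by
      have h6 := L2.integrable_inner (𝕜 := ℝ) (hΞ2.toLp _) (hζ2.toLp _)
      refine h6.congr ?_
      filter_upwards [hΞ2.coeFn_toLp, hζ2.coeFn_toLp] with x hx1 hx2
      rw [hx1, hx2]
    have h7 := integral_add (L2.integrable_inner (𝕜 := ℝ) (N g₀) (hζ2.toLp _)) hΞi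
    rw [L2.inner_def] at h4
    rw [h4, h5, add_zero] at h7
    rw [← h7]
    refine integral_congr_ae ?_
    filter_upwards [hN g₀, hζ2.coeFn_toLp, hind] with x hx1 hx2 hx3
    rw [hx1, hx2, hx3, ← inner_add_left, sub_add_cancel]
  · have h1 : ∫ x, ‖(ball (0 : E m) R).indicator g₀ x‖ ^ 2 = ‖g₀‖ ^ 2 := by
      rw [norm_sq_cen, ← setIntegral_eq_integral_of_forall_compl_eq_zero (s := ball 0 R)
        (fun x hx => by rw [indicator_of_notMem hx, norm_zero, zero_pow two_ne_zero])]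
      refine integral_congr_ae ?_
      filter_upwards [hind] with x hx
      rw [hx]
    have h2 : ∫ x in ball 0 R, ‖Ξ x - ta L₁ (gradient f x)‖ ^ 2 = ‖N 0‖ ^ 2 := by
      rw [norm_sq_cen]
      refine integral_congr_ae ?_
      filter_upwards [hN 0, Lp.coeFn_zero (E m) 2 (volume.restrict (ball (0 : E m) R))]
        with x hx1 hx2
      rw [hx1, hx2, Pi.zero_apply, add_zero, norm_sub_rev]
    rw [h1, h2]
    rw [sub_sub_cancel, inv_mul_le_iff₀ hW0] at hnorm
    calc ‖g₀‖ ^ 2 ≤ (WL L₁ ^ 3 * ‖N 0‖) ^ 2 := pow_le_pow_left₀ (norm_nonneg _) hnorm 2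
      _ = _ := by ring
  · intro η hη
    obtain ⟨h, ⟨ζ, h1, h2, h3, h4⟩, h5⟩ := Metric.mem_closure_iff.mp hg₀ (√η) (Real.sqrt_pos.mpr hη)
    refine ⟨ζ, h1, h2, ?_⟩
    have h6 : ∫ x, ‖(ball (0 : E m) R).indicator g₀ x - gradient ζ x‖ ^ 2 = ‖g₀ - h‖ ^ 2 := by
      rw [norm_sq_cen, ← setIntegral_eq_integral_of_forall_compl_eq_zero (s := ball 0 R)
        (fun x hx => by
          rw [indicator_of_notMem hx, hgrad0 ζ h3 x hx, sub_zero, norm_zero, zero_pow two_ne_zero])]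
      refine integral_congr_ae ?_
      filter_upwards [hind, h4, Lp.coeFn_sub g₀ h] with x hx1 hx2 hx3
      rw [hx1, hx3, Pi.sub_apply, hx2]
    rw [h6]
    rw [dist_eq_norm] at h5
    calc ‖g₀ - h‖ ^ 2 ≤ √η ^ 2 := pow_le_pow_left₀ (norm_nonneg _) h5.le 2
      _ = η := Real.sq_sqrt hη.le

end Pool.Agent.Lib.MP_8daebb_an.LG
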