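import Pool.Agent.Lib.MP_8daebb_an.LG.Lip

open MeasureTheory Metric Set Filter Topology
open scoped RealInnerProductSpace NNReal

namespace Pool.Agent.Lib.MP_8daebb_an.LG

variable {m : ℕ} {ι : Type}

/-! SCAL. Translations and dilations. -/

theorem grad_aff_scal (f : E m → ℝ) (x₀ : E m) (l : ℝ) (y : E m) :
    gradient (fun y => f (x₀ + l • y)) y = l • gradient f (x₀ + l • y) := by
  unfold gradient
  rw [fderiv_comp_smul (f := fun z => f (x₀ + z)) l, fderiv_comp_add_left, map_smul]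

/-- The affine homeomorphism. -/
noncomputable def affScal (x₀ : E m) {l : ℝ} (hl : 0 < l) : E m ≃ₜ E m :=
  (Homeomorph.smulOfNeZero l hl.ne').trans (Homeomorph.addLeft x₀)

theorem aff_apply_scal (x₀ : E m) {l : ℝ} (hl : 0 < l) :
    (affScal x₀ hl : E m → E m) = fun y => x₀ + l • y := rfl

theorem aff_symm_scal (x₀ : E m) {l : ℝ} (hl : 0 < l) :
    ((affScal x₀ hl).symm : E m → E m) = fun x => l⁻¹ • (x - x₀) := by
  funext x
  rw [Homeomorph.symm_apply_eq, aff_apply_scal]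
  simp [smul_smul, mul_inv_cancel₀ hl.ne']

theorem emb_scal (x₀ : E m) {l : ℝ} (hl : 0 < l) :
    MeasurableEmbedding fun y : E m => x₀ + l • y := (affScal x₀ hl).measurableEmbedding

theorem map_scal (x₀ : E m) {l : ℝ} (hl : 0 < l) :
    Measure.map (fun y : E m => x₀ + l • y) volume = ENNReal.ofReal (l ^ m)⁻¹ • volume := by
  have h1 : (fun y : E m => x₀ + l • y) = (fun z => x₀ + z) ∘ fun y => l • y := rfl
  rw [h1, ← Measure.map_map (measurable_const_add x₀) (measurable_const_smul l),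
    Measure.map_addHaar_smul volume hl.ne', Measure.map_smul, map_add_left_eq_self,
    finrank_euclideanSpace_fin, abs_of_pos (by positivity)]

theorem pre_scal (x₀ : E m) {l : ℝ} (hl : 0 < l) (r : ℝ) :
    (fun y : E m => x₀ + l • y) ⁻¹' ball x₀ (l * r) = ball 0 r := by
  ext y
  rw [mem_preimage, mem_ball_iff_norm, add_sub_cancel_left, norm_smul, Real.norm_of_nonneg hl.le,
    mem_ball_zero_iff, mul_lt_mul_iff_right₀ hl]

theorem map_restrict_scal (x₀ : E m) {l : ℝ} (hl : 0 < l) (r : ℝ) :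
    Measure.map (fun y : E m => x₀ + l • y) (volume.restrict (ball 0 r)) =
      ENNReal.ofReal (l ^ m)⁻¹ • volume.restrict (ball x₀ (l * r)) := by
  rw [← pre_scal x₀ hl r, ← (emb_scal x₀ hl).restrict_map, map_scal x₀ hl, Measure.restrict_smul]

theorem locLip_aff_scal (x₀ : E m) (l : ℝ) : LocallyLipschitz fun y : E m => x₀ + l • y :=
  (contDiff_const.add (contDiff_id.const_smul l) : ContDiff ℝ 1 _).locallyLipschitz

theorem grad_scale (f : E m → ℝ) (x₀ : E m) (z₀ : ℝ) {l : ℝ} (hl : 0 < l) (y : E m) :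
    gradient (fun y => (f (x₀ + l • y) - z₀) / l) y = gradient f (x₀ + l • y) := by
  have h1 : (fun y => (f (x₀ + l • y) - z₀) / l) = fun y => l⁻¹ * (f (x₀ + l • y) - z₀) := by
    funext y
    rw [div_eq_inv_mul]
  have h2 : gradient (fun y => f (x₀ + l • y) - z₀) y = gradient (fun y => f (x₀ + l • y)) y := by
    unfold gradient
    rw [fderiv_sub_const]
  rw [h1, grad_const_mul, h2, grad_aff_scal, smul_smul, inv_mul_cancel₀ hl.ne', one_smul]

theorem grad_unscale (f : E m → ℝ) (x₀ : E m) {l : ℝ} (hl : 0 < l) (x : E m) :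
    gradient (fun x => f (l⁻¹ • (x - x₀))) x = l⁻¹ • gradient f (l⁻¹ • (x - x₀)) := by
  have h1 : ∀ x : E m, l⁻¹ • (x - x₀) = -(l⁻¹ • x₀) + l⁻¹ • x := fun x => by
    rw [smul_sub, sub_eq_neg_add]
  simp only [h1]
  exact grad_aff_scal f _ _ x

theorem int_scale {F : Type} [NormedAddCommGroup F] [NormedSpace ℝ F] (G : E m → F) (x₀ : E m)
    {l : ℝ} (hl : 0 < l) : ∫ y, G (x₀ + l • y) = (l ^ m)⁻¹ • ∫ x, G x := by
  rw [← (emb_scal x₀ hl).integral_map, map_scal x₀ hl, integral_smul_measure,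
    ENNReal.toReal_ofReal (by positivity)]

theorem setInt_scale (G : E m → ℝ) (x₀ : E m) {l : ℝ} (hl : 0 < l) (r : ℝ) :
    ∫ y in ball 0 r, G (x₀ + l • y) = (∫ x in ball x₀ (l * r), G x) / l ^ m := by
  rw [← (emb_scal x₀ hl).integral_map, map_restrict_scal x₀ hl, integral_smul_measure,
    ENNReal.toReal_ofReal (by positivity), smul_eq_mul, div_eq_inv_mul]

theorem vol_scale (S : Set (E m)) (x₀ : E m) {l : ℝ} (hl : 0 < l) (r : ℝ) :
    volume.real ({y | x₀ + l • y ∈ S} ∩ ball 0 r) = volume.real (S ∩ ball x₀ (l * r)) / l ^ m := by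
  have h1 : {y | x₀ + l • y ∈ S} ∩ ball 0 r =
      (fun y : E m => x₀ + l • y) ⁻¹' (S ∩ ball x₀ (l * r)) := by
    rw [preimage_inter, pre_scal x₀ hl]
    rfl
  rw [h1, Measure.real, ← (emb_scal x₀ hl).map_apply, map_scal x₀ hl, Measure.smul_apply,
    smul_eq_mul, ENNReal.toReal_mul, ENNReal.toReal_ofReal (by positivity), div_eq_inv_mul,
    Measure.real]

theorem memLp_scale {G : E m → E m} {x₀ : E m} {l r : ℝ} (hl : 0 < l)
    (h : MemLp G 2 (volume.restrict (ball x₀ (l * r)))) :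
    MemLp (fun y => G (x₀ + l • y)) 2 (volume.restrict (ball 0 r)) := by
  have h1 := h.smul_measure (c := ENNReal.ofReal (l ^ m)⁻¹) ENNReal.ofReal_ne_top
  rw [← map_restrict_scal x₀ hl] at h1
  exact (emb_scal x₀ hl).memLp_map_measure_iff.1 h1

theorem DivFree.scale {Ξ : E m → E m} {x₀ : E m} {l r : ℝ} (hl : 0 < l)
    (h : DivFree Ξ (ball x₀ (l * r))) : DivFree (fun y => Ξ (x₀ + l • y)) (ball 0 r) := by
  intro ζ hζ hc hs
  have h1 : LocallyLipschitz fun x : E m => l⁻¹ • (x - x₀) :=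
    ((contDiff_id.sub contDiff_const).const_smul l⁻¹ : ContDiff ℝ 1 _).locallyLipschitz
  have h2 : HasCompactSupport fun x => ζ (l⁻¹ • (x - x₀)) := by
    have := hc.comp_homeomorph (affScal x₀ hl).symm
    rwa [aff_symm_scal] at this
  have h3 : tsupport (fun x => ζ (l⁻¹ • (x - x₀))) ⊆ ball x₀ (l * r) := by
    intro x hx
    have h4 : l⁻¹ • (x - x₀) ∈ tsupport ζ :=
      tsupport_comp_subset_preimage ζ h1.continuous hx
    have h5 := hs h4
    rw [← pre_scal x₀ hl r, mem_preimage] at h5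
    simpa [smul_smul, mul_inv_cancel₀ hl.ne'] using h5
  have h4 := h _ (hζ.comp h1) h2 h3
  have h5 := int_scale (fun x => ⟪Ξ x, gradient (ζ ∘ fun x => l⁻¹ • (x - x₀)) x⟫) x₀ hl
  rw [h4, smul_zero] at h5
  have h6 : ∀ y : E m, gradient (ζ ∘ fun x => l⁻¹ • (x - x₀)) (x₀ + l • y) =
      l⁻¹ • gradient ζ y := fun y => by
    have := grad_unscale ζ x₀ hl (x₀ + l • y)
    rw [add_sub_cancel_left, smul_smul, inv_mul_cancel₀ hl.ne', one_smul] at this
    exact this
  simp only [h6, real_inner_smul_right] at h5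
  rw [integral_const_mul] at h5
  exact (mul_eq_zero.1 h5).resolve_left (inv_ne_zero hl.ne')

theorem lip_scale {f : E m → ℝ} {K : ℝ≥0} (hf : LipschitzWith K f) (x₀ : E m) (z₀ : ℝ) {l : ℝ}
    (hl : 0 < l) : LipschitzWith K fun y => (f (x₀ + l • y) - z₀) / l := by
  refine LipschitzWith.of_dist_le_mul fun a b => ?_
  have h1 := hf.dist_le_mul (x₀ + l • a) (x₀ + l • b)
  rw [dist_add_left, dist_smul₀, Real.norm_of_nonneg hl.le, Real.dist_eq] at h1
  rw [Real.dist_eq, ← sub_div, sub_sub_sub_cancel_right, abs_div, abs_of_pos hl, div_le_iff₀ hl]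
  linarith

theorem locLip_scale {f : E m → ℝ} (hf : LocallyLipschitz f) (x₀ : E m) (z₀ l : ℝ) :
    LocallyLipschitz fun y => (f (x₀ + l • y) - z₀) / l := by
  have h1 : LocallyLipschitz fun t : ℝ => (t - z₀) / l :=
    ((contDiff_id.sub contDiff_const).div_const l : ContDiff ℝ 1 _).locallyLipschitz
  exact h1.comp (hf.comp (locLip_aff_scal x₀ l))

theorem En_scale (s : Finset ι) (u : ι → E m → ℝ) (p x₀ : E m) (z₀ : ℝ) {l : ℝ} (hl : 0 < l)
    (r : ℝ) : En s (fun i y => (u i (x₀ + l • y) - z₀) / l) p 0 r = En s u p x₀ (l * r) / l ^ m ∧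
      En3 s (fun i y => (u i (x₀ + l • y) - z₀) / l) p 0 r = En3 s u p x₀ (l * r) / l ^ m := by
  unfold En En3
  simp only [grad_scale _ x₀ z₀ hl]
  exact ⟨setInt_scale (fun x => ∑ i ∈ s, ‖gradient (u i) x - p‖ ^ 2) x₀ hl r,
    setInt_scale (fun x => ∑ i ∈ s, ‖gradient (u i) x - p‖ ^ 3) x₀ hl r⟩

theorem DD_scale [Fintype ι] (u : ι → E m → ℝ) {l : ℝ} (hl : 0 < l) (r : ℝ) :
    DD (fun i y => (u i ((0 : E m) + l • y) - 0) / l) r = DD u (l * r) / l ^ m := by
  have h1 : vv (fun i y => (u i ((0 : E m) + l • y) - 0) / l) =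
      fun i y => (vv u i ((0 : E m) + l • y) - 0) / l := by
    funext i y
    simp only [vv, wav, sub_zero, ← Finset.sum_div]
    ring
  unfold DD Sep
  rw [h1]
  exact (En_scale Finset.univ (vv u) 0 0 0 hl r).1

end Pool.Agent.Lib.MP_8daebb_an.LG
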