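import Pool.Agent.Lib.MP_8daebb_an.LG.Alg
import Pool.Agent.Lib.MP_8daebb_an.LG.Cut
import Pool.Agent.Lib.MP_8daebb_an.LG.Scal

open MeasureTheory Metric Set Filter Topology
open scoped RealInnerProductSpace NNReal

namespace Pool.Agent.Lib.MP_8daebb_an.LG

variable {m : ℕ} {ι : Type}

/-! STAT. Basic properties of stationary families. -/

variable {s : Finset ι} {u : ι → E m → ℝ} {Ω : Set (E m)} {L : ℝ≥0}

theorem Stat.mono (h : Stat s u Ω) {Ω' : Set (E m)} (h' : Ω' ⊆ Ω) : Stat s u Ω' :=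
  fun ψ hψ K hK hKΩ h0 => h ψ hψ K hK (hKΩ.trans h') h0

theorem locLip_prod_statb {α : Type} [PseudoMetricSpace α] {f : ι → α → ℝ} (t : Finset ι)
    (hf : ∀ i ∈ t, LocallyLipschitz (f i)) : LocallyLipschitz fun x => ∏ i ∈ t, f i x := by
  classical
  induction t using Finset.induction_on with
  | empty => simpa using (LipschitzWith.const (1 : ℝ)).locallyLipschitz
  | insert a t ha ih =>
    simp only [Finset.prod_insert ha]
    exact locLip_mul (hf a (by simp)) (ih fun i hi => hf i (by simp [hi]))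

theorem locLip_fst_statb {F : Type} [PseudoMetricSpace F] {f : E m → F} (hf : LocallyLipschitz f) :
    LocallyLipschitz fun q : E m × ℝ => f q.1 :=
  hf.comp LipschitzWith.prod_fst.locallyLipschitz

theorem locLip_sub_statb {f : E m → ℝ} (hf : LocallyLipschitz f) :
    LocallyLipschitz fun q : E m × ℝ => q.2 - f q.1 := by
  have h1 : LocallyLipschitz fun q : E m × ℝ => q.2 := LipschitzWith.prod_snd.locallyLipschitz
  have h2 := (locLip_fst_statb hf).neg
  simpa [sub_eq_add_neg] using h1.add h2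

theorem locLip_cmul_statb {α : Type} [PseudoMetricSpace α] {f : α → ℝ} (hf : LocallyLipschitz f)
    (c : ℝ) : LocallyLipschitz fun x => f x / c := by
  simpa [div_eq_mul_inv] using
    locLip_mul hf (LipschitzWith.const (α := α) (c⁻¹ : ℝ)).locallyLipschitz

/-- Sheets that do not meet the other sheets form a stationary family. -/
theorem Stat.split [DecidableEq ι] (h : Stat s u Ω) (hL : ∀ i, LipschitzWith L (u i))
    {J : Finset ι} (hJ : J ⊆ s) (hsep : ∀ i ∈ J, ∀ j ∈ s \ J, ∀ x ∈ Ω, u i x ≠ u j x) :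
    Stat J u Ω := by
  intro ψ hψ K hK hKΩ h0
  have hev : ∀ᶠ δ in 𝓝[>] (0 : ℝ), ∀ i ∈ J, ∀ j ∈ s \ J, ∀ x ∈ K, δ ≤ |u i x - u j x| := by
    rw [Finset.eventually_all]
    intro i hi
    rw [Finset.eventually_all]
    intro j hj
    obtain ⟨a, ha, hle⟩ := hK.exists_forall_le' (f := fun x => |u i x - u j x|) (a := 0)
      (((hL i).continuous.sub (hL j).continuous).abs.continuousOn)
      (fun x hx => abs_pos.2 (sub_ne_zero.2 (hsep i hi j hj x (hKΩ hx))))
    filter_upwards [Ioo_mem_nhdsGT ha] with δ hδ x hx using hδ.2.le.trans (hle x hx)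
  obtain ⟨δ, hδ, hδ0⟩ := (hev.and self_mem_nhdsWithin).exists
  have hδ0 : 0 < δ := hδ0
  let φ : E m × ℝ → ℝ := fun q => ∏ j ∈ s \ J, min 1 (|q.2 - u j q.1| / δ)
  have hφ : LocallyLipschitz φ := by
    refine locLip_prod_statb _ fun j _ => ?_
    have h1 : LocallyLipschitz fun q : E m × ℝ => |q.2 - u j q.1| :=
      lipschitzWith_one_norm.locallyLipschitz.comp (locLip_sub_statb (hL j).locallyLipschitz)
    exact (locLip_cmul_statb h1 δ).const_min 1
  have e1 : ∀ i ∈ J, (fun y => ψ (y, u i y) * φ (y, u i y)) = fun y => ψ (y, u i y) := by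
    intro i hi
    funext y
    by_cases hy : y ∈ K
    · have : φ (y, u i y) = 1 :=
        Finset.prod_eq_one fun j hj => min_eq_left ((one_le_div hδ0).2 (hδ i hi j hj y hy))
      rw [this, mul_one]
    · rw [h0 i hi y hy, zero_mul]
  have e2 : ∀ j ∈ s \ J, (fun y => ψ (y, u j y) * φ (y, u j y)) = fun _ => (0 : ℝ) := by
    intro j hj
    funext y
    have : φ (y, u j y) = 0 := Finset.prod_eq_zero hj (by simp)
    rw [this, mul_zero]
  have key := h (fun q => ψ q * φ q) (locLip_mul hψ hφ) K hK hKΩ (fun i hi x hx => by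
    by_cases hiJ : i ∈ J
    · rw [h0 i hiJ x hx, zero_mul]
    · exact congrFun (e2 i (Finset.mem_sdiff.2 ⟨hi, hiJ⟩)) x)
  have red : ∀ T : E m → E m, ∑ i ∈ s, ∫ x, ⟪T (gradient (u i) x),
      gradient (fun y => ψ (y, u i y) * φ (y, u i y)) x⟫ =
      ∑ i ∈ J, ∫ x, ⟪T (gradient (u i) x), gradient (fun y => ψ (y, u i y)) x⟫ := by
    intro T
    rw [← Finset.sum_sdiff hJ, Finset.sum_eq_zero, zero_add]
    · exact Finset.sum_congr rfl fun i hi => by rw [e1 i hi]
    · intro j hj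
      rw [e2 j hj]
      simp
  exact ⟨(red aa).symm.trans key.1, fun e => (red fun p => MM p e).symm.trans (key.2 e)⟩

/-- Invariance under translations and dilations. -/
theorem Stat.scale {x₀ : E m} {R : ℝ} (h : Stat s u (ball x₀ R))
    (hL : ∀ i, LipschitzWith L (u i)) (z₀ : ℝ) {l : ℝ} (hl : 0 < l) :
    Stat s (fun i x => (u i (x₀ + l • x) - z₀) / l) (ball 0 (R / l)) := by
  have _ := hL
  intro ψ hψ K hK hKΩ h0
  have c1 : ∀ y : E m, x₀ + l • l⁻¹ • (y - x₀) = y := fun y => by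
    rw [smul_inv_smul₀ hl.ne']; abel
  have c2 : ∀ x : E m, l⁻¹ • (x₀ + l • x - x₀) = x := fun x => by
    rw [add_sub_cancel_left, inv_smul_smul₀ hl.ne']
  have hA : LocallyLipschitz fun q : E m × ℝ => (l⁻¹ • (q.1 - x₀), (q.2 - z₀) / l) := by
    have : ContDiff ℝ 1 fun q : E m × ℝ => (l⁻¹ • (q.1 - x₀), (q.2 - z₀) / l) := by fun_prop
    exact this.locallyLipschitz
  have key := h (fun q => ψ (l⁻¹ • (q.1 - x₀), (q.2 - z₀) / l)) (hψ.comp hA)
    ((fun x => x₀ + l • x) '' K) (hK.image (by fun_prop)) ?_ ?_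
  · have red : ∀ T : E m → E m, ∑ i ∈ s, ∫ x,
        ⟪T (gradient (fun x => (u i (x₀ + l • x) - z₀) / l) x),
          gradient (fun y => ψ (y, (u i (x₀ + l • y) - z₀) / l)) x⟫ =
        (l ^ m)⁻¹ * l * ∑ i ∈ s, ∫ x, ⟪T (gradient (u i) x),
          gradient (fun y => ψ (l⁻¹ • (y - x₀), (u i y - z₀) / l)) x⟫ := by
      intro T
      rw [Finset.mul_sum]
      refine Finset.sum_congr rfl fun i _ => ?_
      have e : (fun y => ψ (l⁻¹ • (y - x₀), (u i y - z₀) / l)) = fun y =>
          (fun x => ψ (x, (u i (x₀ + l • x) - z₀) / l)) (l⁻¹ • (y - x₀)) := by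
        funext y; simp only [c1]
      rw [e, mul_assoc, ← integral_const_mul, ← smul_eq_mul, ← int_scale _ x₀ hl]
      congr 1
      funext x
      rw [grad_scale _ _ _ hl,
        grad_unscale (fun x => ψ (x, (u i (x₀ + l • x) - z₀) / l)) x₀ hl, c2, inner_smul_right,
        ← mul_assoc, mul_inv_cancel₀ hl.ne', one_mul]
    exact ⟨(red aa).trans (by rw [key.1, mul_zero]),
      fun e => (red fun p => MM p e).trans (by rw [key.2 e, mul_zero])⟩
  · rintro _ ⟨x, hx, rfl⟩
    have := hKΩ hx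
    rw [mem_ball_zero_iff, lt_div_iff₀ hl] at this
    rw [mem_ball_iff_norm, add_sub_cancel_left, norm_smul, Real.norm_of_nonneg hl.le]
    linarith
  · intro i hi y hy
    have := h0 i hi (l⁻¹ • (y - x₀)) fun hk => hy ⟨_, hk, c1 y⟩
    simpa only [c1] using this

theorem int_inner_statb {T : E m → E m} (hT : Measurable T) {C : ℝ} (hC : ∀ x, ‖T x‖ ≤ C)
    {f : E m → ℝ} (hf : LocallyLipschitz f) (hc : HasCompactSupport f) :
    Integrable fun x => ⟪T x, gradient f x⟫ := by
  obtain ⟨K, hK⟩ := locLip_compact hf hc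
  refine int_of_compact (hT.inner (meas_grad f)).aestronglyMeasurable hc (C := C * K)
    (ae_of_all _ fun x _ => ?_) (ae_of_all _ fun x hx => ?_)
  · exact (norm_inner_le_norm _ _).trans
      (mul_le_mul (hC x) (norm_grad_le hK x) (norm_nonneg _) ((norm_nonneg _).trans (hC x)))
  · rw [grad_eq_zero_of_notMem hx, inner_zero_right]

/-- The horizontal equations tested with a vector field. -/
theorem Stat.inner (h : Stat s u Ω) (hL : ∀ i, LipschitzWith L (u i)) {Y : E m → E m}
    (hY : LocallyLipschitz Y) (hc : HasCompactSupport Y) (hs : tsupport Y ⊆ Ω) :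
    ∑ i ∈ s, ∫ x, (W (gradient (u i) x) * dv Y x -
      ⟪fderiv ℝ Y x (aa (gradient (u i) x)), gradient (u i) x⟫) = 0 := by
  have hb : ∀ b, LocallyLipschitz fun x => ⟪Y x, eb b⟫ := fun b =>
    locLip_inner hY (LipschitzWith.const (eb b)).locallyLipschitz
  have hcb : ∀ b, HasCompactSupport fun x => ⟪Y x, eb b⟫ := fun b =>
    hc.comp_left (g := fun v : E m => ⟪v, eb b⟫) (inner_zero_left _)
  have key : ∀ b, ∑ i ∈ s, ∫ x, ⟪MM (gradient (u i) x) (eb b),
      gradient (fun y => ⟪Y y, eb b⟫) x⟫ = 0 := fun b =>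
    (h (fun q => ⟪Y q.1, eb b⟫) (locLip_fst_statb (hb b)) _ hc hs (fun i _ x hx => by
      rw [image_eq_zero_of_notMem_tsupport hx, inner_zero_left])).2 (eb b)
  have e : ∀ i, ∫ x, (W (gradient (u i) x) * dv Y x -
      ⟪fderiv ℝ Y x (aa (gradient (u i) x)), gradient (u i) x⟫) =
      ∑ b, ∫ x, ⟪MM (gradient (u i) x) (eb b), gradient (fun y => ⟪Y y, eb b⟫) x⟫ := by
    intro i
    rw [← integral_finsetSum]
    · refine integral_congr_ae ?_
      filter_upwards [locLip_ae_diff hY] with x hx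
      have e1 : ∀ b v, ⟪v, gradient (fun y => ⟪Y y, eb b⟫) x⟫ = ⟪fderiv ℝ Y x v, eb b⟫ := by
        intro b v
        rw [real_inner_comm, inner_grad, fderiv_inner_apply ℝ hx (differentiableAt_const _)]
        simp
      simp only [e1, MM, map_sub, map_smul, inner_sub_left, real_inner_smul_left,
        Finset.sum_sub_distrib, aa, dv, trS, Finset.mul_sum]
      congr 1
      rw [← sum_inner_eb, Finset.mul_sum]
      exact Finset.sum_congr rfl fun b _ => by ring
    · intro b _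
      refine int_inner_statb (T := fun x => MM (gradient (u i) x) (eb b))
        (C := WL L * ‖eb (m := m) b‖) ?_ (fun x => ?_) (hb b) (hcb b)
      · have h1 : Continuous fun p : E m => MM p (eb b) := by
          have := (continuous_MM (m := m)).comp
            (continuous_id.prodMk (continuous_const (y := eb b)))
          exact this
        exact h1.measurable.comp (meas_grad (u i))
      · exact (norm_MM_le _ _).trans
          (mul_le_mul_of_nonneg_right (W_le_WL (norm_grad_le (hL i) x)) (norm_nonneg _))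
  simp only [e]
  rw [Finset.sum_comm]
  exact Finset.sum_eq_zero fun b _ => key b

/-- The vertical equation tested with `χ(x) θ(z - f(x))`. -/
theorem Stat.outer (h : Stat s u Ω) {χ f : E m → ℝ} {θ : ℝ → ℝ} (hχ : LocallyLipschitz χ)
    (hc : HasCompactSupport χ) (hs : tsupport χ ⊆ Ω) (hf : LocallyLipschitz f)
    (hθ : LocallyLipschitz θ) :
    ∑ i ∈ s, ∫ x, ⟪aa (gradient (u i) x), gradient (fun y => χ y * θ (u i y - f y)) x⟫ = 0 :=
  (h (fun q => χ q.1 * θ (q.2 - f q.1))
    (locLip_mul (locLip_fst_statb hχ) (hθ.comp (locLip_sub_statb hf))) _ hc hs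
    (fun i _ x hx => by rw [image_eq_zero_of_notMem_tsupport hx, zero_mul])).1

theorem meas_aa_statb (f : E m → ℝ) : Measurable fun x => aa (gradient f x) :=
  contDiff_aa.continuous.measurable.comp (meas_grad f)

theorem Stat.divFree_Xi [Fintype ι] (h : Stat Finset.univ u Ω) : DivFree (Xi u) Ω := by
  intro ζ hζ hc hs
  have key := (h (fun q => ζ q.1) (locLip_fst_statb hζ) _ hc hs
    (fun i _ x hx => image_eq_zero_of_notMem_tsupport hx)).1
  simp only [Xi, real_inner_smul_left, sum_inner]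
  rw [integral_const_mul, integral_finsetSum _ fun i _ =>
    int_inner_statb (meas_aa_statb (u i)) (fun x => norm_aa_le_one _) hζ hc]
  exact mul_eq_zero_of_right _ key

theorem meas_Xi [Fintype ι] (u : ι → E m → ℝ) : Measurable (Xi u) :=
  (Finset.measurable_sum _ fun i _ => meas_aa_statb (u i)).const_smul (Fintype.card ι : ℝ)⁻¹

theorem norm_Xi_le [Fintype ι] (u : ι → E m → ℝ) (x : E m) : ‖Xi u x‖ ≤ 1 := by
  rw [Xi, norm_smul, norm_inv, Real.norm_natCast]
  have h1 : ‖∑ i, aa (gradient (u i) x)‖ ≤ Fintype.card ι := by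
    refine (norm_sum_le _ _).trans ?_
    simpa using Finset.sum_le_card_nsmul Finset.univ _ 1 fun i _ => norm_aa_le_one (gradient (u i) x)
  exact (mul_le_mul_of_nonneg_left h1 (by positivity)).trans inv_mul_le_one

theorem avg_sq_statb [Fintype ι] [Nonempty ι] (a : ι → E m) :
    ‖(Fintype.card ι : ℝ)⁻¹ • ∑ i, a i‖ ^ 2 ≤ ∑ i, ‖a i‖ ^ 2 := by
  have hn : (1 : ℝ) ≤ Fintype.card ι := by exact_mod_cast Fintype.card_pos
  have h1 : ‖∑ i, a i‖ ^ 2 ≤ Fintype.card ι * ∑ i, ‖a i‖ ^ 2 :=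
    (pow_le_pow_left₀ (norm_nonneg _) (norm_sum_le _ _) 2).trans
      (by simpa using sq_sum_le_card_mul_sum_sq (s := Finset.univ) (f := fun i => ‖a i‖))
  have h2 : 0 ≤ ∑ i, ‖a i‖ ^ 2 := by positivity
  rw [norm_smul, norm_inv, Real.norm_natCast, mul_pow, inv_pow, inv_mul_le_iff₀ (by positivity)]
  nlinarith [mul_nonneg h2 (sub_nonneg.2 hn), mul_nonneg (mul_nonneg h2 (sub_nonneg.2 hn))
    (zero_le_one.trans hn)]

theorem AA_sum_statb (p : E m) (t : Finset ι) (q : ι → E m) :
    ∑ i ∈ t, AA p (q i) = AA p (∑ i ∈ t, q i) := by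
  simp only [AA, Finset.sum_sub_distrib, inner_sum, Finset.smul_sum, Finset.sum_div,
    Finset.sum_smul]

/-- The average flux is close to the flux of the average: linear and quadratic bound. -/
theorem ae_Xi_sub [Fintype ι] [Nonempty ι] (hL : ∀ i, LipschitzWith L (u i)) : ∀ᵐ x,
    ‖Xi u x - ta (L + 1) (gradient (wav u) x)‖ ^ 2 ≤ ∑ i, ‖gradient (vv u i) x - 0‖ ^ 2 ∧
    ‖Xi u x - ta (L + 1) (gradient (wav u) x)‖ ^ 2 ≤
      72 * L * ∑ i, ‖gradient (vv u i) x - 0‖ ^ 3 := by
  filter_upwards [ae_grad_vv hL] with x ⟨_, _, _, _, hu, hv⟩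
  have hn : (Fintype.card ι : ℝ) ≠ 0 := by exact_mod_cast Fintype.card_ne_zero
  have hp : ‖gradient (wav u) x‖ ≤ (L : ℝ) + 1 := (norm_grad_le (lip_wav hL) x).trans (by linarith)
  have hq : ∀ i, ‖gradient (vv u i) x‖ ≤ 2 * L := fun i => by
    simpa using norm_grad_le (lip_vv hL i) x
  rw [ta_eq hp]
  simp only [sub_zero]
  set p := gradient (wav u) x
  have e1 : Xi u x - aa p = (Fintype.card ι : ℝ)⁻¹ • ∑ i, (aa (p + gradient (vv u i) x) - aa p) := by
    rw [Xi, Finset.sum_sub_distrib, smul_sub, Finset.sum_const, Finset.card_univ,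
      ← Nat.cast_smul_eq_nsmul ℝ, inv_smul_smul₀ hn]
    simp only [hu]
  have e2 : Xi u x - aa p = (Fintype.card ι : ℝ)⁻¹ •
      ∑ i, (aa (p + gradient (vv u i) x) - aa p - AA p (gradient (vv u i) x)) := by
    rw [e1, Finset.sum_sub_distrib (g := fun i => AA p (gradient (vv u i) x)), AA_sum_statb, hv]
    simp [AA]
  constructor
  · rw [e1]
    refine (avg_sq_statb _).trans (Finset.sum_le_sum fun i _ => ?_)
    refine pow_le_pow_left₀ (norm_nonneg _) ((aa_lip _ _).trans (le_of_eq ?_)) 2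
    rw [add_sub_cancel_left]
  · rw [e2, Finset.mul_sum]
    refine (avg_sq_statb _).trans (Finset.sum_le_sum fun i _ => ?_)
    refine (pow_le_pow_left₀ (norm_nonneg _) (aa_taylor _ _) 2).trans ?_
    have h3 : 0 ≤ ‖gradient (vv u i) x‖ ^ 3 := by positivity
    nlinarith [mul_le_mul_of_nonneg_right (hq i) h3]

end Pool.Agent.Lib.MP_8daebb_an.LG
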