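import Pool.Agent.Lib.MP_8daebb_an.LG.Iter
import Pool.Agent.Lib.MP_8daebb_an.LG.StatB
import Pool.Agent.Lib.MP_8daebb_an.LG.Vit

open MeasureTheory Metric Set Filter Topology
open scoped RealInnerProductSpace NNReal

namespace Pool.Agent.Lib.MP_8daebb_an.LG

variable {m : ℕ} {ι : Type}

/-! FLATR. Quadratic decay of the average at the origin. -/

theorem intOn_flatr {f : E m → ℝ} {L : ℝ≥0} (hf : LipschitzWith L f) (p c : E m) (r : ℝ) :
    IntegrableOn (fun x => ‖gradient f x - p‖ ^ 2) (ball c r) := by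
  have := intOn_En (s := ({()} : Finset Unit)) (u := fun _ => f) (fun _ => hf) p c r 2
  simpa only [Finset.sum_singleton] using this

theorem memLp_flatr {G : E m → E m} (hG : Measurable G) {K : ℝ} (hK : ∀ x, ‖G x‖ ≤ K) (c : E m)
    (r : ℝ) : MemLp G 2 (volume.restrict (ball c r)) := by
  have : IsFiniteMeasure (volume.restrict (ball c r)) :=
    isFiniteMeasure_restrict.mpr measure_ball_lt_top.ne
  exact MemLp.of_bound hG.aestronglyMeasurable K (Eventually.of_forall hK)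

theorem mono_flatr {f : E m → ℝ} {L : ℝ≥0} (hf : LipschitzWith L f) (p c : E m) {r r' : ℝ}
    (h : r ≤ r') :
    ∫ x in ball c r, ‖gradient f x - p‖ ^ 2 ≤ ∫ x in ball c r', ‖gradient f x - p‖ ^ 2 :=
  setIntegral_mono_set (intOn_flatr hf p c r') (Eventually.of_forall fun _ => by positivity)
    (ball_subset_ball h).eventuallyLE

theorem split_flatr {f : E m → ℝ} {L : ℝ≥0} (hf : LipschitzWith L f) (p c : E m) {r : ℝ}
    (hr : 0 < r) : ∫ x in ball c r, ‖gradient f x - 0‖ ^ 2 ≤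
      2 * (∫ x in ball c r, ‖gradient f x - p‖ ^ 2) + 2 * ‖p‖ ^ 2 * (vb m * r ^ m) := by
  have h1 : IntegrableOn (fun x => 2 * ‖gradient f x - p‖ ^ 2) (ball c r) :=
    (intOn_flatr hf p c r).const_mul 2
  have h2 : IntegrableOn (fun _ : E m => 2 * ‖p‖ ^ 2) (ball c r) :=
    integrableOn_const measure_ball_lt_top.ne
  calc _ ≤ ∫ x in ball c r, (2 * ‖gradient f x - p‖ ^ 2 + 2 * ‖p‖ ^ 2) := by
        refine integral_mono (intOn_flatr hf 0 c r) (h1.add h2) fun x => ?_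
        have h3 := norm_add_le (gradient f x - p) p
        rw [sub_add_cancel] at h3
        have h4 := pow_le_pow_left₀ (norm_nonneg _) h3 2
        have h5 := sq_nonneg (‖gradient f x - p‖ - ‖p‖)
        simp only [sub_zero]
        linarith
    _ = _ := by
        rw [integral_add h1 h2, integral_const_mul, setIntegral_const, vol_ball c hr, smul_eq_mul]
        ring

/-- Quadratic decay about moving slopes and vanishing density give decay about the slope zero. -/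
theorem decay_flatr (m : ℕ) {θ C : ℝ} (hθ : 0 < θ) (hθ1 : θ ≤ 1 / 8) (hC : 0 < C) :
    ∃ C' > 0, ∀ (f : E m → ℝ) (L : ℝ≥0) (ε : ℝ), LipschitzWith L f → 0 < ε →
      (∀ j : ℕ, ∃ p : E m, ∫ y in ball 0 (θ ^ j / 3), ‖gradient f y - p‖ ^ 2 ≤
        C * ε ^ 2 * (θ ^ j / 3) ^ (m + 2)) →
      Tendsto (fun j : ℕ => (∫ y in ball 0 (θ ^ j / 3), ‖gradient f y - 0‖ ^ 2) /
        (θ ^ j / 3) ^ m) atTop (𝓝 0) →
      ∀ r : ℝ, 0 < r → r ≤ 1 / 3 →
        ∫ x in ball 0 r, ‖gradient f x - 0‖ ^ 2 ≤ C' * ε ^ 2 * r ^ (m + 2) := by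
  have hvb := vb_pos m
  obtain ⟨A, hA0, hA⟩ : ∃ A : ℝ, 0 < A ∧ A ^ 2 * (vb m * θ ^ m) = 4 * C :=
    ⟨√(4 * C / (vb m * θ ^ m)), Real.sqrt_pos.mpr (by positivity), by
      rw [Real.sq_sqrt (by positivity), div_mul_cancel₀ _ (by positivity)]⟩
  refine ⟨(2 * C + 8 * A ^ 2 * vb m) / θ ^ (m + 2), by positivity,
    fun f L ε hf hε hp hlim r hr hr3 => ?_⟩
  choose p hp using hp
  have hθ' : θ < 1 := by linarith
  have hs : ∀ j : ℕ, 0 < θ ^ j / 3 := fun j => by positivity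
  have hsucc : ∀ j : ℕ, θ ^ (j + 1) / 3 = θ * (θ ^ j / 3) := fun j => by ring
  have hle : ∀ j : ℕ, θ ^ (j + 1) / 3 ≤ θ ^ j / 3 := fun j => by
    rw [hsucc]
    exact mul_le_of_le_one_left (hs j).le hθ'.le
  have hmem := memLp_flatr (meas_grad f) (norm_grad_le hf) (0 : E m)
  have hstep : ∀ j : ℕ, dist (p j) (p (j + 1)) ≤ A * ε / 3 * θ ^ j := fun j => by
    have h1 := close_of_int (hs (j + 1)) (hmem _) (p j) (p (j + 1))
    have h2 := (mono_flatr hf (p j) 0 (hle j)).trans (hp j)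
    have h3 := (hp (j + 1)).trans (mul_le_mul_of_nonneg_left
      (pow_le_pow_left₀ (hs _).le (hle j) (m + 2)) (by positivity))
    have h4 : ‖p j - p (j + 1)‖ ^ 2 * (vb m * (θ ^ (j + 1) / 3) ^ m) ≤
        (A * ε / 3 * θ ^ j) ^ 2 * (vb m * (θ ^ (j + 1) / 3) ^ m) := by
      have e : (A * ε / 3 * θ ^ j) ^ 2 * (vb m * (θ ^ (j + 1) / 3) ^ m) =
          A ^ 2 * (vb m * θ ^ m) * (ε ^ 2 * (θ ^ j / 3) ^ (m + 2)) := by
        rw [hsucc, mul_pow θ, pow_add (θ ^ j / 3)]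
        ring
      rw [e, hA]
      linarith
    rw [dist_eq_norm]
    exact le_of_sq_le_sq (le_of_mul_le_mul_right h4 (mul_pos hvb (pow_pos (hs _) m)))
      (by positivity)
  have hθlim : Tendsto (fun j : ℕ => θ ^ j / 3) atTop (𝓝 0) := by
    simpa using (tendsto_pow_atTop_nhds_zero_of_lt_one hθ.le hθ').div_const 3
  have hp0 : Tendsto p atTop (𝓝 0) := by
    have h1 := (((hθlim.pow 2).const_mul (2 * C * ε ^ 2)).add (hlim.const_mul 2)).div_const (vb m)
    rw [zero_pow two_ne_zero, mul_zero, mul_zero, add_zero, zero_div] at h1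
    have h2 : Tendsto (fun j => ‖p j‖ ^ 2) atTop (𝓝 0) := by
      refine squeeze_zero (fun j => by positivity) (fun j => ?_) h1
      have h3 := close_of_int (hs j) (hmem _) (p j) 0
      have h4 := hp j
      have h5 := pow_pos (hs j) m
      rw [sub_zero] at h3
      rw [pow_add] at h4
      generalize (θ ^ j / 3) ^ m = b at h3 h4 h5
      rw [le_div_iff₀ hvb]
      refine le_of_mul_le_mul_right ?_ h5
      rw [add_mul, mul_assoc 2 (_ / b), div_mul_cancel₀ _ h5.ne']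
      linarith
    have h3 := h2.sqrt
    simp only [Real.sqrt_sq (norm_nonneg _), Real.sqrt_zero] at h3
    exact tendsto_zero_iff_norm_tendsto_zero.mpr h3
  obtain ⟨j, hj1, hj2⟩ := exists_nat_pow_near_of_lt_one (x := 3 * r) (by linarith) (by linarith)
    hθ hθ'
  have hpj : ‖p j‖ ≤ 2 * A * ε * (θ ^ j / 3) := by
    have h1 := dist_le_of_le_geometric_of_tendsto θ (A * ε / 3) hθ' hstep hp0 j
    rw [dist_zero_right, le_div_iff₀ (by linarith)] at h1
    have h2 := mul_le_mul_of_nonneg_left hθ1 (norm_nonneg (p j))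
    have h3 := norm_nonneg (p j)
    linarith
  have h1 := mono_flatr hf 0 0 (show r ≤ θ ^ j / 3 by linarith)
  have h2 := split_flatr hf (p j) 0 (hs j)
  have h3 := hp j
  have h4 := mul_le_mul_of_nonneg_right (pow_le_pow_left₀ (norm_nonneg _) hpj 2)
    (mul_pos hvb (pow_pos (hs j) m)).le
  have h5 : (θ * (θ ^ j / 3)) ^ (m + 2) ≤ r ^ (m + 2) :=
    pow_le_pow_left₀ (by positivity) (by rw [← hsucc]; linarith) _
  have h6 : (θ ^ j / 3) ^ (m + 2) ≤ r ^ (m + 2) / θ ^ (m + 2) := by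
    rw [le_div_iff₀ (by positivity), mul_comm, ← mul_pow]
    exact h5
  have h7 : (2 * A * ε * (θ ^ j / 3)) ^ 2 * (vb m * (θ ^ j / 3) ^ m) =
      4 * A ^ 2 * vb m * ε ^ 2 * (θ ^ j / 3) ^ (m + 2) := by
    rw [pow_add (θ ^ j / 3)]
    ring
  have h8 := mul_le_mul_of_nonneg_left h6
    (show 0 ≤ (2 * C + 8 * A ^ 2 * vb m) * ε ^ 2 by positivity)
  calc _ ≤ (2 * C + 8 * A ^ 2 * vb m) * ε ^ 2 * (θ ^ j / 3) ^ (m + 2) := by linarith
    _ ≤ _ := h8
    _ = _ := by ring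

theorem flat_rate [Fintype ι] [Nonempty ι] (m : ℕ) (L : ℝ≥0) :
    ∃ ε₀ > 0, ∃ C > 0, ∀ (u : ι → E m → ℝ) (ε : ℝ), 0 < ε → ε ≤ ε₀ → Setting L ε u →
      ∀ r : ℝ, 0 < r → r ≤ 1 / 3 →
        ∫ x in ball 0 r, ‖gradient (wav u) x‖ ^ 2 ≤ C * ε ^ 2 * r ^ (m + 2) := by
  obtain ⟨θ, hθ, hθ1, h⟩ := iter m (L₁ := L + 1) (le_add_of_nonneg_left L.coe_nonneg)
  have hθ' : θ < 1 := by linarith
  obtain ⟨ε₁, hε₁, C, hC, h⟩ := h θ le_rfl hθ'
  obtain ⟨C', hC', hdec⟩ := decay_flatr m hθ hθ1 hC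
  refine ⟨ε₁, hε₁, C', hC', fun u ε hε hεε hS r hr hr3 => ?_⟩
  have hw := lip_wav hS.lip
  have hs : ∀ j : ℕ, 0 < θ ^ j / 3 := fun j => by positivity
  have hs1 : ∀ j : ℕ, θ ^ j / 3 ≤ 2 := fun j => by
    have := pow_le_one₀ (n := j) hθ.le hθ'.le
    linarith
  have key := hdec (wav u) L ε hw hε (fun j => ?_) ?_ r hr hr3
  · simpa only [sub_zero] using key
  · obtain ⟨p, -, hp⟩ := h (wav u) hw.locallyLipschitz 0 ε j hε.le hεε
      ((wav_le_En hS.lip 0 _).trans
        ((En_mono hS.lip 0 (ball_subset_ball (by norm_num))).trans hS.en))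
      fun i _ => ⟨Xi u, memLp_flatr (meas_Xi u) (norm_Xi_le u) 0 _,
        (hS.stat.mono (ball_subset_ball (hs1 i))).divFree_Xi, by
          have h1 : ∫ y in ball (0 : E m) (θ ^ i / 3),
              ‖Xi u y - ta (L + 1) (gradient (wav u) y)‖ ^ 2 ≤ DD u (θ ^ i / 3) :=
            integral_mono_of_nonneg (Eventually.of_forall fun _ => by positivity)
              (intOn_En (lip_vv hS.lip) 0 0 _ 2)
              (ae_restrict_of_ae ((ae_Xi_sub hS.lip).mono fun _ hx => hx.1))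
          refine h1.trans ((hS.dec _ ⟨hs i, hs1 i⟩).trans ?_)
          have h2 : θ ^ i / 3 / 5 ≤ θ ^ i / 3 := by have := hs i; linarith
          have h3 : θ ^ i / 3 / 5 ≤ θ ^ i := by have := hs i; linarith
          rw [mul_assoc, pow_succ _ (m + 2)]
          have := hs i
          exact mul_le_mul_of_nonneg_left (mul_le_mul (pow_le_pow_left₀ (by positivity) h2 _) h3
            (by positivity) (by positivity)) (sq_nonneg ε)⟩
    exact ⟨p, hp⟩
  · have hθlim : Tendsto (fun j : ℕ => θ ^ j / 3) atTop (𝓝[>] 0) := by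
      refine tendsto_nhdsWithin_iff.mpr ⟨?_, Eventually.of_forall hs⟩
      simpa using (tendsto_pow_atTop_nhds_zero_of_lt_one hθ.le hθ').div_const 3
    refine squeeze_zero (fun j => div_nonneg (integral_nonneg fun _ => by positivity)
      (pow_pos (hs j) m).le) (fun j => ?_) (hS.flat.comp hθlim)
    refine div_le_div_of_nonneg_right ?_ (pow_pos (hs j) m).le
    simpa only [sub_zero] using wav_le_En hS.lip 0 (θ ^ j / 3)

end Pool.Agent.Lib.MP_8daebb_an.LG
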