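import Pool.Agent.Lib.MP_8daebb_an.LG.Vit

open MeasureTheory Metric Set Filter Topology
open scoped RealInnerProductSpace NNReal

namespace Pool.Agent.Lib.MP_8daebb_an.LG

variable {m : ℕ} {ι : Type}

/-! LIPREP. The Campanato criterion for Lipschitz continuity. -/

theorem fin_ball_rep (c : E m) (r : ℝ) : IsFiniteMeasure (volume.restrict (ball c r)) :=
  isFiniteMeasure_restrict.mpr measure_ball_lt_top.ne

theorem int_sq_rep {Ψ : E m → E m} {c : E m} {r : ℝ}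
    (hΨ : MemLp Ψ 2 (volume.restrict (ball c r))) (p : E m) :
    IntegrableOn (fun y => ‖Ψ y - p‖ ^ 2) (ball c r) := by
  have := fin_ball_rep c r
  have h : MemLp (fun y => Ψ y - p) 2 (volume.restrict (ball c r)) := hΨ.sub (memLp_const p)
  exact (memLp_two_iff_integrable_sq_norm h.1).mp h

/-- Approximating vectors on nested balls of comparable size are close. -/
theorem close_rep {Ψ : E m → E m} (hΨ : ∀ c r, MemLp Ψ 2 (volume.restrict (ball c r)))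
    {θ A s : ℝ} (hθ : 0 < θ) (hθ1 : θ ≤ 1) (hA : 0 ≤ A) (hs : 0 < s) {x y p q : E m}
    (hsub : ball y (θ * s) ⊆ ball x s) (hp : ∫ z in ball x s, ‖Ψ z - p‖ ^ 2 ≤ A ^ 2 * s ^ (m + 2))
    (hq : ∫ z in ball y (θ * s), ‖Ψ z - q‖ ^ 2 ≤ A ^ 2 * (θ * s) ^ (m + 2)) :
    ‖p - q‖ ≤ 2 / √(vb m * θ ^ m) * A * s := by
  have hvb := vb_pos m
  have hθs : 0 < θ * s := mul_pos hθ hs
  have hk : 0 < vb m * θ ^ m := by positivity
  have h1 := close_of_int hθs (hΨ y (θ * s)) p q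
  have h2 : ∫ z in ball y (θ * s), ‖Ψ z - p‖ ^ 2 ≤ ∫ z in ball x s, ‖Ψ z - p‖ ^ 2 :=
    setIntegral_mono_set (int_sq_rep (hΨ x s) p) (Eventually.of_forall fun z => sq_nonneg _)
      hsub.eventuallyLE
  have h3 : A ^ 2 * (θ * s) ^ (m + 2) ≤ A ^ 2 * s ^ (m + 2) := by
    gcongr
    exact mul_le_of_le_one_left hs.le hθ1
  have h4 : ‖p - q‖ ^ 2 * (vb m * θ ^ m) * s ^ m ≤ 4 * A ^ 2 * s ^ 2 * s ^ m := by
    calc ‖p - q‖ ^ 2 * (vb m * θ ^ m) * s ^ m = ‖p - q‖ ^ 2 * (vb m * (θ * s) ^ m) := by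
          rw [mul_pow]
          ring
      _ ≤ 4 * (A ^ 2 * s ^ (m + 2)) := by linarith
      _ = _ := by ring
  have h5 : ‖p - q‖ ^ 2 * (vb m * θ ^ m) ≤ 4 * A ^ 2 * s ^ 2 :=
    le_of_mul_le_mul_right h4 (pow_pos hs m)
  have hsq : 0 < √(vb m * θ ^ m) := Real.sqrt_pos.mpr hk
  apply le_of_sq_le_sq _ (by positivity)
  rw [mul_pow, mul_pow, div_pow, Real.sq_sqrt hk.le, mul_assoc, div_mul_eq_mul_div,
    le_div_iff₀ hk]
  linarith

/-- At a Lebesgue point the approximating vector is close to the value. -/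
theorem leb_rep {Ψ : E m → E m} (hΨ : ∀ c r, MemLp Ψ 2 (volume.restrict (ball c r)))
    {A s : ℝ} (hs : 0 < s) {x p : E m}
    (hp : ∫ z in ball x s, ‖Ψ z - p‖ ^ 2 ≤ A ^ 2 * s ^ (m + 2)) :
    ‖p - Ψ x‖ ≤
      (vb m)⁻¹ * ((∫ z in ball x s, ‖Ψ z - Ψ x‖) / s ^ m + (vb m + A ^ 2) * s) := by
  have := fin_ball_rep x s
  have hvb := vb_pos m
  have hsm : 0 < s ^ m := pow_pos hs m
  have hI : IntegrableOn Ψ (ball x s) := (hΨ x s).integrable (by norm_num)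
  have i1 : IntegrableOn (fun z => ‖Ψ z - Ψ x‖) (ball x s) := (hI.sub (integrable_const _)).norm
  have i2 := int_sq_rep (hΨ x s) p
  have i3 : IntegrableOn (fun _ : E m => s) (ball x s) := integrable_const _
  have i4 : IntegrableOn (fun z => s + s⁻¹ * ‖Ψ z - p‖ ^ 2) (ball x s) := i3.add (i2.const_mul _)
  have h1 : ∫ _ in ball x s, ‖p - Ψ x‖ ≤
      ∫ z in ball x s, (‖Ψ z - Ψ x‖ + (s + s⁻¹ * ‖Ψ z - p‖ ^ 2)) := by
    refine integral_mono (integrable_const _) (i1.add i4) fun z => ?_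
    have a1 : ‖p - Ψ x‖ ≤ ‖Ψ z - Ψ x‖ + ‖Ψ z - p‖ := by
      calc ‖p - Ψ x‖ = ‖(Ψ z - Ψ x) - (Ψ z - p)‖ := by congr 1; abel
        _ ≤ _ := norm_sub_le _ _
    have a2 : ‖Ψ z - p‖ ≤ s + s⁻¹ * ‖Ψ z - p‖ ^ 2 := by
      rw [← sub_le_iff_le_add', le_inv_mul_iff₀ hs]
      nlinarith [sq_nonneg (‖Ψ z - p‖ - s), sq_nonneg ‖Ψ z - p‖, sq_nonneg s]
    change ‖p - Ψ x‖ ≤ ‖Ψ z - Ψ x‖ + (s + s⁻¹ * ‖Ψ z - p‖ ^ 2)
    linarith
  rw [integral_add i1 i4, integral_add i3 (i2.const_mul _),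
    integral_const_mul, setIntegral_const, setIntegral_const, vol_ball x hs, smul_eq_mul,
    smul_eq_mul] at h1
  have h2 : s⁻¹ * ∫ z in ball x s, ‖Ψ z - p‖ ^ 2 ≤ A ^ 2 * s * s ^ m := by
    rw [inv_mul_le_iff₀ hs]
    calc _ ≤ A ^ 2 * s ^ (m + 2) := hp
      _ = _ := by ring
  rw [le_inv_mul_iff₀ hvb, ← sub_le_iff_le_add, le_div_iff₀ hsm]
  linarith

theorem lip_rep (m : ℕ) {θ : ℝ} (hθ : 0 < θ) (hθ' : θ ≤ 1 / 8) : ∃ C > 0,
    ∀ (Ψ : E m → E m) (ρ A B : ℝ), (∀ c r, MemLp Ψ 2 (volume.restrict (ball c r))) →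
      ρ ≤ 1 / 8 → 0 ≤ A →
      (∀ x ∈ ball (0 : E m) ρ, ∀ j : ℕ, ∃ p : E m, ‖p‖ ≤ B ∧
        ∫ y in ball x (θ ^ j / 3), ‖Ψ y - p‖ ^ 2 ≤ A ^ 2 * (θ ^ j / 3) ^ (m + 2)) →
      ∃ Ψ' : E m → E m, (∀ x y, ‖Ψ' x - Ψ' y‖ ≤ C * A * ‖x - y‖) ∧
        (∀ x ∈ ball (0 : E m) ρ, ‖Ψ' x‖ ≤ B) ∧ ∀ᵐ x, x ∈ ball (0 : E m) ρ → Ψ' x = Ψ x := by
  have hvb := vb_pos m
  have hsq : 0 < √(vb m * θ ^ m) := Real.sqrt_pos.mpr (by positivity)
  set C₀ : ℝ := 2 / √(vb m * θ ^ m) with hC₀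
  have hC₀0 : 0 < C₀ := by positivity
  have hθ1 : θ < 1 := by linarith
  have hκ : (0 : ℝ) < lipschitzExtensionConstant (E m) := lipschitzExtensionConstant_pos (E m)
  refine ⟨lipschitzExtensionConstant (E m) * (8 * C₀ / θ), by positivity, ?_⟩
  intro Ψ ρ A B hΨ hρ hA H
  choose! p hpB hp using H
  have hs : ∀ j : ℕ, 0 < θ ^ j / 3 := fun j => by positivity
  have hs' : ∀ j : ℕ, θ ^ (j + 1) / 3 = θ * (θ ^ j / 3) := fun j => by ring
  have hcl : ∀ x ∈ ball (0 : E m) ρ, ∀ y ∈ ball (0 : E m) ρ, ∀ j : ℕ,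
      dist y x ≤ (1 - θ) * (θ ^ j / 3) → ‖p x j - p y (j + 1)‖ ≤ C₀ * A * (θ ^ j / 3) := by
    intro x hx y hy j hd
    have hq := hp y hy (j + 1)
    rw [hs' j] at hq
    exact close_rep hΨ hθ hθ1.le hA (hs j) (ball_subset_ball' (by linarith)) (hp x hx j) hq
  have hgeo : ∀ x ∈ ball (0 : E m) ρ, ∀ j : ℕ,
      dist (p x j) (p x (j + 1)) ≤ C₀ * A / 3 * θ ^ j := by
    intro x hx j
    rw [dist_eq_norm]
    have := hcl x hx x hx j (by
      rw [dist_self]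
      exact mul_nonneg (by linarith) (hs j).le)
    linarith
  have hlim : ∀ x ∈ ball (0 : E m) ρ, ∃ P : E m, Tendsto (p x) atTop (𝓝 P) := fun x hx =>
    cauchySeq_tendsto_of_complete (cauchySeq_of_le_geometric θ _ hθ1 (hgeo x hx))
  choose! P hP using hlim
  have hPd : ∀ x ∈ ball (0 : E m) ρ, ∀ j : ℕ, ‖p x j - P x‖ ≤ 8 / 7 * (C₀ * A * (θ ^ j / 3)) := by
    intro x hx j
    have h1 := dist_le_of_le_geometric_of_tendsto θ _ hθ1 (hgeo x hx) (hP x hx) j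
    rw [dist_eq_norm] at h1
    refine h1.trans ?_
    rw [div_le_iff₀ (by linarith)]
    have h2 : 0 ≤ C₀ * A * (θ ^ j / 3) := by positivity
    nlinarith
  have hlip : LipschitzOnWith ⟨8 * C₀ / θ * A, by positivity⟩ P (ball (0 : E m) ρ) := by
    refine LipschitzOnWith.of_dist_le_mul fun x hx y hy => ?_
    change dist (P x) (P y) ≤ 8 * C₀ / θ * A * dist x y
    rcases eq_or_ne x y with rfl | hxy
    · simp
    have hd0 : 0 < dist x y := dist_pos.mpr hxy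
    have hd1 : dist x y < 1 / 4 := by
      have := dist_triangle_right x y 0
      have h1 := mem_ball.mp hx
      have h2 := mem_ball.mp hy
      linarith
    have hc : 0 < (1 - θ) / 3 := by linarith
    obtain ⟨j, hj1, hj2⟩ := exists_nat_pow_near_of_lt_one (div_pos hd0 hc)
      ((div_le_one hc).mpr (by linarith)) hθ hθ1
    rw [lt_div_iff₀ hc] at hj1
    rw [div_le_iff₀ hc] at hj2
    have a1 := hcl x hx y hy j (by rw [dist_comm]; linarith)
    have a2 := hPd x hx j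
    have a3 := hPd y hy (j + 1)
    rw [hs' j] at a3
    have h2 : 0 ≤ C₀ * A * (θ ^ j / 3) := by positivity
    have a4 : C₀ * A * (θ * (θ ^ j / 3)) ≤ C₀ * A * (θ ^ j / 3) := by nlinarith
    have a5 : dist (P x) (P y) ≤ 4 * (C₀ * A * (θ ^ j / 3)) := by
      have e : P x - P y = (p x j - p y (j + 1)) - (p x j - P x) + (p y (j + 1) - P y) := by abel
      rw [dist_eq_norm, e]
      have b1 := norm_add_le (p x j - p y (j + 1) - (p x j - P x)) (p y (j + 1) - P y)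
      have b2 := norm_sub_le (p x j - p y (j + 1)) (p x j - P x)
      linarith
    have a6 : θ ^ j / 3 ≤ 2 * dist x y / θ := by
      rw [le_div_iff₀ hθ]
      have h3 : 0 < θ ^ (j + 1) := by positivity
      have h4 : θ ^ j / 3 * θ = θ ^ (j + 1) / 3 := by ring
      nlinarith
    calc dist (P x) (P y) ≤ 4 * (C₀ * A * (θ ^ j / 3)) := a5
      _ ≤ 4 * (C₀ * A * (2 * dist x y / θ)) := by gcongr
      _ = _ := by ring
  obtain ⟨g, hg, hPg⟩ := hlip.extend_finite_dimension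
  refine ⟨g, fun x y => ?_, fun x hx => ?_, ?_⟩
  · have := hg.dist_le_mul x y
    rw [dist_eq_norm, dist_eq_norm] at this
    refine this.trans (le_of_eq ?_)
    change (lipschitzExtensionConstant (E m) : ℝ) * (8 * C₀ / θ * A) * ‖x - y‖ = _
    ring
  · rw [← hPg hx]
    exact le_of_tendsto' (hP x hx).norm (hpB x hx)
  · have hloc : LocallyIntegrable Ψ := fun x => by
      have := fin_ball_rep x 1
      exact ⟨ball x 1, ball_mem_nhds x one_pos, (hΨ x 1).integrable (by norm_num)⟩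
    filter_upwards [ae_lebesgue_norm hloc] with x hx hxb
    rw [← hPg hxb]
    have h0 : Tendsto (fun j : ℕ => θ ^ j / 3) atTop (𝓝 0) := by
      simpa using (tendsto_pow_atTop_nhds_zero_of_lt_one hθ.le hθ1).div_const 3
    have h1 : Tendsto (fun j : ℕ => θ ^ j / 3) atTop (𝓝[>] 0) :=
      tendsto_nhdsWithin_iff.mpr ⟨h0, Eventually.of_forall hs⟩
    have h2 := ((hx.comp h1).add (h0.const_mul (vb m + A ^ 2))).const_mul (vb m)⁻¹
    simp only [mul_zero, add_zero] at h2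
    have h3 : Tendsto (p x) atTop (𝓝 (Ψ x)) := by
      rw [tendsto_iff_norm_sub_tendsto_zero]
      exact squeeze_zero (fun j => norm_nonneg _)
        (fun j => leb_rep hΨ (hs j) (hp x hxb j)) h2
    exact tendsto_nhds_unique (hP x hxb) h3

end Pool.Agent.Lib.MP_8daebb_an.LG
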