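import Pool.Agent.Lib.MP_8daebb_an.LG.Vit

open MeasureTheory Metric Set Filter Topology
open scoped RealInnerProductSpace NNReal

namespace Pool.Agent.Lib.MP_8daebb_an.LG

variable {m : ℕ} {ι : Type}

/-! GEH. A superlinear estimate from a reverse Hoelder inequality. -/

/-- The `k`-th power of `f` on the super-level set `{μ < f}`. -/
noncomputable def hiGeh (f : E m → ℝ) (k : ℕ) (μ : ℝ) (y : E m) : ℝ :=
  if μ < f y then f y ^ k else 0

theorem intOn_geh {g : E m → ℝ} (hg : Measurable g) {M : ℝ} (hb : ∀ x, |g x| ≤ M) (c : E m)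
    (r : ℝ) : IntegrableOn g (ball c r) :=
  Measure.integrableOn_of_bounded (M := M) measure_ball_lt_top.ne hg.aestronglyMeasurable
    (Eventually.of_forall fun x => by simpa [Real.norm_eq_abs] using hb x)

theorem locInt_geh {g : E m → ℝ} (hg : Measurable g) {M : ℝ} (hb : ∀ x, |g x| ≤ M) :
    LocallyIntegrable g :=
  fun x => ⟨ball x 1, ball_mem_nhds x one_pos, intOn_geh hg hb x 1⟩

theorem pow_bd_geh {f : E m → ℝ} {L : ℝ} (h0 : ∀ x, 0 ≤ f x) (hL : ∀ x, f x ≤ L) (k : ℕ)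
    (x : E m) : |f x ^ k| ≤ L ^ k := by
  rw [abs_of_nonneg (pow_nonneg (h0 x) k)]
  exact pow_le_pow_left₀ (h0 x) (hL x) k

theorem intOn_pow_geh {f : E m → ℝ} {L : ℝ} (hf : Measurable f) (h0 : ∀ x, 0 ≤ f x)
    (hL : ∀ x, f x ≤ L) (k : ℕ) (c : E m) (r : ℝ) : IntegrableOn (fun y => f y ^ k) (ball c r) :=
  intOn_geh (hf.pow_const k) (pow_bd_geh h0 hL k) c r

theorem hi_nonneg_geh {f : E m → ℝ} (h0 : ∀ x, 0 ≤ f x) (k : ℕ) (μ : ℝ) (x : E m) :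
    0 ≤ hiGeh f k μ x := by
  unfold hiGeh
  split_ifs
  · exact pow_nonneg (h0 x) k
  · exact le_rfl

theorem hi_le_geh {f : E m → ℝ} (h0 : ∀ x, 0 ≤ f x) (k : ℕ) (μ : ℝ) (x : E m) :
    hiGeh f k μ x ≤ f x ^ k := by
  unfold hiGeh
  split_ifs
  · exact le_rfl
  · exact pow_nonneg (h0 x) k

theorem hi_anti_geh {f : E m → ℝ} (h0 : ∀ x, 0 ≤ f x) (k : ℕ) {μ ν : ℝ} (h : μ ≤ ν) (x : E m) :
    hiGeh f k ν x ≤ hiGeh f k μ x := by
  unfold hiGeh
  by_cases h1 : ν < f x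
  · rw [if_pos h1, if_pos (lt_of_le_of_lt h h1)]
  · rw [if_neg h1]
    split_ifs
    · exact pow_nonneg (h0 x) k
    · exact le_rfl

theorem hi_meas_geh {f : E m → ℝ} (hf : Measurable f) (k : ℕ) (μ : ℝ) :
    Measurable (hiGeh f k μ) :=
  Measurable.ite (measurableSet_lt measurable_const hf) (hf.pow_const k) measurable_const

theorem hi_bd_geh {f : E m → ℝ} {L : ℝ} (h0 : ∀ x, 0 ≤ f x) (hL : ∀ x, f x ≤ L) (k : ℕ) (μ : ℝ)
    (x : E m) : |hiGeh f k μ x| ≤ L ^ k := by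
  rw [abs_of_nonneg (hi_nonneg_geh h0 k μ x)]
  exact (hi_le_geh h0 k μ x).trans (pow_le_pow_left₀ (h0 x) (hL x) k)

theorem intOn_hi_geh {f : E m → ℝ} {L : ℝ} (hf : Measurable f) (h0 : ∀ x, 0 ≤ f x)
    (hL : ∀ x, f x ≤ L) (k : ℕ) (μ : ℝ) (c : E m) (r : ℝ) :
    IntegrableOn (hiGeh f k μ) (ball c r) :=
  intOn_geh (hi_meas_geh hf k μ) (hi_bd_geh h0 hL k μ) c r

theorem int_mono_ball_geh {g : E m → ℝ} {c c' : E m} {r r' : ℝ} (hg : IntegrableOn g (ball c' r'))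
    (h0 : ∀ x, 0 ≤ g x) (hs : ball c r ⊆ ball c' r') :
    ∫ y in ball c r, g y ≤ ∫ y in ball c' r', g y :=
  setIntegral_mono_set hg (Eventually.of_forall h0) hs.eventuallyLE

/-- The stopping radius. -/
theorem stop_geh {g : ℝ → ℝ} {l t r₀ T : ℝ} (hr₀ : 0 < r₀) (hT : 1 < T)
    (hg : Tendsto g (𝓝[>] 0) (𝓝 l)) (hl : t < l) (h₀ : g r₀ ≤ t) :
    ∃ r, 0 < r ∧ T * r ≤ r₀ ∧ t < g r ∧ g (T * r) ≤ t := by
  classical
  have hT0 : 0 < T := lt_trans one_pos hT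
  have hi0 : 0 < T⁻¹ := inv_pos.mpr hT0
  have hi1 : T⁻¹ < 1 := inv_lt_one_of_one_lt₀ hT
  have hseq : Tendsto (fun k : ℕ => r₀ * T⁻¹ ^ k) atTop (𝓝[>] 0) := by
    refine tendsto_nhdsWithin_iff.mpr ⟨?_, Eventually.of_forall fun k => ?_⟩
    · simpa using (tendsto_pow_atTop_nhds_zero_of_lt_one hi0.le hi1).const_mul r₀
    · exact mul_pos hr₀ (pow_pos hi0 k)
  have hex : ∃ k : ℕ, t < g (r₀ * T⁻¹ ^ k) :=
    ((hg.comp hseq).eventually (lt_mem_nhds hl)).exists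
  have hk := Nat.find_spec hex
  have hk0 : Nat.find hex ≠ 0 := by
    intro h
    rw [h] at hk
    simp only [pow_zero, mul_one] at hk
    exact absurd h₀ (not_le.mpr hk)
  obtain ⟨j, hj⟩ := Nat.exists_eq_succ_of_ne_zero hk0
  have hmin := Nat.find_min hex (m := j) (by omega)
  rw [hj] at hk
  have he : T * (r₀ * T⁻¹ ^ (j + 1)) = r₀ * T⁻¹ ^ j := by
    rw [pow_succ]
    field_simp
  refine ⟨r₀ * T⁻¹ ^ (j + 1), mul_pos hr₀ (pow_pos hi0 _), ?_, hk, ?_⟩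
  · rw [he]
    exact mul_le_of_le_one_right hr₀.le (pow_le_one₀ hi0.le hi1.le)
  · rw [he]
    exact not_lt.mp hmin

/-- The estimate at a point of the super-level set. -/
theorem point_geh {f : E m → ℝ} {K Λ L μ r : ℝ} (hK : 0 < K) (hΛ : 1 ≤ Λ) (hf : Measurable f)
    (h0 : ∀ x, 0 ≤ f x) (hL : ∀ x, f x ≤ L) (hμ : 0 < μ) (hr : 0 < r) {x : E m}
    (hRH : ∫ y in ball x r, f y ^ 2 ≤
      K * √((∫ y in ball x (Λ * r), f y ^ 2) / r ^ m) * ∫ y in ball x (Λ * r), f y)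
    (h1 : μ ^ 2 < (∫ y in ball x r, f y ^ 2) / r ^ m)
    (h2 : (∫ y in ball x (6 * Λ * r), f y ^ 2) / (6 * Λ * r) ^ m ≤ μ ^ 2) :
    ∫ y in ball x (6 * Λ * r), f y ^ 2 ≤
      2 * (K * √((6 * Λ) ^ m)) * (6 * Λ) ^ m * μ *
        ∫ y in ball x (Λ * r), hiGeh f 1 ((2 * (K * √((6 * Λ) ^ m)) * vb m * Λ ^ m)⁻¹ * μ) y := by
  have hΛ0 : 0 < Λ := lt_of_lt_of_le one_pos hΛ
  have hvb := vb_pos m
  have hrm : 0 < r ^ m := pow_pos hr m
  have h6 : 0 < (6 * Λ) ^ m := by positivity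
  set K' : ℝ := K * √((6 * Λ) ^ m) with hK'
  have hK'0 : 0 < K' := mul_pos hK (Real.sqrt_pos.mpr h6)
  set b : ℝ := (2 * K' * vb m * Λ ^ m)⁻¹ with hb
  have hb0 : 0 < b := by positivity
  set I : ℝ := ∫ y in ball x (Λ * r), hiGeh f 1 (b * μ) y with hI
  have h2' : ∫ y in ball x (6 * Λ * r), f y ^ 2 ≤ μ ^ 2 * ((6 * Λ) ^ m * r ^ m) := by
    rw [div_le_iff₀ (by positivity), mul_pow (6 * Λ) r] at h2
    exact h2
  have h3 : ∫ y in ball x (Λ * r), f y ^ 2 ≤ μ ^ 2 * ((6 * Λ) ^ m * r ^ m) := by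
    refine le_trans (int_mono_ball_geh (intOn_pow_geh hf h0 hL 2 x _)
      (fun y => sq_nonneg _) (ball_subset_ball ?_)) h2'
    nlinarith [mul_pos hΛ0 hr]
  have h4 : √((∫ y in ball x (Λ * r), f y ^ 2) / r ^ m) ≤ μ * √((6 * Λ) ^ m) := by
    rw [← Real.sqrt_sq hμ.le, ← Real.sqrt_mul (sq_nonneg μ)]
    apply Real.sqrt_le_sqrt
    rw [div_le_iff₀ hrm]
    calc _ ≤ μ ^ 2 * ((6 * Λ) ^ m * r ^ m) := h3
      _ = _ := by ring
  have hf1 : IntegrableOn f (ball x (Λ * r)) := by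
    simpa using intOn_pow_geh hf h0 hL 1 x (Λ * r)
  have hJ0 : 0 ≤ ∫ y in ball x (Λ * r), f y := integral_nonneg h0
  have h5 : ∫ y in ball x (Λ * r), f y ≤ I + b * μ * (vb m * (Λ * r) ^ m) := by
    have hc : IntegrableOn (fun _ : E m => b * μ) (ball x (Λ * r)) :=
      integrableOn_const measure_ball_lt_top.ne
    have : ∫ y in ball x (Λ * r), f y ≤
        ∫ y in ball x (Λ * r), (hiGeh f 1 (b * μ) y + b * μ) := by
      refine integral_mono hf1 ((intOn_hi_geh hf h0 hL 1 _ x _).add hc) fun y => ?_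
      have hbμ : 0 ≤ b * μ := by positivity
      simp only [hiGeh]
      split_ifs with hy
      · simpa using hbμ
      · simpa using not_lt.mp hy
    rw [integral_add (intOn_hi_geh hf h0 hL 1 _ x _) hc, setIntegral_const,
      vol_ball x (mul_pos hΛ0 hr), smul_eq_mul] at this
    linarith
  have h6' : μ ^ 2 * r ^ m ≤ K' * μ * ∫ y in ball x (Λ * r), f y := by
    rw [lt_div_iff₀ hrm] at h1
    calc μ ^ 2 * r ^ m ≤ ∫ y in ball x r, f y ^ 2 := h1.le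
      _ ≤ _ := hRH
      _ ≤ K * (μ * √((6 * Λ) ^ m)) * ∫ y in ball x (Λ * r), f y := by gcongr
      _ = _ := by rw [hK']; ring
  have h7 : μ * r ^ m ≤ K' * ∫ y in ball x (Λ * r), f y := by
    have : μ * (μ * r ^ m) ≤ μ * (K' * ∫ y in ball x (Λ * r), f y) := by nlinarith
    exact le_of_mul_le_mul_left this hμ
  have h8 : K' * (b * μ * (vb m * (Λ * r) ^ m)) = μ * r ^ m / 2 := by
    rw [hb, mul_pow]
    field_simp
  have h9 : μ * r ^ m ≤ 2 * K' * I := by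
    have := mul_le_mul_of_nonneg_left h5 hK'0.le
    rw [mul_add, h8] at this
    linarith
  calc ∫ y in ball x (6 * Λ * r), f y ^ 2 ≤ μ ^ 2 * ((6 * Λ) ^ m * r ^ m) := h2'
    _ = (6 * Λ) ^ m * μ * (μ * r ^ m) := by ring
    _ ≤ (6 * Λ) ^ m * μ * (2 * K' * I) := by gcongr
    _ = _ := by ring

/-- The covering step. -/
theorem cover_geh (m : ℕ) {K Λ : ℝ} (hK : 0 < K) (hΛ : 1 ≤ Λ) :
    ∃ a > 0, ∃ b > 0, ∃ K₂ > 0, ∀ (f : E m → ℝ) (L : ℝ), Measurable f →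
      (∀ x, 0 ≤ f x) → (∀ x, f x ≤ L) → ∀ (c : E m) (R₂ D : ℝ),
      (∀ (x : E m) (r : ℝ), 0 < r → ball x (Λ * r) ⊆ ball c R₂ →
        ∫ y in ball x r, f y ^ 2 ≤
          K * √((∫ y in ball x (Λ * r), f y ^ 2) / r ^ m) * ∫ y in ball x (Λ * r), f y) →
      ∫ y in ball c R₂, f y ^ 2 ≤ D → ∀ (ρ ρ' μ : ℝ), ρ < ρ' → ρ' ≤ R₂ → 0 < μ →
      D ≤ μ ^ 2 * (ρ' - ρ) ^ m →
      ∫ y in ball c ρ, hiGeh f 2 (a * μ) y ≤ ∫ y in ball c ρ', K₂ * μ * hiGeh f 1 (b * μ) y := by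
  have hΛ0 : 0 < Λ := lt_of_lt_of_le one_pos hΛ
  have hvb := vb_pos m
  have h6 : 0 < (6 * Λ) ^ m := by positivity
  have hs6 : 0 < √((6 * Λ) ^ m) := Real.sqrt_pos.mpr h6
  have hsv : 0 < √(vb m) := Real.sqrt_pos.mpr hvb
  refine ⟨(√(vb m))⁻¹, by positivity, (2 * (K * √((6 * Λ) ^ m)) * vb m * Λ ^ m)⁻¹, by positivity,
    2 * (K * √((6 * Λ) ^ m)) * (6 * Λ) ^ m, by positivity, ?_⟩
  intro f L hf h0 hL c R₂ D hRH hD ρ ρ' μ hρ hρ' hμ hDμ
  set a : ℝ := (√(vb m))⁻¹ with ha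
  set b : ℝ := (2 * (K * √((6 * Λ) ^ m)) * vb m * Λ ^ m)⁻¹ with hb
  set K₂ : ℝ := 2 * (K * √((6 * Λ) ^ m)) * (6 * Λ) ^ m with hK₂
  have hK₂0 : 0 < K₂ := by positivity
  have hleb := ae_lebesgue (locInt_geh (hf.pow_const 2) (pow_bd_geh h0 hL 2))
  set S : Set (E m) := {x | x ∈ ball c ρ ∧ a * μ < f x ∧
    Tendsto (fun r : ℝ => (∫ y in ball x r, f y ^ 2) / r ^ m) (𝓝[>] 0) (𝓝 (vb m * f x ^ 2))}
    with hS
  have hS1 : ∫ y in ball c ρ, hiGeh f 2 (a * μ) y = ∫ y in S, hiGeh f 2 (a * μ) y := by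
    refine setIntegral_eq_of_subset_of_ae_sdiff_eq_zero measurableSet_ball.nullMeasurableSet
      (fun x hx => hx.1) ?_
    filter_upwards [hleb] with x hx hx'
    have : ¬ a * μ < f x := fun h => hx'.2 ⟨hx'.1, h, hx⟩
    simp only [hiGeh, if_neg this]
  rw [hS1]
  refine vitali_sum (r₀ := ρ' - ρ) (hi_nonneg_geh h0 2 _)
    (fun x => mul_nonneg (mul_pos hK₂0 hμ).le (hi_nonneg_geh h0 1 _ x))
    (locInt_geh (hi_meas_geh hf 2 _) (hi_bd_geh h0 hL 2 _))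
    ((intOn_hi_geh hf h0 hL 1 _ c ρ').const_mul _) ?_
  rintro x ⟨hxb, hxa, hx⟩
  have hr₀ : 0 < ρ' - ρ := sub_pos.mpr hρ
  have hsub : ball x (ρ' - ρ) ⊆ ball c ρ' := by
    apply ball_subset_ball'
    have := mem_ball.mp hxb
    linarith
  have hsub₂ : ball c ρ' ⊆ ball c R₂ := ball_subset_ball hρ'
  have hl : μ ^ 2 < vb m * f x ^ 2 := by
    have h1 : μ < √(vb m) * f x := by
      rw [ha, inv_mul_lt_iff₀ hsv] at hxa
      exact hxa
    have h2 : μ ^ 2 < (√(vb m) * f x) ^ 2 := by gcongr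
    rwa [mul_pow, Real.sq_sqrt hvb.le] at h2
  have hst : (∫ y in ball x (ρ' - ρ), f y ^ 2) / (ρ' - ρ) ^ m ≤ μ ^ 2 := by
    rw [div_le_iff₀ (pow_pos hr₀ m)]
    exact (int_mono_ball_geh (intOn_pow_geh hf h0 hL 2 c R₂) (fun y => sq_nonneg _)
      (hsub.trans hsub₂)).trans (hD.trans hDμ)
  obtain ⟨r, hr, hrT, hg1, hg2⟩ := stop_geh (T := 6 * Λ) hr₀ (by linarith) hx hl hst
  have hΛr : 0 < Λ * r := mul_pos hΛ0 hr
  have hle : Λ * r ≤ ρ' - ρ := by nlinarith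
  have hb1 : ball x (Λ * r) ⊆ ball c ρ' := (ball_subset_ball hle).trans hsub
  refine ⟨Λ * r, hΛr, hle, hb1, ?_⟩
  have hp := point_geh hK hΛ hf h0 hL hμ hr (hRH x r hr (hb1.trans hsub₂)) hg1 hg2
  rw [integral_const_mul, ← mul_assoc 6 Λ r]
  refine le_trans ?_ hp
  exact integral_mono (intOn_hi_geh hf h0 hL 2 _ x _) (intOn_pow_geh hf h0 hL 2 x _)
    (hi_le_geh h0 2 _)

/-- The decay step. -/
theorem step_geh (m : ℕ) {K Λ : ℝ} (hK : 0 < K) (hΛ : 1 ≤ Λ) :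
    ∃ A > 0, ∃ b > 0, ∃ θ : ℝ, 0 < θ ∧ θ < 1 ∧ ∀ (f : E m → ℝ) (L : ℝ), Measurable f →
      (∀ x, 0 ≤ f x) → (∀ x, f x ≤ L) → ∀ (c : E m) (R₂ D : ℝ),
      (∀ (x : E m) (r : ℝ), 0 < r → ball x (Λ * r) ⊆ ball c R₂ →
        ∫ y in ball x r, f y ^ 2 ≤
          K * √((∫ y in ball x (Λ * r), f y ^ 2) / r ^ m) * ∫ y in ball x (Λ * r), f y) →
      ∫ y in ball c R₂, f y ^ 2 ≤ D → ∀ (ρ ρ' μ : ℝ), ρ < ρ' → ρ' ≤ R₂ → 0 < μ →
      D ≤ μ ^ 2 * (ρ' - ρ) ^ m →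
      ∫ y in ball c ρ, hiGeh f 2 (A * μ) y ≤ θ * ∫ y in ball c ρ', hiGeh f 2 (b * μ) y := by
  obtain ⟨a, ha, b, hb, K₂, hK₂, H⟩ := cover_geh m hK hΛ
  set A : ℝ := max a (max b (2 * K₂)) with hA
  have hAa : a ≤ A := le_max_left _ _
  have hAb : b ≤ A := (le_max_left _ _).trans (le_max_right _ _)
  have hAK : 2 * K₂ ≤ A := (le_max_right _ _).trans (le_max_right _ _)
  set k : ℝ := max 1 (K₂ / b) with hk
  have hk1 : 1 ≤ k := le_max_left _ _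
  have hkb : K₂ ≤ k * b := by
    have : K₂ / b ≤ k := le_max_right _ _
    rwa [div_le_iff₀ hb] at this
  refine ⟨A, lt_of_lt_of_le ha hAa, b, hb, k / (k + 1 / 2), by positivity,
    (div_lt_one (by positivity)).mpr (by linarith), ?_⟩
  intro f L hf h0 hL c R₂ D hRH hD ρ ρ' μ hρ hρ' hμ hDμ
  have h1 := H f L hf h0 hL c R₂ D hRH hD ρ ρ' μ hρ hρ' hμ hDμ
  have iA := intOn_hi_geh hf h0 hL 2 (A * μ) c ρ'
  have ib := intOn_hi_geh hf h0 hL 2 (b * μ) c ρ'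
  have hx1 : ∫ y in ball c ρ, hiGeh f 2 (A * μ) y ≤ ∫ y in ball c ρ, hiGeh f 2 (a * μ) y :=
    integral_mono (intOn_hi_geh hf h0 hL 2 _ c ρ) (intOn_hi_geh hf h0 hL 2 _ c ρ)
      (hi_anti_geh h0 2 (mul_le_mul_of_nonneg_right hAa hμ.le))
  have hxy : ∫ y in ball c ρ, hiGeh f 2 (A * μ) y ≤ ∫ y in ball c ρ', hiGeh f 2 (A * μ) y :=
    int_mono_ball_geh iA (hi_nonneg_geh h0 2 _) (ball_subset_ball hρ.le)
  have h2 : ∫ y in ball c ρ', K₂ * μ * hiGeh f 1 (b * μ) y ≤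
      ∫ y in ball c ρ', (k * hiGeh f 2 (b * μ) y - (k - 1 / 2) * hiGeh f 2 (A * μ) y) := by
    refine integral_mono ((intOn_hi_geh hf h0 hL 1 _ c ρ').const_mul _)
      ((ib.const_mul _).sub (iA.const_mul _)) fun y => ?_
    have hy0 := h0 y
    have hbA : b * μ ≤ A * μ := mul_le_mul_of_nonneg_right hAb hμ.le
    simp only [hiGeh]
    by_cases hyA : A * μ < f y
    · rw [if_pos hyA, if_pos (lt_of_le_of_lt hbA hyA), if_pos (lt_of_le_of_lt hbA hyA)]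
      have : 2 * K₂ * μ ≤ f y := (mul_le_mul_of_nonneg_right hAK hμ.le).trans hyA.le
      nlinarith [mul_le_mul_of_nonneg_right this hy0]
    · rw [if_neg hyA]
      by_cases hyb : b * μ < f y
      · rw [if_pos hyb, if_pos hyb]
        have h3 : K₂ * μ ≤ k * f y := by
          calc K₂ * μ ≤ k * b * μ := by gcongr
            _ = k * (b * μ) := by ring
            _ ≤ k * f y := by gcongr
        nlinarith [mul_le_mul_of_nonneg_right h3 hy0]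
      · rw [if_neg hyb, if_neg hyb]
        simp
  rw [integral_sub (ib.const_mul _) (iA.const_mul _), integral_const_mul, integral_const_mul,
    integral_const_mul] at h2
  rw [integral_const_mul] at h1
  rw [div_mul_eq_mul_div, le_div_iff₀ (by positivity)]
  have hk2 : 0 ≤ k - 1 / 2 := by linarith
  nlinarith [mul_le_mul_of_nonneg_left hxy hk2]

/-- The choice of the exponent. -/
theorem exp_geh {B θ : ℝ} (hB : 1 < B) (hθ0 : 0 < θ) (hθ1 : θ < 1) :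
    ∃ γ : ℝ, 0 < γ ∧ γ ≤ 1 / 4 ∧ ∀ η : ℝ, 0 < η → η ≤ 1 →
      ∃ j : ℕ, √η * B ^ j ≤ η ^ γ ∧ θ ^ (j + 1) ≤ η ^ γ := by
  have hB0 : 0 < B := lt_trans one_pos hB
  have hlB : 0 < Real.log B := Real.log_pos hB
  have hlθ : Real.log θ < 0 := Real.log_neg hθ0 hθ1
  set g : ℝ := -Real.log θ / Real.log B with hg
  have hg0 : 0 < g := div_pos (by linarith) hlB
  have hθB : θ = B ^ (-g) := by
    rw [Real.rpow_def_of_pos hB0, hg]
    have : Real.log B * -(-Real.log θ / Real.log B) = Real.log θ := by field_simp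
    rw [this, Real.exp_log hθ0]
  refine ⟨min (1 / 4) (g / 4), lt_min (by norm_num) (by positivity), min_le_left _ _, ?_⟩
  intro η hη hη1
  have hx : 1 ≤ η ^ (-(1 / 4) : ℝ) := Real.one_le_rpow_of_pos_of_le_one_of_nonpos hη hη1
    (by norm_num)
  obtain ⟨j, hj1, hj2⟩ := exists_nat_pow_near hx hB
  refine ⟨j, ?_, ?_⟩
  · calc √η * B ^ j ≤ η ^ (1 / 2 : ℝ) * η ^ (-(1 / 4) : ℝ) := by
          rw [Real.sqrt_eq_rpow]
          gcongr
      _ = η ^ (1 / 4 : ℝ) := by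
          rw [← Real.rpow_add hη]
          norm_num
      _ ≤ _ := Real.rpow_le_rpow_of_exponent_ge hη hη1 (min_le_left _ _)
  · calc θ ^ (j + 1) = (B ^ (j + 1)) ^ (-g) := by
          rw [hθB, ← Real.rpow_natCast, ← Real.rpow_natCast, ← Real.rpow_mul hB0.le,
            ← Real.rpow_mul hB0.le, mul_comm]
      _ ≤ (η ^ (-(1 / 4) : ℝ)) ^ (-g) :=
          Real.rpow_le_rpow_of_nonpos (by positivity) hj2.le (by linarith)
      _ = η ^ (g / 4) := by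
          rw [← Real.rpow_mul hη.le]
          congr 1
          ring
      _ ≤ _ := Real.rpow_le_rpow_of_exponent_ge hη hη1 (min_le_right _ _)

theorem gehring (m : ℕ) {K Λ L : ℝ} (hK : 0 < K) (hΛ : 1 ≤ Λ) (hL : 0 < L) :
    ∃ γ : ℝ, 0 < γ ∧ γ ≤ 1 / 4 ∧ ∃ C > 0, ∀ (f : E m → ℝ), Measurable f →
      (∀ x, 0 ≤ f x) → (∀ x, f x ≤ L) → ∀ (c : E m) (R η : ℝ), 0 < R → 0 < η →
      (∀ (x : E m) (r : ℝ), 0 < r → ball x (Λ * r) ⊆ ball c (2 * R) →
        ∫ y in ball x r, f y ^ 2 ≤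
          K * √((∫ y in ball x (Λ * r), f y ^ 2) / r ^ m) * ∫ y in ball x (Λ * r), f y) →
      ∫ y in ball c (2 * R), f y ^ 2 ≤ η * R ^ m →
      ∫ y in ball c R, f y ^ 3 ≤ C * η ^ γ * η * R ^ m := by
  obtain ⟨A, hA, b, hb, θ, hθ0, hθ1, H⟩ := step_geh m hK hΛ
  set B : ℝ := max (A / b) (max (2 ^ m) 2) with hB
  have hBA : A ≤ b * B := by
    have : A / b ≤ B := le_max_left _ _
    rwa [div_le_iff₀' hb] at this
  have hBm : (2 : ℝ) ^ m ≤ B := (le_max_left _ _).trans (le_max_right _ _)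
  have hB2 : (2 : ℝ) ≤ B := (le_max_right _ _).trans (le_max_right _ _)
  have hB1 : 1 < B := by linarith
  obtain ⟨γ, hγ0, hγ1, hγ⟩ := exp_geh hB1 hθ0 hθ1
  have h2m : (0 : ℝ) < 2 ^ m := by positivity
  have hs2 : 0 < √((2 : ℝ) ^ m) := Real.sqrt_pos.mpr h2m
  refine ⟨γ, hγ0, hγ1, b * √(2 ^ m) + L / θ, by positivity, ?_⟩
  intro f hf h0 hfL c R η hR hη hRH hD
  have hRm : 0 < R ^ m := pow_pos hR m
  have hηγ : 0 < η ^ γ := Real.rpow_pos_of_pos hη γ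
  have hsη : 0 < √η := Real.sqrt_pos.mpr hη
  have hsub : ball c R ⊆ ball c (2 * R) := ball_subset_ball (by linarith)
  have hD1 : ∫ y in ball c R, f y ^ 2 ≤ η * R ^ m :=
    (int_mono_ball_geh (intOn_pow_geh hf h0 hfL 2 c _) (fun y => sq_nonneg _) hsub).trans hD
  have hLθ : L ≤ L / θ := by
    rw [le_div_iff₀ hθ0]
    exact mul_le_of_le_one_right hL.le hθ1.le
  rcases le_total η 1 with hη1 | hη1
  · obtain ⟨j, hj1, hj2⟩ := hγ η hη hη1
    have hit : ∀ n : ℕ, ∫ y in ball c (R * (1 + (1 / 2) ^ n)),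
        hiGeh f 2 (b * (√(2 ^ m) * √η * B ^ n)) y ≤ θ ^ n * (η * R ^ m) := by
      intro n
      induction n with
      | zero =>
        have e : R * (1 + (1 / 2) ^ 0) = 2 * R := by ring
        rw [e, pow_zero θ, one_mul]
        exact (integral_mono (intOn_hi_geh hf h0 hfL 2 _ c _) (intOn_pow_geh hf h0 hfL 2 c _)
          (hi_le_geh h0 2 _)).trans hD
      | succ n ih =>
        have hp : (0 : ℝ) < (1 / 2) ^ n := by positivity
        have hp1 : ((1 : ℝ) / 2) ^ n ≤ 1 := pow_le_one₀ (by norm_num) (by norm_num)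
        have hμ : 0 < √(2 ^ m) * √η * B ^ n := by positivity
        have e : R * (1 + (1 / 2) ^ n) - R * (1 + (1 / 2) ^ (n + 1)) = R * (1 / 2) ^ (n + 1) := by
          ring
        have hc : η * R ^ m ≤ (√(2 ^ m) * √η * B ^ n) ^ 2 *
            (R * (1 + (1 / 2) ^ n) - R * (1 + (1 / 2) ^ (n + 1))) ^ m := by
          rw [e, mul_pow, mul_pow, mul_pow, Real.sq_sqrt h2m.le, Real.sq_sqrt hη.le]
          have e2 : (((1 : ℝ) / 2) ^ (n + 1)) ^ m = (2 ^ m * (2 ^ m) ^ n)⁻¹ := by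
            rw [← pow_succ', ← pow_mul, ← pow_mul, one_div, inv_pow, mul_comm]
          have h3 : ((2 : ℝ) ^ m) ^ n ≤ B ^ n := pow_le_pow_left₀ h2m.le hBm n
          have h4 : (1 : ℝ) ≤ B ^ n := one_le_pow₀ hB1.le
          have h5 : ((2 : ℝ) ^ m) ^ n ≤ (B ^ n) ^ 2 := by nlinarith
          have h6 : (0 : ℝ) < (2 ^ m) ^ n := by positivity
          rw [e2]
          calc η * R ^ m = 2 ^ m * η * (2 ^ m) ^ n * (R ^ m * (2 ^ m * (2 ^ m) ^ n)⁻¹) := by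
                field_simp
            _ ≤ _ := by gcongr
        have hs := H f L hf h0 hfL c (2 * R) (η * R ^ m) hRH hD (R * (1 + (1 / 2) ^ (n + 1)))
          (R * (1 + (1 / 2) ^ n)) (√(2 ^ m) * √η * B ^ n)
          (by rw [← sub_pos, e]; positivity) (by nlinarith) hμ hc
        have hle : A * (√(2 ^ m) * √η * B ^ n) ≤ b * (√(2 ^ m) * √η * B ^ (n + 1)) := by
          calc A * (√(2 ^ m) * √η * B ^ n) ≤ b * B * (√(2 ^ m) * √η * B ^ n) := by gcongr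
            _ = _ := by ring
        calc _ ≤ ∫ y in ball c (R * (1 + (1 / 2) ^ (n + 1))),
              hiGeh f 2 (A * (√(2 ^ m) * √η * B ^ n)) y :=
              integral_mono (intOn_hi_geh hf h0 hfL 2 _ c _) (intOn_hi_geh hf h0 hfL 2 _ c _)
                (hi_anti_geh h0 2 hle)
          _ ≤ _ := hs
          _ ≤ θ * (θ ^ n * (η * R ^ m)) := by gcongr
          _ = _ := by ring
    set ν : ℝ := b * (√(2 ^ m) * √η * B ^ j) with hν
    have hν0 : 0 < ν := by positivity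
    have h1 : ∫ y in ball c R, hiGeh f 2 ν y ≤ θ ^ j * (η * R ^ m) := by
      refine le_trans (int_mono_ball_geh (intOn_hi_geh hf h0 hfL 2 _ c _)
        (hi_nonneg_geh h0 2 _) (ball_subset_ball ?_)) (hit j)
      have hp : (0 : ℝ) < (1 / 2) ^ j := by positivity
      nlinarith
    have i2 := intOn_pow_geh hf h0 hfL 2 c R
    have i3 := intOn_hi_geh hf h0 hfL 2 ν c R
    have h2 : ∫ y in ball c R, f y ^ 3 ≤
        ∫ y in ball c R, (ν * f y ^ 2 + L * hiGeh f 2 ν y) := by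
      refine integral_mono (intOn_pow_geh hf h0 hfL 3 c R)
        ((i2.const_mul _).add (i3.const_mul _)) fun y => ?_
      have hy := sq_nonneg (f y)
      simp only [hiGeh]
      split_ifs with hy1
      · nlinarith [mul_le_mul_of_nonneg_right (hfL y) hy, mul_nonneg hν0.le hy]
      · nlinarith [mul_le_mul_of_nonneg_right (not_lt.mp hy1) hy]
    rw [integral_add (i2.const_mul _) (i3.const_mul _), integral_const_mul,
      integral_const_mul] at h2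
    have h3 : ν ≤ b * √(2 ^ m) * η ^ γ := by
      calc ν = b * √(2 ^ m) * (√η * B ^ j) := by rw [hν]; ring
        _ ≤ _ := by gcongr
    have h4 : θ ^ j ≤ η ^ γ / θ := by
      rw [le_div_iff₀ hθ0, ← pow_succ]
      exact hj2
    calc ∫ y in ball c R, f y ^ 3 ≤ _ := h2
      _ ≤ ν * (η * R ^ m) + L * (θ ^ j * (η * R ^ m)) := by gcongr
      _ ≤ b * √(2 ^ m) * η ^ γ * (η * R ^ m) + L * (η ^ γ / θ * (η * R ^ m)) := by gcongr
      _ = _ := by ring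
  · have i2 := intOn_pow_geh hf h0 hfL 2 c R
    have h2 : ∫ y in ball c R, f y ^ 3 ≤ ∫ y in ball c R, L * f y ^ 2 := by
      refine integral_mono (intOn_pow_geh hf h0 hfL 3 c R) (i2.const_mul _) fun y => ?_
      have hy := sq_nonneg (f y)
      nlinarith [mul_le_mul_of_nonneg_right (hfL y) hy]
    rw [integral_const_mul] at h2
    have h3 : 1 ≤ η ^ γ := Real.one_le_rpow hη1 hγ0.le
    have h4 : L ≤ (b * √(2 ^ m) + L / θ) * η ^ γ := by
      have h5 : 0 < b * √(2 ^ m) := by positivity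
      nlinarith
    calc ∫ y in ball c R, f y ^ 3 ≤ _ := h2
      _ ≤ L * (η * R ^ m) := by gcongr
      _ ≤ (b * √(2 ^ m) + L / θ) * η ^ γ * (η * R ^ m) := by gcongr
      _ = _ := by ring

end Pool.Agent.Lib.MP_8daebb_an.LG
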