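import Pool.Agent.Lib.MP_8daebb_an.LG.RotB

open MeasureTheory Metric Set Filter Topology
open scoped RealInnerProductSpace NNReal

namespace Pool.Agent.Lib.MP_8daebb_an.LG

variable {m : ℕ} {ι : Type}

/-! ROTC. Rotation of a cluster of sheets to the plane of slope `p`. -/

/-- The numerical constraints on the angle of the rotation. -/
structure Par_rotc (L H t c σ : ℝ) : Prop where
  t0 : 0 ≤ t
  c0 : 2 / 3 ≤ c
  c1 : c ≤ 1
  σeq : σ = t * c
  sq : c ^ 2 + σ ^ 2 = 1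
  σ0 : 0 ≤ σ
  σL : σ * L ≤ 1 / 4
  lo : 1 / 2 ≤ c - σ * L
  lin : 1 - c + σ * L ≤ 1 / 4
  σH : σ * H ≤ 1 / 2

theorem par_rotc {L H t : ℝ} (hL : 0 ≤ L) (hH : 0 ≤ H) (ht : 0 ≤ t) (h1 : t * (1 + L) ≤ 1 / 4)
    (h2 : t * H ≤ 1 / 2) : ∃ c σ, Par_rotc L H t c σ := by
  have hw1 : 1 ≤ √(1 + t ^ 2) := Real.one_le_sqrt.mpr (by nlinarith)
  have hw2 : √(1 + t ^ 2) ^ 2 = 1 + t ^ 2 := Real.sq_sqrt (by positivity)
  set w := √(1 + t ^ 2) with hw
  have hw0 : 0 < w := by linarith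
  have htL : 0 ≤ t * L := mul_nonneg ht hL
  have ht4 : t ≤ 1 / 4 := by nlinarith
  have hc0 : 0 < w⁻¹ := inv_pos.mpr hw0
  have hc1 : w⁻¹ ≤ 1 := inv_le_one_of_one_le₀ hw1
  have hsq : w⁻¹ ^ 2 + (t * w⁻¹) ^ 2 = 1 := by
    have : w⁻¹ ^ 2 * w ^ 2 = 1 := by
      rw [← mul_pow, inv_mul_cancel₀ hw0.ne', one_pow]
    rw [hw2] at this
    linarith
  generalize w⁻¹ = c at hc0 hc1 hsq
  have hσt : t * c ≤ t := mul_le_of_le_one_right ht hc1
  have hσ0 : 0 ≤ t * c := mul_nonneg ht hc0.le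
  have hσL : t * c * L ≤ t * L := mul_le_mul_of_nonneg_right hσt hL
  have hσH : t * c * H ≤ t * H := mul_le_mul_of_nonneg_right hσt hH
  have h3 : 1 - c ≤ t * c := by nlinarith
  refine ⟨c, t * c, ht, by linarith, hc1, rfl, hsq, hσ0, by linarith, by linarith, by linarith,
    by linarith⟩

theorem rotJ_bounds_rotc {L : ℝ≥0} {H t c σ : ℝ} (h : Par_rotc L H t c σ) {e : E m}
    (he : ‖e‖ = 1) {f : E m → ℝ} (hf : LipschitzWith L f) (x : E m) :
    1 / 2 ≤ rotJ e c σ f x ∧ rotJ e c σ f x ≤ 5 / 4 := by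
  have h1 : |⟪gradient f x, e⟫| ≤ L := by
    have := abs_real_inner_le_norm (gradient f x) e
    rw [he, mul_one] at this
    exact this.trans (norm_grad_le hf x)
  have h2 := abs_le.mp h1
  have h3 := mul_le_mul_of_nonneg_left h2.1 h.σ0
  have h4 := mul_le_mul_of_nonneg_left h2.2 h.σ0
  have h5 := h.lo
  have h6 := h.σL
  have h7 := h.c1
  unfold rotJ
  constructor <;> linarith

theorem rotX_sub_rotc {L : ℝ≥0} {H t c σ : ℝ} (h : Par_rotc L H t c σ) {e : E m}
    (he : ‖e‖ = 1) {f : E m → ℝ} (hf : LipschitzWith L f) (h0 : |f 0| ≤ H) (x : E m) :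
    ‖rotX e c σ f x - x‖ ≤ ‖x‖ / 4 + 1 / 2 := by
  have h1 : |⟪x, e⟫| ≤ ‖x‖ := by
    have := abs_real_inner_le_norm x e
    rwa [he, mul_one] at this
  have h2 : |f x| ≤ L * ‖x‖ + H := by
    have h3 := hf.dist_le_mul x 0
    rw [Real.dist_eq, dist_zero_right] at h3
    have h4 := abs_add_le (f x - f 0) (f 0)
    rw [sub_add_cancel] at h4
    linarith
  have hc : 0 ≤ 1 - c := sub_nonneg.mpr h.c1
  unfold rotX
  rw [add_sub_cancel_left, norm_smul, he, mul_one, Real.norm_eq_abs]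
  refine (abs_add_le _ _).trans ?_
  rw [abs_mul, abs_mul, abs_sub_comm c 1, abs_of_nonneg hc, abs_of_nonneg h.σ0]
  have h5 := mul_le_mul_of_nonneg_left h1 hc
  have h6 := mul_le_mul_of_nonneg_left h2 h.σ0
  have h7 := mul_le_mul_of_nonneg_right h.lin (norm_nonneg x)
  have h8 := h.σH
  linarith

theorem rotX_pull_rotc {L : ℝ≥0} {H t c σ : ℝ} (h : Par_rotc L H t c σ) {e : E m}
    (he : ‖e‖ = 1) {f : E m → ℝ} (hf : LipschitzWith L f) (h0 : |f 0| ≤ H) (x : E m)
    (hx : rotX e c σ f x ∈ ball (0 : E m) 4) : x ∈ ball (0 : E m) 8 := by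
  have h1 := rotX_sub_rotc h he hf h0 x
  rw [mem_ball_zero_iff] at hx ⊢
  have h2 := norm_sub_le (rotX e c σ f x) (rotX e c σ f x - x)
  rw [sub_sub_cancel] at h2
  linarith

theorem rotX_push_rotc {L : ℝ≥0} {H t c σ : ℝ} (h : Par_rotc L H t c σ) {e : E m}
    (he : ‖e‖ = 1) {f : E m → ℝ} (hf : LipschitzWith L f) (h0 : |f 0| ≤ H) (x : E m)
    (hx : x ∈ ball (0 : E m) 1) : rotX e c σ f x ∈ ball (0 : E m) 2 := by
  have h1 := rotX_sub_rotc h he hf h0 x
  rw [mem_ball_zero_iff] at hx ⊢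
  have h2 := norm_add_le (rotX e c σ f x - x) x
  rw [sub_add_cancel] at h2
  linarith

theorem num_rotc {L H t c σ : ℝ} (h : Par_rotc L H t c σ) {e : E m} (he : ‖e‖ = 1) (g : E m) :
    ‖g + ((c - 1) * ⟪g, e⟫ - σ) • e‖ ≤ ‖g - t • e‖ ∧
      2 / 3 * ‖g - t • e‖ ≤ ‖g + ((c - 1) * ⟪g, e⟫ - σ) • e‖ := by
  obtain ⟨q, rfl⟩ : ∃ q, g = q + t • e := ⟨g - t • e, (sub_add_cancel _ _).symm⟩
  have hee : ⟪e, e⟫ = 1 := by rw [real_inner_self_eq_norm_sq, he, one_pow]
  have e1 : q + t • e + ((c - 1) * ⟪q + t • e, e⟫ - σ) • e = q + ((c - 1) * ⟪q, e⟫) • e := by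
    rw [add_assoc, ← add_smul, inner_add_left, real_inner_smul_left, hee, h.σeq]
    congr 2
    ring
  rw [e1, add_sub_cancel_right]
  have e2 : ‖q + ((c - 1) * ⟪q, e⟫) • e‖ ^ 2 = ‖q‖ ^ 2 - (1 - c ^ 2) * ⟪q, e⟫ ^ 2 := by
    rw [norm_add_sq_real, real_inner_smul_right, norm_smul, he, mul_one, Real.norm_eq_abs, sq_abs]
    ring
  have h1 : ⟪q, e⟫ ^ 2 ≤ ‖q‖ ^ 2 := by
    have := abs_real_inner_le_norm q e
    rw [he, mul_one] at this
    rw [← sq_abs]
    exact pow_le_pow_left₀ (abs_nonneg _) this 2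
  have h2 : 0 ≤ 1 - c ^ 2 := by nlinarith [h.sq, sq_nonneg σ]
  have h3 : 4 / 9 ≤ c ^ 2 := by nlinarith [h.c0]
  constructor
  · refine le_of_sq_le_sq ?_ (norm_nonneg _)
    rw [e2]
    have := mul_nonneg h2 (sq_nonneg ⟪q, e⟫)
    linarith
  · refine le_of_sq_le_sq ?_ (norm_nonneg _)
    rw [e2]
    have h4 := mul_le_mul_of_nonneg_left h1 h2
    have h5 := mul_le_mul_of_nonneg_right h3 (sq_nonneg ‖q‖)
    nlinarith

theorem intOn_rotc {f : E m → ℝ} {L : ℝ≥0} (hf : LipschitzWith L f) (p c : E m) (r : ℝ) (k : ℕ) :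
    IntegrableOn (fun x => ‖gradient f x - p‖ ^ k) (ball c r) := by
  have := intOn_En (s := ({()} : Finset Unit)) (u := fun _ => f) (fun _ => hf) p c r k
  simpa only [Finset.sum_singleton] using this

theorem sheet2_rotc {L L' : ℝ≥0} {H t c σ : ℝ} (h : Par_rotc L H t c σ) {e : E m}
    (he : ‖e‖ = 1) {f f' : E m → ℝ} (hf : LipschitzWith L f) (hf' : LipschitzWith L' f')
    (h0 : |f 0| ≤ H) (hr : IsRot e c σ f f') :
    ∫ y in ball (0 : E m) 4, ‖gradient f' y - 0‖ ^ 2 ≤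
      8 * ∫ x in ball (0 : E m) 8, ‖gradient f x - t • e‖ ^ 2 := by
  have hpos : 0 < c - σ * L := lt_of_lt_of_le (by norm_num) h.lo
  rw [← integral_indicator measurableSet_ball, ← integral_indicator measurableSet_ball,
    hr.integral hf h.σ0 he hpos
      ((integrable_indicator_iff measurableSet_ball).mpr (intOn_rotc hf' 0 0 4 2)),
    ← integral_const_mul]
  refine integral_mono_of_nonneg (Eventually.of_forall fun x => ?_)
    (((integrable_indicator_iff measurableSet_ball).mpr (intOn_rotc hf _ 0 8 2)).const_mul 8) ?_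
  · have hJ := (rotJ_bounds_rotc h he hf x).1
    exact mul_nonneg (indicator_nonneg (fun _ _ => by positivity) _) (by linarith)
  · filter_upwards [hr.grad] with x hx
    obtain ⟨hJ, -⟩ := rotJ_bounds_rotc h he hf x
    by_cases hb : rotX e c σ f x ∈ ball (0 : E m) 4
    · rw [indicator_of_mem hb, indicator_of_mem (rotX_pull_rotc h he hf h0 x hb), sub_zero,
        hx.2.2, norm_smul, Real.norm_eq_abs]
      have hn := (num_rotc h he (gradient f x)).1
      have hJ0 : 0 < rotJ e c σ f x := by linarith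
      generalize rotJ e c σ f x = J at hJ hJ0
      rw [abs_of_pos (inv_pos.mpr hJ0)]
      have hn0 := norm_nonneg (gradient f x + ((c - 1) * ⟪gradient f x, e⟫ - σ) • e)
      generalize ‖gradient f x + ((c - 1) * ⟪gradient f x, e⟫ - σ) • e‖ = a at hn hn0
      generalize ‖gradient f x - t • e‖ = b at hn
      have h1 : J⁻¹ ≤ 2 := by
        rw [inv_le_comm₀ hJ0 (by norm_num)]
        linarith
      have h2 : (J⁻¹ * a) ^ 2 * J = J⁻¹ * a ^ 2 := by field_simp
      have h3 : a ^ 2 ≤ b ^ 2 := pow_le_pow_left₀ hn0 hn 2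
      have h4 := mul_le_mul_of_nonneg_right h1 (sq_nonneg a)
      have h5 := sq_nonneg b
      rw [h2]
      linarith
    · rw [indicator_of_notMem hb, zero_mul]
      exact mul_nonneg (by norm_num) (indicator_nonneg (fun _ _ => by positivity) _)

theorem sheet3_rotc {L L' : ℝ≥0} {H t c σ : ℝ} (h : Par_rotc L H t c σ) {e : E m}
    (he : ‖e‖ = 1) {f f' : E m → ℝ} (hf : LipschitzWith L f) (hf' : LipschitzWith L' f')
    (h0 : |f 0| ≤ H) (hr : IsRot e c σ f f') :
    ∫ x in ball (0 : E m) 1, ‖gradient f x - t • e‖ ^ 3 ≤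
      100 * ∫ y in ball (0 : E m) 2, ‖gradient f' y - 0‖ ^ 3 := by
  have hpos : 0 < c - σ * L := lt_of_lt_of_le (by norm_num) h.lo
  have hΦ : Measurable (rotX e c σ f) := by
    have := hf.continuous
    refine Continuous.measurable ?_
    unfold rotX
    fun_prop
  have hJm : Measurable (rotJ e c σ f) :=
    measurable_const.add (measurable_const.mul ((meas_grad f).inner measurable_const))
  have hgm : Measurable ((ball (0 : E m) 2).indicator fun y => ‖gradient f' y - 0‖ ^ 3) :=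
    ((((meas_grad f').sub measurable_const).norm).pow_const 3).indicator measurableSet_ball
  have hint : Integrable fun x => (ball (0 : E m) 2).indicator
      (fun y => ‖gradient f' y - 0‖ ^ 3) (rotX e c σ f x) * rotJ e c σ f x := by
    refine int_of_compact ((hgm.comp hΦ).mul hJm).aestronglyMeasurable
      (isCompact_closedBall (0 : E m) 8) (C := L' ^ 3 * (5 / 4))
      (Eventually.of_forall fun x _ => ?_) (Eventually.of_forall fun x hx => ?_)
    · obtain ⟨hJ, hJ'⟩ := rotJ_bounds_rotc h he hf x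
      rw [norm_mul]
      refine mul_le_mul ?_ ?_ (norm_nonneg _) (by positivity)
      · refine (norm_indicator_le_norm_self _ _).trans ?_
        rw [norm_pow, norm_norm, sub_zero]
        exact pow_le_pow_left₀ (norm_nonneg _) (norm_grad_le hf' _) 3
      · rw [Real.norm_eq_abs, abs_of_nonneg (by linarith)]
        exact hJ'
    · rw [indicator_of_notMem, zero_mul]
      intro hb
      exact hx (ball_subset_closedBall
        (rotX_pull_rotc h he hf h0 x (ball_subset_ball (by norm_num) hb)))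
  rw [← integral_indicator measurableSet_ball, ← integral_indicator measurableSet_ball,
    hr.integral hf h.σ0 he hpos
      ((integrable_indicator_iff measurableSet_ball).mpr (intOn_rotc hf' 0 0 2 3)),
    ← integral_const_mul]
  refine integral_mono_of_nonneg (Eventually.of_forall fun x => ?_) (hint.const_mul 100) ?_
  · exact indicator_nonneg (fun _ _ => by positivity) _
  · filter_upwards [hr.grad] with x hx
    obtain ⟨hJ, hJ'⟩ := rotJ_bounds_rotc h he hf x
    by_cases hb : x ∈ ball (0 : E m) 1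
    · rw [indicator_of_mem hb, indicator_of_mem (rotX_push_rotc h he hf h0 x hb), sub_zero,
        hx.2.2, norm_smul, Real.norm_eq_abs]
      have hn := (num_rotc h he (gradient f x)).2
      have hJ0 : 0 < rotJ e c σ f x := by linarith
      generalize rotJ e c σ f x = J at hJ hJ' hJ0
      rw [abs_of_pos (inv_pos.mpr hJ0)]
      have hb0 := norm_nonneg (gradient f x - t • e)
      generalize ‖gradient f x + ((c - 1) * ⟪gradient f x, e⟫ - σ) • e‖ = a at hn
      generalize ‖gradient f x - t • e‖ = b at hn hb0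
      have h1 : 4 / 5 ≤ J⁻¹ := by
        rw [le_inv_comm₀ (by norm_num) hJ0]
        linarith
      have h2 : (J⁻¹ * a) ^ 3 * J = J⁻¹ ^ 2 * a ^ 3 := by field_simp
      have h3 : (2 / 3 * b) ^ 3 ≤ a ^ 3 := pow_le_pow_left₀ (by positivity) hn 3
      have h4 : (4 / 5) ^ 2 ≤ J⁻¹ ^ 2 := pow_le_pow_left₀ (by norm_num) h1 2
      have h5 : 0 ≤ b ^ 3 := by positivity
      have h6 := mul_le_mul h4 h3 (by positivity) (by positivity)
      rw [h2]
      linarith
    · rw [indicator_of_notMem hb]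
      exact mul_nonneg (by norm_num)
        (mul_nonneg (indicator_nonneg (fun _ _ => by positivity) _) (by linarith))

theorem unit_rotc (m : ℕ) (L : ℝ≥0) : ∃ L' : ℝ≥0, ∀ H : ℝ, 0 ≤ H →
    ∀ (s : Finset ι) (u : ι → E m → ℝ), (∀ i, LipschitzWith L (u i)) →
      ∀ p : E m, ‖p‖ * (1 + L) ≤ 1 / 4 → ‖p‖ * H ≤ 1 / 2 → (∀ i ∈ s, |u i 0| ≤ H) →
        Stat s u (ball 0 8) →
        ∃ u' : ι → E m → ℝ, (∀ i, LipschitzWith L' (u' i)) ∧ Stat s u' (ball 0 4) ∧
          En s u' 0 0 4 ≤ 8 * En s u p 0 8 ∧ En3 s u p 0 1 ≤ 100 * En3 s u' 0 0 2 := by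
  obtain ⟨L₀, hL₀⟩ := exists_rot (m := m) L (δ := 1 / 2) (by norm_num)
  refine ⟨max L L₀, fun H hH s u hu p hp1 hp2 h0 hst => ?_⟩
  by_cases hp : p = 0
  · subst hp
    refine ⟨u, fun i => (hu i).weaken (le_max_left _ _),
      hst.mono (ball_subset_ball (by norm_num)), ?_, ?_⟩
    · have h1 : En s u 0 0 4 ≤ En s u 0 0 8 := En_mono hu 0 (ball_subset_ball (by norm_num))
      have h2 := En_nonneg s u 0 0 8
      linarith
    · have h1 : En3 s u 0 0 1 ≤ En3 s u 0 0 2 := En3_mono hu 0 (ball_subset_ball (by norm_num))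
      have h2 : 0 ≤ En3 s u 0 0 2 :=
        integral_nonneg fun x => Finset.sum_nonneg fun i _ => by positivity
      linarith
  · have hp0 : ‖p‖ ≠ 0 := norm_ne_zero_iff.mpr hp
    obtain ⟨c, σ, h⟩ := par_rotc L.coe_nonneg hH (norm_nonneg p) hp1 hp2
    have he : ‖‖p‖⁻¹ • p‖ = 1 := norm_smul_inv_norm (𝕜 := ℝ) hp
    have hpe : p = ‖p‖ • ‖p‖⁻¹ • p := (smul_inv_smul₀ hp0 p).symm
    generalize ‖p‖⁻¹ • p = e at he hpe
    generalize ‖p‖ = t at h hpe
    subst hpe
    have hpos : 0 < c - σ * L := lt_of_lt_of_le (by norm_num) h.lo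
    choose u' hu' hrot hinv using fun i => hL₀ e c σ he h.sq h.σ0 h.lo (u i) (hu i)
    refine ⟨u', fun i => (hu' i).weaken (le_max_right _ _),
      Stat.rot hu hu' he h.sq h.σ0 hpos hrot hinv hst
        fun i hi x hx => rotX_pull_rotc h he (hu i) (h0 i hi) x hx, ?_, ?_⟩
    · unfold En
      rw [integral_finsetSum _ fun i _ => intOn_rotc (hu' i) 0 0 4 2,
        integral_finsetSum _ fun i _ => intOn_rotc (hu i) _ 0 8 2, Finset.mul_sum]
      exact Finset.sum_le_sum fun i hi => sheet2_rotc h he (hu i) (hu' i) (h0 i hi) (hrot i)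
    · unfold En3
      rw [integral_finsetSum _ fun i _ => intOn_rotc (hu' i) 0 0 2 3,
        integral_finsetSum _ fun i _ => intOn_rotc (hu i) _ 0 1 3, Finset.mul_sum]
      exact Finset.sum_le_sum fun i hi => sheet3_rotc h he (hu i) (hu' i) (h0 i hi) (hrot i)

theorem rot_cluster (m : ℕ) (L : ℝ≥0) : ∃ L' : ℝ≥0, ∀ H : ℝ, 0 ≤ H → ∃ p₁ > 0,
    ∀ (s : Finset ι) (u : ι → E m → ℝ), (∀ i, LipschitzWith L (u i)) →
      ∀ (c p : E m) (z r : ℝ), 0 < r → ‖p‖ ≤ p₁ → (∀ i ∈ s, |u i c - z| ≤ H * r) →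
        Stat s u (ball c (8 * r)) →
        ∃ u' : ι → E m → ℝ, (∀ i, LipschitzWith L' (u' i)) ∧ Stat s u' (ball 0 4) ∧
          En s u' 0 0 4 ≤ 8 * (En s u p c (8 * r) / r ^ m) ∧
          En3 s u p c r / r ^ m ≤ 100 * En3 s u' 0 0 2 := by
  obtain ⟨L', hL'⟩ := unit_rotc (ι := ι) m L
  have hL0 : (0 : ℝ) ≤ L := L.coe_nonneg
  refine ⟨L', fun H hH => ⟨1 / (4 * ((1 + L) * (1 + H))), by positivity,
    fun s u hu c p z r hr hp h0 hst => ?_⟩⟩
  rw [le_div_iff₀ (by positivity)] at hp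
  have hn := norm_nonneg p
  have h1 : 0 ≤ ‖p‖ * L := mul_nonneg hn hL0
  have h2 : 0 ≤ ‖p‖ * H := mul_nonneg hn hH
  have h3 : 0 ≤ ‖p‖ * (L * H) := mul_nonneg hn (mul_nonneg hL0 hH)
  have hs := hst.scale hu z hr
  rw [mul_div_cancel_right₀ _ hr.ne'] at hs
  obtain ⟨u', ha, hb, hc, hd⟩ := hL' H hH s _ (fun i => lip_scale (hu i) c z hr) p
    (by linarith) (by linarith) (fun i hi => by
      rw [smul_zero, add_zero, abs_div, abs_of_pos hr, div_le_iff₀ hr]
      exact h0 i hi) hs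
  rw [(En_scale s u p c z hr 8).1, mul_comm r 8] at hc
  rw [(En_scale s u p c z hr 1).2, mul_one] at hd
  exact ⟨u', ha, hb, hc, hd⟩

end Pool.Agent.Lib.MP_8daebb_an.LG
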