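import Pool.Agent.Lib.MP_8daebb_an.LG.RH
import Pool.Agent.Lib.MP_8daebb_an.LG.Geh
import Pool.Agent.Lib.MP_8daebb_an.LG.RotC

open MeasureTheory Metric Set Filter Topology
open scoped RealInnerProductSpace NNReal

namespace Pool.Agent.Lib.MP_8daebb_an.LG

variable {m : ℕ} {ι : Type}

/-! TG. Higher integrability relative to horizontal and to tilted planes. -/

theorem cube_le_tg (s : Finset ι) (a : ι → ℝ) (ha : ∀ i, 0 ≤ a i) :
    ∑ i ∈ s, a i ^ 3 ≤ √(∑ i ∈ s, a i ^ 2) ^ 3 := by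
  have h0 : 0 ≤ ∑ i ∈ s, a i ^ 2 := Finset.sum_nonneg fun i _ => sq_nonneg _
  rw [pow_succ _ 2, Real.sq_sqrt h0, Finset.sum_mul]
  refine Finset.sum_le_sum fun i hi => ?_
  rw [pow_succ _ 2]
  exact mul_le_mul_of_nonneg_left (Real.le_sqrt_of_sq_le
    (Finset.single_le_sum (f := fun i => a i ^ 2) (fun i _ => sq_nonneg _) hi)) (sq_nonneg _)

theorem split_tg [DecidableEq ι] {s J : Finset ι} {u : ι → E m → ℝ} {L : ℝ≥0}
    (h : ∀ i, LipschitzWith L (u i)) (hJ : J ⊆ s) (p c : E m) (r : ℝ) :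
    En3 s u p c r = En3 J u p c r + En3 (s \ J) u p c r := by
  rw [En3, En3, En3, ← integral_add (intOn_En h p c r 3) (intOn_En h p c r 3)]
  refine integral_congr_ae (Eventually.of_forall fun x => ?_)
  exact (Finset.sum_sdiff hJ).symm.trans (add_comm _ _)

theorem flat_gehring [DecidableEq ι] (m Q : ℕ) (L : ℝ≥0) :
    ∃ γ : ℝ, 0 < γ ∧ γ ≤ 1 / 4 ∧ ∃ C > 0, ∀ (s : Finset ι) (u : ι → E m → ℝ), s.card ≤ Q →
      (∀ i, LipschitzWith L (u i)) → ∀ (c : E m) (R η : ℝ), 0 < R → 0 < η →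
        Stat s u (ball c (2 * R)) → En s u 0 c (2 * R) ≤ η * R ^ m →
          En3 s u 0 c R ≤ C * η ^ γ * η * R ^ m := by
  obtain ⟨Λ, hΛ, K, hK, hRH⟩ := rev_hoelder (ι := ι) m Q L
  obtain ⟨γ, hγ, hγ', C, hC, hG⟩ := gehring m (L := √Q * L + 1) hK hΛ (by positivity)
  refine ⟨γ, hγ, hγ', C, hC, fun s u hs hu c R η hR hη hst hen => ?_⟩
  set f : E m → ℝ := fun x => √(∑ i ∈ s, ‖gradient (u i) x - 0‖ ^ 2) with hf
  have hfm : Measurable f := (Finset.measurable_sum _ fun i _ =>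
    ((meas_grad (u i)).sub measurable_const).norm.pow_const 2).sqrt
  have hf0 : ∀ x, 0 ≤ f x := fun x => Real.sqrt_nonneg _
  have hf2 : ∀ x, f x ^ 2 = ∑ i ∈ s, ‖gradient (u i) x - 0‖ ^ 2 := fun x =>
    Real.sq_sqrt (Finset.sum_nonneg fun i _ => sq_nonneg _)
  have hfb : ∀ x, f x ≤ √Q * L + 1 := fun x => by
    have h1 : ∑ i ∈ s, ‖gradient (u i) x - 0‖ ^ 2 ≤ (√Q * L) ^ 2 := by
      rw [mul_pow, Real.sq_sqrt (Nat.cast_nonneg Q)]
      refine (Finset.sum_le_card_nsmul s _ ((L : ℝ) ^ 2) fun i _ => ?_).trans ?_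
      · rw [sub_zero]
        exact pow_le_pow_left₀ (norm_nonneg _) (norm_grad_le (hu i) x) 2
      · rw [nsmul_eq_mul]
        exact mul_le_mul_of_nonneg_right (Nat.cast_le.2 hs) (sq_nonneg _)
    have h2 : f x ≤ √Q * L := Real.sqrt_le_iff.2 ⟨by positivity, h1⟩
    linarith
  have hEn : ∀ (x : E m) (r : ℝ), ∫ y in ball x r, f y ^ 2 = En s u 0 x r := fun x r => by
    simp only [hf2, En]
  refine le_trans ?_ (hG f hfm hf0 hfb c R η hR hη (fun x r hr hb => ?_) (by rwa [hEn]))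
  · refine setIntegral_mono (intOn_En hu 0 c R 3) (intOn_ball (C := (√Q * L + 1) ^ 3)
      (hfm.pow_const 3).aestronglyMeasurable (Eventually.of_forall fun x _ => ?_))
      fun x => cube_le_tg s _ fun i => norm_nonneg _
    rw [Real.norm_of_nonneg (pow_nonneg (hf0 x) 3)]
    exact pow_le_pow_left₀ (hf0 x) (hfb x) 3
  · rw [hEn, hEn]
    exact hRH s u hs hu x r hr (hst.mono hb)

theorem tilt_gehring [DecidableEq ι] (m Q : ℕ) (L : ℝ≥0) :
    ∃ γ : ℝ, 0 < γ ∧ γ ≤ 1 / 4 ∧ ∃ p₀ > 0, ∃ C > 0, ∀ (s : Finset ι) (u : ι → E m → ℝ),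
      s.card ≤ Q → (∀ i, LipschitzWith L (u i)) → ∀ (c p : E m) (r η : ℝ), 0 < r → 0 < η →
        ‖p‖ ≤ p₀ → Stat s u (ball c (8 * r)) → En s u p c (8 * r) ≤ η * r ^ m →
          En3 s u p c r ≤ C * η ^ γ * η * r ^ m := by
  obtain ⟨L', hrot⟩ := rot_cluster (ι := ι) m L
  obtain ⟨p₀, hp₀, hrot⟩ := hrot (Q * (16 * L)) (by positivity)
  obtain ⟨γ, hγ, hγ', C, hC, hG⟩ := flat_gehring (ι := ι) m Q L'
  refine ⟨γ, hγ, hγ', p₀, hp₀, (Q + 1) * (100 * (C * 8 ^ γ * 8 * 2 ^ m)), by positivity,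
    fun s u hs hu c p r η hr hη hp hst hen => ?_⟩
  have hpos : 0 < 100 * (C * 8 ^ γ * 8 * 2 ^ m) * η ^ γ * η * r ^ m := by positivity
  have key : ∀ t : Finset ι, t.card ≤ Q → Stat t u (ball c (8 * r)) →
      En t u p c (8 * r) ≤ η * r ^ m →
      En3 t u p c r ≤ t.card * (100 * (C * 8 ^ γ * 8 * 2 ^ m) * η ^ γ * η * r ^ m) := by
    intro t
    induction t using Finset.strongInduction with
    | H t ih =>
      intro ht hst hen
      by_cases h : ∀ J ⊆ t, J.Nonempty → J ≠ t → ∃ i ∈ J, ∃ j ∈ t \ J,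
          |u i c - u j c| ≤ 16 * L * r
      · rcases t.eq_empty_or_nonempty with rfl | ⟨i₀, hi₀⟩
        · simp [En3]
        have hch := chain_bound t (fun i => u i c) (by positivity) h
        obtain ⟨u', hu', hst', hen', h3⟩ := hrot t u hu c p (u i₀ c) r hr hp (fun i hi =>
          (hch i hi i₀ hi₀).trans (by
            have : (t.card : ℝ) ≤ Q := Nat.cast_le.2 ht
            rw [mul_assoc (Q : ℝ)]
            gcongr)) hst
        have hrm : 0 < r ^ m := by positivity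
        have h4 := hG t u' ht hu' 0 2 (8 * η) two_pos (by positivity)
          (by rwa [show (2 : ℝ) * 2 = 4 by norm_num]) (by
            rw [show (2 : ℝ) * 2 = 4 by norm_num]
            have h5 : En t u p c (8 * r) / r ^ m ≤ η := (div_le_iff₀ hrm).2 hen
            have h6 : (1 : ℝ) ≤ 2 ^ m := one_le_pow₀ one_le_two
            nlinarith)
        rw [Real.mul_rpow (by norm_num) hη.le] at h4
        have h7 : En3 t u p c r ≤ 100 * (C * 8 ^ γ * 8 * 2 ^ m) * η ^ γ * η * r ^ m := by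
          refine (div_le_iff₀ hrm).1 (h3.trans ?_)
          linarith
        have h8 : (1 : ℝ) ≤ t.card := by exact_mod_cast Finset.card_pos.2 ⟨i₀, hi₀⟩
        exact h7.trans (le_mul_of_one_le_left hpos.le h8)
      · push Not at h
        obtain ⟨J, hJ, hne, hJt, hsep⟩ := h
        have hsep' : ∀ i ∈ J, ∀ j ∈ t \ J, ∀ x ∈ ball c (8 * r), u i x ≠ u j x := by
          intro i hi j hj x hx e
          have h1 := hsep i hi j hj
          have hd : (L : ℝ) * dist x c ≤ L * (8 * r) :=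
            mul_le_mul_of_nonneg_left (mem_ball.1 hx).le L.coe_nonneg
          have h2 := abs_le.1 (((hu i).dist_le_mul x c).trans hd)
          have h3 := abs_le.1 (((hu j).dist_le_mul x c).trans hd)
          refine absurd h1 (not_lt.2 (abs_le.2 ⟨?_, ?_⟩)) <;> linarith [h2.1, h2.2, h3.1, h3.2]
        have h1 := ih J (Finset.ssubset_iff_subset_ne.2 ⟨hJ, hJt⟩)
          ((Finset.card_le_card hJ).trans ht) (hst.split hu hJ hsep')
          ((En_subset hu hJ p c _).trans hen)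
        have h2 := ih (t \ J) (Finset.sdiff_ssubset hJ hne)
          ((Finset.card_le_card Finset.sdiff_subset).trans ht)
          (hst.split hu Finset.sdiff_subset fun i hi j hj x hx =>
            (hsep' j (by rwa [Finset.sdiff_sdiff_eq_self hJ] at hj) i hi x hx).symm)
          ((En_subset hu Finset.sdiff_subset p c _).trans hen)
        have h3 : (t.card : ℝ) = J.card + (t \ J).card := by
          rw [← Finset.card_sdiff_add_card_eq_card hJ]
          push_cast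
          ring
        rw [split_tg hu hJ, h3, add_mul]
        exact add_le_add h1 h2
  refine (key s hs hst hen).trans ?_
  have h1 : (s.card : ℝ) ≤ Q + 1 := by exact_mod_cast hs.trans (Nat.le_succ Q)
  refine (mul_le_mul_of_nonneg_right h1 hpos.le).trans (le_of_eq ?_)
  ring

end Pool.Agent.Lib.MP_8daebb_an.LG
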