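import Pool.Agent.Lib.MP_8daebb_an.LG.Iter
import Pool.Agent.Lib.MP_8daebb_an.LG.TG

open MeasureTheory Metric Set Filter Topology
open scoped RealInnerProductSpace NNReal

namespace Pool.Agent.Lib.MP_8daebb_an.LG

variable {m : ℕ} {ι : Type}

/-! SUP. The superlinear estimate for the separation. -/

theorem ball_sup {x : E m} {a b s : ℝ} (hx : x ∈ ball (0 : E m) a) (h : a + s ≤ b) :
    ball x s ⊆ ball 0 b :=
  ball_subset_ball' (by linarith [mem_ball.1 hx])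

theorem locInt_sup [Fintype ι] {u : ι → E m → ℝ} {L : ℝ≥0} (h : ∀ i, LipschitzWith L (u i))
    (k : ℕ) : LocallyIntegrable fun x => ∑ i, ‖gradient (vv u i) x - 0‖ ^ k := fun x =>
  ⟨ball x 1, ball_mem_nhds x one_pos, intOn_En (lip_vv h) 0 x 1 k⟩

/-- Large scales are good. -/
theorem large_sup [Fintype ι] {u : ι → E m → ℝ} {L : ℝ≥0} (h : ∀ i, LipschitzWith L (u i))
    {ε r l θ τ : ℝ} (hε : 0 < ε) (hθ : 0 < θ) (hθ1 : θ ≤ 1) (hτ : θ ≤ τ) (hG : Good ε u r l)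
    {x : E m} (hx : x ∈ ball (0 : E m) (r + 2 * l)) {i : ℕ} (hi : l ≤ θ ^ i / 3) :
    Sep u x (θ ^ i / 3) < (2 * 3 ^ (m + 2) * ε) ^ 2 * (θ ^ i / 3) ^ (m + 2) * τ ^ i := by
  have h0 : 0 < θ ^ i := pow_pos hθ i
  have h1 : Sep u x (θ ^ i / 3) ≤ DD u (r + θ ^ i) :=
    En_mono (lip_vv h) 0 (ball_sup hx (by linarith))
  have h2 := hG (θ ^ i) ⟨by linarith, pow_le_one₀ hθ.le hθ1⟩
  have h3 : θ ^ i ≤ τ ^ i := pow_le_pow_left₀ hθ.le hτ i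
  have h4 : (1 : ℝ) ≤ 3 ^ (m + 2) := one_le_pow₀ (by norm_num)
  have h5 : (θ ^ i) ^ (m + 3) = 3 ^ (m + 2) * (θ ^ i / 3) ^ (m + 2) * θ ^ i := by
    rw [← mul_pow, pow_succ _ (m + 2)]
    congr 2
    ring
  have h6 : 0 < ε ^ 2 * (θ ^ i / 3) ^ (m + 2) := by positivity
  refine (h1.trans h2).trans_lt ?_
  rw [h5]
  calc ε ^ 2 * (3 ^ (m + 2) * (θ ^ i / 3) ^ (m + 2) * θ ^ i)
      = ε ^ 2 * (θ ^ i / 3) ^ (m + 2) * (3 ^ (m + 2) * θ ^ i) := by ring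
    _ < ε ^ 2 * (θ ^ i / 3) ^ (m + 2) * ((2 * 3 ^ (m + 2)) ^ 2 * τ ^ i) := by
      refine mul_lt_mul_of_pos_left ?_ h6
      refine mul_lt_mul ?_ h3 h0 (by positivity)
      nlinarith
    _ = _ := by ring

/-- Points where all scales are good carry no separation energy. -/
theorem null_sup [Fintype ι] {u : ι → E m → ℝ} {L : ℝ≥0} (h : ∀ i, LipschitzWith L (u i))
    {A θ τ : ℝ} (hθ : 0 < θ) (hθ1 : θ < 1) (hτ0 : 0 ≤ τ) (hτ : τ ≤ 1) (hA : 0 ≤ A) :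
    ∀ᵐ x, (∀ j : ℕ, Sep u x (θ ^ j / 3) < A * (θ ^ j / 3) ^ (m + 2) * τ ^ j) →
      ∑ i, ‖gradient (vv u i) x - 0‖ ^ 3 = 0 := by
  filter_upwards [ae_lebesgue (locInt_sup h 2)] with x hx hj
  have h1 : Tendsto (fun j : ℕ => θ ^ j / 3) atTop (𝓝 0) := by
    simpa using (tendsto_pow_atTop_nhds_zero_of_lt_one hθ.le hθ1).div_const 3
  have h2 : Tendsto (fun j : ℕ => θ ^ j / 3) atTop (𝓝[>] 0) :=
    tendsto_nhdsWithin_iff.2 ⟨h1, Eventually.of_forall fun j => by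
      simp only [mem_Ioi]
      positivity⟩
  have h3 : Tendsto (fun j : ℕ => A * (θ ^ j / 3) ^ 2) atTop (𝓝 0) := by
    simpa using (h1.pow 2).const_mul A
  have h4 := le_of_tendsto_of_tendsto' (hx.comp h2) h3 fun j => by
    have h5 : 0 < θ ^ j / 3 := by positivity
    refine (div_le_iff₀ (pow_pos h5 m)).2 ((hj j).le.trans ?_)
    have h6 : τ ^ j ≤ 1 := pow_le_one₀ hτ0 hτ
    calc A * (θ ^ j / 3) ^ (m + 2) * τ ^ j ≤ A * (θ ^ j / 3) ^ (m + 2) * 1 := by gcongr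
      _ = _ := by ring
  have h7 : ∑ i, ‖gradient (vv u i) x - 0‖ ^ 2 = 0 :=
    le_antisymm (nonpos_of_mul_nonpos_right h4 (vb_pos m))
      (Finset.sum_nonneg fun i _ => by positivity)
  refine Finset.sum_eq_zero fun i hi => ?_
  have h8 := (Finset.sum_eq_zero_iff_of_nonneg fun i _ => by positivity).1 h7 i hi
  rw [pow_succ, h8, zero_mul]

/-- The excess relative to a good slope at the last good scale. -/
theorem slope_sup [Fintype ι] [Nonempty ι] (m : ℕ) (L : ℝ≥0) : ∃ θ : ℝ, 0 < θ ∧ θ ≤ 1 / 8 ∧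
    ∀ τ : ℝ, θ ≤ τ → τ < 1 → ∃ ε₁ > 0, ∃ C > 0, ∀ (u : ι → E m → ℝ) (ε e : ℝ), 0 ≤ ε → ε ≤ e →
      e ≤ ε₁ → Setting L ε u → ∀ x ∈ ball (0 : E m) (1 / 2), ∀ j : ℕ,
        (∀ i ≤ j, Sep u x (θ ^ i / 3) ≤ e ^ 2 * (θ ^ i / 3) ^ (m + 2) * τ ^ i) →
        ∃ p : E m, ‖p‖ ≤ C * e ∧
          En Finset.univ u p x (θ ^ j / 3) ≤ C * e ^ 2 * (θ ^ j / 3) ^ (m + 2) := by
  obtain ⟨θ, hθ, hθ8, H⟩ := iter m (L₁ := (L : ℝ) + 1) (by simp)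
  refine ⟨θ, hθ, hθ8, fun τ hτ hτ1 => ?_⟩
  obtain ⟨ε₁, hε₁, C, hC, H⟩ := H τ hτ hτ1
  refine ⟨ε₁, hε₁, C + 2 * Fintype.card ι * C + 2, by positivity,
    fun u ε e hε hεe he hu x hx j hj => ?_⟩
  have he0 : 0 ≤ e := hε.trans hεe
  obtain ⟨p, hp, hp2⟩ := H (wav u) (lip_wav hu.lip).locallyLipschitz x e j he0 he
    (((wav_le_En hu.lip x _).trans (En_mono hu.lip 0 (ball_sup hx (by norm_num)))).trans
      (hu.en.trans (pow_le_pow_left₀ hε hεe 2))) (fun i hi => by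
      have h1 : θ ^ i ≤ 1 := pow_le_one₀ hθ.le (by linarith)
      refine ⟨Xi u, memLp_bdd (C := 1) (meas_Xi u).aestronglyMeasurable
        (Eventually.of_forall fun y _ => norm_Xi_le u y),
        (hu.stat.mono (ball_sup hx (by linarith))).divFree_Xi, le_trans ?_ (hj i hi.le)⟩
      exact integral_mono_of_nonneg (Eventually.of_forall fun y => by positivity)
        (intOn_En (lip_vv hu.lip) 0 x _ 2)
        (ae_restrict_of_ae ((ae_Xi_sub hu.lip).mono fun y hy => hy.1)))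
  have hq : (0 : ℝ) ≤ Fintype.card ι := Nat.cast_nonneg _
  refine ⟨p, hp.trans (mul_le_mul_of_nonneg_right (by nlinarith) he0), ?_⟩
  have h1 := En_le_wav hu.lip p x (θ ^ j / 3)
  have h2 : τ ^ j ≤ 1 := pow_le_one₀ (hθ.le.trans hτ) hτ1.le
  have h3 : 0 ≤ e ^ 2 * (θ ^ j / 3) ^ (m + 2) := by positivity
  have h4 := (hj j le_rfl).trans (mul_le_of_le_one_right h3 h2)
  have h5 := mul_le_mul_of_nonneg_left hp2 (by positivity : (0 : ℝ) ≤ 2 * Fintype.card ι)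
  nlinarith [mul_nonneg hC.le h3]

/-- The cubic energy at the first bad scale. -/
theorem stop_sup [Fintype ι] [Nonempty ι] (m : ℕ) (L : ℝ≥0) : ∃ γ θ : ℝ, 0 < γ ∧ γ ≤ 1 ∧ 0 < θ ∧
    θ ≤ 1 / 8 ∧ ∃ ε₁ > 0, ∃ C > 0, ∀ (u : ι → E m → ℝ) (ε e : ℝ), 0 < ε → ε ≤ e →
      e ≤ ε₁ → Setting L ε u → ∀ x ∈ ball (0 : E m) (1 / 2), ∀ j : ℕ,
        (∀ i ≤ j, Sep u x (θ ^ i / 3) ≤ e ^ 2 * (θ ^ i / 3) ^ (m + 2) * (θ ^ γ) ^ i) →
        En3 Finset.univ (vv u) 0 x (6 * (θ ^ (j + 2) / 3)) ≤ C * (θ ^ (j + 2) / 3) ^ γ *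
          (e ^ 2 * (θ ^ (j + 2) / 3) ^ (m + 2) * (θ ^ γ) ^ (j + 2)) := by
  classical
  obtain ⟨θ, hθ, hθ8, H⟩ := slope_sup (ι := ι) m L
  obtain ⟨γ, hγ, hγ4, p₀, hp₀, CT, hCT, HT⟩ := tilt_gehring (ι := ι) m (Fintype.card ι) L
  have hθ1 : θ < 1 := by linarith
  obtain ⟨ε₁, hε₁, C, hC, H⟩ := H (θ ^ γ)
    (by simpa using Real.rpow_le_rpow_of_exponent_ge hθ hθ1.le (by linarith : γ ≤ 1))
    (Real.rpow_lt_one hθ.le hθ1 hγ)
  obtain ⟨C₂, hC₂⟩ : ∃ C₂, C₂ = C / (θ ^ 2) ^ (m + 2) := ⟨_, rfl⟩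
  have hC₂0 : 0 < C₂ := by rw [hC₂]; positivity
  refine ⟨γ, θ, hγ, by linarith, hθ, hθ8, min ε₁ (p₀ / C), by positivity,
    8 * CT * (C₂ * ε₁ ^ 2) ^ γ * C₂ * 6 ^ m, by positivity,
    fun u ε e hε hεe he hu x hx j hj => ?_⟩
  have he0 : 0 < e := hε.trans_le hεe
  have he1 : e ≤ ε₁ := he.trans (min_le_left _ _)
  obtain ⟨p, hp, hp2⟩ := H u ε e hε.le hεe he1 hu x hx j hj
  have hp0 : ‖p‖ ≤ p₀ := by
    refine hp.trans ?_
    rw [mul_comm, ← le_div_iff₀ hC]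
    exact he.trans (min_le_right _ _)
  obtain ⟨s, hs⟩ : ∃ s, s = θ ^ (j + 2) / 3 := ⟨_, rfl⟩
  have hs0 : 0 < s := by rw [hs]; positivity
  have h1 : θ ^ j / 3 = s / θ ^ 2 := by
    rw [hs, pow_add]
    field_simp
  have h2 : θ ^ j ≤ 1 := pow_le_one₀ hθ.le hθ1.le
  have h3 : 8 * (6 * s) ≤ θ ^ j / 3 := by
    rw [h1, le_div_iff₀ (by positivity)]
    have : θ ^ 2 ≤ 1 / 64 := by nlinarith
    nlinarith
  have h4 : En Finset.univ u p x (8 * (6 * s)) ≤ C₂ * e ^ 2 * s ^ 2 * (6 * s) ^ m := by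
    refine ((En_mono hu.lip p (ball_subset_ball h3)).trans hp2).trans ?_
    have h5 : s ^ m ≤ (6 * s) ^ m := pow_le_pow_left₀ hs0.le (by linarith) m
    calc C * e ^ 2 * (θ ^ j / 3) ^ (m + 2) = C₂ * e ^ 2 * s ^ 2 * s ^ m := by
          rw [h1, hC₂, div_pow]
          ring
      _ ≤ _ := by gcongr
  have h6 := HT Finset.univ u le_rfl hu.lip x p (6 * s) (C₂ * e ^ 2 * s ^ 2) (by positivity)
    (by positivity) hp0 (hu.stat.mono (ball_sup hx (by linarith))) h4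
  have h7 : s ^ γ ≤ (θ ^ γ) ^ (j + 2) := by
    rw [← Real.rpow_natCast, ← Real.rpow_mul hθ.le, mul_comm, Real.rpow_mul hθ.le,
      Real.rpow_natCast]
    refine Real.rpow_le_rpow hs0.le ?_ hγ.le
    rw [hs]
    linarith [pow_pos hθ (j + 2)]
  have h8 : (C₂ * e ^ 2 * s ^ 2) ^ γ ≤ (C₂ * ε₁ ^ 2) ^ γ * (s ^ γ * (θ ^ γ) ^ (j + 2)) := by
    rw [Real.mul_rpow (by positivity) (by positivity), sq s, Real.mul_rpow hs0.le hs0.le]
    gcongr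
  rw [← hs]
  refine (En3_vv_le hu.lip p x _).trans ?_
  calc 8 * En3 Finset.univ u p x (6 * s)
      ≤ 8 * (CT * (C₂ * e ^ 2 * s ^ 2) ^ γ * (C₂ * e ^ 2 * s ^ 2) * (6 * s) ^ m) := by gcongr
    _ ≤ 8 * (CT * ((C₂ * ε₁ ^ 2) ^ γ * (s ^ γ * (θ ^ γ) ^ (j + 2))) * (C₂ * e ^ 2 * s ^ 2) *
        (6 * s) ^ m) := by gcongr
    _ = _ := by
      rw [mul_pow 6 s m]
      ring

theorem superlinear [Fintype ι] [Nonempty ι] (m : ℕ) (L : ℝ≥0) :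
    ∃ γ : ℝ, 0 < γ ∧ γ ≤ 1 ∧ ∃ ε₀ > 0, ∃ l₀ > 0, ∃ C > 0, ∀ (u : ι → E m → ℝ) (ε : ℝ), 0 < ε →
      ε ≤ ε₀ → Setting L ε u → ∀ r l : ℝ, 0 < l → l ≤ r → r ≤ 1 / 16 → l ≤ l₀ → Good ε u r l →
        En3 Finset.univ (vv u) 0 0 (r + 2 * l) ≤ C * l ^ γ * DD u (r + 3 * l) := by
  classical
  obtain ⟨γ, θ, hγ, hγ1, hθ, hθ8, ε₁, hε₁, C, hC, H⟩ := stop_sup (ι := ι) m L
  have hθ1 : θ < 1 := by linarith
  have hK : (1 : ℝ) ≤ 2 * 3 ^ (m + 2) := by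
    have : (1 : ℝ) ≤ 3 ^ (m + 2) := one_le_pow₀ (by norm_num)
    linarith
  have hτ : θ ≤ θ ^ γ := by simpa using Real.rpow_le_rpow_of_exponent_ge hθ hθ1.le hγ1
  refine ⟨γ, hγ, hγ1, ε₁ / (2 * 3 ^ (m + 2)), by positivity, θ / 3, by positivity, C, hC,
    fun u ε hε hε0 hu r l hl hlr hr hl0 hG => ?_⟩
  obtain ⟨e, he⟩ : ∃ e, e = 2 * 3 ^ (m + 2) * ε := ⟨_, rfl⟩
  have he1 : ε ≤ e := by rw [he]; exact le_mul_of_one_le_left hε.le hK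
  have he2 : e ≤ ε₁ := by
    rw [he, mul_comm, ← le_div_iff₀ (by positivity)]
    exact hε0
  have hlγ : 0 ≤ C * l ^ γ := by positivity
  have h1 : En3 Finset.univ (vv u) 0 0 (r + 2 * l) =
      ∫ x in {x ∈ ball (0 : E m) (r + 2 * l) | ∃ j : ℕ,
        e ^ 2 * (θ ^ j / 3) ^ (m + 2) * (θ ^ γ) ^ j ≤ Sep u x (θ ^ j / 3)},
        ∑ i, ‖gradient (vv u i) x - 0‖ ^ 3 := by
    refine setIntegral_eq_of_subset_of_ae_sdiff_eq_zero measurableSet_ball.nullMeasurableSet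
      (sep_subset _ _) ?_
    filter_upwards [null_sup hu.lip hθ hθ1 (hθ.le.trans hτ)
      (Real.rpow_lt_one hθ.le hθ1 hγ).le (sq_nonneg e)] with x hx hx'
    exact hx fun j => not_le.1 fun h => hx'.2 ⟨hx'.1, j, h⟩
  rw [h1]
  refine (vitali_sum (G := fun x => C * l ^ γ * ∑ i, ‖gradient (vv u i) x - 0‖ ^ 2)
    (T := ball 0 (r + 3 * l)) (r₀ := l) (fun x => Finset.sum_nonneg fun i _ => by positivity)
    (fun x => mul_nonneg hlγ (Finset.sum_nonneg fun i _ => by positivity)) (locInt_sup hu.lip 3)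
    ((intOn_En (lip_vv hu.lip) 0 0 _ 2).const_mul _) ?_).trans (integral_const_mul _ _).le
  rintro x ⟨hx, hj⟩
  have hb := Nat.find_spec hj
  have hg := fun i => Nat.find_min hj (m := i)
  generalize Nat.find hj = j at hb hg
  have h2 : θ ^ j / 3 < l := not_le.1 fun h =>
    absurd (large_sup hu.lip hε hθ hθ1.le hτ hG hx h) (by rw [← he]; exact not_lt.2 hb)
  have h3 : 2 ≤ j := by
    by_contra h
    have h4 : θ ^ 1 ≤ θ ^ j := pow_le_pow_of_le_one hθ.le hθ1.le (by omega)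
    linarith
  obtain ⟨j, rfl⟩ : ∃ i, j = i + 2 := ⟨j - 2, by omega⟩
  have h5 := H u ε e hε he1 he2 hu x (ball_subset_ball (by linarith) hx) j
    fun i hi => (not_le.1 (hg i (by omega))).le
  have h6 : 0 < θ ^ (j + 2) / 3 := by positivity
  refine ⟨θ ^ (j + 2) / 3, h6, h2.le, ball_sup hx (by linarith), h5.trans ?_⟩
  rw [integral_const_mul]
  refine mul_le_mul ?_ hb (by positivity) hlγ
  exact mul_le_mul_of_nonneg_left (Real.rpow_le_rpow h6.le h2.le hγ.le) hC.le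

end Pool.Agent.Lib.MP_8daebb_an.LG
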