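import Pool.Agent.Lib.MP_8daebb_an.LG.CenA
import Pool.Agent.Lib.MP_8daebb_an.LG.LipRep
import Pool.Agent.Lib.MP_8daebb_an.LG.FlatR
import Pool.Agent.Lib.MP_8daebb_an.LG.Sup
import Pool.Agent.Lib.MP_8daebb_an.LG.Poin

open MeasureTheory Metric Set Filter Topology
open scoped RealInnerProductSpace NNReal

namespace Pool.Agent.Lib.MP_8daebb_an.LG

variable {m : ℕ} {ι : Type}

/-! CENR. Construction of the centre. -/

theorem vv_ne_cenr [Fintype ι] [Nonempty ι] (u : ι → E m → ℝ) (i : ι) :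
    {x | vv u i x ≠ 0} ⊆ {x | ∃ i j, u i x ≠ u j x} := by
  intro x hx
  by_contra h
  simp only [mem_ofPred_eq, not_exists, not_not] at h hx
  apply hx
  have hc : (Fintype.card ι : ℝ) ≠ 0 := by exact_mod_cast Fintype.card_ne_zero
  have hs : ∑ j, u j x = Fintype.card ι * u i x := by
    rw [Finset.sum_congr rfl fun j _ => h j i]
    simp
  unfold vv wav
  rw [hs]
  field_simp
  ring

theorem Ht_le_DD [Fintype ι] [Nonempty ι] (m : ℕ) : ∃ CP > 0, ∀ (L : ℝ≥0) (u : ι → E m → ℝ)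
    (ε : ℝ), Setting L ε u → ∀ r : ℝ, 0 < r → r ≤ 2 →
      Ht Finset.univ (vv u) 0 0 r ≤ CP * r ^ 2 * DD u r := by
  obtain ⟨C, hC, H⟩ := poincare_half m
  refine ⟨C, hC, fun L u ε hS r hr hr2 => ?_⟩
  have hv := lip_vv hS.lip
  have h1 : ∀ i, IntegrableOn (fun x => (vv u i x - 0) ^ 2) (ball (0 : E m) r) := fun i => by
    simpa using intOn_Ht (s := {i}) hv 0 0 r
  have h2 : ∀ i, IntegrableOn (fun x => ‖gradient (vv u i) x - 0‖ ^ 2) (ball (0 : E m) r) :=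
    fun i => by simpa using intOn_En (s := {i}) hv 0 0 r 2
  unfold Ht DD Sep En
  rw [integral_finsetSum _ fun i _ => h1 i, integral_finsetSum _ fun i _ => h2 i,
    Finset.mul_sum]
  refine Finset.sum_le_sum fun i _ => ?_
  simp only [sub_zero]
  refine H _ _ (hv i) 0 r hr (le_trans ?_ (hS.half r ⟨hr, hr2⟩))
  exact measureReal_mono (inter_subset_inter_left _ (vv_ne_cenr u i))
    ((measure_mono inter_subset_right).trans_lt measure_ball_lt_top).ne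

theorem memLp_grad_cenr {ζ : E m → ℝ} {K : ℝ≥0} (hK : LipschitzWith K ζ)
    (hc : HasCompactSupport ζ) : MemLp (gradient ζ) 2 volume := by
  rw [memLp_two_iff_integrable_sq_norm (meas_grad ζ).aestronglyMeasurable]
  refine int_of_compact (K := tsupport ζ) (C := (K : ℝ) ^ 2)
    ((meas_grad ζ).norm.pow_const 2).aestronglyMeasurable hc (ae_of_all _ fun x _ => ?_)
    (ae_of_all _ fun x hx => ?_)
  · rw [Real.norm_eq_abs, abs_of_nonneg (by positivity)]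
    exact pow_le_pow_left₀ (norm_nonneg _) (norm_grad_le hK x) 2
  · rw [grad_eq_zero_of_notMem hx]; simp

theorem sym_cenr {w : E m → ℝ} {L : ℝ≥0} (hw : LipschitzWith L w) {Ψ g : E m → E m}
    (hΨ : LipschitzWith 1 Ψ) (hg : MemLp g 2 volume) {ρ : ℝ}
    (heq : ∀ᵐ x, x ∈ ball (0 : E m) ρ → Ψ x = gradient w x + g x)
    (hapx : ∀ η > 0, ∃ ζ : E m → ℝ, ContDiff ℝ 2 ζ ∧ HasCompactSupport ζ ∧
      ∫ x, ‖g x - gradient ζ x‖ ^ 2 ≤ η) :
    ∀ᵐ x, x ∈ ball (0 : E m) ρ → Sym (fderiv ℝ Ψ x) := by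
  refine sym_of_limit hΨ fun η hη => ?_
  obtain ⟨ζ, hζ, hc, hle⟩ := hapx η hη
  have hζ1 : ContDiff ℝ 1 ζ := hζ.of_le (by norm_num)
  obtain ⟨K, hK⟩ := locLip_compact hζ1.locallyLipschitz hc
  refine ⟨fun y => w y + ζ y, ⟨L + K, hw.add hK⟩, le_trans ?_ hle⟩
  have hm : MemLp (fun x => g x - gradient ζ x) 2 volume := hg.sub (memLp_grad_cenr hK hc)
  have hi : Integrable fun x => ‖g x - gradient ζ x‖ ^ 2 :=
    (memLp_two_iff_integrable_sq_norm hm.aestronglyMeasurable).1 hm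
  have he : ∫ x in ball (0 : E m) ρ, ‖Ψ x - gradient (fun y => w y + ζ y) x‖ ^ 2 =
      ∫ x in ball (0 : E m) ρ, ‖g x - gradient ζ x‖ ^ 2 := by
    refine setIntegral_congr_ae measurableSet_ball ?_
    filter_upwards [heq, locLip_ae_diff hw.locallyLipschitz] with x h1 h2 hx
    rw [h1 hx, grad_add h2 (hζ1.differentiable one_ne_zero x)]
    congr 2
    abel
  rw [he]
  exact setIntegral_le_integral hi (ae_of_all _ fun x => by positivity)

theorem small_cenr {Ψ : E m → E m} {r : ℝ} (hr : 0 < r)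
    (hlip : ∀ x y, ‖Ψ x - Ψ y‖ ≤ 1 / 4 * ‖x - y‖)
    (hi : IntegrableOn (fun y => ‖Ψ y‖ ^ 2) (ball 0 r))
    (h : ∫ y in ball 0 r, ‖Ψ y‖ ^ 2 ≤ (r / 2) ^ 2 * (vb m * r ^ m)) :
    ∀ x ∈ ball (0 : E m) r, ‖Ψ x‖ ≤ r := by
  obtain ⟨y, hy, hle⟩ := exists_le_avg hr hi h
  intro x hx
  have h1 : ‖Ψ y‖ ≤ r / 2 := (pow_le_pow_iff_left₀ (norm_nonneg _) (by positivity) two_ne_zero).1 hle
  have h2 : ‖x - y‖ ≤ 2 * r := by
    have := norm_sub_le x y
    rw [mem_ball_zero_iff] at hx hy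
    linarith
  have h3 := hlip x y
  have h4 : ‖Ψ x‖ ≤ ‖Ψ x - Ψ y‖ + ‖Ψ y‖ := by
    simpa using norm_add_le (Ψ x - Ψ y) (Ψ y)
  linarith

theorem centre_exists [Fintype ι] [Nonempty ι] (m : ℕ) (L : ℝ≥0) :
    ∃ γ : ℝ, 0 < γ ∧ γ ≤ 1 ∧ ∃ ε₀ > 0, ∃ r₀ > 0, ∃ C > 0, ∃ CP > 0,
      ∀ (u : ι → E m → ℝ) (ε : ℝ), 0 < ε → ε ≤ ε₀ → Setting L ε u →
        ∀ r l : ℝ, 0 < l → l ≤ r → r ≤ r₀ → Good ε u r l →
          ∃ Ψ g : E m → E m, Centre L u Ψ g r (r + l) CP (C * l ^ γ) (DD u (r + 3 * l)) := by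
  obtain ⟨γ, hγ, hγ1, ε₁, hε₁, l₀, hl₀, C₁, hC₁, Hsup⟩ := superlinear (ι := ι) m L
  obtain ⟨θ, hθ, hθ', ε₂, hε₂, C₂, hC₂, Hdec⟩ := centre_decay (ι := ι) m L
  obtain ⟨C₃, hC₃, Hrep⟩ := lip_rep m hθ hθ'
  obtain ⟨ε₄, hε₄, C₄, hC₄, Hflat⟩ := flat_rate (ι := ι) m L
  obtain ⟨CP, hCP, HP⟩ := Ht_le_DD (ι := ι) m
  have hvb := vb_pos m
  set A : ℝ := WL ((L : ℝ) + 1) ^ 6 with hA
  have hA0 : 0 ≤ A := by positivity
  have hL0 : (0 : ℝ) ≤ L := L.coe_nonneg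
  set C : ℝ := (1 + A * (72 * L)) * C₁ + 1 with hCdef
  have hC1 : 1 ≤ C := by
    have : 0 ≤ (1 + A * (72 * L)) * C₁ := by positivity
    linarith
  have hC0 : 0 < C := by linarith
  set K : ℝ := 2 * C₄ + 2 * (A * 2 ^ (m + 3)) with hK
  have hK0 : 0 < K := by positivity
  refine ⟨γ / 2, by positivity, by linarith,
    min (min (min ε₁ ε₂) (min ε₄ 1)) (min (min (1 / (4 * C₃ * C₂)) (1 / C₂)) (vb m / (4 * K))),
    by positivity, min (min (1 / 16) l₀) (C⁻¹ ^ (γ / 2)⁻¹), by positivity, C, hC0, CP, hCP, ?_⟩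
  intro u ε hε hε0 hS r l hl hlr hr hG
  simp only [le_min_iff] at hε0 hr
  obtain ⟨⟨⟨he1, he2⟩, he4, he5⟩, ⟨he6, he7⟩, he8⟩ := hε0
  obtain ⟨⟨hr16, hrl⟩, hrC⟩ := hr
  have hr0 : 0 < r := hl.trans_le hlr
  have hw := lip_wav hS.lip
  have hv := lip_vv hS.lip
  have hdiv : DivFree (Xi u) (ball 0 (r + 2 * l)) :=
    hS.stat.divFree_Xi.mono (ball_subset_ball (by linarith))
  obtain ⟨g, hgm, hg2, hgd, hgE, hapx⟩ :=
    exists_centre hw (meas_Xi u) (norm_Xi_le u) hdiv ((L : ℝ) + 1)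
  have hae := ae_Xi_sub hS.lip
  have hb1 : ∫ x in ball 0 (r + 2 * l), ‖Xi u x - ta ((L : ℝ) + 1) (gradient (wav u) x)‖ ^ 2 ≤
      DD u (r + 2 * l) := by
    unfold DD Sep En
    refine integral_mono_of_nonneg (ae_of_all _ fun x => by positivity)
      (intOn_En hv 0 0 _ 2) (ae_restrict_of_ae ?_)
    filter_upwards [hae] with x hx using hx.1
  have hb2 : ∫ x in ball 0 (r + 2 * l), ‖Xi u x - ta ((L : ℝ) + 1) (gradient (wav u) x)‖ ^ 2 ≤
      72 * L * En3 Finset.univ (vv u) 0 0 (r + 2 * l) := by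
    unfold En3
    rw [← integral_const_mul]
    refine integral_mono_of_nonneg (ae_of_all _ fun x => by positivity)
      ((intOn_En hv 0 0 _ 3).const_mul _) (ae_restrict_of_ae ?_)
    filter_upwards [hae] with x hx using hx.2
  have hgD : ∫ x, ‖g x‖ ^ 2 ≤ A * DD u (r + 2 * l) :=
    hgE.trans (mul_le_mul_of_nonneg_left hb1 hA0)
  have hsup := Hsup u ε hε he1 hS r l hl hlr hr16 (hlr.trans hrl) hG
  have hdec := Hdec u ε hε he2 hS r l hl hlr hr16 hG g hgm hg2 hgd hgD hapx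
  have hmem : ∀ (c : E m) (t : ℝ),
      MemLp (fun y => gradient (wav u) y + g y) 2 (volume.restrict (ball c t)) :=
    fun c t => (memLp_grad hw.locallyLipschitz c t).add (hg2.restrict _)
  obtain ⟨Ψ, hΨl, hΨb, hΨe⟩ := Hrep (fun y => gradient (wav u) y + g y) (r + l) (C₂ * ε) (C₂ * ε)
    hmem (by linarith) (by positivity) hdec
  have hq : C₃ * (C₂ * ε) ≤ 1 / 4 := by
    rw [le_div_iff₀ (by positivity)] at he6
    linarith
  have hq1 : C₂ * ε ≤ 1 := by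
    rw [le_div_iff₀ hC₂] at he7
    linarith
  have hΨ4 : ∀ x y, ‖Ψ x - Ψ y‖ ≤ 1 / 4 * ‖x - y‖ := fun x y =>
    (hΨl x y).trans (mul_le_mul_of_nonneg_right hq (norm_nonneg _))
  have hΨ1 : LipschitzWith 1 Ψ := by
    refine LipschitzWith.of_dist_le_mul fun x y => ?_
    rw [dist_eq_norm, dist_eq_norm]
    have := hΨ4 x y
    have := norm_nonneg (x - y)
    push_cast
    linarith
  have hgi : Integrable fun x => ‖g x‖ ^ 2 :=
    (memLp_two_iff_integrable_sq_norm hg2.aestronglyMeasurable).1 hg2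
  have hgr : ∫ x in ball 0 r, ‖g x‖ ^ 2 ≤ ∫ x, ‖g x‖ ^ 2 :=
    setIntegral_le_integral hgi (ae_of_all _ fun x => by positivity)
  have hD0 : 0 ≤ DD u (r + 3 * l) := En_nonneg _ _ _ _ _
  have hlγ : 0 < l ^ γ := Real.rpow_pos_of_pos hl _
  have hδ2 : (C * l ^ (γ / 2)) ^ 2 = C ^ 2 * l ^ γ := by
    rw [mul_pow, ← Real.rpow_natCast (l ^ (γ / 2)), ← Real.rpow_mul hl.le]
    norm_num
  have hCC : (1 + A * (72 * L)) * C₁ ≤ C ^ 2 := by nlinarith
  have hAL : 0 ≤ A * (72 * L) := by positivity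
  have hE3 : 0 ≤ l ^ γ * DD u (r + 3 * l) := by positivity
  have hDm : DD u r ≤ DD u (r + 3 * l) := DD_mono hS.lip (by linarith)
  refine ⟨Ψ, g, hr0, by linarith, by linarith, by positivity, ?_, hS.lip, hS.zero,
    hS.stat.mono (ball_subset_ball (by linarith)), hΨ1, ?_, hgm, hΨe, ?_,
    sym_cenr hw hΨ1 hg2 hΨe hapx, hg2, hapx, ?_, ?_, hDm, ?_⟩
  · have h1 : l ^ (γ / 2) ≤ (C⁻¹ ^ (γ / 2)⁻¹) ^ (γ / 2) :=
      Real.rpow_le_rpow hl.le (hlr.trans hrC) (by positivity)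
    rw [Real.rpow_inv_rpow (by positivity) (by positivity)] at h1
    calc C * l ^ (γ / 2) ≤ C * C⁻¹ := mul_le_mul_of_nonneg_left h1 hC0.le
      _ = 1 := mul_inv_cancel₀ hC0.ne'
  · have hc : ∀ᵐ x ∂(volume.restrict (ball (0 : E m) r)),
        ‖Ψ x‖ ^ 2 = ‖gradient (wav u) x + g x‖ ^ 2 := by
      rw [ae_restrict_iff' measurableSet_ball]
      filter_upwards [hΨe] with x hx hx'
      rw [hx (ball_subset_ball (by linarith) hx')]
    have hi : IntegrableOn (fun y => ‖gradient (wav u) y + g y‖ ^ 2) (ball 0 r) :=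
      (memLp_two_iff_integrable_sq_norm (hmem 0 r).aestronglyMeasurable).1 (hmem 0 r)
    refine small_cenr hr0 hΨ4 (hi.congr (EventuallyEq.symm hc)) ?_
    rw [integral_congr_ae hc]
    have h1 := int_sq_add_le (memLp_grad hw.locallyLipschitz 0 r) (hg2.restrict (ball 0 r))
    have h2 := Hflat u ε hε he4 hS r hr0 (by linarith)
    have h3 := hG (2 * l) ⟨by linarith, by linarith⟩
    have h4 : (2 * l) ^ (m + 3) ≤ 2 ^ (m + 3) * r ^ (m + 2) := by
      rw [mul_pow]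
      refine mul_le_mul_of_nonneg_left ?_ (by positivity)
      calc l ^ (m + 3) ≤ r ^ (m + 3) := pow_le_pow_left₀ hl.le hlr _
        _ ≤ r ^ (m + 2) := pow_le_pow_of_le_one hr0.le (by linarith) (by omega)
    have h5 : ∫ x in ball 0 r, ‖g x‖ ^ 2 ≤ A * (ε ^ 2 * (2 ^ (m + 3) * r ^ (m + 2))) :=
      hgr.trans (hgD.trans (mul_le_mul_of_nonneg_left
        (h3.trans (mul_le_mul_of_nonneg_left h4 (by positivity))) hA0))
    have h6 : K * ε ^ 2 ≤ vb m / 4 := by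
      rw [le_div_iff₀ (by positivity)] at he8
      have : ε ^ 2 ≤ ε := by nlinarith
      nlinarith
    have h7 : 0 < r ^ (m + 2) := by positivity
    calc _ ≤ 2 * (C₄ * ε ^ 2 * r ^ (m + 2)) + 2 * (A * (ε ^ 2 * (2 ^ (m + 3) * r ^ (m + 2)))) := by
          linarith
      _ = K * ε ^ 2 * r ^ (m + 2) := by rw [hK]; ring
      _ ≤ vb m / 4 * r ^ (m + 2) := mul_le_mul_of_nonneg_right h6 h7.le
      _ = (r / 2) ^ 2 * (vb m * r ^ m) := by ring
  · refine (hgd.mono (ball_subset_ball (by linarith))).congr ?_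
    filter_upwards [hΨe] with x hx hx'
    rw [← hx hx', ta_eq ((hΨb x hx').trans (by linarith))]
  · rw [hδ2]
    have h1 : ∫ x, ‖g x‖ ^ 2 ≤ A * (72 * L * (C₁ * l ^ γ * DD u (r + 3 * l))) :=
      hgE.trans (mul_le_mul_of_nonneg_left
        (hb2.trans (mul_le_mul_of_nonneg_left hsup (by positivity))) hA0)
    calc _ ≤ A * (72 * L * (C₁ * l ^ γ * DD u (r + 3 * l))) := hgr.trans h1
      _ = (A * (72 * L) * C₁) * (l ^ γ * DD u (r + 3 * l)) := by ring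
      _ ≤ C ^ 2 * (l ^ γ * DD u (r + 3 * l)) :=
        mul_le_mul_of_nonneg_right (by nlinarith) hE3
      _ = _ := by ring
  · rw [hδ2]
    have h1 : En3 Finset.univ (vv u) 0 0 r ≤ En3 Finset.univ (vv u) 0 0 (r + 2 * l) :=
      En3_mono hv 0 (ball_subset_ball (by linarith))
    have h2 : 0 ≤ A * (72 * L) * C₁ := by positivity
    calc _ ≤ C₁ * l ^ γ * DD u (r + 3 * l) := h1.trans hsup
      _ = C₁ * (l ^ γ * DD u (r + 3 * l)) := by ring
      _ ≤ C ^ 2 * (l ^ γ * DD u (r + 3 * l)) :=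
        mul_le_mul_of_nonneg_right (by nlinarith) hE3
      _ = _ := by ring
  · exact (HP L u ε hS r hr0 (by linarith)).trans
      (mul_le_mul_of_nonneg_left hDm (by positivity))

end Pool.Agent.Lib.MP_8daebb_an.LG
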