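import Pool.Agent.Lib.MP_8daebb_an.LG.Freq
import Pool.Agent.Lib.MP_8daebb_an.LG.Poin

open MeasureTheory Metric Set Filter Topology
open scoped RealInnerProductSpace NNReal

namespace Pool.Agent.Lib.MP_8daebb_an.LG

variable {m : ℕ} {ι : Type}

/-! DECAY. Flatness and infinite order vanishing of the separation. -/

theorem om_zero_decay {c : E m} {r : ℝ} (hr : 0 < r) {x : E m} (hx : x ∉ ball c r) :
    om c r x = 0 := by
  simp [om, pr_eq_zero hr hx]

theorem chi_zero_decay {c : E m} {r : ℝ} (hr : 0 < r) {x : E m} (hx : x ∉ ball c r) :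
    chi c r x = 0 := by
  simp [chi, pr_eq_zero hr hx]

theorem term_decay {a c r : ℝ} {x p : E m} (hc : 0 ≤ c) (ha : |a| ≤ c * r) (hx : ‖x‖ ≤ r) :
    |(a - 0) * ⟪x - 0, p⟫ / W p| ≤ c * r ^ 2 := by
  have hW := one_le_W p
  have hr : 0 ≤ r := (norm_nonneg _).trans hx
  rw [sub_zero, sub_zero, abs_div, abs_mul, abs_of_pos (by linarith : 0 < W p),
    div_le_iff₀ (by linarith)]
  have h1 : |⟪x, p⟫| ≤ r * W p :=
    (abs_real_inner_le_norm x p).trans (mul_le_mul hx (norm_le_W p) (norm_nonneg _) hr)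
  calc |a| * |⟪x, p⟫| ≤ (c * r) * (r * W p) :=
        mul_le_mul ha h1 (abs_nonneg _) (mul_nonneg hc hr)
    _ = c * r ^ 2 * W p := by ring

variable [Fintype ι] [Nonempty ι] {L : ℝ≥0} {u : ι → E m → ℝ} {R : ℝ}

omit [Nonempty ι] in
theorem tF_le_decay (hL : ∀ i, LipschitzWith L (u i)) (h : Stat Finset.univ u (ball 0 R))
    {r c : ℝ} (hr : 0 < r) (hrR : r < R) (hc : 0 ≤ c)
    (hu : ∀ i, ∀ x ∈ ball (0 : E m) r, |u i x| ≤ c * r) :
    tF Finset.univ u 0 r ≤ 6 * Fintype.card ι * vb m * c * r ^ 2 := by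
  rw [tF_eq hL h 0 hr hrR, ← setIntegral_eq_integral_of_forall_compl_eq_zero (s := ball 0 r)
    (fun x hx => by rw [om_zero_decay hr hx, zero_mul])]
  have h1 := norm_setIntegral_le_of_norm_le_const (μ := volume) (s := ball (0 : E m) r)
    (f := fun x => om 0 r x * ∑ i, (u i x - 0) * ⟪x - 0, gradient (u i) x⟫ / W (gradient (u i) x))
    (C := 3 * (Fintype.card ι * (c * r ^ 2))) measure_ball_lt_top (fun x hx => by
      rw [Real.norm_eq_abs, abs_mul, abs_of_nonneg (om_nonneg _ _ _)]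
      refine mul_le_mul (om_le _ _ _) ?_ (abs_nonneg _) (by norm_num)
      refine (Finset.abs_sum_le_sum_abs _ _).trans ?_
      refine (Finset.sum_le_card_nsmul _ _ (c * r ^ 2) fun i _ =>
        term_decay hc (hu i x hx) (mem_ball_zero_iff.1 hx).le).trans ?_
      simp)
  rw [vol_ball _ hr] at h1
  have h2 := (le_abs_self _).trans h1
  have h3 : (0 : ℝ) < r ^ m := by positivity
  refine (mul_le_mul_of_nonneg_left h2 (by positivity)).trans (le_of_eq ?_)
  field_simp
  ring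

omit [Nonempty ι] in
theorem En_le_decay (hL : ∀ i, LipschitzWith L (u i)) (h : Stat Finset.univ u (ball 0 R))
    {t c : ℝ} (ht : 0 < t) (hrR : 2 * t < R) (hc : 0 ≤ c)
    (hu : ∀ i, ∀ x ∈ ball (0 : E m) (2 * t), |u i x| ≤ c * (2 * t)) :
    En Finset.univ u 0 0 t / t ^ m ≤ 2 ^ m * (36 * WL L * Fintype.card ι * vb m) * c := by
  have hr : 0 < 2 * t := by positivity
  have h1 := tF_le_decay hL h hr hrR hc hu
  have h2 := (tF_le_dF (s := Finset.univ) (c := 0) hL hr).1
  have h3 := (dF_le_En (s := Finset.univ) (c := 0) hL hr).2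
  have h4 : 2 * t / 2 = t := by ring
  rw [h4] at h3
  have hW := one_le_WL (L : ℝ)
  have h5 : (2 * t) ^ 2 / (2 * t) ^ m * En Finset.univ u 0 0 t ≤
      3 * WL L * (2 * (6 * Fintype.card ι * vb m * c * (2 * t) ^ 2)) :=
    h3.trans (mul_le_mul_of_nonneg_left (by linarith) (by positivity))
  have h6 : (0 : ℝ) < t ^ m := by positivity
  have h7 : (0 : ℝ) < (2 * t) ^ 2 := by positivity
  have h8 : (2 * t) ^ 2 / (2 * t) ^ m * En Finset.univ u 0 0 t =
      (2 * t) ^ 2 / 2 ^ m * (En Finset.univ u 0 0 t / t ^ m) := by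
    rw [mul_pow 2 t m]
    field_simp
  rw [h8] at h5
  have h9 : (0 : ℝ) < (2 * t) ^ 2 / 2 ^ m := by positivity
  refine le_of_mul_le_mul_left (h5.trans (le_of_eq ?_)) h9
  field_simp
  ring

theorem flat_energy (hL : ∀ i, LipschitzWith L (u i)) (hR : 0 < R)
    (h : Stat Finset.univ u (ball 0 R)) (h0 : ∀ i, u i 0 = 0) (hp : ∀ i, HasGradientAt (u i) 0 0) :
    Tendsto (fun t : ℝ => En Finset.univ u 0 0 t / t ^ m) (𝓝[>] 0) (𝓝 0) := by
  have hW := one_le_WL (L : ℝ)
  have hv := vb_pos m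
  have hA : (0 : ℝ) ≤ 2 ^ m * (36 * WL L * Fintype.card ι * vb m) := by positivity
  generalize hB : (2 : ℝ) ^ m * (36 * WL L * Fintype.card ι * vb m) = A at hA
  rw [Metric.tendsto_nhdsWithin_nhds]
  intro ε hε
  have hc : 0 < ε / (A + 1) := by positivity
  have h1 : ∀ᶠ x in 𝓝 (0 : E m), ∀ i, |u i x| ≤ ε / (A + 1) * ‖x‖ := by
    rw [eventually_all]
    intro i
    have h2 := (hasFDerivAt_iff_isLittleO_nhds_zero.1 (hp i).hasFDerivAt).def hc
    filter_upwards [h2] with x hx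
    simpa [h0 i] using hx
  obtain ⟨δ, hδ, h2⟩ := Metric.eventually_nhds_iff.1 h1
  refine ⟨min δ R / 2, by positivity, fun t ht h3 => ?_⟩
  have ht' : 0 < t := ht
  rw [Real.dist_eq, sub_zero, abs_of_pos ht'] at h3
  have h4 : 2 * t < δ := by linarith [min_le_left δ R]
  have h5 : 2 * t < R := by linarith [min_le_right δ R]
  have h6 := En_le_decay hL h ht' h5 hc.le (fun i x hx => by
    have h7 : ‖x‖ < 2 * t := mem_ball_zero_iff.1 hx
    exact (h2 (by rw [dist_zero_right]; linarith) i).trans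
      (mul_le_mul_of_nonneg_left h7.le hc.le))
  rw [hB] at h6
  rw [Real.dist_eq, sub_zero,
    abs_of_nonneg (div_nonneg (En_nonneg _ _ _ _ _) (by positivity))]
  refine h6.trans_lt ?_
  rw [mul_div_assoc', div_lt_iff₀ (by positivity)]
  nlinarith

/-- The pointwise inequality behind the Caccioppoli estimate. -/
theorem young_decay {χ o g I J v M r : ℝ} (hr : 0 < r) (hχ : 0 ≤ χ) (hM : 0 ≤ M)
    (ho : o ^ 2 ≤ 9 * χ) (hI : g ^ 2 ≤ M * I) (hJ : |J| ≤ g * (2 * o / r)) :
    χ * g ^ 2 ≤ 2 * M * (χ * I + v * J) + 36 * M ^ 2 / r ^ 2 * v ^ 2 := by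
  have h1 : χ * g ^ 2 ≤ χ * (M * I) := mul_le_mul_of_nonneg_left hI hχ
  have h2 : -(|v| * (g * (2 * o / r))) ≤ v * J := by
    have h3 : |v * J| ≤ |v| * (g * (2 * o / r)) := by
      rw [abs_mul]
      exact mul_le_mul_of_nonneg_left hJ (abs_nonneg _)
    exact (abs_le.1 h3).1
  have h3 : M * -(|v| * (g * (2 * o / r))) ≤ M * (v * J) := mul_le_mul_of_nonneg_left h2 hM
  have h4 : o ^ 2 * g ^ 2 ≤ 9 * χ * g ^ 2 := mul_le_mul_of_nonneg_right ho (sq_nonneg _)
  have h5 := sq_nonneg (o * g / 3 - 6 * M * (|v| / r))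
  have h6 : (o * g / 3 - 6 * M * (|v| / r)) ^ 2 = o ^ 2 * g ^ 2 / 9 +
      2 * (M * -(|v| * (g * (2 * o / r)))) + 36 * M ^ 2 / r ^ 2 * v ^ 2 := by
    rw [← sq_abs v]
    field_simp
    ring
  nlinarith

theorem norm_grad_chi_decay {r : ℝ} (hr : 0 < r) (x : E m) :
    ‖gradient (chi 0 r) x‖ ≤ 2 * om 0 r x / r := by
  rw [grad_chi]
  by_cases hx : x ∈ ball (0 : E m) r
  · have h1 : ‖x‖ ≤ r := (mem_ball_zero_iff.1 hx).le
    have h2 := om_nonneg (0 : E m) r x
    rw [norm_smul, norm_neg, sub_zero, Real.norm_of_nonneg (by positivity)]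
    refine (mul_le_mul_of_nonneg_left h1 (by positivity)).trans (le_of_eq ?_)
    field_simp
  · simp [om_zero_decay hr hx]

/-- The integrand of the vertical equation tested with the separation. -/
noncomputable def F_decay (u : ι → E m → ℝ) (r : ℝ) (i : ι) (x : E m) : ℝ :=
  ⟪aa (gradient (u i) x), gradient (fun y => chi 0 r y * id (u i y - wav u y)) x⟫

omit [Nonempty ι] in
theorem int_F_decay (hL : ∀ i, LipschitzWith L (u i)) {r : ℝ} (hr : 0 < r) (i : ι) :
    Integrable (F_decay u r i) := by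
  have h1 : LocallyLipschitz fun y => chi (0 : E m) r y * id (u i y - wav u y) :=
    locLip_mul (contDiff_chi 0 r).locallyLipschitz (lip_vv hL i).locallyLipschitz
  have h2 : tsupport (fun y => chi (0 : E m) r y * id (u i y - wav u y)) ⊆ closedBall 0 r :=
    (tsupport_mul_subset_left (f := chi (0 : E m) r)).trans (tsupport_chi hr)
  have h3 : HasCompactSupport fun y => chi (0 : E m) r y * id (u i y - wav u y) :=
    (isCompact_closedBall 0 r).of_isClosed_subset (isClosed_tsupport _) h2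
  obtain ⟨K, hK⟩ := locLip_compact h1 h3
  refine int_of_compact (C := K) ?_ (isCompact_closedBall 0 r) (.of_forall fun x _ => ?_)
    (.of_forall fun x hx => ?_)
  · exact ((contDiff_aa.continuous.measurable.comp (meas_grad _)).inner
      (meas_grad _)).aestronglyMeasurable
  · refine (norm_inner_le_norm _ _).trans ?_
    exact (mul_le_mul (norm_aa_le_one _) (norm_grad_le hK x) (norm_nonneg _) zero_le_one).trans
      (le_of_eq (one_mul _))
  · rw [F_decay, grad_eq_zero_of_notMem fun h4 => hx (h2 h4), inner_zero_right]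

theorem ae_F_decay (hL : ∀ i, LipschitzWith L (u i)) {r : ℝ} (hr : 0 < r) : ∀ᵐ x : E m,
    chi 0 r x * ∑ i, ‖gradient (vv u i) x - 0‖ ^ 2 ≤ 2 * WL L ^ 3 * ∑ i, F_decay u r i x +
      36 * (WL L ^ 3) ^ 2 / r ^ 2 * (ball 0 r).indicator (fun y => ∑ i, (vv u i y - 0) ^ 2) x := by
  filter_upwards [ae_grad_vv hL] with x ⟨_, _, h3, _, h5, h6⟩
  have hχ : DifferentiableAt ℝ (chi (0 : E m) r) x :=
    (contDiff_chi 0 r).differentiable one_ne_zero x
  have h7 : ∀ i, F_decay u r i x = ⟪aa (gradient (u i) x),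
      chi 0 r x • gradient (vv u i) x + vv u i x • gradient (chi 0 r) x⟫ := fun i => by
    rw [← grad_mul hχ (h3 i)]
    rfl
  have h8 : ∑ i, ⟪aa (gradient (wav u) x),
      chi 0 r x • gradient (vv u i) x + vv u i x • gradient (chi 0 r) x⟫ = 0 := by
    rw [← inner_sum, Finset.sum_add_distrib, ← Finset.smul_sum, ← Finset.sum_smul, h6, sum_vv]
    simp
  have h9 : ∑ i, F_decay u r i x = ∑ i,
      (chi 0 r x * ⟪aa (gradient (u i) x) - aa (gradient (wav u) x), gradient (vv u i) x⟫ +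
        vv u i x * ⟪aa (gradient (u i) x) - aa (gradient (wav u) x), gradient (chi 0 r) x⟫) := by
    rw [← sub_zero (∑ i, F_decay u r i x), ← h8, ← Finset.sum_sub_distrib]
    refine Finset.sum_congr rfl fun i _ => ?_
    rw [h7, ← inner_sub_left, inner_add_right, real_inner_smul_right, real_inner_smul_right]
  rw [h9]
  have hM : 0 ≤ WL L ^ 3 := by
    have := one_le_WL (L : ℝ)
    positivity
  by_cases hx : x ∈ ball (0 : E m) r
  · rw [indicator_of_mem hx, Finset.mul_sum, Finset.mul_sum, Finset.mul_sum,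
      ← Finset.sum_add_distrib]
    refine Finset.sum_le_sum fun i _ => ?_
    rw [sub_zero, sub_zero]
    have k1 : gradient (u i) x - gradient (wav u) x = gradient (vv u i) x := by
      rw [h5 i]
      abel
    refine young_decay hr (chi_nonneg _ _ _) hM (om_sq_le 0 r x) ?_ ?_
    · have k2 := aa_mono (norm_grad_le (hL i) x) (norm_grad_le (lip_wav hL) x)
      rwa [k1] at k2
    · refine (abs_real_inner_le_norm _ _).trans ?_
      have k2 := aa_lip (gradient (u i) x) (gradient (wav u) x)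
      rw [k1] at k2
      exact mul_le_mul k2 (norm_grad_chi_decay hr x) (norm_nonneg _) (norm_nonneg _)
  · have k1 : gradient (chi (0 : E m) r) x = 0 := by
      rw [grad_chi, om_zero_decay hr hx]
      simp
    simp [indicator_of_notMem hx, chi_zero_decay hr hx, k1]

theorem cacc_vv (L : ℝ≥0) : ∃ C > 0, ∀ (m : ℕ) (u : ι → E m → ℝ) (R t : ℝ),
    (∀ i, LipschitzWith L (u i)) → Stat Finset.univ u (ball 0 R) → 0 < t → 2 * t ≤ R →
      DD u t ≤ C / t ^ 2 * Ht Finset.univ (vv u) 0 0 (3 / 2 * t) := by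
  have hW := one_le_WL (L : ℝ)
  refine ⟨432 * (WL L ^ 3) ^ 2, by positivity, fun m u R t hL h ht htR => ?_⟩
  have hr : 0 < 3 / 2 * t := by positivity
  have h1 : ∑ i, ∫ x, F_decay u (3 / 2 * t) i x = 0 :=
    h.outer (θ := id) (contDiff_chi 0 (3 / 2 * t)).locallyLipschitz
      ((isCompact_closedBall 0 _).of_isClosed_subset (isClosed_tsupport _) (tsupport_chi hr))
      ((tsupport_chi hr).trans (closedBall_subset_ball (by linarith)))
      (lip_wav hL).locallyLipschitz LipschitzWith.id.locallyLipschitz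
  have h2 : Integrable fun x => ∑ i, F_decay u (3 / 2 * t) i x :=
    integrable_finsetSum _ fun i _ => int_F_decay hL hr i
  rw [← integral_finsetSum _ fun i _ => int_F_decay hL hr i] at h1
  have h3 : Integrable ((ball (0 : E m) (3 / 2 * t)).indicator
      fun y => ∑ i, (vv u i y - 0) ^ 2) :=
    (integrable_indicator_iff measurableSet_ball).2 (intOn_Ht (lip_vv hL) 0 0 _)
  have h4 : Integrable ((ball (0 : E m) t).indicator
      fun x => ∑ i, ‖gradient (vv u i) x - 0‖ ^ 2) :=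
    (integrable_indicator_iff measurableSet_ball).2 (intOn_En (lip_vv hL) 0 0 t 2)
  have h5 := integral_mono_ae h4 (((h2.const_mul (2 * WL L ^ 3)).add
    (h3.const_mul (36 * (WL L ^ 3) ^ 2 / (3 / 2 * t) ^ 2))).const_mul 27) (by
      filter_upwards [ae_F_decay hL hr] with x hx
      refine le_trans ?_ (mul_le_mul_of_nonneg_left hx (by norm_num))
      have k1 : 0 ≤ ∑ i, ‖gradient (vv u i) x - 0‖ ^ 2 := by positivity
      by_cases k2 : x ∈ ball (0 : E m) t
      · rw [indicator_of_mem k2]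
        have k3 : (1 : ℝ) / 3 ≤ pr 0 (3 / 2 * t) x :=
          pr_ge hr (by norm_num) (by norm_num) (by
            have k4 : (1 - 1 / 3) * (3 / 2 * t) = t := by ring
            rwa [k4])
        have k4 : ((1 : ℝ) / 3) ^ 3 ≤ chi 0 (3 / 2 * t) x := pow_le_pow_left₀ (by norm_num) k3 3
        nlinarith
      · rw [indicator_of_notMem k2]
        have := chi_nonneg (0 : E m) (3 / 2 * t) x
        positivity)
  rw [integral_indicator measurableSet_ball, integral_const_mul] at h5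
  simp only [Pi.add_apply] at h5
  rw [integral_add (h2.const_mul _) (h3.const_mul _), integral_const_mul, integral_const_mul, h1,
    integral_indicator measurableSet_ball] at h5
  refine le_trans h5 (le_of_eq ?_)
  rw [Ht]
  field_simp
  ring

/-- Dyadic decay gives polynomial decay. -/
theorem dyadic_decay {D : ℝ → ℝ} (hD : Monotone D) (hD0 : ∀ t, 0 ≤ D t) {t₀ : ℝ} (h0 : 0 < t₀)
    (k : ℕ) (h : ∀ t, 0 < t → t ≤ t₀ → 2 ^ k * D t ≤ D (2 * t)) :
    ∃ C : ℝ, ∀ t ∈ Ioc (0 : ℝ) 1, D t ≤ C * t ^ k := by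
  have hC : 0 ≤ D (max 1 (2 * t₀)) / t₀ ^ k := div_nonneg (hD0 _) (by positivity)
  have base : ∀ t, t₀ ≤ t → t ≤ max 1 (2 * t₀) → D t ≤ D (max 1 (2 * t₀)) / t₀ ^ k * t ^ k := by
    intro t h1 h2
    calc D t ≤ D (max 1 (2 * t₀)) := hD h2
      _ = D (max 1 (2 * t₀)) / t₀ ^ k * t₀ ^ k := by field_simp
      _ ≤ _ := mul_le_mul_of_nonneg_left (pow_le_pow_left₀ h0.le h1 k) hC
  have key : ∀ n : ℕ, ∀ t, t₀ * (1 / 2) ^ n ≤ t → t ≤ max 1 (2 * t₀) →
      D t ≤ D (max 1 (2 * t₀)) / t₀ ^ k * t ^ k := by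
    intro n
    induction n with
    | zero => exact fun t h1 h2 => base t (by simpa using h1) h2
    | succ n ih =>
      intro t h1 h2
      rcases le_total t₀ t with h3 | h3
      · exact base t h3 h2
      · have h4 : 0 < t := lt_of_lt_of_le (by positivity) h1
        have h5 := ih (2 * t) (by rw [pow_succ] at h1; linarith)
          (le_trans (by linarith) (le_max_right _ _))
        have h6 := (h t h4 h3).trans h5
        rw [mul_pow] at h6
        refine le_of_mul_le_mul_left (h6.trans (le_of_eq ?_)) (by positivity : (0 : ℝ) < 2 ^ k)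
        ring
  refine ⟨D (max 1 (2 * t₀)) / t₀ ^ k, fun t ht => ?_⟩
  obtain ⟨n, hn⟩ := exists_pow_lt_of_lt_one (div_pos ht.1 h0) (by norm_num : (1 : ℝ) / 2 < 1)
  refine key n t ?_ (ht.2.trans (le_max_left _ _))
  rw [lt_div_iff₀ h0] at hn
  linarith

theorem vv_ne_decay (u : ι → E m → ℝ) (i : ι) :
    {x | vv u i x ≠ 0} ⊆ {x | ∃ i j, u i x ≠ u j x} := by
  intro x hx
  by_contra h1
  apply hx
  have h2 : ∀ j, u j x = u i x := fun j => by
    by_contra h3
    exact h1 ⟨j, i, h3⟩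
  have h3 : (Fintype.card ι : ℝ) ≠ 0 := by positivity
  simp only [vv, wav, h2, Finset.sum_const, Finset.card_univ, nsmul_eq_mul]
  field_simp
  ring

omit [Nonempty ι] in
theorem Ht_le_decay (hL : ∀ i, LipschitzWith L (u i)) {a t : ℝ}
    (h : ∀ i, ∫ x in ball 0 (3 / 2 * t), vv u i x ^ 2 ≤
      a * ∫ x in ball 0 (2 * t), ‖gradient (vv u i) x‖ ^ 2) :
    Ht Finset.univ (vv u) 0 0 (3 / 2 * t) ≤ a * DD u (2 * t) := by
  have h1 : ∀ i, IntegrableOn (fun x => (vv u i x - 0) ^ 2) (ball (0 : E m) (3 / 2 * t)) :=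
    fun i => by simpa using intOn_Ht (s := {i}) (lip_vv hL) 0 0 (3 / 2 * t)
  have h2 : ∀ i, IntegrableOn (fun x => ‖gradient (vv u i) x - 0‖ ^ 2) (ball (0 : E m) (2 * t)) :=
    fun i => by simpa using intOn_En (s := {i}) (lip_vv hL) 0 0 (2 * t) 2
  rw [Ht, DD, Sep, En, integral_finsetSum _ fun i _ => h1 i, integral_finsetSum _ fun i _ => h2 i,
    Finset.mul_sum]
  exact Finset.sum_le_sum fun i _ => by simpa using h i

theorem infinite_order (hL : ∀ i, LipschitzWith L (u i)) (hR : 0 < R)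
    (h : Stat Finset.univ u (ball 0 R))
    (hd : Tendsto (fun r : ℝ => volume.real ({x | ∃ i j, u i x ≠ u j x} ∩ ball 0 r) / r ^ m)
      (𝓝[>] 0) (𝓝 0)) (k : ℕ) : ∃ C : ℝ, ∀ t ∈ Ioc (0 : ℝ) 1, DD u t ≤ C * t ^ k := by
  obtain ⟨C, hC, h1⟩ := cacc_vv (ι := ι) L
  have hκ : 0 < 1 / (2 ^ k * C) := by positivity
  obtain ⟨η, hη, h2⟩ := poincare_small m hκ
  obtain ⟨δ, hδ, h3⟩ := Metric.tendsto_nhdsWithin_nhds.1 hd (η / 2 ^ m) (by positivity)
  refine dyadic_decay (DD_mono hL) (fun t => En_nonneg _ _ _ _ _)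
    (t₀ := min δ R / 4) (by positivity) k fun t ht h4 => ?_
  have h5 : 2 * t < δ := by linarith [min_le_left δ R]
  have h6 : 2 * t ≤ R := by linarith [min_le_right δ R]
  have hr : 0 < 2 * t := by positivity
  have h7 := h3 (x := 2 * t) hr (by rwa [Real.dist_eq, sub_zero, abs_of_pos hr])
  rw [Real.dist_eq, sub_zero] at h7
  have h8 := (le_abs_self _).trans_lt h7
  rw [div_lt_iff₀ (by positivity)] at h8
  have h9 : η / 2 ^ m * (2 * t) ^ m = η * t ^ m := by
    rw [mul_pow]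
    field_simp
  rw [h9] at h8
  have h10 := Ht_le_decay hL (a := 1 / (2 ^ k * C) * t ^ 2) (t := t) fun i =>
    h2 _ _ (lip_vv hL i) 0 t ht (le_trans (measureReal_mono
      (inter_subset_inter_left _ (vv_ne_decay u i))
      ((measure_mono inter_subset_right).trans_lt measure_ball_lt_top).ne) h8.le)
  have h11 := (h1 m u R t hL h ht h6).trans (mul_le_mul_of_nonneg_left h10 (by positivity))
  refine (mul_le_mul_of_nonneg_left h11 (by positivity)).trans (le_of_eq ?_)
  field_simp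

end Pool.Agent.Lib.MP_8daebb_an.LG
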