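import Mathlib

/-!
Stationary sums of Lipschitz graphs of codimension one: the definitions used in the statement.
-/

open MeasureTheory Metric Set
open scoped RealInnerProductSpace

namespace Pool.Agent.Lib.MP_8daebb_an.LG

/-- Euclidean space `ℝ^m`. -/
abbrev E (m : ℕ) : Type := EuclideanSpace ℝ (Fin m)

/-- The integrand of the first variation of the area of a graph in `ℝ^m × ℝ` at a point where the
slope is `p` and the derivative of the vector field is `A`: the area element `√(1 + |p|²)` times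
the tangential divergence `tr A - ⟨A ν, ν⟩`, where `ν = (-p, 1) / √(1 + |p|²)` is the unit
normal. -/
noncomputable def firstVar {m : ℕ} (p : E m) (A : (E m × ℝ) →L[ℝ] (E m × ℝ)) : ℝ :=
  √(1 + ‖p‖ ^ 2) * (LinearMap.trace ℝ (E m × ℝ) (A : (E m × ℝ) →ₗ[ℝ] (E m × ℝ)) -
    (⟪(A (-p, 1)).1, -p⟫ + (A (-p, 1)).2) / (1 + ‖p‖ ^ 2))

/-- The sum of the graphs of the functions `u i` is a stationary varifold in `Ω × ℝ`. -/
def IsStationaryGraph {m Q : ℕ} (u : Fin Q → E m → ℝ) (Ω : Set (E m)) : Prop :=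
  ∀ X : E m × ℝ → E m × ℝ, ContDiff ℝ 1 X → HasCompactSupport X → tsupport X ⊆ Ω ×ˢ univ →
    ∑ i, ∫ x, firstVar (gradient (u i) x) (fderiv ℝ X (x, u i x)) = 0

end Pool.Agent.Lib.MP_8daebb_an.LG
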