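import Pool.Agent.Lib.MP_8daebb_an.LG.StatB

open MeasureTheory Metric Set Filter Topology
open scoped RealInnerProductSpace NNReal

namespace Pool.Agent.Lib.MP_8daebb_an.LG

variable {m : ℕ} {ι : Type}

/-! FREQ. The frequency identities relative to a horizontal plane. -/

variable {s : Finset ι} {u : ι → E m → ℝ} {L : ℝ≥0} {c : E m} {R r : ℝ}

/-- Measurable functions that are bounded on balls. -/
def LBfreq (f : E m → ℝ) : Prop :=
  Measurable f ∧ ∀ (c : E m) (r : ℝ), ∃ C, ∀ x ∈ ball c r, |f x| ≤ C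

section
variable {f g φ : E m → ℝ}

theorem LBfreq.of_cont (hf : Continuous f) : LBfreq f :=
  ⟨hf.measurable, fun c r =>
    ((isCompact_closedBall c r).exists_bound_of_continuousOn hf.continuousOn).imp
      fun _ h x hx => h x (ball_subset_closedBall hx)⟩

theorem LBfreq.const (a : ℝ) : LBfreq fun _ : E m => a := .of_cont continuous_const

theorem LBfreq.add (hf : LBfreq f) (hg : LBfreq g) : LBfreq fun x => f x + g x := by
  refine ⟨hf.1.add hg.1, fun c r => ?_⟩
  obtain ⟨A, hA⟩ := hf.2 c r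
  obtain ⟨B, hB⟩ := hg.2 c r
  exact ⟨A + B, fun x hx => (abs_add_le _ _).trans (add_le_add (hA x hx) (hB x hx))⟩

theorem LBfreq.mul (hf : LBfreq f) (hg : LBfreq g) : LBfreq fun x => f x * g x := by
  refine ⟨hf.1.mul hg.1, fun c r => ?_⟩
  obtain ⟨A, hA⟩ := hf.2 c r
  obtain ⟨B, hB⟩ := hg.2 c r
  exact ⟨A * B, fun x hx => (abs_mul _ _).trans_le
    (mul_le_mul (hA x hx) (hB x hx) (abs_nonneg _) ((abs_nonneg _).trans (hA x hx)))⟩

theorem LBfreq.sub (hf : LBfreq f) (hg : LBfreq g) : LBfreq fun x => f x - g x := by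
  simpa [sub_eq_add_neg] using hf.add ((LBfreq.const (-1)).mul hg)

theorem LBfreq.sq (hf : LBfreq f) : LBfreq fun x => f x ^ 2 := by
  simpa [pow_two] using hf.mul hf

theorem LBfreq.sum {a : ι → E m → ℝ} (s : Finset ι) (h : ∀ i, LBfreq (a i)) :
    LBfreq fun x => ∑ i ∈ s, a i x := by
  classical
  induction s using Finset.induction_on with
  | empty => simpa using LBfreq.const 0
  | insert i s hi ih => simpa [Finset.sum_insert hi] using (h i).add ih

theorem LBfreq.norm (hf : LipschitzWith L f) : LBfreq fun x => ‖gradient f x‖ :=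
  ⟨(meas_grad f).norm, fun _ _ => ⟨L, fun x _ => by simpa using norm_grad_le hf x⟩⟩

theorem LBfreq.W (hf : LipschitzWith L f) : LBfreq fun x => W (gradient f x) :=
  ⟨contDiff_W.continuous.measurable.comp (meas_grad f), fun _ _ => ⟨WL L, fun x _ => by
    rw [abs_of_nonneg (zero_le_one.trans (one_le_W _))]
    exact W_le_WL (norm_grad_le hf x)⟩⟩

theorem LBfreq.divW (hg : LBfreq g) (f : E m → ℝ) : LBfreq fun x => g x / LG.W (gradient f x) := by
  refine ⟨hg.1.div (contDiff_W.continuous.measurable.comp (meas_grad f)), fun c r =>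
    (hg.2 c r).imp fun C h x hx => le_trans ?_ (h x hx)⟩
  rw [abs_div, abs_of_nonneg (zero_le_one.trans (one_le_W _))]
  exact div_le_self (abs_nonneg _) (one_le_W _)

theorem LBfreq.inner (hf : LipschitzWith L f) (c : E m) :
    LBfreq fun x => ⟪x - c, gradient f x⟫ := by
  refine ⟨(measurable_id.sub_const c).inner (meas_grad f), fun a r => ?_⟩
  obtain ⟨C, hC⟩ := ((LBfreq.of_cont (f := fun x => ‖x - c‖) (by fun_prop)).mul (.norm hf)).2 a r
  exact ⟨C, fun x hx => (abs_real_inner_le_norm _ _).trans ((le_abs_self _).trans (hC x hx))⟩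

theorem LBfreq.ht (hf : LipschitzWith L f) (z : ℝ) : LBfreq fun x => f x - z :=
  .of_cont (hf.continuous.sub continuous_const)

theorem LBfreq.int (hf : LBfreq f) (hr : 0 < r) (hφ : Continuous φ)
    (h0 : ∀ x, x ∉ ball c r → φ x = 0) : Integrable fun x => φ x * f x := by
  obtain ⟨C, hC⟩ := hf.2 c r
  exact int_cut hr hφ h0 hf.1.aestronglyMeasurable (Eventually.of_forall hC)

theorem chi_zero_freq (hr : 0 < r) (x : E m) (hx : x ∉ ball c r) : chi c r x = 0 := by
  simp [chi, pr_eq_zero hr hx]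

theorem om_zero_freq (hr : 0 < r) (x : E m) (hx : x ∉ ball c r) : om c r x = 0 := by
  simp [om, pr_eq_zero hr hx]

theorem LBfreq.chi (hf : LBfreq f) (c : E m) (hr : 0 < r) :
    Integrable fun x => chi c r x * f x :=
  hf.int hr (contDiff_chi c r).continuous (chi_zero_freq hr)

theorem LBfreq.om (hf : LBfreq f) (c : E m) (hr : 0 < r) :
    Integrable fun x => om c r x * f x :=
  hf.int hr (contDiff_om c r).continuous (om_zero_freq hr)

theorem LBfreq.som (hf : LBfreq f) (c : E m) (hr : 0 < r) :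
    Integrable fun x => 2 * (‖x - c‖ ^ 2 / r ^ 2) * LG.om c r x * f x :=
  hf.int (c := c) hr (Continuous.mul (by fun_prop) (contDiff_om c r).continuous)
    fun x hx => by rw [om_zero_freq hr x hx, mul_zero]

theorem LBfreq.spr (hf : LBfreq f) (c : E m) (hr : 0 < r) :
    Integrable fun x => 12 * (‖x - c‖ ^ 2 / r ^ 2) * pr c r x * f x :=
  hf.int (c := c) hr (Continuous.mul (by fun_prop) (continuous_pr c r))
    fun x hx => by rw [pr_eq_zero hr hx, mul_zero]

theorem supp_freq (h : tsupport φ ⊆ closedBall c r) : HasCompactSupport φ :=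
  (isCompact_closedBall c r).of_isClosed_subset (isClosed_tsupport φ) h

theorem dv_freq {x : E m} (hf : DifferentiableAt ℝ f x) (c : E m) :
    dv (fun y => f y • (y - c)) x = ⟪gradient f x, x - c⟫ + f x * m := by
  rw [dv_smul hf (by fun_prop), dv, fderiv_sub_const, fderiv_fun_id, trS_id]

theorem dv_int_freq (hf : LocallyLipschitz f) (hc : HasCompactSupport f) (c : E m) :
    ∫ x, (⟪gradient f x, x - c⟫ + f x * m) = 0 := by
  rw [← integral_dv_eq_zero (Y := fun y => f y • (y - c)) (locLip_smul hf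
    (LipschitzWith.id.sub (LipschitzWith.const c)).locallyLipschitz) hc.smul_right]
  exact integral_congr_ae ((locLip_ae_diff hf).mono fun x hx => (dv_freq hx c).symm)

theorem up_freq (h0 : ∀ x, x ∉ ball c r → φ x = 0) (hi : Integrable fun x => φ x * f x)
    (hg : IntegrableOn g (ball c r)) (h : ∀ x, φ x * f x ≤ g x) :
    ∫ x, φ x * f x ≤ ∫ x in ball c r, g x := by
  rw [← setIntegral_eq_integral_of_forall_compl_eq_zero (s := ball c r)
    fun x hx => by rw [h0 x hx, zero_mul]]
  exact setIntegral_mono hi.integrableOn hg h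

theorem low_freq (hf : Integrable f) (h0 : ∀ x, 0 ≤ f x) (hg : IntegrableOn g (ball c r))
    (h : ∀ x ∈ ball c r, g x ≤ f x) : ∫ x in ball c r, g x ≤ ∫ x, f x :=
  (setIntegral_mono_on hg hf.integrableOn measurableSet_ball h).trans
    (setIntegral_le_integral hf (Eventually.of_forall h0))

theorem lin_freq {k : E m → ℝ} (hf : Integrable f) (hg : Integrable g) (hk : Integrable k)
    (hφ : Integrable φ) (a b d e : ℝ) : ∫ x, (a * f x + b * g x + d * k x + e * φ x) =
      (a * ∫ x, f x) + (b * ∫ x, g x) + (d * ∫ x, k x) + e * ∫ x, φ x := by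
  rw [integral_add, integral_add, integral_add, integral_const_mul, integral_const_mul,
    integral_const_mul, integral_const_mul]
  exacts [hf.const_mul a, hg.const_mul b, (hf.const_mul a).add (hg.const_mul b), hk.const_mul d,
    ((hf.const_mul a).add (hg.const_mul b)).add (hk.const_mul d), hφ.const_mul e]

theorem cs_freq {a b : ι → E m → ℝ} (hr : 0 < r) (ha : ∀ i, LBfreq (a i)) (hb : ∀ i, LBfreq (b i))
    (hg : LBfreq g) (h : ∀ x, ∑ i ∈ s, b i x ^ 2 ≤ g x) :
    (∫ x, om c r x * ∑ i ∈ s, a i x * b i x) ^ 2 ≤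
      (∫ x, om c r x * ∑ i ∈ s, a i x ^ 2) * ∫ x, om c r x * g x := by
  have h1 := (LBfreq.sum s fun i => (ha i).sq).om c hr
  have h2 := (LBfreq.sum s fun i => (ha i).mul (hb i)).om c hr
  have h3 := hg.om c hr
  have h4 := discrim_le_zero (a := ∫ x, om c r x * ∑ i ∈ s, a i x ^ 2)
    (b := 2 * ∫ x, om c r x * ∑ i ∈ s, a i x * b i x) (c := ∫ x, om c r x * g x) fun t => by
    refine (integral_nonneg fun x => ?_).trans_eq
      ((lin_freq h1 h2 h3 h3 (t * t) (t * 2) 1 0).trans (by ring))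
    have k1 : 0 ≤ ∑ i ∈ s, (t * a i x + b i x) ^ 2 := by positivity
    have k2 : ∑ i ∈ s, (t * a i x + b i x) ^ 2 = t * t * ∑ i ∈ s, a i x ^ 2 +
        t * 2 * ∑ i ∈ s, a i x * b i x + ∑ i ∈ s, b i x ^ 2 := by
      rw [Finset.mul_sum, Finset.mul_sum, ← Finset.sum_add_distrib, ← Finset.sum_add_distrib]
      exact Finset.sum_congr rfl fun i _ => by ring
    have k3 := mul_nonneg (om_nonneg c r x) (show 0 ≤ t * t * ∑ i ∈ s, a i x ^ 2 +
      t * 2 * ∑ i ∈ s, a i x * b i x + g x by linarith [h x])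
    simp only [Pi.zero_apply]
    linarith
  rw [discrim] at h4
  linarith

end

theorem pow_deriv_freq (k m : ℕ) (hr : 0 < r) :
    HasDerivAt (fun t : ℝ => t ^ k / t ^ m) ((k - m) * (r ^ k / r ^ m) / r) r := by
  have h : ∀ n : ℕ, (n : ℝ) * r ^ (n - 1) = n * r ^ n / r := fun n => by
    cases n with
    | zero => simp
    | succ n => rw [Nat.add_sub_cancel, pow_succ]; field_simp
  refine ((hasDerivAt_pow k r).fun_div (hasDerivAt_pow m r) (by positivity)).congr_deriv ?_
  rw [h, h]
  field_simp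

theorem W_pos_freq (p : E m) : 0 < W p := one_pos.trans_le (one_le_W p)

theorem W_bd_freq (p : E m) : 0 ≤ W p - 1 ∧ W p - 1 ≤ ‖p‖ ^ 2 / W p ∧
    ‖p‖ ^ 2 / W p ≤ 2 * (W p - 1) ∧ 2 * (W p - 1) ≤ ‖p‖ ^ 2 := by
  have h1 := one_le_W p
  have h2 := W_sq p
  refine ⟨by linarith, ?_, ?_, by nlinarith⟩
  · rw [le_div_iff₀ (W_pos_freq p)]
    nlinarith
  · rw [div_le_iff₀ (W_pos_freq p)]
    nlinarith

theorem lbD_freq (hL : ∀ i, LipschitzWith L (u i)) (s : Finset ι) :
    LBfreq fun x => ∑ i ∈ s, 2 * (W (gradient (u i) x) - 1) :=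
  .sum s fun i => (LBfreq.const 2).mul ((LBfreq.W (hL i)).sub (.const 1))

theorem lbT_freq (hL : ∀ i, LipschitzWith L (u i)) (s : Finset ι) :
    LBfreq fun x => ∑ i ∈ s, ‖gradient (u i) x‖ ^ 2 / W (gradient (u i) x) :=
  .sum s fun i => (LBfreq.norm (hL i)).sq.divW _

theorem lbR_freq (hL : ∀ i, LipschitzWith L (u i)) (s : Finset ι) (c : E m) :
    LBfreq fun x => ∑ i ∈ s, ⟪x - c, gradient (u i) x⟫ ^ 2 / W (gradient (u i) x) :=
  .sum s fun i => (LBfreq.inner (hL i) c).sq.divW _

theorem lbH_freq (hL : ∀ i, LipschitzWith L (u i)) (s : Finset ι) (z : ℝ) :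
    LBfreq fun x => ∑ i ∈ s, (u i x - z) ^ 2 :=
  .sum s fun i => (LBfreq.ht (hL i) z).sq

theorem D_nonneg_freq (x : E m) : 0 ≤ ∑ i ∈ s, 2 * (W (gradient (u i) x) - 1) :=
  Finset.sum_nonneg fun _ _ => mul_nonneg zero_le_two (W_bd_freq _).1

theorem inner_id_freq (hL : ∀ i, LipschitzWith L (u i)) (h : Stat s u (ball c R)) (hr : 0 < r)
    (hrR : r < R) :
    r ^ 2 / r ^ m * ∫ x, 2 * (‖x - c‖ ^ 2 / r ^ 2) * om c r x *
      ∑ i ∈ s, 2 * (W (gradient (u i) x) - 1) =
      m * dF s u c r - 2 * tF s u c r + 2 * rF s u c r := by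
  have hl := (contDiff_chi c r).locallyLipschitz
  have hc := supp_freq (tsupport_chi (c := c) hr)
  have hd := (contDiff_chi c r).differentiable one_ne_zero
  have h1 := h.inner hL (Y := fun y => chi c r y • (y - c))
    (locLip_smul hl (LipschitzWith.id.sub (LipschitzWith.const c)).locallyLipschitz) hc.smul_right
    ((tsupport_smul_subset_left _ _).trans ((tsupport_chi hr).trans (closedBall_subset_ball hrR)))
  have h2 := dv_int_freq hl hc c
  have e0 : ∀ x, ⟪gradient (chi c r) x, x - c⟫ + chi c r x * m =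
      chi c r x * m - 2 * (‖x - c‖ ^ 2 / r ^ 2) * om c r x * 1 := fun x => by
    rw [grad_chi, real_inner_smul_left, real_inner_self_eq_norm_sq]
    ring
  have e1 : ∀ (x p : E m), W p * dv (fun y => chi c r y • (y - c)) x -
      ⟪fderiv ℝ (fun y => chi c r y • (y - c)) x (aa p), p⟫ =
      (chi c r x * m - 2 * (‖x - c‖ ^ 2 / r ^ 2) * om c r x * 1) +
      (chi c r x * (m * (W p - 1) - ‖p‖ ^ 2 / W p) +
        om c r x * (2 / r ^ 2 * (⟪x - c, p⟫ ^ 2 / W p - ‖x - c‖ ^ 2 * (W p - 1)))) := fun x p => by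
    rw [dv_freq (hd x), e0, ((hd x).hasFDerivAt.fun_smul (f := fun y => y - c)
      ((hasFDerivAt_id x).sub_const c)).fderiv]
    simp only [add_apply, smul_apply,
      ContinuousLinearMap.smulRight_apply, ContinuousLinearMap.id_apply, ← inner_grad, grad_chi,
      aa, inner_add_left, real_inner_smul_left, real_inner_smul_right, real_inner_self_eq_norm_sq]
    ring
  simp only [e0] at h2
  have i0 := ((LBfreq.const (m : ℝ)).chi c hr).sub ((LBfreq.const 1).som c hr)
  have i1 := fun i => ((((LBfreq.const (m : ℝ)).mul ((LBfreq.W (hL i)).sub (.const 1))).sub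
    ((LBfreq.norm (hL i)).sq.divW (u i))).chi c hr).add (((LBfreq.const (2 / r ^ 2)).mul
      (((LBfreq.inner (hL i) c).sq.divW (u i)).sub ((LBfreq.of_cont (f := fun x => ‖x - c‖ ^ 2)
        (by fun_prop)).mul ((LBfreq.W (hL i)).sub (.const 1))))).om c hr)
  simp only [e1] at h1
  have h5 := (integral_finsetSum s fun i _ => i1 i).trans ((Finset.sum_congr rfl fun i _ =>
    ((integral_add i0 (i1 i)).trans ((congrArg (· + _) h2).trans (zero_add _))).symm).trans h1)
  have j1 := (lbD_freq hL s).chi c hr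
  have j2 := (lbT_freq hL s).chi c hr
  have j3 := (lbR_freq hL s c).om c hr
  have j4 := (lbD_freq hL s).som c hr
  have h3 := (lin_freq j1 j2 j3 j4 (m / 2) (-1) (2 / r ^ 2) (-1 / 2)).symm.trans
    ((integral_congr_ae (Eventually.of_forall fun x => by
      simp only [Pi.add_apply, Finset.mul_sum, ← Finset.sum_add_distrib]
      exact Finset.sum_congr rfl fun i _ => by ring)).trans h5)
  have h4 : r ^ 2 / r ^ m * (2 / r ^ 2) = 2 / r ^ m := by field_simp
  rw [dF, tF, rF, ← h4]
  linear_combination (-2 * (r ^ 2 / r ^ m)) * h3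

theorem tF_nonneg_freq (hr : 0 < r) : 0 ≤ tF s u c r :=
  mul_nonneg (by positivity) (integral_nonneg fun x => mul_nonneg (chi_nonneg c r x)
    (Finset.sum_nonneg fun _ _ => div_nonneg (sq_nonneg _) (W_pos_freq _).le))

/-- The inner variation identity. -/
theorem dF_deriv (hL : ∀ i, LipschitzWith L (u i)) (h : Stat s u (ball c R)) (hr : 0 < r)
    (hrR : r < R) :
    HasDerivAt (dF s u c) ((2 * rF s u c r + 2 * (dF s u c r - tF s u c r)) / r) r ∧
      r ^ 2 / r ^ m * ∫ x, om c r x * ∑ i ∈ s, (W (gradient (u i) x) - 1) ≤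
        2 * rF s u c r + (m + 4) * dF s u c r := by
  have h1 := inner_id_freq hL h hr hrR
  constructor
  · obtain ⟨C, hC⟩ := (lbD_freq hL s).2 c (2 * r)
    refine ((pow_deriv_freq 2 m hr).fun_mul (hasDerivAt_int_chi c hr
      (lbD_freq hL s).1.aestronglyMeasurable (Eventually.of_forall hC))).congr_deriv ?_
    rw [← mul_div_assoc (r ^ 2 / r ^ m), h1, dF]
    push_cast
    ring
  have j1 := (lbD_freq hL s).chi c hr
  have j4 := (lbD_freq hL s).som c hr
  have h2 := integral_mono ((LBfreq.sum s fun i => (LBfreq.W (hL i)).sub (.const 1)).om c hr)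
    (j4.add (j1.const_mul 4)) fun x => by
      have k := mul_le_mul_of_nonneg_right (om_le_split (c := c) hr x) (D_nonneg_freq (s := s) (u := u) x)
      simp only [Pi.add_apply, ← Finset.mul_sum] at k ⊢
      linarith
  rw [integral_add' j4 (j1.const_mul 4), integral_const_mul] at h2
  have h3 := mul_le_mul_of_nonneg_left h2 (show 0 ≤ r ^ 2 / r ^ m by positivity)
  rw [mul_add, h1, mul_left_comm, ← dF] at h3
  linarith [tF_nonneg_freq (s := s) (u := u) (c := c) hr]

theorem hF_deriv (hL : ∀ i, LipschitzWith L (u i)) (z : ℝ) (hr : 0 < r) :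
    HasDerivAt (hF s u z c) (2 * t0F s u z c r / r) r := by
  have hθ : ContDiff ℝ 1 fun t : ℝ => (t - z) ^ 2 := by fun_prop
  have h1 := dv_int_freq (f := fun x => om c r x * ∑ i ∈ s, (u i x - z) ^ 2)
    (locLip_mul (contDiff_om c r).locallyLipschitz
      (locLip_sum s fun i _ => hθ.locallyLipschitz.comp (hL i).locallyLipschitz))
    (supp_freq (tsupport_om hr)).mul_right c
  have j1 := (lbH_freq hL s z).om c hr
  have j2 := (LBfreq.sum s fun i => (LBfreq.ht (hL i) z).mul (.inner (hL i) c)).om c hr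
  have j3 := (lbH_freq hL s z).spr c hr
  have h2 := (lin_freq j2 j3 j1 j1 2 (-1) m 0).symm.trans (Eq.trans (by
    refine integral_congr_ae (((eventually_all_finset s).2
      fun i _ => locLip_ae_diff (hL i).locallyLipschitz).mono fun x hx => ?_)
    have k1 : ∀ i ∈ s, DifferentiableAt ℝ (fun y => (u i y - z) ^ 2) x := fun i hi =>
      ((hx i hi).sub_const z).pow 2
    have k2 : ∀ i ∈ s, gradient (fun y => (u i y - z) ^ 2) x =
        (2 * (u i x - z)) • gradient (u i) x := fun i hi =>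
      grad_comp (θ := fun t => (t - z) ^ 2) (hx i hi)
        (by simpa using ((hasDerivAt_id (u i x)).sub_const z).fun_pow 2)
    beta_reduce
    rw [grad_mul ((contDiff_om c r).differentiable one_ne_zero x) (.fun_sum k1), grad_sum s k1,
      Finset.sum_congr rfl k2, grad_om]
    simp only [inner_add_right, real_inner_smul_right, inner_sum, real_inner_self_eq_norm_sq,
      real_inner_comm (x - c), mul_assoc, ← Finset.mul_sum]
    ring) h1)
  obtain ⟨C, hC⟩ := (lbH_freq hL s z).2 c (2 * r)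
  have h3 := (pow_deriv_freq 0 m hr).const_mul 2
  simp only [pow_zero, mul_one_div] at h3
  refine (h3.fun_mul (hasDerivAt_int_om c hr (lbH_freq hL s z).1.aestronglyMeasurable
    (Eventually.of_forall hC))).congr_deriv ?_
  rw [t0F]
  push_cast
  linear_combination (-2 / r ^ m / r) * h2

/-- The outer variation identity. -/
theorem tF_eq (hL : ∀ i, LipschitzWith L (u i)) (h : Stat s u (ball c R)) (z : ℝ) (hr : 0 < r)
    (hrR : r < R) : tF s u c r = 2 / r ^ m *
      ∫ x, om c r x * ∑ i ∈ s, (u i x - z) * ⟪x - c, gradient (u i) x⟫ / W (gradient (u i) x) := by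
  have h1 := h.outer (f := fun _ => z) (θ := id) (contDiff_chi c r).locallyLipschitz
    (supp_freq (tsupport_chi hr)) ((tsupport_chi hr).trans (closedBall_subset_ball hrR))
    (LocallyLipschitz.const z) LocallyLipschitz.id
  have i1 := fun i => ((LBfreq.norm (hL i)).sq.divW (u i)).chi c hr
  have i2 := fun i => (((LBfreq.ht (hL i) z).mul (.inner (hL i) c)).divW (u i)).om c hr
  have h2 : ∀ i ∈ s, ∫ x, ⟪aa (gradient (u i) x), gradient (fun y => chi c r y * id (u i y - z)) x⟫ =
      (∫ x, chi c r x * (‖gradient (u i) x‖ ^ 2 / W (gradient (u i) x))) - 2 / r ^ 2 *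
        ∫ x, om c r x * ((u i x - z) * ⟪x - c, gradient (u i) x⟫ / W (gradient (u i) x)) := by
    intro i _
    rw [← integral_const_mul, ← integral_sub (i1 i) ((i2 i).const_mul _)]
    refine integral_congr_ae ((locLip_ae_diff (hL i).locallyLipschitz).mono fun x hx => ?_)
    have k : gradient (fun y => u i y - z) x = gradient (u i) x := by
      simpa using grad_comp (θ := fun t => t - z) hx ((hasDerivAt_id (u i x)).sub_const z)
    simp only [id]
    rw [grad_mul ((contDiff_chi c r).differentiable one_ne_zero x) (hx.sub_const z), k, grad_chi]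
    simp only [aa, inner_add_right, real_inner_smul_left, real_inner_smul_right,
      real_inner_self_eq_norm_sq, real_inner_comm (x - c)]
    ring
  rw [Finset.sum_congr rfl h2, Finset.sum_sub_distrib, ← Finset.mul_sum,
    ← integral_finsetSum _ fun i _ => i1 i, ← integral_finsetSum _ fun i _ => i2 i] at h1
  simp only [← Finset.mul_sum] at h1
  have h4 : r ^ 2 / r ^ m * (2 / r ^ 2) = 2 / r ^ m := by field_simp
  rw [tF, ← h4, sub_eq_zero.1 h1, mul_assoc]

theorem rF_nonneg (hr : 0 < r) : 0 ≤ rF s u c r :=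
  mul_nonneg (by positivity) (integral_nonneg fun x => mul_nonneg (om_nonneg c r x)
    (Finset.sum_nonneg fun _ _ => div_nonneg (sq_nonneg _) (W_pos_freq _).le))

theorem hF_nonneg (z : ℝ) (hr : 0 < r) : 0 ≤ hF s u z c r :=
  mul_nonneg (by positivity) (integral_nonneg fun x => mul_nonneg (om_nonneg c r x)
    (Finset.sum_nonneg fun _ _ => sq_nonneg _))

theorem dF_nonneg (hr : 0 < r) : 0 ≤ dF s u c r :=
  mul_nonneg (by positivity) (integral_nonneg fun x => mul_nonneg (chi_nonneg c r x)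
    (D_nonneg_freq x))

theorem tF_sq_le (hL : ∀ i, LipschitzWith L (u i)) (h : Stat s u (ball c R)) (z : ℝ) (hr : 0 < r)
    (hrR : r < R) : tF s u c r ^ 2 ≤ hF s u z c r * rF s u c r := by
  have h1 := cs_freq (s := s) (c := c) hr (fun i => LBfreq.ht (hL i) z)
    (fun i => (LBfreq.inner (hL i) c).divW (u i)) (lbR_freq hL s c)
    fun x => Finset.sum_le_sum fun i _ => by
      rw [div_pow]
      exact div_le_div_of_nonneg_left (sq_nonneg _) (W_pos_freq _)
        (le_self_pow₀ (one_le_W _) two_ne_zero)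
  simp only [← mul_div_assoc] at h1
  rw [tF_eq hL h z hr hrR, hF, rF, mul_pow, mul_mul_mul_comm, ← sq]
  exact mul_le_mul_of_nonneg_left h1 (sq_nonneg _)

theorem t0F_sq_le (hL : ∀ i, LipschitzWith L (u i)) (z : ℝ) (hr : 0 < r) :
    t0F s u z c r ^ 2 ≤ WL L * (hF s u z c r * rF s u c r) := by
  have h1 := cs_freq (s := s) (c := c) hr (fun i => LBfreq.ht (hL i) z)
    (fun i => LBfreq.inner (hL i) c) ((LBfreq.const (WL L)).mul (lbR_freq hL s c))
    fun x => by
      rw [Finset.mul_sum]
      refine Finset.sum_le_sum fun i _ => ?_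
      rw [← mul_div_assoc, le_div_iff₀ (W_pos_freq _), mul_comm]
      exact mul_le_mul_of_nonneg_right (W_le_WL (norm_grad_le (hL i) x)) (sq_nonneg _)
  simp only [mul_left_comm _ (WL L), integral_const_mul] at h1
  rw [t0F, hF, rF, mul_pow, mul_mul_mul_comm, ← sq, mul_left_comm]
  exact mul_le_mul_of_nonneg_left h1 (sq_nonneg _)

theorem tF_le_dF (hL : ∀ i, LipschitzWith L (u i)) (hr : 0 < r) :
    dF s u c r / 2 ≤ tF s u c r ∧ tF s u c r ≤ dF s u c r := by
  have j1 := (lbD_freq hL s).chi c hr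
  have j2 := (lbT_freq hL s).chi c hr
  constructor
  · rw [dF, tF, mul_div_assoc, ← integral_div]
    refine mul_le_mul_of_nonneg_left (integral_mono (j1.div_const 2) j2 fun x => ?_) (by positivity)
    beta_reduce
    rw [mul_div_assoc, Finset.sum_div]
    exact mul_le_mul_of_nonneg_left (Finset.sum_le_sum fun i _ => by
      linarith [(W_bd_freq (gradient (u i) x)).2.1]) (chi_nonneg c r x)
  · exact mul_le_mul_of_nonneg_left (integral_mono j2 j1 fun x => mul_le_mul_of_nonneg_left
      (Finset.sum_le_sum fun i _ => (W_bd_freq _).2.2.1) (chi_nonneg c r x)) (by positivity)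

theorem t0F_sub (hL : ∀ i, LipschitzWith L (u i)) (h : Stat s u (ball c R)) (z : ℝ) (hr : 0 < r)
    (hrR : r < R) {B : ℝ} (hB0 : 0 ≤ B) (hB : ∀ i ∈ s, ∀ x ∈ ball c r, |u i x - z| ≤ B * r) :
    |t0F s u z c r - tF s u c r| ≤ (2 * m + 8) * B * (rF s u c r + dF s u c r) := by
  have j1 := (LBfreq.sum s fun i => (LBfreq.ht (hL i) z).mul (.inner (hL i) c)).om c hr
  have j2 := (LBfreq.sum s fun i =>
    ((LBfreq.ht (hL i) z).mul (.inner (hL i) c)).divW (u i)).om c hr
  have j3 := (LBfreq.sum s fun i => (LBfreq.W (hL i)).sub (.const 1)).om c hr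
  have h1 := norm_integral_le_of_norm_le (μ := volume) (j3.const_mul (B * r ^ 2))
    (f := fun x => om c r x * ∑ i ∈ s, (u i x - z) * ⟪x - c, gradient (u i) x⟫ -
      om c r x * ∑ i ∈ s, (u i x - z) * ⟪x - c, gradient (u i) x⟫ / W (gradient (u i) x))
    (Eventually.of_forall fun x => by
      by_cases hx : x ∈ ball c r
      swap
      · simp [om_zero_freq hr x hx]
      rw [← mul_sub, Real.norm_eq_abs, abs_mul, abs_of_nonneg (om_nonneg c r x), mul_left_comm,
        ← Finset.sum_sub_distrib, Finset.mul_sum]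
      refine mul_le_mul_of_nonneg_left ((Finset.abs_sum_le_sum_abs _ _).trans
        (Finset.sum_le_sum fun i hi => ?_)) (om_nonneg c r x)
      have k0 := W_pos_freq (gradient (u i) x)
      have k1 : |⟪x - c, gradient (u i) x⟫| ≤ r * W (gradient (u i) x) :=
        (abs_real_inner_le_norm _ _).trans (mul_le_mul (mem_ball_iff_norm.1 hx).le (norm_le_W _)
          (norm_nonneg _) hr.le)
      have k2 := (W_bd_freq (gradient (u i) x)).1
      rw [show (u i x - z) * ⟪x - c, gradient (u i) x⟫ -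
          (u i x - z) * ⟪x - c, gradient (u i) x⟫ / W (gradient (u i) x) =
          (u i x - z) * ⟪x - c, gradient (u i) x⟫ * (W (gradient (u i) x) - 1) /
            W (gradient (u i) x) by field_simp, abs_div, abs_mul, abs_mul, abs_of_nonneg k2,
        abs_of_pos k0, div_le_iff₀ k0]
      have k3 := mul_le_mul_of_nonneg_right (mul_le_mul (hB i hi x hx) k1 (abs_nonneg _)
        (by positivity)) k2
      linarith)
  rw [integral_sub j1 j2, integral_const_mul, Real.norm_eq_abs] at h1
  have h2 := mul_le_mul_of_nonneg_left (dF_deriv hL h hr hrR).2 hB0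
  have h3 := mul_le_mul_of_nonneg_left h1 (show 0 ≤ 2 / r ^ m by positivity)
  have h4 := mul_nonneg hB0 (rF_nonneg (s := s) (u := u) (c := c) hr)
  have h5 := mul_nonneg (Nat.cast_nonneg (α := ℝ) m) h4
  rw [tF_eq hL h z hr hrR, t0F, ← mul_sub, abs_mul, abs_of_pos (show 0 < 2 / r ^ m by positivity)]
  refine h3.trans ?_
  rw [show ∀ a : ℝ, 2 / r ^ m * (B * r ^ 2 * a) = 2 * (B * (r ^ 2 / r ^ m * a)) from fun a => by ring]
  linarith

theorem dF_le_En (hL : ∀ i, LipschitzWith L (u i)) (hr : 0 < r) :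
    dF s u c r ≤ r ^ 2 / r ^ m * En s u 0 c r ∧
      r ^ 2 / r ^ m * En s u 0 c (r / 2) ≤ 3 * WL L * dF s u c r := by
  have j1 := (lbD_freq hL s).chi c hr
  constructor
  · refine mul_le_mul_of_nonneg_left (up_freq (chi_zero_freq hr) j1 (intOn_En hL 0 c r 2)
      fun x => (mul_le_of_le_one_left (D_nonneg_freq x) (chi_le_one c r x)).trans
        (Finset.sum_le_sum fun i _ => ?_)) (by positivity)
    rw [sub_zero]
    exact (W_bd_freq _).2.2.2
  have hW := one_le_WL L
  rw [dF, mul_left_comm, ← integral_const_mul]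
  refine mul_le_mul_of_nonneg_left (low_freq (j1.const_mul _) (fun x => mul_nonneg (by positivity)
    (mul_nonneg (chi_nonneg c r x) (D_nonneg_freq x))) (intOn_En hL 0 c _ 2) fun x hx => ?_)
    (by positivity)
  have k1 : 1 ≤ 3 * chi c r x := by
    have := pow_le_pow_left₀ (by norm_num) (pr_ge_half hr hx) 3
    rw [chi]
    linarith
  have k2 : ∑ i ∈ s, ‖gradient (u i) x - 0‖ ^ 2 ≤ WL L * ∑ i ∈ s, 2 * (W (gradient (u i) x) - 1) := by
    rw [Finset.mul_sum]
    refine Finset.sum_le_sum fun i _ => ?_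
    have k3 := (div_le_iff₀ (W_pos_freq _)).1 (W_bd_freq (gradient (u i) x)).2.2.1
    have k4 := mul_le_mul_of_nonneg_left (W_le_WL (norm_grad_le (hL i) x))
      (W_bd_freq (gradient (u i) x)).1
    rw [sub_zero]
    linarith
  have k3 := mul_le_mul_of_nonneg_right k1
    (mul_nonneg (zero_le_one.trans hW) (D_nonneg_freq (s := s) (u := u) x))
  linarith

theorem hF_le_Ht (hL : ∀ i, LipschitzWith L (u i)) (z : ℝ) (hr : 0 < r) :
    hF s u z c r ≤ 6 / r ^ m * Ht s u z c r ∧ Ht s u z c (r / 2) / r ^ m ≤ hF s u z c r := by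
  have j1 := (lbH_freq hL s z).om c hr
  have h0 : ∀ x, 0 ≤ ∑ i ∈ s, (u i x - z) ^ 2 := fun x => by positivity
  constructor
  · have h1 := up_freq (om_zero_freq hr) j1 ((intOn_Ht hL z c r).const_mul 3)
      fun x => mul_le_mul_of_nonneg_right (om_le c r x) (h0 x)
    rw [integral_const_mul] at h1
    refine (mul_le_mul_of_nonneg_left h1 (by positivity)).trans_eq ?_
    rw [Ht]
    ring
  have h1 := low_freq (j1.const_mul 2) (fun x => mul_nonneg zero_le_two
    (mul_nonneg (om_nonneg c r x) (h0 x))) (intOn_Ht (s := s) hL z c (r / 2)) fun x hx => by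
      have k1 : 1 ≤ 2 * om c r x := by
        have := pow_le_pow_left₀ (by norm_num) (pr_ge_half hr hx) 2
        rw [om]
        linarith
      linarith [mul_le_mul_of_nonneg_right k1 (h0 x)]
  rw [integral_const_mul] at h1
  rw [hF, div_mul_eq_mul_div]
  exact div_le_div_of_nonneg_right h1 (by positivity)

end Pool.Agent.Lib.MP_8daebb_an.LG
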