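import Pool.Agent.Lib.MP_8daebb_an.LG.MolA
import Pool.Agent.Lib.MP_8daebb_an.LG.Alg

open MeasureTheory Metric Set Filter Topology
open scoped RealInnerProductSpace NNReal

namespace Pool.Agent.Lib.MP_8daebb_an.LG

variable {m : ℕ} {ι : Type}

/-! MOLC. Taylor expansion of the mollification at a fixed scale. -/

theorem taylor_molc {a h : ℝ} (ha : a ≤ 1) (hb : a + h ≤ 1) :
    |max (a + h) 0 ^ 4 - max a 0 ^ 4 - 4 * max a 0 ^ 3 * h - 6 * max a 0 ^ 2 * h ^ 2| ≤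
      11 * |h| ^ 3 := by
  have h3 : 0 ≤ |h| ^ 3 := by positivity
  rcases le_total 0 a with h1 | h1 <;> rcases le_total 0 (a + h) with h2 | h2
  · rw [max_eq_left h1, max_eq_left h2,
      show (a + h) ^ 4 - a ^ 4 - 4 * a ^ 3 * h - 6 * a ^ 2 * h ^ 2 = (3 * a + (a + h)) * h ^ 3 by
        ring, abs_mul, abs_pow, abs_of_nonneg (by linarith)]
    exact mul_le_mul_of_nonneg_right (by linarith) h3
  · obtain ⟨b, rfl⟩ : ∃ b, h = -b := ⟨-h, (neg_neg h).symm⟩
    have hb0 : a ≤ b := by linarith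
    rw [max_eq_left h1, max_eq_right h2, abs_neg, abs_of_nonneg (h1.trans hb0)]
    have e1 : a ^ 4 ≤ b ^ 3 := by
      calc a ^ 4 = a * a ^ 3 := by ring
        _ ≤ 1 * b ^ 3 := by gcongr
        _ = b ^ 3 := one_mul _
    have e2 : a ^ 3 * b ≤ b ^ 3 := by
      have hb1 := h1.trans hb0
      calc a ^ 3 * b = a * (a ^ 2 * b) := by ring
        _ ≤ 1 * (b ^ 2 * b) := by gcongr
        _ = b ^ 3 := by ring
    have e3 : a ^ 2 * b ^ 2 ≤ b ^ 3 := by
      calc a ^ 2 * b ^ 2 = a * (a * b ^ 2) := by ring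
        _ ≤ 1 * (b * b ^ 2) := by gcongr
        _ = b ^ 3 := by ring
    have e4 : 0 ≤ a ^ 4 := by positivity
    have e5 : 0 ≤ a ^ 3 * b := mul_nonneg (by positivity) (h1.trans hb0)
    have e6 : 0 ≤ a ^ 2 * b ^ 2 := by positivity
    rw [abs_le]
    constructor <;> nlinarith
  · have hh : a + h ≤ h := by linarith
    rw [max_eq_right h1, max_eq_left h2, abs_of_nonneg (h2.trans hh),
      show (a + h) ^ 4 - 0 ^ 4 - 4 * 0 ^ 3 * h - 6 * 0 ^ 2 * h ^ 2 = (a + h) * (a + h) ^ 3 by ring,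
      abs_of_nonneg (by positivity)]
    have := h2.trans hh
    gcongr
    linarith
  · rw [max_eq_right h1, max_eq_right h2]
    simp

/-- The remainder of the expansion of the kernel. -/
noncomputable def remMolc (y z : E m) : ℝ :=
  pr y (1 / 2) z ^ 4 - pr 0 (1 / 2) z ^ 4 - 32 * pr 0 (1 / 2) z ^ 3 * ⟪z, y⟫ -
    (768 * pr 0 (1 / 2) z ^ 2 * (⟪z, y⟫ * ⟪z, y⟫) - 32 * pr 0 (1 / 2) z ^ 3 * ⟪y, y⟫) / 2

theorem pr_zero_molc {y z : E m} (hy : y ∈ ball (0 : E m) (1 / 4)) (hz : z ∉ ball (0 : E m) 1) :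
    pr y (1 / 2) z = 0 := by
  refine pr_eq_zero (by norm_num) fun h => hz ?_
  have := dist_triangle z y 0
  rw [mem_ball] at *
  linarith

theorem pr0_molc {z : E m} (hz : z ∉ ball (0 : E m) 1) : pr 0 (1 / 2) z = 0 :=
  pr_zero_molc (mem_ball_self (by norm_num)) hz

theorem rem_le_molc {y z : E m} (hy : y ∈ ball (0 : E m) (1 / 4)) (hz : z ∈ ball (0 : E m) 1) :
    |remMolc y z| ≤ 9000 * ‖y‖ ^ 3 := by
  rw [mem_ball_zero_iff] at hy hz
  have hy0 := norm_nonneg y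
  have e1 : pr 0 (1 / 2) z = max (1 - 4 * ‖z‖ ^ 2) 0 := by
    rw [pr, sub_zero]
    congr 1
    ring
  have e0 : 1 - 4 * ‖z‖ ^ 2 + (8 * ⟪z, y⟫ - 4 * ‖y‖ ^ 2) = 1 - 4 * ‖z - y‖ ^ 2 := by
    rw [norm_sub_sq_real]
    ring
  have e2 : pr y (1 / 2) z = max (1 - 4 * ‖z‖ ^ 2 + (8 * ⟪z, y⟫ - 4 * ‖y‖ ^ 2)) 0 := by
    rw [pr, e0]
    congr 1
    ring
  have h1 := taylor_molc (a := 1 - 4 * ‖z‖ ^ 2) (h := 8 * ⟪z, y⟫ - 4 * ‖y‖ ^ 2)
    (by nlinarith [sq_nonneg ‖z‖]) (by rw [e0]; nlinarith [sq_nonneg ‖z - y‖])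
  rw [← e1, ← e2] at h1
  have h2 : |⟪z, y⟫| ≤ ‖y‖ :=
    (abs_real_inner_le_norm z y).trans (mul_le_of_le_one_left hy0 hz.le)
  have h3 : |8 * ⟪z, y⟫ - 4 * ‖y‖ ^ 2| ≤ 9 * ‖y‖ := by
    have := abs_le.1 h2
    rw [abs_le]
    constructor <;> nlinarith
  have h4 : |8 * ⟪z, y⟫ - 4 * ‖y‖ ^ 2| ^ 3 ≤ (9 * ‖y‖) ^ 3 := by gcongr
  have h5 : |pr 0 (1 / 2) z ^ 2 * (‖y‖ ^ 2 * (96 * ‖y‖ ^ 2 - 384 * ⟪z, y⟫))| ≤
      1 * (‖y‖ ^ 2 * (408 * ‖y‖)) := by
    rw [abs_mul, abs_mul, abs_of_nonneg (sq_nonneg _), abs_of_nonneg (sq_nonneg _)]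
    gcongr
    · exact pow_le_one₀ (pr_nonneg _ _ _) (pr_le_one _ _ _)
    · have := abs_le.1 h2
      rw [abs_le]
      constructor <;> nlinarith
  have e : remMolc y z = (pr y (1 / 2) z ^ 4 - pr 0 (1 / 2) z ^ 4 -
      4 * pr 0 (1 / 2) z ^ 3 * (8 * ⟪z, y⟫ - 4 * ‖y‖ ^ 2) -
      6 * pr 0 (1 / 2) z ^ 2 * (8 * ⟪z, y⟫ - 4 * ‖y‖ ^ 2) ^ 2) +
      pr 0 (1 / 2) z ^ 2 * (‖y‖ ^ 2 * (96 * ‖y‖ ^ 2 - 384 * ⟪z, y⟫)) := by
    rw [remMolc, real_inner_self_eq_norm_sq]
    ring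
  rw [e]
  refine (abs_add_le _ _).trans ?_
  have h6 : 0 ≤ ‖y‖ ^ 3 := by positivity
  nlinarith

section

variable {G : Type} [NormedAddCommGroup G] [NormedSpace ℝ G]

omit [NormedSpace ℝ G] in
theorem int_molc {f : E m → G} (hf : Continuous f) (h0 : ∀ z ∉ ball (0 : E m) 1, f z = 0) :
    Integrable f :=
  hf.integrable_of_hasCompactSupport (HasCompactSupport.intro (isCompact_closedBall 0 1)
    fun z hz => h0 z fun h => hz (ball_subset_closedBall h))

theorem bound_molc {f : E m → G} {g : E m → ℝ} (hg : IntegrableOn g (ball 0 1))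
    (h0 : ∀ z ∉ ball (0 : E m) 1, f z = 0) {B : ℝ} (h : ∀ z ∈ ball (0 : E m) 1, ‖f z‖ ≤ B * g z) :
    ‖∫ z, f z‖ ≤ B * ∫ z in ball 0 1, g z := by
  rw [← setIntegral_eq_integral_of_forall_compl_eq_zero h0, ← integral_const_mul]
  exact norm_integral_le_of_norm_le (hg.const_mul B)
    ((ae_restrict_mem measurableSet_ball).mono h)

end

/-- The kernel of the second order term. -/
noncomputable def kerMolc (z : E m) : E m →L[ℝ] E m :=
  (768 * pr 0 (1 / 2) z ^ 2) • (innerSL ℝ z).smulRight z -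
    (32 * pr 0 (1 / 2) z ^ 3) • ContinuousLinearMap.id ℝ (E m)

theorem ker_apply_molc (z x y : E m) : ⟪y, kerMolc z x⟫ =
    768 * pr 0 (1 / 2) z ^ 2 * (⟪z, x⟫ * ⟪z, y⟫) - 32 * pr 0 (1 / 2) z ^ 3 * ⟪x, y⟫ := by
  simp only [kerMolc, sub_apply, smul_apply,
    ContinuousLinearMap.smulRight_apply, innerSL_apply_apply, ContinuousLinearMap.id_apply,
    inner_sub_right, real_inner_smul_right]
  rw [real_inner_comm z y, real_inner_comm x y]

theorem ker_cont_molc : Continuous (kerMolc : E m → E m →L[ℝ] E m) := by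
  have h := continuous_pr (0 : E m) (1 / 2)
  have h1 : Continuous fun z : E m => (innerSL ℝ z).smulRight z :=
    ((ContinuousLinearMap.smulRightL ℝ (E m) (E m)).continuous.comp
      (innerSL ℝ (E := E m)).continuous).clm_apply continuous_id
  exact ((continuous_const.mul (h.pow 2)).smul h1).sub
    ((continuous_const.mul (h.pow 3)).smul continuous_const)

theorem ker_le_molc {z : E m} (hz : z ∈ ball (0 : E m) 1) : ‖kerMolc z‖ ≤ 800 := by
  rw [mem_ball_zero_iff] at hz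
  have h0 := pr_nonneg (0 : E m) (1 / 2) z
  have h2 := pow_le_one₀ h0 (pr_le_one _ _ _) (n := 2)
  have h3 := pow_le_one₀ h0 (pr_le_one _ _ _) (n := 3)
  have h4 : ‖(innerSL ℝ z).smulRight z‖ ≤ 1 := by
    rw [ContinuousLinearMap.norm_smulRight_apply, innerSL_apply_norm]
    exact mul_le_one₀ hz.le (norm_nonneg _) hz.le
  have h5 : ‖ContinuousLinearMap.id ℝ (E m)‖ ≤ 1 := ContinuousLinearMap.norm_id_le
  refine (norm_sub_le _ _).trans ?_
  rw [norm_smul, norm_smul, Real.norm_of_nonneg (by positivity),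
    Real.norm_of_nonneg (by positivity)]
  calc _ ≤ 768 * 1 * 1 + 32 * 1 * 1 := by gcongr
    _ ≤ (800 : ℝ) := by norm_num

/-- The trace term. -/
theorem trace_molc {k : E m → ℝ} {K : ℝ≥0} (hk : LipschitzWith K k) {F : E m → E m}
    (hF : IntegrableOn F (ball 0 1)) (hd : DivFree (fun y => gradient k y - F y) (ball 0 1)) :
    |∫ z, k z * (768 * pr 0 (1 / 2) z ^ 2 * ⟪z, z⟫ - 32 * pr 0 (1 / 2) z ^ 3 * m)| ≤
      32 * ∫ z in ball 0 1, ‖F z‖ := by
  have hr : (0 : ℝ) < 1 / 2 := by norm_num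
  obtain ⟨U, hU⟩ : ∃ U : E m → E m, U = fun z => chi 0 (1 / 2) z • z := ⟨_, rfl⟩
  have hUc : ContDiff ℝ 1 U := hU ▸ (contDiff_chi _ _).smul contDiff_id
  have hU0 : ∀ z ∉ ball (0 : E m) 1, U z = 0 := fun z hz => by
    simp only [hU, chi, pr0_molc hz, ne_eq, OfNat.ofNat_ne_zero, not_false_eq_true, zero_pow,
      zero_smul]
  have hU1 : ∀ z ∈ ball (0 : E m) 1, ‖U z‖ ≤ 1 := fun z hz => by
    rw [hU, norm_smul, Real.norm_of_nonneg (chi_nonneg _ _ _)]
    exact mul_le_one₀ (chi_le_one _ _ _) (norm_nonneg _) (mem_ball_zero_iff.1 hz).le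
  have hdv : ∀ z, 768 * pr 0 (1 / 2) z ^ 2 * ⟪z, z⟫ - 32 * pr 0 (1 / 2) z ^ 3 * m =
      -32 * dv U z := fun z => by
    rw [hU, dv_smul ((contDiff_chi _ _).differentiable one_ne_zero z) differentiableAt_fun_id,
      grad_chi, dv, fderiv_fun_id, trS_id, sub_zero, real_inner_smul_left, om, chi]
    ring
  have hb : ∀ Ξ : E m → E m, ∀ z ∈ ball (0 : E m) 1, ‖⟪Ξ z, U z⟫‖ ≤ 1 * ‖Ξ z‖ := fun Ξ z hz => by
    rw [mul_comm]
    exact (norm_inner_le_norm _ _).trans (mul_le_mul_of_nonneg_left (hU1 z hz) (norm_nonneg _))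
  have hi : ∀ Ξ : E m → E m, IntegrableOn Ξ (ball 0 1) → Integrable fun z => ⟪Ξ z, U z⟫ := by
    intro Ξ hΞ
    refine IntegrableOn.integrable_of_forall_notMem_eq_zero (s := ball 0 1) ?_
      fun z hz => by rw [hU0 z hz, inner_zero_right]
    exact (hΞ.norm.const_mul 1).mono' (hΞ.1.inner hUc.continuous.aestronglyMeasurable)
      ((ae_restrict_mem measurableSet_ball).mono (hb Ξ))
  have hA := hi (gradient k) (intOn_ball (meas_grad k).aestronglyMeasurable
    (ae_of_all _ fun z _ => norm_grad_le hk z))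
  have hB : Integrable fun z => k z * dv U z := by
    have h1 : ∀ z, dv U z = -24 * pr 0 (1 / 2) z ^ 2 * ⟪z, z⟫ + pr 0 (1 / 2) z ^ 3 * m :=
      fun z => by linarith [hdv z]
    have h2 := continuous_pr (0 : E m) (1 / 2)
    have h3 := hk.continuous
    simp only [h1]
    exact int_molc (by fun_prop) fun z hz => by rw [pr0_molc hz]; ring
  have h1 : ∫ z, (⟪gradient k z, U z⟫ + k z * dv U z) = 0 := by
    rw [← integral_dv_eq_zero (Y := fun z => k z • U z)
      (locLip_smul hk.locallyLipschitz hUc.locallyLipschitz)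
      (HasCompactSupport.intro (isCompact_closedBall 0 1) fun z hz => by
        rw [hU0 z fun h => hz (ball_subset_closedBall h), smul_zero])]
    refine integral_congr_ae (hk.ae_differentiableAt.mono fun z hz => ?_)
    exact (dv_smul hz (hUc.differentiable one_ne_zero z)).symm
  have h2 : ∫ z, -288 * (⟪gradient k z, U z⟫ - ⟪F z, U z⟫) = 0 := by
    have ho := contDiff_om (0 : E m) (1 / 2)
    have hs : tsupport (fun z : E m => om 0 (1 / 2) z * om 0 (1 / 2) z) ⊆ closedBall 0 (1 / 2) :=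
      (tsupport_mul_subset_left).trans (tsupport_om hr)
    rw [← hd _ (ho.mul ho).locallyLipschitz
      ((isCompact_closedBall 0 (1 / 2)).of_isClosed_subset (isClosed_tsupport _) hs)
      (hs.trans (closedBall_subset_ball (by norm_num)))]
    refine integral_congr_ae (ae_of_all _ fun z => ?_)
    have hz := ho.differentiable one_ne_zero z
    beta_reduce
    rw [grad_mul hz hz, grad_om]
    simp only [hU, sub_zero, inner_add_right, real_inner_smul_right, inner_sub_left, om, chi]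
    ring
  rw [integral_add hA hB] at h1
  rw [integral_const_mul, integral_sub hA (hi F hF)] at h2
  have h3 := bound_molc (f := fun z => ⟪F z, U z⟫) hF.norm
    (fun z hz => by rw [hU0 z hz, inner_zero_right]) (hb F)
  have h4 : ∫ z, k z * (768 * pr 0 (1 / 2) z ^ 2 * ⟪z, z⟫ - 32 * pr 0 (1 / 2) z ^ 3 * m) =
      -32 * ∫ z, k z * dv U z := by
    rw [← integral_const_mul]
    refine integral_congr_ae (ae_of_all _ fun z => ?_)
    simp only [hdv]
    ring
  rw [Real.norm_eq_abs, abs_le] at h3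
  rw [h4, abs_le]
  constructor <;> linarith [h3.1, h3.2]

theorem mol_taylor (m : ℕ) : ∃ C > 0, ∀ (k : E m → ℝ) (K : ℝ≥0), LipschitzWith K k →
    ∃ (p : E m) (S : E m →L[ℝ] E m), Sym S ∧
      ‖p‖ ≤ C * ∫ z in ball 0 1, |k z| ∧ ‖S‖ ≤ C * ∫ z in ball 0 1, |k z| ∧
      (∀ y ∈ ball (0 : E m) (1 / 4), |mol (1 / 2) k y - mol (1 / 2) k 0 - ⟪p, y⟫ - ⟪S y, y⟫ / 2| ≤
        C * ‖y‖ ^ 3 * ∫ z in ball 0 1, |k z|) ∧
      ∀ F : E m → E m, IntegrableOn F (ball 0 1) →
        DivFree (fun y => gradient k y - F y) (ball 0 1) →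
          |trS S| ≤ C * ∫ z in ball 0 1, ‖F z‖ := by
  obtain ⟨c, hc⟩ : ∃ c : ℝ, c = cm m / (1 / 2) ^ m := ⟨_, rfl⟩
  have hc0 : 0 < c := hc ▸ div_pos (cm_pos m) (by positivity)
  refine ⟨c * 9000, by positivity, fun k K hk => ?_⟩
  have hkc := hk.continuous
  have hP := continuous_pr (0 : E m) (1 / 2)
  have hg : IntegrableOn (fun z => |k z|) (ball (0 : E m) 1) :=
    (hkc.abs.continuousOn.integrableOn_compact (isCompact_closedBall 0 1)).mono_set
      ball_subset_closedBall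
  have hI : 0 ≤ ∫ z in ball (0 : E m) 1, |k z| := integral_nonneg fun _ => abs_nonneg _
  have p0 : ∀ z ∉ ball (0 : E m) 1, k z • (32 * pr 0 (1 / 2) z ^ 3) • z = 0 := fun z hz => by
    rw [pr0_molc hz, zero_pow three_ne_zero, mul_zero, zero_smul, smul_zero]
  have S0 : ∀ z ∉ ball (0 : E m) 1, k z • kerMolc z = 0 := fun z hz => by
    rw [kerMolc, pr0_molc hz]
    ext x
    simp
  have ip : Integrable fun z => k z • (32 * pr 0 (1 / 2) z ^ 3) • z := int_molc (by fun_prop) p0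
  have iS : Integrable fun z => k z • kerMolc z := int_molc (hkc.smul ker_cont_molc) S0
  have hp : ∀ y : E m, ⟪c • ∫ z, k z • (32 * pr 0 (1 / 2) z ^ 3) • z, y⟫ =
      c * ∫ z, k z * (32 * pr 0 (1 / 2) z ^ 3 * ⟪z, y⟫) := fun y => by
    rw [real_inner_smul_left, real_inner_comm, ← integral_inner ip]
    simp only [real_inner_smul_right, real_inner_comm y]
  have hS : ∀ x y : E m, ⟪(c • ∫ z, k z • kerMolc z) x, y⟫ = c * ∫ z, k z *
      (768 * pr 0 (1 / 2) z ^ 2 * (⟪z, x⟫ * ⟪z, y⟫) - 32 * pr 0 (1 / 2) z ^ 3 * ⟪x, y⟫) :=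
    fun x y => by
      rw [smul_apply, real_inner_smul_left, real_inner_comm,
        ContinuousLinearMap.integral_apply iS, ← integral_inner (iS.apply_continuousLinearMap x)]
      simp only [smul_apply, real_inner_smul_right, ker_apply_molc]
  have iq : ∀ x y : E m, Integrable fun z => k z *
      (768 * pr 0 (1 / 2) z ^ 2 * (⟪z, x⟫ * ⟪z, y⟫) - 32 * pr 0 (1 / 2) z ^ 3 * ⟪x, y⟫) :=
    fun x y => int_molc (by fun_prop) fun z hz => by rw [pr0_molc hz]; ring
  refine ⟨c • ∫ z, k z • (32 * pr 0 (1 / 2) z ^ 3) • z, c • ∫ z, k z • kerMolc z,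
    fun x y => ?_, ?_, ?_, fun y hy => ?_, fun F hF hd => ?_⟩
  · rw [real_inner_comm _ x, hS, hS, real_inner_comm x y]
    refine congrArg _ (integral_congr_ae (ae_of_all _ fun z => ?_))
    beta_reduce
    ring
  · rw [norm_smul, Real.norm_of_nonneg hc0.le, mul_assoc]
    refine mul_le_mul_of_nonneg_left (bound_molc hg p0 fun z hz => ?_) hc0.le
    have h0 := pr_nonneg (0 : E m) (1 / 2) z
    have h3 := pow_le_one₀ h0 (pr_le_one _ _ _) (n := 3)
    have h4 := (mem_ball_zero_iff.1 hz).le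
    rw [norm_smul, norm_smul, mul_comm, Real.norm_of_nonneg (by positivity), Real.norm_eq_abs]
    refine mul_le_mul_of_nonneg_right ?_ (abs_nonneg _)
    calc _ ≤ 32 * 1 * 1 := by gcongr
      _ ≤ (9000 : ℝ) := by norm_num
  · rw [norm_smul, Real.norm_of_nonneg hc0.le, mul_assoc]
    refine mul_le_mul_of_nonneg_left (bound_molc hg S0 fun z hz => ?_) hc0.le
    rw [norm_smul, mul_comm, Real.norm_eq_abs]
    exact mul_le_mul_of_nonneg_right ((ker_le_molc hz).trans (by norm_num)) (abs_nonneg _)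
  · have hy' := continuous_pr y (1 / 2)
    have i1 : Integrable fun z => pr y (1 / 2) z ^ 4 * k z :=
      int_molc (by fun_prop) fun z hz => by rw [pr_zero_molc hy hz]; ring
    have i2 : Integrable fun z => pr 0 (1 / 2) z ^ 4 * k z :=
      int_molc (by fun_prop) fun z hz => by rw [pr0_molc hz]; ring
    have i3 : Integrable fun z => k z * (32 * pr 0 (1 / 2) z ^ 3 * ⟪z, y⟫) :=
      int_molc (by fun_prop) fun z hz => by rw [pr0_molc hz]; ring
    have e : ∫ z, k z * remMolc y z = (∫ z, pr y (1 / 2) z ^ 4 * k z) -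
        (∫ z, pr 0 (1 / 2) z ^ 4 * k z) - (∫ z, k z * (32 * pr 0 (1 / 2) z ^ 3 * ⟪z, y⟫)) -
        (∫ z, k z * (768 * pr 0 (1 / 2) z ^ 2 * (⟪z, y⟫ * ⟪z, y⟫) -
          32 * pr 0 (1 / 2) z ^ 3 * ⟪y, y⟫)) / 2 := by
      rw [← integral_sub i1 i2, ← integral_sub (i1.sub' i2) i3, ← integral_div,
        ← integral_sub ((i1.sub' i2).sub' i3) ((iq y y).div_const 2)]
      refine integral_congr_ae (ae_of_all _ fun z => ?_)
      simp only [remMolc]
      ring
    have h1 := bound_molc (f := fun z => k z * remMolc y z) hg (B := 9000 * ‖y‖ ^ 3)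
      (fun z hz => by rw [remMolc, pr0_molc hz, pr_zero_molc hy hz]; ring) fun z hz => by
        rw [norm_mul, mul_comm]
        exact mul_le_mul_of_nonneg_right (rem_le_molc hy hz) (abs_nonneg _)
    rw [hp, hS, mol, mol, ← hc, mul_div_assoc, ← mul_sub, ← mul_sub, ← mul_sub, ← e, abs_mul,
      abs_of_pos hc0, mul_assoc, mul_assoc, ← mul_assoc 9000]
    exact mul_le_mul_of_nonneg_left h1 hc0.le
  · have h1 := trace_molc hk hF hd
    have h2 : 0 ≤ ∫ z in ball (0 : E m) 1, ‖F z‖ := integral_nonneg fun _ => norm_nonneg _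
    have h3 : ∀ b : Fin m, ⟪eb b, eb b⟫ = (1 : ℝ) := fun b => by simp [eb]
    have e : trS (c • ∫ z, k z • kerMolc z) =
        c * ∫ z, k z * (768 * pr 0 (1 / 2) z ^ 2 * ⟪z, z⟫ - 32 * pr 0 (1 / 2) z ^ 3 * m) := by
      simp only [trS, hS]
      rw [← Finset.mul_sum, ← integral_finsetSum _ fun b _ => iq _ _]
      congr 1
      refine integral_congr_ae (ae_of_all _ fun z => ?_)
      simp only [← Finset.mul_sum, Finset.sum_sub_distrib, sum_inner_eb, h3, Finset.sum_const,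
        Finset.card_univ, Fintype.card_fin, nsmul_eq_mul, mul_one]
      ring
    rw [e, abs_mul, abs_of_pos hc0, mul_assoc]
    exact mul_le_mul_of_nonneg_left (h1.trans (by linarith)) hc0.le

end Pool.Agent.Lib.MP_8daebb_an.LG
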