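import Pool.Agent.Lib.MP_8daebb_an.LG.MolB
import Pool.Agent.Lib.MP_8daebb_an.LG.MolC
import Pool.Agent.Lib.MP_8daebb_an.LG.Vit
import Pool.Agent.Lib.MP_8daebb_an.LG.Weak
import Pool.Agent.Lib.MP_8daebb_an.LG.LipD

open MeasureTheory Metric Set Filter Topology
open scoped RealInnerProductSpace NNReal

namespace Pool.Agent.Lib.MP_8daebb_an.LG

variable {m : ℕ} {ι : Type}

/-! HA. Harmonic approximation at unit scale. -/

theorem intOn_cont_ha {f : E m → ℝ} (hf : Continuous f) (c : E m) (r : ℝ) :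
    IntegrableOn f (ball c r) :=
  (hf.continuousOn.integrableOn_compact (isCompact_closedBall c r)).mono_set ball_subset_closedBall

theorem grad_sub_const_ha (f : E m → ℝ) (a : ℝ) (x : E m) :
    gradient (fun y => f y - a) x = gradient f x := by
  unfold gradient
  rw [fderiv_sub_const]

theorem sq3_ha {x a b c B C : ℝ} (hx : x = a + b + c) (hb : |b| ≤ B) (hc : |c| ≤ C) :
    x ^ 2 ≤ 3 * a ^ 2 + (3 * B ^ 2 + 3 * C ^ 2) := by
  have h1 : b ^ 2 ≤ B ^ 2 := by
    rw [← sq_abs b]; exact pow_le_pow_left₀ (abs_nonneg _) hb 2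
  have h2 : c ^ 2 ≤ C ^ 2 := by
    rw [← sq_abs c]; exact pow_le_pow_left₀ (abs_nonneg _) hc 2
  rw [hx]
  nlinarith [sq_nonneg (a - b), sq_nonneg (a - c), sq_nonneg (b - c)]

theorem harm_approx (m : ℕ) : ∃ C₁ > 0, ∀ θ : ℝ, 0 < θ → θ ≤ 1 / 8 → ∀ δ > 0, ∃ C₂ > 0,
    ∀ (k : E m → ℝ) (F : E m → E m) (EE T : ℝ), LocallyLipschitz k → IntegrableOn F (ball 0 1) →
      DivFree (fun y => gradient k y - F y) (ball 0 1) →
      ∫ y in ball 0 1, ‖gradient k y‖ ^ 2 ≤ EE → ∫ y in ball 0 1, ‖F y‖ ≤ T →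
      ∃ (a : ℝ) (p : E m) (S : E m →L[ℝ] E m), Sym S ∧ ‖p‖ ≤ C₁ * √EE ∧ ‖S‖ ≤ C₁ * √EE ∧
        |trS S| ≤ C₁ * T ∧
        ∫ y in ball 0 (2 * θ), (k y - (a + ⟪p, y⟫ + ⟪S y, y⟫ / 2)) ^ 2 ≤
          C₁ * θ ^ (m + 6) * EE + δ * EE + C₂ * T ^ 2 := by
  obtain ⟨CP, hCP, hP⟩ := poincare m
  obtain ⟨CT, hCT, hT⟩ := mol_taylor m
  have hvb := vb_pos m
  have hcm := cm_pos m
  set B := √(vb m) * √CP with hB
  have hB0 : 0 ≤ B := by positivity
  set C3 := 3 * (CT * B) ^ 2 * vb m * 2 ^ (m + 6) with hC3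
  have hC30 : 0 ≤ C3 := by positivity
  have hCB : 0 ≤ CT * B := by positivity
  refine ⟨CT * B + CT + C3, by positivity, fun θ hθ hθ8 δ hδ => ?_⟩
  set t0 := min (1 / 2) √(δ / 3) with ht0
  have ht0p : 0 < t0 := lt_min (by norm_num) (Real.sqrt_pos.2 (by positivity))
  have ht0h : t0 ≤ 1 / 2 := min_le_left _ _
  have ht0s : t0 ^ 2 ≤ δ / 3 := by
    have h1 : t0 ≤ √(δ / 3) := min_le_right _ _
    have h2 := pow_le_pow_left₀ ht0p.le h1 2
    rwa [Real.sq_sqrt (by positivity)] at h2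
  set c := cm m * (1 / 2) / t0 ^ m with hc
  have hc0 : 0 < c := by positivity
  refine ⟨3 * c ^ 2 * vb m, by positivity, fun k F EE T hk hF hd hE hFT => ?_⟩
  obtain ⟨k', K, hK, hkk⟩ := locLip_extend hk 0 1
  obtain ⟨a0, ha0⟩ := hP k' K hK 0 1 one_pos
  set k0 : E m → ℝ := fun y => k' y - a0 with hk0
  have hK0 : LipschitzWith K k0 := by
    refine LipschitzWith.of_dist_le_mul fun x y => ?_
    have := hK.dist_le_mul x y
    simpa [hk0, dist_sub_right] using this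
  have hg' : ∀ x ∈ ball (0 : E m) 1, gradient k' x = gradient k x := fun x hx =>
    grad_congr_open isOpen_ball hkk hx
  have hg : ∀ x ∈ ball (0 : E m) 1, gradient k0 x = gradient k x := fun x hx => by
    rw [hk0, grad_sub_const_ha, hg' x hx]
  have hG' : ∫ y in ball (0 : E m) 1, ‖gradient k' y‖ ^ 2 ≤ EE := by
    rwa [setIntegral_congr_fun measurableSet_ball (g := fun y => ‖gradient k y‖ ^ 2)
      fun y hy => by simp only [hg' y hy]]
  have hG : ∫ y in ball (0 : E m) 1, ‖gradient k0 y‖ ^ 2 ≤ EE := by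
    rwa [setIntegral_congr_fun measurableSet_ball (g := fun y => ‖gradient k y‖ ^ 2)
      fun y hy => by simp only [hg y hy]]
  have hE0 : 0 ≤ EE := le_trans (integral_nonneg fun y => by positivity) hE
  have hT0 : 0 ≤ T := le_trans (integral_nonneg fun y => norm_nonneg _) hFT
  have hsE := Real.sqrt_nonneg EE
  have hd0 : DivFree (fun y => gradient k0 y - F y) (ball 0 1) :=
    hd.congr (Eventually.of_forall fun x hx => by simp only [hg x hx])
  have hcont : Continuous k0 := hK0.continuous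
  have hI : ∫ y in ball (0 : E m) 1, |k0 y| ≤ B * √EE := by
    have h1 := (int_le_sqrt (f := k0) (c := 0) one_pos hcont.aestronglyMeasurable
      (intOn_cont_ha (hcont.pow 2) 0 1)).2
    have h2 : ∫ y in ball (0 : E m) 1, k0 y ^ 2 ≤ CP * EE := by
      refine ha0.trans ?_
      rw [one_pow, mul_one]
      exact mul_le_mul_of_nonneg_left hG' hCP.le
    have h3 : √(∫ y in ball (0 : E m) 1, k0 y ^ 2) ≤ √CP * √EE := by
      rw [← Real.sqrt_mul hCP.le]
      exact Real.sqrt_le_sqrt h2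
    rw [one_pow, mul_one] at h1
    calc _ ≤ _ := h1
      _ ≤ √(vb m) * (√CP * √EE) := mul_le_mul_of_nonneg_left h3 (Real.sqrt_nonneg _)
      _ = B * √EE := by rw [hB]; ring
  obtain ⟨p, S, hS, hp, hSn, htay, htr⟩ := hT k0 K hK0
  have hCI : CT * ∫ y in ball (0 : E m) 1, |k0 y| ≤ CT * B * √EE := by
    rw [mul_assoc]; exact mul_le_mul_of_nonneg_left hI hCT.le
  have hle : CT * B * √EE ≤ (CT * B + CT + C3) * √EE :=
    mul_le_mul_of_nonneg_right (by linarith) hsE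
  refine ⟨a0 + mol (1 / 2) k0 0, p, S, hS, hp.trans (hCI.trans hle), hSn.trans (hCI.trans hle),
    ?_, ?_⟩
  · refine (htr F hF hd0).trans ?_
    exact mul_le_mul (by linarith) hFT (integral_nonneg fun y => norm_nonneg _) (by positivity)
  have h2θ : 0 < 2 * θ := by positivity
  set X := 3 * (c * T) ^ 2 + 3 * (CT * B * √EE * (2 * θ) ^ 3) ^ 2 with hX
  have hpt : ∀ y ∈ ball (0 : E m) (2 * θ),
      (k y - (a0 + mol (1 / 2) k0 0 + ⟪p, y⟫ + ⟪S y, y⟫ / 2)) ^ 2 ≤
        3 * (k0 y - mol t0 k0 y) ^ 2 + X := by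
    intro y hy
    have hy' : ‖y‖ < 2 * θ := by simpa using hy
    have hy4 : y ∈ ball (0 : E m) (1 / 4) := by
      rw [mem_ball_zero_iff]; linarith
    have hy1 : y ∈ ball (0 : E m) 1 := by
      rw [mem_ball_zero_iff]; linarith
    have hsub : closedBall y (1 / 2) ⊆ ball (0 : E m) 1 := by
      refine closedBall_subset_ball' ?_
      rw [dist_zero_right]; linarith
    have h1 := mol_scale hK0 hF hd0 ht0p ht0h hsub
    have h2 := htay y hy4
    refine sq3_ha (b := -(mol (1 / 2) k0 y - mol t0 k0 y))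
      (c := mol (1 / 2) k0 y - mol (1 / 2) k0 0 - ⟪p, y⟫ - ⟪S y, y⟫ / 2) ?_ ?_ ?_
    · rw [← hkk hy1]
      simp only [hk0]
      ring
    · rw [abs_neg]
      exact h1.trans (mul_le_mul_of_nonneg_left hFT hc0.le)
    · refine h2.trans ?_
      have h3 : ‖y‖ ^ 3 ≤ (2 * θ) ^ 3 := pow_le_pow_left₀ (norm_nonneg _) hy'.le 3
      calc CT * ‖y‖ ^ 3 * ∫ z in ball (0 : E m) 1, |k0 z|
          = (CT * ∫ z in ball (0 : E m) 1, |k0 z|) * ‖y‖ ^ 3 := by ring
        _ ≤ _ := mul_le_mul hCI h3 (by positivity) (by positivity)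
  have hc1 : Continuous fun y : E m =>
      (k y - (a0 + mol (1 / 2) k0 0 + ⟪p, y⟫ + ⟪S y, y⟫ / 2)) ^ 2 := by
    have := hk.continuous
    fun_prop
  have hc2 : Continuous fun y : E m => (k0 y - mol t0 k0 y) ^ 2 :=
    (hcont.sub (continuous_mol hcont ht0p)).pow 2
  have i2 := intOn_cont_ha hc2 0 (2 * θ)
  have i3 : IntegrableOn (fun _ : E m => X) (ball 0 (2 * θ)) :=
    intOn_cont_ha continuous_const 0 (2 * θ)
  have s1 := setIntegral_mono_on (intOn_cont_ha hc1 0 (2 * θ)) ((i2.const_mul 3).add i3)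
    measurableSet_ball hpt
  have s2 : ∫ y in ball (0 : E m) (2 * θ), (3 * (k0 y - mol t0 k0 y) ^ 2 + X) =
      3 * (∫ y in ball (0 : E m) (2 * θ), (k0 y - mol t0 k0 y) ^ 2)
        + vb m * (2 * θ) ^ m * X := by
    rw [integral_add (i2.const_mul 3) i3, integral_const_mul, setIntegral_const, vol_ball _ h2θ,
      smul_eq_mul]
  have s3 : ∫ y in ball (0 : E m) (2 * θ), (k0 y - mol t0 k0 y) ^ 2 ≤ δ / 3 * EE := by
    refine (mol_approx hK0 0 (2 * θ) ht0p).trans ?_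
    have h1 : IntegrableOn (fun y => ‖gradient k0 y‖ ^ 2) (ball (0 : E m) 1) := by
      refine intOn_ball (C := (K : ℝ) ^ 2)
        ((meas_grad k0).norm.pow_const 2).aestronglyMeasurable
        (Eventually.of_forall fun x _ => ?_)
      rw [Real.norm_eq_abs, abs_of_nonneg (by positivity)]
      exact pow_le_pow_left₀ (norm_nonneg _) (norm_grad_le hK0 x) 2
    have h2 : ∫ y in ball (0 : E m) (2 * θ + t0), ‖gradient k0 y‖ ^ 2 ≤ EE := by
      refine le_trans (setIntegral_mono_set h1 (Eventually.of_forall fun y => by positivity)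
        (ball_subset_ball (by linarith)).eventuallyLE) hG
    exact mul_le_mul ht0s h2 (integral_nonneg fun y => by positivity) (by positivity)
  have s4 : vb m * (2 * θ) ^ m * X ≤ C3 * θ ^ (m + 6) * EE + 3 * c ^ 2 * vb m * T ^ 2 := by
    have h1 : (2 * θ) ^ m ≤ 1 := pow_le_one₀ h2θ.le (by linarith)
    have h2 : vb m * (2 * θ) ^ m * (3 * (c * T) ^ 2) ≤ vb m * 1 * (3 * (c * T) ^ 2) := by
      gcongr
    have h3 : vb m * (2 * θ) ^ m * (3 * (CT * B * √EE * (2 * θ) ^ 3) ^ 2)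
        = C3 * θ ^ (m + 6) * EE := by
      have h4 : √EE ^ 2 = EE := Real.sq_sqrt hE0
      calc _ = C3 * θ ^ (m + 6) * √EE ^ 2 := by rw [hC3]; ring
        _ = _ := by rw [h4]
    rw [hX, mul_add, h3]
    linarith
  have s5 : C3 * θ ^ (m + 6) * EE ≤ (CT * B + CT + C3) * θ ^ (m + 6) * EE := by
    gcongr
    linarith
  have s6 : ∫ y in ball (0 : E m) (2 * θ),
      (k y - (a0 + mol (1 / 2) k0 0 + ⟪p, y⟫ + ⟪S y, y⟫ / 2)) ^ 2 ≤
      ∫ y in ball (0 : E m) (2 * θ), (3 * (k0 y - mol t0 k0 y) ^ 2 + X) := s1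
  linarith

end Pool.Agent.Lib.MP_8daebb_an.LG
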