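import Pool.Agent.Lib.MP_8daebb_an.LG.StatB
import Pool.Agent.Lib.MP_8daebb_an.LG.Weak
import Pool.Agent.Lib.MP_8daebb_an.LG.LipD

open MeasureTheory Metric Set Filter Topology
open scoped RealInnerProductSpace NNReal

namespace Pool.Agent.Lib.MP_8daebb_an.LG

variable {m : ℕ} {ι : Type}

/-! INNER. The inner variation identity relative to a centre. -/

/-- Continuous functions of the data that vanish off the support of `Y` lie in every `L^q`. -/
theorem mem_inner {F : Type} [NormedAddCommGroup F] {p Ψ Y : E m → E m} {L : ℝ}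
    (hp : Measurable p) (hL : ∀ x, ‖p x‖ ≤ L) (hΨ : LocallyLipschitz Ψ) (hY : LocallyLipschitz Y)
    (hc : HasCompactSupport Y)
    (Φ : E m × E m × (E m →L[ℝ] E m) × (E m →L[ℝ] E m) × E m → F) (hΦ : Continuous Φ)
    (h0 : ∀ a b B, Φ (a, b, 0, B, 0) = 0) (q : ENNReal) :
    MemLp (fun x => Φ (p x, Ψ x, fderiv ℝ Y x, fderiv ℝ Ψ x, Y x)) q volume := by
  have := FiniteDimensional.proper_real (E m →L[ℝ] E m)
  have hz : ∀ x ∉ tsupport Y, Φ (p x, Ψ x, fderiv ℝ Y x, fderiv ℝ Ψ x, Y x) = 0 := fun x hx => by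
    rw [fderiv_of_notMem_tsupport ℝ hx, image_eq_zero_of_notMem_tsupport hx, h0]
  obtain ⟨R, hR⟩ := hc.isCompact.isBounded.subset_ball 0
  obtain ⟨C1, h1⟩ := hc.isCompact.exists_bound_of_continuousOn hΨ.continuous.continuousOn
  obtain ⟨C2, h2⟩ := locLip_fderiv_bdd hY 0 R
  obtain ⟨C3, h3⟩ := locLip_fderiv_bdd hΨ 0 R
  obtain ⟨C4, h4⟩ := hc.isCompact.exists_bound_of_continuousOn hY.continuous.continuousOn
  obtain ⟨C, hC⟩ := (isCompact_closedBall 0 (max L (max C1 (max C2 (max C3 C4))))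
    ).exists_bound_of_continuousOn hΦ.continuousOn
  refine (HasCompactSupport.intro hc.isCompact hz).memLp_of_bound (hΦ.comp_aestronglyMeasurable
      (hp.aestronglyMeasurable.prodMk (hΨ.continuous.aestronglyMeasurable.prodMk
        ((measurable_fderiv ℝ Y).aestronglyMeasurable.prodMk
          ((measurable_fderiv ℝ Ψ).aestronglyMeasurable.prodMk
            hY.continuous.aestronglyMeasurable))))) (max C 0) (Eventually.of_forall fun x => ?_)
  by_cases hx : x ∈ tsupport Y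
  · refine (hC _ (mem_closedBall_zero_iff.2 ?_)).trans (le_max_left _ _)
    exact max_le_max (hL x) (max_le_max (h1 x hx) (max_le_max (h2 x (hR hx))
      (max_le_max (h3 x (hR hx)) (h4 x hx))))
  · rw [hz x hx, norm_zero]
    exact le_max_right _ _

theorem supp_inner {Y : E m → E m} (hc : HasCompactSupport Y) (φ : E m → ℝ) :
    HasCompactSupport fun x => φ x • Y x :=
  HasCompactSupport.intro hc.isCompact fun x hx => by
    rw [image_eq_zero_of_notMem_tsupport hx, smul_zero]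

theorem trS_cont_inner : Continuous (trS : (E m →L[ℝ] E m) → ℝ) := by
  unfold trS
  fun_prop

theorem trS_zero_inner : trS (0 : E m →L[ℝ] E m) = 0 := by simp [trS]

theorem AA_zero_inner (p : E m) : AA p 0 = 0 := by simp [AA]

theorem int_dv_inner {Y : E m → E m} (hY : LocallyLipschitz Y) (hc : HasCompactSupport Y) :
    Integrable (dv Y) :=
  memLp_one_iff_integrable.1 (mem_inner (p := fun _ => 0) (L := 0) measurable_const (by simp) hY hY
    hc (fun v => trS v.2.2.1) (trS_cont_inner.comp (by fun_prop)) (fun _ _ _ => trS_zero_inner) 1)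

theorem int_inner_inner {A B : E m → E m} (hA : MemLp A 2 volume) (hB : MemLp B 2 volume) :
    Integrable fun x => ⟪A x, B x⟫ :=
  ((hA.integrable_norm_pow two_ne_zero).add (hB.integrable_norm_pow two_ne_zero)).mono'
    (hA.1.inner hB.1) (Eventually.of_forall fun x => (norm_inner_le_norm _ _).trans (by
      simp only [Pi.add_apply]
      nlinarith [sq_nonneg (‖A x‖ - ‖B x‖), mul_nonneg (norm_nonneg (A x)) (norm_nonneg (B x))]))

theorem limit_inner {Θ g : E m → E m} (hΘ : MemLp Θ 2 volume) (hg : MemLp g 2 volume)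
    (h : ∀ η > 0, ∃ G : E m → E m, MemLp G 2 volume ∧ ∫ x, ‖g x - G x‖ ^ 2 ≤ η ∧
      ∫ x, ⟪Θ x, G x⟫ = 0) : ∫ x, ⟪Θ x, g x⟫ = 0 := by
  have h0 : 0 ≤ ∫ x, ‖Θ x‖ ^ 2 := integral_nonneg fun x => by positivity
  refine abs_nonpos_iff.1 (le_of_forall_pos_le_add fun δ hδ => ?_)
  set ε := δ / ((∫ x, ‖Θ x‖ ^ 2) + 1) with hε
  have hε0 : 0 < ε := by positivity
  obtain ⟨G, h1, h2, h3⟩ := h (ε ^ 2) (by positivity)
  have i1 := (hΘ.integrable_norm_pow two_ne_zero).const_mul ε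
  have i2 := ((hg.sub h1).integrable_norm_pow two_ne_zero).const_mul ε⁻¹
  have h4 := norm_integral_le_of_norm_le (μ := volume) (i1.add i2)
    (f := fun x => ⟪Θ x, g x⟫ - ⟪Θ x, G x⟫) (Eventually.of_forall fun x => by
      rw [← inner_sub_right]
      refine (norm_inner_le_norm _ _).trans (le_of_mul_le_mul_left ?_ hε0)
      simp only [Pi.add_apply, Pi.sub_apply, mul_add, mul_inv_cancel_left₀ hε0.ne']
      nlinarith [sq_nonneg (ε * ‖Θ x‖ - ‖g x - G x‖),
        mul_nonneg hε0.le (mul_nonneg (norm_nonneg (Θ x)) (norm_nonneg (g x - G x)))])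
  rw [integral_sub (int_inner_inner hΘ hg) (int_inner_inner hΘ h1), h3, sub_zero,
    integral_add' i1 i2, integral_const_mul, integral_const_mul] at h4
  have h5 : ε⁻¹ * ∫ x, ‖g x - G x‖ ^ 2 ≤ ε := by
    rw [inv_mul_le_iff₀ hε0, ← sq]
    exact h2
  have h6 : ε * ((∫ x, ‖Θ x‖ ^ 2) + 1) = δ := div_mul_cancel₀ _ (by positivity)
  refine h4.trans ?_
  simp only [Pi.sub_apply]
  linarith

theorem grad_eq_inner (ζ : E m → ℝ) :
    gradient ζ = fun x => ∑ b, fderiv ℝ ζ x (eb b) • eb b := by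
  funext x
  refine ext_inner_right ℝ fun v => ?_
  rw [← sum_inner_eb, sum_inner]
  refine Finset.sum_congr rfl fun b _ => ?_
  rw [real_inner_smul_left, inner_grad, real_inner_comm]

theorem grad_c1_inner {ζ : E m → ℝ} (h : ContDiff ℝ 2 ζ) : ContDiff ℝ 1 (gradient ζ) := by
  have h1 : ContDiff ℝ 1 (fderiv ℝ ζ) := h.fderiv_right (by norm_num)
  rw [grad_eq_inner]
  fun_prop

theorem grad_sym_inner {ζ : E m → ℝ} (h : ContDiff ℝ 2 ζ) (x : E m) :
    Sym (fderiv ℝ (gradient ζ) x) := by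
  have h1 : DifferentiableAt ℝ (fderiv ℝ ζ) x :=
    (h.fderiv_right (m := 1) (by norm_num)).differentiable one_ne_zero x
  have h2 : ∀ v w, ⟪fderiv ℝ (gradient ζ) x v, w⟫ = fderiv ℝ (fderiv ℝ ζ) x v w := fun v w => by
    have k := fderiv_inner_apply ℝ ((grad_c1_inner h).differentiable one_ne_zero x)
      (differentiableAt_const w) v
    simp only [inner_grad] at k
    rw [fderiv_clm_apply h1 (differentiableAt_const w)] at k
    simpa using k.symm
  intro v w
  rw [h2, real_inner_comm, h2]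
  exact (h.contDiffAt.isSymmSndFDerivAt (by simp)).eq v w

theorem fderiv_aa_inner {Ψ : E m → E m} {x : E m} (h : DifferentiableAt ℝ Ψ x) (v : E m) :
    fderiv ℝ (fun y => aa (Ψ y)) x v = AA (Ψ x) (fderiv ℝ Ψ x v) := by
  rw [fderiv_fun_comp x (contDiff_aa.differentiable (by simp) _) h, ContinuousLinearMap.comp_apply,
    fderiv_aa]

theorem dvW_inner {Ψ Y : E m → E m} {x : E m} (hΨ : DifferentiableAt ℝ Ψ x)
    (hY : DifferentiableAt ℝ Y x) : dv (fun x => W (Ψ x) • Y x) x =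
      W (Ψ x) * trS (fderiv ℝ Y x) + ⟪aa (Ψ x), fderiv ℝ Ψ x (Y x)⟫ := by
  have hW : DifferentiableAt ℝ W (Ψ x) := contDiff_W.differentiable (by simp) _
  have h1 : DifferentiableAt ℝ (fun x => W (Ψ x)) x := hW.comp x hΨ
  rw [dv_smul h1 hY, inner_grad, fderiv_fun_comp x hW hΨ, ContinuousLinearMap.comp_apply, fderiv_W]
  exact add_comm _ _

theorem gradI_inner {A Y : E m → E m} {x : E m} (hA : DifferentiableAt ℝ A x)
    (hY : DifferentiableAt ℝ Y x) (v : E m) : ⟪v, gradient (fun x => ⟪A x, Y x⟫) x⟫ =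
      ⟪fderiv ℝ Y x v, A x⟫ + ⟪fderiv ℝ A x v, Y x⟫ := by
  rw [real_inner_comm, inner_grad, fderiv_inner_apply ℝ hA hY, real_inner_comm]

theorem dvI_inner {Ψ G Y : E m → E m} {x : E m} (hΨ : DifferentiableAt ℝ Ψ x)
    (hG : DifferentiableAt ℝ G x) (hY : DifferentiableAt ℝ Y x) :
    dv (fun x => ⟪aa (Ψ x), G x⟫ • Y x) x = ⟪aa (Ψ x), fderiv ℝ G x (Y x)⟫ +
      ⟪AA (Ψ x) (G x), fderiv ℝ Ψ x (Y x)⟫ + ⟪aa (Ψ x), G x⟫ * trS (fderiv ℝ Y x) := by
  have h0 : DifferentiableAt ℝ aa (Ψ x) := contDiff_aa.differentiable (by simp) _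
  have h1 : DifferentiableAt ℝ (fun y => aa (Ψ y)) x := h0.comp x hΨ
  have h2 : DifferentiableAt ℝ (fun y => ⟪aa (Ψ y), G y⟫) x := h1.inner ℝ hG
  rw [dv_smul h2 hY, inner_grad, fderiv_inner_apply ℝ h1 hG, fderiv_aa_inner hΨ,
    AA_symm (Ψ x) (G x), real_inner_comm (AA (Ψ x) (fderiv ℝ Ψ x (Y x)))]
  rfl

/-- The field that represents the linearised integrand. -/
noncomputable def thInner (v : E m × E m × (E m →L[ℝ] E m) × (E m →L[ℝ] E m) × E m) : E m :=
  trS v.2.2.1 • aa v.2.1 - v.2.2.1 (aa v.2.1) + AA v.2.1 (v.2.2.2.1 v.2.2.2.2)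

theorem th_cont_inner : Continuous (thInner (m := m)) := by
  have h1 := trS_cont_inner (m := m)
  have h2 := (contDiff_aa (m := m)).continuous
  unfold thInner
  exact Continuous.add (by fun_prop) (continuous_AA.comp
    (f := fun v : E m × E m × (E m →L[ℝ] E m) × (E m →L[ℝ] E m) × E m =>
      (v.2.1, v.2.2.2.1 v.2.2.2.2)) (by fun_prop))

theorem th_zero_inner (a b : E m) (B : E m →L[ℝ] E m) : thInner (a, b, 0, B, 0) = 0 := by
  simp [thInner, trS_zero_inner, AA_zero_inner]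

theorem th_eq_inner (a P y q : E m) (S B : E m →L[ℝ] E m) : ⟪thInner (a, P, S, B, y), q⟫ =
    ⟪aa P, q⟫ * trS S - ⟪S (aa P), q⟫ + ⟪AA P q, B y⟫ := by
  rw [thInner, inner_add_left, inner_sub_left, real_inner_smul_left, mul_comm, AA_symm,
    real_inner_comm (AA P q)]

theorem smooth_inner {Ψ : E m → E m} {ρ : ℝ} (hΨ : LipschitzWith 1 Ψ)
    (hd : DivFree (fun x => aa (Ψ x)) (ball 0 ρ)) {ζ : E m → ℝ} (hζ : ContDiff ℝ 2 ζ)
    {Y : E m → E m} (hY : LocallyLipschitz Y) (hc : HasCompactSupport Y)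
    (hs : tsupport Y ⊆ ball 0 ρ)
    (hi : Integrable fun x => ⟪thInner (0, Ψ x, fderiv ℝ Y x, fderiv ℝ Ψ x, Y x), gradient ζ x⟫) :
    ∫ x, ⟪thInner (0, Ψ x, fderiv ℝ Y x, fderiv ℝ Ψ x, Y x), gradient ζ x⟫ = 0 := by
  have hG := grad_c1_inner hζ
  have ha : ContDiff ℝ 1 (aa : E m → E m) := contDiff_aa.of_le le_top
  have l1 : LocallyLipschitz fun x => ⟪aa (Ψ x), gradient ζ x⟫ • Y x := locLip_smul
    (locLip_inner (ha.locallyLipschitz.comp hΨ.locallyLipschitz) hG.locallyLipschitz) hY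
  have hsub : tsupport (fun x => ⟪gradient ζ x, Y x⟫) ⊆ tsupport Y :=
    closure_mono fun x hx h0 => hx (by simp [h0])
  have h1 := integral_dv_eq_zero l1 (supp_inner hc _)
  have h2 := hd (fun x => ⟪gradient ζ x, Y x⟫) (locLip_inner hG.locallyLipschitz hY)
    (hc.isCompact.of_isClosed_subset (isClosed_tsupport _) hsub) (hsub.trans hs)
  have h3 := integral_sub (int_dv_inner l1 (supp_inner hc _)) hi
  rw [h1, zero_sub] at h3
  rw [← neg_eq_zero, ← h3, ← h2]
  refine integral_congr_ae (((locLip_ae_diff hY).and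
    (locLip_ae_diff hΨ.locallyLipschitz)).mono fun x hx => ?_)
  have k1 := hG.differentiable one_ne_zero x
  beta_reduce
  rw [dvI_inner hx.2 k1 hx.1, th_eq_inner, gradI_inner k1 hx.1, grad_sym_inner hζ x]
  ring

/-- The linearised inner variation identity. -/
theorem inner_linear {Ψ g : E m → E m} {ρ : ℝ} (hΨ : LipschitzWith 1 Ψ)
    (hd : DivFree (fun x => aa (Ψ x)) (ball 0 ρ)) (hg : MemLp g 2 volume)
    (apx : ∀ η > 0, ∃ ζ : E m → ℝ, ContDiff ℝ 2 ζ ∧ HasCompactSupport ζ ∧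
      ∫ x, ‖g x - gradient ζ x‖ ^ 2 ≤ η)
    {Y : E m → E m} (hY : LocallyLipschitz Y) (hc : HasCompactSupport Y)
    (hs : tsupport Y ⊆ ball 0 ρ) :
    ∫ x, (⟪aa (Ψ x), g x⟫ * dv Y x - ⟪fderiv ℝ Y x (aa (Ψ x)), g x⟫ +
      ⟪AA (Ψ x) (g x), fderiv ℝ Ψ x (Y x)⟫) = 0 := by
  have hΘ := mem_inner (p := fun _ => 0) (L := 0) measurable_const (by simp) hΨ.locallyLipschitz
    hY hc thInner th_cont_inner th_zero_inner 2
  have h := limit_inner hΘ hg fun η hη => by
    obtain ⟨ζ, h1, h2, h3⟩ := apx η hη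
    have h4 : MemLp (gradient ζ) 2 volume :=
      (grad_c1_inner h1).continuous.memLp_of_hasCompactSupport
        (HasCompactSupport.intro h2.isCompact fun x hx => grad_eq_zero_of_notMem hx)
    exact ⟨_, h4, h3, smooth_inner hΨ hd h1 hY hc hs (int_inner_inner hΘ h4)⟩
  simpa only [th_eq_inner, dv] using h

theorem inner_centre [Fintype ι] [Nonempty ι] {L : ℝ≥0} {u : ι → E m → ℝ} {Ψ g : E m → E m}
    {r ρ CP δ D : ℝ} (h : Centre L u Ψ g r ρ CP δ D) {Y : E m → E m} (hY : LocallyLipschitz Y)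
    (hc : HasCompactSupport Y) (hs : tsupport Y ⊆ ball 0 ρ) :
    ∑ i, ∫ x, ((W (gradient (u i) x) - W (Ψ x) - ⟪aa (Ψ x), gradient (u i) x - Ψ x⟫) * dv Y x -
      ⟪fderiv ℝ Y x (aa (gradient (u i) x) - aa (Ψ x)), gradient (u i) x - Ψ x⟫ +
      ⟪aa (gradient (u i) x) - aa (Ψ x) - AA (Ψ x) (gradient (u i) x - Ψ x),
        fderiv ℝ Ψ x (Y x)⟫) = 0 := by
  have hΨ := h.lipΨ.locallyLipschitz
  have c1 := trS_cont_inner (m := m)
  have c2 := (contDiff_aa (m := m)).continuous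
  have c3 := (contDiff_W (m := m)).continuous
  have c4 := th_cont_inner (m := m)
  have hm := fun i Φ hΦ h0 => memLp_one_iff_integrable.1 (mem_inner (F := ℝ) (meas_grad (u i))
    (norm_grad_le (h.lip i)) hΨ hY hc Φ hΦ h0 1)
  have i1 := fun i => hm i (fun v => W v.1 * trS v.2.2.1 - ⟪v.2.2.1 (aa v.1), v.1⟫) (by fun_prop)
    (by simp [trS_zero_inner])
  have i2 := fun i => hm i (fun v => ⟪v.2.2.1 (aa v.1), v.2.1⟫ + ⟪aa v.1, v.2.2.2.1 v.2.2.2.2⟫)
    (by fun_prop) (by simp)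
  have i3 := fun i => hm i (fun v => W v.2.1 * trS v.2.2.1 + ⟪aa v.2.1, v.2.2.2.1 v.2.2.2.2⟫)
    (by fun_prop) (by simp [trS_zero_inner])
  have i4 := fun i => hm i (fun v => ⟪thInner (0, v.2), v.1 - v.2.1⟫) (by fun_prop)
    (by simp [th_zero_inner])
  dsimp only at i1 i2 i3 i4
  have hsub : tsupport (fun x => ⟪Ψ x, Y x⟫) ⊆ tsupport Y :=
    closure_mono fun x hx h0 => hx (by simp [h0])
  have hae := (locLip_ae_diff hY).and (locLip_ae_diff hΨ)
  have e1 := h.stat.inner h.lip hY hc hs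
  have e2 : ∑ i, ∫ x, (⟪fderiv ℝ Y x (aa (gradient (u i) x)), Ψ x⟫ +
      ⟪aa (gradient (u i) x), fderiv ℝ Ψ x (Y x)⟫) = 0 := by
    rw [← h.stat.outer (f := fun _ => 0) (θ := fun _ => 1) (locLip_inner hΨ hY)
      (hc.isCompact.of_isClosed_subset (isClosed_tsupport _) hsub) (hsub.trans hs)
      (LocallyLipschitz.const 0) (LocallyLipschitz.const 1)]
    refine Finset.sum_congr rfl fun i _ => integral_congr_ae ((hae.and h.sym).mono fun x hx => ?_)
    simp only [mul_one]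
    rw [gradI_inner hx.1.2 hx.1.1]
    by_cases k : x ∈ ball 0 ρ
    · rw [hx.2 k]
    · simp [image_eq_zero_of_notMem_tsupport fun k' => k (hs k')]
  have e3 : ∫ x, (W (Ψ x) * trS (fderiv ℝ Y x) + ⟪aa (Ψ x), fderiv ℝ Ψ x (Y x)⟫) = 0 := by
    have hW : ContDiff ℝ 1 (W : E m → ℝ) := contDiff_W.of_le le_top
    rw [← integral_dv_eq_zero (Y := fun x => W (Ψ x) • Y x)
      (locLip_smul (hW.locallyLipschitz.comp hΨ) hY) (supp_inner hc _)]
    exact integral_congr_ae (hae.mono fun x hx => (dvW_inner hx.2 hx.1).symm)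
  have e4 : ∑ i, ∫ x, ⟪thInner (0, Ψ x, fderiv ℝ Y x, fderiv ℝ Ψ x, Y x),
      gradient (u i) x - Ψ x⟫ = 0 := by
    have k := congrArg (-(Fintype.card ι : ℝ) * ·) (inner_linear h.lipΨ h.div h.mem h.apx hY hc hs)
    simp only [mul_zero, ← integral_const_mul] at k
    rw [← integral_finsetSum _ fun i _ => i4 i, ← k]
    refine integral_congr_ae (((ae_grad_vv h.lip).and h.eq).mono fun x hx => ?_)
    beta_reduce
    rw [dv, ← th_eq_inner 0, ← inner_sum, ← real_inner_smul_right]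
    by_cases k : x ∈ ball 0 ρ
    · congr 1
      rw [Finset.sum_sub_distrib, Finset.sum_congr rfl fun i _ => hx.1.2.2.2.2.1 i,
        Finset.sum_add_distrib, hx.1.2.2.2.2.2, hx.2 k]
      simp [Nat.cast_smul_eq_nsmul]
    · have k' : x ∉ tsupport Y := fun k' => k (hs k')
      simp [fderiv_of_notMem_tsupport ℝ k', image_eq_zero_of_notMem_tsupport k', th_zero_inner]
  have e5 : ∀ i, ∫ x, ((W (gradient (u i) x) - W (Ψ x) -
      ⟪aa (Ψ x), gradient (u i) x - Ψ x⟫) * dv Y x -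
      ⟪fderiv ℝ Y x (aa (gradient (u i) x) - aa (Ψ x)), gradient (u i) x - Ψ x⟫ +
      ⟪aa (gradient (u i) x) - aa (Ψ x) - AA (Ψ x) (gradient (u i) x - Ψ x),
        fderiv ℝ Ψ x (Y x)⟫) = _ := fun i => Eq.trans
    (integral_congr_ae (Eventually.of_forall fun x => by
      simp only [Pi.add_apply, Pi.sub_apply, th_eq_inner, dv, map_sub, inner_sub_left]
      simp only [inner_sub_right]
      ring))
    ((integral_sub' (((i1 i).add (i2 i)).sub (i3 i)) (i4 i)).trans (congrArg (· - _)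
      ((integral_sub' ((i1 i).add (i2 i)) (i3 i)).trans (congrArg (· - _)
        (integral_add' (i1 i) (i2 i))))))
  simp only [dv] at e1
  simp only [e5, e3, sub_zero, Finset.sum_sub_distrib, Finset.sum_add_distrib, e1, e2, e4, add_zero]

end Pool.Agent.Lib.MP_8daebb_an.LG
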