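import Pool.Agent.Lib.MP_8daebb_an.LG.Step

open MeasureTheory Metric Set Filter Topology
open scoped RealInnerProductSpace NNReal

namespace Pool.Agent.Lib.MP_8daebb_an.LG

variable {m : ℕ} {ι : Type}

/-! ITER. Iteration of the quadratic excess decay. -/

theorem end_iter {f : E m → ℝ} (hf : LocallyLipschitz f) (x p : E m) (S : E m →L[ℝ] E m) {s : ℝ}
    (hs : 0 < s) :
    ∫ y in ball x s, ‖gradient f y - p‖ ^ 2 ≤
      2 * (∫ y in ball x s, ‖gradient f y - p - S (y - x)‖ ^ 2) +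
        2 * ((‖S‖ * s) ^ 2 * (vb m * s ^ m)) := by
  have hb : ∀ y ∈ ball x s, ‖S (y - x)‖ ≤ ‖S‖ * s := fun y hy =>
    (S.le_opNorm _).trans (mul_le_mul_of_nonneg_left (mem_ball_iff_norm.1 hy).le (norm_nonneg _))
  have hB : MemLp (fun y => S (y - x)) 2 (volume.restrict (ball x s)) :=
    memLp_bdd (Continuous.aestronglyMeasurable (by fun_prop)) (Eventually.of_forall hb)
  have hp : MemLp (fun _ : E m => p) 2 (volume.restrict (ball x s)) :=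
    memLp_bdd aestronglyMeasurable_const (Eventually.of_forall fun _ _ => le_rfl)
  have hA : MemLp (fun y => gradient f y - p - S (y - x)) 2 (volume.restrict (ball x s)) :=
    ((memLp_grad hf x s).sub hp).sub hB
  have h1 := int_sq_add_le hA hB
  simp only [sub_add_cancel] at h1
  have h2 : ‖∫ y in ball x s, ‖S (y - x)‖ ^ 2‖ ≤ (‖S‖ * s) ^ 2 * volume.real (ball x s) :=
    norm_setIntegral_le_of_norm_le_const measure_ball_lt_top fun y hy => by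
      rw [Real.norm_eq_abs, abs_of_nonneg (sq_nonneg _)]
      exact pow_le_pow_left₀ (norm_nonneg _) (hb y hy) 2
  rw [vol_ball x hs, Real.norm_eq_abs] at h2
  have h3 := le_abs_self (∫ y in ball x s, ‖S (y - x)‖ ^ 2)
  linarith

theorem num1_iter {C k K' ε a s n d : ℝ} (hC : 0 < C) (hε : 0 ≤ ε) (hs : 0 < s) (ha : s ≤ a)
    (hn0 : 0 ≤ n) (hn : n ≤ K' * ε) (h1 : K' ^ 2 * ε ≤ 1)
    (h : s * d ≤ C * (k * ε * a * s + ε * s * a + (s * n) ^ 2)) : d ≤ C * (k + 2) * ε * a := by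
  have h2 : n ^ 2 ≤ ε := by
    calc n ^ 2 ≤ (K' * ε) ^ 2 := pow_le_pow_left₀ hn0 hn 2
      _ = (K' ^ 2 * ε) * ε := by ring
      _ ≤ ε := mul_le_of_le_one_left hε h1
  have h3 : (s * n) ^ 2 ≤ s * (a * ε) := by
    rw [mul_pow, sq s, mul_assoc]
    exact mul_le_mul_of_nonneg_left (mul_le_mul ha h2 (sq_nonneg _) (hs.le.trans ha)) hs.le
  refine le_of_mul_le_mul_left (h.trans ?_) hs
  have := mul_le_mul_of_nonneg_left h3 hC.le
  linarith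

theorem num2_iter {C k K' ε θ τ t s n : ℝ} (hC : 0 < C) (hε : 0 ≤ ε) (hs : 0 < s) (hs1 : s ≤ 1)
    (ht : s ≤ t) (hθ : 0 < θ) (hτ : θ ≤ τ) (hk : 4 * C ≤ k ^ 2 * θ ^ 3)
    (hn0 : 0 ≤ n) (hn : n ≤ K' * ε) (h1 : K' ^ 2 * ε ≤ 1) :
    θ ^ 3 / 2 * (k ^ 2 * ε ^ 2 * t * s ^ 2) + C * (ε ^ 2 * s ^ 2 * t + (s * n) ^ 4) ≤
      k ^ 2 * ε ^ 2 * (t * τ) * (θ * s) ^ 2 := by
  have h2 : n ^ 2 ≤ ε := by
    calc n ^ 2 ≤ (K' * ε) ^ 2 := pow_le_pow_left₀ hn0 hn 2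
      _ = (K' ^ 2 * ε) * ε := by ring
      _ ≤ ε := mul_le_of_le_one_left hε h1
  have ht0 : 0 ≤ t := hs.le.trans ht
  have h3 : (s * n) ^ 4 ≤ ε ^ 2 * s ^ 2 * t := by
    have e1 : (n ^ 2) ^ 2 ≤ ε ^ 2 := pow_le_pow_left₀ (sq_nonneg _) h2 2
    have e2 : s ^ 2 ≤ t := by nlinarith
    calc (s * n) ^ 4 = (n ^ 2) ^ 2 * s ^ 2 * s ^ 2 := by ring
      _ ≤ ε ^ 2 * s ^ 2 * t := by gcongr
  obtain ⟨X, hX⟩ : ∃ X, X = ε ^ 2 * s ^ 2 * t := ⟨_, rfl⟩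
  have hX0 : 0 ≤ X := by rw [hX]; positivity
  have h4 : C * (s * n) ^ 4 ≤ C * X := by
    rw [hX]
    exact mul_le_mul_of_nonneg_left h3 hC.le
  have h5 : 4 * C * X ≤ k ^ 2 * θ ^ 3 * X := mul_le_mul_of_nonneg_right hk hX0
  have h6 : k ^ 2 * θ ^ 2 * X * θ ≤ k ^ 2 * θ ^ 2 * X * τ :=
    mul_le_mul_of_nonneg_left hτ (by positivity)
  calc _ = θ ^ 3 / 2 * k ^ 2 * X + (C * X + C * (s * n) ^ 4) := by rw [hX]; ring
    _ ≤ k ^ 2 * θ ^ 2 * X * τ := by linarith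
    _ = _ := by rw [hX]; ring

theorem iter (m : ℕ) {L₁ : ℝ} (hL₁ : 1 ≤ L₁) : ∃ θ : ℝ, 0 < θ ∧ θ ≤ 1 / 8 ∧
    ∀ τ : ℝ, θ ≤ τ → τ < 1 → ∃ ε₁ > 0, ∃ C > 0,
      ∀ (f : E m → ℝ), LocallyLipschitz f → ∀ (x : E m) (ε : ℝ) (j : ℕ), 0 ≤ ε → ε ≤ ε₁ →
        ∫ y in ball x (1 / 3), ‖gradient f y‖ ^ 2 ≤ ε ^ 2 →
        (∀ i < j, ∃ Ξ : E m → E m, MemLp Ξ 2 (volume.restrict (ball x (θ ^ i / 3))) ∧
          DivFree Ξ (ball x (θ ^ i / 3)) ∧
          ∫ y in ball x (θ ^ i / 3), ‖Ξ y - ta L₁ (gradient f y)‖ ^ 2 ≤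
            ε ^ 2 * (θ ^ i / 3) ^ (m + 2) * τ ^ i) →
        ∃ p : E m, ‖p‖ ≤ C * ε ∧
          ∫ y in ball x (θ ^ j / 3), ‖gradient f y - p‖ ^ 2 ≤ C * ε ^ 2 * (θ ^ j / 3) ^ (m + 2) := by
  obtain ⟨θ, hθ, hθ8, ε₂, hε₂, C, hC, H⟩ := step m hL₁
  refine ⟨θ, hθ, hθ8, fun τ hτ hτ1 => ?_⟩
  have hτ0 : 0 < τ := hθ.trans_le hτ
  obtain ⟨ρ, hρ0, hρ⟩ : ∃ ρ : ℝ, 0 < ρ ∧ τ = ρ ^ 2 :=
    ⟨√τ, Real.sqrt_pos.2 hτ0, (Real.sq_sqrt hτ0.le).symm⟩
  have hρ1 : ρ < 1 := by nlinarith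
  have hτρ : τ ≤ ρ := by nlinarith
  obtain ⟨k, hk0, hk⟩ : ∃ k : ℝ, 0 < k ∧ k ^ 2 = 9 * 3 ^ m + 4 * C / θ ^ 3 :=
    ⟨√(9 * 3 ^ m + 4 * C / θ ^ 3), Real.sqrt_pos.2 (by positivity), Real.sq_sqrt (by positivity)⟩
  have hk1 : 9 * 3 ^ m ≤ k ^ 2 := by
    have : 0 < 4 * C / θ ^ 3 := by positivity
    linarith
  have hk2 : 4 * C ≤ k ^ 2 * θ ^ 3 := by
    rw [← div_le_iff₀ (by positivity), hk]
    have : (0 : ℝ) < 9 * 3 ^ m := by positivity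
    linarith
  obtain ⟨K', hK0, hK⟩ : ∃ K' : ℝ, 0 < K' ∧ C * (k + 2) = K' * (1 - ρ) :=
    ⟨C * (k + 2) / (1 - ρ), div_pos (by positivity) (by linarith),
      (div_mul_cancel₀ _ (by linarith)).symm⟩
  have hK1 : C * (k + 2) ≤ K' := by nlinarith
  have hv := vb_pos m
  refine ⟨min (1 / K' ^ 2) (ε₂ / (K' + k + 1)), lt_min (by positivity) (by positivity),
    K' + 2 * k ^ 2 + 2 * K' ^ 2 * vb m, by positivity, fun f hf x ε j hε hε1 h0 hΞ => ?_⟩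
  have b1 : K' ^ 2 * ε ≤ 1 := by
    have := hε1.trans (min_le_left _ _)
    rw [le_div_iff₀ (by positivity)] at this
    linarith
  have b2 : ε * (K' + k + 1) ≤ ε₂ := by
    have := hε1.trans (min_le_right _ _)
    rwa [le_div_iff₀ (by positivity)] at this
  have c1 := mul_nonneg hε hK0.le
  have c2 := mul_nonneg hε hk0.le
  have b3 : K' * ε ≤ ε₂ := by linarith
  have b4 : k * ε ≤ ε₂ := by linarith
  have b5 : ε ≤ ε₂ := by linarith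
  have key : ∀ i ≤ j, ∃ (p : E m) (S : E m →L[ℝ] E m), Sym S ∧ trA p S = 0 ∧
      ‖p‖ ≤ K' * ε * (1 - θ ^ i) ∧ ‖S‖ ≤ K' * ε * (1 - ρ ^ i) ∧
      ∫ y in ball x (θ ^ i / 3), ‖gradient f y - p - S (y - x)‖ ^ 2 ≤
        k ^ 2 * ε ^ 2 * τ ^ i * (θ ^ i / 3) ^ 2 * (θ ^ i / 3) ^ m := by
    intro i
    induction i with
    | zero =>
      intro _
      refine ⟨0, 0, fun a b => by simp, by simp [trA, AA], by simp, by simp, ?_⟩
      simp only [pow_zero, _root_.zero_apply, sub_zero]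
      refine h0.trans ?_
      have e : k ^ 2 * ε ^ 2 * 1 * (1 / 3) ^ 2 * (1 / 3) ^ m = ε ^ 2 * (k ^ 2 / (9 * 3 ^ m)) := by
        rw [one_div_pow, one_div_pow]
        field_simp
        norm_num
      rw [e]
      exact le_mul_of_one_le_right (sq_nonneg _) ((one_le_div (by positivity)).2 hk1)
    | succ i ih =>
      intro hi
      obtain ⟨p, S, h1, h2, h3, h4, h5⟩ := ih (Nat.le_of_succ_le hi)
      obtain ⟨Ξ, g1, g2, g3⟩ := hΞ i hi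
      have t0 : 0 < θ ^ i := pow_pos hθ i
      have t1 : θ ^ i ≤ τ ^ i := pow_le_pow_left₀ hθ.le hτ i
      have t2 : τ ^ i ≤ ρ ^ i := pow_le_pow_left₀ hτ0.le hτρ i
      have t3 : ρ ^ i ≤ 1 := pow_le_one₀ hρ0.le hρ1.le
      have t4 : τ ^ i = (ρ ^ i) ^ 2 := by rw [hρ, ← pow_mul, ← pow_mul, mul_comm]
      have e0 : θ ^ (i + 1) / 3 = θ * (θ ^ i / 3) := by ring
      rw [e0, pow_succ θ i, pow_succ ρ i, pow_succ τ i]
      obtain ⟨s, hs⟩ : ∃ s, s = θ ^ i / 3 := ⟨_, rfl⟩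
      rw [← hs] at h5 g1 g2 g3 ⊢
      have s0 : 0 < s := by rw [hs]; positivity
      have s1 : s ≤ τ ^ i := by linarith
      have s2 : s ≤ 1 := by linarith
      have c3 : 0 ≤ K' * ε := by linarith
      have n1 : ‖S‖ ≤ K' * ε := h4.trans (mul_le_of_le_one_right c3 (by linarith))
      have n2 : ‖p‖ ≤ K' * ε := h3.trans (mul_le_of_le_one_right c3 (by linarith))
      have u1 : 0 ≤ ρ ^ i * s := by positivity
      have u2 : ρ ^ i * s ≤ 1 := mul_le_one₀ t3 s0.le s2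
      have q1 : k ^ 2 * ε ^ 2 * τ ^ i * s ^ 2 = (k * ε * ρ ^ i * s) ^ 2 := by rw [t4]; ring
      have q2 : ε ^ 2 * s ^ 2 * τ ^ i = (ε * s * ρ ^ i) ^ 2 := by rw [t4]; ring
      obtain ⟨p', S', r1, r2, r3, r4, r5⟩ := H f Ξ x s p S (k ^ 2 * ε ^ 2 * τ ^ i * s ^ 2)
        (ε ^ 2 * s ^ 2 * τ ^ i) hf s0 h1 h2 (n2.trans b3)
        ((mul_le_of_le_one_left (norm_nonneg _) s2).trans (n1.trans b3))
        (by
          rw [q1]
          refine pow_le_pow_left₀ (by positivity) (le_trans ?_ b4) 2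
          rw [mul_assoc (k * ε)]
          exact mul_le_of_le_one_right (by positivity) u2)
        (by
          rw [q2]
          refine pow_le_pow_left₀ (by positivity) (le_trans ?_ b5) 2
          rw [mul_assoc, mul_comm s]
          exact mul_le_of_le_one_right hε u2)
        g1 g2 h5 (g3.trans (le_of_eq (by ring)))
      rw [q1, Real.sqrt_sq (by positivity)] at r3 r4
      rw [q2, Real.sqrt_sq (by positivity)] at r4
      refine ⟨p', S', r1, r2, ?_, ?_, r5.trans ?_⟩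
      · have w1 : ‖p'‖ ≤ ‖p‖ + ‖p' - p‖ := norm_le_norm_add_norm_sub' p' p
        have w2 : C * (k * ε * ρ ^ i * s) ≤ K' * ε * s := by
          have : C * k * ρ ^ i ≤ K' := by
            have := mul_le_of_le_one_right (mul_pos hC hk0).le t3
            linarith
          calc _ = C * k * ρ ^ i * (ε * s) := by ring
            _ ≤ K' * (ε * s) := mul_le_mul_of_nonneg_right this (by positivity)
            _ = _ := by ring
        have w3 : s ≤ θ ^ i - θ ^ i * θ := by nlinarith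
        have w4 := mul_le_mul_of_nonneg_left w3 c3
        linarith
      · have w1 : ‖S'‖ ≤ ‖S‖ + ‖S' - S‖ := norm_le_norm_add_norm_sub' S' S
        have w2 := num1_iter hC hε s0 (s1.trans t2) (norm_nonneg _) n1 b1 r4
        rw [hK] at w2
        linarith
      · exact mul_le_mul_of_nonneg_right
          (num2_iter hC hε s0 s2 s1 hθ hτ hk2 (norm_nonneg _) n1 b1) (by positivity)
  obtain ⟨p, S, -, -, h3, h4, h5⟩ := key j le_rfl
  have t0 : 0 < θ ^ j := pow_pos hθ j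
  have t2 : 0 < ρ ^ j := pow_pos hρ0 j
  have t3 : τ ^ j ≤ 1 := pow_le_one₀ hτ0.le hτ1.le
  have c3 : 0 ≤ K' * ε := by linarith
  have n1 : ‖S‖ ≤ K' * ε := h4.trans (mul_le_of_le_one_right c3 (by linarith))
  have n2 : ‖p‖ ≤ K' * ε := h3.trans (mul_le_of_le_one_right c3 (by linarith))
  obtain ⟨s, hs⟩ : ∃ s, s = θ ^ j / 3 := ⟨_, rfl⟩
  rw [← hs] at h5 ⊢
  have s0 : 0 < s := by rw [hs]; positivity
  refine ⟨p, n2.trans (mul_le_mul_of_nonneg_right ?_ hε), (end_iter hf x p S s0).trans ?_⟩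
  · have : 0 ≤ 2 * k ^ 2 + 2 * K' ^ 2 * vb m := by positivity
    linarith
  · have w1 : k ^ 2 * ε ^ 2 * τ ^ j * s ^ 2 * s ^ m ≤ k ^ 2 * ε ^ 2 * 1 * s ^ 2 * s ^ m := by gcongr
    have w2 : (‖S‖ * s) ^ 2 * (vb m * s ^ m) ≤ (K' * ε * s) ^ 2 * (vb m * s ^ m) := by gcongr
    have w3 : 0 ≤ K' * ε ^ 2 * s ^ (m + 2) := by positivity
    have w4 : (K' + 2 * k ^ 2 + 2 * K' ^ 2 * vb m) * ε ^ 2 * s ^ (m + 2) =
        K' * ε ^ 2 * s ^ (m + 2) + 2 * (k ^ 2 * ε ^ 2 * 1 * s ^ 2 * s ^ m) +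
          2 * ((K' * ε * s) ^ 2 * (vb m * s ^ m)) := by ring
    linarith

end Pool.Agent.Lib.MP_8daebb_an.LG
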