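import Pool.Agent.Lib.MP_8daebb_an.LG.Alg
import Pool.Agent.Lib.MP_8daebb_an.LG.LipD

open MeasureTheory Metric Set Filter Topology
open scoped RealInnerProductSpace NNReal

namespace Pool.Agent.Lib.MP_8daebb_an.LG

variable {m : ℕ} {ι : Type}

/-! ZLIP. The radial fields adapted to the centre are close to the identity. -/

theorem AA_zero_zlip (p : E m) : AA p 0 = 0 := by
  simp [AA]

theorem AA_sub_zlip (p q q' : E m) : AA p (q - q') = AA p q - AA p q' := by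
  rw [eq_sub_iff_add_eq, ← AA_add, sub_add_cancel]

theorem B_zlip {p : E m} {r : ℝ} (hr : 0 < r) (hr4 : r ≤ 1 / 4) (hp : ‖p‖ ≤ 3 * r) :
    2 * ‖p‖ ^ 2 ≤ 9 / 2 * r := by
  have h := pow_le_pow_left₀ (norm_nonneg p) hp 2
  nlinarith

theorem V_zlip {p p' x y : E m} {r : ℝ} (hr : 0 < r) (hr4 : r ≤ 1 / 4) (hp' : ‖p'‖ ≤ 3 * r)
    (hd : ‖p - p'‖ ≤ ‖x - y‖) (hx : ‖x‖ ≤ 2 * r) :
    ‖(AA p x - x) - (AA p' y - y)‖ ≤ 17 * r * ‖x - y‖ := by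
  have e : (AA p x - x) - (AA p' y - y) = (AA p x - AA p' x) + (AA p' (x - y) - (x - y)) := by
    rw [AA_sub_zlip]
    abel
  have h1 : ‖AA p x - AA p' x‖ ≤ 6 * ‖x - y‖ * (2 * r) := (AA_lip p p' x).trans (by gcongr)
  have h2 : ‖AA p' (x - y) - (x - y)‖ ≤ 9 / 2 * r * ‖x - y‖ := (AA_sub_self p' (x - y)).trans
    (mul_le_mul_of_nonneg_right (B_zlip hr hr4 hp') (norm_nonneg _))
  have h3 : 0 ≤ r * ‖x - y‖ := by positivity
  rw [e]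
  linarith [norm_add_le (AA p x - AA p' x) (AA p' (x - y) - (x - y))]

theorem mu_half_zlip {p x : E m} {r : ℝ} (hr4 : r ≤ 1 / 4) (hp : ‖p‖ ≤ 3 * r) (hx : x ≠ 0) :
    1 / 2 ≤ mu p x := by
  have h := mu_ge (L := 3 / 4) (p := p) (by linarith) hx
  have e : WL (3 / 4) = 5 / 4 := by
    rw [WL, show (1 : ℝ) + (3 / 4) ^ 2 = (5 / 4) ^ 2 by norm_num, Real.sqrt_sq (by norm_num)]
  rw [e] at h
  linarith [mu_nonneg p x]

theorem inv_mu_zlip {p x : E m} {r : ℝ} (hr : 0 < r) (hr4 : r ≤ 1 / 4) (hp : ‖p‖ ≤ 3 * r)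
    (hx : x ≠ 0) : |(mu p x)⁻¹| ≤ 2 ∧ |(mu p x)⁻¹ - 1| ≤ 9 * r := by
  have h1 := mu_half_zlip hr4 hp hx
  have h0 : 0 < mu p x := by linarith
  have h2 : |(mu p x)⁻¹| ≤ 2 := by
    rw [abs_of_pos (inv_pos.2 h0), inv_le_comm₀ h0 two_pos]
    linarith
  refine ⟨h2, ?_⟩
  have e : (mu p x)⁻¹ - 1 = -((mu p x)⁻¹ * (mu p x - 1)) := by field_simp; ring
  rw [e, abs_neg, abs_mul]
  have h3 := (mu_sub_one p hx).trans (B_zlip hr hr4 hp)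
  calc _ ≤ 2 * (9 / 2 * r) := by gcongr
    _ = _ := by ring

theorem Z0_zlip {p : E m} {r : ℝ} (hr : 0 < r) (hr4 : r ≤ 1 / 4) (hp : ‖p‖ ≤ 3 * r) (x : E m) :
    ‖(mu p x)⁻¹ • AA p x - x‖ ≤ 18 * r * ‖x‖ := by
  by_cases hx : x = 0
  · subst hx
    simp [AA_zero_zlip]
  obtain ⟨h1, h2⟩ := inv_mu_zlip hr hr4 hp hx
  have e : (mu p x)⁻¹ • AA p x - x = (mu p x)⁻¹ • (AA p x - x) + ((mu p x)⁻¹ - 1) • x := by
    module
  have h3 : ‖AA p x - x‖ ≤ 9 / 2 * r * ‖x‖ := (AA_sub_self p x).trans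
    (mul_le_mul_of_nonneg_right (B_zlip hr hr4 hp) (norm_nonneg _))
  rw [e]
  refine (norm_add_le _ _).trans ?_
  rw [norm_smul, norm_smul, Real.norm_eq_abs, Real.norm_eq_abs]
  calc _ ≤ 2 * (9 / 2 * r * ‖x‖) + 9 * r * ‖x‖ := by gcongr
    _ = _ := by ring

theorem mu_unit_zlip (p : E m) {x : E m} (hx : x ≠ 0) :
    mu p x = ⟪AA p (‖x‖⁻¹ • x) - ‖x‖⁻¹ • x, ‖x‖⁻¹ • x⟫ + 1 := by
  have h := norm_ne_zero_iff.2 hx
  rw [AA_smul, inner_sub_left, real_inner_smul_left, real_inner_smul_left, real_inner_smul_right,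
    real_inner_smul_right, real_inner_self_eq_norm_sq, mu]
  field_simp
  ring

theorem mu_dir_zlip (p : E m) {x y : E m} (hx : x ≠ 0) (hy : y ≠ 0) :
    |mu p x - mu p y| * ‖y‖ ≤ 4 * (2 * ‖p‖ ^ 2) * ‖x - y‖ := by
  have hx' := norm_ne_zero_iff.2 hx
  have hy' := norm_ne_zero_iff.2 hy
  set u := ‖x‖⁻¹ • x with hu
  set v := ‖y‖⁻¹ • y with hv
  have nu : ‖u‖ = 1 := by rw [hu, norm_smul, norm_inv, norm_norm, inv_mul_cancel₀ hx']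
  have nv : ‖v‖ = 1 := by rw [hv, norm_smul, norm_inv, norm_norm, inv_mul_cancel₀ hy']
  have h1 : ‖u - v‖ * ‖y‖ ≤ 2 * ‖x - y‖ := by
    have e1 : ‖x‖ • u = x := by rw [hu, smul_smul, mul_inv_cancel₀ hx', one_smul]
    have e2 : ‖y‖ • v = y := by rw [hv, smul_smul, mul_inv_cancel₀ hy', one_smul]
    have e : ‖y‖ • (u - v) = (‖y‖ - ‖x‖) • u + (x - y) := by
      rw [smul_sub, sub_smul, e1, e2]
      abel
    have e3 : ‖u - v‖ * ‖y‖ = ‖‖y‖ • (u - v)‖ := by rw [norm_smul, norm_norm, mul_comm]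
    rw [e3, e]
    refine (norm_add_le _ _).trans ?_
    rw [norm_smul, nu, mul_one, Real.norm_eq_abs]
    have := abs_norm_sub_norm_le y x
    rw [norm_sub_rev y x] at this
    linarith
  have e : mu p x - mu p y = ⟪AA p (u - v) - (u - v), u⟫ + ⟪AA p v - v, u - v⟫ := by
    rw [mu_unit_zlip p hx, mu_unit_zlip p hy, AA_sub_zlip, ← hu, ← hv]
    simp only [inner_sub_left, inner_sub_right]
    ring
  have h2 : |⟪AA p (u - v) - (u - v), u⟫| ≤ 2 * ‖p‖ ^ 2 * ‖u - v‖ := by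
    refine (abs_real_inner_le_norm _ _).trans ?_
    rw [nu, mul_one]
    exact AA_sub_self p _
  have h3 : |⟪AA p v - v, u - v⟫| ≤ 2 * ‖p‖ ^ 2 * ‖u - v‖ := by
    refine (abs_real_inner_le_norm _ _).trans (mul_le_mul_of_nonneg_right ?_ (norm_nonneg _))
    simpa only [nv, mul_one] using AA_sub_self p v
  have h4 : |mu p x - mu p y| ≤ 2 * (2 * ‖p‖ ^ 2) * ‖u - v‖ := by
    rw [e]
    linarith [abs_add_le ⟪AA p (u - v) - (u - v), u⟫ ⟪AA p v - v, u - v⟫]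
  calc _ ≤ 2 * (2 * ‖p‖ ^ 2) * ‖u - v‖ * ‖y‖ := by gcongr
    _ = 2 * (2 * ‖p‖ ^ 2) * (‖u - v‖ * ‖y‖) := by ring
    _ ≤ 2 * (2 * ‖p‖ ^ 2) * (2 * ‖x - y‖) := by gcongr
    _ = _ := by ring

theorem Z_zlip {p p' x y : E m} {r : ℝ} (hr : 0 < r) (hr4 : r ≤ 1 / 4) (hp : ‖p‖ ≤ 3 * r)
    (hp' : ‖p'‖ ≤ 3 * r) (hd : ‖p - p'‖ ≤ ‖x - y‖) (hx : ‖x‖ ≤ 2 * r) (hy : ‖y‖ ≤ 2 * r)
    (hx0 : x ≠ 0) (hy0 : y ≠ 0) :
    ‖((mu p x)⁻¹ • AA p x - x) - ((mu p' y)⁻¹ • AA p' y - y)‖ ≤ 200 * r * ‖x - y‖ := by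
  obtain ⟨h1, h2⟩ := inv_mu_zlip hr hr4 hp hx0
  obtain ⟨h1', -⟩ := inv_mu_zlip hr hr4 hp' hy0
  have m1 : 0 < mu p x := by linarith [mu_half_zlip hr4 hp hx0]
  have m2 : 0 < mu p' y := by linarith [mu_half_zlip hr4 hp' hy0]
  have hV := V_zlip hr hr4 hp' hd hx
  have hd0 : 0 ≤ r * ‖x - y‖ := by positivity
  have h3 : |mu p x - mu p' y| * ‖y‖ ≤ 30 * r * ‖x - y‖ := by
    have a1 : |mu p x - mu p' x| * ‖y‖ ≤ 6 * ‖x - y‖ * (2 * r) := by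
      have := mu_lip p p' x
      gcongr
      linarith
    have a2 : |mu p' x - mu p' y| * ‖y‖ ≤ 4 * (9 / 2 * r) * ‖x - y‖ := by
      refine (mu_dir_zlip p' hx0 hy0).trans ?_
      have := B_zlip hr hr4 hp'
      gcongr
    have a3 := mul_le_mul_of_nonneg_right (abs_sub_le (mu p x) (mu p' x) (mu p' y)) (norm_nonneg y)
    linarith
  have h4 : |(mu p x)⁻¹ - (mu p' y)⁻¹| * ‖AA p' y‖ ≤ 2 * 2 * (30 * r * ‖x - y‖) := by
    have e : (mu p x)⁻¹ - (mu p' y)⁻¹ = -((mu p x)⁻¹ * (mu p' y)⁻¹ * (mu p x - mu p' y)) := by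
      field_simp
      ring
    rw [e, abs_neg, abs_mul, abs_mul, mul_assoc]
    have := (mul_le_mul_of_nonneg_left (norm_AA_le p' y) (abs_nonneg (mu p x - mu p' y))).trans h3
    gcongr
  have e : ((mu p x)⁻¹ • AA p x - x) - ((mu p' y)⁻¹ • AA p' y - y) =
      (mu p x)⁻¹ • ((AA p x - x) - (AA p' y - y)) + ((mu p x)⁻¹ - (mu p' y)⁻¹) • AA p' y +
        ((mu p x)⁻¹ - 1) • (x - y) := by
    module
  rw [e]
  refine norm_add₃_le.trans ?_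
  simp only [norm_smul, Real.norm_eq_abs]
  have h5 : |(mu p x)⁻¹| * ‖(AA p x - x) - (AA p' y - y)‖ ≤ 2 * (17 * r * ‖x - y‖) := by gcongr
  have h6 : |(mu p x)⁻¹ - 1| * ‖x - y‖ ≤ 9 * r * ‖x - y‖ := by gcongr
  linarith

theorem radial_lip : ∃ C > 0, ∀ (m : ℕ) (Ψ : E m → E m) (r : ℝ), 0 < r → r ≤ 1 / 4 →
    LipschitzWith 1 Ψ → ‖Ψ 0‖ ≤ r →
      (∀ x ∈ ball (0 : E m) (2 * r), ∀ y ∈ ball (0 : E m) (2 * r),
        ‖(AA (Ψ x) x - x) - (AA (Ψ y) y - y)‖ ≤ C * r * ‖x - y‖) ∧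
      (∀ x ∈ ball (0 : E m) (2 * r), ∀ y ∈ ball (0 : E m) (2 * r),
        ‖(ZZ Ψ x - x) - (ZZ Ψ y - y)‖ ≤ C * r * ‖x - y‖) := by
  refine ⟨200, by norm_num, fun m Ψ r hr hr4 hΨ h0 => ?_⟩
  have hl : ∀ x y, ‖Ψ x - Ψ y‖ ≤ ‖x - y‖ := fun x y => by
    simpa only [dist_eq_norm, NNReal.coe_one, one_mul] using hΨ.dist_le_mul x y
  have hp : ∀ x ∈ ball (0 : E m) (2 * r), ‖Ψ x‖ ≤ 3 * r := fun x hx => by
    have h1 := hl x 0
    have h2 := norm_sub_norm_le (Ψ x) (Ψ 0)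
    rw [sub_zero] at h1
    linarith [mem_ball_zero_iff.1 hx]
  refine ⟨fun x hx y hy => ?_, fun x hx y hy => ?_⟩
  · refine (V_zlip hr hr4 (hp y hy) (hl x y) (mem_ball_zero_iff.1 hx).le).trans ?_
    have : 0 ≤ r * ‖x - y‖ := by positivity
    linarith
  · unfold ZZ
    have hd : 0 ≤ r * ‖x - y‖ := by positivity
    by_cases hx0 : x = 0
    · have h := Z0_zlip hr hr4 (hp y hy) y
      subst hx0
      rw [AA_zero_zlip, smul_zero, sub_self, zero_sub, norm_neg]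
      rw [zero_sub, norm_neg] at hd ⊢
      linarith
    by_cases hy0 : y = 0
    · have h := Z0_zlip hr hr4 (hp x hx) x
      subst hy0
      rw [AA_zero_zlip, smul_zero, sub_self, sub_zero]
      rw [sub_zero] at hd ⊢
      linarith
    exact Z_zlip hr hr4 (hp x hx) (hp y hy) (hl x y) (mem_ball_zero_iff.1 hx).le
      (mem_ball_zero_iff.1 hy).le hx0 hy0

theorem inner_ZZ (Ψ : E m → E m) (x : E m) : ⟪ZZ Ψ x, x⟫ = ‖x‖ ^ 2 := by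
  by_cases hx : x = 0
  · subst hx
    simp
  have h1 := mu_ge (le_refl ‖Ψ x‖) hx
  have h2 : mu (Ψ x) x ≠ 0 := fun h => by
    rw [h, mul_zero] at h1
    linarith
  have h3 := norm_ne_zero_iff.2 hx
  have h4 : ⟪AA (Ψ x) x, x⟫ = mu (Ψ x) x * ‖x‖ ^ 2 := by
    rw [mu]
    field_simp
  rw [ZZ, real_inner_smul_left, h4, inv_mul_cancel_left₀ h2]

theorem inner_ZZ' (Ψ : E m → E m) (x q : E m) :
    ⟪ZZ Ψ x, q⟫ = ⟪AA (Ψ x) q, x⟫ / mu (Ψ x) x := by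
  rw [ZZ, real_inner_smul_left, AA_symm, real_inner_comm, div_eq_inv_mul]

theorem near_id_zlip {Y : E m → E m} {ρ K : ℝ} (hK : 0 ≤ K)
    (h : ∀ x ∈ ball (0 : E m) ρ, ∀ y ∈ ball (0 : E m) ρ,
      ‖(Y x - x) - (Y y - y)‖ ≤ K * ‖x - y‖) :
    LipschitzOnWith (K + 1).toNNReal Y (ball 0 ρ) ∧ ∀ᵐ x, x ∈ ball (0 : E m) ρ →
      DifferentiableAt ℝ Y x ∧ ‖fderiv ℝ Y x - ContinuousLinearMap.id ℝ (E m)‖ ≤ K := by
  have L : LipschitzOnWith (K + 1).toNNReal Y (ball 0 ρ) := by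
    refine LipschitzOnWith.of_dist_le_mul fun x hx y hy => ?_
    rw [Real.coe_toNNReal _ (by linarith), dist_eq_norm, dist_eq_norm]
    have e : Y x - Y y = ((Y x - x) - (Y y - y)) + (x - y) := by abel
    rw [e]
    linarith [norm_add_le ((Y x - x) - (Y y - y)) (x - y), h x hx y hy]
  refine ⟨L, ?_⟩
  filter_upwards [L.ae_differentiableWithinAt_of_mem (μ := volume)] with x hx hx'
  have d := (hx hx').differentiableAt (isOpen_ball.mem_nhds hx')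
  refine ⟨d, ?_⟩
  have e : fderiv ℝ (fun x => Y x - x) x = fderiv ℝ Y x - ContinuousLinearMap.id ℝ (E m) :=
    (d.hasFDerivAt.fun_sub (hasFDerivAt_id x)).fderiv
  rw [← e]
  exact norm_fderiv_le_of_lipOn isOpen_ball h hK hx'

/-- The vector field `chi • Z` and its derivative. -/
theorem radial_field : ∃ C > 0, ∀ (m : ℕ) (Ψ : E m → E m) (r : ℝ), 0 < r → r ≤ 1 / 4 →
    LipschitzWith 1 Ψ → ‖Ψ 0‖ ≤ r → ∀ (φ : E m → ℝ), LocallyLipschitz φ →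
      tsupport φ ⊆ closedBall 0 r →
      (LocallyLipschitz fun x => φ x • AA (Ψ x) x) ∧ (LocallyLipschitz fun x => φ x • ZZ Ψ x) ∧
      (∀ x ∈ ball (0 : E m) r, ‖ZZ Ψ x‖ ≤ C * r) ∧
      ∀ᵐ x, x ∈ ball (0 : E m) r →
        DifferentiableAt ℝ (fun x => AA (Ψ x) x) x ∧ DifferentiableAt ℝ (ZZ Ψ) x ∧
        |dv (fun x => AA (Ψ x) x) x - m| ≤ C * m * r ∧
        ‖fderiv ℝ (ZZ Ψ) x - ContinuousLinearMap.id ℝ (E m)‖ ≤ C * r := by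
  obtain ⟨C, hC, H⟩ := radial_lip
  refine ⟨C + 1, by positivity, fun m Ψ r hr hr4 hΨ h0 φ hφ hs => ?_⟩
  obtain ⟨H1, H2⟩ := H m Ψ r hr hr4 hΨ h0
  have hK : 0 ≤ C * r := by positivity
  have hb : ball (0 : E m) r ⊆ ball 0 (2 * r) := ball_subset_ball (by linarith)
  have hs' : tsupport φ ⊆ ball 0 (2 * r) := hs.trans (closedBall_subset_ball (by linarith))
  obtain ⟨L1, D1⟩ := near_id_zlip hK H1
  obtain ⟨L2, D2⟩ := near_id_zlip hK H2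
  refine ⟨locLip_cut isOpen_ball hφ hs' L1, locLip_cut isOpen_ball hφ hs' L2, fun x hx => ?_, ?_⟩
  · have h1 := H2 x (hb hx) 0 (mem_ball_self (by positivity))
    have h2 : ZZ Ψ 0 = 0 := by rw [ZZ, AA_zero_zlip, smul_zero]
    rw [h2, sub_zero, sub_zero, sub_zero] at h1
    have h3 := norm_sub_norm_le (ZZ Ψ x) x
    have h4 := mem_ball_zero_iff.1 hx
    have h5 : C * r * ‖x‖ ≤ C * r * 1 := mul_le_mul_of_nonneg_left (by linarith) hK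
    linarith
  · filter_upwards [D1, D2] with x d1 d2 hx
    obtain ⟨a1, a2⟩ := d1 (hb hx)
    obtain ⟨b1, b2⟩ := d2 (hb hx)
    refine ⟨a1, b1, ?_, by nlinarith⟩
    have e : dv (fun x => AA (Ψ x) x) x - m =
        trS (fderiv ℝ (fun x => AA (Ψ x) x) x - ContinuousLinearMap.id ℝ (E m)) := by
      rw [sub_eq_iff_eq_add, ← trS_id, ← trS_add, sub_add_cancel, dv]
    rw [e]
    refine (abs_trS_le _).trans ?_
    calc _ ≤ m * (C * r) := by gcongr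
      _ ≤ m * ((C + 1) * r) := by gcongr; linarith
      _ = _ := by ring

end Pool.Agent.Lib.MP_8daebb_an.LG
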