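import Pool.Agent.Lib.MP_8daebb_an.LG.KE
import Pool.Agent.Lib.MP_8daebb_an.LG.ZLip

open MeasureTheory Metric Set Filter Topology
open scoped RealInnerProductSpace NNReal

namespace Pool.Agent.Lib.MP_8daebb_an.LG

variable {m : ℕ} {ι : Type}

/-! K1. The derivative of the height. -/

theorem mu_mul_k1 (p x : E m) : ⟪x, AA p x⟫ = mu p x * ‖x‖ ^ 2 := by
  rw [real_inner_comm]
  by_cases hx : x = 0
  · subst hx; simp
  · have : ‖x‖ ^ 2 ≠ 0 := pow_ne_zero 2 (norm_ne_zero_iff.mpr hx)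
    unfold mu
    field_simp

theorem WL_one_k1 : WL 1 ^ 3 ≤ 3 := by
  have h1 : WL 1 ^ 2 = 2 := by
    unfold WL
    rw [Real.sq_sqrt (by norm_num)]
    norm_num
  have h0 : 0 ≤ WL 1 := le_trans zero_le_one (one_le_WL 1)
  have h2 : WL 1 ≤ 3 / 2 := by nlinarith
  calc WL 1 ^ 3 = WL 1 ^ 2 * WL 1 := by ring
    _ = 2 * WL 1 := by rw [h1]
    _ ≤ 3 := by linarith

theorem om_zero_k1 {r : ℝ} (hr : 0 < r) {x : E m} (hx : x ∉ ball (0 : E m) r) :
    om 0 r x = 0 := by
  unfold om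
  rw [pr_eq_zero hr hx]
  ring

theorem cont_om_k1 (r : ℝ) : Continuous (om (0 : E m) r) := (contDiff_om 0 r).continuous

theorem cont_sp_k1 (r : ℝ) :
    Continuous fun x : E m => 12 * (‖x‖ ^ 2 / r ^ 2) * pr 0 r x := by
  have := continuous_pr (0 : E m) r
  fun_prop

theorem sp_zero_k1 {r : ℝ} (hr : 0 < r) {x : E m} (hx : x ∉ ball (0 : E m) r) :
    12 * (‖x‖ ^ 2 / r ^ 2) * pr 0 r x = 0 := by
  rw [pr_eq_zero hr hx]
  ring

theorem sp_le_k1 {r : ℝ} (hr : 0 < r) (x : E m) :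
    |12 * (‖x‖ ^ 2 / r ^ 2) * pr 0 r x| ≤ 12 := by
  by_cases hx : x ∈ ball (0 : E m) r
  · have h1 : ‖x‖ < r := mem_ball_zero_iff.mp hx
    have h2 : ‖x‖ ^ 2 / r ^ 2 ≤ 1 := by
      rw [div_le_one (by positivity)]
      exact pow_le_pow_left₀ (norm_nonneg _) h1.le 2
    have h3 : 0 ≤ ‖x‖ ^ 2 / r ^ 2 := by positivity
    have h4 := pr_nonneg (0 : E m) r x
    have h5 := pr_le_one (0 : E m) r x
    rw [abs_of_nonneg (by positivity)]
    nlinarith [mul_nonneg h3 h4]
  · rw [sp_zero_k1 hr hx]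
    norm_num

section
variable [Fintype ι] [Nonempty ι] {L : ℝ≥0} {u : ι → E m → ℝ} {Ψ g : E m → E m}
  {r ρ CP δ D : ℝ}

omit [Nonempty ι] in
theorem locLip_F_k1 (hL : ∀ i, LipschitzWith L (u i)) :
    LocallyLipschitz fun x => ∑ i, vv u i x ^ 2 := by
  refine locLip_sum (f := fun i x => vv u i x ^ 2) Finset.univ fun i _ => ?_
  have h := locLip_mul (lip_vv hL i).locallyLipschitz (lip_vv hL i).locallyLipschitz
  simpa only [sq] using h

omit [Nonempty ι] in
theorem F_zero_k1 (h : Centre L u Ψ g r ρ CP δ D) : ∑ i, vv u i (0 : E m) ^ 2 = 0 := by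
  refine Finset.sum_eq_zero fun i _ => ?_
  simp [vv, wav, h.zero]

theorem F_le_k1 (h : Centre L u Ψ g r ρ CP δ D) {x : E m} (hx : x ∈ ball (0 : E m) r) :
    ∑ i, vv u i x ^ 2 ≤ Fintype.card ι * (2 * L * r) ^ 2 := by
  have : ∀ i ∈ (Finset.univ : Finset ι), vv u i x ^ 2 ≤ (2 * L * r) ^ 2 := by
    intro i _
    have h1 := h.abs_vv i hx
    rw [← sq_abs]
    exact pow_le_pow_left₀ (abs_nonneg _) h1 2
  simpa using Finset.sum_le_card_nsmul _ _ _ this

omit [Nonempty ι] in
theorem meas_muF_k1 (h : Centre L u Ψ g r ρ CP δ D) :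
    Measurable fun x => mu (Ψ x) x * ∑ i, vv u i x ^ 2 := by
  have h0 : Measurable fun x : E m => ((Ψ x, x) : E m × E m) :=
    h.lipΨ.continuous.measurable.prodMk measurable_id
  have h1 : Measurable fun x : E m => mu (Ψ x) x := by
    have h2 := Measurable.comp (measurable_mu (m := m)) h0
    simpa only [Function.comp_def] using h2
  exact h1.mul (locLip_F_k1 h.lip).continuous.measurable

omit [Nonempty ι] in
theorem meas_b_k1 (h : Centre L u Ψ g r ρ CP δ D) :
    Measurable fun x => ∑ i, vv u i x * ⟪AA (Ψ x) (gradient (vv u i) x), x⟫ := by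
  refine Finset.measurable_sum _ fun i _ => ?_
  have h0 : Measurable fun x : E m => ((Ψ x, gradient (vv u i) x) : E m × E m) :=
    h.lipΨ.continuous.measurable.prodMk (meas_grad _)
  have h1 : Measurable fun x : E m => AA (Ψ x) (gradient (vv u i) x) := by
    have h2 := Measurable.comp (continuous_AA (m := m)).measurable h0
    simpa only [Function.comp_def] using h2
  exact (lip_vv h.lip i).continuous.measurable.mul (h1.inner measurable_id)

theorem b_le_k1 (h : Centre L u Ψ g r ρ CP δ D) {x : E m} (hx : x ∈ ball (0 : E m) r) :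
    |∑ i, vv u i x * ⟪AA (Ψ x) (gradient (vv u i) x), x⟫| ≤
      Fintype.card ι * (2 * L * r * (2 * L * r)) := by
  refine (Finset.abs_sum_le_sum_abs _ _).trans ?_
  have : ∀ i ∈ (Finset.univ : Finset ι),
      |vv u i x * ⟪AA (Ψ x) (gradient (vv u i) x), x⟫| ≤ 2 * L * r * (2 * L * r) := by
    intro i _
    rw [abs_mul]
    have h1 := h.abs_vv i hx
    have h2 : ‖gradient (vv u i) x‖ ≤ 2 * L := by
      simpa using norm_grad_le (lip_vv h.lip i) x
    have h3 : |⟪AA (Ψ x) (gradient (vv u i) x), x⟫| ≤ 2 * L * r := by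
      refine (abs_real_inner_le_norm _ _).trans ?_
      exact mul_le_mul ((norm_AA_le _ _).trans h2) (mem_ball_zero_iff.mp hx).le (norm_nonneg _)
        (by positivity)
    exact mul_le_mul h1 h3 (abs_nonneg _) (by have := h.r_pos; positivity)
  simpa using Finset.sum_le_card_nsmul _ _ _ this

/-- The pointwise form of the divergence of the test field. -/
theorem dv_eq_k1 (h : Centre L u Ψ g r ρ CP δ D)
    (hV : ∀ᵐ x, x ∈ ball (0 : E m) r → DifferentiableAt ℝ (fun x => AA (Ψ x) x) x) :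
    ∀ᵐ x, dv (fun x => (om 0 r x * ∑ i, vv u i x ^ 2) • AA (Ψ x) x) x =
      om 0 r x * ((∑ i, vv u i x ^ 2) * dv (fun x => AA (Ψ x) x) x) -
        12 * (‖x‖ ^ 2 / r ^ 2) * pr 0 r x * (mu (Ψ x) x * ∑ i, vv u i x ^ 2) +
        2 * (om 0 r x * ∑ i, vv u i x * ⟪AA (Ψ x) (gradient (vv u i) x), x⟫) := by
  have hr := h.r_pos
  have hs : ∀ᵐ x : E m, x ∉ sphere (0 : E m) r :=
    measure_eq_zero_iff_ae_notMem.mp (Measure.addHaar_sphere_of_ne_zero volume 0 hr.ne')
  filter_upwards [hV, hs, ae_grad_vv h.lip] with x hx hxs hd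
  by_cases hb : x ∈ ball (0 : E m) r
  · have hdv := hd.2.2.1
    have hom : DifferentiableAt ℝ (om (0 : E m) r) x :=
      (contDiff_om 0 r).differentiable (by norm_num) x
    have hsq : ∀ i ∈ (Finset.univ : Finset ι),
        DifferentiableAt ℝ (fun y => vv u i y ^ 2) x := fun i _ => (hdv i).pow 2
    have hF : DifferentiableAt ℝ (fun y => ∑ i, vv u i y ^ 2) x := by
      exact DifferentiableAt.fun_sum hsq
    have hgsq : ∀ i, gradient (fun y => vv u i y ^ 2) x = (2 * vv u i x) • gradient (vv u i) x := by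
      intro i
      have h1 := grad_mul (hdv i) (hdv i)
      simp only [sq]
      rw [h1, two_mul, add_smul]
    rw [dv_smul (f := fun x => om 0 r x * ∑ i, vv u i x ^ 2) (hom.mul hF) (hx hb),
      grad_mul hom hF, grad_sum (f := fun i y => vv u i y ^ 2) _ hsq, grad_om]
    simp only [hgsq, sub_zero, inner_add_left, inner_smul_left, sum_inner, mu_mul_k1,
      conj_trivial]
    have e1 : ∑ i, 2 * vv u i x * ⟪gradient (vv u i) x, AA (Ψ x) x⟫ =
        2 * ∑ i, vv u i x * ⟪AA (Ψ x) (gradient (vv u i) x), x⟫ := by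
      rw [Finset.mul_sum]
      refine Finset.sum_congr rfl fun i _ => ?_
      rw [AA_symm]
      ring
    rw [e1]
    ring
  · have hc : x ∉ closedBall (0 : E m) r := by
      intro hc
      rw [← ball_union_sphere] at hc
      rcases hc with hc | hc
      · exact hb hc
      · exact hxs hc
    have hev : (fun x => (om 0 r x * ∑ i, vv u i x ^ 2) • AA (Ψ x) x) =ᶠ[𝓝 x]
        fun _ => (0 : E m) := by
      filter_upwards [isClosed_closedBall.isOpen_compl.mem_nhds hc] with y hy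
      have : y ∉ ball (0 : E m) r := fun h' => hy (ball_subset_closedBall h')
      rw [om_zero_k1 hr this]
      simp
    unfold dv
    rw [hev.fderiv_eq, om_zero_k1 hr hb, pr_eq_zero hr hb]
    simp [trS]

end

theorem key1 [Fintype ι] [Nonempty ι] (m : ℕ) (L : ℝ≥0) {CP : ℝ} (hCP : 0 ≤ CP) : ∃ C > 0,
    ∀ (u : ι → E m → ℝ) (Ψ g : E m → E m) (r ρ δ D : ℝ), Centre L u Ψ g r ρ CP δ D →
      |hI1 u r - 2 * UI u Ψ r| ≤ C * r * hI u r + C * δ * (r ^ 2 / r ^ m * D) := by
  obtain ⟨C0, hC0, hrad⟩ := radial_field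
  obtain ⟨Ce, hCe, her⟩ := er_bound (ι := ι) L hCP
  set C1 : ℝ := 3 * (C0 + 1) * m with hC1
  have hC1n : 0 ≤ C1 := by positivity
  refine ⟨C1 + 24 * L * Ce * (3 * C1 + 3 * m + 12) + 1, by positivity, ?_⟩
  intro u Ψ g r ρ δ D h
  have hr := h.r_pos
  have hr4 := h.r_le
  have hδ := h.δ_pos
  have hD := h.D_nonneg
  set F : E m → ℝ := fun x => ∑ i, vv u i x ^ 2 with hF
  have hFn : ∀ x, 0 ≤ F x := fun x => Finset.sum_nonneg fun i _ => sq_nonneg _
  have hφ : LocallyLipschitz fun x => om 0 r x * F x :=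
    locLip_mul (contDiff_om 0 r).locallyLipschitz (locLip_F_k1 h.lip)
  have hφs : tsupport (fun x => om 0 r x * F x) ⊆ closedBall 0 r :=
    (tsupport_mul_subset_left).trans (tsupport_om hr)
  obtain ⟨hlip, -, -, hae⟩ := hrad m Ψ r hr hr4 h.lipΨ (h.small 0 (mem_ball_self hr)) _ hφ hφs
  have hcs : HasCompactSupport fun x => (om 0 r x * F x) • AA (Ψ x) x :=
    (isCompact_closedBall (0 : E m) r).of_isClosed_subset (isClosed_tsupport _)
      ((tsupport_smul_subset_left _ _).trans hφs)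
  have hint0 := integral_dv_eq_zero hlip hcs
  have hdv := dv_eq_k1 h (hae.mono fun x hx hb => (hx hb).1)
  rw [integral_congr_ae hdv] at hint0
  set V : E m → ℝ := dv fun x => AA (Ψ x) x with hV
  set M : E m → ℝ := fun x => mu (Ψ x) x * F x with hM
  set b : E m → ℝ := fun x => ∑ i, vv u i x * ⟪AA (Ψ x) (gradient (vv u i) x), x⟫ with hb
  set B : ℝ := Fintype.card ι * (2 * L * r) ^ 2 with hB
  have hMn : ∀ x, 0 ≤ M x := fun x => mul_nonneg (mu_nonneg _ _) (hFn x)
  have hMle : ∀ᵐ x, x ∈ ball (0 : E m) r → |M x| ≤ B := by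
    refine Eventually.of_forall fun x hx => ?_
    rw [abs_of_nonneg (hMn x)]
    have h1 := F_le_k1 h hx
    have h2 := mu_le (Ψ x) x
    have h3 := hFn x
    calc M x = mu (Ψ x) x * F x := rfl
      _ ≤ 1 * F x := mul_le_mul_of_nonneg_right h2 h3
      _ ≤ B := by rw [one_mul]; exact h1
  have hKle : ∀ᵐ x, x ∈ ball (0 : E m) r → |kI u x| ≤ B := by
    refine Eventually.of_forall fun x hx => ?_
    have h1 := kI_bounds (u := u) x
    rw [abs_of_nonneg h1.1]
    refine h1.2.trans ?_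
    simpa using F_le_k1 h hx
  have hdiff : ∀ᵐ x, x ∈ ball (0 : E m) r → |F x * V x - m * M x| ≤ C1 * r * M x := by
    filter_upwards [hae] with x hx hxb
    by_cases h0 : x = 0
    · have : F x = 0 := by rw [h0]; exact F_zero_k1 h
      simp [hM, this]
    · have h1 := (hx hxb).2.2.1
      have h2 := mu_sub_one (Ψ x) h0
      have h3 := h.small x hxb
      have h4 := mu_ge (L := 1) (h3.trans (by linarith)) h0
      have h5 : 1 ≤ 3 * mu (Ψ x) x :=
        h4.trans (mul_le_mul_of_nonneg_right WL_one_k1 (mu_nonneg _ _))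
      have h6 : ‖Ψ x‖ ^ 2 ≤ r ^ 2 := pow_le_pow_left₀ (norm_nonneg _) h3 2
      have h7 : |mu (Ψ x) x - 1| ≤ r := by
        have : r ^ 2 ≤ r * (1 / 4) := by rw [sq]; exact mul_le_mul_of_nonneg_left hr4 hr.le
        linarith
      have hm : (0 : ℝ) ≤ m := Nat.cast_nonneg m
      have h8 : |V x - m * mu (Ψ x) x| ≤ (C0 + 1) * m * r := by
        have e : V x - m * mu (Ψ x) x = (V x - m) - m * (mu (Ψ x) x - 1) := by ring
        rw [e]
        refine (abs_sub _ _).trans ?_
        rw [abs_mul, abs_of_nonneg hm]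
        have := mul_le_mul_of_nonneg_left h7 hm
        linarith
      have e : F x * V x - m * M x = F x * (V x - m * mu (Ψ x) x) := by
        simp only [hM]; ring
      rw [e, abs_mul, abs_of_nonneg (hFn x)]
      have h9 : (C0 + 1) * m * r ≤ (C0 + 1) * m * r * (3 * mu (Ψ x) x) :=
        le_mul_of_one_le_right (by positivity) h5
      calc F x * |V x - m * mu (Ψ x) x| ≤ F x * ((C0 + 1) * m * r * (3 * mu (Ψ x) x)) :=
            mul_le_mul_of_nonneg_left (h8.trans h9) (hFn x)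
        _ = C1 * r * M x := by simp only [hM, hC1]; ring
  have hFV : ∀ᵐ x, x ∈ ball (0 : E m) r → |F x * V x| ≤ (C1 * r + m) * B := by
    filter_upwards [hdiff, hMle] with x h1 h2 hxb
    have h3 := h1 hxb
    have h4 := h2 hxb
    rw [abs_of_nonneg (hMn x)] at h4
    have hm : (0 : ℝ) ≤ m := Nat.cast_nonneg m
    have e : F x * V x = (F x * V x - m * M x) + m * M x := by ring
    rw [e]
    refine (abs_add_le _ _).trans ?_
    rw [abs_of_nonneg (mul_nonneg hm (hMn x))]
    have h5 : (C1 * r + m) * M x ≤ (C1 * r + m) * B :=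
      mul_le_mul_of_nonneg_left h4 (by positivity)
    linarith
  have mF : Measurable F := (locLip_F_k1 h.lip).continuous.measurable
  have mM : Measurable M := meas_muF_k1 h
  have mK : Measurable (kI u) := meas_kI h.lip
  have o0 : ∀ x, x ∉ ball (0 : E m) r → om 0 r x = 0 := fun x hx => om_zero_k1 hr hx
  have s0 : ∀ x, x ∉ ball (0 : E m) r → 12 * (‖x‖ ^ 2 / r ^ 2) * pr 0 r x = 0 :=
    fun x hx => sp_zero_k1 hr hx
  have i1 : Integrable fun x => om 0 r x * (F x * V x) :=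
    int_cut hr (cont_om_k1 r) o0 (mF.mul (meas_dv _)).aestronglyMeasurable hFV
  have i2 : Integrable fun x : E m => 12 * (‖x‖ ^ 2 / r ^ 2) * pr 0 r x * M x :=
    int_cut hr (cont_sp_k1 r) s0 mM.aestronglyMeasurable hMle
  have i3 : Integrable fun x => om 0 r x * b x :=
    int_cut hr (cont_om_k1 r) o0 (meas_b_k1 h).aestronglyMeasurable
      (Eventually.of_forall fun x hx => b_le_k1 h hx)
  have i4 : Integrable fun x => om 0 r x * M x :=
    int_cut hr (cont_om_k1 r) o0 mM.aestronglyMeasurable hMle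
  have i5 : Integrable fun x => om 0 r x * kI u x :=
    int_cut hr (cont_om_k1 r) o0 mK.aestronglyMeasurable hKle
  have i6 : Integrable fun x : E m => 12 * (‖x‖ ^ 2 / r ^ 2) * pr 0 r x * kI u x :=
    int_cut hr (cont_sp_k1 r) s0 mK.aestronglyMeasurable hKle
  have hid : (∫ x, om 0 r x * (F x * V x)) -
      (∫ x : E m, 12 * (‖x‖ ^ 2 / r ^ 2) * pr 0 r x * M x) + 2 * ∫ x, om 0 r x * b x = 0 := by
    have i12 : Integrable fun x : E m => om 0 r x * (F x * V x) -
        12 * (‖x‖ ^ 2 / r ^ 2) * pr 0 r x * M x := i1.sub i2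
    rw [← integral_sub i1 i2, ← integral_const_mul, ← integral_add i12 (i3.const_mul 2)]
    exact hint0
  have hE := her m u Ψ g r ρ δ D h
  set e : ℝ := ∫ x in ball 0 r, er u g r x with he
  have hLr : (0 : ℝ) ≤ 12 * L * r ^ 2 := by positivity
  have b1 : |(∫ x, om 0 r x * kI u x) - ∫ x, om 0 r x * M x| ≤ 3 * (12 * L * r ^ 2) * e := by
    rw [← integral_sub i5 i4]
    have := h.abs_int_le (φ := om 0 r) (f := fun x => kI u x - M x) (A := 3) o0
      (fun x => by rw [abs_of_nonneg (om_nonneg _ _ _)]; exact om_le _ _ _) hLr h.kI_sub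
    simpa only [mul_sub] using this
  have b2 : |(∫ x : E m, 12 * (‖x‖ ^ 2 / r ^ 2) * pr 0 r x * kI u x) -
      ∫ x : E m, 12 * (‖x‖ ^ 2 / r ^ 2) * pr 0 r x * M x| ≤ 12 * (12 * L * r ^ 2) * e := by
    rw [← integral_sub i6 i2]
    have := h.abs_int_le (φ := fun x => 12 * (‖x‖ ^ 2 / r ^ 2) * pr 0 r x)
      (f := fun x => kI u x - M x) (A := 12) s0 (sp_le_k1 hr) hLr h.kI_sub
    simpa only [mul_sub] using this
  have b3 : |(∫ x, om 0 r x * (F x * V x)) - m * ∫ x, om 0 r x * M x| ≤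
      C1 * r * ∫ x, om 0 r x * M x := by
    rw [← integral_const_mul, ← integral_sub i1 (i4.const_mul _), ← integral_const_mul,
      ← Real.norm_eq_abs]
    refine norm_integral_le_of_norm_le (i4.const_mul _) ?_
    filter_upwards [hdiff] with x hx
    by_cases hxb : x ∈ ball (0 : E m) r
    · have e' : om 0 r x * (F x * V x) - m * (om 0 r x * M x) =
          om 0 r x * (F x * V x - m * M x) := by ring
      rw [e', Real.norm_eq_abs, abs_mul, abs_of_nonneg (om_nonneg _ _ _)]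
      calc om 0 r x * |F x * V x - m * M x| ≤ om 0 r x * (C1 * r * M x) :=
            mul_le_mul_of_nonneg_left (hx hxb) (om_nonneg _ _ _)
        _ = C1 * r * (om 0 r x * M x) := by ring
    · simp [o0 x hxb]
  have hK0 : 0 ≤ ∫ x, om 0 r x * kI u x :=
    integral_nonneg fun x => mul_nonneg (om_nonneg _ _ _) (kI_bounds x).1
  unfold hI1 UI hI
  change |-(m : ℝ) * (2 / r ^ m * ∫ x, om 0 r x * kI u x) +
      2 / r ^ m * (∫ x : E m, 12 * (‖x‖ ^ 2 / r ^ 2) * pr 0 r x * kI u x) -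
      2 * (2 / r ^ m * ∫ x, om 0 r x * b x)| ≤ _
  generalize (∫ x, om 0 r x * kI u x) = K at *
  generalize (∫ x, om 0 r x * M x) = K' at *
  generalize (∫ x : E m, 12 * (‖x‖ ^ 2 / r ^ 2) * pr 0 r x * kI u x) = S at *
  generalize (∫ x : E m, 12 * (‖x‖ ^ 2 / r ^ 2) * pr 0 r x * M x) = S' at *
  generalize (∫ x, om 0 r x * (F x * V x)) = T at *
  generalize (∫ x, om 0 r x * b x) = U at *
  have hm : (0 : ℝ) ≤ m := Nat.cast_nonneg m
  have hq : 0 < 2 / r ^ m := by positivity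
  have e1 : -(m : ℝ) * (2 / r ^ m * K) + 2 / r ^ m * S - 2 * (2 / r ^ m * U) =
      2 / r ^ m * ((T - m * K') - m * (K - K') + (S - S')) := by
    have : U = (S' - T) / 2 := by linarith
    rw [this]; ring
  set η : ℝ := 12 * L * r ^ 2 * (Ce * δ * D) with hη
  have hη0 : 0 ≤ η := by positivity
  have hηe : 12 * L * r ^ 2 * e ≤ η := mul_le_mul_of_nonneg_left hE hLr
  have b1' : |K - K'| ≤ 3 * η := by linarith
  have b2' : |S - S'| ≤ 12 * η := by linarith
  have hK' : K' ≤ K + 3 * η := by linarith [(abs_le.mp b1').1]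
  have b3' : |T - m * K'| ≤ C1 * r * K + 3 * C1 * η := by
    have h1 : C1 * r * K' ≤ C1 * r * (K + 3 * η) :=
      mul_le_mul_of_nonneg_left hK' (by positivity)
    have h2 : C1 * η * r ≤ C1 * η * 1 :=
      mul_le_mul_of_nonneg_left (by linarith) (by positivity)
    linarith
  have b4 : |(T - m * K') - m * (K - K') + (S - S')| ≤ C1 * r * K + (3 * C1 + 3 * m + 12) * η := by
    refine (abs_add_le _ _).trans ?_
    have h1 := abs_sub (T - m * K') (m * (K - K'))
    rw [abs_mul, abs_of_nonneg hm] at h1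
    have h2 := mul_le_mul_of_nonneg_left b1' hm
    linarith
  rw [e1, abs_mul, abs_of_pos hq]
  have b5 := mul_le_mul_of_nonneg_left b4 hq.le
  refine b5.trans ?_
  have e2 : 2 / r ^ m * (C1 * r * K + (3 * C1 + 3 * m + 12) * η) =
      C1 * (r * (2 / r ^ m * K)) +
        24 * L * Ce * (3 * C1 + 3 * m + 12) * (δ * (r ^ 2 / r ^ m * D)) := by
    rw [hη]; ring
  rw [e2]
  have p1 : 0 ≤ r * (2 / r ^ m * K) := by positivity
  have p2 : 0 ≤ δ * (r ^ 2 / r ^ m * D) := by positivity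
  have p3 : (0 : ℝ) ≤ 24 * L * Ce * (3 * C1 + 3 * m + 12) := by positivity
  generalize (24 : ℝ) * L * Ce * (3 * C1 + 3 * m + 12) = C2 at *
  rw [mul_assoc _ r, mul_assoc _ δ]
  generalize r * (2 / r ^ m * K) = X at *
  generalize δ * (r ^ 2 / r ^ m * D) = Y at *
  linarith [mul_nonneg p3 p1, mul_nonneg hC1n p2]

end Pool.Agent.Lib.MP_8daebb_an.LG
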