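import Pool.Agent.Lib.MP_8daebb_an.LG.K2A

open MeasureTheory Metric Set Filter Topology
open scoped RealInnerProductSpace NNReal

namespace Pool.Agent.Lib.MP_8daebb_an.LG

variable {m : ℕ} {ι : Type}

/-! K2. The derivative of the energy. -/

theorem half_le_mu_k2 {p x : E m} (hp : ‖p‖ ≤ 1 / 4) (hx : x ≠ 0) : 1 / 2 ≤ mu p x := by
  have h := (abs_le.mp (mu_sub_one p hx)).1
  have h0 := norm_nonneg p
  nlinarith

theorem abs_div_mu_k2 {p x : E m} (hp : ‖p‖ ≤ 1 / 4) {a b : ℝ} (hb : 0 ≤ b) (h : |a| ≤ b) :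
    |a / mu p x| ≤ 2 * b := by
  by_cases hx : x = 0
  · subst hx
    have : mu p (0 : E m) = 0 := by simp [mu]
    rw [this, div_zero, abs_zero]
    positivity
  · have h1 := half_le_mu_k2 hp hx
    have h2 : 0 < mu p x := by linarith
    rw [abs_div, abs_of_pos h2, div_le_iff₀ h2]
    nlinarith [abs_nonneg a]

theorem abs_inner_AA_k2 (p q x : E m) : |⟪AA p q, x⟫| ≤ ‖q‖ * ‖x‖ :=
  (abs_real_inner_le_norm _ _).trans
    (mul_le_mul_of_nonneg_right (norm_AA_le p q) (norm_nonneg _))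

theorem AA_sub_k2 (p q q' : E m) : AA p (q - q') = AA p q - AA p q' := by
  rw [sub_eq_add_neg, AA_add, ← neg_one_smul ℝ q', AA_smul, neg_one_smul, ← sub_eq_add_neg]

theorem meas_AA_k2 {Ψ w : E m → E m} (hΨ : Measurable Ψ) (hw : Measurable w) :
    Measurable fun x => AA (Ψ x) (w x) := by
  have h1 : Measurable fun z : E m × E m => AA z.1 z.2 := (continuous_AA (m := m)).measurable
  have h2 : Measurable fun x => (Ψ x, w x) := hΨ.prodMk hw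
  have h3 := h1.comp h2
  simpa only [Function.comp_def] using h3

theorem meas_mu_k2 {Ψ : E m → E m} (hΨ : Measurable Ψ) : Measurable fun x => mu (Ψ x) x := by
  have h2 : Measurable fun x => (Ψ x, x) := hΨ.prodMk measurable_id
  have h3 := (measurable_mu (m := m)).comp h2
  simpa only [Function.comp_def] using h3

theorem meas_rad_k2 [Fintype ι] {Ψ : E m → E m} {w : ι → E m → E m} (hΨ : Measurable Ψ)
    (hw : ∀ i, Measurable (w i)) :
    Measurable fun x => ∑ i, ⟪AA (Ψ x) (w i x), x⟫ ^ 2 / mu (Ψ x) x := by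
  refine Finset.measurable_sum _ fun i _ => ?_
  have h1 : Measurable fun x => ⟪AA (Ψ x) (w i x), x⟫ :=
    (meas_AA_k2 hΨ (hw i)).inner measurable_id
  exact (h1.pow_const 2).div (meas_mu_k2 hΨ)

theorem bound_rad_k2 [Fintype ι] {p x : E m} {w : ι → E m} {M : ℝ} (hp : ‖p‖ ≤ 1 / 4)
    (hx : ‖x‖ ≤ 1) (hw : ∀ i, ‖w i‖ ≤ M) :
    |∑ i, ⟪AA p (w i), x⟫ ^ 2 / mu p x| ≤ ∑ _i : ι, 2 * M ^ 2 := by
  refine (Finset.abs_sum_le_sum_abs _ _).trans (Finset.sum_le_sum fun i _ => ?_)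
  refine abs_div_mu_k2 hp (sq_nonneg _) ?_
  have h1 := abs_inner_AA_k2 p (w i) x
  have h2 : ‖w i‖ * ‖x‖ ≤ M := by
    have := hw i
    have h0 := norm_nonneg (w i)
    nlinarith [norm_nonneg x]
  rw [abs_pow]
  exact pow_le_pow_left₀ (abs_nonneg _) (h1.trans h2) 2

theorem rad_sub_k2 {p x a b : E m} {r : ℝ} (hp : ‖p‖ ≤ 1 / 4) (hx : ‖x‖ ≤ r) :
    |⟪AA p (a - b), x⟫ ^ 2 / mu p x - ⟪AA p a, x⟫ ^ 2 / mu p x| ≤
      4 * r ^ 2 * (‖b‖ * ‖a‖ + ‖b‖ ^ 2) := by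
  rw [← sub_div]
  have h1 := abs_inner_AA_k2 p a x
  have h2 := abs_inner_AA_k2 p b x
  have ha := norm_nonneg a
  have hb := norm_nonneg b
  have hx0 := norm_nonneg x
  have hr : 0 ≤ r := hx0.trans hx
  have h1' : |⟪AA p a, x⟫| ≤ ‖a‖ * r := h1.trans (mul_le_mul_of_nonneg_left hx ha)
  have h2' : |⟪AA p b, x⟫| ≤ ‖b‖ * r := h2.trans (mul_le_mul_of_nonneg_left hx hb)
  have key : |⟪AA p (a - b), x⟫ ^ 2 - ⟪AA p a, x⟫ ^ 2| ≤ 2 * r ^ 2 * (‖b‖ * ‖a‖ + ‖b‖ ^ 2) := by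
    rw [AA_sub_k2, inner_sub_left]
    set s := ⟪AA p a, x⟫
    set t := ⟪AA p b, x⟫
    have e : (s - t) ^ 2 - s ^ 2 = t ^ 2 - 2 * (s * t) := by ring
    rw [e]
    have h3 : |s * t| ≤ ‖a‖ * r * (‖b‖ * r) := by
      rw [abs_mul]
      exact mul_le_mul h1' h2' (abs_nonneg _) (by positivity)
    have h4 : |t ^ 2| ≤ (‖b‖ * r) ^ 2 := by
      rw [abs_pow]
      exact pow_le_pow_left₀ (abs_nonneg _) h2' 2
    have h5 : |t ^ 2 - 2 * (s * t)| ≤ |t ^ 2| + 2 * |s * t| := by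
      have := abs_sub (t ^ 2) (2 * (s * t))
      rwa [abs_mul 2, abs_two] at this
    have h6 : 0 ≤ (‖b‖ * r) ^ 2 := sq_nonneg _
    nlinarith
  have := abs_div_mu_k2 (x := x) hp (by positivity) key
  linarith

theorem cube_sub_k2 {a b : E m} {M : ℝ} (hM : 1 ≤ M) (hb : ‖b‖ ≤ M) :
    ‖a - b‖ ^ 3 ≤ 4 * M * (‖b‖ ^ 2 + ‖a‖ ^ 3) := by
  have ha0 := norm_nonneg a
  have hb0 := norm_nonneg b
  have h1 : ‖a - b‖ ^ 3 ≤ (‖a‖ + ‖b‖) ^ 3 :=
    pow_le_pow_left₀ (norm_nonneg _) (norm_sub_le a b) 3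
  have h2 : (‖a‖ + ‖b‖) ^ 3 ≤ 4 * (‖a‖ ^ 3 + ‖b‖ ^ 3) := by
    have : 0 ≤ (‖a‖ + ‖b‖) * (‖a‖ - ‖b‖) ^ 2 := by positivity
    nlinarith
  have h3 : ‖b‖ ^ 3 ≤ M * ‖b‖ ^ 2 := by
    have : ‖b‖ ^ 3 = ‖b‖ * ‖b‖ ^ 2 := by ring
    rw [this]
    exact mul_le_mul_of_nonneg_right hb (sq_nonneg _)
  have h4 : ‖a‖ ^ 3 ≤ M * ‖a‖ ^ 3 := le_mul_of_one_le_left (by positivity) hM
  nlinarith

section
variable [Fintype ι] [Nonempty ι] {L : ℝ≥0} {u : ι → E m → ℝ} {Ψ g : E m → E m}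
  {r ρ CP δ D : ℝ}

theorem Centre.diff_k2 (h : Centre L u Ψ g r ρ CP δ D) {φ f₁ f₂ : E m → ℝ} {A B M₁ M₂ : ℝ}
    (hφc : Continuous φ) (hφ0 : ∀ x, x ∉ ball (0 : E m) r → φ x = 0) (hφ : ∀ x, |φ x| ≤ A)
    (hB : 0 ≤ B) (hm₁ : Measurable f₁) (hm₂ : Measurable f₂)
    (hb₁ : ∀ᵐ x, x ∈ ball (0 : E m) r → |f₁ x| ≤ M₁)
    (hb₂ : ∀ᵐ x, x ∈ ball (0 : E m) r → |f₂ x| ≤ M₂)
    (hf : ∀ᵐ x, x ∈ ball (0 : E m) r → |f₁ x - f₂ x| ≤ B * er u g r x) :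
    |(∫ x, φ x * f₁ x) - ∫ x, φ x * f₂ x| ≤ A * B * ∫ x in ball 0 r, er u g r x := by
  have i₁ := int_cut h.r_pos hφc hφ0 hm₁.aestronglyMeasurable hb₁
  have i₂ := int_cut h.r_pos hφc hφ0 hm₂.aestronglyMeasurable hb₂
  rw [← integral_sub i₁ i₂]
  have e : (fun x => φ x * f₁ x - φ x * f₂ x) = fun x => φ x * (f₁ x - f₂ x) := by
    funext x
    ring
  rw [e]
  exact h.abs_int_le hφ0 hφ hB hf

theorem Centre.small_k2 (h : Centre L u Ψ g r ρ CP δ D) {x : E m} (hx : x ∈ ball (0 : E m) r) :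
    ‖Ψ x‖ ≤ 1 / 4 ∧ ‖x‖ ≤ r ∧ ‖x‖ ≤ 1 := by
  have h1 := h.small x hx
  have h2 := h.r_le
  have h3 : ‖x‖ < r := mem_ball_zero_iff.mp hx
  exact ⟨by linarith, h3.le, by linarith⟩

theorem Centre.q_le_k2 (h : Centre L u Ψ g r ρ CP δ D) {x : E m} (hx : x ∈ ball (0 : E m) r)
    (i : ι) : ‖gradient (u i) x - Ψ x‖ ≤ L + 1 := by
  have h1 := norm_grad_le (h.lip i) x
  have h2 := (h.small_k2 hx).1
  have h3 := norm_sub_le (gradient (u i) x) (Ψ x)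
  linarith

theorem Centre.meas_qC_k2 (h : Centre L u Ψ g r ρ CP δ D) : Measurable (qC u Ψ) := by
  have hΨ : Measurable Ψ := h.lipΨ.continuous.measurable
  unfold qC
  refine Finset.measurable_sum _ fun i _ => ?_
  have hq : Measurable fun x => gradient (u i) x - Ψ x := (meas_grad _).sub hΨ
  exact (meas_AA_k2 hΨ hq).inner hq

theorem Centre.bd_qC_k2 (h : Centre L u Ψ g r ρ CP δ D) :
    ∀ᵐ x, x ∈ ball (0 : E m) r → |qC u Ψ x| ≤ ∑ _i : ι, ((L : ℝ) + 1) * (L + 1) := by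
  refine Eventually.of_forall fun x hx => ?_
  unfold qC
  refine (Finset.abs_sum_le_sum_abs _ _).trans (Finset.sum_le_sum fun i _ => ?_)
  have h1 := h.q_le_k2 hx i
  exact (abs_inner_AA_k2 _ _ _).trans
    (mul_le_mul h1 h1 (norm_nonneg _) ((norm_nonneg _).trans h1))

theorem Centre.bd_qI_k2 (h : Centre L u Ψ g r ρ CP δ D) :
    ∀ᵐ x, x ∈ ball (0 : E m) r → |qI u x| ≤ ∑ _i : ι, (2 * (L : ℝ)) ^ 2 := by
  refine Eventually.of_forall fun x _ => ?_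
  obtain ⟨h0, h1, -⟩ := qI_bounds h.lip x
  rw [abs_of_nonneg h0]
  refine h1.trans (Finset.sum_le_sum fun i _ => ?_)
  have h2 := norm_grad_le (lip_vv h.lip i) x
  rw [sub_zero]
  refine pow_le_pow_left₀ (norm_nonneg _) ?_ 2
  simpa using h2

theorem er_ge_k2 (hr : 0 < r) (x : E m) (i : ι) :
    ‖g x‖ * ‖gradient (vv u i) x‖ + ‖g x‖ ^ 2 ≤
      ‖g x‖ * ‖gradient (vv u i) x‖ + ‖g x‖ ^ 2 + ‖gradient (vv u i) x‖ ^ 3 +
        |vv u i x| / r * ‖gradient (vv u i) x‖ ^ 2 + |vv u i x| / r * ‖g x‖ ∧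
    ‖g x‖ ^ 2 + ‖gradient (vv u i) x‖ ^ 3 ≤
      ‖g x‖ * ‖gradient (vv u i) x‖ + ‖g x‖ ^ 2 + ‖gradient (vv u i) x‖ ^ 3 +
        |vv u i x| / r * ‖gradient (vv u i) x‖ ^ 2 + |vv u i x| / r * ‖g x‖ := by
  have h1 : 0 ≤ ‖g x‖ * ‖gradient (vv u i) x‖ := by positivity
  have h2 : 0 ≤ ‖gradient (vv u i) x‖ ^ 3 := by positivity
  have h3 : 0 ≤ |vv u i x| / r * ‖gradient (vv u i) x‖ ^ 2 := by positivity
  have h4 : 0 ≤ |vv u i x| / r * ‖g x‖ := by positivity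
  constructor <;> linarith

theorem Centre.rad_diff_k2 (h : Centre L u Ψ g r ρ CP δ D) :
    |(∫ x, om 0 r x * ∑ i, ⟪AA (Ψ x) (gradient (u i) x - Ψ x), x⟫ ^ 2 / mu (Ψ x) x) -
        ∫ x, om 0 r x * ∑ i, ⟪AA (Ψ x) (gradient (vv u i) x), x⟫ ^ 2 / mu (Ψ x) x| ≤
      3 * (4 * r ^ 2) * ∫ x in ball 0 r, er u g r x := by
  have hΨ : Measurable Ψ := h.lipΨ.continuous.measurable
  refine h.diff_k2 (M₁ := ∑ _i : ι, 2 * ((L : ℝ) + 1) ^ 2) (M₂ := ∑ _i : ι, 2 * (2 * (L : ℝ)) ^ 2)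
    (contDiff_om 0 r).continuous (fun x hx => ?_) (fun x => ?_) (by positivity)
    (meas_rad_k2 (w := fun i x => gradient (u i) x - Ψ x) hΨ fun i => (meas_grad _).sub hΨ)
    (meas_rad_k2 (w := fun i x => gradient (vv u i) x) hΨ fun i => meas_grad _) ?_ ?_ ?_
  · simp [om, pr_eq_zero h.r_pos hx]
  · rw [abs_of_nonneg (om_nonneg _ _ _)]
    exact om_le _ _ _
  · refine Eventually.of_forall fun x hx => ?_
    exact bound_rad_k2 (w := fun i => gradient (u i) x - Ψ x) (h.small_k2 hx).1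
      (h.small_k2 hx).2.2 (h.q_le_k2 hx)
  · refine Eventually.of_forall fun x hx => ?_
    refine bound_rad_k2 (w := fun i => gradient (vv u i) x) (h.small_k2 hx).1
      (h.small_k2 hx).2.2 fun i => ?_
    simpa using norm_grad_le (lip_vv h.lip i) x
  · filter_upwards [h.ae_facts] with x hx hxb
    obtain ⟨-, -, h3⟩ := hx hxb
    rw [← Finset.sum_sub_distrib]
    refine (Finset.abs_sum_le_sum_abs _ _).trans ?_
    unfold er
    rw [Finset.mul_sum]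
    refine Finset.sum_le_sum fun i _ => ?_
    rw [h3 i]
    refine (rad_sub_k2 (h.small_k2 hxb).1 (h.small_k2 hxb).2.1).trans ?_
    exact mul_le_mul_of_nonneg_left (er_ge_k2 h.r_pos x i).1 (by positivity)

theorem Centre.q_diff_k2 (h : Centre L u Ψ g r ρ CP δ D) {φ : E m → ℝ} {A : ℝ}
    (hφc : Continuous φ) (hφ0 : ∀ x, x ∉ ball (0 : E m) r → φ x = 0) (hφ : ∀ x, |φ x| ≤ A) :
    |(∫ x, φ x * qI u x) - ∫ x, φ x * qC u Ψ x| ≤
      A * (12 * L + 2) * ∫ x in ball 0 r, er u g r x :=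
  h.diff_k2 hφc hφ0 hφ (by positivity) (meas_qI u) h.meas_qC_k2 h.bd_qI_k2 h.bd_qC_k2 h.qI_sub

theorem Centre.cube_k2 (h : Centre L u Ψ g r ρ CP δ D) :
    ∫ x in ball 0 r, ∑ i, ‖gradient (u i) x - Ψ x‖ ^ 3 ≤
      4 * (L + 1) * ∫ x in ball 0 r, er u g r x := by
  rw [← integral_const_mul]
  refine integral_mono_of_nonneg (Eventually.of_forall fun x => ?_) (h.er_int.const_mul _) ?_
  · exact Finset.sum_nonneg fun i _ => by positivity
  · rw [EventuallyLE, ae_restrict_iff' measurableSet_ball]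
    filter_upwards [h.ae_facts] with x hx hxb
    obtain ⟨h1, -, h3⟩ := hx hxb
    unfold er
    rw [Finset.mul_sum]
    refine Finset.sum_le_sum fun i _ => ?_
    rw [h3 i]
    have hL : (1 : ℝ) ≤ L + 1 := by
      have := L.coe_nonneg
      linarith
    refine (cube_sub_k2 hL h1).trans ?_
    exact mul_le_mul_of_nonneg_left (er_ge_k2 h.r_pos x i).2 (by positivity)

end

theorem arith_k2 {n C K Ce r c δ D A A' B B' G G' T E₀ M : ℝ} (hn : 0 ≤ n) (hC : 0 < C)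
    (hK : 0 ≤ K) (hM : 0 ≤ M) (hCe : 0 < Ce) (hr : 0 < r) (hr1 : r ≤ 1) (hc : 0 < c)
    (hδD : 0 ≤ δ * D) (hB' : 0 ≤ B') (hE0 : 0 ≤ E₀) (hE : E₀ ≤ Ce * δ * D)
    (h0 : 4 / r ^ 2 * A ≤ (2 - n + C * r) * B + G + C * T)
    (hA : |A - A'| ≤ 3 * (4 * r ^ 2) * E₀) (hB : |B' - B| ≤ 1 * K * E₀)
    (hG : |G' - G| ≤ 6 * K * E₀) (hT : T ≤ M * E₀) :
    c * (4 / r ^ 2 * A') - (C + (48 + (8 + n + C) * K + C * M) * Ce) * r * (c * B') -
        (C + (48 + (8 + n + C) * K + C * M) * Ce) * δ * (c * D) ≤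
      (2 - n) * (c * B') + c * G' := by
  set S := 48 + (8 + n + C) * K + C * M with hS
  have hS0 : 0 ≤ S := by positivity
  have hr2 : 0 < r ^ 2 := by positivity
  have h1 : 4 / r ^ 2 * A' ≤ 4 / r ^ 2 * A + 48 * E₀ := by
    have h2 : A' ≤ A + 3 * (4 * r ^ 2) * E₀ := by linarith [(abs_le.mp hA).1]
    have h3 : 4 / r ^ 2 * A' ≤ 4 / r ^ 2 * (A + 3 * (4 * r ^ 2) * E₀) :=
      mul_le_mul_of_nonneg_left h2 (by positivity)
    have h4 : 4 / r ^ 2 * (A + 3 * (4 * r ^ 2) * E₀) = 4 / r ^ 2 * A + 48 * E₀ := by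
      field_simp
      ring
    linarith
  have h5 : (2 - n + C * r) * B ≤ (2 - n + C * r) * B' + (2 + n + C) * K * E₀ := by
    have h6 : |2 - n + C * r| ≤ 2 + n + C := by
      have : C * r ≤ C := mul_le_of_le_one_right hC.le hr1
      have : 0 < C * r := by positivity
      rw [abs_le]
      constructor <;> linarith
    have h7 : |(2 - n + C * r) * (B' - B)| ≤ (2 + n + C) * (1 * K * E₀) := by
      rw [abs_mul]
      exact mul_le_mul h6 hB (abs_nonneg _) (by positivity)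
    have h8 := (abs_le.mp h7).1
    nlinarith
  have h9 : G ≤ G' + 6 * K * E₀ := by linarith [(abs_le.mp hG).1]
  have h10 : C * T ≤ C * (M * E₀) := mul_le_mul_of_nonneg_left hT hC.le
  have h11 : 4 / r ^ 2 * A' ≤ (2 - n + C * r) * B' + G' + S * E₀ := by
    rw [hS]
    nlinarith
  have h12 : S * E₀ ≤ S * (Ce * δ * D) := mul_le_mul_of_nonneg_left hE hS0
  have h13 : 0 ≤ S * Ce * r * B' := by positivity
  have h14 : 0 ≤ C * (δ * D) := by positivity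
  have h15 : 4 / r ^ 2 * A' - (C + S * Ce) * r * B' - (C + S * Ce) * δ * D ≤
      (2 - n) * B' + G' := by nlinarith
  have h16 := mul_le_mul_of_nonneg_left h15 hc.le
  nlinarith

theorem key2 [Fintype ι] [Nonempty ι] (m : ℕ) (L : ℝ≥0) {CP : ℝ} (hCP : 0 ≤ CP) : ∃ C > 0,
    ∀ (u : ι → E m → ℝ) (Ψ g : E m → E m) (r ρ δ D : ℝ), Centre L u Ψ g r ρ CP δ D →
      2 * rI u Ψ r - C * r * dI u r - C * δ * (r ^ 2 / r ^ m * D) ≤ dI1 u r := by
  obtain ⟨C, hC, hk⟩ := key2a (ι := ι) m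
  obtain ⟨Ce, hCe, he⟩ := er_bound (ι := ι) L hCP
  refine ⟨C + (48 + (8 + (m : ℝ) + C) * (12 * L + 2) + C * (4 * (L + 1))) * Ce, by positivity,
    fun u Ψ g r ρ δ D h => ?_⟩
  have hr := h.r_pos
  have hr1 : r ≤ 1 := h.r_le.trans (by norm_num)
  have hc : 0 < r ^ 2 / r ^ m := by positivity
  have hB' : 0 ≤ ∫ x, chi 0 r x * qI u x :=
    integral_nonneg fun x => mul_nonneg (chi_nonneg _ _ _) (qI_bounds h.lip x).1
  have hE0 : 0 ≤ ∫ x in ball 0 r, er u g r x := integral_nonneg fun x => er_nonneg hr x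
  have hB := h.q_diff_k2 (φ := chi 0 r) (A := 1) (contDiff_chi 0 r).continuous
    (fun x hx => by simp [chi, pr_eq_zero hr hx])
    (fun x => by
      rw [abs_of_nonneg (chi_nonneg _ _ _)]
      exact chi_le_one _ _ _)
  have hG := h.q_diff_k2 (φ := fun x => 2 * (‖x‖ ^ 2 / r ^ 2) * om 0 r x) (A := 6)
    ((continuous_const.mul ((continuous_norm.pow 2).div_const _)).mul
      (contDiff_om 0 r).continuous)
    (fun x hx => by simp [om, pr_eq_zero hr hx])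
    (fun x => by
      by_cases hx : x ∈ ball (0 : E m) r
      · have h1 : ‖x‖ ^ 2 / r ^ 2 ≤ 1 := by
          rw [div_le_one (by positivity)]
          exact pow_le_pow_left₀ (norm_nonneg _) (h.small_k2 hx).2.1 2
        have h2 : 0 ≤ ‖x‖ ^ 2 / r ^ 2 := by positivity
        have h3 := om_nonneg 0 r x
        have h4 := om_le 0 r x
        rw [abs_of_nonneg (by positivity)]
        nlinarith
      · simp [om, pr_eq_zero hr hx])
  have key := arith_k2 (Nat.cast_nonneg m) hC (by positivity) (by positivity) hCe hr hr1 hc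
    (mul_nonneg h.δ_pos.le h.D_nonneg) hB' hE0 (he m u Ψ g r ρ δ D h) (hk L CP u Ψ g r ρ δ D h)
    h.rad_diff_k2 hB hG h.cube_k2
  have e : 2 * rI u Ψ r = r ^ 2 / r ^ m * (4 / r ^ 2 *
      ∫ x, om 0 r x * ∑ i, ⟪AA (Ψ x) (gradient (vv u i) x), x⟫ ^ 2 / mu (Ψ x) x) := by
    unfold rI
    field_simp
    ring
  rw [e]
  unfold dI1 dI
  exact key

end Pool.Agent.Lib.MP_8daebb_an.LG
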