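import Pool.Agent.Lib.MP_8daebb_an.LG.K2P
import Pool.Agent.Lib.MP_8daebb_an.LG.KE
import Pool.Agent.Lib.MP_8daebb_an.LG.ZLip
import Pool.Agent.Lib.MP_8daebb_an.LG.Inner

open MeasureTheory Metric Set Filter Topology
open scoped RealInnerProductSpace NNReal

namespace Pool.Agent.Lib.MP_8daebb_an.LG

variable {m : ℕ} {ι : Type}

/-! K2A. The integrated inner variation inequality relative to the centre. -/

/-- The inner variation integrand as a function of its five arguments. -/
noncomputable def fI_k2a (z : E m × E m × (E m →L[ℝ] E m) × (E m →L[ℝ] E m) × E m) : ℝ :=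
  (W z.1 - W z.2.1 - ⟪aa z.2.1, z.1 - z.2.1⟫) * trS z.2.2.1 -
    ⟪z.2.2.1 (aa z.1 - aa z.2.1), z.1 - z.2.1⟫ +
    ⟪aa z.1 - aa z.2.1 - AA z.2.1 (z.1 - z.2.1), z.2.2.2.1 z.2.2.2.2⟫

theorem cont_trS_k2a : Continuous (trS : (E m →L[ℝ] E m) → ℝ) := by
  unfold trS
  fun_prop

theorem cont_fI_k2a : Continuous (fI_k2a (m := m)) := by
  have hW : Continuous (W : E m → ℝ) := contDiff_W.continuous
  have ha : Continuous (aa : E m → E m) := contDiff_aa.continuous
  have hA : Continuous fun z : E m × E m × (E m →L[ℝ] E m) × (E m →L[ℝ] E m) × E m =>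
      AA z.2.1 (z.1 - z.2.1) :=
    continuous_AA.comp (f := fun z : E m × E m × (E m →L[ℝ] E m) × (E m →L[ℝ] E m) × E m =>
      (z.2.1, z.1 - z.2.1)) (by fun_prop)
  have hT := cont_trS_k2a (m := m)
  unfold fI_k2a
  fun_prop

theorem int_fI_k2a {f : E m → ℝ} {L : ℝ≥0} (hf : LipschitzWith L f) {Ψ Y : E m → E m}
    (hΨ : LipschitzWith 1 Ψ) (hY : LocallyLipschitz Y) {r : ℝ}
    (hs : tsupport Y ⊆ closedBall 0 r) :
    Integrable fun x => fI_k2a (gradient f x, Ψ x, fderiv ℝ Y x, fderiv ℝ Ψ x, Y x) := by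
  have hc : HasCompactSupport Y :=
    (isCompact_closedBall (0 : E m) r).of_isClosed_subset (isClosed_tsupport _) hs
  obtain ⟨K, hK⟩ := locLip_compact hY hc
  obtain ⟨A, hA⟩ := (isCompact_closedBall (0 : E m) r).exists_bound_of_continuousOn
    hΨ.continuous.continuousOn
  obtain ⟨B, hB⟩ := (isCompact_closedBall (0 : E m) r).exists_bound_of_continuousOn
    hK.continuous.continuousOn
  have hcomp : IsCompact ((closedBall (0 : E m) L) ×ˢ (closedBall (0 : E m) A) ×ˢ
      (closedBall (0 : E m →L[ℝ] E m) K) ×ˢ (closedBall (0 : E m →L[ℝ] E m) 1) ×ˢ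
      (closedBall (0 : E m) B)) :=
    (isCompact_closedBall _ _).prod ((isCompact_closedBall _ _).prod
      ((isCompact_closedBall _ _).prod ((isCompact_closedBall _ _).prod (isCompact_closedBall _ _))))
  obtain ⟨C, hC⟩ := hcomp.exists_bound_of_continuousOn cont_fI_k2a.continuousOn
  refine int_of_compact ?_ (isCompact_closedBall (0 : E m) r) (C := C) ?_ ?_
  · refine cont_fI_k2a.comp_aestronglyMeasurable ?_
    exact (meas_grad f).aestronglyMeasurable.prodMk (hΨ.continuous.aestronglyMeasurable.prodMk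
      ((measurable_fderiv ℝ Y).aestronglyMeasurable.prodMk
        ((measurable_fderiv ℝ Ψ).aestronglyMeasurable.prodMk hK.continuous.aestronglyMeasurable)))
  · refine Eventually.of_forall fun x hx => hC _ ?_
    simp only [mem_prod, mem_closedBall, dist_zero_right]
    refine ⟨norm_grad_le hf x, hA x hx, norm_fderiv_le_of_lipschitz ℝ hK, ?_, hB x hx⟩
    simpa using norm_fderiv_le_of_lipschitz ℝ hΨ (x₀ := x)
  · refine Eventually.of_forall fun x hx => ?_
    have hx' : x ∉ tsupport Y := fun h => hx (hs h)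
    have h1 : Y x = 0 := image_eq_zero_of_notMem_tsupport hx'
    have h2 : fderiv ℝ Y x = 0 := by
      have : Y =ᶠ[𝓝 x] fun _ => 0 := notMem_tsupport_iff_eventuallyEq.mp hx'
      rw [this.fderiv_eq]
      simp
    simp [fI_k2a, h1, h2, trS]

theorem meas_AA_k2a {f g : E m → E m} (hf : Measurable f) (hg : Measurable g) :
    Measurable fun x => AA (f x) (g x) := by
  have h := (continuous_AA (m := m)).measurable.comp (hf.prodMk hg)
  simpa only [Function.comp_def] using h

theorem meas_mu_k2a {f g : E m → E m} (hf : Measurable f) (hg : Measurable g) :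
    Measurable fun x => mu (f x) (g x) := by
  have h := (measurable_mu (m := m)).comp (hf.prodMk hg)
  simpa only [Function.comp_def] using h

theorem key2a [Fintype ι] [Nonempty ι] (m : ℕ) : ∃ C > 0,
    ∀ (L : ℝ≥0) (CP : ℝ) (u : ι → E m → ℝ) (Ψ g : E m → E m) (r ρ δ D : ℝ),
      Centre L u Ψ g r ρ CP δ D →
      4 / r ^ 2 * (∫ x, om 0 r x *
          ∑ i, ⟪AA (Ψ x) (gradient (u i) x - Ψ x), x⟫ ^ 2 / mu (Ψ x) x) ≤
        (2 - m + C * r) * (∫ x, chi 0 r x * qC u Ψ x) +
          (∫ x, 2 * (‖x‖ ^ 2 / r ^ 2) * om 0 r x * qC u Ψ x) +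
          C * ∫ x in ball 0 r, ∑ i, ‖gradient (u i) x - Ψ x‖ ^ 3 := by
  obtain ⟨C₀, hC₀, hrad⟩ := radial_field
  obtain ⟨C, hC, hpt⟩ := inner_pointwise m hC₀
  refine ⟨2 * C, by positivity, fun L CP u Ψ g r ρ δ D h => ?_⟩
  have hr := h.r_pos
  have hΨc : Continuous Ψ := h.lipΨ.continuous
  have hchi : LocallyLipschitz (chi (0 : E m) r) := (contDiff_chi 0 r).locallyLipschitz
  obtain ⟨-, hY, hZ, hae⟩ := hrad m Ψ r hr h.r_le h.lipΨ (h.small 0 (mem_ball_self hr))
    (chi 0 r) hchi (tsupport_chi hr)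
  set Y : E m → E m := fun x => chi 0 r x • ZZ Ψ x with hYdef
  have hsY : tsupport Y ⊆ closedBall 0 r :=
    (tsupport_smul_subset_left _ _).trans (tsupport_chi hr)
  have hcY : HasCompactSupport Y :=
    (isCompact_closedBall (0 : E m) r).of_isClosed_subset (isClosed_tsupport _) hsY
  have hid := inner_centre h hY hcY (hsY.trans (closedBall_subset_ball h.lt))
  have hI : ∀ i, Integrable fun x =>
      fI_k2a (gradient (u i) x, Ψ x, fderiv ℝ Y x, fderiv ℝ Ψ x, Y x) :=
    fun i => int_fI_k2a (h.lip i) h.lipΨ hY hsY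
  have hid' : ∫ x, ∑ i, fI_k2a (gradient (u i) x, Ψ x, fderiv ℝ Y x, fderiv ℝ Ψ x, Y x) = 0 := by
    rw [integral_finsetSum _ fun i _ => hI i]
    exact hid
  -- sizes and measurability
  have hq : ∀ i, ∀ x ∈ ball (0 : E m) r, ‖gradient (u i) x - Ψ x‖ ≤ L + r := fun i x hx =>
    (norm_sub_le _ _).trans (add_le_add (norm_grad_le (h.lip i) x) (h.small x hx))
  have hqm : ∀ i, Measurable fun x => gradient (u i) x - Ψ x := fun i =>
    (meas_grad _).sub hΨc.measurable
  have hAm : ∀ i, Measurable fun x => AA (Ψ x) (gradient (u i) x - Ψ x) := fun i =>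
    meas_AA_k2a hΨc.measurable (hqm i)
  have hqCm : Measurable (qC u Ψ) := by
    unfold qC
    exact Finset.measurable_sum _ fun i _ => (hAm i).inner (hqm i)
  have hqCb : ∀ᵐ x, x ∈ ball (0 : E m) r → |qC u Ψ x| ≤ ∑ _i : ι, (L + r) * (L + r) := by
    refine Eventually.of_forall fun x hx => ?_
    refine (Finset.abs_sum_le_sum_abs _ _).trans (Finset.sum_le_sum fun i _ => ?_)
    refine (abs_real_inner_le_norm _ _).trans ?_
    exact mul_le_mul ((norm_AA_le _ _).trans (hq i x hx)) (hq i x hx) (norm_nonneg _)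
      (by positivity)
  have hbm : Measurable fun x =>
      ∑ i, ⟪AA (Ψ x) (gradient (u i) x - Ψ x), x⟫ ^ 2 / mu (Ψ x) x :=
    Finset.measurable_sum _ fun i _ => (((hAm i).inner measurable_id').pow_const 2).div
      (meas_mu_k2a hΨc.measurable measurable_id')
  have hbb : ∀ᵐ x, x ∈ ball (0 : E m) r →
      |∑ i, ⟪AA (Ψ x) (gradient (u i) x - Ψ x), x⟫ ^ 2 / mu (Ψ x) x| ≤
        ∑ _i : ι, (C₀ * r * (L + r)) * ((L + r) * r) := by
    refine Eventually.of_forall fun x hx => ?_
    refine (Finset.abs_sum_le_sum_abs _ _).trans (Finset.sum_le_sum fun i _ => ?_)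
    have e : ⟪AA (Ψ x) (gradient (u i) x - Ψ x), x⟫ ^ 2 / mu (Ψ x) x =
        ⟪ZZ Ψ x, gradient (u i) x - Ψ x⟫ * ⟪AA (Ψ x) (gradient (u i) x - Ψ x), x⟫ := by
      rw [inner_ZZ']
      ring
    have hx' : ‖x‖ ≤ r := by simpa using (mem_ball.mp hx).le
    rw [e, abs_mul]
    refine mul_le_mul ((abs_real_inner_le_norm _ _).trans ?_)
      ((abs_real_inner_le_norm _ _).trans ?_) (abs_nonneg _) (by positivity)
    · exact mul_le_mul (hZ x hx) (hq i x hx) (norm_nonneg _) (by positivity)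
    · exact mul_le_mul ((norm_AA_le _ _).trans (hq i x hx)) hx' (norm_nonneg _) (by positivity)
  have hchi0 : ∀ x, x ∉ ball (0 : E m) r → chi 0 r x = 0 := fun x hx => by
    simp [chi, pr_eq_zero hr hx]
  have hom0 : ∀ x, x ∉ ball (0 : E m) r → om 0 r x = 0 := fun x hx => by
    simp [om, pr_eq_zero hr hx]
  have homc : Continuous (om (0 : E m) r) := (contDiff_om 0 r).continuous
  have i1 : Integrable fun x => chi 0 r x * qC u Ψ x :=
    int_cut hr (contDiff_chi 0 r).continuous hchi0 hqCm.aestronglyMeasurable hqCb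
  have i2 : Integrable fun x => 2 * (‖x‖ ^ 2 / r ^ 2) * om 0 r x * qC u Ψ x :=
    int_cut (φ := fun x : E m => 2 * (‖x‖ ^ 2 / r ^ 2) * om 0 r x) hr (by fun_prop)
      (fun x hx => by simp [hom0 x hx]) hqCm.aestronglyMeasurable hqCb
  have i3 : Integrable fun x => om 0 r x *
      ∑ i, ⟪AA (Ψ x) (gradient (u i) x - Ψ x), x⟫ ^ 2 / mu (Ψ x) x :=
    int_cut hr homc hom0 hbm.aestronglyMeasurable hbb
  have i4' : IntegrableOn (fun x => ∑ i, ‖gradient (u i) x - Ψ x‖ ^ 3) (ball 0 r) := by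
    refine intOn_ball (C := ∑ _i : ι, (L + r) ^ 3)
      (Finset.measurable_sum _ fun i _ => (hqm i).norm.pow_const 3).aestronglyMeasurable ?_
    refine Eventually.of_forall fun x hx => ?_
    rw [Real.norm_of_nonneg (Finset.sum_nonneg fun i _ => by positivity)]
    exact Finset.sum_le_sum fun i _ => pow_le_pow_left₀ (norm_nonneg _) (hq i x hx) 3
  have i4 : Integrable ((ball (0 : E m) r).indicator fun x =>
      ∑ i, ‖gradient (u i) x - Ψ x‖ ^ 3) := (integrable_indicator_iff measurableSet_ball).mpr i4'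
  -- the pointwise inequality
  have hsph : ∀ᵐ x : E m, x ∉ sphere (0 : E m) r :=
    measure_eq_zero_iff_ae_notMem.mp (Measure.addHaar_sphere_of_ne_zero volume 0 hr.ne')
  have hle : ∀ᵐ x, ((m : ℝ) / 2 - 1 - C * r) * (chi 0 r x * qC u Ψ x) -
      1 / 2 * (2 * (‖x‖ ^ 2 / r ^ 2) * om 0 r x * qC u Ψ x) +
      2 / r ^ 2 * (om 0 r x * ∑ i, ⟪AA (Ψ x) (gradient (u i) x - Ψ x), x⟫ ^ 2 / mu (Ψ x) x) -
      C * (ball (0 : E m) r).indicator (fun x => ∑ i, ‖gradient (u i) x - Ψ x‖ ^ 3) x ≤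
      ∑ i, fI_k2a (gradient (u i) x, Ψ x, fderiv ℝ Y x, fderiv ℝ Ψ x, Y x) := by
    filter_upwards [hae, hsph] with x hx hxs
    by_cases hb : x ∈ ball (0 : E m) r
    · obtain ⟨-, hdZ, -, hDZ⟩ := hx hb
      have hx' : ‖x‖ ≤ r := by simpa using (mem_ball.mp hb).le
      have hdchi : DifferentiableAt ℝ (chi (0 : E m) r) x :=
        (contDiff_chi 0 r).differentiable (by simp) x
      have hDY : ∀ v, fderiv ℝ Y x v = chi 0 r x • fderiv ℝ (ZZ Ψ) x v -
          (2 * om 0 r x / r ^ 2 * ⟪x, v⟫) • ZZ Ψ x := fun v => by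
        have e1 : fderiv ℝ Y x = chi 0 r x • fderiv ℝ (ZZ Ψ) x +
            (fderiv ℝ (chi 0 r) x).smulRight (ZZ Ψ x) := fderiv_fun_smul hdchi hdZ
        rw [e1, add_apply, smul_apply,
          ContinuousLinearMap.smulRight_apply, ← inner_grad, grad_chi, sub_zero,
          real_inner_smul_left, neg_mul, neg_smul, sub_eq_add_neg]
      have hB : ‖fderiv ℝ Ψ x‖ ≤ 1 := by
        simpa using norm_fderiv_le_of_lipschitz ℝ h.lipΨ (x₀ := x)
      rw [indicator_of_mem hb]
      have key := fun i => hpt r (chi 0 r x) (om 0 r x) x (Ψ x) (gradient (u i) x - Ψ x) (ZZ Ψ x)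
        (fderiv ℝ (ZZ Ψ) x) (fderiv ℝ Y x) (fderiv ℝ Ψ x) hr h.r_le hx' (h.small x hb)
        (chi_nonneg _ _ _) (chi_le_one _ _ _) (om_nonneg _ _ _) (om_le _ _ _) (hZ x hb) hB hDZ
        (inner_ZZ Ψ x) (inner_ZZ' Ψ x _) hDY
      refine le_trans (le_of_eq ?_) (Finset.sum_le_sum fun i _ => (key i).trans (le_of_eq ?_))
      · simp only [qC, Finset.mul_sum, ← Finset.sum_sub_distrib, ← Finset.sum_add_distrib]
        refine Finset.sum_congr rfl fun i _ => ?_
        ring
      · simp only [fI_k2a, add_sub_cancel, hYdef]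
    · have hx' : x ∉ tsupport Y := fun h' => by
        rcases (mem_closedBall.mp (hsY h')).lt_or_eq with h1 | h1
        · exact hb h1
        · exact hxs h1
      have h1 : Y x = 0 := image_eq_zero_of_notMem_tsupport hx'
      have h2 : fderiv ℝ Y x = 0 := by
        have : Y =ᶠ[𝓝 x] fun _ => 0 := notMem_tsupport_iff_eventuallyEq.mp hx'
        rw [this.fderiv_eq]
        simp
      rw [indicator_of_notMem hb, hchi0 x hb, hom0 x hb]
      simp [fI_k2a, h1, h2, trS]
  have hmono := integral_mono_ae ((((i1.const_mul _).sub (i2.const_mul _)).add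
    (i3.const_mul _)).sub (i4.const_mul _)) (integrable_finsetSum _ fun i _ => hI i) hle
  rw [hid'] at hmono
  simp only [Pi.sub_apply, Pi.add_apply] at hmono
  rw [integral_sub, integral_add, integral_sub, integral_const_mul, integral_const_mul,
    integral_const_mul, integral_const_mul, integral_indicator measurableSet_ball] at hmono
  · have e4 : (4 : ℝ) / r ^ 2 = 2 * (2 / r ^ 2) := by ring
    rw [e4]
    linarith
  · exact i1.const_mul _
  · exact i2.const_mul _
  · exact (i1.const_mul _).sub (i2.const_mul _)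
  · exact i3.const_mul _
  · exact ((i1.const_mul _).sub (i2.const_mul _)).add (i3.const_mul _)
  · exact i4.const_mul _

end Pool.Agent.Lib.MP_8daebb_an.LG
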