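import Pool.Agent.Lib.MP_8daebb_an.LG.Alg

open MeasureTheory Metric Set Filter Topology
open scoped RealInnerProductSpace NNReal

namespace Pool.Agent.Lib.MP_8daebb_an.LG

variable {m : ℕ} {ι : Type}

/-! K2P. The pointwise lower bound for the inner variation integrand. -/

theorem coerc_k2p {P : E m} (hP : ‖P‖ ≤ 1) (q : E m) :
    0 ≤ ⟪AA P q, q⟫ ∧ ‖q‖ ^ 2 ≤ 3 * ⟪AA P q, q⟫ := by
  have h1 := AA_coercive hP q
  have h2 := one_le_WL 1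
  have h3 : WL 1 ^ 2 = 2 := by
    unfold WL
    rw [Real.sq_sqrt (by norm_num)]; norm_num
  have h4 : WL 1 ≤ 3 / 2 := by nlinarith
  have h5 : WL 1 ^ 3 ≤ 3 := by
    rw [pow_succ, h3]; linarith
  have h6 : 0 < WL 1 ^ 3 := by positivity
  have h7 : 0 ≤ ⟪AA P q, q⟫ :=
    nonneg_of_mul_nonneg_right ((sq_nonneg _).trans h1) h6
  exact ⟨h7, h1.trans (mul_le_mul_of_nonneg_right h5 h7)⟩

theorem inner_pointwise (m : ℕ) {C₀ : ℝ} (hC₀ : 0 < C₀) : ∃ C > 0,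
    ∀ (r χ ω : ℝ) (x P q Z : E m) (DZ DY B : E m →L[ℝ] E m), 0 < r → r ≤ 1 / 4 → ‖x‖ ≤ r →
      ‖P‖ ≤ r → 0 ≤ χ → χ ≤ 1 → 0 ≤ ω → ω ≤ 3 → ‖Z‖ ≤ C₀ * r → ‖B‖ ≤ 1 →
      ‖DZ - ContinuousLinearMap.id ℝ (E m)‖ ≤ C₀ * r → ⟪Z, x⟫ = ‖x‖ ^ 2 →
      ⟪Z, q⟫ = ⟪AA P q, x⟫ / mu P x →
      (∀ v, DY v = χ • DZ v - (2 * ω / r ^ 2 * ⟪x, v⟫) • Z) →
      ⟪AA P q, q⟫ / 2 * (m * χ - 2 * (‖x‖ ^ 2 / r ^ 2) * ω) - χ * ⟪AA P q, q⟫ +
          2 * ω / r ^ 2 * (⟪AA P q, x⟫ ^ 2 / mu P x) - C * r * (χ * ⟪AA P q, q⟫) - C * ‖q‖ ^ 3 ≤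
        (W (P + q) - W P - ⟪aa P, q⟫) * trS DY - ⟪DY (aa (P + q) - aa P), q⟫ +
          ⟪aa (P + q) - aa P - AA P q, B (χ • Z)⟫ := by
  refine ⟨(m / 2 + 21) * C₀ + 6 * (1 + 7 * C₀) * (m + 1), by positivity, ?_⟩
  intro r χ ω x P q Z DZ DY B hr hr4 hx hP hχ0 hχ1 hω0 hω3 hZ hB hDZ hZx hZq hDY
  obtain ⟨hQ0, hQ⟩ := coerc_k2p (hP.trans (by linarith)) q
  set D := DZ - ContinuousLinearMap.id ℝ (E m) with hD
  have hDZv : ∀ v, DZ v = v + D v := fun v => by simp [hD]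
  have hDn : ∀ v, ‖D v‖ ≤ C₀ * r * ‖v‖ := fun v =>
    (D.le_opNorm v).trans (mul_le_mul_of_nonneg_right hDZ (norm_nonneg _))
  have hK : ‖DY‖ ≤ 1 + 7 * C₀ := by
    refine ContinuousLinearMap.opNorm_le_bound _ (by positivity) fun v => ?_
    have hv := norm_nonneg v
    have h1 : ‖χ • DZ v‖ ≤ (1 + C₀) * ‖v‖ := by
      rw [norm_smul, Real.norm_eq_abs, abs_of_nonneg hχ0, hDZv]
      have h2 := norm_add_le v (D v)
      have h3 := hDn v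
      have h4 : C₀ * r * ‖v‖ ≤ C₀ * 1 * ‖v‖ := by gcongr; linarith
      calc χ * ‖v + D v‖ ≤ 1 * ‖v + D v‖ := by gcongr
        _ ≤ _ := by linarith
    have h2 : ‖(2 * ω / r ^ 2 * ⟪x, v⟫) • Z‖ ≤ 6 * C₀ * ‖v‖ := by
      rw [norm_smul, Real.norm_eq_abs, abs_mul, abs_of_nonneg (by positivity)]
      have h3 : |⟪x, v⟫| ≤ r * ‖v‖ := (abs_real_inner_le_norm x v).trans (by gcongr)
      calc _ ≤ 2 * 3 / r ^ 2 * (r * ‖v‖) * (C₀ * r) := by gcongr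
        _ = _ := by field_simp; ring
    rw [hDY]
    refine (norm_sub_le _ _).trans ?_
    linarith
  have htr : trS DY = χ * (m + trS D) - 2 * ω / r ^ 2 * ‖x‖ ^ 2 := by
    have e1 : DY = χ • (ContinuousLinearMap.id ℝ (E m) + D) +
        (-(2 * ω / r ^ 2)) • (innerSL ℝ x).smulRight Z := by
      ext1 v
      rw [hDY, hDZv]
      simp only [ContinuousLinearMap.add_apply, ContinuousLinearMap.smul_apply,
        ContinuousLinearMap.id_apply, ContinuousLinearMap.smulRight_apply, innerSL_apply_apply,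
        smul_smul, neg_mul, neg_smul, sub_eq_add_neg, ContinuousLinearMap.neg_apply]
    rw [e1, trS_add, trS_smul, trS_smul, trS_add, trS_id, trS_rankOne, real_inner_comm, hZx]
    ring
  set Q := ⟪AA P q, q⟫ with hQdef
  set E2 := aa (P + q) - aa P - AA P q with hE2
  have hE2n : ‖E2‖ ≤ 6 * ‖q‖ ^ 2 := aa_taylor P q
  have hE1 := W_taylor P q
  rw [← hQdef] at hE1
  set E1 := W (P + q) - W P - ⟪aa P, q⟫ - Q / 2 with hE1def
  have e2 : W (P + q) - W P - ⟪aa P, q⟫ = Q / 2 + E1 := by rw [hE1def]; ring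
  have e3 : ⟪DY (aa (P + q) - aa P), q⟫ = χ * Q + χ * ⟪D (AA P q), q⟫ -
      2 * ω / r ^ 2 * (⟪AA P q, x⟫ ^ 2 / mu P x) + ⟪DY E2, q⟫ := by
    have e4 : aa (P + q) - aa P = AA P q + E2 := by rw [hE2]; abel
    rw [e4, map_add, inner_add_left, hDY (AA P q), hDZv, inner_sub_left, real_inner_smul_left,
      real_inner_smul_left, inner_add_left, hZq, real_inner_comm (AA P q) x]
    ring
  have hq := norm_nonneg q
  have hm : (0 : ℝ) ≤ m := Nat.cast_nonneg _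
  have b1 : |trS D| ≤ m * (C₀ * r) := (abs_trS_le D).trans (by gcongr)
  have b2 : |E1 * trS DY| ≤ 6 * ‖q‖ ^ 3 * (m * (1 + 7 * C₀)) := by
    rw [abs_mul]
    exact mul_le_mul hE1 ((abs_trS_le DY).trans (by gcongr)) (abs_nonneg _) (by positivity)
  have b3 : |⟪D (AA P q), q⟫| ≤ C₀ * r * (3 * Q) := by
    refine (abs_real_inner_le_norm _ _).trans ?_
    have h1 := hDn (AA P q)
    have h2 := norm_AA_le P q
    calc _ ≤ C₀ * r * ‖q‖ * ‖q‖ := by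
          gcongr
          exact h1.trans (by gcongr)
      _ = C₀ * r * ‖q‖ ^ 2 := by ring
      _ ≤ _ := by gcongr
  have b4 : |⟪DY E2, q⟫| ≤ 6 * ‖q‖ ^ 3 * (1 + 7 * C₀) := by
    refine (abs_real_inner_le_norm _ _).trans ?_
    calc _ ≤ (1 + 7 * C₀) * (6 * ‖q‖ ^ 2) * ‖q‖ := by
          gcongr
          exact (DY.le_opNorm E2).trans (by gcongr)
      _ = _ := by ring
  have b5 : |⟪E2, B (χ • Z)⟫| ≤ 6 * (3 * Q) * (χ * (C₀ * r)) := by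
    refine (abs_real_inner_le_norm _ _).trans ?_
    refine mul_le_mul (hE2n.trans (by gcongr)) ?_ (norm_nonneg _) (by positivity)
    refine (B.le_opNorm _).trans ?_
    rw [norm_smul, Real.norm_eq_abs, abs_of_nonneg hχ0]
    calc _ ≤ 1 * (χ * (C₀ * r)) := by gcongr
      _ = _ := one_mul _
  have c1 : -(χ * Q / 2 * (m * (C₀ * r))) ≤ χ * Q / 2 * trS D := by
    have := mul_le_mul_of_nonneg_left (abs_le.mp b1).1 (by positivity : 0 ≤ χ * Q / 2)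
    linarith
  have c3 : χ * ⟪D (AA P q), q⟫ ≤ χ * (C₀ * r * (3 * Q)) :=
    mul_le_mul_of_nonneg_left (abs_le.mp b3).2 hχ0
  have c6 : 0 ≤ 6 * (1 + 7 * C₀) * (m + 1) * r * (χ * Q) := by positivity
  have c7 : 0 ≤ (m / 2 + 21) * C₀ * ‖q‖ ^ 3 := by positivity
  have e5 : (Q / 2 + E1) * trS DY =
      Q / 2 * (χ * (m + trS D) - 2 * ω / r ^ 2 * ‖x‖ ^ 2) + E1 * trS DY := by
    rw [← htr]; ring
  have e6 : Q / 2 * (m * χ - 2 * (‖x‖ ^ 2 / r ^ 2) * ω) =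
      Q / 2 * (χ * m - 2 * ω / r ^ 2 * ‖x‖ ^ 2) := by ring
  rw [e2, e3, e5, e6]
  linarith [(abs_le.mp b2).1, (abs_le.mp b4).2, (abs_le.mp b5).1]

end Pool.Agent.Lib.MP_8daebb_an.LG
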