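import Pool.Agent.Lib.MP_8daebb_an.LG.Base

namespace Pool.Agent.Lib.MP_8daebb_an.LG

theorem KeyAt.mono {C C' r d h d1 h1 e e' A : ℝ} (H : KeyAt C r d h d1 h1 e A) (hC : C ≤ C')
    (he : e ≤ e') (hr : 0 ≤ r) (hd : 0 ≤ d) (hh : 0 ≤ h) (hA : 0 ≤ A) :
    KeyAt C' r d h d1 h1 e' A := by
  obtain ⟨U, ρ, h1', h2, h3, h4, h5, h6⟩ := H
  have a1 : C * r * h ≤ C' * r * h := by gcongr
  have a2 : C * r * d ≤ C' * r * d := by gcongr
  have a3 : C * A ≤ C' * A := by gcongr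
  have a4 : (h + e) * ρ ≤ (h + e') * ρ := by gcongr
  exact ⟨U, ρ, by linarith, by linarith, by linarith, h4, by linarith, by linarith⟩

end Pool.Agent.Lib.MP_8daebb_an.LG
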