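import Pool.Agent.Lib.MP_8daebb_an.LG.K1
import Pool.Agent.Lib.MP_8daebb_an.LG.K2
import Pool.Agent.Lib.MP_8daebb_an.LG.K3
import Pool.Agent.Lib.MP_8daebb_an.LG.KeyM

open MeasureTheory Metric Set Filter Topology
open scoped RealInnerProductSpace NNReal

namespace Pool.Agent.Lib.MP_8daebb_an.LG

variable {m : ℕ} {ι : Type}

/-! KR. Derivatives and size of the intrinsic frequency quantities, and the key inequalities. -/

variable [Fintype ι] [Nonempty ι] {L : ℝ≥0} {u : ι → E m → ℝ} {r : ℝ}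

theorem inv_pow_kr (n : ℕ) (hr : 0 < r) :
    HasDerivAt (fun t : ℝ => (t ^ n)⁻¹) (-(n : ℝ) * (r ^ n)⁻¹ / r) r := by
  refine ((hasDerivAt_pow n r).inv (pow_ne_zero n hr.ne')).congr_deriv ?_
  rcases n with _ | n
  · simp
  · simp only [Nat.add_sub_cancel]
    field_simp
    ring

theorem qI_bdd_kr (hL : ∀ i, LipschitzWith L (u i)) (x : E m) :
    |qI u x| ≤ ∑ _i : ι, (((2 * L : ℝ≥0) : ℝ)) ^ 2 := by
  obtain ⟨h1, h2, -⟩ := qI_bounds hL x
  rw [abs_of_nonneg h1]
  refine h2.trans (Finset.sum_le_sum fun i _ => ?_)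
  rw [sub_zero]
  exact pow_le_pow_left₀ (norm_nonneg _) (norm_grad_le (lip_vv hL i) x) 2

theorem kI_bdd_kr (hL : ∀ i, LipschitzWith L (u i)) (R : ℝ) :
    ∃ C : ℝ, ∀ x ∈ ball (0 : E m) R, |kI u x| ≤ C := by
  have hc : Continuous fun x => ∑ i, (vv u i x - 0) ^ 2 :=
    continuous_finsetSum _ fun i _ => ((lip_vv hL i).continuous.sub continuous_const).pow 2
  obtain ⟨C, hC⟩ := (isCompact_closedBall (0 : E m) R).exists_bound_of_continuousOn
    hc.continuousOn
  refine ⟨C, fun x hx => ?_⟩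
  obtain ⟨h1, h2⟩ := kI_bounds (u := u) x
  rw [abs_of_nonneg h1]
  exact h2.trans ((le_abs_self _).trans (hC x (ball_subset_closedBall hx)))

theorem dI_deriv (hL : ∀ i, LipschitzWith L (u i)) (hr : 0 < r) :
    HasDerivAt (dI u) (dI1 u r / r) r := by
  have h1 := hasDerivAt_int_chi (0 : E m) hr (meas_qI u).aestronglyMeasurable
    (Eventually.of_forall fun x _ => qI_bdd_kr hL x)
  have h2 := (((hasDerivAt_pow 2 r).mul (inv_pow_kr m hr)).mul h1)
  refine (h2.congr_deriv ?_).congr_of_eventuallyEq (Eventually.of_forall fun t => ?_)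
  · simp only [dI1, dI, sub_zero, Pi.mul_apply]
    field_simp
    ring
  · simp only [dI, Pi.mul_apply, div_eq_mul_inv]

theorem hI_deriv (hL : ∀ i, LipschitzWith L (u i)) (hr : 0 < r) :
    HasDerivAt (hI u) (hI1 u r / r) r := by
  obtain ⟨C, hC⟩ := kI_bdd_kr hL (2 * r)
  have h1 := hasDerivAt_int_om (0 : E m) hr (meas_kI hL).aestronglyMeasurable
    (Eventually.of_forall hC)
  have h2 := (((inv_pow_kr m hr).const_mul 2).mul h1)
  refine (h2.congr_deriv ?_).congr_of_eventuallyEq (Eventually.of_forall fun t => ?_)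
  · simp only [hI1, hI, sub_zero]
    field_simp
  · simp only [hI, Pi.mul_apply, div_eq_mul_inv]

theorem dI_nonneg (hL : ∀ i, LipschitzWith L (u i)) (hr : 0 < r) : 0 ≤ dI u r :=
  mul_nonneg (by positivity)
    (integral_nonneg fun x => mul_nonneg (chi_nonneg _ _ _) (qI_bounds hL x).1)

theorem hI_nonneg (hr : 0 < r) : 0 ≤ hI u r :=
  mul_nonneg (by positivity)
    (integral_nonneg fun x => mul_nonneg (om_nonneg _ _ _) (kI_bounds x).1)

theorem DD_le_dI (hL : ∀ i, LipschitzWith L (u i)) (hr : 0 < r) {η : ℝ} (hη : 0 ≤ η)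
    (hη1 : η ≤ 1) : η ^ 3 * (r ^ 2 / r ^ m * DD u ((1 - η) * r)) ≤ WL L ^ 3 * dI u r := by
  have hW : 0 ≤ WL L ^ 3 := pow_nonneg (zero_le_one.trans (one_le_WL L)) 3
  have hint : Integrable fun x => chi 0 r x * qI u x :=
    int_cut hr (contDiff_chi 0 r).continuous
      (fun x hx => by rw [chi, pr_eq_zero hr hx]; norm_num) (meas_qI u).aestronglyMeasurable
      (Eventually.of_forall fun x _ => qI_bdd_kr hL x)
  have h1 : η ^ 3 * DD u ((1 - η) * r) ≤ WL L ^ 3 * ∫ x, chi 0 r x * qI u x := by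
    rw [DD, Sep, En, ← integral_const_mul, ← integral_const_mul]
    calc _ ≤ ∫ x in ball 0 ((1 - η) * r), WL L ^ 3 * (chi 0 r x * qI u x) := by
          refine setIntegral_mono_on ((intOn_En (lip_vv hL) 0 0 _ 2).const_mul _)
            (hint.const_mul _).integrableOn measurableSet_ball fun x hx => ?_
          obtain ⟨h2, -, h3⟩ := qI_bounds hL x
          have h4 : η ^ 3 ≤ chi 0 r x := pow_le_pow_left₀ hη (pr_ge hr hη hη1 hx) 3
          calc η ^ 3 * ∑ i, ‖gradient (vv u i) x - 0‖ ^ 2 ≤ chi 0 r x * (WL L ^ 3 * qI u x) :=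
                mul_le_mul h4 h3 (Finset.sum_nonneg fun i _ => by positivity) (chi_nonneg _ _ _)
            _ = _ := by ring
      _ ≤ _ := setIntegral_le_integral (hint.const_mul _) (Eventually.of_forall fun x =>
          mul_nonneg hW (mul_nonneg (chi_nonneg _ _ _) (qI_bounds hL x).1))
  have h0 : 0 ≤ r ^ 2 / r ^ m := by positivity
  calc η ^ 3 * (r ^ 2 / r ^ m * DD u ((1 - η) * r))
      = r ^ 2 / r ^ m * (η ^ 3 * DD u ((1 - η) * r)) := by ring
    _ ≤ r ^ 2 / r ^ m * (WL L ^ 3 * ∫ x, chi 0 r x * qI u x) := mul_le_mul_of_nonneg_left h1 h0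
    _ = WL L ^ 3 * dI u r := by rw [dI]; ring

theorem hI_le_Ht (hL : ∀ i, LipschitzWith L (u i)) (hr : 0 < r) :
    hI u r ≤ 6 / r ^ m * Ht Finset.univ (vv u) 0 0 r := by
  have h1 : ∫ x, om 0 r x * kI u x ≤ 3 * Ht Finset.univ (vv u) 0 0 r := by
    rw [Ht, ← integral_const_mul, ← integral_indicator measurableSet_ball]
    refine integral_mono_of_nonneg (Eventually.of_forall fun x =>
      mul_nonneg (om_nonneg _ _ _) (kI_bounds x).1)
      (IntegrableOn.integrable_indicator ((intOn_Ht (lip_vv hL) 0 0 r).const_mul 3)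
        measurableSet_ball)
      (Eventually.of_forall fun x => ?_)
    by_cases hx : x ∈ ball (0 : E m) r
    · rw [indicator_of_mem hx]
      exact mul_le_mul (om_le _ _ _) (kI_bounds x).2 (kI_bounds x).1 (by norm_num)
    · rw [indicator_of_notMem hx]
      simp [om, pr_eq_zero hr hx]
  have h0 : 0 ≤ 2 / r ^ m := by positivity
  calc hI u r ≤ 2 / r ^ m * (3 * Ht Finset.univ (vv u) 0 0 r) := mul_le_mul_of_nonneg_left h1 h0
    _ = _ := by ring

theorem key_all (m : ℕ) (L : ℝ≥0) {CP : ℝ} (hCP : 0 ≤ CP) : ∃ C > 0,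
    ∀ (u : ι → E m → ℝ) (Ψ g : E m → E m) (r ρ δ D : ℝ), Centre L u Ψ g r ρ CP δ D →
      KeyAt C r (dI u r) (hI u r) (dI1 u r) (hI1 u r) (C * δ * (r ^ 2 / r ^ m * D))
        (r ^ 2 / r ^ m * D) := by
  obtain ⟨C1, hC1, k1⟩ := key1 (ι := ι) m L hCP
  obtain ⟨C2, hC2, k2⟩ := key2 (ι := ι) m L hCP
  obtain ⟨C3, hC3, k3⟩ := key3a (ι := ι) m L hCP
  obtain ⟨C4, hC4, k4⟩ := key3b (ι := ι) m L hCP
  refine ⟨C1 + C2 + C3 + C4, by positivity, fun u Ψ g r ρ δ D h => ?_⟩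
  have hr := h.r_pos
  have hδ := h.δ_pos
  have hD := h.D_nonneg
  have hA : 0 ≤ r ^ 2 / r ^ m * D := by positivity
  have hd := dI_nonneg h.lip hr
  have hh := hI_nonneg (u := u) hr
  have a1 := k1 u Ψ g r ρ δ D h
  have a2 := k2 u Ψ g r ρ δ D h
  have a3 := k3 u Ψ g r ρ δ D h
  obtain ⟨a4, a5, a6⟩ := k4 u Ψ g r ρ δ D h
  generalize r ^ 2 / r ^ m * D = A at *
  have e : ∀ c, c ≤ C1 + C2 + C3 + C4 → c * δ * A ≤ (C1 + C2 + C3 + C4) * δ * A :=
    fun c hc => by gcongr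
  have e1 := e C1 (by linarith)
  have e2 := e C2 (by linarith)
  have e3 := e C3 (by linarith)
  have e4 := e C4 (by linarith)
  have f1 : C1 * r * hI u r ≤ (C1 + C2 + C3 + C4) * r * hI u r := by gcongr; linarith
  have f2 : C2 * r * dI u r ≤ (C1 + C2 + C3 + C4) * r * dI u r := by gcongr; linarith
  have f3 : C4 * A ≤ (C1 + C2 + C3 + C4) * A := by gcongr; linarith
  have f4 : (hI u r + C4 * δ * A) * rI u Ψ r ≤
      (hI u r + (C1 + C2 + C3 + C4) * δ * A) * rI u Ψ r := by gcongr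
  exact ⟨UI u Ψ r, rI u Ψ r, by linarith, by linarith, by linarith, a5, by linarith, by linarith⟩

end Pool.Agent.Lib.MP_8daebb_an.LG
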