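import Pool.Agent.Lib.MP_8daebb_an.LG.Base

open MeasureTheory Metric Set Filter Topology
open scoped RealInnerProductSpace NNReal

namespace Pool.Agent.Lib.MP_8daebb_an.LG

variable {m : ℕ} {ι : Type}

/-! LIPA. Calculus for Lipschitz functions. -/

variable {F : Type} [NormedAddCommGroup F] [NormedSpace ℝ F]

theorem meas_grad (f : E m → ℝ) : Measurable (gradient f) := by
  exact (InnerProductSpace.toDual ℝ (E m)).symm.continuous.measurable.comp (measurable_fderiv ℝ f)

theorem inner_grad (f : E m → ℝ) (x v : E m) : ⟪gradient f x, v⟫ = fderiv ℝ f x v := by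
  exact inner_gradient_left

theorem norm_grad_eq (f : E m → ℝ) (x : E m) : ‖gradient f x‖ = ‖fderiv ℝ f x‖ := by
  exact (InnerProductSpace.toDual ℝ (E m)).symm.norm_map _

theorem norm_grad_le {f : E m → ℝ} {K : ℝ≥0} (hf : LipschitzWith K f) (x : E m) :
    ‖gradient f x‖ ≤ K := by
  rw [norm_grad_eq]
  exact norm_fderiv_le_of_lipschitz ℝ hf

theorem grad_add {f g : E m → ℝ} {x : E m} (hf : DifferentiableAt ℝ f x)
    (hg : DifferentiableAt ℝ g x) :
    gradient (fun y => f y + g y) x = gradient f x + gradient g x := by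
  refine ext_inner_right ℝ fun v => ?_
  rw [inner_add_left, inner_grad, inner_grad, inner_grad, fderiv_fun_add hf hg]
  rfl

theorem grad_sub {f g : E m → ℝ} {x : E m} (hf : DifferentiableAt ℝ f x)
    (hg : DifferentiableAt ℝ g x) :
    gradient (fun y => f y - g y) x = gradient f x - gradient g x := by
  refine ext_inner_right ℝ fun v => ?_
  rw [inner_sub_left, inner_grad, inner_grad, inner_grad, fderiv_fun_sub hf hg]
  rfl

theorem grad_mul {f g : E m → ℝ} {x : E m} (hf : DifferentiableAt ℝ f x)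
    (hg : DifferentiableAt ℝ g x) :
    gradient (fun y => f y * g y) x = f x • gradient g x + g x • gradient f x := by
  refine ext_inner_right ℝ fun v => ?_
  rw [inner_add_left, real_inner_smul_left, real_inner_smul_left, inner_grad, inner_grad,
    inner_grad, fderiv_fun_mul hf hg]
  rfl

theorem grad_const_mul {f : E m → ℝ} {x : E m} (c : ℝ) :
    gradient (fun y => c * f y) x = c • gradient f x := by
  refine ext_inner_right ℝ fun v => ?_
  have e : (fun y => c * f y) = c • f := rfl
  rw [real_inner_smul_left, inner_grad, inner_grad, e, fderiv_const_smul_field]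
  rfl

theorem grad_sum {f : ι → E m → ℝ} {x : E m} (s : Finset ι)
    (hf : ∀ i ∈ s, DifferentiableAt ℝ (f i) x) :
    gradient (fun y => ∑ i ∈ s, f i y) x = ∑ i ∈ s, gradient (f i) x := by
  refine ext_inner_right ℝ fun v => ?_
  rw [sum_inner, inner_grad, fderiv_fun_sum hf, _root_.sum_apply]
  exact Finset.sum_congr rfl fun i _ => (inner_grad _ _ _).symm

theorem grad_comp {f : E m → ℝ} {θ : ℝ → ℝ} {θ' : ℝ} {x : E m} (hf : DifferentiableAt ℝ f x)
    (hθ : HasDerivAt θ θ' (f x)) : gradient (fun y => θ (f y)) x = θ' • gradient f x := by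
  refine ext_inner_right ℝ fun v => ?_
  have h := (hθ.comp_hasFDerivAt x hf.hasFDerivAt).fderiv
  have e : (fun y => θ (f y)) = θ ∘ f := rfl
  rw [real_inner_smul_left, inner_grad, inner_grad, e, h]
  rfl

theorem grad_eq_zero_of_notMem {f : E m → ℝ} {x : E m} (hx : x ∉ tsupport f) :
    gradient f x = 0 := by
  refine ext_inner_right ℝ fun v => ?_
  rw [inner_grad, fderiv_of_notMem_tsupport ℝ hx, inner_zero_left]
  rfl

theorem locLip_ae_diff [FiniteDimensional ℝ F] {f : E m → F} (hf : LocallyLipschitz f) :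
    ∀ᵐ x, DifferentiableAt ℝ f x := by
  rw [ae_iff]
  refine measure_null_of_locally_null _ fun x _ => ?_
  obtain ⟨K, t, ht, hK⟩ := hf x
  refine ⟨{a | ¬DifferentiableAt ℝ f a} ∩ interior t,
    inter_mem_nhdsWithin _ (interior_mem_nhds.2 ht), ?_⟩
  have h := hK.ae_differentiableWithinAt_of_mem (μ := (volume : Measure (E m)))
  rw [ae_iff] at h
  refine measure_mono_null (fun y hy => ?_) h
  intro hy'
  exact hy.1 ((hy' (interior_subset hy.2)).differentiableAt (mem_interior_iff_mem_nhds.1 hy.2))

theorem locLip_compact {α : Type} [PseudoMetricSpace α] {f : α → F} (hf : LocallyLipschitz f)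
    (hc : HasCompactSupport f) : ∃ K, LipschitzWith K f := by
  choose C t ht hC using hf
  obtain ⟨M, hM⟩ := hc.exists_bound_of_continuous
    (LocallyLipschitz.continuous fun x => ⟨C x, t x, ht x, hC x⟩)
  obtain ⟨T, hT⟩ := hc.isCompact.elim_finite_subcover (fun x => interior (t x))
    (fun _ => isOpen_interior) fun x _ => mem_iUnion.2 ⟨x, mem_interior_iff_mem_nhds.2 (ht x)⟩
  obtain ⟨δ, hδ, hL⟩ := lebesgue_number_lemma_of_metric (c := fun x : T => interior (t x))
    hc.isCompact (fun _ => isOpen_interior) (fun x hx => by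
      obtain ⟨i, hi, hx'⟩ := mem_iUnion₂.1 (hT hx)
      exact mem_iUnion.2 ⟨⟨i, hi⟩, hx'⟩)
  have hM0 : 0 ≤ |M| := abs_nonneg M
  have key : ∀ x ∈ tsupport f, ∀ y, dist y x < δ → dist (f y) (f x) ≤ (T.sup C : ℝ≥0) * dist y x := by
    intro x hx y hy
    obtain ⟨i, hi⟩ := hL x hx
    refine ((hC i).dist_le_mul y (interior_subset (hi hy)) x
      (interior_subset (hi (mem_ball_self hδ)))).trans ?_
    exact mul_le_mul_of_nonneg_right (NNReal.coe_le_coe.2 (Finset.le_sup (f := C) i.2)) dist_nonneg
  refine ⟨_, LipschitzWith.of_dist_le' (K := (T.sup C : ℝ≥0) + 2 * |M| / δ) fun x y => ?_⟩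
  have h0 : 0 ≤ 2 * |M| / δ * dist x y := by positivity
  have h1 : 0 ≤ ((T.sup C : ℝ≥0) : ℝ) * dist x y := by positivity
  rw [add_mul]
  rcases lt_or_ge (dist x y) δ with hd | hd
  · by_cases hy : y ∈ tsupport f
    · linarith [key y hy x hd]
    by_cases hx : x ∈ tsupport f
    · have := key x hx y (by rwa [dist_comm])
      rw [dist_comm, dist_comm y] at this
      linarith
    rw [image_eq_zero_of_notMem_tsupport hx, image_eq_zero_of_notMem_tsupport hy, dist_self]
    linarith
  · have h2 : dist (f x) (f y) ≤ 2 * |M| := by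
      rw [dist_eq_norm]
      linarith [norm_sub_le (f x) (f y), hM x, hM y, le_abs_self M]
    have h3 : 2 * |M| / δ * δ ≤ 2 * |M| / δ * dist x y :=
      mul_le_mul_of_nonneg_left hd (by positivity)
    rw [div_mul_cancel₀ _ hδ.ne'] at h3
    linarith

theorem locLip_smul {α : Type} [PseudoMetricSpace α] {f : α → ℝ} {g : α → F}
    (hf : LocallyLipschitz f) (hg : LocallyLipschitz g) : LocallyLipschitz fun x => f x • g x := by
  have h : ContDiff ℝ 1 fun p : ℝ × F => p.1 • p.2 := contDiff_fst.smul contDiff_snd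
  have h2 := h.locallyLipschitz.comp (hf.prodMk hg)
  exact h2

theorem locLip_mul {α : Type} [PseudoMetricSpace α] {f g : α → ℝ}
    (hf : LocallyLipschitz f) (hg : LocallyLipschitz g) : LocallyLipschitz fun x => f x * g x := by
  exact locLip_smul hf hg

theorem locLip_inner {α : Type} [PseudoMetricSpace α] {f g : α → E m}
    (hf : LocallyLipschitz f) (hg : LocallyLipschitz g) : LocallyLipschitz fun x => ⟪f x, g x⟫ := by
  have h : ContDiff ℝ 1 fun p : E m × E m => ⟪p.1, p.2⟫ := contDiff_fst.inner ℝ contDiff_snd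
  have h2 := h.locallyLipschitz.comp (hf.prodMk hg)
  exact h2

theorem locLip_sum {α : Type} [PseudoMetricSpace α] {f : ι → α → F} (s : Finset ι)
    (hf : ∀ i ∈ s, LocallyLipschitz (f i)) : LocallyLipschitz fun x => ∑ i ∈ s, f i x := by
  classical
  induction s using Finset.induction_on with
  | empty => simpa using LocallyLipschitz.const (0 : F)
  | insert a s ha ih =>
    simp only [Finset.sum_insert ha]
    exact (hf a (Finset.mem_insert_self _ _)).add
      (ih fun i hi => hf i (Finset.mem_insert_of_mem hi))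

/-- A cut-off function times a map that is Lipschitz on a neighbourhood of its support. -/
theorem locLip_cut {χ : E m → ℝ} {Z : E m → F} {O : Set (E m)} {K : ℝ≥0} (hO : IsOpen O)
    (hχ : LocallyLipschitz χ) (hs : tsupport χ ⊆ O) (hZ : LipschitzOnWith K Z O) :
    LocallyLipschitz fun x => χ x • Z x := by
  intro x
  by_cases hx : x ∈ O
  · obtain ⟨K1, t, ht, h1⟩ := hχ x
    have h : ContDiff ℝ 1 fun p : ℝ × F => p.1 • p.2 := contDiff_fst.smul contDiff_snd
    obtain ⟨K2, t2, ht2, h2⟩ := h.locallyLipschitz (χ x, Z x)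
    have hn : t ∩ O ∈ 𝓝 x := inter_mem ht (hO.mem_nhds hx)
    have h3 := (h1.mono (inter_subset_left (t := O))).prodMk (hZ.mono inter_subset_right)
    have h4 : (fun y => (χ y, Z y)) ⁻¹' t2 ∈ 𝓝 x := (h3.continuousOn.continuousAt hn) ht2
    exact ⟨_, _, inter_mem hn h4, h2.comp (h3.mono inter_subset_left) fun y hy => hy.2⟩
  · refine ⟨0, (tsupport χ)ᶜ, (isClosed_tsupport χ).isOpen_compl.mem_nhds fun h => hx (hs h), ?_⟩
    intro a ha b hb
    simp [image_eq_zero_of_notMem_tsupport ha, image_eq_zero_of_notMem_tsupport hb]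

end Pool.Agent.Lib.MP_8daebb_an.LG
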