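import Pool.Agent.Lib.MP_8daebb_an.LG.LipA
import Pool.Agent.Lib.MP_8daebb_an.LG.AlgC

open MeasureTheory Metric Set Filter Topology
open scoped RealInnerProductSpace NNReal

namespace Pool.Agent.Lib.MP_8daebb_an.LG

variable {m : ℕ} {ι : Type}

/-! LIPB. Divergence theorem and integrals over balls. -/

variable {F : Type} [NormedAddCommGroup F] [NormedSpace ℝ F]

theorem dv_smul {f : E m → ℝ} {V : E m → E m} {x : E m} (hf : DifferentiableAt ℝ f x)
    (hV : DifferentiableAt ℝ V x) :
    dv (fun y => f y • V y) x = ⟪gradient f x, V x⟫ + f x * dv V x := by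
  have e : fderiv ℝ (fun y => f y • V y) x =
      f x • fderiv ℝ V x + (innerSL ℝ (gradient f x)).smulRight (V x) := by
    rw [fderiv_fun_smul hf hV]
    congr 2
    ext v
    rw [innerSL_apply_apply, inner_grad]
  rw [dv, e, trS_add, trS_smul, trS_rankOne, dv, add_comm]

theorem meas_dv (Y : E m → E m) : Measurable (dv Y) := by
  unfold dv trS
  exact Finset.measurable_sum _ fun b _ =>
    (measurable_fderiv_apply_const ℝ Y (eb b)).inner measurable_const

theorem integral_grad_eq_zero {f : E m → ℝ} (hf : LocallyLipschitz f) (hc : HasCompactSupport f)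
    (e : E m) : ∫ x, ⟪gradient f x, e⟫ = 0 := by
  obtain ⟨K, hK⟩ := locLip_compact hf hc
  have h := LipschitzWith.integral_lineDeriv_mul_eq (μ := volume)
    (LipschitzWith.const (1 : ℝ)) hK hc (-e)
  have h0 : ∀ x : E m, lineDeriv ℝ (fun _ : E m => (1 : ℝ)) x (-e) = 0 := fun x => by
    rw [(differentiableAt_const (1 : ℝ)).lineDeriv_eq_fderiv, fderiv_fun_const]
    rfl
  simp only [h0, zero_mul, integral_zero, neg_neg, mul_one] at h
  rw [h]
  refine integral_congr_ae ?_
  filter_upwards [locLip_ae_diff hf] with x hx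
  rw [inner_grad, hx.lineDeriv_eq_fderiv]

omit [NormedSpace ℝ F] in
theorem int_cpt_lipb {f : E m → F} (hf : AEStronglyMeasurable f volume) {K : Set (E m)}
    (hK : IsCompact K) {C : ℝ} (h : ∀ᵐ x, x ∈ K → ‖f x‖ ≤ C) (h0 : ∀ᵐ x, x ∉ K → f x = 0) :
    Integrable f := by
  have h1 : IntegrableOn f K := Measure.integrableOn_of_bounded hK.measure_lt_top.ne hf
    ((ae_restrict_iff' hK.measurableSet).2 h)
  refine ((integrable_indicator_iff hK.measurableSet).2 h1).congr ?_
  filter_upwards [h0] with x hx
  by_cases hxK : x ∈ K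
  · exact indicator_of_mem hxK f
  · rw [indicator_of_notMem hxK, hx hxK]

theorem int_grad_lipb {f : E m → ℝ} (hf : LocallyLipschitz f) (hc : HasCompactSupport f)
    (e : E m) : Integrable fun x => ⟪gradient f x, e⟫ := by
  obtain ⟨K, hK⟩ := locLip_compact hf hc
  refine int_cpt_lipb ((meas_grad f).inner measurable_const).aestronglyMeasurable hc
    (C := K * ‖e‖) (Eventually.of_forall fun x _ => ?_) (Eventually.of_forall fun x hx => ?_)
  · exact (norm_inner_le_norm _ _).trans
      (mul_le_mul_of_nonneg_right (norm_grad_le hK x) (norm_nonneg _))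
  · rw [grad_eq_zero_of_notMem hx, inner_zero_left]

theorem integral_dv_eq_zero {Y : E m → E m} (hY : LocallyLipschitz Y) (hc : HasCompactSupport Y) :
    ∫ x, dv Y x = 0 := by
  have hl : ∀ b, LocallyLipschitz fun y => ⟪Y y, eb b⟫ := fun b =>
    locLip_inner hY (LocallyLipschitz.const _)
  have hs : ∀ b, HasCompactSupport fun y : E m => (⟪Y y, eb b⟫ : ℝ) := fun b =>
    hc.comp_left (g := fun v : E m => ⟪v, eb b⟫) (inner_zero_left _)
  have e : ∀ᵐ x, dv Y x = ∑ b, ⟪gradient (fun y => ⟪Y y, eb b⟫) x, eb b⟫ := by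
    filter_upwards [locLip_ae_diff hY] with x hx
    unfold dv trS
    refine Finset.sum_congr rfl fun b _ => ?_
    rw [inner_grad, fderiv_inner_apply ℝ hx (differentiableAt_const _), fderiv_fun_const]
    simp
  rw [integral_congr_ae e, integral_finsetSum _ fun b _ => int_grad_lipb (hl b) (hs b) _]
  exact Finset.sum_eq_zero fun b _ => integral_grad_eq_zero (hl b) (hs b) _

theorem intOn_ball {f : E m → F} (hf : AEStronglyMeasurable f volume) {c : E m} {r C : ℝ}
    (h : ∀ᵐ x, x ∈ ball c r → ‖f x‖ ≤ C) : IntegrableOn f (ball c r) := by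
  exact Measure.integrableOn_of_bounded measure_ball_lt_top.ne hf
    ((ae_restrict_iff' measurableSet_ball).2 h)

theorem int_of_compact {f : E m → F} (hf : AEStronglyMeasurable f volume) {K : Set (E m)}
    (hK : IsCompact K) {C : ℝ} (h : ∀ᵐ x, x ∈ K → ‖f x‖ ≤ C) (h0 : ∀ᵐ x, x ∉ K → f x = 0) :
    Integrable f := by
  exact int_cpt_lipb hf hK h h0

/-- The volume of the unit ball. -/
noncomputable def vb (m : ℕ) : ℝ := volume.real (ball (0 : E m) 1)

theorem vb_pos (m : ℕ) : 0 < vb m := by
  exact ENNReal.toReal_pos (measure_ball_pos _ _ one_pos).ne' measure_ball_lt_top.ne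

theorem vol_ball (c : E m) {r : ℝ} (hr : 0 < r) : volume.real (ball c r) = vb m * r ^ m := by
  rw [measureReal_def, Measure.addHaar_ball_of_pos _ _ hr, ENNReal.toReal_mul,
    ENNReal.toReal_ofReal (by positivity), finrank_euclideanSpace_fin, vb, measureReal_def, mul_comm]

theorem continuous_int_ball (hm : 0 < m) {f : E m → ℝ} (hf : LocallyIntegrable f) (c : E m) :
    Continuous fun r : ℝ => ∫ x in ball c r, f x := by
  haveI : Nonempty (Fin m) := ⟨⟨0, hm⟩⟩
  refine continuous_iff_continuousAt.2 fun r => ?_
  have hI : IntegrableOn f (closedBall c (r + 1)) := hf.integrableOn_isCompact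
    (isCompact_closedBall _ _)
  simp only [← integral_indicator measurableSet_ball]
  refine continuousAt_of_dominated (bound := (closedBall c (r + 1)).indicator fun x => ‖f x‖)
    (Eventually.of_forall fun t => hf.aestronglyMeasurable.indicator measurableSet_ball) ?_
    ((integrable_indicator_iff measurableSet_closedBall).2 hI.norm) ?_
  · filter_upwards [Iio_mem_nhds (lt_add_one r)] with t ht
    refine Eventually.of_forall fun x => ?_
    rw [norm_indicator_eq_indicator_norm]
    exact indicator_le_indicator_of_subset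
      (ball_subset_closedBall.trans (closedBall_subset_closedBall (le_of_lt ht)))
      (fun _ => norm_nonneg _) x
  · have h0 : ∀ᵐ x : E m, x ∉ sphere c r :=
      measure_eq_zero_iff_ae_notMem.1 (Measure.addHaar_sphere volume c r)
    filter_upwards [h0] with x hx
    rcases lt_or_gt_of_ne (show dist x c ≠ r from hx) with h | h
    · refine (continuousAt_const (y := f x)).congr ?_
      filter_upwards [Ioi_mem_nhds h] with t ht
      exact (indicator_of_mem (show x ∈ ball c t from ht) f).symm
    · refine (continuousAt_const (y := 0)).congr ?_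
      filter_upwards [Iio_mem_nhds h] with t ht
      exact (indicator_of_notMem (fun h' => lt_asymm (mem_ball.1 h') ht) f).symm

end Pool.Agent.Lib.MP_8daebb_an.LG
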