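import Pool.Agent.Lib.MP_8daebb_an.LG.LipB

open MeasureTheory Metric Set Filter Topology
open scoped RealInnerProductSpace NNReal

namespace Pool.Agent.Lib.MP_8daebb_an.LG

variable {m : ℕ} {ι : Type}

/-! LIPC. The average, the separation and the energies. -/

theorem lip_wav [Fintype ι] {u : ι → E m → ℝ} {L : ℝ≥0} (h : ∀ i, LipschitzWith L (u i)) :
    LipschitzWith L (wav u) := by
  refine LipschitzWith.of_dist_le_mul fun x y => ?_
  have h1 : |∑ i, (u i x - u i y)| ≤ Fintype.card ι * (L * dist x y) :=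
    (Finset.abs_sum_le_sum_abs _ _).trans ((Finset.sum_le_sum fun i _ =>
      (h i).dist_le_mul x y).trans_eq (by simp))
  rw [Real.dist_eq, wav, wav, ← mul_sub, ← Finset.sum_sub_distrib, abs_mul,
    abs_of_nonneg (by positivity)]
  exact (mul_le_mul_of_nonneg_left h1 (by positivity)).trans (by
    rw [← mul_assoc]
    exact mul_le_of_le_one_left (by positivity) inv_mul_le_one)

theorem lip_vv [Fintype ι] {u : ι → E m → ℝ} {L : ℝ≥0} (h : ∀ i, LipschitzWith L (u i)) (i : ι) :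
    LipschitzWith (2 * L) (vv u i) := by
  rw [two_mul]
  exact (h i).sub (lip_wav h)

theorem sum_vv [Fintype ι] [Nonempty ι] (u : ι → E m → ℝ) (x : E m) : ∑ i, vv u i x = 0 := by
  have : (Fintype.card ι : ℝ) ≠ 0 := Nat.cast_ne_zero.2 Fintype.card_ne_zero
  simp [vv, wav, this]

theorem ae_grad_vv [Fintype ι] [Nonempty ι] {u : ι → E m → ℝ} {L : ℝ≥0}
    (h : ∀ i, LipschitzWith L (u i)) : ∀ᵐ x,
      (∀ i, DifferentiableAt ℝ (u i) x) ∧ DifferentiableAt ℝ (wav u) x ∧
      (∀ i, DifferentiableAt ℝ (vv u i) x) ∧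
      gradient (wav u) x = (Fintype.card ι : ℝ)⁻¹ • ∑ i, gradient (u i) x ∧
      (∀ i, gradient (u i) x = gradient (wav u) x + gradient (vv u i) x) ∧
      ∑ i, gradient (vv u i) x = 0 := by
  have hc : (Fintype.card ι : ℝ) ≠ 0 := Nat.cast_ne_zero.2 Fintype.card_ne_zero
  filter_upwards [ae_all_iff.2 fun i => (h i).ae_differentiableAt,
    (lip_wav h).ae_differentiableAt] with x h1 h2
  have h3 : gradient (wav u) x = (Fintype.card ι : ℝ)⁻¹ • ∑ i, gradient (u i) x := by
    rw [← grad_sum _ fun i _ => h1 i]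
    exact grad_const_mul _
  have h4 : ∀ i, gradient (vv u i) x = gradient (u i) x - gradient (wav u) x := fun i =>
    grad_sub (h1 i) h2
  refine ⟨h1, h2, fun i => (h1 i).sub h2, h3, fun i => by rw [h4, add_sub_cancel], ?_⟩
  simp only [h4, Finset.sum_sub_distrib, Finset.sum_const, Finset.card_univ]
  rw [h3, ← Nat.cast_smul_eq_nsmul ℝ, smul_smul, mul_inv_cancel₀ hc, one_smul, sub_self]

theorem En_nonneg (s : Finset ι) (u : ι → E m → ℝ) (p c : E m) (r : ℝ) : 0 ≤ En s u p c r :=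
  integral_nonneg fun _ => Finset.sum_nonneg fun _ _ => by positivity

theorem meas_En_lipc (s : Finset ι) (u : ι → E m → ℝ) (p : E m) (k : ℕ) :
    Measurable fun x => ∑ i ∈ s, ‖gradient (u i) x - p‖ ^ k :=
  Finset.measurable_sum _ fun i _ => ((meas_grad (u i)).sub_const p).norm.pow_const k

theorem bound_En_lipc {s : Finset ι} {u : ι → E m → ℝ} {L : ℝ≥0} (h : ∀ i, LipschitzWith L (u i))
    (p : E m) (k : ℕ) (x : E m) :
    ‖∑ i ∈ s, ‖gradient (u i) x - p‖ ^ k‖ ≤ s.card * (L + ‖p‖) ^ k := by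
  rw [Real.norm_of_nonneg (Finset.sum_nonneg fun _ _ => by positivity), ← nsmul_eq_mul]
  exact Finset.sum_le_card_nsmul _ _ _ fun i _ => pow_le_pow_left₀ (norm_nonneg _)
    ((norm_sub_le _ _).trans (add_le_add_left (norm_grad_le (h i) x) _)) k

theorem intOn_En {s : Finset ι} {u : ι → E m → ℝ} {L : ℝ≥0} (h : ∀ i, LipschitzWith L (u i))
    (p c : E m) (r : ℝ) (k : ℕ) :
    IntegrableOn (fun x => ∑ i ∈ s, ‖gradient (u i) x - p‖ ^ k) (ball c r) :=
  intOn_ball (meas_En_lipc s u p k).aestronglyMeasurable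
    (ae_of_all _ fun x _ => bound_En_lipc h p k x)

theorem En_mono {s : Finset ι} {u : ι → E m → ℝ} {L : ℝ≥0} (h : ∀ i, LipschitzWith L (u i))
    (p : E m) {c c' : E m} {r r' : ℝ} (hb : ball c r ⊆ ball c' r') :
    En s u p c r ≤ En s u p c' r' :=
  setIntegral_mono_set (intOn_En h p c' r' 2)
    (ae_of_all _ fun _ => Finset.sum_nonneg fun _ _ => by positivity) hb.eventuallyLE

theorem En3_mono {s : Finset ι} {u : ι → E m → ℝ} {L : ℝ≥0} (h : ∀ i, LipschitzWith L (u i))
    (p : E m) {c c' : E m} {r r' : ℝ} (hb : ball c r ⊆ ball c' r') :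
    En3 s u p c r ≤ En3 s u p c' r' :=
  setIntegral_mono_set (intOn_En h p c' r' 3)
    (ae_of_all _ fun _ => Finset.sum_nonneg fun _ _ => by positivity) hb.eventuallyLE

theorem En_subset {s J : Finset ι} {u : ι → E m → ℝ} {L : ℝ≥0} (h : ∀ i, LipschitzWith L (u i))
    (hJ : J ⊆ s) (p c : E m) (r : ℝ) : En J u p c r ≤ En s u p c r :=
  integral_mono (intOn_En h p c r 2) (intOn_En h p c r 2) fun _ =>
    Finset.sum_le_sum_of_subset_of_nonneg hJ fun _ _ _ => by positivity

theorem DD_mono [Fintype ι] {u : ι → E m → ℝ} {L : ℝ≥0} (h : ∀ i, LipschitzWith L (u i)) :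
    Monotone (DD u) := fun _ _ hr => En_mono (lip_vv h) 0 (ball_subset_ball hr)

theorem DD_cont [Fintype ι] (hm : 0 < m) {u : ι → E m → ℝ} {L : ℝ≥0}
    (h : ∀ i, LipschitzWith L (u i)) : Continuous (DD u) :=
  continuous_int_ball hm (fun x => ⟨ball x 1, ball_mem_nhds x one_pos,
    intOn_En (lip_vv h) 0 x 1 2⟩) 0

theorem intOn_one_lipc {f : E m → ℝ} {L : ℝ≥0} (h : LipschitzWith L f) (p c : E m) (r : ℝ)
    (k : ℕ) : IntegrableOn (fun x => ‖gradient f x - p‖ ^ k) (ball c r) := by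
  simpa using intOn_En (s := Finset.univ) (u := fun _ : Unit => f) (fun _ => h) p c r k

theorem mean_lipc [Fintype ι] [Nonempty ι] (a : ι → E m) (k : ℕ) :
    Fintype.card ι * ‖(Fintype.card ι : ℝ)⁻¹ • ∑ i, a i‖ ^ (k + 1) ≤ ∑ i, ‖a i‖ ^ (k + 1) := by
  have hc : (0 : ℝ) < Fintype.card ι := Nat.cast_pos.2 Fintype.card_pos
  have h1 := pow_sum_div_card_le_sum_pow (s := Finset.univ) (f := fun i => ‖a i‖)
    (fun _ _ => norm_nonneg _) k
  refine le_trans ?_ h1
  rw [norm_smul, norm_inv, Real.norm_of_nonneg hc.le, mul_pow, Finset.card_univ, inv_pow,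
    ← mul_assoc, div_eq_inv_mul]
  refine mul_le_mul (le_of_eq ?_) (pow_le_pow_left₀ (norm_nonneg _) (norm_sum_le _ _) _)
    (by positivity) (by positivity)
  field_simp
  ring

/-- The energy of the average is at most the energy of the sheets. -/
theorem wav_le_En [Fintype ι] [Nonempty ι] {u : ι → E m → ℝ} {L : ℝ≥0}
    (h : ∀ i, LipschitzWith L (u i)) (c : E m) (r : ℝ) :
    ∫ x in ball c r, ‖gradient (wav u) x‖ ^ 2 ≤ En Finset.univ u 0 c r := by
  refine integral_mono_ae (by simpa using! intOn_one_lipc (lip_wav h) 0 c r 2) (intOn_En h 0 c r 2)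
    (ae_restrict_of_ae ?_)
  filter_upwards [ae_grad_vv h] with x hx
  have hc : (1 : ℝ) ≤ Fintype.card ι := Nat.one_le_cast.2 Fintype.card_pos
  simp only [sub_zero, hx.2.2.2.1]
  exact (le_mul_of_one_le_left (by positivity) hc).trans (mean_lipc _ 1)

/-- The energy of the sheets in terms of the average and the separation. -/
theorem En_le_wav [Fintype ι] [Nonempty ι] {u : ι → E m → ℝ} {L : ℝ≥0}
    (h : ∀ i, LipschitzWith L (u i)) (p c : E m) (r : ℝ) :
    En Finset.univ u p c r ≤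
      2 * Fintype.card ι * (∫ x in ball c r, ‖gradient (wav u) x - p‖ ^ 2) + 2 * Sep u c r := by
  have h1 := (intOn_one_lipc (lip_wav h) p c r 2).const_mul (2 * Fintype.card ι)
  have h2 := (intOn_En (s := Finset.univ) (lip_vv h) 0 c r 2).const_mul 2
  rw [Sep, En, En, ← integral_const_mul, ← integral_const_mul, ← integral_add h1 h2]
  refine integral_mono_ae (intOn_En h p c r 2) (h1.add h2) (ae_restrict_of_ae ?_)
  filter_upwards [ae_grad_vv h] with x hx
  have h3 : ∀ i, ‖gradient (u i) x - p‖ ^ 2 ≤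
      2 * ‖gradient (wav u) x - p‖ ^ 2 + 2 * ‖gradient (vv u i) x - 0‖ ^ 2 := fun i => by
    have h4 : ‖gradient (u i) x - p‖ ≤ ‖gradient (wav u) x - p‖ + ‖gradient (vv u i) x - 0‖ := by
      rw [hx.2.2.2.2.1 i, add_sub_right_comm, sub_zero]
      exact norm_add_le _ _
    nlinarith [pow_le_pow_left₀ (norm_nonneg _) h4 2,
      sq_nonneg (‖gradient (wav u) x - p‖ - ‖gradient (vv u i) x - 0‖)]
  refine (Finset.sum_le_sum fun i _ => h3 i).trans_eq ?_
  rw [Finset.sum_add_distrib, ← Finset.mul_sum, ← Finset.mul_sum, Finset.sum_const,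
    Finset.card_univ, nsmul_eq_mul, ← mul_assoc]

/-- The cubic separation energy in terms of the cubic energy relative to any slope. -/
theorem En3_vv_le [Fintype ι] [Nonempty ι] {u : ι → E m → ℝ} {L : ℝ≥0}
    (h : ∀ i, LipschitzWith L (u i)) (p c : E m) (r : ℝ) :
    En3 Finset.univ (vv u) 0 c r ≤ 8 * En3 Finset.univ u p c r := by
  rw [En3, En3, ← integral_const_mul]
  refine integral_mono_ae (intOn_En (lip_vv h) 0 c r 3) ((intOn_En h p c r 3).const_mul 8)
    (ae_restrict_of_ae ?_)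
  filter_upwards [ae_grad_vv h] with x hx
  have hc : (Fintype.card ι : ℝ) ≠ 0 := Nat.cast_ne_zero.2 Fintype.card_ne_zero
  have h1 : gradient (wav u) x - p = (Fintype.card ι : ℝ)⁻¹ • ∑ i, (gradient (u i) x - p) := by
    rw [Finset.sum_sub_distrib, smul_sub, ← hx.2.2.2.1, Finset.sum_const, Finset.card_univ,
      ← Nat.cast_smul_eq_nsmul ℝ, smul_smul, inv_mul_cancel₀ hc, one_smul]
  have h2 := mean_lipc (fun i => gradient (u i) x - p) 2
  rw [← h1] at h2
  have h3 : ∀ i, ‖gradient (vv u i) x - 0‖ ^ 3 ≤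
      4 * ‖gradient (u i) x - p‖ ^ 3 + 4 * ‖gradient (wav u) x - p‖ ^ 3 := fun i => by
    have h4 : ‖gradient (vv u i) x - 0‖ ≤ ‖gradient (u i) x - p‖ + ‖gradient (wav u) x - p‖ := by
      refine le_trans (le_of_eq ?_) (norm_sub_le _ _)
      rw [hx.2.2.2.2.1 i]
      congr 1
      abel
    refine (pow_le_pow_left₀ (norm_nonneg _) h4 3).trans ?_
    nlinarith [mul_nonneg (add_nonneg (norm_nonneg (gradient (u i) x - p))
      (norm_nonneg (gradient (wav u) x - p)))
      (sq_nonneg (‖gradient (u i) x - p‖ - ‖gradient (wav u) x - p‖))]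
  refine (Finset.sum_le_sum fun i _ => h3 i).trans ?_
  rw [Finset.sum_add_distrib, ← Finset.mul_sum, ← Finset.mul_sum, Finset.sum_const,
    Finset.card_univ, nsmul_eq_mul]
  norm_num at h2 ⊢
  linarith

theorem En_le {s : Finset ι} {u : ι → E m → ℝ} {L : ℝ≥0} (h : ∀ i, LipschitzWith L (u i))
    (c : E m) {r : ℝ} (hr : 0 < r) : En s u 0 c r ≤ s.card * L ^ 2 * (vb m * r ^ m) := by
  have h1 := norm_setIntegral_le_of_norm_le_const (μ := volume) (s := ball c r)
    measure_ball_lt_top fun x _ => bound_En_lipc (s := s) h 0 2 x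
  rw [vol_ball c hr, norm_zero, add_zero] at h1
  exact (le_abs_self _).trans h1

theorem intOn_Ht {s : Finset ι} {u : ι → E m → ℝ} {L : ℝ≥0} (h : ∀ i, LipschitzWith L (u i))
    (z : ℝ) (c : E m) (r : ℝ) : IntegrableOn (fun x => ∑ i ∈ s, (u i x - z) ^ 2) (ball c r) :=
  ((continuous_finsetSum s fun i _ =>
    ((h i).continuous.sub continuous_const).pow 2).continuousOn.integrableOn_compact
      (isCompact_closedBall c r)).mono_set ball_subset_closedBall

theorem Ht_mono {s : Finset ι} {u : ι → E m → ℝ} {L : ℝ≥0} (h : ∀ i, LipschitzWith L (u i))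
    (z : ℝ) {c c' : E m} {r r' : ℝ} (hb : ball c r ⊆ ball c' r') :
    Ht s u z c r ≤ Ht s u z c' r' :=
  setIntegral_mono_set (intOn_Ht h z c' r')
    (ae_of_all _ fun _ => Finset.sum_nonneg fun _ _ => by positivity) hb.eventuallyLE

end Pool.Agent.Lib.MP_8daebb_an.LG
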