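import Pool.Agent.Lib.MP_8daebb_an.LG.Base

open MeasureTheory Metric Set Filter Topology
open scoped RealInnerProductSpace NNReal

namespace Pool.Agent.Lib.MP_8daebb_an.LG

variable {m : ℕ} {ι : Type}

/-! ODEB3. The choice of the starting radius. -/

theorem small_odeB3 {κ x1 x2 x3 y1 y2 y3 : ℝ} (hκ : 0 < κ) (h1 : 0 < y1) (h2 : 0 < y2)
    (h3 : 0 < y3) :
    ∃ ρ > 0, ρ ≤ κ ∧ ρ ≤ 1 / 2 ∧ |x1| * ρ ≤ y1 ∧ |x2| * ρ ≤ y2 ∧ |x3| * ρ ≤ y3 := by
  have key : ∀ x y ρ : ℝ, 0 < y → 0 < ρ → ρ ≤ y / (|x| + 1) → |x| * ρ ≤ y := by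
    intro x y ρ hy hρ h
    have hx : 0 < |x| + 1 := by positivity
    rw [le_div_iff₀ hx] at h
    nlinarith
  refine ⟨min (min κ (1 / 2)) (min (y1 / (|x1| + 1)) (min (y2 / (|x2| + 1)) (y3 / (|x3| + 1)))),
    by positivity, (min_le_left _ _).trans (min_le_left _ _),
    (min_le_left _ _).trans (min_le_right _ _), ?_, ?_, ?_⟩
  · exact key _ _ _ h1 (by positivity) ((min_le_right _ _).trans (min_le_left _ _))
  · exact key _ _ _ h2 (by positivity)
      ((min_le_right _ _).trans ((min_le_right _ _).trans (min_le_left _ _)))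
  · exact key _ _ _ h3 (by positivity)
      ((min_le_right _ _).trans ((min_le_right _ _).trans (min_le_right _ _)))

theorem start_odeB3 {b : ℕ} (hb : b ≠ 0) {ρ : ℝ} (hρ : 0 < ρ) {D : ℝ → ℝ}
    (hcont : Continuous D) (hpos : ∀ t > 0, 0 < D t)
    (hsm : ∀ t ∈ Icc (ρ / 2) ρ, D t ≤ (t / 5) ^ b) :
    ∃ s F : ℝ, 0 < s ∧ s ≤ 5 * ρ / 8 ∧ 0 < F ∧ F ≤ ρ / 8 ∧ D s = F ^ b ∧
      ∀ t ∈ Icc 0 (3 * ρ / 8), D (s + t) ≤ (F + t) ^ b := by
  set G : ℝ → ℝ := fun t => D t ^ ((b : ℝ)⁻¹) with hG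
  have hGc : Continuous G := hcont.rpow_const fun _ => Or.inr (by positivity)
  have hGpos : ∀ t > 0, 0 < G t := fun t ht => Real.rpow_pos_of_pos (hpos t ht) _
  have hGpow : ∀ t > 0, G t ^ b = D t := fun t ht =>
    Real.rpow_inv_natCast_pow (hpos t ht).le hb
  have hGle : ∀ t ∈ Icc (ρ / 2) ρ, G t ≤ t / 5 := by
    intro t ht
    have ht0 : 0 < t := by linarith [ht.1]
    have h1 : G t ^ b ≤ (t / 5) ^ b := by rw [hGpow t ht0]; exact hsm t ht
    exact (pow_le_pow_iff_left₀ (hGpos t ht0).le (by positivity) hb).1 h1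
  obtain ⟨s, hs, hmax⟩ := (isCompact_Icc (a := ρ / 2) (b := ρ)).exists_isMaxOn
    ⟨ρ, by constructor <;> linarith⟩ (f := fun t => G t - t) (hGc.sub continuous_id).continuousOn
  have hs0 : 0 < s := by linarith [hs.1]
  have h1 : G (ρ / 2) - ρ / 2 ≤ G s - s := hmax (show ρ / 2 ∈ Icc (ρ / 2) ρ from
    ⟨le_rfl, by linarith⟩)
  have h2 := hGle s hs
  have h3 := hGpos (ρ / 2) (by positivity)
  have hs5 : s ≤ 5 * ρ / 8 := by linarith
  refine ⟨s, G s, hs0, hs5, hGpos s hs0, by linarith, (hGpow s hs0).symm, ?_⟩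
  intro t ht
  have hst : 0 < s + t := by linarith [ht.1]
  have h4 : G (s + t) - (s + t) ≤ G s - s := hmax (show s + t ∈ Icc (ρ / 2) ρ from
    ⟨by linarith [hs.1, ht.1], by linarith [ht.2]⟩)
  rw [← hGpow _ hst]
  exact pow_le_pow_left₀ (hGpos _ hst).le (by linarith) b

theorem good_radius (m a : ℕ) {ε : ℝ} (hε : 0 < ε) {D : ℝ → ℝ} (hmono : Monotone D)
    (hcont : Continuous D) (hpos : ∀ t > 0, 0 < D t)
    (hdec : ∀ t ∈ Ioc (0 : ℝ) 2, D t ≤ ε ^ 2 * (t / 5) ^ (m + 3))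
    (hinf : ∀ k : ℕ, ∃ C : ℝ, ∀ t ∈ Ioc (0 : ℝ) 1, D t ≤ C * t ^ k) :
    ∃ C' > 0, ∀ κ > 0, ∃ F R : ℝ, 0 < F ∧ F ≤ κ ∧ F < R ∧ R ≤ κ ∧ D (R + F) ≤ C' * D (R - F) ∧
      ∀ r ∈ Ioc 0 R, ∀ t ∈ Icc (min (F ^ a) r ^ 2) 1, D (r + t) ≤ ε ^ 2 * t ^ (m + 3) := by
  obtain ⟨b, hb⟩ : ∃ b : ℕ, b = 2 * a * (m + 3) + (m + 3) + 1 := ⟨_, rfl⟩
  have hb0 : b ≠ 0 := by omega
  obtain ⟨C1, hC1⟩ := hinf (b + 1)
  obtain ⟨C2, hC2⟩ := hinf (2 * (m + 3) + 1)
  refine ⟨3 ^ b, by positivity, fun κ hκ => ?_⟩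
  obtain ⟨ρ, hρ, hρκ, hρ2, hx1, hx2, hx3⟩ := small_odeB3 (x1 := (3 : ℝ) ^ b) (x2 := C1)
    (x3 := C2 * 2 ^ (2 * (m + 3) + 1)) (y1 := ε ^ 2) (y2 := (1 / 5 : ℝ) ^ b) (y3 := ε ^ 2) hκ
    (by positivity) (by positivity) (by positivity)
  rw [abs_of_pos (by positivity)] at hx1
  have hsm : ∀ t ∈ Icc (ρ / 2) ρ, D t ≤ (t / 5) ^ b := by
    intro t ht
    have ht0 : 0 < t := by linarith [ht.1]
    have h1 := hC1 t ⟨ht0, by linarith [ht.2]⟩
    have h2 : C1 * t ≤ (1 / 5 : ℝ) ^ b :=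
      calc C1 * t ≤ |C1| * ρ := mul_le_mul (le_abs_self _) ht.2 ht0.le (abs_nonneg _)
        _ ≤ _ := hx2
    calc D t ≤ C1 * t ^ (b + 1) := h1
      _ = (C1 * t) * t ^ b := by ring
      _ ≤ (1 / 5 : ℝ) ^ b * t ^ b := mul_le_mul_of_nonneg_right h2 (by positivity)
      _ = (t / 5) ^ b := by rw [← mul_pow]; congr 1; ring
  obtain ⟨s, F, hs0, hs5, hF0, hF8, hDs, hD⟩ := start_odeB3 hb0 hρ hcont hpos hsm
  have hF1 : F ≤ 1 := by linarith
  refine ⟨F, s + F, hF0, by linarith, by linarith, by linarith, ?_, ?_⟩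
  · have h1 := hD (2 * F) ⟨by positivity, by linarith⟩
    rw [show s + F + F = s + 2 * F by ring, show s + F - F = s by ring, hDs, ← mul_pow]
    rw [show F + 2 * F = 3 * F by ring] at h1
    exact h1
  · intro r hr t ht
    have hr0 : 0 < r := hr.1
    have hrρ : r ≤ 3 * ρ / 4 := by linarith [hr.2]
    have ht0 : 0 < t := lt_of_lt_of_le (by positivity) ht.1
    have ht1 : t ≤ 1 := ht.2
    by_cases hA : r ≤ 4 * t
    · have h1 := hdec (r + t) ⟨by positivity, by linarith⟩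
      refine h1.trans (mul_le_mul_of_nonneg_left ?_ (by positivity))
      exact pow_le_pow_left₀ (by positivity) (by linarith) _
    push Not at hA
    have htρ : t ≤ ρ / 4 := by linarith
    by_cases hB : (F ^ a) ^ 2 ≤ t
    · have h1 := hD (F + t) ⟨by positivity, by linarith⟩
      have h2 : D (r + t) ≤ D (s + (F + t)) := hmono (by linarith [hr.2])
      refine h2.trans (h1.trans ?_)
      have h3 : (3 : ℝ) ^ b * ρ * t ^ (m + 3) ≤ ε ^ 2 * t ^ (m + 3) :=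
        mul_le_mul_of_nonneg_right hx1 (by positivity)
      refine le_trans ?_ h3
      rcases le_total F t with hFt | hFt
      · have h4 : t ^ (2 * a * (m + 3)) ≤ 1 := pow_le_one₀ ht0.le ht1
        calc (F + (F + t)) ^ b ≤ (3 * t) ^ b :=
              pow_le_pow_left₀ (by positivity) (by linarith) _
          _ = 3 ^ b * (t ^ (2 * a * (m + 3)) * t) * t ^ (m + 3) := by
              rw [mul_pow, hb]; ring
          _ ≤ 3 ^ b * (1 * ρ) * t ^ (m + 3) := by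
              gcongr
              linarith
          _ = _ := by ring
      · have h4 : F ^ (m + 3) ≤ 1 := pow_le_one₀ hF0.le hF1
        have h5 : ((F ^ a) ^ 2) ^ (m + 3) ≤ t ^ (m + 3) :=
          pow_le_pow_left₀ (by positivity) hB _
        calc (F + (F + t)) ^ b ≤ (3 * F) ^ b :=
              pow_le_pow_left₀ (by positivity) (by linarith) _
          _ = 3 ^ b * (F ^ (m + 3) * F) * ((F ^ a) ^ 2) ^ (m + 3) := by
              rw [mul_pow, hb]; ring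
          _ ≤ 3 ^ b * (1 * ρ) * t ^ (m + 3) := by
              gcongr
              linarith
          _ = _ := by ring
    · push Not at hB
      have hr2 : r ^ 2 ≤ t := by
        rcases le_total (F ^ a) r with h | h
        · have := ht.1
          rw [min_eq_left h] at this
          linarith
        · have := ht.1
          rwa [min_eq_right h] at this
      have h1 := hC2 (2 * r) ⟨by positivity, by linarith⟩
      have h2 : D (r + t) ≤ D (2 * r) := hmono (by linarith)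
      have h5 : (r ^ 2) ^ (m + 3) ≤ t ^ (m + 3) := pow_le_pow_left₀ (by positivity) hr2 _
      have h6 : C2 * 2 ^ (2 * (m + 3) + 1) * r ≤ ε ^ 2 :=
        calc C2 * 2 ^ (2 * (m + 3) + 1) * r ≤ |C2 * 2 ^ (2 * (m + 3) + 1)| * ρ :=
              mul_le_mul (le_abs_self _) (by linarith) hr0.le (abs_nonneg _)
          _ ≤ _ := hx3
      calc D (r + t) ≤ C2 * (2 * r) ^ (2 * (m + 3) + 1) := h2.trans h1
        _ = (C2 * 2 ^ (2 * (m + 3) + 1) * r) * (r ^ 2) ^ (m + 3) := by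
            rw [mul_pow]; ring
        _ ≤ ε ^ 2 * (r ^ 2) ^ (m + 3) := mul_le_mul_of_nonneg_right h6 (by positivity)
        _ ≤ ε ^ 2 * t ^ (m + 3) := mul_le_mul_of_nonneg_left h5 (by positivity)

end Pool.Agent.Lib.MP_8daebb_an.LG
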