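import Pool.Agent.Lib.MP_8daebb_an.LG.OdeB2
import Pool.Agent.Lib.MP_8daebb_an.LG.OdeB3

open MeasureTheory Metric Set Filter Topology
open scoped RealInnerProductSpace NNReal

namespace Pool.Agent.Lib.MP_8daebb_an.LG

variable {m : ℕ} {ι : Type}

/-! ODEB. Infinite order vanishing is impossible. -/

theorem ratio_odeb (m : ℕ) {r s : ℝ} (hr : 0 < r) (h1 : r ≤ s) (h2 : s ≤ 2 * r) :
    r ^ 2 / r ^ m ≤ 2 ^ m * (s ^ 2 / s ^ m) := by
  have hs : 0 < s := hr.trans_le h1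
  rw [← mul_div_assoc, div_le_div_iff₀ (pow_pos hr m) (pow_pos hs m)]
  calc r ^ 2 * s ^ m ≤ s ^ 2 * (2 * r) ^ m := by gcongr
    _ = 2 ^ m * s ^ 2 * r ^ m := by rw [mul_pow]; ring

theorem start_odeb {C B F R d h d1 h1 e A : ℝ} (hC : 0 < C) (_hB : 0 < B) (hF : 0 < F)
    (hF1 : F ≤ 1 / 4) (hFB : 32 * C * B * F ≤ 1) (hd : 0 < d) (hh : 0 ≤ h) (he0 : 0 ≤ e)
    (he : e ≤ C * F ^ 33 * A) (hA : A * F ^ 3 ≤ B * d) (H : KeyAt C R d h d1 h1 e A) :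
    4 * F ^ 4 * d ≤ h := by
  obtain ⟨U, ρ, -, h2, h3, h4, h5, -⟩ := H
  have a1 : F ^ 4 ≤ 1 / 8 := (pow_le_pow_left₀ hF.le hF1 4).trans (by norm_num)
  have a2 : F ^ 25 ≤ 1 := pow_le_one₀ hF.le (by linarith)
  have a3 : e ≤ 4 * F ^ 4 * d := by
    calc e ≤ C * F ^ 30 * (A * F ^ 3) := he.trans_eq (by ring)
      _ ≤ C * F ^ 30 * (B * d) := by gcongr
      _ = 32 * C * B * F * F ^ 25 * (F ^ 4 * d / 32) := by ring
      _ ≤ 1 * 1 * (F ^ 4 * d / 32) := by gcongr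
      _ ≤ 4 * F ^ 4 * d := by nlinarith [mul_pos (pow_pos hF 4) hd]
  have a4 : d / 2 ≤ U := by nlinarith [(abs_le.1 h2).1]
  have a5 : d * (8 * F ^ 4 * d) ≤ d * (h + e) := by
    calc d * (8 * F ^ 4 * d) = 32 * F ^ 4 * (d / 2) ^ 2 := by ring
      _ ≤ 32 * F ^ 4 * ((h + e) * (C * A)) := by
        gcongr
        exact (pow_le_pow_left₀ (by linarith) a4 2).trans (h3.trans (by gcongr))
      _ = 32 * C * F * (h + e) * (A * F ^ 3) := by ring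
      _ ≤ 32 * C * F * (h + e) * (B * d) := by gcongr
      _ = 32 * C * B * F * (d * (h + e)) := by ring
      _ ≤ 1 * (d * (h + e)) := by gcongr
      _ = d * (h + e) := one_mul _
  linarith [le_of_mul_le_mul_left a5 hd]

theorem end_odeb {R x M : ℝ} (hR : 0 < R) (hx : 0 < x) (H : ∀ r ∈ Ioc 0 R, x ≤ M * r ^ 2) :
    False := by
  have h1 : Tendsto (fun r : ℝ => M * r ^ 2) (𝓝[>] 0) (𝓝 (M * 0 ^ 2)) :=
    (Continuous.tendsto (by fun_prop) 0).mono_left nhdsWithin_le_nhds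
  have h2 := ge_of_tendsto h1 (mem_of_superset (Ioc_mem_nhdsGT hR) H)
  norm_num at h2
  linarith

theorem small_odeb {x y κ : ℝ} (hx : 0 < x) (h : κ ≤ y / x) : x * κ ≤ y := by
  rwa [le_div_iff₀' hx] at h

theorem odeB (m : ℕ) {C γ ε r₀ : ℝ} (hC : 0 < C) (hγ : 0 < γ) (hγ1 : γ ≤ 1) (hε : 0 < ε)
    (hr₀ : 0 < r₀) {D d h d1 h1 : ℝ → ℝ} (hmono : Monotone D) (hcont : Continuous D)
    (hD0 : ∀ t, 0 ≤ D t)
    (hder : ∀ r > 0, HasDerivAt d (d1 r / r) r ∧ HasDerivAt h (h1 r / r) r)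
    (R1 : ∀ r ∈ Ioc (0 : ℝ) 1, ∀ η ∈ Icc (0 : ℝ) 1,
      η ^ 3 * (r ^ 2 / r ^ m * D ((1 - η) * r)) ≤ C * d r)
    (R2 : ∀ r ∈ Ioc (0 : ℝ) 1, 0 ≤ d r ∧ 0 ≤ h r ∧ h r ≤ C * (r ^ 2 / r ^ m * D r))
    (hdec : ∀ t ∈ Ioc (0 : ℝ) 2, D t ≤ ε ^ 2 * (t / 5) ^ (m + 3))
    (hinf : ∀ k : ℕ, ∃ C : ℝ, ∀ t ∈ Ioc (0 : ℝ) 1, D t ≤ C * t ^ k)
    (key : ∀ r l : ℝ, 0 < l → l ≤ r → r ≤ r₀ →
      (∀ t ∈ Icc l 1, D (r + t) ≤ ε ^ 2 * t ^ (m + 3)) →
      KeyAt C r (d r) (h r) (d1 r) (h1 r) (C * l ^ γ * (r ^ 2 / r ^ m * D (r + 3 * l)))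
        (r ^ 2 / r ^ m * D (r + 3 * l))) :
    ∃ r > 0, D r = 0 := by
  by_contra hne
  have hpos : ∀ t > 0, 0 < D t := fun t ht => (hD0 t).lt_of_ne fun e => hne ⟨t, ht, e.symm⟩
  obtain ⟨a, ha⟩ := exists_nat_ge (33 / γ)
  rw [div_le_iff₀ hγ] at ha
  have ha6 : 6 ≤ a := by
    have : (6 : ℝ) ≤ a := by nlinarith [(Nat.cast_nonneg a : (0 : ℝ) ≤ a)]
    exact_mod_cast this
  obtain ⟨C', hC', hg⟩ := good_radius m a hε hmono hcont hpos hdec hinf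
  obtain ⟨B, hBe⟩ : ∃ B, B = 2 ^ m * C * C' := ⟨_, rfl⟩
  have hB : 0 < B := by rw [hBe]; positivity
  obtain ⟨F, R, hF, hFκ, hFR, hRκ, hDR, hD⟩ := hg (min (min (min r₀ (1 / 4))
    (min (1 / 8 / C) (γ / 4 / (8 * C)))) (min (1 / (64 * 2 ^ m * C))
      (min (1 / (32 * C * B)) (1 / B)))) (by positivity)
  simp only [le_min_iff] at hFκ hRκ
  obtain ⟨⟨⟨-, hF1⟩, -, f2⟩, f3, f4, f5⟩ := hFκ
  obtain ⟨⟨⟨hRr, hR4⟩, r1, -⟩, -⟩ := hRκ
  replace f2 := small_odeb (by positivity) f2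
  replace f3 := small_odeb (by positivity) f3
  replace f4 := small_odeb (by positivity) f4
  replace f5 := small_odeb hB f5
  replace r1 := small_odeb hC r1
  have hR : 0 < R := hF.trans hFR
  have hR1 : R ≤ 1 := by linarith
  have hF1' : F ≤ 1 := by linarith
  have hF4 : 0 < F ^ 4 := pow_pos hF 4
  have hF2 : F ^ 2 ≤ 1 / 16 := (pow_le_pow_left₀ hF.le hF1 2).trans (by norm_num)
  have hF4' : F ^ 4 ≤ 1 / 256 := (pow_le_pow_left₀ hF.le hF1 4).trans (by norm_num)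
  have hF4F : F ^ 4 ≤ F := pow_le_of_le_one hF.le hF1' (by norm_num)
  have hFa : F ^ a ≤ F ^ 4 / 16 := (pow_le_pow_of_le_one hF.le hF1' ha6).trans (by
    calc F ^ 6 = F ^ 4 * F ^ 2 := by ring
      _ ≤ F ^ 4 * (1 / 16) := by gcongr
      _ = F ^ 4 / 16 := by ring)
  obtain ⟨K, hK⟩ : ∃ K, K = (F ^ 4)⁻¹ := ⟨_, rfl⟩
  have hK0 : 0 < K := by rw [hK]; positivity
  have hKF : F ^ 4 * K = 1 := by rw [hK]; exact mul_inv_cancel₀ hF4.ne'
  have hK1 : 1 / K = F ^ 4 := by rw [hK, one_div, inv_inv]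
  have hK100 : 100 ≤ K := by nlinarith
  obtain ⟨l, hl⟩ : ∃ l : ℝ → ℝ, ∀ r, l r = min (F ^ a) r ^ 2 := ⟨_, fun _ => rfl⟩
  have hl0 : ∀ r > 0, 0 < l r := fun r hr => by rw [hl]; positivity
  have hl1 : ∀ r > 0, l r ≤ F ^ a * r := fun r hr => by
    rw [hl, sq]
    exact mul_le_mul (min_le_left _ _) (min_le_right _ _) (by positivity) (by positivity)
  have hl2 : ∀ r > 0, 16 * l r ≤ F ^ 4 * r := fun r hr => by nlinarith [hl1 r hr]
  obtain ⟨A, hA⟩ : ∃ A : ℝ → ℝ, ∀ r, A r = r ^ 2 / r ^ m * D (r + 3 * l r) := ⟨_, fun _ => rfl⟩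
  have hA0 : ∀ r > 0, 0 ≤ A r := fun r hr => by
    rw [hA]
    exact mul_nonneg (by positivity) (hD0 _)
  have hkey : ∀ r ∈ Ioc 0 R,
      KeyAt C r (d r) (h r) (d1 r) (h1 r) (C * F ^ 33 * r ^ γ * A r) (A r) := fun r hr => by
    have h1 := key r (l r) (hl0 r hr.1) (by nlinarith [hl2 r hr.1, hr.1]) (hr.2.trans hRr)
      (by rw [hl]; exact hD r hr)
    have h2 := R2 r ⟨hr.1, hr.2.trans hR1⟩
    have h3 : l r ^ γ ≤ F ^ 33 * r ^ γ := by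
      refine (Real.rpow_le_rpow (hl0 r hr.1).le (hl1 r hr.1) hγ.le).trans ?_
      rw [Real.mul_rpow (by positivity) hr.1.le, ← Real.rpow_natCast, ← Real.rpow_mul hF.le,
        ← Real.rpow_natCast]
      exact mul_le_mul_of_nonneg_right
        (Real.rpow_le_rpow_of_exponent_ge hF hF1' (by exact_mod_cast ha))
        (Real.rpow_nonneg hr.1.le _)
    rw [← hA] at h1
    refine h1.mono le_rfl ?_ hr.1.le h2.1 h2.2.1 (hA0 r hr.1)
    rw [mul_assoc C (F ^ 33)]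
    exact mul_le_mul_of_nonneg_right (mul_le_mul_of_nonneg_left h3 hC.le) (hA0 r hr.1)
  have hRR := R1 R ⟨hR, hR1⟩ (F / R) ⟨by positivity, (div_le_one hR).2 hFR.le⟩
  rw [show (1 - F / R) * R = R - F by field_simp] at hRR
  have hP : 0 < R ^ 2 / R ^ m * D (R - F) := mul_pos (by positivity) (hpos _ (by linarith))
  have hdR : 0 < d R := (mul_pos_iff_of_pos_left hC).1 (lt_of_lt_of_le (by positivity) hRR)
  have hRR' : F ^ 3 * (R ^ 2 / R ^ m * D (R - F)) ≤ C * d R := le_trans (by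
    gcongr
    exact (le_div_iff₀ hR).2 (mul_le_of_le_one_right hF.le hR1)) hRR
  have htop : ∀ r ∈ Ioc 0 R, R ≤ 2 * r → A r * F ^ 3 ≤ B * d R := fun r hr h2 => by
    have h3 : D (r + 3 * l r) ≤ C' * D (R - F) :=
      (hmono (by nlinarith [hl2 r hr.1, hr.1, hr.2])).trans hDR
    calc A r * F ^ 3 ≤ 2 ^ m * (R ^ 2 / R ^ m) * (C' * D (R - F)) * F ^ 3 := by
          rw [hA]
          gcongr
          · exact hD0 _
          · exact ratio_odeb m hr.1 hr.2 h2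
      _ = 2 ^ m * C' * (F ^ 3 * (R ^ 2 / R ^ m * D (R - F))) := by ring
      _ ≤ 2 ^ m * C' * (C * d R) := by gcongr
      _ = B * d R := by rw [hBe]; ring
  have hlink : ∀ r ∈ Ioc 0 R, A r ≤ K ^ 4 * d (min (r * (1 + 1 / K)) R) := fun r hr => by
    have hr0 := hr.1
    rw [hK1]
    obtain h2 | h2 := le_total (r * (1 + F ^ 4)) R
    · rw [min_eq_left h2]
      have h3 : r * (1 + F ^ 4) ∈ Ioc (0 : ℝ) 1 := ⟨by positivity, h2.trans hR1⟩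
      have h4 := R1 _ h3 (F ^ 4 / 4) ⟨by positivity, by linarith⟩
      have h5 := (R2 _ h3).1
      have h6 : D (r + 3 * l r) ≤ D ((1 - F ^ 4 / 4) * (r * (1 + F ^ 4))) :=
        hmono (by nlinarith [hl2 r hr0, mul_pos hF4 hr0, mul_pos hF4 (mul_pos hF4 hr0)])
      have h7 := ratio_odeb m hr0 (s := r * (1 + F ^ 4)) (by nlinarith) (by nlinarith)
      generalize r * (1 + F ^ 4) = s at *
      have h8 : A r ≤ 2 ^ m * (s ^ 2 / s ^ m * D ((1 - F ^ 4 / 4) * s)) := by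
        rw [hA, ← mul_assoc]
        exact mul_le_mul h7 h6 (hD0 _) (by have := h3.1; positivity)
      calc A r = (F ^ 4 * K) ^ 4 * A r := by rw [hKF]; ring
        _ ≤ (F ^ 4 * K) ^ 4 * (2 ^ m * (s ^ 2 / s ^ m * D ((1 - F ^ 4 / 4) * s))) := by gcongr
        _ = K ^ 4 * (64 * 2 ^ m * F ^ 4) *
          ((F ^ 4 / 4) ^ 3 * (s ^ 2 / s ^ m * D ((1 - F ^ 4 / 4) * s))) := by ring
        _ ≤ K ^ 4 * (64 * 2 ^ m * F) * (C * d s) := mul_le_mul (by gcongr) h4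
          (mul_nonneg (by positivity) (mul_nonneg (by have := h3.1; positivity) (hD0 _)))
          (by positivity)
        _ = 64 * 2 ^ m * C * F * (K ^ 4 * d s) := by ring
        _ ≤ 1 * (K ^ 4 * d s) := by gcongr
        _ = K ^ 4 * d s := one_mul _
    · rw [min_eq_right h2]
      have h3 : F ^ 12 ≤ 1 := pow_le_one₀ hF.le hF1'
      calc A r = (F ^ 4 * K) ^ 4 * A r := by rw [hKF]; ring
        _ = K ^ 4 * F ^ 13 * (A r * F ^ 3) := by ring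
        _ ≤ K ^ 4 * F ^ 13 * (B * d R) := mul_le_mul_of_nonneg_left
          (htop r hr (by nlinarith [mul_le_mul_of_nonneg_left hF4' hr0.le])) (by positivity)
        _ = B * F * F ^ 12 * (K ^ 4 * d R) := by ring
        _ ≤ 1 * 1 * (K ^ 4 * d R) := by gcongr
        _ = K ^ 4 * d R := by ring
  have hRm : R ∈ Ioc 0 R := ⟨hR, le_rfl⟩
  have hst := start_odeb hC hB hF hF1 f4 hdR (R2 R ⟨hR, hR1⟩).2.1
    (mul_nonneg (by positivity) (hA0 R hR))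
    (mul_le_mul_of_nonneg_right (mul_le_of_le_one_right (by positivity)
      (Real.rpow_le_one hR.le hR1 hγ.le)) (hA0 R hR)) (htop R hRm (by linarith)) (hkey R hRm)
  have hh0 : 0 < h R := lt_of_lt_of_le (by positivity) hst
  have hgr := odeB2 (ξ₁ := C * F ^ 33) (A := A) hC.le hγ hγ1 hK100 hR hR1 r1 (by positivity)
    (le_trans (le_of_eq (by
      calc 8 * (C * F ^ 33) * K ^ 8 = (F ^ 4 * K) ^ 8 * (8 * C * F) := by ring
        _ = 8 * C * F := by rw [hKF]; ring)) f2)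
    (fun r hr => ⟨(hder r hr.1).1, (hder r hr.1).2, hkey r hr, (R2 r ⟨hr.1, hr.2.trans hR1⟩).1,
      hA0 r hr.1, hlink r hr⟩) hh0 (by
      calc d R = K / 4 * (4 * F ^ 4 * d R) := by linear_combination (-d R) * hKF
        _ ≤ K / 4 * h R := by gcongr)
  obtain ⟨n, hn⟩ := exists_nat_ge (3 * K)
  obtain ⟨M, hM⟩ := hinf (m + n)
  have hM0 : 0 < M := by simpa using (hpos 1 one_pos).trans_le (hM 1 ⟨one_pos, le_rfl⟩)
  refine end_odeb (M := C * M * R ^ (3 * K)) hR hh0 fun r hr => ?_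
  have hr0 := hr.1
  have hr1 : r ∈ Ioc (0 : ℝ) 1 := ⟨hr0, hr.2.trans hR1⟩
  have h3 : r ^ n ≤ r ^ (3 * K) := by
    rw [← Real.rpow_natCast]
    exact Real.rpow_le_rpow_of_exponent_ge hr0 hr1.2 hn
  refine le_of_mul_le_mul_right ((hgr r hr).trans ?_) (Real.rpow_pos_of_pos hr0 (3 * K))
  calc h r * R ^ (3 * K) ≤ C * (r ^ 2 / r ^ m * (M * r ^ (m + n))) * R ^ (3 * K) := by
        gcongr
        exact (R2 r hr1).2.2.trans (by gcongr; exact hM r hr1)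
    _ = C * M * R ^ (3 * K) * r ^ 2 * r ^ n := by rw [pow_add]; field_simp
    _ ≤ C * M * R ^ (3 * K) * r ^ 2 * r ^ (3 * K) := by gcongr

end Pool.Agent.Lib.MP_8daebb_an.LG
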