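import Pool.Agent.Lib.MP_8daebb_an.LG.Decay
import Pool.Agent.Lib.MP_8daebb_an.LG.Scal

open MeasureTheory Metric Set Filter Topology
open scoped RealInnerProductSpace NNReal

namespace Pool.Agent.Lib.MP_8daebb_an.LG

variable {m : ℕ} {ι : Type}

/-! SETT. Reduction to the normalised setting. -/

theorem tendsto_mul_sett {l : ℝ} (hl : 0 < l) :
    Tendsto (fun t : ℝ => l * t) (𝓝[>] 0) (𝓝[>] 0) := by
  refine tendsto_nhdsWithin_iff.2 ⟨?_, ?_⟩
  · have : Tendsto (fun t : ℝ => l * t) (𝓝 0) (𝓝 (l * 0)) :=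
      (continuous_const.mul continuous_id).tendsto 0
    rw [mul_zero] at this
    exact this.mono_left nhdsWithin_le_nhds
  · filter_upwards [self_mem_nhdsWithin] with t ht
    exact mul_pos hl ht

theorem exists_setting [Fintype ι] [Nonempty ι] {L : ℝ≥0} {u : ι → E m → ℝ} {R : ℝ}
    (hL : ∀ i, LipschitzWith L (u i)) (hR : 0 < R) (h : Stat Finset.univ u (ball 0 R))
    (h0 : ∀ i, u i 0 = 0) (hp : ∀ i, HasGradientAt (u i) 0 0)
    (hd : Tendsto (fun r : ℝ => volume.real ({x | ∃ i j, u i x ≠ u j x} ∩ ball 0 r) / r ^ m)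
      (𝓝[>] 0) (𝓝 0)) {ε : ℝ} (hε : 0 < ε) :
    ∃ l > 0, Setting L ε fun i y => (u i ((0 : E m) + l • y) - 0) / l := by
  have hflat := flat_energy hL hR h h0 hp
  have hinf := infinite_order hL hR h hd
  obtain ⟨C, hC⟩ := hinf (m + 3)
  have hvb := vb_pos m
  obtain ⟨δ, hδ, hδ'⟩ : ∃ δ > 0, ∀ r ∈ Ioo (0 : ℝ) δ,
      volume.real ({x | ∃ i j, u i x ≠ u j x} ∩ ball 0 r) / r ^ m ≤ vb m / 2 := by
    have := hd.eventually (ge_mem_nhds (show (0 : ℝ) < vb m / 2 by positivity))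
    obtain ⟨δ, hδ, hs⟩ := (mem_nhdsGT_iff_exists_Ioo_subset).1 this
    exact ⟨δ, hδ, fun r hr => hs hr⟩
  have e1 : ∀ᶠ l in 𝓝[>] (0 : ℝ), En Finset.univ u 0 0 l / l ^ m ≤ ε ^ 2 :=
    hflat.eventually (ge_mem_nhds (show (0 : ℝ) < ε ^ 2 by positivity))
  have e2 : ∀ᶠ l in 𝓝[>] (0 : ℝ), C * l ^ 3 ≤ ε ^ 2 / 5 ^ (m + 3) := by
    have : Tendsto (fun l : ℝ => C * l ^ 3) (𝓝 0) (𝓝 (C * 0 ^ 3)) :=
      (continuous_const.mul (continuous_id.pow 3)).tendsto 0
    rw [zero_pow (by norm_num), mul_zero] at this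
    exact (this.mono_left nhdsWithin_le_nhds).eventually
      (ge_mem_nhds (show (0 : ℝ) < ε ^ 2 / 5 ^ (m + 3) by positivity))
  have e3 : ∀ᶠ l in 𝓝[>] (0 : ℝ), l ∈ Ioo (0 : ℝ) (min (min (R / 2) (δ / 2)) (1 / 2)) :=
    Ioo_mem_nhdsGT (by positivity)
  obtain ⟨l, a1, a2, hl, a3⟩ := (e1.and (e2.and e3)).exists
  have b1 : l < R / 2 := a3.trans_le ((min_le_left _ _).trans (min_le_left _ _))
  have b2 : l < δ / 2 := a3.trans_le ((min_le_left _ _).trans (min_le_right _ _))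
  have b3 : l < 1 / 2 := a3.trans_le (min_le_right _ _)
  have hlm : 0 < l ^ m := pow_pos hl m
  refine ⟨l, hl, ⟨fun i => lip_scale (hL i) 0 0 hl, fun i => by simp [h0 i], ?_, ?_, ?_, ?_, ?_,
    ?_⟩⟩
  · refine (h.scale hL 0 hl).mono (ball_subset_ball ?_)
    rw [le_div_iff₀ hl]; linarith
  · rw [(En_scale Finset.univ u 0 0 0 hl 1).1, mul_one]
    exact a1
  · intro t ht
    rw [DD_scale u hl t, div_le_iff₀ hlm]
    have c1 := hC (l * t) ⟨mul_pos hl ht.1, by nlinarith [ht.1, ht.2]⟩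
    have c2 : 0 < t ^ (m + 3) * l ^ m := mul_pos (pow_pos ht.1 _) hlm
    calc DD u (l * t) ≤ C * (l * t) ^ (m + 3) := c1
      _ = C * l ^ 3 * (t ^ (m + 3) * l ^ m) := by rw [mul_pow, pow_add l]; ring
      _ ≤ ε ^ 2 / 5 ^ (m + 3) * (t ^ (m + 3) * l ^ m) := mul_le_mul_of_nonneg_right a2 c2.le
      _ = ε ^ 2 * (t / 5) ^ (m + 3) * l ^ m := by rw [div_pow]; ring
  · intro t ht
    have c0 : {y : E m | ∃ i j, (u i ((0 : E m) + l • y) - 0) / l ≠
        (u j ((0 : E m) + l • y) - 0) / l} =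
        {y : E m | (0 : E m) + l • y ∈ {x | ∃ i j, u i x ≠ u j x}} := by
      ext y
      simp only [mem_ofPred_eq, sub_zero, ne_eq, div_left_inj' hl.ne']
    have hlt : 0 < l * t := mul_pos hl ht.1
    have c1 := hδ' (l * t) ⟨hlt, by nlinarith [ht.1, ht.2]⟩
    rw [c0, vol_scale _ 0 hl t, vol_ball 0 ht.1, div_le_iff₀ hlm]
    rw [div_le_iff₀ (pow_pos hlt m), mul_pow] at c1
    linarith [show vb m / 2 * (l ^ m * t ^ m) = vb m * t ^ m / 2 * l ^ m by ring]
  · refine (hflat.comp (tendsto_mul_sett hl)).congr fun t => ?_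
    simp only [Function.comp]
    rw [(En_scale Finset.univ u 0 0 0 hl t).1, mul_pow, div_div]
  · intro k
    obtain ⟨D, hD⟩ := hinf k
    refine ⟨D * l ^ k / l ^ m, fun t ht => ?_⟩
    rw [DD_scale u hl t]
    have c1 := hD (l * t) ⟨mul_pos hl ht.1, by nlinarith [ht.1, ht.2]⟩
    calc DD u (l * t) / l ^ m ≤ D * (l * t) ^ k / l ^ m := div_le_div_of_nonneg_right c1 hlm.le
      _ = D * l ^ k / l ^ m * t ^ k := by rw [mul_pow]; ring

/-- Vanishing of the separation energy. -/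
theorem eq_of_DD_eq_zero [Fintype ι] [Nonempty ι] {L : ℝ≥0} {u : ι → E m → ℝ} {ε r : ℝ}
    (h : Setting L ε u) (hr : 0 < r) (hD : DD u r = 0) :
    ∃ r > 0, ∀ x ∈ ball (0 : E m) r, ∀ i j, u i x = u j x := by
  have hr' : 0 < min r 2 := lt_min hr two_pos
  obtain ⟨C, hC0, hC⟩ := poincare_half m
  have hD' : DD u (min r 2) ≤ 0 := hD ▸ DD_mono h.lip (min_le_left r 2)
  have key : ∀ i, ∀ x ∈ ball (0 : E m) (min r 2), vv u i x = 0 := by
    intro i
    have hv := lip_vv h.lip i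
    have hsub : {x | vv u i x ≠ 0} ⊆ {x | ∃ i j, u i x ≠ u j x} := by
      intro x hx
      by_contra hn
      simp only [mem_ofPred_eq, not_exists, not_not] at hn
      apply hx
      have hc : (Fintype.card ι : ℝ) ≠ 0 := Nat.cast_ne_zero.2 Fintype.card_ne_zero
      have : ∑ j, u j x = Fintype.card ι * u i x := by
        rw [Finset.sum_congr rfl fun j _ => hn j i]
        simp
      simp only [vv, wav, this]
      field_simp
      ring
    have h1 : volume.real ({x | vv u i x ≠ 0} ∩ ball (0 : E m) (min r 2)) ≤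
        volume.real (ball (0 : E m) (min r 2)) / 2 := by
      refine le_trans ?_ (h.half _ ⟨hr', min_le_right r 2⟩)
      exact measureReal_mono (inter_subset_inter_left _ hsub)
        (ne_top_of_le_ne_top measure_ball_lt_top.ne (measure_mono inter_subset_right))
    have h2 := hC (vv u i) _ hv 0 _ hr' h1
    have h3 : ∫ x in ball (0 : E m) (min r 2), ‖gradient (vv u i) x‖ ^ 2 ≤ 0 := by
      have := En_subset (lip_vv h.lip) (Finset.subset_univ {i}) 0 (0 : E m) (min r 2)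
      simp only [En, Finset.sum_singleton, sub_zero] at this
      refine this.trans (le_trans (le_of_eq ?_) hD')
      simp only [DD, Sep, En, sub_zero]
    have h4 : ∫ x in ball (0 : E m) (min r 2), vv u i x ^ 2 = 0 := by
      refine le_antisymm (h2.trans ?_) (integral_nonneg fun x => sq_nonneg _)
      exact mul_nonpos_of_nonneg_of_nonpos (by positivity) h3
    have hc : Continuous fun x => vv u i x ^ 2 := hv.continuous.pow 2
    have h5 : IntegrableOn (fun x => vv u i x ^ 2) (ball (0 : E m) (min r 2)) :=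
      (hc.continuousOn.integrableOn_compact (isCompact_closedBall 0 _)).mono_set
        ball_subset_closedBall
    have h6 := (setIntegral_eq_zero_iff_of_nonneg_ae
      (Eventually.of_forall fun x => sq_nonneg (vv u i x)) h5).1 h4
    have h7 := Measure.eqOn_open_of_ae_eq h6 isOpen_ball hc.continuousOn continuousOn_const
    intro x hx
    exact pow_eq_zero_iff (two_ne_zero) |>.1 (h7 hx)
  refine ⟨min r 2, hr', fun x hx i j => ?_⟩
  have a1 := key i x hx
  have a2 := key j x hx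
  simp only [vv] at a1 a2
  linarith

end Pool.Agent.Lib.MP_8daebb_an.LG
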