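import Pool.Agent.Lib.MP_8daebb_an.LG.RotB

open MeasureTheory Metric Set Filter Topology
open scoped RealInnerProductSpace NNReal

namespace Pool.Agent.Lib.MP_8daebb_an.LG

variable {m : ℕ} {ι : Type}

/-! TILT. Reduction of a tilted tangent plane to the horizontal one. -/

theorem rotX_zero_tilt (e : E m) (c σ : ℝ) {f : E m → ℝ} (h0 : f 0 = 0) :
    rotX e c σ f 0 = 0 := by
  simp [rotX, h0]

theorem norm_rotX_le_tilt {e : E m} {c σ : ℝ} {f : E m → ℝ} {L : ℝ≥0} (he : ‖e‖ = 1)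
    (hc0 : 0 ≤ c) (hc1 : c ≤ 1) (hσ0 : 0 ≤ σ) (hσ1 : σ ≤ 1) (hf : LipschitzWith L f)
    (h0 : f 0 = 0) (x : E m) : ‖rotX e c σ f x‖ ≤ (2 + L) * ‖x‖ := by
  have h1 : |⟪x, e⟫| ≤ ‖x‖ := by
    have := abs_real_inner_le_norm x e
    rwa [he, mul_one] at this
  have h2 : |f x| ≤ L * ‖x‖ := by
    have := hf.dist_le_mul x 0
    rwa [h0, Real.dist_eq, sub_zero, dist_zero_right] at this
  have h3 : |(c - 1) * ⟪x, e⟫ + σ * f x| ≤ ‖x‖ + L * ‖x‖ := by
    calc |(c - 1) * ⟪x, e⟫ + σ * f x| ≤ |(c - 1) * ⟪x, e⟫| + |σ * f x| := abs_add_le _ _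
      _ = |c - 1| * |⟪x, e⟫| + |σ| * |f x| := by rw [abs_mul, abs_mul]
      _ ≤ 1 * ‖x‖ + 1 * (L * ‖x‖) := by
          have a1 : |c - 1| ≤ 1 := by rw [abs_le]; constructor <;> linarith
          have a2 : |σ| ≤ 1 := by rw [abs_le]; constructor <;> linarith
          gcongr
      _ = ‖x‖ + L * ‖x‖ := by ring
  unfold rotX
  calc ‖x + ((c - 1) * ⟪x, e⟫ + σ * f x) • e‖
      ≤ ‖x‖ + ‖((c - 1) * ⟪x, e⟫ + σ * f x) • e‖ := norm_add_le _ _
    _ = ‖x‖ + |(c - 1) * ⟪x, e⟫ + σ * f x| := by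
        rw [norm_smul, he, mul_one, Real.norm_eq_abs]
    _ ≤ (2 + L) * ‖x‖ := by linarith

theorem rotJ_le_tilt {e : E m} {c σ : ℝ} {f : E m → ℝ} {L : ℝ≥0} (he : ‖e‖ = 1)
    (hc1 : c ≤ 1) (hσ0 : 0 ≤ σ) (hσ1 : σ ≤ 1) (hf : LipschitzWith L f) (x : E m) :
    rotJ e c σ f x ≤ 1 + L := by
  have h1 : ‖gradient f x‖ ≤ L := by
    rw [norm_grad_eq]
    exact norm_fderiv_le_of_lipschitz ℝ hf
  have h2 : ⟪gradient f x, e⟫ ≤ L := by
    have := real_inner_le_norm (gradient f x) e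
    rw [he, mul_one] at this
    linarith
  have h3 : σ * ⟪gradient f x, e⟫ ≤ L := by
    have hL : (0 : ℝ) ≤ L := L.2
    calc σ * ⟪gradient f x, e⟫ ≤ σ * L := mul_le_mul_of_nonneg_left h2 hσ0
      _ ≤ 1 * L := mul_le_mul_of_nonneg_right hσ1 hL
      _ = L := one_mul _
  unfold rotJ
  linarith

/-- Equal rotated graph points come from equal graph points. -/
theorem rot_inj_tilt {e : E m} {c σ : ℝ} {f g : E m → ℝ} (he : ‖e‖ = 1)
    (hcσ : c ^ 2 + σ ^ 2 = 1) {x x' : E m} (h1 : rotX e c σ f x = rotX e c σ g x')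
    (h2 : -σ * ⟪x, e⟫ + c * f x = -σ * ⟪x', e⟫ + c * g x') : x = x' ∧ f x = g x' := by
  have hee : ⟪e, e⟫ = (1 : ℝ) := by
    rw [real_inner_self_eq_norm_sq, he]
    norm_num
  have h3 : ⟪rotX e c σ f x, e⟫ = ⟪rotX e c σ g x', e⟫ := by rw [h1]
  unfold rotX at h3
  rw [inner_add_left, inner_add_left, real_inner_smul_left, real_inner_smul_left, hee] at h3
  have ha : ⟪x, e⟫ = ⟪x', e⟫ := by
    have : (c ^ 2 + σ ^ 2) * (⟪x, e⟫ - ⟪x', e⟫) = 0 := by
      linear_combination c * h3 - σ * h2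
    rw [hcσ, one_mul] at this
    linarith
  have hb : f x = g x' := by
    have : (c ^ 2 + σ ^ 2) * (f x - g x') = 0 := by
      linear_combination σ * h3 + c * h2
    rw [hcσ, one_mul] at this
    linarith
  refine ⟨?_, hb⟩
  unfold rotX at h1
  rw [ha, hb] at h1
  exact add_right_cancel h1

theorem grad_zero_tilt {e p : E m} {c σ : ℝ} {f f' : E m → ℝ} {L' : ℝ≥0}
    (hc0 : 0 ≤ c) (hc1 : c ≤ 1) (hσ : ∀ x : E m, σ * ⟪x, e⟫ = c * ⟪p, x⟫)
    (hrot : IsRot e c σ f f') (h0 : f 0 = 0)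
    (hinv : ∀ x y, ‖x - y‖ ≤ L' * ‖rotX e c σ f x - rotX e c σ f y‖)
    (hg : HasGradientAt f p 0) : f' 0 = 0 ∧ HasGradientAt f' 0 0 := by
  have hz : f' 0 = 0 := by
    have := hrot.val 0
    rw [rotX_zero_tilt e c σ h0, h0] at this
    simpa using this
  refine ⟨hz, ?_⟩
  rw [hasGradientAt_iff_isLittleO, Asymptotics.isLittleO_iff] at hg ⊢
  intro ε hε
  have hL' : (0 : ℝ) ≤ L' := L'.2
  have hε' : 0 < ε / (L' + 1) := by positivity
  obtain ⟨η, hη, hb⟩ := Metric.eventually_nhds_iff.1 (hg hε')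
  refine Metric.eventually_nhds_iff.2 ⟨η / (L' + 1), by positivity, fun y hy => ?_⟩
  obtain ⟨x, rfl⟩ := hrot.bij.2 y
  have hx : ‖x‖ ≤ L' * ‖rotX e c σ f x‖ := by
    have := hinv x 0
    rwa [rotX_zero_tilt e c σ h0, sub_zero, sub_zero] at this
  rw [dist_zero_right] at hy
  have hn : 0 ≤ ‖rotX e c σ f x‖ := norm_nonneg _
  have hxη : dist x 0 < η := by
    rw [dist_zero_right]
    rw [lt_div_iff₀ (by positivity)] at hy
    nlinarith
  have h1 := hb hxη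
  rw [h0, sub_zero, sub_zero, Real.norm_eq_abs] at h1
  rw [hrot.val, hz, sub_zero, sub_zero, inner_zero_left, sub_zero, Real.norm_eq_abs]
  have h2 : -σ * ⟪x, e⟫ + c * f x = c * (f x - ⟪p, x⟫) := by
    have := hσ x
    linarith
  rw [h2, abs_mul, abs_of_nonneg hc0]
  have h3 : ε / (L' + 1) * ‖x‖ ≤ ε * ‖rotX e c σ f x‖ := by
    rw [div_mul_eq_mul_div, div_le_iff₀ (by positivity)]
    have : ‖x‖ ≤ ‖rotX e c σ f x‖ * (L' + 1) := by nlinarith
    calc ε * ‖x‖ ≤ ε * (‖rotX e c σ f x‖ * (L' + 1)) := by gcongr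
      _ = ε * ‖rotX e c σ f x‖ * (L' + 1) := by ring
  calc c * |f x - ⟪p, x⟫| ≤ 1 * |f x - ⟪p, x⟫| := by gcongr
    _ = |f x - ⟪p, x⟫| := one_mul _
    _ ≤ _ := h1.trans h3

theorem isOpen_bad_tilt {u : ι → E m → ℝ} (hu : ∀ i, Continuous (u i)) :
    IsOpen {x | ∃ i j, u i x ≠ u j x} := by
  have : {x | ∃ i j, u i x ≠ u j x} = ⋃ i, ⋃ j, {x | u i x ≠ u j x} := by
    ext x
    simp
  rw [this]
  exact isOpen_iUnion fun i => isOpen_iUnion fun j => isOpen_ne_fun (hu i) (hu j)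

theorem vol_bad_tilt [Nonempty ι] {e : E m} {c σ : ℝ} {u u' : ι → E m → ℝ} {L L' : ℝ≥0}
    (he : ‖e‖ = 1) (hc1 : c ≤ 1) (hσ0 : 0 ≤ σ) (hσ1 : σ ≤ 1)
    (hL : ∀ i, LipschitzWith L (u i)) (hL' : ∀ i, LipschitzWith L' (u' i))
    (hrot : ∀ i, IsRot e c σ (u i) (u' i)) (h0 : ∀ i, u i 0 = 0)
    (hinv : ∀ i x y, ‖x - y‖ ≤ L' * ‖rotX e c σ (u i) x - rotX e c σ (u i) y‖) (r : ℝ) :
    volume.real ({x | ∃ i j, u' i x ≠ u' j x} ∩ ball 0 r) ≤
      (1 + L) * volume.real ({x | ∃ i j, u i x ≠ u j x} ∩ ball 0 ((L' + 1) * r)) := by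
  obtain ⟨i0⟩ := ‹Nonempty ι›
  set B' : Set (E m) := {x | ∃ i j, u' i x ≠ u' j x} ∩ ball 0 r with hB'
  set B : Set (E m) := {x | ∃ i j, u i x ≠ u j x} ∩ ball 0 ((L' + 1) * r) with hB
  have mB' : MeasurableSet B' :=
    ((isOpen_bad_tilt fun i => (hL' i).continuous).inter isOpen_ball).measurableSet
  have mB : MeasurableSet B :=
    ((isOpen_bad_tilt fun i => (hL i).continuous).inter isOpen_ball).measurableSet
  have hL0 : (0 : ℝ) ≤ L := L.2
  have hL0' : (0 : ℝ) ≤ L' := L'.2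
  have hsub : ∀ x, rotX e c σ (u i0) x ∈ B' → x ∈ B := by
    intro x hx
    obtain ⟨⟨i, j, hij⟩, hr⟩ := hx
    refine ⟨?_, ?_⟩
    · by_contra hcon
      have hall : ∀ k, u k x = u i0 x := by
        intro k
        by_contra hk
        exact hcon ⟨k, i0, hk⟩
      have hX : ∀ k, rotX e c σ (u k) x = rotX e c σ (u i0) x := by
        intro k
        unfold rotX
        rw [hall k]
      apply hij
      have a1 := (hrot i).val x
      have a2 := (hrot j).val x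
      rw [hX] at a1 a2
      rw [a1, a2, hall i, hall j]
    · have h1 := hinv i0 x 0
      rw [rotX_zero_tilt e c σ (h0 i0), sub_zero, sub_zero] at h1
      rw [mem_ball_zero_iff] at hr ⊢
      have hn : 0 ≤ ‖rotX e c σ (u i0) x‖ := norm_nonneg _
      nlinarith
  have hle : volume B' ≤ ENNReal.ofReal (1 + L) * volume B := by
    have h1 := (hrot i0).cov (B'.indicator 1) (measurable_one.indicator mB')
    rw [lintegral_indicator_one mB'] at h1
    rw [h1, ← lintegral_indicator_one mB, ← lintegral_const_mul' _ _ ENNReal.ofReal_ne_top]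
    refine lintegral_mono fun x => ?_
    by_cases hx : rotX e c σ (u i0) x ∈ B'
    · rw [indicator_of_mem hx, indicator_of_mem (hsub x hx)]
      simp only [Pi.one_apply, one_mul, mul_one]
      exact ENNReal.ofReal_le_ofReal (rotJ_le_tilt he hc1 hσ0 hσ1 (hL i0) x)
    · rw [indicator_of_notMem hx]
      simp
  have hfin : volume B ≠ ⊤ :=
    ne_top_of_le_ne_top measure_ball_lt_top.ne (measure_mono inter_subset_right)
  have h2 := ENNReal.toReal_mono (ENNReal.mul_ne_top ENNReal.ofReal_ne_top hfin) hle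
  rw [ENNReal.toReal_mul, ENNReal.toReal_ofReal (by positivity)] at h2
  exact h2

theorem tendsto_dens_tilt {f g : ℝ → ℝ} {A B : ℝ} (hB : 0 < B)
    (hg0 : ∀ r, 0 ≤ g r) (hgf : ∀ r, g r ≤ A * f (B * r))
    (hf : Tendsto (fun r : ℝ => f r / r ^ m) (𝓝[>] 0) (𝓝 0)) :
    Tendsto (fun r : ℝ => g r / r ^ m) (𝓝[>] 0) (𝓝 0) := by
  have h1 : Tendsto (fun r : ℝ => B * r) (𝓝[>] 0) (𝓝[>] 0) := by
    refine tendsto_nhdsWithin_iff.2 ⟨?_, ?_⟩
    · have : Tendsto (fun r : ℝ => B * r) (𝓝 0) (𝓝 (B * 0)) :=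
        (continuous_const.mul continuous_id).tendsto 0
      rw [mul_zero] at this
      exact this.mono_left nhdsWithin_le_nhds
    · filter_upwards [self_mem_nhdsWithin] with r hr
      exact mul_pos hB hr
  have h2 := (hf.comp h1).const_mul (A * B ^ m)
  rw [mul_zero] at h2
  refine tendsto_of_tendsto_of_tendsto_of_le_of_le' tendsto_const_nhds h2 ?_ ?_
  · filter_upwards [self_mem_nhdsWithin] with r hr
    have hr' : (0 : ℝ) < r := hr
    exact div_nonneg (hg0 r) (by positivity)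
  · filter_upwards [self_mem_nhdsWithin] with r hr
    have hr' : (0 : ℝ) < r := hr
    have e1 : A * B ^ m * (f (B * r) / (B * r) ^ m) = A * f (B * r) / r ^ m := by
      rw [mul_pow]
      field_simp
    show g r / r ^ m ≤ A * B ^ m * (f (B * r) / (B * r) ^ m)
    rw [e1]
    exact div_le_div_of_nonneg_right (hgf r) (by positivity)

theorem tilt_reduce [Fintype ι] [Nonempty ι]
    (H : ∀ (L : ℝ≥0) (u : ι → E m → ℝ) (R : ℝ), (∀ i, LipschitzWith L (u i)) → 0 < R →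
      Stat Finset.univ u (ball 0 R) → (∀ i, u i 0 = 0) → (∀ i, HasGradientAt (u i) 0 0) →
      Tendsto (fun r : ℝ => volume.real ({x | ∃ i j, u i x ≠ u j x} ∩ ball 0 r) / r ^ m)
        (𝓝[>] 0) (𝓝 0) → ∃ r > 0, ∀ x ∈ ball (0 : E m) r, ∀ i j, u i x = u j x)
    {L : ℝ≥0} {u : ι → E m → ℝ} {R : ℝ} {p : E m} (hp : ‖p‖ * L < 1)
    (hL : ∀ i, LipschitzWith L (u i)) (hR : 0 < R) (h : Stat Finset.univ u (ball 0 R))
    (h0 : ∀ i, u i 0 = 0) (hg : ∀ i, HasGradientAt (u i) p 0)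
    (hd : Tendsto (fun r : ℝ => volume.real ({x | ∃ i j, u i x ≠ u j x} ∩ ball 0 r) / r ^ m)
      (𝓝[>] 0) (𝓝 0)) : ∃ r > 0, ∀ x ∈ ball (0 : E m) r, ∀ i j, u i x = u j x := by
  by_cases hp0 : p = 0
  · subst hp0
    exact H L u R hL hR h h0 hg hd
  have hpn : 0 < ‖p‖ := norm_pos_iff.2 hp0
  have hW1 : 1 ≤ W p := one_le_W p
  have hW0 : 0 < W p := by linarith
  have hWs : W p ^ 2 = 1 + ‖p‖ ^ 2 := W_sq p
  have hWn : ‖p‖ ≤ W p := norm_le_W p
  set e : E m := ‖p‖⁻¹ • p with he_def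
  set c : ℝ := (W p)⁻¹ with hc_def
  set σ : ℝ := ‖p‖ / W p with hσ_def
  have he : ‖e‖ = 1 := by
    rw [he_def, norm_smul, norm_inv, norm_norm]
    field_simp
  have hcσ : c ^ 2 + σ ^ 2 = 1 := by
    rw [hc_def, hσ_def]
    field_simp
    linarith
  have hc0 : 0 ≤ c := by positivity
  have hc1 : c ≤ 1 := inv_le_one_of_one_le₀ hW1
  have hσ0 : 0 ≤ σ := by positivity
  have hσ1 : σ ≤ 1 := (div_le_one hW0).2 hWn
  have hδ : 0 < c - σ * L := by
    have : c - σ * L = (1 - ‖p‖ * L) / W p := by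
      rw [hc_def, hσ_def]
      field_simp
    rw [this]
    exact div_pos (by linarith) hW0
  have hσe : ∀ x : E m, σ * ⟪x, e⟫ = c * ⟪p, x⟫ := by
    intro x
    rw [he_def, real_inner_smul_right, real_inner_comm p x, hc_def, hσ_def]
    field_simp
  obtain ⟨L', hL'⟩ := exists_rot (m := m) L hδ
  choose u' hu'L hrot hinv using fun i => hL' e c σ he hcσ hσ0 le_rfl (u i) (hL i)
  have hL0 : (0 : ℝ) ≤ L := L.2
  have hL0' : (0 : ℝ) ≤ L' := L'.2
  have hst : Stat Finset.univ u' (ball 0 (R / (L' + 1))) := by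
    refine Stat.rot hL hu'L he hcσ hσ0 hδ hrot hinv h fun i _ x hx => ?_
    have h1 := hinv i x 0
    rw [rotX_zero_tilt e c σ (h0 i), sub_zero, sub_zero] at h1
    rw [mem_ball_zero_iff] at hx ⊢
    rw [lt_div_iff₀ (by positivity)] at hx
    have hn : 0 ≤ ‖rotX e c σ (u i) x‖ := norm_nonneg _
    nlinarith
  have hgz := fun i => grad_zero_tilt hc0 hc1 hσe (hrot i) (h0 i) (hinv i) (hg i)
  have hd' : Tendsto
      (fun r : ℝ => volume.real ({x | ∃ i j, u' i x ≠ u' j x} ∩ ball 0 r) / r ^ m)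
      (𝓝[>] 0) (𝓝 0) :=
    tendsto_dens_tilt (A := 1 + L) (B := L' + 1)
      (f := fun r => volume.real ({x | ∃ i j, u i x ≠ u j x} ∩ ball 0 r))
      (g := fun r => volume.real ({x | ∃ i j, u' i x ≠ u' j x} ∩ ball 0 r))
      (by positivity) (fun _ => measureReal_nonneg)
      (fun r => vol_bad_tilt he hc1 hσ0 hσ1 hL hu'L hrot h0 hinv r) hd
  obtain ⟨r, hr, hall⟩ := H L' u' (R / (L' + 1)) hu'L (by positivity) hst (fun i => (hgz i).1)
    (fun i => (hgz i).2) hd'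
  refine ⟨r / (2 + L), by positivity, fun x hx i j => ?_⟩
  have hy : rotX e c σ (u i) x ∈ ball (0 : E m) r := by
    rw [mem_ball_zero_iff] at hx ⊢
    rw [lt_div_iff₀ (by positivity)] at hx
    have := norm_rotX_le_tilt he hc0 hc1 hσ0 hσ1 (hL i) (h0 i) x
    linarith
  obtain ⟨x', hx'⟩ := (hrot j).bij.2 (rotX e c σ (u i) x)
  have h1 := hall _ hy i j
  have h2 := (hrot j).val x'
  rw [hx', ← h1, (hrot i).val x] at h2
  obtain ⟨h3, h4⟩ := rot_inj_tilt he hcσ hx'.symm h2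
  rw [h4, ← h3]

end Pool.Agent.Lib.MP_8daebb_an.LG
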