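import Pool.Agent.Lib.MP_8daebb_an.LG.CenR
import Pool.Agent.Lib.MP_8daebb_an.LG.KR
import Pool.Agent.Lib.MP_8daebb_an.LG.OdeB
import Pool.Agent.Lib.MP_8daebb_an.LG.Sett
import Pool.Agent.Lib.MP_8daebb_an.LG.Tilt
import Pool.Agent.Lib.MP_8daebb_an.LG.Bridge

open MeasureTheory Metric Set Filter Topology
open scoped RealInnerProductSpace NNReal

namespace Pool.Agent.Lib.MP_8daebb_an.LG

variable {m : ℕ} {ι : Type}

/-! MAIN. Assembly. -/

theorem setting_vanish [Fintype ι] [Nonempty ι] (hm : 0 < m) (L : ℝ≥0) : ∃ ε > 0,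
    ∀ u : ι → E m → ℝ, Setting L ε u → ∃ r > 0, DD u r = 0 := by
  obtain ⟨γ, hγ, hγ1, ε₀, hε₀, r₀, hr₀, C₁, hC₁, CP, hCP, hcen⟩ := centre_exists (ι := ι) m L
  obtain ⟨C₂, hC₂, hkey⟩ := key_all (ι := ι) m L hCP.le
  obtain ⟨CQ, hCQ, hHt⟩ := Ht_le_DD (ι := ι) m
  refine ⟨ε₀, hε₀, fun u hu => ?_⟩
  have hW : 1 ≤ WL (L : ℝ) := one_le_WL _
  set C : ℝ := WL (L : ℝ) ^ 3 + 6 * CQ + C₂ + C₂ * C₁ with hCdef
  have hW3 : 0 < WL (L : ℝ) ^ 3 := by positivity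
  have hCC : 0 < C₂ * C₁ := by positivity
  have hC : 0 < C := by positivity
  have hD0 : ∀ t, 0 ≤ DD u t := fun t => En_nonneg _ _ _ _ _
  refine odeB m hC hγ hγ1 hε₀ hr₀ (D := DD u) (d := dI u) (h := hI u) (d1 := dI1 u)
    (h1 := hI1 u) (DD_mono hu.lip) (DD_cont hm hu.lip) hD0
    (fun r hr => ⟨dI_deriv hu.lip hr, hI_deriv hu.lip hr⟩) ?_ ?_ hu.dec hu.inf ?_
  · intro r hr η hη
    refine (DD_le_dI hu.lip hr.1 hη.1 hη.2).trans ?_
    have := dI_nonneg hu.lip hr.1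
    have h2 : WL (L : ℝ) ^ 3 ≤ C := by rw [hCdef]; linarith
    gcongr
  · intro r hr
    refine ⟨dI_nonneg hu.lip hr.1, hI_nonneg hr.1, ?_⟩
    have h1 := hI_le_Ht hu.lip hr.1
    have h2 := hHt L u ε₀ hu r hr.1 (by linarith [hr.2])
    have hr0 := hr.1
    have h3 : 6 * CQ ≤ C := by rw [hCdef]; linarith
    have h4 : 0 ≤ r ^ 2 / r ^ m * DD u r := by have := hD0 r; positivity
    calc hI u r ≤ 6 / r ^ m * (CQ * r ^ 2 * DD u r) := h1.trans (by gcongr)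
      _ = 6 * CQ * (r ^ 2 / r ^ m * DD u r) := by ring
      _ ≤ C * (r ^ 2 / r ^ m * DD u r) := by gcongr
  · intro r l hl hlr hr hg
    have hr0 : 0 < r := hl.trans_le hlr
    obtain ⟨Ψ, g, hc⟩ := hcen u ε₀ hε₀ le_rfl hu r l hl hlr hr hg
    have hA : 0 ≤ r ^ 2 / r ^ m * DD u (r + 3 * l) := by have := hD0 (r + 3 * l); positivity
    refine (hkey u Ψ g r (r + l) _ _ hc).mono ?_ ?_ hr0.le (dI_nonneg hu.lip hr0)
      (hI_nonneg hr0) hA
    · rw [hCdef]; linarith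
    · have h3 : C₂ * C₁ ≤ C := by rw [hCdef]; linarith
      have h5 : 0 ≤ l ^ γ := by positivity
      calc C₂ * (C₁ * l ^ γ) * (r ^ 2 / r ^ m * DD u (r + 3 * l))
          = C₂ * C₁ * l ^ γ * (r ^ 2 / r ^ m * DD u (r + 3 * l)) := by ring
        _ ≤ C * l ^ γ * (r ^ 2 / r ^ m * DD u (r + 3 * l)) := by gcongr

theorem horizontal [Fintype ι] [Nonempty ι] (L : ℝ≥0) (u : ι → E m → ℝ) (R : ℝ)
    (hL : ∀ i, LipschitzWith L (u i)) (hR : 0 < R) (h : Stat Finset.univ u (ball 0 R))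
    (h0 : ∀ i, u i 0 = 0) (hp : ∀ i, HasGradientAt (u i) 0 0)
    (hd : Tendsto (fun r : ℝ => volume.real ({x | ∃ i j, u i x ≠ u j x} ∩ ball 0 r) / r ^ m)
      (𝓝[>] 0) (𝓝 0)) : ∃ r > 0, ∀ x ∈ ball (0 : E m) r, ∀ i j, u i x = u j x := by
  rcases Nat.eq_zero_or_pos m with rfl | hm
  · refine ⟨1, one_pos, fun x _ i j => ?_⟩
    have hx : x = 0 := Subsingleton.elim _ _
    rw [hx, h0, h0]
  obtain ⟨ε, hε, hv⟩ := setting_vanish (ι := ι) hm L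
  obtain ⟨l, hl, hs⟩ := exists_setting hL hR h h0 hp hd hε
  obtain ⟨r, hr, hD⟩ := hv _ hs
  obtain ⟨r', hr', he⟩ := eq_of_DD_eq_zero hs hr hD
  refine ⟨l * r', by positivity, fun x hx i j => ?_⟩
  have hy : l⁻¹ • x ∈ ball (0 : E m) r' := by
    rw [mem_ball_zero_iff] at hx ⊢
    rw [norm_smul, Real.norm_eq_abs, abs_of_pos (inv_pos.2 hl), inv_mul_lt_iff₀ hl]
    exact hx
  have := he _ hy i j
  simp only [smul_smul, mul_inv_cancel₀ hl.ne', one_smul, zero_add, sub_zero] at this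
  exact (div_left_inj' hl.ne').1 this

theorem main {m Q : ℕ} {L : ℝ≥0} {R : ℝ} (hR : 0 < R) {u : Fin Q → E m → ℝ} {p : E m}
    (hp : ‖p‖ * L < 1) (hL : ∀ i, LipschitzOnWith L (u i) (ball 0 R))
    (hs : IsStationaryGraph u (ball 0 R)) (h0 : ∀ i, u i 0 = 0)
    (hg : ∀ i, HasGradientAt (u i) p 0)
    (hd : Tendsto (fun r : ℝ => volume.real ({x | ∃ i j, u i x ≠ u j x} ∩ ball 0 r) / r ^ m)
      (𝓝[>] 0) (𝓝 0)) : ∃ r > 0, ∀ x ∈ ball (0 : E m) r, ∀ i j, u i x = u j x := by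
  rcases Nat.eq_zero_or_pos Q with rfl | hQ
  · exact ⟨1, one_pos, fun x _ i => i.elim0⟩
  have : Nonempty (Fin Q) := ⟨⟨0, hQ⟩⟩
  choose v hv hvu using fun i => (hL i).extend_real
  have hs' : IsStationaryGraph v (ball 0 R) := hs.congr isOpen_ball fun i => (hvu i).symm
  have hmem : (0 : E m) ∈ ball (0 : E m) R := mem_ball_self hR
  have hev : ∀ i, v i =ᶠ[𝓝 0] u i := fun i =>
    Filter.eventually_of_mem (isOpen_ball.mem_nhds hmem) fun x hx => (hvu i hx).symm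
  have hd' : Tendsto (fun r : ℝ => volume.real ({x | ∃ i j, v i x ≠ v j x} ∩ ball 0 r) / r ^ m)
      (𝓝[>] 0) (𝓝 0) := by
    refine hd.congr' ?_
    filter_upwards [Ioo_mem_nhdsGT hR] with r hr
    congr 2
    ext x
    constructor
    · rintro ⟨⟨i, j, hij⟩, hx⟩
      have hx' := ball_subset_ball hr.2.le hx
      exact ⟨⟨i, j, by rwa [← hvu i hx', ← hvu j hx']⟩, hx⟩
    · rintro ⟨⟨i, j, hij⟩, hx⟩
      have hx' := ball_subset_ball hr.2.le hx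
      exact ⟨⟨i, j, by rwa [hvu i hx', hvu j hx']⟩, hx⟩
  obtain ⟨r, hr, he⟩ := tilt_reduce (ι := Fin Q) horizontal hp hv hR
    (stat_of_stationaryGraph hv isOpen_ball hs') (fun i => by rw [← hvu i hmem, h0])
    (fun i => (hg i).congr_of_eventuallyEq (hev i)) hd'
  refine ⟨min r R, lt_min hr hR, fun x hx i j => ?_⟩
  have hx' : x ∈ ball (0 : E m) R := ball_subset_ball (min_le_right _ _) hx
  rw [hvu i hx', hvu j hx']
  exact he x (ball_subset_ball (min_le_left _ _) hx) i j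

end Pool.Agent.Lib.MP_8daebb_an.LG
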