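import Pool.Agent.Lib.MP_8daebb_an.LG.SH
import Pool.Agent.Lib.MP_8daebb_an.LG.Iter
import Pool.Agent.Lib.MP_8daebb_an.LG.LipRep
import Pool.Agent.Lib.MP_8daebb_an.LG.Decay
import Pool.Agent.Lib.MP_8daebb_an.LG.Scal

open MeasureTheory Metric Set Filter Topology
open scoped RealInnerProductSpace NNReal ContDiff

namespace Pool.Agent.Lib.MP_8daebb_an.LG

variable {m : ℕ}

/-! SI. A stationary family of coinciding sheets is smooth near a flat point. -/

theorem fderiv_aa_zero_si : fderiv ℝ (aa : E m → E m) 0 = ContinuousLinearMap.id ℝ (E m) := by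
  ext1 q
  rw [fderiv_aa]
  simp [AA, W]

theorem unit_si (m : ℕ) (L : ℝ≥0) : ∃ ε > 0, ∀ f : E m → ℝ, LipschitzWith L f →
    ∫ y in ball 0 1, ‖gradient f y‖ ^ 2 ≤ ε ^ 2 →
    DivFree (fun y => aa (gradient f y)) (ball 0 1) → ContDiffOn ℝ ∞ f (ball 0 (1 / 8)) := by
  have hL1 : (1 : ℝ) ≤ (L : ℝ) + 1 := by have := L.coe_nonneg; linarith
  obtain ⟨θ, hθ, hθ8, hit⟩ := iter m hL1
  obtain ⟨ε₁, hε₁, C, hC, hit⟩ := hit θ le_rfl (by linarith)
  obtain ⟨C', hC', hrep⟩ := lip_rep m hθ hθ8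
  obtain ⟨ε₂, hε₂, hsm⟩ := smooth_of_lip_grad m (a := aa) (contDiff_aa.of_le le_top)
    fderiv_aa_zero_si
  refine ⟨min ε₁ (ε₂ / C), lt_min hε₁ (by positivity), fun f hf hE hd => ?_⟩
  set ε := min ε₁ (ε₂ / C) with hεd
  have hε0 : 0 < ε := lt_min hε₁ (by positivity)
  have hεC : C * ε ≤ ε₂ := by
    have h1 : ε ≤ ε₂ / C := min_le_right _ _
    rwa [le_div_iff₀ hC, mul_comm] at h1
  have hfl : LocallyLipschitz f := hf.locallyLipschitz
  have hsub : ∀ x ∈ ball (0 : E m) (1 / 8), ∀ s : ℝ, s ≤ 1 / 3 → ball x s ⊆ ball (0 : E m) 1 := by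
    intro x hx s hs
    refine ball_subset_ball' ?_
    have := mem_ball.1 hx
    linarith
  have hint : IntegrableOn (fun y => ‖gradient f y‖ ^ 2) (ball (0 : E m) 1) :=
    (memLp_two_iff_integrable_sq_norm (meas_grad f).aestronglyMeasurable).1 (memLp_grad hfl 0 1)
  obtain ⟨Ψ, hΨ1, hΨ2, hΨ3⟩ := hrep (gradient f) (1 / 8) (√C * ε) ε₂ (memLp_grad hfl) le_rfl
    (by positivity) (fun x hx j => by
      obtain ⟨p, hp1, hp2⟩ := hit f hfl x ε j hε0.le (min_le_left _ _)
        (le_trans (setIntegral_mono_set hint (Eventually.of_forall fun y => by positivity)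
          (hsub x hx _ le_rfl).eventuallyLE) hE)
        (fun i _ => by
          have hs : θ ^ i / 3 ≤ 1 / 3 := by
            have : θ ^ i ≤ 1 := pow_le_one₀ hθ.le (by linarith)
            linarith
          refine ⟨fun y => ta ((L : ℝ) + 1) (gradient f y), memLp_ta _ (memLp_grad hfl _ _),
            (hd.mono (hsub x hx _ hs)).congr (Eventually.of_forall fun y _ => ?_), ?_⟩
          · exact ta_eq ((norm_grad_le hf y).trans (by linarith))
          · simp only [sub_self, norm_zero, ne_eq, OfNat.ofNat_ne_zero, not_false_eq_true,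
              zero_pow, integral_zero]
            positivity)
      refine ⟨p, hp1.trans hεC, hp2.trans (le_of_eq ?_)⟩
      rw [mul_pow, Real.sq_sqrt hC.le])
  have hΨc : Continuous Ψ := by
    have : LipschitzWith (C' * (√C * ε)).toNNReal Ψ := by
      refine LipschitzWith.of_dist_le' fun x y => ?_
      rw [dist_eq_norm, dist_eq_norm]
      exact hΨ1 x y
    exact this.continuous
  have hg : ∀ x ∈ ball (0 : E m) (1 / 8), HasGradientAt f (Ψ x) x := fun x hx =>
    hasGradientAt_of_ae hfl isOpen_ball hΨc.continuousOn hΨ3 hx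
  refine hsm f 0 (1 / 8) (C' * (√C * ε)) hfl (fun y hy => ⟨(hg y hy).differentiableAt, ?_⟩)
    (fun y hy z hz => ?_) (hd.mono (ball_subset_ball (by norm_num)))
  · rw [(hg y hy).gradient]
    exact hΨ2 y hy
  · rw [(hg y hy).gradient, (hg z hz).gradient]
    exact hΨ1 y z

theorem smooth_horizontal {ι : Type} [Fintype ι] [Nonempty ι] {L : ℝ≥0} {u : ι → E m → ℝ} {R : ℝ}
    (hL : ∀ i, LipschitzWith L (u i)) (hR : 0 < R) (h : Stat Finset.univ u (ball 0 R))
    (h0 : ∀ i, u i 0 = 0) (hp : ∀ i, HasGradientAt (u i) 0 0)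
    (he : ∃ r > 0, ∀ x ∈ ball (0 : E m) r, ∀ i j, u i x = u j x) :
    ∃ r > 0, ∀ i, ContDiffOn ℝ ∞ (u i) (ball 0 r) := by
  obtain ⟨r, hr, he⟩ := he
  obtain ⟨ε, hε, hun⟩ := unit_si m L
  obtain ⟨i0⟩ := ‹Nonempty ι›
  have hflat := flat_energy hL hR h h0 hp
  have e1 : ∀ᶠ l in 𝓝[>] (0 : ℝ), En Finset.univ u 0 0 l / l ^ m ≤ ε ^ 2 :=
    hflat.eventually (ge_mem_nhds (show (0 : ℝ) < ε ^ 2 by positivity))
  have e2 : ∀ᶠ l in 𝓝[>] (0 : ℝ), l ∈ Ioo (0 : ℝ) (min r R) := Ioo_mem_nhdsGT (lt_min hr hR)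
  obtain ⟨l, hl1, hl, hl2⟩ := (e1.and e2).exists
  have hlr : l ≤ r := hl2.le.trans (min_le_left _ _)
  have hlR : l ≤ R := hl2.le.trans (min_le_right _ _)
  have hgr : ∀ x ∈ ball (0 : E m) r, ∀ i, gradient (u i) x = gradient (u i0) x := fun x hx i =>
    grad_congr_open isOpen_ball (fun y hy => he y hy i i0) hx
  have hd : DivFree (fun x => aa (gradient (u i0) x)) (ball 0 (l * 1)) := by
    rw [mul_one]
    refine (h.divFree_Xi.mono (ball_subset_ball hlR)).congr (Eventually.of_forall fun x hx => ?_)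
    have hc : (Fintype.card ι : ℝ) ≠ 0 := Nat.cast_ne_zero.2 Fintype.card_ne_zero
    simp only [Xi, hgr x (ball_subset_ball hlr hx), Finset.sum_const, Finset.card_univ]
    rw [← Nat.cast_smul_eq_nsmul ℝ, smul_smul, inv_mul_cancel₀ hc, one_smul]
  have hsm := hun (fun y => (u i0 ((0 : E m) + l • y) - 0) / l) (lip_scale (hL i0) 0 0 hl)
    (by
      simp only [grad_scale (u i0) 0 0 hl]
      rw [setInt_scale (fun x => ‖gradient (u i0) x‖ ^ 2) 0 hl 1, mul_one]
      refine le_trans (div_le_div_of_nonneg_right ?_ (by positivity)) hl1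
      refine le_trans (le_of_eq ?_) (En_subset hL (Finset.subset_univ {i0}) 0 0 l)
      simp [En])
    (by
      simp only [grad_scale (u i0) 0 0 hl]
      exact hd.scale hl)
  refine ⟨l / 8, by positivity, fun i => ?_⟩
  have hc : ContDiffOn ℝ ∞
      (fun x : E m => l * ((u i0 ((0 : E m) + l • (l⁻¹ • x)) - 0) / l)) (ball 0 (l / 8)) := by
    refine contDiffOn_const.mul (hsm.comp (f := fun x : E m => l⁻¹ • x)
      (contDiff_id.const_smul l⁻¹).contDiffOn fun x hx => ?_)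
    rw [mem_ball_zero_iff] at hx ⊢
    rw [norm_smul, norm_inv, Real.norm_eq_abs, abs_of_pos hl, inv_mul_lt_iff₀ hl]
    linarith
  refine hc.congr fun x hx => ?_
  rw [he x (ball_subset_ball (by linarith) hx) i i0, zero_add, smul_inv_smul₀ hl.ne', sub_zero,
    mul_div_cancel₀ _ hl.ne']

end Pool.Agent.Lib.MP_8daebb_an.LG
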