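import Pool.Agent.Lib.MP_8daebb_an.LG.Main
import Pool.Agent.Lib.MP_8daebb_an.LG.SI

open MeasureTheory Metric Set Filter Topology
open scoped RealInnerProductSpace NNReal ContDiff

namespace Pool.Agent.Lib.MP_8daebb_an.LG

/-! MAINS. The case of a horizontal tangent plane, with the smoothness of the common sheet. -/

theorem main_smooth {m Q : ℕ} {L : ℝ≥0} {R : ℝ} (hR : 0 < R) {u : Fin Q → E m → ℝ}
    (hL : ∀ i, LipschitzOnWith L (u i) (ball 0 R))
    (hs : IsStationaryGraph u (ball 0 R)) (h0 : ∀ i, u i 0 = 0)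
    (hg : ∀ i, HasGradientAt (u i) 0 0)
    (hd : Tendsto (fun r : ℝ => volume.real ({x | ∃ i j, u i x ≠ u j x} ∩ ball 0 r) / r ^ m)
      (𝓝[>] 0) (𝓝 0)) :
    ∃ r > 0, ∃ w : E m → ℝ, ContDiffOn ℝ ∞ w (ball 0 r) ∧ ∀ i, EqOn (u i) w (ball 0 r) := by
  rcases Nat.eq_zero_or_pos Q with rfl | hQ
  · exact ⟨1, one_pos, fun _ => 0, contDiffOn_const, fun i => i.elim0⟩
  have : Nonempty (Fin Q) := ⟨⟨0, hQ⟩⟩
  obtain ⟨r, hr, he⟩ := main (p := 0) hR (by simp) hL hs h0 hg hd
  choose v hv hvu using fun i => (hL i).extend_real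
  have hs' : IsStationaryGraph v (ball 0 R) := hs.congr isOpen_ball fun i => (hvu i).symm
  have hmem : (0 : E m) ∈ ball (0 : E m) R := mem_ball_self hR
  have hev : ∀ i, v i =ᶠ[𝓝 0] u i := fun i =>
    Filter.eventually_of_mem (isOpen_ball.mem_nhds hmem) fun x hx => (hvu i hx).symm
  obtain ⟨r', hr', hsm⟩ := smooth_horizontal hv hR (stat_of_stationaryGraph hv isOpen_ball hs')
    (fun i => by rw [← hvu i hmem, h0]) (fun i => (hg i).congr_of_eventuallyEq (hev i))
    ⟨min r R, lt_min hr hR, fun x hx i j => by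
      have hx' : x ∈ ball (0 : E m) R := ball_subset_ball (min_le_right _ _) hx
      rw [← hvu i hx', ← hvu j hx']
      exact he x (ball_subset_ball (min_le_left _ _) hx) i j⟩
  refine ⟨min r' (min r R), lt_min hr' (lt_min hr hR), v ⟨0, hQ⟩,
    (hsm _).mono (ball_subset_ball (min_le_left _ _)), fun i x hx => ?_⟩
  have hx1 : x ∈ ball (0 : E m) r :=
    ball_subset_ball ((min_le_right _ _).trans (min_le_left _ _)) hx
  have hx2 : x ∈ ball (0 : E m) R :=
    ball_subset_ball ((min_le_right _ _).trans (min_le_right _ _)) hx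
  rw [← hvu _ hx2]
  exact he x hx1 _ _

end Pool.Agent.Lib.MP_8daebb_an.LG
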