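import Pool.Agent.Lib.MP_8daebb_an.LG.Cut
import Pool.Agent.Lib.MP_8daebb_an.LG.Poin
import Pool.Agent.Lib.MP_8daebb_an.LG.Scal

open MeasureTheory Metric Set Filter Topology
open scoped RealInnerProductSpace NNReal

namespace Pool.Agent.Lib.MP_8daebb_an.LG

variable {m : ℕ} {ι : Type}

/-! MOLA. The mollifier: normalisation and approximation. -/

theorem pr_shift_molA (y : E m) (t : ℝ) (h : E m) : pr y t (y + h) = pr 0 t h := by
  simp [pr]

theorem pr4_zero_molA {c : E m} {t : ℝ} (ht : 0 < t) {x : E m} (hx : x ∉ closedBall c t) :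
    pr c t x ^ 4 = 0 := by
  rw [pr_eq_zero ht fun h => hx (ball_subset_closedBall h)]
  norm_num

theorem supp_pr4_molA (c : E m) {t : ℝ} (ht : 0 < t) :
    HasCompactSupport fun x => pr c t x ^ 4 :=
  HasCompactSupport.intro (isCompact_closedBall c t) fun _ hx => pr4_zero_molA ht hx

theorem int_pr4_molA (c : E m) {t : ℝ} (ht : 0 < t) {g : E m → ℝ} (hg : Continuous g) :
    Integrable fun x => pr c t x ^ 4 * g x :=
  (((continuous_pr c t).pow 4).mul hg).integrable_of_hasCompactSupport
    (supp_pr4_molA c ht).mul_right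

theorem cm_pos (m : ℕ) : 0 < cm m := by
  refine inv_pos.2 ?_
  refine Continuous.integral_pos_of_hasCompactSupport_nonneg_nonzero (x := 0)
    ((continuous_pr 0 1).pow 4) (supp_pr4_molA 0 one_pos) (fun x => ?_) ?_
  · exact pow_nonneg (pr_nonneg _ _ _) 4
  · simp [pr]

theorem mol_one (y : E m) {t : ℝ} (ht : 0 < t) : cm m / t ^ m * ∫ z, pr y t z ^ 4 = 1 := by
  have h1 := int_scale (fun z => pr y t z ^ 4) y ht
  have h2 : ∀ z : E m, pr y t (y + t • z) = pr 0 1 z := fun z => by
    simp only [pr, add_sub_cancel_left, sub_zero, norm_smul, Real.norm_eq_abs, mul_pow, sq_abs,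
      one_pow, div_one]
    rw [mul_div_cancel_left₀ _ (pow_ne_zero 2 ht.ne')]
  simp only [h2, smul_eq_mul] at h1
  have h3 : cm m * ∫ z : E m, pr 0 1 z ^ 4 = 1 := by
    have := cm_pos m
    unfold cm at this ⊢
    exact inv_mul_cancel₀ (inv_pos.1 this).ne'
  rw [h1] at h3
  rw [← h3, div_eq_mul_inv, mul_assoc]

theorem mol_eq_molA (k : E m → ℝ) (t : ℝ) (y : E m) :
    mol t k y = cm m / t ^ m * ∫ h, pr 0 t h ^ 4 * k (y + h) := by
  unfold mol
  rw [← integral_add_left_eq_self (fun z => pr y t z ^ 4 * k z) y]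
  simp only [pr_shift_molA]

theorem continuous_mol {k : E m → ℝ} (hk : Continuous k) {t : ℝ} (ht : 0 < t) :
    Continuous (mol t k) := by
  have h1 : mol t k = fun y =>
      cm m / t ^ m * ∫ h in closedBall (0 : E m) t, pr 0 t h ^ 4 * k (y + h) := by
    funext y
    rw [mol_eq_molA, setIntegral_eq_integral_of_forall_compl_eq_zero]
    intro x hx
    rw [pr4_zero_molA ht hx, zero_mul]
  rw [h1]
  refine continuous_const.mul ?_
  refine continuous_parametric_integral_of_continuous ?_ (isCompact_closedBall 0 t)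
  exact (((continuous_pr 0 t).pow 4).comp continuous_snd).mul
    (hk.comp (continuous_fst.add continuous_snd))

theorem jensen_molA {t : ℝ} (ht : 0 < t) {g : E m → ℝ} (hg : Continuous g) :
    (cm m / t ^ m * ∫ h, pr 0 t h ^ 4 * g h) ^ 2 ≤
      cm m / t ^ m * ∫ h, pr 0 t h ^ 4 * g h ^ 2 := by
  set c := cm m / t ^ m with hc
  have hc0 : 0 < c := div_pos (cm_pos m) (pow_pos ht m)
  set a := c * ∫ h, pr 0 t h ^ 4 * g h with ha
  have h0 : 0 ≤ ∫ h : E m, pr 0 t h ^ 4 * (g h - a) ^ 2 :=
    integral_nonneg fun h => mul_nonneg (pow_nonneg (pr_nonneg _ _ _) 4) (sq_nonneg _)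
  have i0 : Integrable fun h : E m => pr 0 t h ^ 4 := by
    simpa using int_pr4_molA (0 : E m) ht (continuous_const (y := (1 : ℝ)))
  have i1 := int_pr4_molA (0 : E m) ht hg
  have i2 : Integrable fun h : E m => pr 0 t h ^ 4 * g h ^ 2 :=
    int_pr4_molA (0 : E m) ht (hg.pow 2)
  have i3 : Integrable fun h : E m => pr 0 t h ^ 4 * g h ^ 2 - 2 * a * (pr 0 t h ^ 4 * g h) :=
    i2.sub (i1.const_mul _)
  have e : ∀ h : E m, pr 0 t h ^ 4 * (g h - a) ^ 2 =
      pr 0 t h ^ 4 * g h ^ 2 - 2 * a * (pr 0 t h ^ 4 * g h) + a ^ 2 * pr 0 t h ^ 4 :=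
    fun h => by ring
  simp only [e] at h0
  rw [integral_add i3 (i0.const_mul _), integral_sub i2 (i1.const_mul _),
    integral_const_mul, integral_const_mul] at h0
  have h1 : c * ∫ h : E m, pr 0 t h ^ 4 = 1 := mol_one 0 ht
  have h2 := mul_nonneg hc0.le h0
  have h3 : c * ((∫ h : E m, pr 0 t h ^ 4 * g h ^ 2) - 2 * a * (∫ h : E m, pr 0 t h ^ 4 * g h) +
      a ^ 2 * ∫ h : E m, pr 0 t h ^ 4) =
      c * (∫ h : E m, pr 0 t h ^ 4 * g h ^ 2) - 2 * a * (c * ∫ h : E m, pr 0 t h ^ 4 * g h) +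
        a ^ 2 * (c * ∫ h : E m, pr 0 t h ^ 4) := by ring
  rw [h3, h1, ← ha] at h2
  nlinarith

theorem sub_mol_molA {k : E m → ℝ} (hk : Continuous k) {t : ℝ} (ht : 0 < t) (y : E m) :
    (k y - mol t k y) ^ 2 ≤ cm m / t ^ m * ∫ h, pr 0 t h ^ 4 * (k (y + h) - k y) ^ 2 := by
  have hg : Continuous fun h : E m => k (y + h) := hk.comp (continuous_const.add continuous_id)
  have i0 : Integrable fun h : E m => pr 0 t h ^ 4 * k y :=
    int_pr4_molA (0 : E m) ht continuous_const
  have i1 := int_pr4_molA (0 : E m) ht hg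
  have e : mol t k y - k y = cm m / t ^ m * ∫ h, pr 0 t h ^ 4 * (k (y + h) - k y) := by
    simp only [mul_sub]
    rw [integral_sub i1 i0, integral_mul_const, mul_sub, ← mul_assoc, mol_one 0 ht, one_mul,
      mol_eq_molA]
  have := jensen_molA (g := fun h => k (y + h) - k y) ht (hg.sub continuous_const)
  rw [← e] at this
  calc (k y - mol t k y) ^ 2 = (mol t k y - k y) ^ 2 := by ring
    _ ≤ _ := this

theorem mol_approx {k : E m → ℝ} {K : ℝ≥0} (hk : LipschitzWith K k) (c : E m) (r : ℝ) {t : ℝ}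
    (ht : 0 < t) : ∫ y in ball c r, (k y - mol t k y) ^ 2 ≤
      t ^ 2 * ∫ y in ball c (r + t), ‖gradient k y‖ ^ 2 := by
  have hkc := hk.continuous
  set a := cm m / t ^ m with ha
  have ha0 : 0 < a := div_pos (cm_pos m) (pow_pos ht m)
  set I := ∫ y in ball c (r + t), ‖gradient k y‖ ^ 2 with hI
  have i0 : Integrable fun h : E m => pr 0 t h ^ 4 := by
    simpa using int_pr4_molA (0 : E m) ht (continuous_const (y := (1 : ℝ)))
  have : IsFiniteMeasure (volume.restrict (ball c r)) :=
    isFiniteMeasure_restrict.2 measure_ball_lt_top.ne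
  have hF : Integrable (Function.uncurry fun y h : E m => pr 0 t h ^ 4 * (k (y + h) - k y) ^ 2)
      ((volume.restrict (ball c r)).prod volume) := by
    have hb : Integrable (fun z : E m × E m => ((K : ℝ) * t) ^ 2 * pr 0 t z.2 ^ 4)
        ((volume.restrict (ball c r)).prod volume) :=
      Integrable.mul_prod (f := fun _ => ((K : ℝ) * t) ^ 2) (g := fun h => pr 0 t h ^ 4)
        (integrable_const _) i0
    refine hb.mono' ?_ (Eventually.of_forall fun z => ?_)
    · refine Continuous.aestronglyMeasurable ?_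
      exact (((continuous_pr 0 t).pow 4).comp continuous_snd).mul
        (((hkc.comp (continuous_fst.add continuous_snd)).sub (hkc.comp continuous_fst)).pow 2)
    · have h4 : 0 ≤ pr 0 t z.2 ^ 4 := pow_nonneg (pr_nonneg _ _ _) 4
      simp only [Function.uncurry]
      rw [Real.norm_of_nonneg (mul_nonneg h4 (sq_nonneg _))]
      by_cases hz : z.2 ∈ closedBall (0 : E m) t
      · rw [mul_comm]
        refine mul_le_mul_of_nonneg_right ?_ h4
        have h1 := hk.dist_le_mul (z.1 + z.2) z.1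
        rw [Real.dist_eq, dist_eq_norm, add_sub_cancel_left] at h1
        have h2 : ‖z.2‖ ≤ t := mem_closedBall_zero_iff.1 hz
        have h3 : |k (z.1 + z.2) - k z.1| ≤ K * t :=
          h1.trans (mul_le_mul_of_nonneg_left h2 K.coe_nonneg)
        rw [← sq_abs]
        exact pow_le_pow_left₀ (abs_nonneg _) h3 2
      · rw [pr4_zero_molA ht hz]
        simp
  have hgi : IntegrableOn (fun y => ‖gradient k y‖ ^ 2) (ball c (r + t)) := by
    refine intOn_ball (C := (K : ℝ) ^ 2) ((meas_grad k).norm.pow_const 2).aestronglyMeasurable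
      (Eventually.of_forall fun x _ => ?_)
    rw [Real.norm_of_nonneg (sq_nonneg _)]
    exact pow_le_pow_left₀ (norm_nonneg _) (norm_grad_le hk x) 2
  have hI0 : 0 ≤ I := integral_nonneg fun _ => sq_nonneg _
  have h1 : ∫ y in ball c r, (k y - mol t k y) ^ 2 ≤
      ∫ y in ball c r, a * ∫ h, pr 0 t h ^ 4 * (k (y + h) - k y) ^ 2 := by
    refine integral_mono_of_nonneg (Eventually.of_forall fun _ => sq_nonneg _)
      (hF.integral_prod_left.const_mul a) (Eventually.of_forall fun y => ?_)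
    exact sub_mol_molA hkc ht y
  rw [integral_const_mul, integral_integral_swap hF] at h1
  have h2 : ∫ h : E m, ∫ y in ball c r, pr 0 t h ^ 4 * (k (y + h) - k y) ^ 2 ≤
      ∫ h : E m, pr 0 t h ^ 4 * (t ^ 2 * I) := by
    refine integral_mono hF.integral_prod_right (i0.mul_const _) fun h => ?_
    simp only [integral_const_mul]
    by_cases hz : h ∈ closedBall (0 : E m) t
    · refine mul_le_mul_of_nonneg_left ?_ (pow_nonneg (pr_nonneg _ _ _) 4)
      have h3 : ‖h‖ ≤ t := mem_closedBall_zero_iff.1 hz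
      refine (transl_est hk c h r).trans ?_
      refine mul_le_mul (pow_le_pow_left₀ (norm_nonneg _) h3 2) ?_
        (integral_nonneg fun _ => sq_nonneg _) (sq_nonneg _)
      exact setIntegral_mono_set hgi (Eventually.of_forall fun _ => sq_nonneg _)
        (ball_subset_ball (by linarith)).eventuallyLE
    · rw [pr4_zero_molA ht hz]
      simp
  rw [integral_mul_const] at h2
  refine h1.trans ((mul_le_mul_of_nonneg_left h2 ha0.le).trans (le_of_eq ?_))
  rw [← mul_assoc, mol_one 0 ht, one_mul]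

end Pool.Agent.Lib.MP_8daebb_an.LG
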