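import Pool.Agent.Lib.MP_8daebb_an.LG.MolA

open MeasureTheory Metric Set Filter Topology
open scoped RealInnerProductSpace NNReal

namespace Pool.Agent.Lib.MP_8daebb_an.LG

variable {m : ℕ} {ι : Type}

/-! MOLB. The mean value property up to an error. -/

theorem dv_sub_molb (y x : E m) : dv (fun z => z - y) x = m := by
  have h : fderiv ℝ (fun z : E m => z - y) x = ContinuousLinearMap.id ℝ (E m) :=
    ((hasFDerivAt_id x).sub_const y).fderiv
  simp [dv, trS, h, eb]

theorem bdd_molb {k : E m → ℝ} (hk : Continuous k) (y : E m) (r : ℝ) :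
    ∃ C : ℝ, ∀ᵐ x, x ∈ ball y r → |k x| ≤ C := by
  obtain ⟨C, hC⟩ := (isCompact_closedBall y r).exists_bound_of_continuousOn hk.continuousOn
  exact ⟨C, Eventually.of_forall fun x hx => hC x (ball_subset_closedBall hx)⟩

theorem grad_pow_molb (y : E m) (t : ℝ) (n : ℕ) (x : E m) :
    gradient (fun x => pr y t x ^ (n + 2)) x =
      -(2 * ((n + 2) * pr y t x ^ (n + 1)) / t ^ 2) • (x - y) := by
  simpa only [one_mul] using grad_pow_cut y t 1 n x

theorem int_grad_molb {k : E m → ℝ} {K : ℝ≥0} (hk : LipschitzWith K k) (y : E m) {t : ℝ}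
    (ht : 0 < t) : Integrable fun z => pr y t z ^ 4 * ⟪gradient k z, z - y⟫ := by
  refine int_cut (c := y) (C := K * t) ht ((continuous_pr y t).pow 4)
    (fun x hx => by simp [pr_eq_zero ht hx])
    ((meas_grad k).aestronglyMeasurable.inner
      (continuous_id.sub continuous_const).aestronglyMeasurable)
    (Eventually.of_forall fun x hx => (abs_real_inner_le_norm _ _).trans ?_)
  exact mul_le_mul (norm_grad_le hk x) (mem_ball_iff_norm.1 hx).le (norm_nonneg _) K.2

/-- Integration by parts against the radial field. -/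
theorem parts_molb {k : E m → ℝ} {K : ℝ≥0} (hk : LipschitzWith K k) (y : E m) {t : ℝ}
    (ht : 0 < t) : ∫ z, pr y t z ^ 4 * ⟪gradient k z, z - y⟫ =
      (∫ z, 8 * (‖z - y‖ ^ 2 / t ^ 2) * pr y t z ^ 3 * k z) - m * ∫ z, pr y t z ^ 4 * k z := by
  have hp := continuous_pr y t
  have hc4 : ContDiff ℝ 1 fun x => pr y t x ^ 4 := contDiff_pow_cut y t 2
  obtain ⟨C, hC⟩ := bdd_molb hk.continuous y t
  have i1 := int_grad_molb hk y ht
  have i2 : Integrable fun z => 8 * (‖z - y‖ ^ 2 / t ^ 2) * pr y t z ^ 3 * k z :=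
    int_cut (c := y) ht (by fun_prop) (fun x hx => by simp [pr_eq_zero ht hx])
      hk.continuous.aestronglyMeasurable hC
  have i3 : Integrable fun z => pr y t z ^ 4 * k z :=
    int_cut (c := y) ht (hp.pow 4) (fun x hx => by simp [pr_eq_zero ht hx])
      hk.continuous.aestronglyMeasurable hC
  have hV : ContDiff ℝ 1 fun z : E m => z - y := contDiff_id.sub contDiff_const
  have h0 := integral_dv_eq_zero (Y := fun z => (pr y t z ^ 4 * k z) • (z - y))
    (locLip_smul (locLip_mul hc4.locallyLipschitz hk.locallyLipschitz) hV.locallyLipschitz)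
    (HasCompactSupport.intro (isCompact_closedBall y t) fun x hx => by
      simp [pr_eq_zero ht fun h => hx (ball_subset_closedBall h)])
  have h1 : ∀ᵐ z, dv (fun z => (pr y t z ^ 4 * k z) • (z - y)) z =
      pr y t z ^ 4 * ⟪gradient k z, z - y⟫ - 8 * (‖z - y‖ ^ 2 / t ^ 2) * pr y t z ^ 3 * k z +
        m * (pr y t z ^ 4 * k z) := by
    filter_upwards [hk.ae_differentiableAt] with z hz
    have h4 : DifferentiableAt ℝ (fun x => pr y t x ^ 4) z := hc4.differentiable one_ne_zero z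
    rw [dv_smul (h4.fun_mul hz) (hV.differentiable one_ne_zero z), grad_mul h4 hz, dv_sub_molb,
      grad_pow_molb y t 2 z, inner_add_left, real_inner_smul_left, real_inner_smul_left,
      real_inner_smul_left, real_inner_self_eq_norm_sq]
    push_cast
    ring
  have i4 : Integrable fun z => pr y t z ^ 4 * ⟪gradient k z, z - y⟫ -
      8 * (‖z - y‖ ^ 2 / t ^ 2) * pr y t z ^ 3 * k z := i1.sub i2
  rw [integral_congr_ae h1, integral_add i4 (i3.const_mul _), integral_sub i1 i2,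
    integral_const_mul] at h0
  linarith

theorem der_molb {k : E m → ℝ} {K : ℝ≥0} (hk : LipschitzWith K k) (y : E m) {t : ℝ}
    (ht : 0 < t) : HasDerivAt (fun t => mol t k y)
      (cm m / t ^ m / t * ∫ z, pr y t z ^ 4 * ⟪gradient k z, z - y⟫) t := by
  obtain ⟨C, hC⟩ := bdd_molb hk.continuous y (2 * t)
  have h1 := int_pow_cut y ht 2 hk.continuous.aestronglyMeasurable hC
  have h2 := (hasDerivAt_const t (cm m)).fun_div (hasDerivAt_pow m t) (pow_pos ht m).ne'
  have h3 : ∀ n : ℕ, (n : ℝ) * t ^ (n - 1) = n * t ^ n / t := by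
    intro n
    cases n with
    | zero => simp
    | succ n => rw [Nat.add_sub_cancel, pow_succ, ← mul_assoc, mul_div_cancel_right₀ _ ht.ne']
  have h4 : ∫ x, ((2 : ℕ) + 2 : ℝ) * pr y t x ^ (2 + 1) * (2 * (‖x - y‖ ^ 2 / t ^ 2) / t) * k x =
      (∫ z, 8 * (‖z - y‖ ^ 2 / t ^ 2) * pr y t z ^ 3 * k z) / t := by
    rw [← integral_div]
    refine integral_congr_ae (Eventually.of_forall fun x => ?_)
    push_cast
    ring
  refine (h2.fun_mul h1).congr_deriv ?_
  rw [h3, h4, parts_molb hk y ht]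
  have h5 := (pow_pos ht m).ne'
  have h6 := ht.ne'
  field_simp
  ring

theorem bound_molb {k : E m → ℝ} {K : ℝ≥0} (hk : LipschitzWith K k) {F : E m → E m}
    {Ω : Set (E m)} (hF : IntegrableOn F Ω) (hd : DivFree (fun y => gradient k y - F y) Ω)
    {y : E m} {t : ℝ} (ht : 0 < t) (hΩ : closedBall y t ⊆ Ω) :
    |∫ z, pr y t z ^ 4 * ⟪gradient k z, z - y⟫| ≤ t * ∫ z in Ω, ‖F z‖ := by
  have hp := continuous_pr y t
  have hc5 : ContDiff ℝ 1 fun x => pr y t x ^ 5 := contDiff_pow_cut y t 3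
  have hs : tsupport (fun x => pr y t x ^ 5) ⊆ closedBall y t :=
    supp_cut fun x hx => by simp [pr_eq_zero ht hx]
  have h0 := hd _ hc5.locallyLipschitz
    ((isCompact_closedBall y t).of_isClosed_subset (isClosed_tsupport _) hs) (hs.trans hΩ)
  have hb : ball y t ⊆ Ω := ball_subset_closedBall.trans hΩ
  have hF' : IntegrableOn F (ball y t) := hF.mono_set hb
  have hz : ∀ z, z ∉ ball y t → pr y t z ^ 4 * ⟪F z, z - y⟫ = 0 := fun x hx => by
    simp [pr_eq_zero ht hx]
  have hle : ∀ᵐ z ∂(volume.restrict (ball y t)), ‖pr y t z ^ 4 * ⟪F z, z - y⟫‖ ≤ t * ‖F z‖ := by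
    filter_upwards [ae_restrict_mem measurableSet_ball] with z hz
    have h1 : pr y t z ^ 4 ≤ 1 := pow_le_one₀ (pr_nonneg _ _ _) (pr_le_one _ _ _)
    rw [norm_mul, Real.norm_of_nonneg (pow_nonneg (pr_nonneg _ _ _) 4), mul_comm t]
    refine (mul_le_of_le_one_left (norm_nonneg _) h1).trans ((norm_inner_le_norm _ _).trans ?_)
    exact mul_le_mul_of_nonneg_left (mem_ball_iff_norm.1 hz).le (norm_nonneg _)
  have i2 : IntegrableOn (fun z => pr y t z ^ 4 * ⟪F z, z - y⟫) (ball y t) :=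
    (hF'.norm.const_mul t).mono' ((hp.pow 4).aestronglyMeasurable.mul
      (hF'.aestronglyMeasurable.inner (continuous_id.sub continuous_const).aestronglyMeasurable))
      hle
  have h1 : ∀ z, ⟪gradient k z - F z, gradient (fun x => pr y t x ^ 5) z⟫ = -(10 / t ^ 2) *
      (pr y t z ^ 4 * ⟪gradient k z, z - y⟫ - pr y t z ^ 4 * ⟪F z, z - y⟫) := by
    intro z
    rw [grad_pow_molb y t 3 z, real_inner_smul_right, inner_sub_left]
    push_cast
    ring
  simp only [h1] at h0
  rw [integral_const_mul, integral_sub (int_grad_molb hk y ht)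
    (i2.integrable_of_forall_notMem_eq_zero hz), mul_eq_zero, sub_eq_zero] at h0
  have h2 : -(10 / t ^ 2) ≠ 0 := neg_ne_zero.2 (by positivity)
  rw [h0.resolve_left h2, ← setIntegral_eq_integral_of_forall_compl_eq_zero hz]
  refine (norm_integral_le_of_norm_le (hF'.norm.const_mul t) hle).trans ?_
  rw [integral_const_mul]
  exact mul_le_mul_of_nonneg_left (setIntegral_mono_set hF.norm
    (Eventually.of_forall fun z => norm_nonneg _) hb.eventuallyLE) ht.le

theorem mol_scale {k : E m → ℝ} {K : ℝ≥0} (hk : LipschitzWith K k) {F : E m → E m}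
    {Ω : Set (E m)} (hF : IntegrableOn F Ω) (hd : DivFree (fun y => gradient k y - F y) Ω)
    {y : E m} {t₀ t₁ : ℝ} (h₀ : 0 < t₀) (h₀₁ : t₀ ≤ t₁) (hΩ : closedBall y t₁ ⊆ Ω) :
    |mol t₁ k y - mol t₀ k y| ≤ cm m * t₁ / t₀ ^ m * ∫ z in Ω, ‖F z‖ := by
  have hc := cm_pos m
  have hI : 0 ≤ ∫ z in Ω, ‖F z‖ := integral_nonneg fun z => norm_nonneg _
  have h := norm_image_sub_le_of_norm_deriv_le_segment' (C := cm m / t₀ ^ m * ∫ z in Ω, ‖F z‖)
    (fun t (ht : t ∈ Icc t₀ t₁) => (der_molb hk y (h₀.trans_le ht.1)).hasDerivWithinAt)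
    (fun t ht => by
      have ht0 := h₀.trans_le ht.1
      have h1 := bound_molb hk hF hd ht0 ((closedBall_subset_closedBall ht.2.le).trans hΩ)
      rw [norm_mul, Real.norm_of_nonneg (by positivity), Real.norm_eq_abs]
      refine (mul_le_mul_of_nonneg_left h1 (by positivity)).trans ?_
      rw [← mul_assoc, div_mul_cancel₀ _ ht0.ne']
      gcongr
      exact ht.1) t₁ ⟨h₀₁, le_rfl⟩
  refine h.trans ?_
  have h2 : 0 ≤ cm m / t₀ ^ m * (∫ z in Ω, ‖F z‖) * t₀ := by positivity
  have h3 : cm m * t₁ / t₀ ^ m * ∫ z in Ω, ‖F z‖ =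
      cm m / t₀ ^ m * (∫ z in Ω, ‖F z‖) * t₁ := by ring
  rw [h3, mul_sub]
  linarith

end Pool.Agent.Lib.MP_8daebb_an.LG
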