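import Pool.Agent.Lib.MP_8daebb_an.LG.Base

open MeasureTheory Metric Set Filter Topology
open scoped RealInnerProductSpace NNReal

namespace Pool.Agent.Lib.MP_8daebb_an.LG

variable {m : ℕ} {ι : Type}

/-! ODEA. The frequency does not drop while it is small. -/

lemma algA_odeA {B d h t t₀ ρ β : ℝ} (hB : 0 < B) (hh : 0 < h) (hd : 0 ≤ d)
    (hs : 8 * (1 + B) * d ≤ h) (h1 : t ^ 2 ≤ h * ρ) (h2 : d / 2 ≤ t) (h3 : t ≤ d)
    (h4 : t₀ ≤ t + β * (ρ + d)) (h5 : 0 ≤ β) (h6 : β ≤ B) :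
    2 * t₀ * d - h * (2 * ρ + 2 * (d - t)) ≤ 4 * β * d ^ 2 := by
  have ht0 : 0 ≤ t := by linarith
  have hBd : 0 ≤ B * d := mul_nonneg hB.le hd
  have hdh : d ≤ h := by nlinarith
  have hb : β * d ≤ h := by
    have : β * d ≤ B * d := mul_le_mul_of_nonneg_right h6 hd
    nlinarith
  have e1 : t ^ 2 * (h - β * d) ≤ h * ρ * (h - β * d) :=
    mul_le_mul_of_nonneg_right h1 (by linarith)
  have e2 : t ^ 2 ≤ d * h := by
    have : t * t ≤ d * h := mul_le_mul h3 (h3.trans hdh) ht0 hd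
    nlinarith
  have e3 : β * d * t ^ 2 ≤ β * d * (d * h) := mul_le_mul_of_nonneg_left e2 (mul_nonneg h5 hd)
  have e4 : t ^ 2 - β * d ^ 2 ≤ ρ * (h - β * d) := by
    have : h * (t ^ 2 - β * d ^ 2) ≤ h * (ρ * (h - β * d)) := by nlinarith
    exact le_of_mul_le_mul_left this hh
  have e5 : t₀ * d ≤ (t + β * (ρ + d)) * d := mul_le_mul_of_nonneg_right h4 hd
  have e6 : 0 ≤ (d - t) * (h - t) := mul_nonneg (by linarith) (by linarith)
  nlinarith

lemma algB_odeA {B d h t t₀ ρ β : ℝ} (hB : 0 < B) (hh : 0 < h) (hd : 0 ≤ d) (hρ : 0 ≤ ρ)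
    (hs : 8 * (1 + B) * d ≤ h) (h3 : t ≤ d)
    (h4 : t₀ ≤ t + β * (ρ + d)) (h6 : β ≤ B) :
    2 * t₀ * h - 2 * B * ((2 * ρ + 2 * (d - t)) * h - d * (2 * t₀)) ≤ h ^ 2 := by
  have hBd : 0 ≤ B * d := mul_nonneg hB.le hd
  have e1 : t₀ ≤ d + B * (ρ + d) := by
    have : β * (ρ + d) ≤ B * (ρ + d) := mul_le_mul_of_nonneg_right h6 (by linarith)
    linarith
  have e2 : h + 2 * (B * d) ≤ 5 / 4 * h := by nlinarith
  have e0 : 0 ≤ d + B * (ρ + d) := by positivity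
  have e3 : t₀ * (h + 2 * (B * d)) ≤ (d + B * (ρ + d)) * (5 / 4 * h) :=
    (mul_le_mul_of_nonneg_right e1 (by linarith)).trans (mul_le_mul_of_nonneg_left e2 e0)
  have e4 : 0 ≤ B * h * (d - t) := mul_nonneg (mul_nonneg hB.le hh.le) (by linarith)
  have e5 : 0 ≤ B * h * ρ := mul_nonneg (mul_nonneg hB.le hh.le) hρ
  have e6 : 8 * (1 + B) * d * h ≤ h * h := mul_le_mul_of_nonneg_right hs hh.le
  nlinarith

lemma anti_odeA {f f' : ℝ → ℝ} {a b : ℝ} (hab : a ≤ b)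
    (hf : ∀ x ∈ Icc a b, HasDerivAt f (f' x) x) (hf' : ∀ x ∈ Ioo a b, f' x ≤ 0) : f b ≤ f a := by
  have h : AntitoneOn f (Icc a b) := by
    refine antitoneOn_of_deriv_nonpos (convex_Icc a b)
      (fun x hx => (hf x hx).continuousAt.continuousWithinAt) ?_ ?_
    · intro x hx
      exact (hf x (interior_subset hx)).differentiableAt.differentiableWithinAt
    · intro x hx
      rw [(hf x (interior_subset hx)).deriv]
      exact hf' x (by simpa using hx)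
  exact h (left_mem_Icc.mpr hab) (right_mem_Icc.mpr hab) hab

theorem odeA {n : ℕ} (hn : 0 < n) {B C₁ : ℝ} (hB : 0 < B) (hC₁ : 0 < C₁) :
    ∃ C > 0, ∀ (d h t t₀ ρ β : ℝ → ℝ) (r₀ R : ℝ), 0 ≤ r₀ →
      (∀ r, 0 < r → r₀ ≤ r → r < R →
        HasDerivAt d ((2 * ρ r + 2 * (d r - t r)) / r) r ∧ HasDerivAt h (2 * t₀ r / r) r ∧
        0 ≤ ρ r ∧ 0 ≤ d r ∧ 0 ≤ h r ∧ t r ^ 2 ≤ h r * ρ r ∧ d r / 2 ≤ t r ∧ t r ≤ d r ∧
        |t₀ r - t r| ≤ β r * (ρ r + d r) ∧ 0 ≤ β r ∧ β r ≤ B ∧ h r ≤ B * r ^ 2 ∧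
        (2 * r < R → β r ^ n ≤ C₁ * h (2 * r) / r ^ 2)) →
      (0 < r₀ → h r₀ ≤ B * d r₀) → ∀ r, 0 < r → r₀ ≤ r → r < R → h r ≤ C * d r := by
  have hnr : (0 : ℝ) < n := by exact_mod_cast hn
  obtain ⟨a, ha⟩ : ∃ a : ℝ, a = (n : ℝ)⁻¹ := ⟨_, rfl⟩
  have ha0 : 0 < a := by rw [ha]; positivity
  obtain ⟨K, hK⟩ : ∃ K : ℝ, K = (4 * C₁ * B) ^ a := ⟨_, rfl⟩
  have hK0 : 0 < K := by rw [hK]; positivity
  obtain ⟨A, hA⟩ : ∃ A : ℝ, A = 8 * (1 + B) := ⟨_, rfl⟩
  have hA0 : 0 < A := by rw [hA]; positivity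
  refine ⟨A + 4 * K / a + 4 * B, by positivity, ?_⟩
  intro d h t t₀ ρ β r₀ R hr₀ H hstart r₂ hr₂ hr₀₂ hr₂R
  have hd₂ : 0 ≤ d r₂ := (H r₂ hr₂ hr₀₂ hr₂R).2.2.2.1
  by_cases hsm : h r₂ ≤ A * d r₂
  · have : 0 ≤ (4 * K / a + 4 * B) * d r₂ := by positivity
    linarith
  push Not at hsm
  -- the last radius where the frequency is not small
  let S : Set ℝ := {s | r₀ ≤ s ∧ s ≤ r₂ ∧ ∀ r, s < r → r ≤ r₂ → A * d r < h r}
  have hS₂ : r₂ ∈ S := ⟨hr₀₂, le_rfl, fun r h1 h2 => absurd h1 (not_lt.mpr h2)⟩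
  have hSb : BddBelow S := ⟨r₀, fun s hs => hs.1⟩
  obtain ⟨r₁, hr₁⟩ : ∃ r₁, r₁ = sInf S := ⟨_, rfl⟩
  have h01 : r₀ ≤ r₁ := hr₁ ▸ le_csInf ⟨r₂, hS₂⟩ fun s hs => hs.1
  have h12 : r₁ ≤ r₂ := hr₁ ▸ csInf_le hSb hS₂
  have hr₁0 : 0 ≤ r₁ := hr₀.trans h01
  have hsmall : ∀ r, r₁ < r → r ≤ r₂ → A * d r < h r := by
    intro r h1 h2
    rw [hr₁] at h1
    obtain ⟨s, hs, hsr⟩ := exists_lt_of_csInf_lt ⟨r₂, hS₂⟩ h1
    exact hs.2.2 r hsr h2
  have HH := fun r (h1 : r₁ < r) (h2 : r ≤ r₂) =>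
    H r (lt_of_le_of_lt hr₁0 h1) (h01.trans h1.le) (lt_of_le_of_lt h2 hr₂R)
  have hpos : ∀ r, r₁ < r → r ≤ r₂ → 0 < h r := fun r h1 h2 =>
    lt_of_le_of_lt (mul_nonneg hA0.le (HH r h1 h2).2.2.2.1) (hsmall r h1 h2)
  -- growth of `h`
  have hgrow : ∀ r' r, r₁ < r' → r' ≤ r → r ≤ r₂ → h r * r' ≤ 2 * r * h r' := by
    intro r' r h1 h2 h3
    have hr' : 0 < r' := lt_of_le_of_lt hr₁0 h1
    have hr : 0 < r := lt_of_lt_of_le hr' h2
    have key := anti_odeA (f := fun x => Real.log (h x) - 2 * B * (d x / h x) - Real.log x)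
      (f' := fun x => (2 * t₀ x / x) / h x - 2 * B *
        ((((2 * ρ x + 2 * (d x - t x)) / x) * h x - d x * (2 * t₀ x / x)) / h x ^ 2) - x⁻¹) h2
      (fun x hx => by
        have hx1 : r₁ < x := lt_of_lt_of_le h1 hx.1
        have hx2 : x ≤ r₂ := hx.2.trans h3
        obtain ⟨q1, q2, -⟩ := HH x hx1 hx2
        have q3 := (hpos x hx1 hx2).ne'
        exact ((q2.log q3).sub ((q1.div q2 q3).const_mul (2 * B))).sub
          (Real.hasDerivAt_log (lt_of_le_of_lt hr₁0 hx1).ne'))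
      (fun x hx => by
        have hx1 : r₁ < x := lt_trans h1 hx.1
        have hx2 : x ≤ r₂ := hx.2.le.trans h3
        have hx0 : 0 < x := lt_of_le_of_lt hr₁0 hx1
        obtain ⟨-, -, q1, q2, -, -, -, q3, q4, -, q5, -⟩ := HH x hx1 hx2
        have q6 := hpos x hx1 hx2
        have q7 := algB_odeA (t₀ := t₀ x) hB q6 q2 q1 (hA ▸ (hsmall x hx1 hx2).le) q3
          (by linarith [(abs_le.mp q4).2]) q5
        have q8 : (2 * t₀ x / x) / h x - 2 * B *
            ((((2 * ρ x + 2 * (d x - t x)) / x) * h x - d x * (2 * t₀ x / x)) / h x ^ 2) - x⁻¹ =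
            (2 * t₀ x * h x - 2 * B * ((2 * ρ x + 2 * (d x - t x)) * h x - d x * (2 * t₀ x))
              - h x ^ 2) / (x * h x ^ 2) := by
          field_simp
        rw [q8]
        exact div_nonpos_of_nonpos_of_nonneg (by linarith) (by positivity))
    have p1 := hpos r (lt_of_lt_of_le h1 h2) h3
    have p2 := hpos r' h1 (h2.trans h3)
    have p3 : 0 ≤ 2 * B * (d r' / h r') := by
      have := (HH r' h1 (h2.trans h3)).2.2.2.1
      positivity
    have p4 : 2 * B * (d r / h r) ≤ 1 / 4 := by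
      have q1 := hsmall r (lt_of_lt_of_le h1 h2) h3
      have q2 := (HH r (lt_of_lt_of_le h1 h2) h3).2.2.2.1
      rw [← mul_div_assoc, div_le_iff₀ p1]
      rw [hA] at q1
      nlinarith
    have p5 : (1 : ℝ) / 4 ≤ Real.log 2 := by linarith [Real.log_two_gt_d9]
    rw [← Real.log_le_log_iff (by positivity) (by positivity), Real.log_mul p1.ne' hr'.ne',
      Real.log_mul (by positivity) p2.ne', Real.log_mul (by norm_num) hr.ne']
    linarith
  have hh₂ : 0 < h r₂ := lt_of_le_of_lt (mul_nonneg hA0.le hd₂) hsm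
  rcases hr₁0.eq_or_lt with h0 | hr₁pos
  · -- `r₁ = 0` is impossible
    exfalso
    obtain ⟨s, hs⟩ : ∃ s, s = min r₂ (h r₂ / (4 * B * r₂)) := ⟨_, rfl⟩
    have hs0 : 0 < s := hs ▸ lt_min hr₂ (by positivity)
    have hs1 : s ≤ r₂ := hs ▸ min_le_left _ _
    have hs2 : s ≤ h r₂ / (4 * B * r₂) := hs ▸ min_le_right _ _
    have q1 := hgrow s r₂ (h0 ▸ hs0) hs1 le_rfl
    have q2 : h s ≤ B * s ^ 2 := (HH s (h0 ▸ hs0) hs1).2.2.2.2.2.2.2.2.2.2.2.1
    rw [le_div_iff₀ (by positivity)] at hs2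
    have q3 : 2 * r₂ * h s ≤ 2 * r₂ * (B * s ^ 2) := mul_le_mul_of_nonneg_left q2 (by positivity)
    have q4 : s * (s * (4 * B * r₂)) ≤ s * h r₂ := mul_le_mul_of_nonneg_left hs2 hs0.le
    have q5 : 0 < s * h r₂ := mul_pos hs0 hh₂
    nlinarith
  have H₁ := H r₁ hr₁pos h01 (lt_of_le_of_lt h12 hr₂R)
  have hbig : h r₁ ≤ A * d r₁ := by
    rcases h01.eq_or_lt with h0 | h0
    · have q1 := hstart (h0 ▸ hr₁pos)
      rw [h0] at q1
      have q2 := H₁.2.2.2.1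
      rw [hA]
      nlinarith
    · by_contra hc
      push Not at hc
      have q1 : ∀ᶠ x in 𝓝 r₁, A * d x < h x :=
        (H₁.1.continuousAt.const_mul A).eventually_lt H₁.2.1.continuousAt hc
      obtain ⟨ε, hε, q2⟩ := Metric.eventually_nhds_iff.mp q1
      have q3 : max r₀ (r₁ - ε / 2) ∈ S := by
        refine ⟨le_max_left _ _, max_le hr₀₂ (by linarith), fun r h1 h2 => ?_⟩
        rcases le_or_gt r r₁ with h3 | h3
        · apply q2
          have := lt_of_le_of_lt (le_max_right _ _) h1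
          rw [Real.dist_eq, abs_lt]
          constructor <;> linarith
        · exact hsmall r h3 h2
      have q4 := csInf_le hSb q3
      rw [← hr₁] at q4
      exact absurd q4 (not_le.mpr (max_lt h0 (by linarith)))
  have h12' : r₁ < r₂ := by
    rcases h12.eq_or_lt with h0 | h0
    · rw [h0] at hbig; linarith
    · exact h0
  have hgrow₁ : ∀ r, r₁ < r → r ≤ r₂ → h r * r₁ ≤ 2 * r * h r₁ := by
    intro r h1 h2
    have q1 : Tendsto (fun x => h r * x) (𝓝[>] r₁) (𝓝 (h r * r₁)) :=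
      ((continuousAt_id.const_mul (h r)).tendsto).mono_left nhdsWithin_le_nhds
    have q2 : Tendsto (fun x => 2 * r * h x) (𝓝[>] r₁) (𝓝 (2 * r * h r₁)) :=
      ((H₁.2.1.continuousAt.const_mul (2 * r)).tendsto).mono_left nhdsWithin_le_nhds
    refine le_of_tendsto_of_tendsto q1 q2 ?_
    filter_upwards [Ioo_mem_nhdsGT h1] with x hx
    exact hgrow x r hx.1 hx.2.le h2
  have hh₁ : 0 < h r₁ := by
    have q1 := hgrow₁ r₂ h12' le_rfl
    have q2 : 0 < h r₂ * r₁ := mul_pos hh₂ hr₁pos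
    by_contra hc
    push Not at hc
    nlinarith
  have hd₁ : 0 < d r₁ := by
    by_contra hc
    push Not at hc
    nlinarith
  have HI := fun r (h1 : r₁ ≤ r) (h2 : r ≤ r₂) =>
    H r (lt_of_lt_of_le hr₁pos h1) (h01.trans h1) (lt_of_le_of_lt h2 hr₂R)
  have hdpos : ∀ r, r₁ ≤ r → r ≤ r₂ → 0 < d r := by
    intro r h1 h2
    have key := anti_odeA (f := fun x => - d x)
      (f' := fun x => - ((2 * ρ x + 2 * (d x - t x)) / x)) h1
      (fun x hx => (HI x hx.1 (hx.2.trans h2)).1.neg)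
      (fun x hx => by
        obtain ⟨-, -, q1, -, -, -, -, q3, -⟩ := HI x hx.1.le (hx.2.le.trans h2)
        have hx0 : 0 < x := lt_trans hr₁pos hx.1
        have : 0 ≤ (2 * ρ x + 2 * (d x - t x)) / x := div_nonneg (by linarith) hx0.le
        linarith)
    linarith
  -- the quotient `h / d`
  let M' : ℝ → ℝ := fun x =>
    ((2 * t₀ x / x) * d x - h x * ((2 * ρ x + 2 * (d x - t x)) / x)) / d x ^ 2
  have hM : ∀ x, r₁ ≤ x → x ≤ r₂ → HasDerivAt (fun x => h x / d x) (M' x) x := fun x h1 h2 =>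
    (HI x h1 h2).2.1.div (HI x h1 h2).1 (hdpos x h1 h2).ne'
  have hM' : ∀ x, r₁ < x → x ≤ r₂ → M' x ≤ 4 * β x / x := by
    intro x h1 h2
    have hx0 : 0 < x := lt_trans hr₁pos h1
    obtain ⟨-, -, -, q2, -, q3, q4, q5, q6, q7, q8, -⟩ := HH x h1 h2
    have q9 := algA_odeA (t₀ := t₀ x) hB (hpos x h1 h2) q2 (hA ▸ (hsmall x h1 h2).le) q3 q4 q5
      (by linarith [(abs_le.mp q6).2]) q7 q8
    have q10 := hdpos x h1.le h2
    have q11 : M' x = (2 * t₀ x * d x - h x * (2 * ρ x + 2 * (d x - t x))) / d x ^ 2 / x := by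
      simp only [M']
      field_simp
    rw [q11]
    refine div_le_div_of_nonneg_right ?_ hx0.le
    rw [div_le_iff₀ (by positivity)]
    exact q9
  have hβ : ∀ x, r₁ < x → 2 * x ≤ r₂ → β x ≤ K * r₁ ^ a * x ^ (-a) := by
    intro x h1 h2
    have hx0 : 0 < x := lt_trans hr₁pos h1
    obtain ⟨-, -, -, -, -, -, -, -, -, q7, -, -, q8⟩ := HH x h1 (by linarith)
    have q1 := q8 (lt_of_le_of_lt h2 hr₂R)
    have q2 := hgrow₁ (2 * x) (by linarith) h2
    have q3 : h r₁ ≤ B * r₁ ^ 2 := H₁.2.2.2.2.2.2.2.2.2.2.2.1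
    have q4 : h (2 * x) ≤ 4 * x * B * r₁ := by
      have q5 : 2 * (2 * x) * h r₁ ≤ 2 * (2 * x) * (B * r₁ ^ 2) :=
        mul_le_mul_of_nonneg_left q3 (by positivity)
      have q6 : h (2 * x) * r₁ ≤ 4 * x * B * r₁ * r₁ := by nlinarith
      exact le_of_mul_le_mul_right q6 hr₁pos
    have q5 : β x ^ n ≤ 4 * C₁ * B * r₁ * x⁻¹ := by
      calc β x ^ n ≤ C₁ * h (2 * x) / x ^ 2 := q1
        _ ≤ C₁ * (4 * x * B * r₁) / x ^ 2 :=
          div_le_div_of_nonneg_right (mul_le_mul_of_nonneg_left q4 hC₁.le) (by positivity)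
        _ = 4 * C₁ * B * r₁ * x⁻¹ := by field_simp
    calc β x = (β x ^ n) ^ a := by rw [ha, Real.pow_rpow_inv_natCast q7 hn.ne']
      _ ≤ (4 * C₁ * B * r₁ * x⁻¹) ^ a := Real.rpow_le_rpow (by positivity) q5 ha0.le
      _ = K * r₁ ^ a * x ^ (-a) := by
        rw [Real.mul_rpow (by positivity) (by positivity),
          Real.mul_rpow (by positivity) (by positivity), hK, Real.inv_rpow hx0.le,
          Real.rpow_neg hx0.le]
  obtain ⟨s, hs⟩ : ∃ s, s = max r₁ (r₂ / 2) := ⟨_, rfl⟩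
  have hs1 : r₁ ≤ s := hs ▸ le_max_left _ _
  have hs2 : r₂ / 2 ≤ s := hs ▸ le_max_right _ _
  have hs3 : s ≤ r₂ := hs ▸ max_le h12 (by linarith)
  have hs0 : 0 < s := lt_of_lt_of_le hr₁pos hs1
  have k1 : h s / d s ≤ h r₁ / d r₁ + 4 * K / a := by
    have key := anti_odeA (f := fun x => h x / d x + 4 * K / a * r₁ ^ a * x ^ (-a))
      (f' := fun x => M' x + 4 * K / a * r₁ ^ a * (-a * x ^ (-a - 1))) hs1
      (fun x hx => (hM x hx.1 (hx.2.trans hs3)).add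
        ((Real.hasDerivAt_rpow_const (Or.inl (lt_of_lt_of_le hr₁pos hx.1).ne')).const_mul _))
      (fun x hx => by
        have hx0 : 0 < x := lt_trans hr₁pos hx.1
        have hx2 : 2 * x ≤ r₂ := by
          have q := hx.2
          rw [hs, lt_max_iff] at q
          rcases q with q | q
          · exact absurd hx.1 (not_lt.mpr q.le)
          · linarith
        have q1 := hM' x hx.1 (by linarith)
        have q2 := hβ x hx.1 hx2
        have q3 : 4 * K / a * r₁ ^ a * (-a * x ^ (-a - 1)) = - (4 * (K * r₁ ^ a * x ^ (-a)) / x) := by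
          rw [Real.rpow_sub_one hx0.ne']
          field_simp
        have q4 : 4 * β x / x ≤ 4 * (K * r₁ ^ a * x ^ (-a)) / x :=
          div_le_div_of_nonneg_right (by linarith) hx0.le
        rw [q3]
        linarith)
    have q1 : 4 * K / a * r₁ ^ a * r₁ ^ (-a) = 4 * K / a := by
      rw [mul_assoc, ← Real.rpow_add hr₁pos, add_neg_cancel, Real.rpow_zero, mul_one]
    have q2 : 0 ≤ 4 * K / a * r₁ ^ a * s ^ (-a) := by positivity
    linarith
  have k2 : h r₂ / d r₂ ≤ h s / d s + 4 * B := by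
    have key := anti_odeA (f := fun x => h x / d x - 4 * B / s * x)
      (f' := fun x => M' x - 4 * B / s * 1) hs3
      (fun x hx => (hM x (hs1.trans hx.1) hx.2).sub ((hasDerivAt_id x).const_mul _))
      (fun x hx => by
        have hx1 : r₁ < x := lt_of_le_of_lt hs1 hx.1
        have hx0 : 0 < x := lt_trans hr₁pos hx1
        have q1 := hM' x hx1 hx.2.le
        obtain ⟨-, -, -, -, -, -, -, -, -, -, q8, -⟩ := HH x hx1 hx.2.le
        have q2 : 4 * β x / x ≤ 4 * B / s :=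
          div_le_div₀ (by positivity) (by linarith) hs0 hx.1.le
        linarith)
    have q1 : 4 * B / s * s = 4 * B := by field_simp
    have q2 : 4 * B / s * r₂ ≤ 4 * B / s * (2 * s) :=
      mul_le_mul_of_nonneg_left (by linarith) (by positivity)
    linarith
  have k3 : h r₁ / d r₁ ≤ A := by rw [div_le_iff₀ hd₁]; exact hbig
  rw [← div_le_iff₀ (hdpos r₂ h12 le_rfl)]
  linarith

end Pool.Agent.Lib.MP_8daebb_an.LG
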