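import Pool.Agent.Lib.MP_8daebb_an.LG.KeyM

open MeasureTheory Metric Set Filter Topology
open scoped RealInnerProductSpace NNReal

namespace Pool.Agent.Lib.MP_8daebb_an.LG

variable {m : ℕ} {ι : Type}

/-! ODEB1. Almost monotonicity of the frequency on an interval. -/

theorem norm_odeb1 {c K ξ u n p x a b : ℝ} (hc : 0 ≤ c) (hK : 1 ≤ K) (hξ : ξ ≤ 1 / 32)
    (hb : b ≤ 2 * u + c + x) (hu1 : u - n ≤ x) (hu2 : n - u ≤ x) (hp : u ^ 2 ≤ (1 + x) * p)
    (hp0 : 0 ≤ p) (ha : 2 * p - c * n - x ≤ a) (hn0 : 0 ≤ n) (hn : n ≤ K) (hx0 : 0 ≤ x)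
    (hx : x ≤ ξ) : 0 ≤ (a - n * b) + (n + 1) * (2 * c + 8 * ξ * K ^ 2) := by
  have hξ0 : 0 ≤ ξ := hx0.trans hx
  have hKK : K ≤ K ^ 2 := by nlinarith
  have h1 : u ^ 2 * (1 - x) ≤ p := by
    have := mul_le_mul_of_nonneg_right hp (by linarith : 0 ≤ 1 - x)
    nlinarith [mul_nonneg hp0 (sq_nonneg x)]
  have h2 : n * b ≤ n * (2 * u + c + x) := mul_le_mul_of_nonneg_left hb hn0
  have h3 : |u| ≤ 33 / 32 * K := abs_le.mpr ⟨by linarith, by linarith⟩
  have h4 : u ^ 2 ≤ (33 / 32 * K) ^ 2 := by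
    rw [← sq_abs]
    exact pow_le_pow_left₀ (abs_nonneg _) h3 2
  have h5 : -(33 / 32 * K * x) ≤ u * (u - n) := by
    have h6 : |u * (u - n)| ≤ 33 / 32 * K * x := by
      rw [abs_mul]
      exact mul_le_mul h3 (abs_le.mpr ⟨by linarith, hu1⟩) (abs_nonneg _) (by linarith)
    exact (abs_le.mp h6).1
  have h7 : u ^ 2 * x ≤ (33 / 32 * K) ^ 2 * x := mul_le_mul_of_nonneg_right h4 hx0
  have h8 : K * x ≤ K ^ 2 * x := mul_le_mul_of_nonneg_right hKK hx0
  have h9 : n * x ≤ K * x := mul_le_mul_of_nonneg_right hn hx0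
  have h10 : x ≤ K * x := le_mul_of_one_le_left hx0 hK
  have h11 : K ^ 2 * x ≤ K ^ 2 * ξ := mul_le_mul_of_nonneg_left hx (sq_nonneg K)
  have h12 : 0 ≤ n * (ξ * K ^ 2) := by positivity
  have h13 : 0 ≤ K ^ 2 * ξ := by positivity
  nlinarith

theorem point_odeb1 {C r K ξ d h d1 h1 e A : ℝ} (hc : 0 ≤ C * r) (hc1 : C * r ≤ 1 / 8)
    (hK : 1 ≤ K) (hξ : ξ ≤ 1 / 32) (H : KeyAt C r d h d1 h1 e A) (hh : 0 < h) (hd : 0 ≤ d)
    (hdK : d ≤ K * h) (he0 : 0 ≤ e) (he : e ≤ ξ * h) :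
    h1 / h ≤ 3 * K ∧
      0 ≤ (d1 / h - d / h * (h1 / h)) + (d / h + 1) * (2 * (C * r) + 8 * ξ * K ^ 2) := by
  obtain ⟨U, ρ, k1, k2, k3, k4, -, k6⟩ := H
  rw [abs_le] at k1 k2
  have hKh : h ≤ K * h := le_mul_of_one_le_left hh.le hK
  have e1 : ξ * h ≤ 1 / 32 * h := mul_le_mul_of_nonneg_right hξ hh.le
  have e2 : C * r * h ≤ 1 / 8 * h := mul_le_mul_of_nonneg_right hc1 hh.le
  refine ⟨by rw [div_le_iff₀ hh]; linarith [k1.2, k2.2], ?_⟩
  refine norm_odeb1 (u := U / h) (p := ρ / h) (x := e / h) hc hK hξ ?_ ?_ ?_ ?_ (by positivity) ?_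
    (by positivity) (by rwa [div_le_iff₀ hh]) (by positivity) (by rwa [div_le_iff₀ hh])
  · rw [div_le_iff₀ hh]
    have : (2 * (U / h) + C * r + e / h) * h = 2 * U + C * r * h + e := by field_simp
    linarith [k1.2]
  · rw [← sub_div]
    exact div_le_div_of_nonneg_right k2.2 hh.le
  · rw [← sub_div]
    exact div_le_div_of_nonneg_right (by linarith [k2.1]) hh.le
  · have : (1 + e / h) * (ρ / h) = (h + e) * ρ / h ^ 2 := by field_simp
    rw [this, div_pow]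
    exact div_le_div_of_nonneg_right k3 (by positivity)
  · rw [le_div_iff₀ hh]
    have : (2 * (ρ / h) - C * r * (d / h) - e / h) * h = 2 * ρ - C * r * d - e := by field_simp
    linarith

theorem mono_odeb1 {f f' : ℝ → ℝ} {a b : ℝ} (hf : ∀ r ∈ Icc a b, HasDerivAt f (f' r) r)
    (h0 : ∀ r ∈ Icc a b, 0 ≤ f' r) : MonotoneOn f (Icc a b) :=
  monotoneOn_of_deriv_nonneg (convex_Icc a b)
    (fun r hr => (hf r hr).continuousAt.continuousWithinAt)
    (fun r hr => (hf r (interior_subset hr)).differentiableAt.differentiableWithinAt)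
    fun r hr => by
      rw [(hf r (interior_subset hr)).deriv]
      exact h0 r (interior_subset hr)

theorem odeB1 {C γ K ξ₀ t R : ℝ} {d h d1 h1 e A : ℝ → ℝ} (hC : 0 ≤ C) (hγ : 0 < γ) (hγ1 : γ ≤ 1)
    (hK : 1 ≤ K) (ht : 0 < t) (hR1 : R ≤ 1) (hCR : C * R ≤ 1 / 8) (hξ0 : 0 ≤ ξ₀)
    (hξ : 8 * ξ₀ * K ^ 2 ≤ γ / 4)
    (H : ∀ r ∈ Icc t R, HasDerivAt d (d1 r / r) r ∧ HasDerivAt h (h1 r / r) r ∧
      KeyAt C r (d r) (h r) (d1 r) (h1 r) (e r) (A r) ∧ 0 < h r ∧ 0 ≤ d r ∧ d r ≤ K * h r ∧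
      0 ≤ e r ∧ e r ≤ ξ₀ * r ^ γ * h r) :
    (∀ r₁ r₂, t ≤ r₁ → r₁ ≤ r₂ → r₂ ≤ R → h r₂ * r₁ ^ (3 * K) ≤ h r₁ * r₂ ^ (3 * K)) ∧
      ∀ r ∈ Icc t R, d r / h r + 1 ≤ 2 * (d R / h R + 1) := by
  have hξ1 : ξ₀ ≤ 1 / 32 := by
    have : ξ₀ * 1 ≤ ξ₀ * K ^ 2 := mul_le_mul_of_nonneg_left (by nlinarith) hξ0
    linarith
  have hpow : ∀ r, 0 ≤ r → r ≤ R → r ^ γ ≤ 1 := fun r h0 h1 =>
    Real.rpow_le_one h0 (h1.trans hR1) hγ.le
  have P : ∀ r ∈ Icc t R, h1 r / h r ≤ 3 * K ∧ 0 ≤ (d1 r / h r - d r / h r * (h1 r / h r)) +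
      (d r / h r + 1) * (2 * (C * r) + 8 * (ξ₀ * r ^ γ) * K ^ 2) := by
    intro r hr
    obtain ⟨-, -, k3, k4, k5, k6, k7, k8⟩ := H r hr
    have hr0 : 0 < r := ht.trans_le hr.1
    exact point_odeb1 (by positivity) ((mul_le_mul_of_nonneg_left hr.2 hC).trans hCR) hK
      ((mul_le_of_le_one_right hξ0 (hpow r hr0.le hr.2)).trans hξ1) k3 k4 k5 k6 k7 k8
  constructor
  · have M := mono_odeb1 (f := fun r => 3 * K * Real.log r - Real.log (h r))
      (f' := fun r => 3 * K * r⁻¹ - h1 r / r / h r) (a := t) (b := R)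
      (fun r hr => ((Real.hasDerivAt_log (ht.trans_le hr.1).ne').const_mul (3 * K)).sub
        ((H r hr).2.1.log (H r hr).2.2.2.1.ne')) (fun r hr => by
        have hr0 : 0 < r := ht.trans_le hr.1
        have e : 3 * K * r⁻¹ - h1 r / r / h r = (3 * K - h1 r / h r) / r := by ring
        rw [e]
        exact div_nonneg (by linarith [(P r hr).1]) hr0.le)
    intro r₁ r₂ a1 a2 a3
    have m1 : r₁ ∈ Icc t R := ⟨a1, a2.trans a3⟩
    have m2 : r₂ ∈ Icc t R := ⟨a1.trans a2, a3⟩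
    have p1 : 0 < r₁ := ht.trans_le a1
    have p2 : 0 < r₂ := p1.trans_le a2
    have q1 := (H r₁ m1).2.2.2.1
    have q2 := (H r₂ m2).2.2.2.1
    have := M m1 m2 a2
    simp only at this
    rw [← Real.log_le_log_iff (by positivity) (by positivity), Real.log_mul q2.ne' (by positivity),
      Real.log_mul q1.ne' (by positivity), Real.log_rpow p1, Real.log_rpow p2]
    linarith
  · have hN : ∀ r ∈ Icc t R, 0 < d r / h r + 1 := fun r hr => by
      have := div_nonneg (H r hr).2.2.2.2.1 (H r hr).2.2.2.1.le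
      linarith
    have M := mono_odeb1
      (f := fun r => Real.log (d r / h r + 1) + 2 * (C * r) + 8 * ξ₀ * K ^ 2 / γ * r ^ γ)
      (f' := fun r => (d1 r / r * h r - d r * (h1 r / r)) / h r ^ 2 / (d r / h r + 1) +
        2 * (C * 1) + 8 * ξ₀ * K ^ 2 / γ * (γ * r ^ (γ - 1))) (a := t) (b := R)
      (fun r hr => (((((H r hr).1.div (H r hr).2.1 (H r hr).2.2.2.1.ne').add_const 1).log
        (hN r hr).ne').add (((hasDerivAt_id r).const_mul C).const_mul 2)).add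
        ((Real.hasDerivAt_rpow_const (Or.inl (ht.trans_le hr.1).ne')).const_mul _))
      (fun r hr => by
        have hr0 : 0 < r := ht.trans_le hr.1
        have q := (H r hr).2.2.2.1
        have q' := hN r hr
        have e : (d1 r / r * h r - d r * (h1 r / r)) / h r ^ 2 / (d r / h r + 1) +
            2 * (C * 1) + 8 * ξ₀ * K ^ 2 / γ * (γ * r ^ (γ - 1)) =
            ((d1 r / h r - d r / h r * (h1 r / h r)) +
              (d r / h r + 1) * (2 * (C * r) + 8 * (ξ₀ * r ^ γ) * K ^ 2)) /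
              (r * (d r / h r + 1)) := by
          rw [Real.rpow_sub_one hr0.ne']
          generalize d r / h r + 1 = N at q'
          field_simp
          ring
        rw [e]
        exact div_nonneg (P r hr).2 (by positivity))
    intro r hr
    have mR : R ∈ Icc t R := ⟨hr.1.trans hr.2, le_rfl⟩
    have hr0 : 0 < r := ht.trans_le hr.1
    have h1 := M hr mR hr.2
    simp only at h1
    have h2 : 8 * ξ₀ * K ^ 2 / γ * R ^ γ ≤ 1 / 4 := by
      have h3 : 8 * ξ₀ * K ^ 2 / γ ≤ 1 / 4 := by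
        rw [div_le_iff₀ hγ]
        linarith
      exact (mul_le_of_le_one_right (by positivity) (hpow R (hr0.le.trans hr.2) le_rfl)).trans h3
    have h3 : 0 ≤ 8 * ξ₀ * K ^ 2 / γ * r ^ γ := by positivity
    have h4 : 0 ≤ C * r := by positivity
    rw [← Real.log_le_log_iff (hN r hr) (by have := hN R mR; positivity),
      Real.log_mul two_ne_zero (hN R mR).ne']
    linarith [Real.log_two_gt_d9]

end Pool.Agent.Lib.MP_8daebb_an.LG
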