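import Pool.Agent.Lib.MP_8daebb_an.LG.OdeB1

open MeasureTheory Metric Set Filter Topology
open scoped RealInnerProductSpace NNReal

namespace Pool.Agent.Lib.MP_8daebb_an.LG

variable {m : ℕ} {ι : Type}

/-! ODEB2. The continuity argument. -/

theorem exp_bound_odeb2 {K : ℝ} (hK : 0 < K) : (1 + 1 / K) ^ (3 * K) ≤ 27 := by
  have h1 : 1 + 1 / K ≤ Real.exp (1 / K) := by
    have := Real.add_one_le_exp (1 / K)
    linarith
  have h2 : (1 + 1 / K) ^ (3 * K) ≤ Real.exp (1 / K) ^ (3 * K) :=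
    Real.rpow_le_rpow (by positivity) h1 (by positivity)
  have h3 : Real.exp (1 / K) ^ (3 * K) = Real.exp 1 ^ 3 := by
    rw [← Real.exp_mul, ← Real.exp_nat_mul]
    congr 1
    field_simp
    norm_num
  have h4 : Real.exp 1 ^ 3 ≤ 3 ^ 3 :=
    pow_le_pow_left₀ (Real.exp_pos 1).le (Real.exp_one_lt_d9.le.trans (by norm_num)) 3
  linarith

theorem odeB2 {C γ K ξ₁ R : ℝ} {d h d1 h1 A : ℝ → ℝ} (hC : 0 ≤ C) (hγ : 0 < γ) (hγ1 : γ ≤ 1)
    (hK : 100 ≤ K) (hR : 0 < R) (hR1 : R ≤ 1) (hCR : C * R ≤ 1 / 8) (hξ0 : 0 ≤ ξ₁)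
    (hξ : 8 * ξ₁ * K ^ 8 ≤ γ / 4)
    (H : ∀ r ∈ Ioc 0 R, HasDerivAt d (d1 r / r) r ∧ HasDerivAt h (h1 r / r) r ∧
      KeyAt C r (d r) (h r) (d1 r) (h1 r) (ξ₁ * r ^ γ * A r) (A r) ∧ 0 ≤ d r ∧ 0 ≤ A r ∧
      A r ≤ K ^ 4 * d (min (r * (1 + 1 / K)) R))
    (h0 : 0 < h R) (hN : d R ≤ K / 4 * h R) :
    ∀ r ∈ Ioc 0 R, h R * r ^ (3 * K) ≤ h r * R ^ (3 * K) := by
  have hK0 : 0 < K := by linarith
  have hK1 : 1 ≤ K := by linarith
  have hKi : 0 < 1 / K := by positivity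
  have hB : ∀ t, 0 < t → (∀ r ∈ Icc t R, 0 < h r ∧ d r ≤ K * h r ∧ A r ≤ K ^ 6 * h r) →
      (∀ r₁ r₂, t ≤ r₁ → r₁ ≤ r₂ → r₂ ≤ R → h r₂ * r₁ ^ (3 * K) ≤ h r₁ * r₂ ^ (3 * K)) ∧
        ∀ r ∈ Icc t R, d r ≤ (K / 2 + 1) * h r := by
    intro t ht hP
    obtain ⟨h1', h2'⟩ := odeB1 (ξ₀ := ξ₁ * K ^ 6) (e := fun r => ξ₁ * r ^ γ * A r) (A := A)
      (d := d) (h := h) (d1 := d1) (h1 := h1) hC hγ hγ1 hK1 ht hR1 hCR (by positivity)
      (by calc 8 * (ξ₁ * K ^ 6) * K ^ 2 = 8 * ξ₁ * K ^ 8 := by ring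
        _ ≤ _ := hξ) (by
      intro r hr
      have hr0 : 0 < r := ht.trans_le hr.1
      obtain ⟨a1, a2, a3, a4, a5, -⟩ := H r ⟨hr0, hr.2⟩
      obtain ⟨b1, b2, b3⟩ := hP r hr
      have hrγ : 0 ≤ ξ₁ * r ^ γ := mul_nonneg hξ0 (Real.rpow_nonneg hr0.le _)
      refine ⟨a1, a2, a3, b1, a4, b2, mul_nonneg hrγ a5, ?_⟩
      calc ξ₁ * r ^ γ * A r ≤ ξ₁ * r ^ γ * (K ^ 6 * h r) := mul_le_mul_of_nonneg_left b3 hrγ
        _ = _ := by ring)
    refine ⟨h1', fun r hr => ?_⟩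
    have h3 := h2' r hr
    have h4 : d R / h R ≤ K / 4 := (div_le_iff₀ h0).mpr hN
    exact (div_le_iff₀ (hP r hr).1).mp (by linarith)
  intro r₀ hr₀
  set S : Set ℝ := {t | t ∈ Icc r₀ R ∧
    ∀ r ∈ Icc t R, 0 < h r ∧ d r ≤ K * h r ∧ A r ≤ K ^ 6 * h r} with hS
  have hRS : R ∈ S := by
    refine ⟨⟨hr₀.2, le_rfl⟩, fun r hr => ?_⟩
    obtain rfl : r = R := le_antisymm hr.2 hr.1
    have h1 := (H r ⟨hR, le_rfl⟩).2.2.2.2.2
    rw [min_eq_right (by nlinarith)] at h1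
    have h2 : d r ≤ K * h r := by nlinarith
    refine ⟨h0, h2, h1.trans ?_⟩
    calc K ^ 4 * d r ≤ K ^ 4 * (K * h r) := mul_le_mul_of_nonneg_left h2 (by positivity)
      _ = K ^ 5 * h r := by ring
      _ ≤ K ^ 6 * h r := mul_le_mul_of_nonneg_right (pow_le_pow_right₀ hK1 (by norm_num)) h0.le
  have hbdd : BddBelow S := ⟨r₀, fun t ht => ht.1.1⟩
  obtain ⟨T, hT⟩ : ∃ T, T = sInf S := ⟨_, rfl⟩
  have hTcl : T ∈ closure S := hT ▸ csInf_mem_closure ⟨R, hRS⟩ hbdd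
  have hT0 : r₀ ≤ T := hT ▸ le_csInf ⟨R, hRS⟩ fun t ht => ht.1.1
  have hTle : ∀ t ∈ S, T ≤ t := fun t ht => hT ▸ csInf_le hbdd ht
  have hTR : T ≤ R := hTle R hRS
  have hTpos : 0 < T := hr₀.1.trans_le hT0
  have hSpos : ∀ t ∈ S, 0 < t := fun t ht => hr₀.1.trans_le ht.1.1
  have hcd : ∀ r ∈ Ioc 0 R, ContinuousAt d r := fun r hr => (H r hr).1.continuousAt
  have hch : ∀ r ∈ Ioc 0 R, ContinuousAt h r := fun r hr => (H r hr).2.1.continuousAt
  have hpw : ∀ r : ℝ, ContinuousAt (fun y : ℝ => y ^ (3 * K)) r := fun r =>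
    Real.continuousAt_rpow_const r _ (Or.inr (by positivity))
  have hDT : d T ≤ (K / 2 + 1) * h T :=
    ContinuousWithinAt.closure_le (f := d) (g := fun r => (K / 2 + 1) * h r) hTcl
      (hcd T ⟨hTpos, hTR⟩).continuousWithinAt
      (continuousAt_const.mul (hch T ⟨hTpos, hTR⟩)).continuousWithinAt
      fun t ht => (hB t (hSpos t ht) ht.2).2 t ⟨le_rfl, ht.1.2⟩
  have hGT : ∀ r₂ ∈ Icc T R, h r₂ * T ^ (3 * K) ≤ h T * r₂ ^ (3 * K) := by
    intro r₂ hr₂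
    have hmax : ContinuousAt (fun y : ℝ => max y r₂) T :=
      (continuous_id.max continuous_const).continuousAt
    have h1 : ContinuousAt (fun y : ℝ => h (max y r₂)) T := by
      refine ContinuousAt.comp (f := fun y : ℝ => max y r₂) ?_ hmax
      rw [max_eq_right hr₂.1]
      exact hch r₂ ⟨hTpos.trans_le hr₂.1, hr₂.2⟩
    have h2 : ContinuousAt (fun y : ℝ => (max y r₂) ^ (3 * K)) T :=
      ContinuousAt.comp (g := fun y : ℝ => y ^ (3 * K)) (f := fun y : ℝ => max y r₂) (hpw _) hmax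
    have h3 := ContinuousWithinAt.closure_le (f := fun y => h (max y r₂) * y ^ (3 * K))
      (g := fun y => h y * (max y r₂) ^ (3 * K)) hTcl (h1.mul (hpw T)).continuousWithinAt
      ((hch T ⟨hTpos, hTR⟩).mul h2).continuousWithinAt
      fun t ht => (hB t (hSpos t ht) ht.2).1 t (max t r₂) le_rfl (le_max_left _ _)
        (max_le ht.1.2 hr₂.2)
    simpa only [max_eq_right hr₂.1] using h3
  have hTp : 0 < T ^ (3 * K) := Real.rpow_pos_of_pos hTpos _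
  have hhT : 0 < h T := by
    have h1 := hGT R ⟨hTR, le_rfl⟩
    exact (mul_pos_iff_of_pos_right (Real.rpow_pos_of_pos hR _)).mp ((mul_pos h0 hTp).trans_le h1)
  have hdT : d T < K * h T := by nlinarith
  have habove : ∀ r, T < r → r ≤ R → 0 < h r ∧ d r ≤ K * h r ∧ A r ≤ K ^ 6 * h r := by
    intro r hr hrR
    obtain ⟨t, ht, htr⟩ := exists_lt_of_csInf_lt ⟨R, hRS⟩ (hT ▸ hr)
    exact ht.2 r ⟨htr.le, hrR⟩
  have hd27 : ∀ r ∈ Icc T R, r ≤ T * (1 + 1 / K) → d r ≤ K * (27 * h T) := by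
    intro r hr hr'
    have h1 := hGT r hr
    have h2 : r ^ (3 * K) ≤ T ^ (3 * K) * 27 := by
      calc r ^ (3 * K) ≤ (T * (1 + 1 / K)) ^ (3 * K) :=
            Real.rpow_le_rpow (hTpos.le.trans hr.1) hr' (by positivity)
        _ = T ^ (3 * K) * (1 + 1 / K) ^ (3 * K) := Real.mul_rpow hTpos.le (by positivity)
        _ ≤ _ := mul_le_mul_of_nonneg_left (exp_bound_odeb2 hK0) hTp.le
    have h3 : h r ≤ 27 * h T := by
      refine le_of_mul_le_mul_right (h1.trans ?_) hTp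
      calc h T * r ^ (3 * K) ≤ h T * (T ^ (3 * K) * 27) := mul_le_mul_of_nonneg_left h2 hhT.le
        _ = _ := by ring
    have h4 : d r ≤ K * h r := by
      rcases hr.1.eq_or_lt with h5 | h5
      · rw [← h5]
        exact hdT.le
      · exact (habove r h5 hr.2).2.1
    exact h4.trans (mul_le_mul_of_nonneg_left h3 hK0.le)
  have hev : ∀ᶠ r in 𝓝 T, 0 < r ∧ h T / 2 < h r ∧ d r < K * h r ∧ T < r * (1 + 1 / K) := by
    refine (lt_mem_nhds hTpos).and (Eventually.and ?_ (Eventually.and ?_ ?_))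
    · exact continuousAt_const.eventually_lt (hch T ⟨hTpos, hTR⟩) (by linarith)
    · exact (hcd T ⟨hTpos, hTR⟩).eventually_lt
        (continuousAt_const.mul (hch T ⟨hTpos, hTR⟩)) hdT
    · exact continuousAt_const.eventually_lt (continuousAt_id.mul continuousAt_const)
        (show T < T * (1 + 1 / K) by nlinarith)
  obtain ⟨δ, hδ, hball⟩ := Metric.eventually_nhds_iff.mp hev
  have hbelow : ∀ r, T - δ / 2 ≤ r → r ≤ T → 0 < h r ∧ d r ≤ K * h r ∧ A r ≤ K ^ 6 * h r := by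
    intro r hr1 hr2
    obtain ⟨a1, a2, a3, a4⟩ := hball (y := r) (by
      rw [Real.dist_eq, abs_lt]
      constructor <;> linarith)
    have a5 : 0 < h r := by linarith
    refine ⟨a5, a3.le, (H r ⟨a1, hr2.trans hTR⟩).2.2.2.2.2.trans ?_⟩
    have h1 := hd27 (min (r * (1 + 1 / K)) R) ⟨le_min a4.le hTR, min_le_right _ _⟩
      ((min_le_left _ _).trans (mul_le_mul_of_nonneg_right hr2 (by positivity)))
    have h2 : 27 * h T ≤ K * h r := by nlinarith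
    calc K ^ 4 * d (min (r * (1 + 1 / K)) R) ≤ K ^ 4 * (K * (K * h r)) :=
          mul_le_mul_of_nonneg_left (h1.trans (mul_le_mul_of_nonneg_left h2 hK0.le))
            (by positivity)
      _ = _ := by ring
  have hmem : max r₀ (T - δ / 2) ∈ S := by
    refine ⟨⟨le_max_left _ _, max_le hr₀.2 (by linarith)⟩, fun r hr => ?_⟩
    rcases le_or_gt r T with h1 | h1
    · exact hbelow r ((le_max_right _ _).trans hr.1) h1
    · exact habove r h1 hr.2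
  have hTr : T = r₀ := by
    have h1 := hTle _ hmem
    rcases le_max_iff.mp h1 with h2 | h2
    · exact le_antisymm h2 hT0
    · linarith
  rw [← hTr]
  exact hGT R ⟨hTR, le_rfl⟩

end Pool.Agent.Lib.MP_8daebb_an.LG
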