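import Pool.Agent.Lib.MP_8daebb_an.LG.Prop
import Pool.Agent.Lib.MP_8daebb_an.LG.Poin

open MeasureTheory Metric Set Filter Topology
open scoped RealInnerProductSpace NNReal

namespace Pool.Agent.Lib.MP_8daebb_an.LG

variable {m : ℕ} {ι : Type}

/-! OSC. The sharp oscillation estimate, by induction on the number of sheets. -/

/-- The set where a sheet of `J` meets a sheet of `s \ J`. -/
def ZS_osc [DecidableEq ι] (s J : Finset ι) (u : ι → E m → ℝ) : Set (E m) :=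
  {y | ∃ i ∈ J, ∃ j ∈ s \ J, u i y = u j y}

/-- The oscillation estimate for at most `Q` sheets with constants `Λ`, `C`. -/
def OscP_osc (ι : Type) (m Q : ℕ) (L : ℝ≥0) (Λ C : ℝ) : Prop :=
  ∀ (s : Finset ι) (u : ι → E m → ℝ), s.card ≤ Q → (∀ i, LipschitzWith L (u i)) →
    ∀ (c : E m) (r : ℝ), 0 < r → Stat s u (ball c (Λ * r)) → ∀ i ∈ s,
      ∫ x in ball c r, (u i x - u i c) ^ 2 ≤ C * r ^ 2 * En s u 0 c (Λ * r)

theorem closed_ZS_osc [DecidableEq ι] (s J : Finset ι) {u : ι → E m → ℝ} {L : ℝ≥0}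
    (hL : ∀ i, LipschitzWith L (u i)) : IsClosed (ZS_osc s J u) := by
  have : ZS_osc s J u = ⋃ i ∈ J, ⋃ j ∈ s \ J, {y | u i y = u j y} := by
    ext y
    simp only [ZS_osc, mem_ofPred_eq, mem_iUnion, exists_prop]
  rw [this]
  exact isClosed_biUnion_finset fun i _ => isClosed_biUnion_finset fun j _ =>
    isClosed_eq (hL i).continuous (hL j).continuous

theorem split_osc [DecidableEq ι] {Q : ℕ} {L : ℝ≥0} {Λ C : ℝ} (hC : 0 ≤ C)
    (ih : OscP_osc ι m Q L Λ C) {s : Finset ι} {u : ι → E m → ℝ} (hs : s.card ≤ Q + 1)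
    (hL : ∀ i, LipschitzWith L (u i)) {J : Finset ι} (hJ : J ⊆ s) (hne : J.Nonempty)
    (hJs : J ≠ s) {y : E m} {t : ℝ} (ht : 0 < t) (hst : Stat s u (ball y (Λ * t)))
    (hmiss : ∀ w ∈ ZS_osc s J u, Λ * t ≤ dist w y) {i : ι} (hi : i ∈ s) :
    ∫ x in ball y t, (u i x - u i y) ^ 2 ≤ C * t ^ 2 * En s u 0 y (Λ * t) := by
  have hsep : ∀ a ∈ J, ∀ b ∈ s \ J, ∀ x ∈ ball y (Λ * t), u a x ≠ u b x := by
    intro a ha b hb x hx h
    have h1 := hmiss x ⟨a, ha, b, hb, h⟩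
    rw [mem_ball] at hx
    linarith
  have hlt : J.card < s.card := Finset.card_lt_card (Finset.ssubset_iff_subset_ne.2 ⟨hJ, hJs⟩)
  have hct : 0 ≤ C * t ^ 2 := by positivity
  by_cases hiJ : i ∈ J
  · have h1 := ih J u (by omega) hL y t ht (hst.split hL hJ hsep) i hiJ
    exact h1.trans (mul_le_mul_of_nonneg_left (En_subset hL hJ _ _ _) hct)
  · have hsub : s \ J ⊆ s := Finset.sdiff_subset
    have hcard : (s \ J).card ≤ Q := by
      have h2 := Finset.card_sdiff_of_subset hJ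
      have h3 := hne.card_pos
      omega
    have hsep' : ∀ a ∈ s \ J, ∀ b ∈ s \ (s \ J), ∀ x ∈ ball y (Λ * t), u a x ≠ u b x := by
      intro a ha b hb x hx h
      rw [Finset.sdiff_sdiff_eq_self hJ] at hb
      exact hsep b hb a ha x hx h.symm
    have h1 := ih (s \ J) u hcard hL y t ht (hst.split hL hsub hsep') i
      (Finset.mem_sdiff.2 ⟨hi, hiJ⟩)
    exact h1.trans (mul_le_mul_of_nonneg_left (En_subset hL hsub _ _ _) hct)

theorem sigma_osc {κ : Type} (P : Finset κ) (hP : P.Nonempty) (Z : κ → Set (E m))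
    (hc : ∀ J ∈ P, IsClosed (Z J)) (hn : ∀ J ∈ P, (Z J).Nonempty) :
    ∃ σ : E m → ℝ, (∀ y, 0 ≤ σ y) ∧ (∀ y y', σ y ≤ σ y' + dist y y') ∧
      (∀ y, ∀ J ∈ P, ∃ w ∈ Z J, dist w y ≤ σ y) ∧
      (∀ y, ∃ J ∈ P, ∀ w ∈ Z J, σ y ≤ dist w y) := by
  refine ⟨fun y => P.sup' hP fun J => infDist y (Z J), ?_, ?_, ?_, ?_⟩
  · intro y
    obtain ⟨J, hJ⟩ := hP
    exact infDist_nonneg.trans (Finset.le_sup' (fun J => infDist y (Z J)) hJ)
  · intro y y'
    refine Finset.sup'_le _ _ fun J hJ => ?_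
    have h1 : infDist y (Z J) ≤ infDist y' (Z J) + dist y y' := infDist_le_infDist_add_dist
    have h2 := Finset.le_sup' (fun J => infDist y' (Z J)) hJ
    linarith
  · intro y J hJ
    obtain ⟨w, hw, h⟩ := (hc J hJ).exists_infDist_eq_dist (hn J hJ) y
    refine ⟨w, hw, ?_⟩
    rw [dist_comm, ← h]
    exact Finset.le_sup' (fun J => infDist y (Z J)) hJ
  · intro y
    obtain ⟨J, hJ, h⟩ := Finset.exists_mem_eq_sup' hP fun J => infDist y (Z J)
    refine ⟨J, hJ, fun w hw => ?_⟩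
    show P.sup' hP (fun J => infDist y (Z J)) ≤ dist w y
    rw [h, dist_comm]
    exact infDist_le_dist_of_mem hw

theorem minim_osc {σ : E m → ℝ} (h0 : ∀ y, 0 ≤ σ y) (h1 : ∀ y y', σ y ≤ σ y' + dist y y')
    (c : E m) : ∃ x, dist x c ≤ 2 * σ c ∧ σ x ≤ σ c ∧ ∀ y, dist y x ≤ σ x → σ x / 2 ≤ σ y := by
  have hlip : LipschitzWith 1 σ := LipschitzWith.of_le_add fun y y' => h1 y y'
  have hcont : Continuous fun y => σ y + dist y c / 2 :=
    hlip.continuous.add ((continuous_id.dist continuous_const).div_const 2)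
  have hcm : c ∈ closedBall c (2 * σ c) := mem_closedBall_self (by linarith [h0 c])
  obtain ⟨x, hx, hmin⟩ := (isCompact_closedBall c (2 * σ c)).exists_isMinOn ⟨c, hcm⟩
    hcont.continuousOn
  have hxc : σ x + dist x c / 2 ≤ σ c := by
    have := hmin hcm
    simpa using this
  have hglob : ∀ y, σ x + dist x c / 2 ≤ σ y + dist y c / 2 := by
    intro y
    by_cases hy : y ∈ closedBall c (2 * σ c)
    · exact hmin hy
    · rw [mem_closedBall, not_le] at hy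
      linarith [h0 y]
  refine ⟨x, mem_closedBall.1 hx, by linarith [dist_nonneg (x := x) (y := c)], fun y hy => ?_⟩
  have h2 := hglob y
  have h3 := dist_triangle y x c
  linarith

theorem intOn_sq_osc {f : E m → ℝ} (hf : Continuous f) (a : ℝ) (c : E m) (r : ℝ) :
    IntegrableOn (fun x => (f x - a) ^ 2) (ball c r) :=
  (((hf.sub continuous_const).pow 2).continuousOn.integrableOn_compact
    (isCompact_closedBall c r)).mono_set ball_subset_closedBall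

theorem int_mono_osc {f : E m → ℝ} (hf : Continuous f) (a : ℝ) {c c' : E m} {r r' : ℝ}
    (hb : ball c r ⊆ ball c' r') :
    ∫ x in ball c r, (f x - a) ^ 2 ≤ ∫ x in ball c' r', (f x - a) ^ 2 :=
  setIntegral_mono_set (intOn_sq_osc hf a c' r') (Eventually.of_forall fun _ => sq_nonneg _)
    hb.eventuallyLE

theorem shift_osc {f : E m → ℝ} (hf : Continuous f) (a b : ℝ) (c : E m) {r : ℝ} (hr : 0 < r) :
    ∫ x in ball c r, (f x - b) ^ 2 ≤
      2 * (∫ x in ball c r, (f x - a) ^ 2) + 2 * ((a - b) ^ 2 * (vb m * r ^ m)) := by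
  have hfin : volume (ball c r) ≠ ⊤ := measure_ball_lt_top.ne
  have hconst : IntegrableOn (fun _ : E m => 2 * (a - b) ^ 2) (ball c r) :=
    integrableOn_const hfin
  calc ∫ x in ball c r, (f x - b) ^ 2
      ≤ ∫ x in ball c r, (2 * (f x - a) ^ 2 + 2 * (a - b) ^ 2) := by
        refine setIntegral_mono (intOn_sq_osc hf b c r)
          (((intOn_sq_osc hf a c r).const_mul 2).add hconst) fun x => ?_
        nlinarith [sq_nonneg (f x - a - (a - b))]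
    _ = 2 * (∫ x in ball c r, (f x - a) ^ 2) + 2 * ((a - b) ^ 2 * (vb m * r ^ m)) := by
        rw [integral_add ((intOn_sq_osc hf a c r).const_mul 2) hconst, integral_const_mul,
          setIntegral_const, vol_ball c hr, smul_eq_mul]
        ring

theorem single_le_Ht_osc {s : Finset ι} {u : ι → E m → ℝ} {L : ℝ≥0}
    (hL : ∀ i, LipschitzWith L (u i)) (z : ℝ) (c : E m) (r : ℝ) {i : ι} (hi : i ∈ s) :
    ∫ x in ball c r, (u i x - z) ^ 2 ≤ Ht s u z c r :=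
  setIntegral_mono (intOn_sq_osc (hL i).continuous z c r) (intOn_Ht hL z c r) fun x =>
    Finset.single_le_sum (f := fun i => (u i x - z) ^ 2) (fun _ _ => sq_nonneg _) hi

theorem single_le_En_osc {s : Finset ι} {u : ι → E m → ℝ} {L : ℝ≥0}
    (hL : ∀ i, LipschitzWith L (u i)) (c : E m) (r : ℝ) {i : ι} (hi : i ∈ s) :
    ∫ x in ball c r, ‖gradient (u i) x‖ ^ 2 ≤ En s u 0 c r := by
  have h := En_subset (J := {i}) hL (Finset.singleton_subset_iff.2 hi) 0 c r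
  simpa [En] using h

theorem Ht_eq_sum_osc {s : Finset ι} {u : ι → E m → ℝ} {L : ℝ≥0}
    (hL : ∀ i, LipschitzWith L (u i)) (z : ℝ) (c : E m) (r : ℝ) :
    Ht s u z c r = ∑ i ∈ s, ∫ x in ball c r, (u i x - z) ^ 2 :=
  integral_finsetSum _ fun i _ => intOn_sq_osc (hL i).continuous z c r

theorem all_eq_osc [DecidableEq ι] {s : Finset ι} {u : ι → E m → ℝ} {x : E m}
    (h : ∀ J ⊆ s, J.Nonempty → J ≠ s → x ∈ ZS_osc s J u) :
    ∀ i ∈ s, ∀ j ∈ s, u i x = u j x := by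
  intro i hi j hj
  have h1 := chain_bound s (fun i => u i x) (le_refl (0 : ℝ)) (fun J hJ hne hJs => by
    obtain ⟨a, ha, b, hb, hab⟩ := h J hJ hne hJs
    exact ⟨a, ha, b, hb, by simp [hab]⟩) i hi j hj
  rw [mul_zero] at h1
  exact sub_eq_zero.1 (abs_nonpos_iff.1 h1)

theorem start_osc [DecidableEq ι] (m Q : ℕ) (L : ℝ≥0) {Λ C : ℝ} (hΛ : 1 ≤ Λ) (hC : 0 < C)
    (ih : OscP_osc ι m Q L Λ C) : ∃ B > 0, ∀ (s : Finset ι) (u : ι → E m → ℝ),
      s.card ≤ Q + 1 → s.Nonempty → (∀ i, LipschitzWith L (u i)) → ∀ (x : E m) (ρ : ℝ), 0 < ρ →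
      Stat s u (ball x (2 * ρ)) →
      (∀ J ⊆ s, J.Nonempty → J ≠ s → ∃ y ∈ ZS_osc s J u, dist y x ≤ ρ ∧
        ∃ J' ⊆ s, J'.Nonempty ∧ J' ≠ s ∧ ∀ w ∈ ZS_osc s J' u, ρ / 2 ≤ dist w y) →
      ∃ z, Ht s u z x (2 * ρ) ≤ B * (2 * ρ) ^ 2 * En s u 0 x (2 * ρ) := by
  obtain ⟨Cp, hCp, hP⟩ := poincare m
  have hvb := vb_pos m
  have hΛ0 : 0 < Λ := by linarith
  obtain ⟨K, hK⟩ : ∃ K : ℝ, K = (2 * C + 8 * Cp) * (2 * Λ) ^ m := ⟨_, rfl⟩
  have hK0 : 0 < K := by rw [hK]; positivity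
  refine ⟨(Q + 1) * (8 * Cp + 8 * (Q + 1) ^ 2 * K * 2 ^ m), by positivity, ?_⟩
  intro s u hs hne hL x ρ hρ hst hJ
  obtain ⟨D, hD⟩ : ∃ D, D = En s u 0 x (2 * ρ) := ⟨_, rfl⟩
  have hD0 : 0 ≤ D := by rw [hD]; exact En_nonneg _ _ _ _ _
  rw [← hD]
  choose a ha using fun i => hP (u i) L (hL i) x (2 * ρ) (by linarith)
  have ha' : ∀ i ∈ s, ∫ y in ball x (2 * ρ), (u i y - a i) ^ 2 ≤ 4 * Cp * ρ ^ 2 * D := by
    intro i hi
    refine (ha i).trans ?_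
    have h1 := single_le_En_osc hL x (2 * ρ) hi
    rw [← hD] at h1
    calc Cp * (2 * ρ) ^ 2 * ∫ y in ball x (2 * ρ), ‖gradient (u i) y‖ ^ 2
        ≤ Cp * (2 * ρ) ^ 2 * D := mul_le_mul_of_nonneg_left h1 (by positivity)
      _ = 4 * Cp * ρ ^ 2 * D := by ring
  obtain ⟨δ, hδ⟩ : ∃ δ : ℝ, δ = √(K * ρ ^ 2 * D / (vb m * ρ ^ m)) := ⟨_, rfl⟩
  have hδ0 : 0 ≤ δ := by rw [hδ]; positivity
  have hδ2 : δ ^ 2 * (vb m * ρ ^ m) = K * ρ ^ 2 * D := by
    rw [hδ, Real.sq_sqrt (by positivity)]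
    field_simp
  have hchain : ∀ i ∈ s, ∀ j ∈ s, |a i - a j| ≤ s.card * (2 * δ) := by
    refine chain_bound s a (by linarith) fun J hJs hJne hJn => ?_
    obtain ⟨y, hy, hyx, J', hJ's, hJ'ne, hJ'n, hmiss⟩ := hJ J hJs hJne hJn
    obtain ⟨t, ht⟩ : ∃ t : ℝ, t = ρ / (2 * Λ) := ⟨_, rfl⟩
    have ht0 : 0 < t := by rw [ht]; positivity
    have hΛt : Λ * t = ρ / 2 := by rw [ht]; field_simp
    have htρ : t ≤ ρ / 2 := by nlinarith
    have hb1 : ball y (Λ * t) ⊆ ball x (2 * ρ) := ball_subset_ball' (by rw [hΛt]; linarith)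
    have hb2 : ball y t ⊆ ball x (2 * ρ) := ball_subset_ball' (by linarith)
    have key : ∀ i ∈ s, |u i y - a i| ≤ δ := by
      intro i hi
      have h1 := split_osc hC.le ih hs hL hJ's hJ'ne hJ'n ht0 (hst.mono hb1)
        (by rw [hΛt]; exact hmiss) hi
      have h2 : En s u 0 y (Λ * t) ≤ D := by rw [hD]; exact En_mono hL 0 hb1
      have h3 : C * t ^ 2 * En s u 0 y (Λ * t) ≤ C * ρ ^ 2 * D := by
        have h4 : t ^ 2 ≤ ρ ^ 2 := by nlinarith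
        have h5 := En_nonneg s u 0 y (Λ * t)
        gcongr
      have h6 := (int_mono_osc (hL i).continuous (a i) hb2).trans (ha' i hi)
      have h7 := close_of_int' (c := y) ht0 (hL i).continuous (u i y) (a i)
      have h8 : (u i y - a i) ^ 2 * (vb m * t ^ m) ≤ (2 * C + 8 * Cp) * ρ ^ 2 * D := by
        nlinarith
      have h9 : ρ ^ m = t ^ m * (2 * Λ) ^ m := by
        rw [← mul_pow, ht]
        congr 1
        field_simp
      have h10 : (u i y - a i) ^ 2 * (vb m * ρ ^ m) ≤ δ ^ 2 * (vb m * ρ ^ m) := by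
        rw [hδ2, hK, h9]
        calc (u i y - a i) ^ 2 * (vb m * (t ^ m * (2 * Λ) ^ m))
            = (u i y - a i) ^ 2 * (vb m * t ^ m) * (2 * Λ) ^ m := by ring
          _ ≤ (2 * C + 8 * Cp) * ρ ^ 2 * D * (2 * Λ) ^ m :=
            mul_le_mul_of_nonneg_right h8 (by positivity)
          _ = (2 * C + 8 * Cp) * (2 * Λ) ^ m * ρ ^ 2 * D := by ring
      have h11 : (u i y - a i) ^ 2 ≤ δ ^ 2 := le_of_mul_le_mul_right h10 (by positivity)
      exact abs_le_of_sq_le_sq' h11 hδ0 |> abs_le.2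
    obtain ⟨i, hi, j, hj, hij⟩ := hy
    refine ⟨i, hi, j, hj, ?_⟩
    have h1 := abs_le.1 (key i (hJs hi))
    have h2 := abs_le.1 (key j (Finset.mem_sdiff.1 hj).1)
    rw [abs_le]
    constructor <;> linarith [h1.1, h1.2, h2.1, h2.2]
  obtain ⟨i₀, hi₀⟩ := hne
  refine ⟨a i₀, ?_⟩
  have hcard : (s.card : ℝ) ≤ Q + 1 := by exact_mod_cast hs
  have hterm : ∀ i ∈ s, ∫ y in ball x (2 * ρ), (u i y - a i₀) ^ 2 ≤
      (8 * Cp + 8 * (Q + 1) ^ 2 * K * 2 ^ m) * (ρ ^ 2 * D) := by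
    intro i hi
    have h1 := shift_osc (hL i).continuous (a i) (a i₀) x (r := 2 * ρ) (by linarith)
    have h2 := ha' i hi
    have h3 : |a i - a i₀| ≤ (Q + 1) * (2 * δ) :=
      (hchain i hi i₀ hi₀).trans (mul_le_mul_of_nonneg_right hcard (by linarith))
    have h4 : (a i - a i₀) ^ 2 ≤ ((Q + 1) * (2 * δ)) ^ 2 := by
      rw [← sq_abs]
      exact pow_le_pow_left₀ (abs_nonneg _) h3 2
    have h5 : (a i - a i₀) ^ 2 * (vb m * (2 * ρ) ^ m) ≤
        4 * (Q + 1) ^ 2 * K * 2 ^ m * (ρ ^ 2 * D) := by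
      calc (a i - a i₀) ^ 2 * (vb m * (2 * ρ) ^ m)
          ≤ ((Q + 1) * (2 * δ)) ^ 2 * (vb m * (2 * ρ) ^ m) :=
            mul_le_mul_of_nonneg_right h4 (by positivity)
        _ = 4 * (Q + 1) ^ 2 * 2 ^ m * (δ ^ 2 * (vb m * ρ ^ m)) := by rw [mul_pow 2 ρ m]; ring
        _ = 4 * (Q + 1) ^ 2 * K * 2 ^ m * (ρ ^ 2 * D) := by rw [hδ2]; ring
    linarith
  rw [Ht_eq_sum_osc hL]
  calc ∑ i ∈ s, ∫ y in ball x (2 * ρ), (u i y - a i₀) ^ 2
      ≤ s.card • ((8 * Cp + 8 * (Q + 1) ^ 2 * K * 2 ^ m) * (ρ ^ 2 * D)) :=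
        Finset.sum_le_card_nsmul _ _ _ hterm
    _ ≤ (Q + 1) * ((8 * Cp + 8 * (Q + 1) ^ 2 * K * 2 ^ m) * (ρ ^ 2 * D)) := by
        rw [nsmul_eq_mul]
        exact mul_le_mul_of_nonneg_right hcard (by positivity)
    _ ≤ (Q + 1) * ((8 * Cp + 8 * (Q + 1) ^ 2 * K * 2 ^ m) * ((2 * ρ) ^ 2 * D)) := by
        have : ρ ^ 2 ≤ (2 * ρ) ^ 2 := by nlinarith
        gcongr
    _ = _ := by ring

theorem star_osc [DecidableEq ι] (m Q : ℕ) (L : ℝ≥0) {Λ C : ℝ} (hΛ : 1 ≤ Λ) (hC : 0 < C)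
    (ih : OscP_osc ι m Q L Λ C) : ∃ C₁ > 0, ∀ (s : Finset ι) (u : ι → E m → ℝ),
      s.card ≤ Q + 1 → s.Nonempty → (∀ i, LipschitzWith L (u i)) → ∀ (x : E m) (ρ R : ℝ),
      0 ≤ ρ → 2 * ρ ≤ R → Stat s u (ball x R) →
      (∀ J ⊆ s, J.Nonempty → J ≠ s → ∃ y ∈ ZS_osc s J u, dist y x ≤ ρ ∧
        ∃ J' ⊆ s, J'.Nonempty ∧ J' ≠ s ∧ ∀ w ∈ ZS_osc s J' u, ρ / 2 ≤ dist w y) →
      ∃ z, (∀ r, 0 < r → 4 * ρ ≤ r → r < R → Ht s u z x (r / 2) ≤ C₁ * r ^ 2 * En s u 0 x r) ∧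
        (ρ = 0 → ∀ i ∈ s, u i x = z) := by
  obtain ⟨B, hB, hstart⟩ := start_osc m Q L hΛ hC ih
  obtain ⟨C₁, hC₁, h₁⟩ := prop_point (ι := ι) m (Q + 1) L
  obtain ⟨C₂, hC₂, h₂⟩ := prop_start (ι := ι) m (Q + 1) L hB
  refine ⟨C₁ + C₂, by positivity, ?_⟩
  intro s u hs hne hL x ρ R hρ hR hst hJ
  rcases hρ.eq_or_lt with h0 | hpos
  · have hall : ∀ i ∈ s, ∀ j ∈ s, u i x = u j x := by
      refine all_eq_osc fun J hJs hJne hJn => ?_
      obtain ⟨y, hy, hyx, -⟩ := hJ J hJs hJne hJn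
      rw [← h0] at hyx
      rwa [← dist_le_zero.1 hyx]
    obtain ⟨i₀, hi₀⟩ := hne
    refine ⟨u i₀ x, fun r hr _ hrR => ?_, fun _ i hi => hall i hi i₀ hi₀⟩
    refine (h₁ s u hs hL x _ R hst (fun i hi => hall i hi i₀ hi₀) r hr hrR).trans ?_
    have := En_nonneg s u 0 x r
    gcongr
    linarith
  · obtain ⟨z, hz⟩ := hstart s u hs hne hL x ρ hpos (hst.mono (ball_subset_ball hR)) hJ
    refine ⟨z, fun r _ hr hrR => ?_, fun h => absurd h hpos.ne'⟩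
    refine (h₂ s u hs hL x z R (2 * ρ) hst (by linarith) hz r (by linarith) hrR).trans ?_
    have := En_nonneg s u 0 x r
    gcongr
    linarith

theorem centre_osc {s : Finset ι} {u : ι → E m → ℝ} {L : ℝ≥0} (hL : ∀ i, LipschitzWith L (u i))
    {c : E m} {Λ r σ A K : ℝ} (hΛ : 1 ≤ Λ) (hr : 0 < r) (hσ : 0 < σ) (hσr : σ ≤ Λ * r)
    (hK : 0 ≤ K) (hst : Stat s u (ball c (20 * Λ * r)))
    (h : A * (σ / Λ) ^ m ≤ K * σ ^ 2 * En s u 0 c (8 * σ)) :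
    A * r ^ m ≤ 3 * WL L * Λ ^ 2 * K * r ^ 2 * En s u 0 c (20 * Λ * r) := by
  have hΛ0 : 0 < Λ := by linarith
  have hΛr : 0 < Λ * r := by positivity
  have hW : 0 ≤ WL L := by linarith [one_le_WL (L : ℝ)]
  have h1 := energy_mono hL hst (r := 16 * σ) (r' := 16 * (Λ * r)) (by linarith) (by linarith)
    (by linarith)
  have h2 : En s u 0 c (16 * (Λ * r)) ≤ En s u 0 c (20 * Λ * r) :=
    En_mono hL 0 (ball_subset_ball (by linarith))
  rw [show 16 * σ / 2 = 8 * σ by ring] at h1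
  obtain ⟨D, hD⟩ : ∃ D, D = En s u 0 c (8 * σ) := ⟨_, rfl⟩
  obtain ⟨D', hD'⟩ : ∃ D', D' = En s u 0 c (20 * Λ * r) := ⟨_, rfl⟩
  rw [← hD] at h h1
  rw [← hD'] at h2 ⊢
  have h3 : (16 * σ) ^ 2 / (16 * σ) ^ m * D ≤
      3 * WL L * ((16 * (Λ * r)) ^ 2 / (16 * (Λ * r)) ^ m * D') := by
    refine h1.trans ?_
    gcongr
  have h4 : σ ^ 2 / σ ^ m * D ≤ 3 * WL L * ((Λ * r) ^ 2 / (Λ * r) ^ m * D') := by
    have e1 : (16 * σ) ^ 2 / (16 * σ) ^ m * D = 16 ^ 2 / 16 ^ m * (σ ^ 2 / σ ^ m * D) := by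
      rw [mul_pow, mul_pow]
      field_simp
    have e2 : 3 * WL L * ((16 * (Λ * r)) ^ 2 / (16 * (Λ * r)) ^ m * D') =
        16 ^ 2 / 16 ^ m * (3 * WL L * ((Λ * r) ^ 2 / (Λ * r) ^ m * D')) := by
      rw [mul_pow 16 (Λ * r) 2, mul_pow 16 (Λ * r) m]
      field_simp
    rw [e1, e2] at h3
    exact le_of_mul_le_mul_left h3 (by positivity)
  have h5 : A ≤ K * Λ ^ m * (σ ^ 2 / σ ^ m * D) := by
    have e1 : K * Λ ^ m * (σ ^ 2 / σ ^ m * D) = K * σ ^ 2 * D / (σ / Λ) ^ m := by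
      rw [div_pow]
      field_simp
    rw [e1, le_div_iff₀ (by positivity)]
    exact h
  calc A * r ^ m ≤ K * Λ ^ m * (3 * WL L * ((Λ * r) ^ 2 / (Λ * r) ^ m * D')) * r ^ m := by
        refine mul_le_mul_of_nonneg_right (h5.trans ?_) (by positivity)
        exact mul_le_mul_of_nonneg_left h4 (by positivity)
    _ = 3 * WL L * Λ ^ 2 * K * r ^ 2 * D' := by
        rw [mul_pow Λ r m]
        field_simp

theorem step_osc [DecidableEq ι] (m Q : ℕ) (L : ℝ≥0) {Λ C : ℝ} (hΛ : 1 ≤ Λ) (hC : 0 < C)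
    (ih : OscP_osc ι m Q L Λ C) : ∃ C' > 0, OscP_osc ι m (Q + 1) L (20 * Λ) C' := by
  obtain ⟨C₁, hC₁, hstar⟩ := star_osc m Q L hΛ hC ih
  obtain ⟨C₂, hC₂, hpt⟩ := prop_point (ι := ι) m (Q + 1) L
  have hΛ0 : 0 < Λ := by linarith
  have hW : 0 < WL L := by linarith [one_le_WL (L : ℝ)]
  obtain ⟨K, hK⟩ : ∃ K : ℝ, K = 72 * C₁ * Λ ^ 2 + 6 * WL L * Λ ^ 2 * (2 * C + 72 * C₁) := ⟨_, rfl⟩
  have hK0 : 0 < K := by rw [hK]; positivity
  refine ⟨C + 4 * C₂ + K, by positivity, ?_⟩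
  intro s u hs hL c r hr hst i hi
  have hΛr : r ≤ Λ * r := by nlinarith
  have hD0 := En_nonneg s u 0 c (20 * Λ * r)
  have hfin : ∀ K' : ℝ, K' ≤ C + 4 * C₂ + K →
      ∫ x in ball c r, (u i x - u i c) ^ 2 ≤ K' * r ^ 2 * En s u 0 c (20 * Λ * r) →
      ∫ x in ball c r, (u i x - u i c) ^ 2 ≤
        (C + 4 * C₂ + K) * r ^ 2 * En s u 0 c (20 * Λ * r) := by
    intro K' h1 h2
    refine h2.trans ?_
    gcongr
  by_cases hmiss : ∃ J ⊆ s, J.Nonempty ∧ J ≠ s ∧ ∀ w ∈ ZS_osc s J u, Λ * r ≤ dist w c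
  · obtain ⟨J, hJs, hJne, hJn, hJ⟩ := hmiss
    have hb : ball c (Λ * r) ⊆ ball c (20 * Λ * r) := ball_subset_ball (by linarith)
    refine hfin C (by linarith) ((split_osc hC.le ih hs hL hJs hJne hJn hr (hst.mono hb) hJ
      hi).trans ?_)
    exact mul_le_mul_of_nonneg_left (En_mono hL 0 hb) (by positivity)
  have hmeet : ∀ J ⊆ s, J.Nonempty → J ≠ s → ∃ w ∈ ZS_osc s J u, dist w c < Λ * r := by
    intro J hJs hJne hJn
    by_contra hcon
    refine hmiss ⟨J, hJs, hJne, hJn, fun w hw => ?_⟩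
    by_contra hlt
    exact hcon ⟨w, hw, not_le.1 hlt⟩
  obtain ⟨P, hP⟩ : ∃ P : Finset (Finset ι), ∀ J, J ∈ P ↔ J ⊆ s ∧ J.Nonempty ∧ J ≠ s :=
    ⟨s.powerset.filter fun J => J.Nonempty ∧ J ≠ s, fun J => by simp⟩
  rcases P.eq_empty_or_nonempty with hPe | hPne
  · have hall : ∀ a ∈ s, ∀ b ∈ s, u a c = u b c := by
      refine all_eq_osc fun J hJs hJne hJn => ?_
      have := (hP J).2 ⟨hJs, hJne, hJn⟩
      rw [hPe] at this
      exact absurd this (Finset.notMem_empty J)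
    have h1 := hpt s u hs hL c (u i c) _ hst (fun a ha => hall a ha i hi) (2 * r) (by linarith)
      (by linarith)
    rw [show 2 * r / 2 = r by ring] at h1
    have h2 : En s u 0 c (2 * r) ≤ En s u 0 c (20 * Λ * r) :=
      En_mono hL 0 (ball_subset_ball (by linarith))
    refine hfin (4 * C₂) (by linarith) (((single_le_Ht_osc hL _ c r hi).trans h1).trans ?_)
    calc C₂ * (2 * r) ^ 2 * En s u 0 c (2 * r) ≤ C₂ * (2 * r) ^ 2 * En s u 0 c (20 * Λ * r) :=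
          mul_le_mul_of_nonneg_left h2 (by positivity)
      _ = _ := by ring
  obtain ⟨σ, hσ0, hσ1, hσ2, hσ3⟩ := sigma_osc P hPne (fun J => ZS_osc s J u)
    (fun J _ => closed_ZS_osc s J hL) (fun J hJ => by
      obtain ⟨hJs, hJne, hJn⟩ := (hP J).1 hJ
      obtain ⟨w, hw, -⟩ := hmeet J hJs hJne hJn
      exact ⟨w, hw⟩)
  have hσc : σ c < Λ * r := by
    obtain ⟨J, hJ, h⟩ := hσ3 c
    obtain ⟨hJs, hJne, hJn⟩ := (hP J).1 hJ
    obtain ⟨w, hw, hwc⟩ := hmeet J hJs hJne hJn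
    exact (h w hw).trans_lt hwc
  obtain ⟨x, hxc, hσx, hmin⟩ := minim_osc hσ0 hσ1 c
  have hcx : dist c x ≤ 2 * σ c := by rwa [dist_comm]
  have hbx : ball x (18 * (Λ * r)) ⊆ ball c (20 * Λ * r) := ball_subset_ball' (by linarith)
  obtain ⟨z, hz, hz0⟩ := hstar s u hs ⟨i, hi⟩ hL x (σ x) (18 * (Λ * r)) (hσ0 x) (by linarith)
    (hst.mono hbx) (fun J hJs hJne hJn => by
      obtain ⟨y, hy, hyx⟩ := hσ2 x J ((hP J).2 ⟨hJs, hJne, hJn⟩)
      obtain ⟨J', hJ', h⟩ := hσ3 y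
      obtain ⟨hJ's, hJ'ne, hJ'n⟩ := (hP J').1 hJ'
      exact ⟨y, hy, hyx, J', hJ's, hJ'ne, hJ'n, fun w hw => (hmin y hyx).trans (h w hw)⟩)
  have hF1 : ∫ y in ball c r, (u i y - z) ^ 2 ≤
      36 * C₁ * Λ ^ 2 * r ^ 2 * En s u 0 c (20 * Λ * r) := by
    have h1 := hz (6 * (Λ * r)) (by linarith) (by linarith) (by linarith)
    have h2 : Ht s u z c r ≤ Ht s u z x (6 * (Λ * r) / 2) :=
      Ht_mono hL z (ball_subset_ball' (by linarith))
    have h3 : En s u 0 x (6 * (Λ * r)) ≤ En s u 0 c (20 * Λ * r) :=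
      En_mono hL 0 (ball_subset_ball' (by linarith))
    refine (((single_le_Ht_osc hL z c r hi).trans h2).trans h1).trans ?_
    calc C₁ * (6 * (Λ * r)) ^ 2 * En s u 0 x (6 * (Λ * r))
        ≤ C₁ * (6 * (Λ * r)) ^ 2 * En s u 0 c (20 * Λ * r) :=
          mul_le_mul_of_nonneg_left h3 (by positivity)
      _ = _ := by ring
  have hF2 : (z - u i c) ^ 2 * (vb m * r ^ m) ≤
      3 * WL L * Λ ^ 2 * (2 * C + 72 * C₁) * r ^ 2 * En s u 0 c (20 * Λ * r) := by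
    rcases (hσ0 c).eq_or_lt with h0 | hpos
    · have hx : x = c := dist_le_zero.1 (by linarith)
      have h1 := hz0 (le_antisymm (by linarith) (hσ0 x)) i hi
      rw [hx] at h1
      rw [h1, sub_self]
      have : 0 ≤ 3 * WL L * Λ ^ 2 * (2 * C + 72 * C₁) * r ^ 2 * En s u 0 c (20 * Λ * r) := by
        positivity
      simpa using this
    · obtain ⟨J, hJ, h⟩ := hσ3 c
      obtain ⟨hJs, hJne, hJn⟩ := (hP J).1 hJ
      obtain ⟨t, ht⟩ : ∃ t : ℝ, t = σ c / Λ := ⟨_, rfl⟩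
      have ht0 : 0 < t := by rw [ht]; positivity
      have hΛt : Λ * t = σ c := by rw [ht]; field_simp
      have htσ : t ≤ σ c := by nlinarith
      have h1 := split_osc hC.le ih hs hL hJs hJne hJn ht0
        (hst.mono (ball_subset_ball (by rw [hΛt]; linarith))) (by rw [hΛt]; exact h) hi
      rw [hΛt] at h1
      have hE0 := En_nonneg s u 0 c (8 * σ c)
      have h2 : En s u 0 c (σ c) ≤ En s u 0 c (8 * σ c) :=
        En_mono hL 0 (ball_subset_ball (by linarith))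
      have h3 : C * t ^ 2 * En s u 0 c (σ c) ≤ C * σ c ^ 2 * En s u 0 c (8 * σ c) := by
        have h5 := En_nonneg s u 0 c (σ c)
        gcongr
      have h4 := hz (6 * σ c) (by linarith) (by linarith) (by linarith)
      have h5 : Ht s u z c t ≤ Ht s u z x (6 * σ c / 2) :=
        Ht_mono hL z (ball_subset_ball' (by linarith))
      have h6 : En s u 0 x (6 * σ c) ≤ En s u 0 c (8 * σ c) :=
        En_mono hL 0 (ball_subset_ball' (by linarith))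
      have h7 : C₁ * (6 * σ c) ^ 2 * En s u 0 x (6 * σ c) ≤
          C₁ * (6 * σ c) ^ 2 * En s u 0 c (8 * σ c) :=
        mul_le_mul_of_nonneg_left h6 (by positivity)
      have h8 := single_le_Ht_osc hL z c t hi
      have h9 := close_of_int' (c := c) ht0 (hL i).continuous z (u i c)
      have h10 : (z - u i c) ^ 2 * vb m * (σ c / Λ) ^ m ≤
          (2 * C + 72 * C₁) * σ c ^ 2 * En s u 0 c (8 * σ c) := by
        rw [← ht]
        linarith
      have h11 := centre_osc hL hΛ hr hpos hσc.le (by positivity) hst h10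
      linarith
  refine hfin K (by linarith) ((shift_osc (hL i).continuous z (u i c) c hr).trans ?_)
  rw [hK]
  linarith

theorem osc_avg [DecidableEq ι] (m Q : ℕ) (L : ℝ≥0) : ∃ Λ ≥ (1 : ℝ), ∃ C > 0,
    ∀ (s : Finset ι) (u : ι → E m → ℝ), s.card ≤ Q → (∀ i, LipschitzWith L (u i)) →
      ∀ (c : E m) (r : ℝ), 0 < r → Stat s u (ball c (Λ * r)) → ∀ i ∈ s,
        ∫ x in ball c r, (u i x - u i c) ^ 2 ≤ C * r ^ 2 * En s u 0 c (Λ * r) := by
  induction Q with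
  | zero =>
    refine ⟨1, le_rfl, 1, one_pos, fun s u hs _ c r _ _ i hi => ?_⟩
    rw [Finset.card_eq_zero.1 (Nat.le_zero.1 hs)] at hi
    exact absurd hi (Finset.notMem_empty i)
  | succ Q ih =>
    obtain ⟨Λ, hΛ, C, hC, h⟩ := ih
    obtain ⟨C', hC', h'⟩ := step_osc (ι := ι) m Q L hΛ hC h
    exact ⟨20 * Λ, by linarith, C', hC', h'⟩

end Pool.Agent.Lib.MP_8daebb_an.LG
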