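import Pool.Agent.Lib.MP_8daebb_an.LG.Freq
import Pool.Agent.Lib.MP_8daebb_an.LG.OdeA
import Pool.Agent.Lib.MP_8daebb_an.LG.Vit

open MeasureTheory Metric Set Filter Topology
open scoped RealInnerProductSpace NNReal

namespace Pool.Agent.Lib.MP_8daebb_an.LG

variable {m : ℕ} {ι : Type}

/-! PROP. Monotonicity of the energy and propagation of the height bound. -/

theorem intOn_sq_prop {f : E m → ℝ} (hf : Continuous f) (c : E m) (r : ℝ) :
    IntegrableOn (fun y => f y ^ 2) (ball c r) :=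
  ((hf.pow 2).continuousOn.integrableOn_compact (isCompact_closedBall c r)).mono_set
    ball_subset_closedBall

/-- Interpolation for Lipschitz functions. -/
theorem lip_interp (m : ℕ) (L : ℝ≥0) {B : ℝ} (hB : 0 < B) : ∃ C > 0, ∀ (f : E m → ℝ),
    LipschitzWith L f → ∀ (c : E m) (r : ℝ), 0 < r → ∀ x ∈ ball c r, |f x| ≤ B * r →
      (|f x| / r) ^ (m + 2) ≤ C * ((∫ y in ball c r, f y ^ 2) / r ^ m) / r ^ 2 := by
  have hL : (0 : ℝ) ≤ L := L.coe_nonneg
  have hv := vb_pos m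
  obtain ⟨M, hM⟩ : ∃ M : ℝ, M = 4 * (L + 1) * (B + 1) := ⟨_, rfl⟩
  have hM0 : 0 < M := by rw [hM]; positivity
  refine ⟨4 * M ^ m / vb m, by positivity, fun f hf c r hr x hx hxB => ?_⟩
  have hI : 0 ≤ ∫ y in ball c r, f y ^ 2 := integral_nonneg fun y => sq_nonneg _
  obtain ⟨a, ha⟩ : ∃ a : ℝ, a = |f x| / r := ⟨_, rfl⟩
  have har : |f x| = a * r := by rw [ha]; field_simp
  rw [← ha]
  have ha0 : 0 ≤ a := by rw [ha]; positivity
  rcases ha0.eq_or_lt with h0 | ha0
  · rw [← h0, zero_pow (by omega)]; positivity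
  have haB : a ≤ B := by rw [ha, div_le_iff₀ hr]; exact hxB
  obtain ⟨l, hl⟩ : ∃ l : ℝ, l = a / M := ⟨_, rfl⟩
  have hl0 : 0 < l := by rw [hl]; positivity
  have hlM : l * M = a := by rw [hl]; field_simp
  have hl1 : l ≤ 1 := by
    rw [hl, div_le_one hM0, hM]; nlinarith [mul_nonneg hL hB.le]
  have hlL : 4 * (L * l) ≤ a := by
    rw [← hlM, hM]; nlinarith [mul_nonneg hL hB.le, mul_nonneg (mul_nonneg hL hB.le) hl0.le,
      mul_nonneg hB.le hl0.le]
  have hxc : ‖x - c‖ < r := mem_ball_iff_norm.1 hx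
  have hsub : ball (x + l • (c - x)) (l * r) ⊆ ball c r := fun y hy => by
    rw [mem_ball_iff_norm] at hy ⊢
    have e : y - c = (y - (x + l • (c - x))) + (1 - l) • (x - c) := by module
    have h1 : ‖(1 - l) • (x - c)‖ ≤ (1 - l) * r := by
      rw [norm_smul, Real.norm_of_nonneg (by linarith)]
      exact mul_le_mul_of_nonneg_left hxc.le (by linarith)
    rw [e]
    linarith [norm_add_le (y - (x + l • (c - x))) ((1 - l) • (x - c))]
  have hlow : ∀ y ∈ ball (x + l • (c - x)) (l * r), (a * r / 2) ^ 2 ≤ f y ^ 2 := fun y hy => by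
    rw [mem_ball_iff_norm] at hy
    have e : y - x = (y - (x + l • (c - x))) + l • (c - x) := by module
    have h1 : ‖l • (c - x)‖ ≤ l * r := by
      rw [norm_smul, Real.norm_of_nonneg hl0.le, norm_sub_rev]
      exact mul_le_mul_of_nonneg_left hxc.le hl0.le
    have h2 : ‖y - x‖ ≤ 2 * (l * r) := by
      rw [e]; linarith [norm_add_le (y - (x + l • (c - x))) (l • (c - x))]
    have h3 : |f y - f x| ≤ L * ‖y - x‖ := by
      simpa [dist_eq_norm, Real.dist_eq] using hf.dist_le_mul y x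
    have h4 : (L : ℝ) * ‖y - x‖ ≤ a * r / 2 := by
      have := mul_le_mul_of_nonneg_left h2 hL
      nlinarith [mul_le_mul_of_nonneg_right hlL hr.le]
    have h5 : a * r / 2 ≤ |f y| := by
      have := abs_sub_abs_le_abs_sub (f x) (f y)
      rw [abs_sub_comm] at h3
      linarith
    rw [← sq_abs (f y)]
    exact pow_le_pow_left₀ (by positivity) h5 2
  have hint := intOn_sq_prop hf.continuous c r
  have h6 : (a * r / 2) ^ 2 * (vb m * (l * r) ^ m) ≤ ∫ y in ball c r, f y ^ 2 := by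
    rw [← vol_ball (x + l • (c - x)) (mul_pos hl0 hr)]
    refine (setIntegral_ge_of_const_le_real measurableSet_ball measure_ball_lt_top.ne hlow
      (hint.mono_set hsub)).trans ?_
    exact setIntegral_mono_set hint (ae_of_all _ fun y => sq_nonneg _) hsub.eventuallyLE
  have h7 : a ^ (m + 2) = 4 * M ^ m / vb m *
      ((a * r / 2) ^ 2 * (vb m * (l * r) ^ m) / r ^ m) / r ^ 2 := by
    rw [← hlM]; field_simp; ring
  rw [h7]
  gcongr

theorem dF_mono_prop {s : Finset ι} {u : ι → E m → ℝ} {L : ℝ≥0}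
    (hL : ∀ i, LipschitzWith L (u i)) {c : E m} {R r r' : ℝ} (h : Stat s u (ball c R))
    (hr : 0 < r) (hrr : r ≤ r') (hR : r' < R) : dF s u c r ≤ dF s u c r' := by
  have hd : ∀ t ∈ Icc r r', HasDerivAt (dF s u c)
      ((2 * rF s u c t + 2 * (dF s u c t - tF s u c t)) / t) t := fun t ht =>
    (dF_deriv hL h (hr.trans_le ht.1) (ht.2.trans_lt hR)).1
  refine monotoneOn_of_hasDerivWithinAt_nonneg (convex_Icc r r')
    (fun t ht => (hd t ht).continuousAt.continuousWithinAt)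
    (fun t ht => (hd t (interior_subset ht)).hasDerivWithinAt) (fun t ht => ?_)
    (left_mem_Icc.2 hrr) (right_mem_Icc.2 hrr) hrr
  have ht0 : 0 < t := hr.trans_le (interior_subset ht).1
  have h1 := rF_nonneg (s := s) (u := u) (c := c) ht0
  have h2 := (tF_le_dF (s := s) (c := c) hL ht0).2
  exact div_nonneg (by linarith) ht0.le

theorem energy_mono {s : Finset ι} {u : ι → E m → ℝ} {L : ℝ≥0} (hL : ∀ i, LipschitzWith L (u i))
    {c : E m} {R r r' : ℝ} (h : Stat s u (ball c R)) (hr : 0 < r) (hrr : r ≤ r') (hR : r' < R) :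
    r ^ 2 / r ^ m * En s u 0 c (r / 2) ≤ 3 * WL L * (r' ^ 2 / r' ^ m * En s u 0 c r') := by
  have hW : 0 ≤ 3 * WL L := by linarith [one_le_WL (L : ℝ)]
  exact (dF_le_En hL hr).2.trans (mul_le_mul_of_nonneg_left
    ((dF_mono_prop hL h hr hrr hR).trans (dF_le_En hL (hr.trans_le hrr)).1) hW)

theorem Ht_le_prop {s : Finset ι} {u : ι → E m → ℝ} {L : ℝ≥0} (hL : ∀ i, LipschitzWith L (u i))
    {z : ℝ} {c : E m} {r A : ℝ} (hr : 0 < r) (h : ∀ i ∈ s, ∀ x ∈ ball c r, |u i x - z| ≤ A) :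
    Ht s u z c r ≤ s.card * A ^ 2 * (vb m * r ^ m) := by
  rw [← vol_ball c hr, Ht]
  refine (setIntegral_mono_on (intOn_Ht hL z c r)
    (integrableOn_const (C := (s.card : ℝ) * A ^ 2) measure_ball_lt_top.ne) measurableSet_ball
    fun x hx => ?_).trans_eq ?_
  · rw [← nsmul_eq_mul]
    refine Finset.sum_le_card_nsmul _ _ _ fun i hi => ?_
    rw [← sq_abs]
    exact pow_le_pow_left₀ (abs_nonneg _) (h i hi x hx) 2
  · rw [setIntegral_const, smul_eq_mul, mul_comm]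

/-- The common core of the two propagation statements. -/
theorem core_prop (m Q : ℕ) (L : ℝ≥0) {B₀ B₁ : ℝ} (hB₀ : 0 < B₀) (hB₁ : 0 < B₁) :
    ∃ C > 0, ∀ (s : Finset ι) (u : ι → E m → ℝ),
    s.card ≤ Q → (∀ i, LipschitzWith L (u i)) → ∀ (c : E m) (z R r₀ : ℝ), Stat s u (ball c R) →
      0 ≤ r₀ → (∀ r, 0 < r → r₀ ≤ r → ∀ i ∈ s, ∀ x ∈ ball c r, |u i x - z| ≤ B₀ * r) →
      (0 < r₀ → hF s u z c r₀ ≤ B₁ * dF s u c r₀) → ∀ r, 0 < r → r₀ ≤ r → r < R →
        Ht s u z c (r / 2) ≤ C * r ^ 2 * En s u 0 c r := by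
  obtain ⟨K, hK, HK⟩ := lip_interp m L hB₀
  have hv := vb_pos m
  have hm8 : (0 : ℝ) < 2 * m + 8 := by positivity
  have e1 : 0 ≤ (2 * m + 8 : ℝ) * B₀ := by positivity
  have e2 : 0 ≤ 6 * (Q * B₀ ^ 2 * vb m) := by positivity
  obtain ⟨C, hC, HC⟩ := odeA (n := m + 2) (by omega)
    (B := (2 * m + 8) * B₀ + 6 * (Q * B₀ ^ 2 * vb m) + B₁)
    (C₁ := (2 * m + 8) ^ (m + 2) * (K * 2 ^ m)) (by positivity) (by positivity)
  refine ⟨C, hC, fun s u hs hL c z R r₀ hst hr₀ hb hstart r hr hr₀r hrR => ?_⟩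
  have hQ : (s.card : ℝ) ≤ Q := by exact_mod_cast hs
  have key := HC (dF s u c) (hF s u z c) (tF s u c) (t0F s u z c) (rF s u c)
    (fun t => (2 * m + 8) * min B₀
      ((K * 2 ^ m * hF s u z c (2 * t) / t ^ 2) ^ (((m + 2 : ℕ) : ℝ)⁻¹))) r₀ R hr₀
    (fun t ht h0t htR => ?_) (fun h0 => (hstart h0).trans (mul_le_mul_of_nonneg_right
      (by linarith) (dF_nonneg h0))) r hr hr₀r hrR
  · have h1 := (hF_le_Ht (s := s) (c := c) hL z hr).2
    have h2 := (dF_le_En (s := s) (c := c) hL hr).1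
    have h3 : Ht s u z c (r / 2) / r ^ m ≤ C * r ^ 2 * En s u 0 c r / r ^ m := by
      refine h1.trans (key.trans ((mul_le_mul_of_nonneg_left h2 hC.le).trans_eq ?_))
      ring
    exact (div_le_div_iff_of_pos_right (by positivity)).1 h3
  have h2t : 0 < 2 * t := by positivity
  have hX : 0 ≤ K * 2 ^ m * hF s u z c (2 * t) / t ^ 2 := by
    have := hF_nonneg (s := s) (u := u) (c := c) z h2t
    positivity
  have hmin : 0 ≤ min B₀
      ((K * 2 ^ m * hF s u z c (2 * t) / t ^ 2) ^ (((m + 2 : ℕ) : ℝ)⁻¹)) :=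
    le_min hB₀.le (Real.rpow_nonneg hX _)
  refine ⟨(dF_deriv hL hst ht htR).1, hF_deriv hL z ht, rF_nonneg ht, dF_nonneg ht,
    hF_nonneg z ht, tF_sq_le hL hst z ht htR, (tF_le_dF hL ht).1, (tF_le_dF hL ht).2, ?_,
    mul_nonneg hm8.le hmin, ?_, ?_, fun _ => ?_⟩
  · refine t0F_sub hL hst z ht htR hmin fun i hi x hx => ?_
    rw [min_mul_of_nonneg _ _ ht.le]
    refine le_min (hb t ht h0t i hi x hx) ?_
    have hf : LipschitzWith L fun y => u i y - z := by
      simpa using (hL i).sub (LipschitzWith.const z)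
    have h1 := HK _ hf c t ht x hx (hb t ht h0t i hi x hx)
    have h2 : ∫ y in ball c t, (u i y - z) ^ 2 ≤ Ht s u z c t :=
      setIntegral_mono (intOn_sq_prop hf.continuous c t) (intOn_Ht hL z c t) fun y =>
        Finset.single_le_sum (f := fun j => (u j y - z) ^ 2) (fun j _ => sq_nonneg _) hi
    have h3 := (hF_le_Ht (s := s) (c := c) hL z h2t).2
    rw [mul_div_cancel_left₀ t two_ne_zero, div_le_iff₀ (by positivity)] at h3
    have h4 : (∫ y in ball c t, (u i y - z) ^ 2) / t ^ m ≤ 2 ^ m * hF s u z c (2 * t) := by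
      rw [div_le_iff₀ (by positivity)]
      refine h2.trans (h3.trans_eq ?_)
      ring
    have h5 : (|u i x - z| / t) ^ (m + 2) ≤ K * 2 ^ m * hF s u z c (2 * t) / t ^ 2 := by
      refine h1.trans ?_
      rw [mul_assoc]
      gcongr
    rw [← div_le_iff₀ ht]
    refine le_of_pow_le_pow_left₀ (n := m + 2) (by omega) (Real.rpow_nonneg hX _) ?_
    rwa [Real.rpow_inv_natCast_pow hX (by omega)]
  · have := mul_le_mul_of_nonneg_left (min_le_left B₀
      ((K * 2 ^ m * hF s u z c (2 * t) / t ^ 2) ^ (((m + 2 : ℕ) : ℝ)⁻¹))) hm8.le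
    linarith
  · have h1 := (hF_le_Ht (s := s) (c := c) hL z ht).1
    have h2 := Ht_le_prop hL ht (hb t ht h0t)
    have h3 : 6 / t ^ m * Ht s u z c t ≤ 6 / t ^ m * (Q * (B₀ * t) ^ 2 * (vb m * t ^ m)) := by
      refine mul_le_mul_of_nonneg_left (h2.trans ?_) (by positivity)
      gcongr
    have h4 : 6 / t ^ m * (Q * (B₀ * t) ^ 2 * (vb m * t ^ m)) =
        6 * (Q * B₀ ^ 2 * vb m) * t ^ 2 := by field_simp
    refine h1.trans (h3.trans (h4.trans_le ?_))
    exact mul_le_mul_of_nonneg_right (by linarith) (sq_nonneg t)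
  · have h1 := pow_le_pow_left₀ hmin (min_le_right _ _) (m + 2)
    rw [Real.rpow_inv_natCast_pow hX (by omega)] at h1
    rw [mul_pow]
    refine (mul_le_mul_of_nonneg_left h1 (by positivity)).trans_eq ?_
    ring

theorem abs_sub_le_prop {f : E m → ℝ} {L : ℝ≥0} (hf : LipschitzWith L f) (x y : E m) :
    |f x - f y| ≤ L * ‖x - y‖ := by
  simpa [dist_eq_norm, Real.dist_eq] using hf.dist_le_mul x y

/-- The height bound at a point of all sheets. -/
theorem prop_point (m Q : ℕ) (L : ℝ≥0) : ∃ C > 0, ∀ (s : Finset ι) (u : ι → E m → ℝ),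
    s.card ≤ Q → (∀ i, LipschitzWith L (u i)) → ∀ (c : E m) (z R : ℝ), Stat s u (ball c R) →
      (∀ i ∈ s, u i c = z) → ∀ r, 0 < r → r < R →
        Ht s u z c (r / 2) ≤ C * r ^ 2 * En s u 0 c r := by
  have hL0 : (0 : ℝ) ≤ L := L.coe_nonneg
  obtain ⟨C, hC, H⟩ := core_prop (ι := ι) m Q L (B₀ := L + 1) (B₁ := 1) (by positivity) one_pos
  refine ⟨C, hC, fun s u hs hL c z R hst hz r hr hrR =>
    H s u hs hL c z R 0 hst le_rfl (fun t ht _ i hi x hx => ?_) (fun h => absurd h (lt_irrefl 0))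
      r hr hr.le hrR⟩
  rw [← hz i hi]
  have h1 := abs_sub_le_prop (hL i) x c
  have h2 := mul_le_mul_of_nonneg_left (mem_ball_iff_norm.1 hx).le hL0
  linarith

/-- The height at twice the radius. -/
theorem double_prop {s : Finset ι} {u : ι → E m → ℝ} {L : ℝ≥0}
    (hL : ∀ i, LipschitzWith L (u i)) {c : E m} {R ρ : ℝ} (z : ℝ) (h : Stat s u (ball c R))
    (hρ : 0 < ρ) (hR : 2 * ρ < R) :
    hF s u z c (2 * ρ) ≤ WL L * dF s u c (2 * ρ) + 2 * hF s u z c ρ := by
  have hW : 0 < WL L := one_pos.trans_le (one_le_WL (L : ℝ))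
  have hd : ∀ t ∈ Icc ρ (2 * ρ), HasDerivAt
      (fun t => hF s u z c t / t - WL L / (2 * ρ) * dF s u c t)
      ((2 * t0F s u z c t / t * t - hF s u z c t * 1) / t ^ 2 -
        WL L / (2 * ρ) * ((2 * rF s u c t + 2 * (dF s u c t - tF s u c t)) / t)) t :=
    fun t ht => by
      have ht0 : 0 < t := hρ.trans_le ht.1
      exact ((hF_deriv hL z ht0).div (hasDerivAt_id' t) ht0.ne').sub
        ((dF_deriv hL h ht0 (ht.2.trans_lt hR)).1.const_mul _)
  have hρρ : ρ ≤ 2 * ρ := by linarith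
  have hanti := antitoneOn_of_hasDerivWithinAt_nonpos (convex_Icc ρ (2 * ρ))
    (fun t ht => (hd t ht).continuousAt.continuousWithinAt)
    (fun t ht => (hd t (interior_subset ht)).hasDerivWithinAt) (fun t ht => ?_)
    (left_mem_Icc.2 hρρ) (right_mem_Icc.2 hρρ) hρρ
  · have h1 := dF_nonneg (s := s) (u := u) (c := c) hρ
    have h2 : hF s u z c (2 * ρ) / (2 * ρ) - WL L / (2 * ρ) * dF s u c (2 * ρ) ≤
        hF s u z c ρ / ρ := by
      have : 0 ≤ WL L / (2 * ρ) * dF s u c ρ := by positivity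
      linarith
    have h3 := mul_le_mul_of_nonneg_right h2 (hρ.le.trans hρρ)
    have h4 : (hF s u z c (2 * ρ) / (2 * ρ) - WL L / (2 * ρ) * dF s u c (2 * ρ)) * (2 * ρ) =
        hF s u z c (2 * ρ) - WL L * dF s u c (2 * ρ) := by field_simp
    have h5 : hF s u z c ρ / ρ * (2 * ρ) = 2 * hF s u z c ρ := by field_simp
    linarith
  have hρt : ρ ≤ t := (interior_subset ht).1
  have ht0 : 0 < t := hρ.trans_le hρt
  have h1 := rF_nonneg (s := s) (u := u) (c := c) ht0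
  have h2 := (tF_le_dF (s := s) (c := c) hL ht0).2
  have h3 := hF_nonneg (s := s) (u := u) (c := c) z ht0
  have h4 := t0F_sq_le (s := s) (c := c) hL z ht0
  have h5 : 0 ≤ WL L * rF s u c t := mul_nonneg hW.le h1
  have h6 : 2 * t0F s u z c t ≤ hF s u z c t + WL L * rF s u c t := by
    refine (le_abs_self _).trans (abs_le_of_sq_le_sq ?_ (add_nonneg h3 h5))
    nlinarith [sq_nonneg (hF s u z c t - WL L * rF s u c t)]
  have h7 : (2 * t0F s u z c t / t * t - hF s u z c t * 1) / t ^ 2 ≤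
      WL L * rF s u c t / (ρ * t) := by
    rw [div_mul_cancel₀ _ ht0.ne']
    refine (div_le_div_of_nonneg_right (by linarith : _ ≤ WL L * rF s u c t) (sq_nonneg t)).trans ?_
    refine div_le_div_of_nonneg_left h5 (by positivity) ?_
    nlinarith
  have h8 : WL L * rF s u c t / (ρ * t) = WL L / (2 * ρ) * (2 * rF s u c t / t) := by
    field_simp
  have h9 : WL L / (2 * ρ) * (2 * rF s u c t / t) ≤
      WL L / (2 * ρ) * ((2 * rF s u c t + 2 * (dF s u c t - tF s u c t)) / t) :=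
    mul_le_mul_of_nonneg_left (div_le_div_of_nonneg_right (by linarith) ht0.le) (by positivity)
  linarith

/-- The height bound propagates to larger radii. -/
theorem prop_start (m Q : ℕ) (L : ℝ≥0) {B : ℝ} (hB : 0 < B) :
    ∃ C > 0, ∀ (s : Finset ι) (u : ι → E m → ℝ),
    s.card ≤ Q → (∀ i, LipschitzWith L (u i)) → ∀ (c : E m) (z R ρ : ℝ), Stat s u (ball c R) →
      0 < ρ → Ht s u z c ρ ≤ B * ρ ^ 2 * En s u 0 c ρ → ∀ r, 2 * ρ ≤ r → r < R →
        Ht s u z c (r / 2) ≤ C * r ^ 2 * En s u 0 c r := by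
  have hL0 : (0 : ℝ) ≤ L := L.coe_nonneg
  have hW : 0 < WL L := one_pos.trans_le (one_le_WL (L : ℝ))
  have hv := vb_pos m
  obtain ⟨K, hK⟩ : ∃ K : ℝ, K = B * (Q * L ^ 2) := ⟨_, rfl⟩
  have hK0 : 0 ≤ K := by rw [hK]; positivity
  obtain ⟨C, hC, H⟩ := core_prop (ι := ι) m Q L (B₀ := 2 * L + 1 + K)
    (B₁ := WL L + 9 * B * 2 ^ m * WL L) (by positivity) (by positivity)
  refine ⟨C, hC, fun s u hs hL c z R ρ hst hρ hH r hρr hrR => ?_⟩
  have hQ : (s.card : ℝ) ≤ Q := by exact_mod_cast hs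
  have h2ρ : 0 < 2 * ρ := by positivity
  refine H s u hs hL c z R (2 * ρ) hst h2ρ.le (fun t ht hρt i hi x hx => ?_) (fun _ => ?_) r
    (h2ρ.trans_le hρr) hρr hrR
  · have h1 : Ht s u z c ρ ≤ K * ρ ^ 2 * (vb m * ρ ^ m) := by
      refine hH.trans ((mul_le_mul_of_nonneg_left (En_le hL c hρ) (by positivity)).trans ?_)
      have : B * ρ ^ 2 * (s.card * L ^ 2 * (vb m * ρ ^ m)) ≤
          B * ρ ^ 2 * (Q * L ^ 2 * (vb m * ρ ^ m)) := by gcongr
      refine this.trans_eq ?_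
      rw [hK]; ring
    obtain ⟨y, hy, hyK⟩ := exists_le_avg hρ (intOn_Ht hL z c ρ) h1
    have h2 : (u i y - z) ^ 2 ≤ K * ρ ^ 2 :=
      (Finset.single_le_sum (f := fun j => (u j y - z) ^ 2) (fun j _ => sq_nonneg _) hi).trans hyK
    have h3 : |u i y - z| ≤ (1 + K) * ρ := by
      refine abs_le_of_sq_le_sq (h2.trans ?_) (by positivity)
      rw [mul_pow]
      exact mul_le_mul_of_nonneg_right (by nlinarith) (sq_nonneg ρ)
    have h4 := abs_sub_le_prop (hL i) x y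
    have h5 : ‖x - y‖ ≤ 2 * t := by
      have e : x - y = (x - c) - (y - c) := by abel
      rw [e]
      linarith [norm_sub_le (x - c) (y - c), mem_ball_iff_norm.1 hx, mem_ball_iff_norm.1 hy]
    have h6 := mul_le_mul_of_nonneg_left h5 hL0
    have h7 : (1 + K) * ρ ≤ (1 + K) * t :=
      mul_le_mul_of_nonneg_left (by linarith) (by positivity)
    have h8 := abs_sub_le (u i x) (u i y) z
    linarith
  · have h1 := double_prop hL z hst hρ (hρr.trans_lt hrR)
    have h2 := (hF_le_Ht (s := s) (c := c) hL z hρ).1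
    have h3 := (dF_le_En (s := s) (c := c) hL h2ρ).2
    rw [mul_div_cancel_left₀ ρ two_ne_zero] at h3
    have h4 : 6 / ρ ^ m * Ht s u z c ρ ≤ 6 / ρ ^ m * (B * ρ ^ 2 * En s u 0 c ρ) :=
      mul_le_mul_of_nonneg_left hH (by positivity)
    have h5 : 6 / ρ ^ m * (B * ρ ^ 2 * En s u 0 c ρ) =
        3 / 2 * B * 2 ^ m * ((2 * ρ) ^ 2 / (2 * ρ) ^ m * En s u 0 c ρ) := by
      rw [mul_pow 2 ρ m]; field_simp; ring
    have h6 := mul_le_mul_of_nonneg_left h3 (by positivity : 0 ≤ 3 / 2 * B * 2 ^ m)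
    nlinarith

end Pool.Agent.Lib.MP_8daebb_an.LG
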