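import Pool.Agent.Lib.MP_8daebb_an.LG.Osc

open MeasureTheory Metric Set Filter Topology
open scoped RealInnerProductSpace NNReal

namespace Pool.Agent.Lib.MP_8daebb_an.LG

variable {m : ℕ} {ι : Type}

/-! RH. The pointwise oscillation bound and the reverse Hoelder inequality. -/

theorem osc_sup [DecidableEq ι] (m Q : ℕ) (L : ℝ≥0) : ∃ Λ ≥ (1 : ℝ), ∃ C > 0,
    ∀ (s : Finset ι) (u : ι → E m → ℝ), s.card ≤ Q → (∀ i, LipschitzWith L (u i)) →
      ∀ (c : E m) (r : ℝ), 0 < r → Stat s u (ball c (Λ * r)) → ∀ i ∈ s, ∀ y ∈ ball c r,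
        |u i y - u i c| ≤ C * r * √(En s u 0 c (Λ * r) / r ^ m) := by
  obtain ⟨Λ, hΛ, C, hC, H⟩ := osc_avg (ι := ι) m Q L
  have hvb := vb_pos m
  refine ⟨2 * Λ, by linarith, √(10 * C / vb m), Real.sqrt_pos.2 (by positivity), ?_⟩
  intro s u hs hL c r hr hst i hi y hy
  have hsub : ball y (Λ * r) ⊆ ball c (2 * Λ * r) := by
    apply ball_subset_ball'
    have h1 : dist y c < r := hy
    nlinarith
  have hsub2 : ball y r ⊆ ball c (2 * r) := by
    apply ball_subset_ball'
    have h1 : dist y c < r := hy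
    linarith
  have e2 : Λ * (2 * r) = 2 * Λ * r := by ring
  have h1 := H s u hs hL y r hr (hst.mono hsub) i hi
  have h2 := H s u hs hL c (2 * r) (by linarith) (by rw [e2]; exact hst) i hi
  rw [e2] at h2
  have h3 := En_mono (s := s) hL 0 hsub
  have hcont : Continuous (u i) := (hL i).continuous
  have h4 := close_of_int' (c := y) hr hcont (u i y) (u i c)
  have h5 : ∫ x in ball y r, (u i x - u i c) ^ 2 ≤ ∫ x in ball c (2 * r), (u i x - u i c) ^ 2 := by
    apply setIntegral_mono_set
    · have : Continuous fun x => (u i x - u i c) ^ 2 := by fun_prop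
      exact (this.continuousOn.integrableOn_compact (isCompact_closedBall c (2 * r))).mono_set
        ball_subset_closedBall
    · exact Eventually.of_forall fun x => sq_nonneg _
    · exact hsub2.eventuallyLE
  set En0 := En s u 0 c (2 * Λ * r) with hEn0
  have hE : 0 ≤ En0 := En_nonneg _ _ _ _ _
  have hrm : 0 < r ^ m := pow_pos hr m
  have h6 : C * r ^ 2 * En s u 0 y (Λ * r) ≤ C * r ^ 2 * En0 :=
    mul_le_mul_of_nonneg_left h3 (by positivity)
  have h7 : (u i y - u i c) ^ 2 * (vb m * r ^ m) ≤ 10 * C * r ^ 2 * En0 := by nlinarith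
  have h8 : (u i y - u i c) ^ 2 ≤ (√(10 * C / vb m) * r * √(En0 / r ^ m)) ^ 2 := by
    rw [mul_pow, mul_pow, Real.sq_sqrt (by positivity), Real.sq_sqrt (by positivity)]
    have : 10 * C / vb m * r ^ 2 * (En0 / r ^ m) = 10 * C * r ^ 2 * En0 / (vb m * r ^ m) := by
      field_simp
    rw [this, le_div_iff₀ (by positivity)]
    exact h7
  exact abs_le_of_sq_le_sq' h8 (by positivity) |> abs_le.2

/-- The bounded increasing test profile. -/
noncomputable def theta_rh (s : Finset ι) (a : ι → ℝ) (M : ℝ) (z : ℝ) : ℝ :=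
  ∑ k ∈ s, M * Real.arctan ((z - a k) / M)

theorem theta_deriv_rh (s : Finset ι) (a : ι → ℝ) {M : ℝ} (hM : 0 < M) (z : ℝ) :
    HasDerivAt (theta_rh s a M) (∑ k ∈ s, 1 / (1 + ((z - a k) / M) ^ 2)) z := by
  unfold theta_rh
  apply HasDerivAt.fun_sum
  intro k _
  have h1 : HasDerivAt (fun z : ℝ => (z - a k) / M) (1 / M) z :=
    ((hasDerivAt_id z).sub_const (a k)).div_const M
  have h2 := (h1.arctan).const_mul M
  have e : M * (1 / (1 + ((z - a k) / M) ^ 2) * (1 / M)) = 1 / (1 + ((z - a k) / M) ^ 2) := by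
    rw [mul_comm, mul_assoc, one_div_mul_cancel hM.ne', mul_one]
  rw [e] at h2
  exact h2

theorem theta_locLip_rh (s : Finset ι) (a : ι → ℝ) (M : ℝ) :
    LocallyLipschitz (theta_rh s a M) := by
  have : ContDiff ℝ 1 (theta_rh s a M) := by
    unfold theta_rh
    apply ContDiff.sum
    intro k _
    exact contDiff_const.mul (ContDiff.arctan ((contDiff_id.sub contDiff_const).div_const M))
  exact this.locallyLipschitz

theorem theta_abs_rh (s : Finset ι) (a : ι → ℝ) {M : ℝ} (hM : 0 < M) (z : ℝ) :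
    |theta_rh s a M z| ≤ 2 * s.card * M := by
  unfold theta_rh
  refine (Finset.abs_sum_le_sum_abs _ _).trans ?_
  have : ∀ k ∈ s, |M * Real.arctan ((z - a k) / M)| ≤ 2 * M := by
    intro k _
    rw [abs_mul, abs_of_pos hM]
    have h1 := Real.arctan_lt_pi_div_two ((z - a k) / M)
    have h2 := Real.neg_pi_div_two_lt_arctan ((z - a k) / M)
    have h3 := Real.pi_le_four
    have : |Real.arctan ((z - a k) / M)| ≤ 2 := abs_le.2 ⟨by linarith, by linarith⟩
    nlinarith
  refine (Finset.sum_le_sum this).trans ?_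
  rw [Finset.sum_const, nsmul_eq_mul]
  linarith

theorem theta_ge_rh (s : Finset ι) (a : ι → ℝ) {M : ℝ} (hM : 0 < M) {z : ℝ} {i : ι} (hi : i ∈ s)
    (hz : |z - a i| ≤ M) : 1 / 2 ≤ ∑ k ∈ s, 1 / (1 + ((z - a k) / M) ^ 2) := by
  have h1 : 1 / 2 ≤ 1 / (1 + ((z - a i) / M) ^ 2) := by
    apply one_div_le_one_div_of_le (by positivity)
    have : ((z - a i) / M) ^ 2 ≤ 1 := by
      rw [div_pow, div_le_one (by positivity)]
      exact sq_le_sq' (by linarith [(abs_le.1 hz).1]) (abs_le.1 hz).2
    linarith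
  refine h1.trans ?_
  exact Finset.single_le_sum (f := fun k => 1 / (1 + ((z - a k) / M) ^ 2))
    (fun k _ => by positivity) hi

theorem norm_grad_chi_rh {c : E m} {r : ℝ} (hr : 0 < r) (x : E m) :
    ‖gradient (chi c (2 * r)) x‖ ≤ (ball c (2 * r)).indicator (fun _ => 3 / r) x := by
  rw [grad_chi]
  by_cases hx : x ∈ ball c (2 * r)
  · rw [indicator_of_mem hx, norm_smul, Real.norm_eq_abs, abs_neg]
    have h0 := om_nonneg c (2 * r) x
    have h1 := om_le c (2 * r) x
    have h2 : ‖x - c‖ < 2 * r := by rwa [mem_ball, dist_eq_norm] at hx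
    rw [abs_of_nonneg (by positivity)]
    calc 2 * om c (2 * r) x / (2 * r) ^ 2 * ‖x - c‖ ≤ 2 * 3 / (2 * r) ^ 2 * (2 * r) := by
          gcongr
      _ = 3 / r := by field_simp
  · rw [indicator_of_notMem hx]
    have : om c (2 * r) x = 0 := by
      unfold om
      rw [pr_eq_zero (by linarith) hx]
      ring
    rw [this]
    simp

theorem inner_aa_rh {p : E m} {L : ℝ} (h : ‖p‖ ≤ L) : ‖p‖ ^ 2 / WL L ≤ ⟪aa p, p⟫ := by
  unfold aa
  rw [real_inner_smul_left, real_inner_self_eq_norm_sq, mul_comm, ← div_eq_mul_inv]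
  have h1 := one_le_W p
  exact div_le_div_of_nonneg_left (by positivity) (by linarith) (W_le_WL h)

/-- The pointwise lower bound for the tested equation. -/
theorem pointwise_rh {s : Finset ι} {u : ι → E m → ℝ} {L : ℝ≥0} (hL : ∀ i, LipschitzWith L (u i))
    {c : E m} {r M : ℝ} (hr : 0 < r) (hM : 0 < M)
    (hb : ∀ i ∈ s, ∀ y ∈ ball c (2 * r), |u i y - u i c| ≤ M) {i : ι} (hi : i ∈ s) {x : E m}
    (hx : DifferentiableAt ℝ (u i) x) :
    (ball c r).indicator (fun x => 27 / (128 * WL L) * ‖gradient (u i) x‖ ^ 2) x -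
      (ball c (2 * r)).indicator (fun x => 6 * s.card * M / r * ‖gradient (u i) x‖) x ≤
      ⟪aa (gradient (u i) x), gradient (fun y => chi c (2 * r) y *
        theta_rh s (fun k => u k c) M (u i y - 0)) x⟫ := by
  have hd := theta_deriv_rh s (fun k => u k c) hM (u i x)
  have hχ : DifferentiableAt ℝ (chi c (2 * r)) x :=
    (contDiff_chi c (2 * r)).differentiable one_ne_zero x
  have hθ : DifferentiableAt ℝ (fun y => theta_rh s (fun k => u k c) M (u i y)) x :=
    hd.differentiableAt.comp x hx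
  simp only [sub_zero]
  rw [grad_mul hχ hθ, grad_comp hx hd, inner_add_right, real_inner_smul_right,
    real_inner_smul_right, real_inner_smul_right]
  set p := gradient (u i) x with hp
  set D := ∑ k ∈ s, 1 / (1 + ((u i x - u k c) / M) ^ 2) with hD
  have hD0 : 0 ≤ D := Finset.sum_nonneg fun k _ => by positivity
  have hW := one_le_WL (L : ℝ)
  have hpp := inner_aa_rh (norm_grad_le (hL i) x)
  rw [← hp] at hpp
  have hpp0 : 0 ≤ ‖p‖ ^ 2 / WL L := by positivity
  have hχ0 := chi_nonneg c (2 * r) x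
  have A : (ball c r).indicator (fun x => 27 / (128 * WL L) * ‖gradient (u i) x‖ ^ 2) x ≤
      chi c (2 * r) x * (D * ⟪aa p, p⟫) := by
    by_cases h : x ∈ ball c r
    · rw [indicator_of_mem h, ← hp]
      have h2 : x ∈ ball c (2 * r) := ball_subset_ball (by linarith) h
      have hD1 : 1 / 2 ≤ D := theta_ge_rh s (fun k => u k c) hM hi (hb i hi x h2)
      have h3 : 3 / 4 ≤ pr c (2 * r) x := pr_ge_half (by linarith) (by
        rwa [show 2 * r / 2 = r by ring])
      have h4 : 27 / 64 ≤ chi c (2 * r) x := by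
        unfold chi
        calc (27 / 64 : ℝ) = (3 / 4) ^ 3 := by norm_num
          _ ≤ _ := by gcongr
      calc 27 / (128 * WL L) * ‖p‖ ^ 2 = 27 / 64 * (1 / 2 * (‖p‖ ^ 2 / WL L)) := by
            field_simp
            ring
        _ ≤ _ := by gcongr
    · rw [indicator_of_notMem h]
      have : 0 ≤ ⟪aa p, p⟫ := hpp0.trans hpp
      positivity
  have B : |theta_rh s (fun k => u k c) M (u i x) * ⟪aa p, gradient (chi c (2 * r)) x⟫| ≤
      (ball c (2 * r)).indicator (fun x => 6 * s.card * M / r * ‖gradient (u i) x‖) x := by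
    have h1 := theta_abs_rh s (fun k => u k c) hM (u i x)
    have h2 := abs_real_inner_le_norm (aa p) (gradient (chi c (2 * r)) x)
    have h3 := norm_aa_le p
    have h4 := norm_grad_chi_rh (c := c) hr x
    rw [abs_mul]
    by_cases h : x ∈ ball c (2 * r)
    · rw [indicator_of_mem h] at h4 ⊢
      rw [← hp]
      calc _ ≤ 2 * s.card * M * (‖p‖ * (3 / r)) := by
            gcongr
            exact h2.trans (by gcongr)
        _ = _ := by ring
    · rw [indicator_of_notMem h] at h4 ⊢
      have h5 : ‖gradient (chi c (2 * r)) x‖ = 0 := le_antisymm h4 (norm_nonneg _)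
      rw [h5, mul_zero] at h2
      have h6 : |⟪aa p, gradient (chi c (2 * r)) x⟫| = 0 := le_antisymm h2 (abs_nonneg _)
      rw [h6, mul_zero]
  have B' := (abs_le.1 B).1
  linarith

theorem int_test_rh {f : E m → ℝ} (hf : LocallyLipschitz f) (hc : HasCompactSupport f)
    (v : E m → ℝ) : Integrable fun x => ⟪aa (gradient v x), gradient f x⟫ := by
  obtain ⟨K, hK⟩ := locLip_compact hf hc
  have hm : Measurable fun x => ⟪aa (gradient v x), gradient f x⟫ :=
    (contDiff_aa.continuous.measurable.comp (meas_grad v)).inner (meas_grad f)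
  refine int_of_compact hm.aestronglyMeasurable hc.isCompact (C := K) ?_ ?_
  · refine Eventually.of_forall fun x _ => ?_
    have h1 := norm_inner_le_norm (𝕜 := ℝ) (aa (gradient v x)) (gradient f x)
    have h2 := norm_aa_le_one (gradient v x)
    have h3 := norm_grad_le hK x
    calc _ ≤ _ := h1
      _ ≤ 1 * K := by gcongr
      _ = K := one_mul _
  · refine Eventually.of_forall fun x hx => ?_
    rw [grad_eq_zero_of_notMem hx, inner_zero_right]

theorem intOn_sqrt_rh {s : Finset ι} {u : ι → E m → ℝ} {L : ℝ≥0}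
    (hL : ∀ i, LipschitzWith L (u i)) (c : E m) (r : ℝ) :
    IntegrableOn (fun x => √(∑ i ∈ s, ‖gradient (u i) x - 0‖ ^ 2)) (ball c r) := by
  have hm : Measurable fun x => √(∑ i ∈ s, ‖gradient (u i) x - 0‖ ^ 2) := by
    apply Measurable.sqrt
    apply Finset.measurable_sum
    intro i _
    exact (((meas_grad (u i)).sub_const 0).norm).pow_const 2
  refine intOn_ball hm.aestronglyMeasurable (C := √(∑ _i ∈ s, (L : ℝ) ^ 2)) ?_
  refine Eventually.of_forall fun x _ => ?_
  rw [Real.norm_eq_abs, abs_of_nonneg (Real.sqrt_nonneg _)]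
  apply Real.sqrt_le_sqrt
  apply Finset.sum_le_sum
  intro i _
  rw [sub_zero]
  have := norm_grad_le (hL i) x
  gcongr

/-- The Caccioppoli type inequality with a bounded oscillation. -/
theorem cacc_rh {s : Finset ι} {u : ι → E m → ℝ} {L : ℝ≥0} (hL : ∀ i, LipschitzWith L (u i))
    {c : E m} {r R M : ℝ} (hr : 0 < r) (hR : 2 * r < R) (hM : 0 < M) (hst : Stat s u (ball c R))
    (hb : ∀ i ∈ s, ∀ y ∈ ball c (2 * r), |u i y - u i c| ≤ M) :
    27 / (128 * WL L) * En s u 0 c r ≤ 6 * s.card ^ 2 * M / r *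
      ∫ x in ball c (2 * r), √(∑ i ∈ s, ‖gradient (u i) x - 0‖ ^ 2) := by
  have hr2 : 0 < 2 * r := by linarith
  have hχL : LocallyLipschitz (chi c (2 * r)) := (contDiff_chi c (2 * r)).locallyLipschitz
  have hχc : HasCompactSupport (chi c (2 * r)) :=
    (isCompact_closedBall c (2 * r)).of_isClosed_subset (isClosed_tsupport _) (tsupport_chi hr2)
  have hχs : tsupport (chi c (2 * r)) ⊆ ball c R :=
    (tsupport_chi hr2).trans (closedBall_subset_ball hR)
  have hθL := theta_locLip_rh s (fun k => u k c) M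
  have h0 : LocallyLipschitz fun _ : E m => (0 : ℝ) := (LipschitzWith.const 0).locallyLipschitz
  have key := hst.outer (f := fun _ => 0) hχL hχc hχs h0 hθL
  have hint : ∀ i ∈ s, Integrable fun x => ⟪aa (gradient (u i) x),
      gradient (fun y => chi c (2 * r) y * theta_rh s (fun k => u k c) M (u i y - 0)) x⟫ := by
    intro i _
    apply int_test_rh
    · apply locLip_mul hχL
      simp only [sub_zero]
      exact hθL.comp (hL i).locallyLipschitz
    · exact hχc.mul_right
  rw [← integral_finset_sum _ hint] at key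
  have i1 : Integrable ((ball c r).indicator
      fun x => 27 / (128 * WL L) * ∑ i ∈ s, ‖gradient (u i) x - 0‖ ^ 2) :=
    (integrable_indicator_iff measurableSet_ball).2 ((intOn_En hL 0 c r 2).const_mul _)
  have i2 : Integrable ((ball c (2 * r)).indicator
      fun x => 6 * s.card ^ 2 * M / r * √(∑ i ∈ s, ‖gradient (u i) x - 0‖ ^ 2)) :=
    (integrable_indicator_iff measurableSet_ball).2 ((intOn_sqrt_rh hL c (2 * r)).const_mul _)
  have hae : ∀ᵐ x, ∀ i ∈ s, DifferentiableAt ℝ (u i) x := by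
    rw [Finset.eventually_all]
    intro i _
    exact (hL i).ae_differentiableAt
  have hle := integral_mono_ae (i1.sub i2) (integrable_finset_sum _ hint) (by
    filter_upwards [hae] with x hx
    have h1 := Finset.sum_le_sum fun i hi => pointwise_rh hL hr hM hb hi (hx i hi)
    refine le_trans ?_ h1
    rw [Finset.sum_sub_distrib]
    simp only [Pi.sub_apply]
    apply sub_le_sub
    · by_cases h : x ∈ ball c r
      · simp only [indicator_of_mem h, sub_zero, Finset.mul_sum, le_refl]
      · simp only [indicator_of_notMem h, Finset.sum_const_zero, le_refl]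
    · by_cases h : x ∈ ball c (2 * r)
      · simp only [indicator_of_mem h]
        have h2 : ∀ i ∈ s, 6 * s.card * M / r * ‖gradient (u i) x‖ ≤
            6 * s.card * M / r * √(∑ i ∈ s, ‖gradient (u i) x - 0‖ ^ 2) := by
          intro i hi
          gcongr
          apply Real.le_sqrt_of_sq_le
          simp only [sub_zero]
          exact Finset.single_le_sum (f := fun i => ‖gradient (u i) x‖ ^ 2)
            (fun k _ => by positivity) hi
        refine (Finset.sum_le_sum h2).trans (le_of_eq ?_)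
        rw [Finset.sum_const, nsmul_eq_mul]
        ring
      · simp only [indicator_of_notMem h, Finset.sum_const_zero, le_refl])
  rw [key] at hle
  have e := integral_sub i1 i2
  simp only [Pi.sub_apply] at hle
  rw [e, integral_indicator measurableSet_ball, integral_indicator measurableSet_ball,
    integral_const_mul, integral_const_mul] at hle
  unfold En
  linarith

theorem rev_hoelder [DecidableEq ι] (m Q : ℕ) (L : ℝ≥0) : ∃ Λ ≥ (1 : ℝ), ∃ K > 0,
    ∀ (s : Finset ι) (u : ι → E m → ℝ), s.card ≤ Q → (∀ i, LipschitzWith L (u i)) →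
      ∀ (c : E m) (r : ℝ), 0 < r → Stat s u (ball c (Λ * r)) →
        En s u 0 c r ≤ K * √(En s u 0 c (Λ * r) / r ^ m) *
          ∫ x in ball c (Λ * r), √(∑ i ∈ s, ‖gradient (u i) x - 0‖ ^ 2) := by
  obtain ⟨Λ, hΛ, C, hC, H⟩ := osc_sup (ι := ι) m Q L
  have hW := one_le_WL (L : ℝ)
  refine ⟨3 * Λ, by linarith, 128 * WL L / 27 * (12 * (Q + 1) ^ 2 * C), by positivity, ?_⟩
  intro s u hs hL c r hr hst
  have hsub : ball c (Λ * (2 * r)) ⊆ ball c (3 * Λ * r) := ball_subset_ball (by nlinarith)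
  have hsub1 : ball c r ⊆ ball c (3 * Λ * r) := ball_subset_ball (by nlinarith)
  have hsub2 : ball c (2 * r) ⊆ ball c (3 * Λ * r) := ball_subset_ball (by nlinarith)
  have hrm : 0 < r ^ m := pow_pos hr m
  set En0 := En s u 0 c (3 * Λ * r) with hEn0
  have hE : 0 ≤ En0 := En_nonneg _ _ _ _ _
  have hI : 0 ≤ ∫ x in ball c (3 * Λ * r), √(∑ i ∈ s, ‖gradient (u i) x - 0‖ ^ 2) :=
    integral_nonneg fun x => Real.sqrt_nonneg _
  rcases hE.eq_or_lt with h0 | hpos
  · have h1 := En_mono (s := s) hL 0 hsub1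
    rw [← hEn0, ← h0] at h1
    exact h1.trans (by positivity)
  have hS : 0 < √(En0 / r ^ m) := Real.sqrt_pos.2 (by positivity)
  have hb : ∀ i ∈ s, ∀ y ∈ ball c (2 * r), |u i y - u i c| ≤ C * (2 * r) * √(En0 / r ^ m) := by
    intro i hi y hy
    refine (H s u hs hL c (2 * r) (by linarith) (hst.mono hsub) i hi y hy).trans ?_
    have h1 := En_mono (s := s) hL 0 hsub
    gcongr
    linarith
  have h2 := cacc_rh hL hr (R := 3 * Λ * r) (by nlinarith) (by positivity) hst hb
  have h3 : ∫ x in ball c (2 * r), √(∑ i ∈ s, ‖gradient (u i) x - 0‖ ^ 2) ≤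
      ∫ x in ball c (3 * Λ * r), √(∑ i ∈ s, ‖gradient (u i) x - 0‖ ^ 2) :=
    setIntegral_mono_set (intOn_sqrt_rh hL c _) (Eventually.of_forall fun x => Real.sqrt_nonneg _)
      hsub2.eventuallyLE
  have hQ : (s.card : ℝ) ≤ Q + 1 := by
    have : (s.card : ℝ) ≤ Q := by exact_mod_cast hs
    linarith
  have h4 : 6 * (s.card : ℝ) ^ 2 * (C * (2 * r) * √(En0 / r ^ m)) / r *
      ∫ x in ball c (2 * r), √(∑ i ∈ s, ‖gradient (u i) x - 0‖ ^ 2) ≤
      12 * (Q + 1) ^ 2 * C * √(En0 / r ^ m) *
        ∫ x in ball c (3 * Λ * r), √(∑ i ∈ s, ‖gradient (u i) x - 0‖ ^ 2) := by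
    have e : 6 * (s.card : ℝ) ^ 2 * (C * (2 * r) * √(En0 / r ^ m)) / r =
        12 * (s.card : ℝ) ^ 2 * C * √(En0 / r ^ m) := by
      field_simp
      ring
    rw [e]
    gcongr
  have h5 := h2.trans h4
  have e2 : En s u 0 c r = 128 * WL L / 27 * (27 / (128 * WL L) * En s u 0 c r) := by
    field_simp
  rw [e2]
  calc _ ≤ 128 * WL L / 27 * (12 * (Q + 1) ^ 2 * C * √(En0 / r ^ m) *
        ∫ x in ball c (3 * Λ * r), √(∑ i ∈ s, ‖gradient (u i) x - 0‖ ^ 2)) := by gcongr
    _ = _ := by ring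

end Pool.Agent.Lib.MP_8daebb_an.LG
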