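import Pool.Agent.Lib.MP_8daebb_an.LG.Alg
import Pool.Agent.Lib.MP_8daebb_an.LG.Lip

open MeasureTheory Metric Set Filter Topology
open scoped RealInnerProductSpace NNReal

namespace Pool.Agent.Lib.MP_8daebb_an.LG

variable {m : ℕ} {ι : Type}

/-! ROTA. Rotation of one Lipschitz graph in the plane spanned by `e` and the vertical. -/

/-- The horizontal part of the rotated graph point. -/
noncomputable def rotX (e : E m) (c σ : ℝ) (f : E m → ℝ) (x : E m) : E m :=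
  x + ((c - 1) * ⟪x, e⟫ + σ * f x) • e

/-- The Jacobian of `rotX`. -/
noncomputable def rotJ (e : E m) (c σ : ℝ) (f : E m → ℝ) (x : E m) : ℝ :=
  c + σ * ⟪gradient f x, e⟫

/-- `f'` is the function whose graph is the rotated graph of `f`. -/
structure IsRot (e : E m) (c σ : ℝ) (f f' : E m → ℝ) : Prop where
  bij : Function.Bijective (rotX e c σ f)
  val : ∀ x, f' (rotX e c σ f x) = -σ * ⟪x, e⟫ + c * f x
  cov : ∀ g : E m → ENNReal, Measurable g →
    ∫⁻ y, g y = ∫⁻ x, g (rotX e c σ f x) * ENNReal.ofReal (rotJ e c σ f x)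
  grad : ∀ᵐ x, DifferentiableAt ℝ f x ∧ DifferentiableAt ℝ f' (rotX e c σ f x) ∧
    gradient f' (rotX e c σ f x) =
      (rotJ e c σ f x)⁻¹ • (gradient f x + ((c - 1) * ⟪gradient f x, e⟫ - σ) • e)

theorem null_image_rota {Φ : E m → E m} {K : ℝ≥0} (h : LipschitzWith K Φ) {s : Set (E m)}
    (hs : volume s = 0) : volume (Φ '' s) = 0 := by
  have h1 : (μH[Module.finrank ℝ (E m)] : Measure (E m)) s = 0 :=
    Measure.absolutelyContinuous_isAddHaarMeasure _ volume hs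
  have h2 := h.hausdorffMeasure_image_le (d := (Module.finrank ℝ (E m) : ℝ)) (by positivity) s
  rw [h1, mul_zero] at h2
  exact Measure.absolutelyContinuous_isAddHaarMeasure volume _ (le_zero_iff.1 h2)

theorem abs_le_one_rota {c σ : ℝ} (h : c ^ 2 + σ ^ 2 = 1) : |c| ≤ 1 ∧ |σ| ≤ 1 := by
  constructor
  · rw [← sq_le_one_iff_abs_le_one]; nlinarith [sq_nonneg σ]
  · rw [← sq_le_one_iff_abs_le_one]; nlinarith [sq_nonneg c]

theorem abs_sub_le_rota {f : E m → ℝ} {L : ℝ≥0} (hf : LipschitzWith L f) (x y : E m) :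
    |f x - f y| ≤ L * ‖x - y‖ := by
  have := hf.dist_le_mul x y
  rwa [Real.dist_eq, dist_eq_norm] at this

theorem abs_inner_le_rota {e : E m} (he : ‖e‖ = 1) (x : E m) : |⟪x, e⟫| ≤ ‖x‖ := by
  have := abs_real_inner_le_norm x e
  rwa [he, mul_one] at this

theorem inner_self_rota {e : E m} (he : ‖e‖ = 1) : ⟪e, e⟫ = (1 : ℝ) := by
  rw [real_inner_self_eq_norm_sq, he]; norm_num

theorem perp_le_rota {e : E m} (he : ‖e‖ = 1) (v : E m) : ‖v - ⟪v, e⟫ • e‖ ≤ ‖v‖ := by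
  have h1 : ‖v - ⟪v, e⟫ • e‖ ^ 2 = ‖v‖ ^ 2 - ⟪v, e⟫ ^ 2 := by
    rw [@norm_sub_sq_real, inner_smul_right, norm_smul, he, Real.norm_eq_abs, mul_one, sq_abs]
    ring
  have h2 : ‖v - ⟪v, e⟫ • e‖ ^ 2 ≤ ‖v‖ ^ 2 := by rw [h1]; nlinarith [sq_nonneg ⟪v, e⟫]
  exact (pow_le_pow_iff_left₀ (norm_nonneg _) (norm_nonneg _) two_ne_zero).1 h2

theorem inv_est_rota {L : ℝ≥0} {δ : ℝ} (hδ : 0 < δ) {e : E m} {c σ : ℝ} (he : ‖e‖ = 1)
    (hcσ : c ^ 2 + σ ^ 2 = 1) (hσ : 0 ≤ σ) (hc : δ ≤ c - σ * L) {f : E m → ℝ}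
    (hf : LipschitzWith L f) (x y : E m) :
    ‖x - y‖ ≤ (1 + (1 + L) / δ) * ‖rotX e c σ f x - rotX e c σ f y‖ := by
  set v := rotX e c σ f x - rotX e c σ f y with hv
  set a : ℝ := ⟪x - y, e⟫ with ha
  have hee := inner_self_rota he
  have hv' : v = (x - y) + ((c - 1) * a + σ * (f x - f y)) • e := by
    rw [hv, ha, inner_sub_left]
    simp only [rotX]
    module
  have hb : ⟪v, e⟫ = c * a + σ * (f x - f y) := by
    rw [hv', inner_add_left, inner_smul_left, hee, ← ha]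
    simp only [conj_trivial]
    ring
  have hw : (x - y) - a • e = v - ⟪v, e⟫ • e := by
    rw [hb]
    conv_rhs => rw [hv']
    module
  have hw1 : ‖(x - y) - a • e‖ ≤ ‖v‖ := by rw [hw]; exact perp_le_rota he v
  have hb1 : |c * a + σ * (f x - f y)| ≤ ‖v‖ := by rw [← hb]; exact abs_inner_le_rota he v
  have hxy : ‖x - y‖ ≤ ‖v‖ + |a| := by
    calc ‖x - y‖ = ‖((x - y) - a • e) + a • e‖ := by rw [sub_add_cancel]
      _ ≤ ‖(x - y) - a • e‖ + ‖a • e‖ := norm_add_le _ _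
      _ ≤ ‖v‖ + |a| := by
        rw [norm_smul, he, mul_one, Real.norm_eq_abs]; linarith
  have hL : (0 : ℝ) ≤ L := L.2
  have hfl := abs_sub_le_rota hf x y
  have hσ1 : σ ≤ 1 := (le_abs_self σ).trans (abs_le_one_rota hcσ).2
  have hc0 : 0 < c := by nlinarith [mul_nonneg hσ hL]
  have h1 : c * |a| ≤ ‖v‖ + σ * (L * (‖v‖ + |a|)) := by
    have e1 : c * |a| = |(c * a + σ * (f x - f y)) - σ * (f x - f y)| := by
      rw [add_sub_cancel_right, abs_mul, abs_of_pos hc0]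
    have e2 : |σ * (f x - f y)| ≤ σ * (L * (‖v‖ + |a|)) := by
      rw [abs_mul, abs_of_nonneg hσ]
      exact mul_le_mul_of_nonneg_left
        (hfl.trans (mul_le_mul_of_nonneg_left hxy hL)) hσ
    rw [e1]
    exact (abs_sub _ _).trans (add_le_add hb1 e2)
  have h2 : δ * |a| ≤ (1 + L) * ‖v‖ := by
    have e3 : δ * |a| ≤ (c - σ * L) * |a| := mul_le_mul_of_nonneg_right hc (abs_nonneg a)
    have e4 : σ * (L * ‖v‖) ≤ 1 * (L * ‖v‖) :=
      mul_le_mul_of_nonneg_right hσ1 (mul_nonneg hL (norm_nonneg v))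
    nlinarith
  have h3 : |a| ≤ (1 + L) / δ * ‖v‖ := by
    rw [div_mul_eq_mul_div, le_div_iff₀ hδ]; linarith
  nlinarith

theorem surj_rota {L : ℝ≥0} {δ : ℝ} (hδ : 0 < δ) {e : E m} {c σ : ℝ} (he : ‖e‖ = 1)
    (hσ : 0 ≤ σ) (hc : δ ≤ c - σ * L) {f : E m → ℝ}
    (hf : LipschitzWith L f) : Function.Surjective (rotX e c σ f) := by
  intro y
  have hee := inner_self_rota he
  set h : ℝ → ℝ := fun t => c * t + (c - 1) * ⟪y, e⟫ + σ * f (y + t • e) with hh
  have hcont : Continuous h := by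
    have := hf.continuous
    simp only [hh]
    fun_prop
  set T : ℝ := |h 0| / δ with hT
  have hT0 : 0 ≤ T := div_nonneg (abs_nonneg _) hδ.le
  have hTδ : δ * T = |h 0| := by rw [hT]; field_simp
  have hL : (0 : ℝ) ≤ L := L.2
  have hdiff : ∀ t : ℝ, |f (y + t • e) - f (y + (0 : ℝ) • e)| ≤ L * |t| := by
    intro t
    have := abs_sub_le_rota hf (y + t • e) y
    rw [add_sub_cancel_left, norm_smul, he, mul_one, Real.norm_eq_abs] at this
    rwa [zero_smul, add_zero]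
  have hδT : δ * T ≤ (c - σ * L) * T := mul_le_mul_of_nonneg_right hc hT0
  have h1 : 0 ≤ h T := by
    have a1 := (abs_le.1 (hdiff T)).1
    rw [abs_of_nonneg hT0] at a1
    have a2 := mul_le_mul_of_nonneg_left a1 hσ
    have a3 := neg_abs_le (h 0)
    have a4 : h T = h 0 + c * T + σ * (f (y + T • e) - f (y + (0 : ℝ) • e)) := by
      simp only [hh]; ring
    nlinarith
  have h2 : h (-T) ≤ 0 := by
    have a1 := (abs_le.1 (hdiff (-T))).2
    rw [abs_neg, abs_of_nonneg hT0] at a1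
    have a2 := mul_le_mul_of_nonneg_left a1 hσ
    have a3 := le_abs_self (h 0)
    have a4 : h (-T) = h 0 - c * T + σ * (f (y + (-T) • e) - f (y + (0 : ℝ) • e)) := by
      simp only [hh]; ring
    nlinarith
  obtain ⟨t, -, ht⟩ := intermediate_value_Icc (show -T ≤ T by linarith) hcont.continuousOn
    (show (0 : ℝ) ∈ Icc (h (-T)) (h T) from ⟨h2, h1⟩)
  refine ⟨y + t • e, ?_⟩
  have e1 : t + ((c - 1) * ⟪y + t • e, e⟫ + σ * f (y + t • e)) = 0 := by
    rw [inner_add_left, inner_smul_left, hee]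
    simp only [conj_trivial]
    simp only [hh] at ht
    linarith
  simp only [rotX]
  rw [add_assoc, ← add_smul, e1, zero_smul, add_zero]

theorem lip_rotX_rota {L : ℝ≥0} {e : E m} {c σ : ℝ} {f : E m → ℝ} (hf : LipschitzWith L f) :
    ∃ K : ℝ≥0, LipschitzWith K (rotX e c σ f) := by
  refine ⟨NNReal.mk (1 + (|c - 1| * ‖e‖ + |σ| * L) * ‖e‖) (by positivity), ?_⟩
  refine LipschitzWith.of_dist_le_mul fun x y => ?_
  rw [dist_eq_norm, dist_eq_norm]
  have hv' : rotX e c σ f x - rotX e c σ f y =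
      (x - y) + ((c - 1) * ⟪x - y, e⟫ + σ * (f x - f y)) • e := by
    rw [inner_sub_left]
    simp only [rotX]
    module
  have h1 : |(c - 1) * ⟪x - y, e⟫ + σ * (f x - f y)| ≤ (|c - 1| * ‖e‖ + |σ| * L) * ‖x - y‖ := by
    have a1 := abs_real_inner_le_norm (x - y) e
    have a2 := abs_sub_le_rota hf x y
    calc _ ≤ |(c - 1) * ⟪x - y, e⟫| + |σ * (f x - f y)| := abs_add_le _ _
      _ = |c - 1| * |⟪x - y, e⟫| + |σ| * |f x - f y| := by rw [abs_mul, abs_mul]
      _ ≤ |c - 1| * (‖x - y‖ * ‖e‖) + |σ| * (L * ‖x - y‖) := by gcongr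
      _ = _ := by ring
  rw [hv']
  calc _ ≤ ‖x - y‖ + ‖((c - 1) * ⟪x - y, e⟫ + σ * (f x - f y)) • e‖ := norm_add_le _ _
    _ ≤ ‖x - y‖ + (|c - 1| * ‖e‖ + |σ| * L) * ‖x - y‖ * ‖e‖ := by
      rw [norm_smul, Real.norm_eq_abs]; gcongr
    _ = _ := by simp only [NNReal.coe_mk]; ring

/-- The differential of the vertical displacement. -/
noncomputable def kap_rota (e : E m) (c σ : ℝ) (f : E m → ℝ) (x : E m) : E m →L[ℝ] ℝ :=
  (c - 1) • innerSL ℝ e + σ • fderiv ℝ f x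

theorem kap_apply_rota (e : E m) (c σ : ℝ) (f : E m → ℝ) (x v : E m) :
    kap_rota e c σ f x v = (c - 1) * ⟪v, e⟫ + σ * ⟪gradient f x, v⟫ := by
  rw [inner_grad, real_inner_comm]
  simp [kap_rota]

/-- The differential of `rotX`. -/
noncomputable def dX_rota (e : E m) (c σ : ℝ) (f : E m → ℝ) (x : E m) : E m →L[ℝ] E m :=
  ContinuousLinearMap.id ℝ (E m) + (kap_rota e c σ f x).smulRight e

theorem dX_apply_rota (e : E m) (c σ : ℝ) (f : E m → ℝ) (x v : E m) :
    dX_rota e c σ f x v = v + kap_rota e c σ f x v • e := by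
  simp [dX_rota]

theorem hasF_inner_rota (e x : E m) :
    HasFDerivAt (fun x : E m => ⟪x, e⟫) (innerSL ℝ e) x := by
  have : (fun x : E m => ⟪x, e⟫) = innerSL ℝ e := by
    funext y; simp [real_inner_comm]
  rw [this]
  exact (innerSL ℝ e).hasFDerivAt

theorem hasF_rotX_rota (e : E m) (c σ : ℝ) {f : E m → ℝ} {x : E m}
    (hx : DifferentiableAt ℝ f x) : HasFDerivAt (rotX e c σ f) (dX_rota e c σ f x) x := by
  have h1 : HasFDerivAt (fun x : E m => (c - 1) * ⟪x, e⟫ + σ * f x) (kap_rota e c σ f x) x :=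
    ((hasF_inner_rota e x).const_mul (c - 1)).add (hx.hasFDerivAt.const_mul σ)
  exact (hasFDerivAt_id x).add (h1.smul_const e)

theorem kap_e_rota {e : E m} (he : ‖e‖ = 1) (c σ : ℝ) (f : E m → ℝ) (x : E m) :
    1 + kap_rota e c σ f x e = rotJ e c σ f x := by
  rw [kap_apply_rota, inner_self_rota he, rotJ]; ring

theorem det_dX_rota {e : E m} (he : ‖e‖ = 1) (c σ : ℝ) (f : E m → ℝ) (x : E m) :
    (dX_rota e c σ f x).det = rotJ e c σ f x := by
  have h1 : ((dX_rota e c σ f x : E m →L[ℝ] E m) : E m →ₗ[ℝ] E m) =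
      LinearMap.transvection ((kap_rota e c σ f x : E m →L[ℝ] ℝ) : E m →ₗ[ℝ] ℝ) e := by
    refine LinearMap.ext fun v => ?_
    rw [LinearMap.transvection.apply]
    exact dX_apply_rota e c σ f x v
  rw [ContinuousLinearMap.det, h1, LinearMap.transvection.det]
  exact kap_e_rota he c σ f x

theorem rotJ_pos_rota {L : ℝ≥0} {δ : ℝ} (hδ : 0 < δ) {e : E m} {c σ : ℝ} (he : ‖e‖ = 1)
    (hσ : 0 ≤ σ) (hc : δ ≤ c - σ * L) {f : E m → ℝ} (hf : LipschitzWith L f) (x : E m) :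
    0 < rotJ e c σ f x := by
  have h1 := (abs_le.1 ((abs_inner_le_rota he (gradient f x)).trans (norm_grad_le hf x))).1
  have h2 := mul_le_mul_of_nonneg_left h1 hσ
  rw [rotJ]; linarith

/-- The inverse of the differential of `rotX`. -/
noncomputable def iX_rota (e : E m) (c σ : ℝ) (f : E m → ℝ) (x : E m) : E m →L[ℝ] E m :=
  ContinuousLinearMap.id ℝ (E m) - (rotJ e c σ f x)⁻¹ • (kap_rota e c σ f x).smulRight e

theorem iX_apply_rota (e : E m) (c σ : ℝ) (f : E m → ℝ) (x v : E m) :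
    iX_rota e c σ f x v = v - ((rotJ e c σ f x)⁻¹ * kap_rota e c σ f x v) • e := by
  simp [iX_rota, smul_smul]

/-- The differential of `rotX` as an isomorphism. -/
noncomputable def eX_rota {e : E m} (he : ‖e‖ = 1) (c σ : ℝ) (f : E m → ℝ) (x : E m)
    (hJ : rotJ e c σ f x ≠ 0) : E m ≃L[ℝ] E m :=
  ContinuousLinearEquiv.equivOfInverse (dX_rota e c σ f x) (iX_rota e c σ f x)
    (fun v => by
      have h1 := kap_e_rota he c σ f x
      have h2 : (rotJ e c σ f x)⁻¹ * (kap_rota e c σ f x v +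
          kap_rota e c σ f x v * kap_rota e c σ f x e) = kap_rota e c σ f x v := by
        rw [← h1] at hJ ⊢; field_simp
      rw [iX_apply_rota, dX_apply_rota, map_add, map_smul, smul_eq_mul, h2, add_sub_cancel_right])
    (fun v => by
      have h1 := kap_e_rota he c σ f x
      have h2 : kap_rota e c σ f x v - (rotJ e c σ f x)⁻¹ * kap_rota e c σ f x v *
          kap_rota e c σ f x e = (rotJ e c σ f x)⁻¹ * kap_rota e c σ f x v := by
        rw [← h1] at hJ ⊢; field_simp; ring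
      rw [dX_apply_rota, iX_apply_rota, map_sub, map_smul, smul_eq_mul, h2, sub_add_cancel])

theorem eX_symm_rota {e : E m} (he : ‖e‖ = 1) (c σ : ℝ) (f : E m → ℝ) (x : E m)
    (hJ : rotJ e c σ f x ≠ 0) (v : E m) : (eX_rota he c σ f x hJ).symm v =
      v - ((rotJ e c σ f x)⁻¹ * kap_rota e c σ f x v) • e :=
  iX_apply_rota e c σ f x v

theorem cov_rota {L : ℝ≥0} {e : E m} {c σ : ℝ} (he : ‖e‖ = 1) {f : E m → ℝ}
    (hf : LipschitzWith L f) (hb : Function.Bijective (rotX e c σ f))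
    (hJ : ∀ x, 0 < rotJ e c σ f x) (g : E m → ENNReal) :
    ∫⁻ y, g y = ∫⁻ x, g (rotX e c σ f x) * ENNReal.ofReal (rotJ e c σ f x) := by
  set S : Set (E m) := {x | DifferentiableAt ℝ f x} with hS
  have hSm : MeasurableSet S := measurableSet_of_differentiableAt ℝ f
  have hSae : ∀ᵐ x, x ∈ S := hf.ae_differentiableAt
  obtain ⟨K, hK⟩ := lip_rotX_rota (e := e) (c := c) (σ := σ) hf
  have hI : ∀ᵐ y, y ∈ rotX e c σ f '' S := by
    have h1 : volume (rotX e c σ f '' Sᶜ) = 0 := null_image_rota hK hSae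
    rw [image_compl_eq hb] at h1
    exact h1
  have h2 := lintegral_image_eq_lintegral_abs_det_fderiv_mul volume hSm
    (fun x hx => (hasF_rotX_rota e c σ hx).hasFDerivWithinAt) hb.1.injOn g
  rw [Measure.restrict_eq_self_of_ae_mem hI, Measure.restrict_eq_self_of_ae_mem hSae] at h2
  rw [h2]
  refine lintegral_congr fun x => ?_
  rw [det_dX_rota he, abs_of_pos (hJ x), mul_comm]

theorem grad_rota {e : E m} {c σ : ℝ} (he : ‖e‖ = 1) (hcσ : c ^ 2 + σ ^ 2 = 1) {f : E m → ℝ}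
    {Ψ : E m → E m} (hΨ : Continuous Ψ) (h1 : ∀ x, Ψ (rotX e c σ f x) = x)
    (h2 : ∀ y, rotX e c σ f (Ψ y) = y) {x : E m} (hx : DifferentiableAt ℝ f x)
    (hJ : rotJ e c σ f x ≠ 0) :
    HasGradientAt (fun y => -σ * ⟪Ψ y, e⟫ + c * f (Ψ y))
      ((rotJ e c σ f x)⁻¹ • (gradient f x + ((c - 1) * ⟪gradient f x, e⟫ - σ) • e))
      (rotX e c σ f x) := by
  have a1 : HasFDerivAt (rotX e c σ f) (eX_rota he c σ f x hJ : E m →L[ℝ] E m)
      (Ψ (rotX e c σ f x)) := by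
    rw [h1]; exact hasF_rotX_rota e c σ hx
  have a2 := HasFDerivAt.of_local_left_inverse hΨ.continuousAt a1 (Eventually.of_forall h2)
  have a3 : HasFDerivAt (fun x : E m => -σ * ⟪x, e⟫ + c * f x)
      ((-σ) • innerSL ℝ e + c • fderiv ℝ f x) (Ψ (rotX e c σ f x)) := by
    rw [h1]
    exact ((hasF_inner_rota e x).const_mul (-σ)).add (hx.hasFDerivAt.const_mul c)
  have a4 := a3.comp _ a2
  rw [hasGradientAt_iff_hasFDerivAt]
  refine HasFDerivAt.congr_fderiv a4 (ContinuousLinearMap.ext fun v => ?_)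
  symm
  have hee := inner_self_rota he
  have hJ' : rotJ e c σ f x = c + σ * ⟪gradient f x, e⟫ := rfl
  simp only [InnerProductSpace.toDual_apply_apply, ContinuousLinearMap.comp_apply,
    ContinuousLinearEquiv.coe_coe, eX_symm_rota, add_apply,
    smul_apply, innerSL_apply_apply, ← inner_grad, smul_eq_mul,
    kap_apply_rota, inner_smul_left, inner_add_left, inner_sub_right, inner_smul_right,
    conj_trivial, hee]
  rw [real_inner_comm e v]
  rw [hJ'] at hJ ⊢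
  field_simp
  linear_combination (⟪gradient f x, e⟫ * ⟪e, v⟫ - ⟪gradient f x, v⟫) * hcσ

theorem exists_rot (L : ℝ≥0) {δ : ℝ} (hδ : 0 < δ) : ∃ L' : ℝ≥0, ∀ (e : E m) (c σ : ℝ),
    ‖e‖ = 1 → c ^ 2 + σ ^ 2 = 1 → 0 ≤ σ → δ ≤ c - σ * L → ∀ f : E m → ℝ, LipschitzWith L f →
      ∃ f' : E m → ℝ, LipschitzWith L' f' ∧ IsRot e c σ f f' ∧
        ∀ x y, ‖x - y‖ ≤ L' * ‖rotX e c σ f x - rotX e c σ f y‖ := by
  have hK0 : (0 : ℝ) ≤ 1 + (1 + L) / δ := by positivity
  refine ⟨(1 + L) * (NNReal.mk (1 + (1 + L) / δ) hK0), fun e c σ he hcσ hσ hc f hf => ?_⟩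
  have hest := inv_est_rota hδ he hcσ hσ hc hf
  have hinj : Function.Injective (rotX e c σ f) := by
    intro x y hxy
    have := hest x y
    rw [hxy, sub_self, norm_zero, mul_zero] at this
    exact sub_eq_zero.1 (norm_le_zero_iff.1 this)
  have hb : Function.Bijective (rotX e c σ f) := ⟨hinj, surj_rota hδ he hσ hc hf⟩
  have hJ := rotJ_pos_rota hδ he hσ hc hf
  obtain ⟨Ψ, h1, h2⟩ := Function.bijective_iff_has_inverse.1 hb
  have hΨ : LipschitzWith (NNReal.mk (1 + (1 + L) / δ) hK0) Ψ := by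
    refine LipschitzWith.of_dist_le_mul fun x y => ?_
    have := hest (Ψ x) (Ψ y)
    rw [h2, h2] at this
    rw [dist_eq_norm, dist_eq_norm]
    exact this
  have hL : (0 : ℝ) ≤ L := L.2
  have hG : LipschitzWith (1 + L) fun x : E m => -σ * ⟪x, e⟫ + c * f x := by
    refine LipschitzWith.of_dist_le_mul fun x y => ?_
    rw [Real.dist_eq, dist_eq_norm]
    obtain ⟨b1, b2⟩ := abs_le_one_rota hcσ
    have b3 := abs_inner_le_rota he (x - y)
    have b4 := abs_sub_le_rota hf x y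
    have b5 : -σ * ⟪x, e⟫ + c * f x - (-σ * ⟪y, e⟫ + c * f y) =
        c * (f x - f y) - σ * ⟪x - y, e⟫ := by
      rw [inner_sub_left]; ring
    rw [b5]
    calc _ ≤ |c * (f x - f y)| + |σ * ⟪x - y, e⟫| := abs_sub _ _
      _ = |c| * |f x - f y| + |σ| * |⟪x - y, e⟫| := by rw [abs_mul, abs_mul]
      _ ≤ 1 * (L * ‖x - y‖) + 1 * ‖x - y‖ := by gcongr
      _ = _ := by push_cast; ring
  refine ⟨fun y => -σ * ⟪Ψ y, e⟫ + c * f (Ψ y), hG.comp hΨ, ⟨hb, fun x => ?_, fun g _ => ?_, ?_⟩,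
    fun x y => ?_⟩
  · simp only [h1 x]
  · exact cov_rota he hf hb hJ g
  · filter_upwards [hf.ae_differentiableAt (μ := volume)] with x hx
    have := grad_rota he hcσ hΨ.continuous h1 h2 hx (hJ x).ne'
    exact ⟨hx, this.differentiableAt, this.gradient⟩
  · refine (hest x y).trans (mul_le_mul_of_nonneg_right ?_ (norm_nonneg _))
    simp only [NNReal.coe_mul, NNReal.coe_add, NNReal.coe_one, NNReal.coe_mk]
    nlinarith [mul_nonneg hL hK0]

end Pool.Agent.Lib.MP_8daebb_an.LG
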