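import Pool.Agent.Lib.MP_8daebb_an.LG.RotA
import Pool.Agent.Lib.MP_8daebb_an.LG.StatB

open MeasureTheory Metric Set Filter Topology
open scoped RealInnerProductSpace NNReal

namespace Pool.Agent.Lib.MP_8daebb_an.LG

variable {m : ℕ} {ι : Type}

/-! ROTB. Stationarity is invariant under rotations. -/

theorem rotJ_pos_rotb {e : E m} {c σ : ℝ} {f : E m → ℝ} {L : ℝ≥0} (hf : LipschitzWith L f)
    (hσ : 0 ≤ σ) (he : ‖e‖ = 1) (hc : 0 < c - σ * L) (x : E m) : 0 < rotJ e c σ f x := by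
  have h1 := abs_real_inner_le_norm (gradient f x) e
  rw [he, mul_one] at h1
  have h2 := (abs_le.mp (h1.trans (norm_grad_le hf x))).1
  have h3 := mul_le_mul_of_nonneg_left h2 hσ
  unfold rotJ
  linarith

theorem meas_rotJ_rotb (e : E m) (c σ : ℝ) (f : E m → ℝ) : Measurable (rotJ e c σ f) :=
  measurable_const.add (measurable_const.mul ((meas_grad f).inner measurable_const))

theorem cont_rotX_rotb (e : E m) (c σ : ℝ) {f : E m → ℝ} (hf : Continuous f) :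
    Continuous (rotX e c σ f) := by
  unfold rotX
  fun_prop

theorem IsRot.map_rotb {e : E m} {c σ : ℝ} {f f' : E m → ℝ} (h : IsRot e c σ f f')
    (hf : Continuous f) : (volume : Measure (E m)) = Measure.map (rotX e c σ f)
      (volume.withDensity fun x => ENNReal.ofReal (rotJ e c σ f x)) := by
  have hΦ := (cont_rotX_rotb e c σ hf).measurable
  refine Measure.ext_of_lintegral _ fun g hg => ?_
  have hg' : Measurable fun a => g (rotX e c σ f a) := hg.comp hΦ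
  rw [h.cov g hg, lintegral_map hg hΦ,
    lintegral_withDensity_eq_lintegral_mul _ (meas_rotJ_rotb e c σ f).ennreal_ofReal hg']
  refine lintegral_congr fun x => ?_
  exact mul_comm _ _

theorem IsRot.ae_rotb {e : E m} {c σ : ℝ} {f f' : E m → ℝ} (h : IsRot e c σ f f') {L : ℝ≥0}
    (hf : LipschitzWith L f) (hσ : 0 ≤ σ) (he : ‖e‖ = 1) (hc : 0 < c - σ * L) {P : E m → Prop}
    (hP : ∀ᵐ y, P y) : ∀ᵐ x, P (rotX e c σ f x) := by
  have hΦ := (cont_rotX_rotb e c σ hf.continuous).measurable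
  rw [h.map_rotb hf.continuous] at hP
  have h1 := ae_of_ae_map hΦ.aemeasurable hP
  rw [ae_withDensity_iff (meas_rotJ_rotb e c σ f).ennreal_ofReal] at h1
  filter_upwards [h1] with x hx
  exact hx (ENNReal.ofReal_pos.mpr (rotJ_pos_rotb hf hσ he hc x)).ne'

theorem IsRot.integral {e : E m} {c σ : ℝ} {f f' : E m → ℝ} (h : IsRot e c σ f f') {L : ℝ≥0}
    (hf : LipschitzWith L f) (hσ : 0 ≤ σ) (he : ‖e‖ = 1) (hc : 0 < c - σ * L) {g : E m → ℝ}
    (hg : Integrable g) : ∫ y, g y = ∫ x, g (rotX e c σ f x) * rotJ e c σ f x := by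
  have hΦ := (cont_rotX_rotb e c σ hf.continuous).measurable
  have hm := h.map_rotb hf.continuous
  have hg' : AEStronglyMeasurable g (Measure.map (rotX e c σ f)
      (volume.withDensity fun x => ENNReal.ofReal (rotJ e c σ f x))) := by
    rw [← hm]
    exact hg.aestronglyMeasurable
  calc ∫ y, g y = ∫ y, g y ∂(Measure.map (rotX e c σ f)
        (volume.withDensity fun x => ENNReal.ofReal (rotJ e c σ f x))) := by rw [← hm]
    _ = ∫ x, g (rotX e c σ f x) ∂(volume.withDensity fun x => ENNReal.ofReal (rotJ e c σ f x)) :=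
        integral_map hΦ.aemeasurable hg'
    _ = _ := by
        rw [integral_withDensity_eq_integral_toReal_smul (meas_rotJ_rotb e c σ f).ennreal_ofReal
          (Eventually.of_forall fun x => ENNReal.ofReal_lt_top)]
        refine integral_congr_ae (Eventually.of_forall fun x => ?_)
        simp only
        rw [ENNReal.toReal_ofReal (rotJ_pos_rotb hf hσ he hc x).le, smul_eq_mul, mul_comm]

theorem W_rot_rotb {e p : E m} {c σ : ℝ} (he : ‖e‖ = 1) (hcσ : c ^ 2 + σ ^ 2 = 1)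
    (hJ : 0 < c + σ * ⟪p, e⟫) :
    W ((c + σ * ⟪p, e⟫)⁻¹ • (p + ((c - 1) * ⟪p, e⟫ - σ) • e)) = W p / (c + σ * ⟪p, e⟫) := by
  have h1 : ‖p + ((c - 1) * ⟪p, e⟫ - σ) • e‖ ^ 2 =
      ‖p‖ ^ 2 + 2 * (((c - 1) * ⟪p, e⟫ - σ) * ⟪p, e⟫) + ((c - 1) * ⟪p, e⟫ - σ) ^ 2 := by
    rw [norm_add_sq_real, real_inner_smul_right, norm_smul, he, mul_one, Real.norm_eq_abs, sq_abs]
  have h0 : 0 ≤ W p := zero_le_one.trans (one_le_W p)
  have h0' : 0 ≤ W ((c + σ * ⟪p, e⟫)⁻¹ • (p + ((c - 1) * ⟪p, e⟫ - σ) • e)) :=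
    zero_le_one.trans (one_le_W _)
  refine (pow_left_inj₀ h0' (div_nonneg h0 hJ.le) two_ne_zero).mp ?_
  rw [W_sq, div_pow, W_sq, norm_smul, mul_pow, h1, Real.norm_eq_abs, sq_abs]
  field_simp
  linear_combination (1 + ⟪p, e⟫ ^ 2) * hcσ

theorem alg_aa_rotb {e p g g' : E m} {c σ : ℝ} (he : ‖e‖ = 1) (hcσ : c ^ 2 + σ ^ 2 = 1)
    (hJ : 0 < c + σ * ⟪p, e⟫)
    (hg : ∀ v, ⟪g, v⟫ = ⟪g', v⟫ + ((c - 1) * ⟪v, e⟫ + σ * ⟪p, v⟫) * ⟪g', e⟫) :
    ⟪aa ((c + σ * ⟪p, e⟫)⁻¹ • (p + ((c - 1) * ⟪p, e⟫ - σ) • e)), g'⟫ * (c + σ * ⟪p, e⟫) =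
      -σ * ⟪MM p e, g⟫ + c * ⟪aa p, g⟫ := by
  have hW : 0 < W p := zero_lt_one.trans_le (one_le_W p)
  have hW2 := W_sq p
  have hee : ⟪e, e⟫ = (1 : ℝ) := by rw [real_inner_self_eq_norm_sq, he, one_pow]
  have h1 := hg e
  have h2 := hg p
  rw [hee] at h1
  rw [real_inner_self_eq_norm_sq] at h2
  unfold aa MM
  rw [W_rot_rotb he hcσ hJ]
  simp only [inner_sub_left, inner_add_left, real_inner_smul_left]
  rw [real_inner_comm g e, real_inner_comm g p, real_inner_comm g' e, real_inner_comm g' p, h1, h2]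
  have h3 : ‖p‖ ^ 2 = W p ^ 2 - 1 := by linarith
  rw [h3]
  field_simp
  ring

theorem alg_MM_rotb {e p g g' : E m} {c σ : ℝ} (he : ‖e‖ = 1) (hcσ : c ^ 2 + σ ^ 2 = 1)
    (hJ : 0 < c + σ * ⟪p, e⟫)
    (hg : ∀ v, ⟪g, v⟫ = ⟪g', v⟫ + ((c - 1) * ⟪v, e⟫ + σ * ⟪p, v⟫) * ⟪g', e⟫) (e' : E m) :
    ⟪MM ((c + σ * ⟪p, e⟫)⁻¹ • (p + ((c - 1) * ⟪p, e⟫ - σ) • e)) e', g'⟫ * (c + σ * ⟪p, e⟫) =
      1 * ⟪MM p (e' + ((c - 1) * ⟪e', e⟫) • e), g⟫ + σ * ⟪e', e⟫ * ⟪aa p, g⟫ := by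
  have hW : 0 < W p := zero_lt_one.trans_le (one_le_W p)
  have hW2 := W_sq p
  have hee : ⟪e, e⟫ = (1 : ℝ) := by rw [real_inner_self_eq_norm_sq, he, one_pow]
  have h1 := hg e
  have h2 := hg p
  have h4 := hg e'
  rw [hee] at h1
  rw [real_inner_self_eq_norm_sq] at h2
  unfold aa MM
  rw [W_rot_rotb he hcσ hJ]
  simp only [inner_sub_left, inner_add_left, real_inner_smul_left, inner_add_right,
    real_inner_smul_right]
  rw [real_inner_comm g e, real_inner_comm g p, real_inner_comm g e', real_inner_comm g' e,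
    real_inner_comm g' p, real_inner_comm g' e', real_inner_comm e' e, h1, h2, h4]
  have h3 : ‖p‖ ^ 2 = W p ^ 2 - 1 := by linarith
  rw [h3]
  field_simp
  linear_combination (-(W p ^ 2 * ⟪e', e⟫ * ⟪g', e⟫)) * hcσ

theorem grad_rot_rotb {e x : E m} {c σ : ℝ} {f Ψ : E m → ℝ} (hf : DifferentiableAt ℝ f x)
    (hΨ : DifferentiableAt ℝ Ψ (rotX e c σ f x)) (v : E m) :
    ⟪gradient (fun y => Ψ (rotX e c σ f y)) x, v⟫ = ⟪gradient Ψ (rotX e c σ f x), v⟫ +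
      ((c - 1) * ⟪v, e⟫ + σ * ⟪gradient f x, v⟫) * ⟪gradient Ψ (rotX e c σ f x), e⟫ := by
  have h1 : HasFDerivAt (fun y : E m => ⟪y, e⟫) (innerSL ℝ e) x := by
    have := (innerSL ℝ e).hasFDerivAt (x := x)
    refine this.congr_of_eventuallyEq (Eventually.of_forall fun y => ?_)
    exact real_inner_comm _ _
  have h2 : HasFDerivAt (rotX e c σ f) (ContinuousLinearMap.id ℝ (E m) +
      ((c - 1) • innerSL ℝ e + σ • fderiv ℝ f x).smulRight e) x :=
    (hasFDerivAt_id x).add (((h1.const_mul (c - 1)).add (hf.hasFDerivAt.const_mul σ)).smul_const e)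
  have h3 := (hΨ.hasFDerivAt.comp x h2).fderiv
  have h4 : fderiv ℝ (fun y => Ψ (rotX e c σ f y)) x v =
      fderiv ℝ Ψ (rotX e c σ f x) (v + ((c - 1) * ⟪e, v⟫ + σ * fderiv ℝ f x v) • e) := by
    have := congrArg (fun T : E m →L[ℝ] ℝ => T v) h3
    exact this
  rw [inner_grad, inner_grad, inner_grad, inner_grad, h4, map_add, map_smul, smul_eq_mul,
    real_inner_comm v e]

theorem int_rotb {v Ψ : E m → ℝ} {L : ℝ≥0} (hv : LipschitzWith L v) (hΨ : LocallyLipschitz Ψ)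
    {K : Set (E m)} (hK : IsCompact K) (h0 : ∀ x, x ∉ K → Ψ x = 0) {F : E m → E m}
    (hF : Continuous F) : Integrable fun x => ⟪F (gradient v x), gradient Ψ x⟫ := by
  have hcs : HasCompactSupport Ψ := HasCompactSupport.intro hK h0
  obtain ⟨C, hC⟩ := locLip_compact hΨ hcs
  obtain ⟨B, hB⟩ := (isCompact_closedBall (0 : E m) L).exists_bound_of_continuousOn hF.continuousOn
  refine int_of_compact (C := B * C)
    ((hF.measurable.comp (meas_grad v)).inner (meas_grad Ψ)).aestronglyMeasurable hcs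
    (Eventually.of_forall fun x _ => ?_) (Eventually.of_forall fun x hx => ?_)
  · have h1 := hB (gradient v x) (mem_closedBall_zero_iff.mpr (norm_grad_le hv x))
    exact (norm_inner_le_norm _ _).trans
      (mul_le_mul h1 (norm_grad_le hC x) (norm_nonneg _) ((norm_nonneg _).trans h1))
  · rw [grad_eq_zero_of_notMem hx, inner_zero_right]

theorem sheet_rotb {e : E m} {c σ : ℝ} {f f' : E m → ℝ} (h : IsRot e c σ f f') {L L' : ℝ≥0}
    (hf : LipschitzWith L f) (hf' : LipschitzWith L' f') (hσ : 0 ≤ σ) (he : ‖e‖ = 1)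
    (hc : 0 < c - σ * L) {Ψ Ψ' : E m → ℝ} (hΨ : LocallyLipschitz Ψ) (hΨ' : LocallyLipschitz Ψ')
    (hcomp : Ψ = fun y => Ψ' (rotX e c σ f y)) {K K' : Set (E m)} (hK : IsCompact K)
    (hK' : IsCompact K') (h0 : ∀ x, x ∉ K → Ψ x = 0) (h0' : ∀ x, x ∉ K' → Ψ' x = 0)
    {F F₁ F₂ : E m → E m} (hF : Continuous F) (hF₁ : Continuous F₁) (hF₂ : Continuous F₂)
    {a b : ℝ} (halg : ∀ p g g' : E m, 0 < c + σ * ⟪p, e⟫ →
      (∀ v, ⟪g, v⟫ = ⟪g', v⟫ + ((c - 1) * ⟪v, e⟫ + σ * ⟪p, v⟫) * ⟪g', e⟫) →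
      ⟪F ((c + σ * ⟪p, e⟫)⁻¹ • (p + ((c - 1) * ⟪p, e⟫ - σ) • e)), g'⟫ * (c + σ * ⟪p, e⟫) =
        a * ⟪F₁ p, g⟫ + b * ⟪F₂ p, g⟫) :
    ∫ y, ⟪F (gradient f' y), gradient Ψ' y⟫ =
      a * (∫ x, ⟪F₁ (gradient f x), gradient Ψ x⟫) + b * ∫ x, ⟪F₂ (gradient f x), gradient Ψ x⟫ := by
  rw [h.integral hf hσ he hc (int_rotb hf' hΨ' hK' h0' hF), ← integral_const_mul,
    ← integral_const_mul, ← integral_add ((int_rotb hf hΨ hK h0 hF₁).const_mul a)
      ((int_rotb hf hΨ hK h0 hF₂).const_mul b)]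
  refine integral_congr_ae ?_
  filter_upwards [h.grad, h.ae_rotb hf hσ he hc (locLip_ae_diff hΨ')] with x hx hx'
  rw [hx.2.2]
  refine halg _ _ _ (rotJ_pos_rotb hf hσ he hc x) fun v => ?_
  rw [hcomp]
  exact grad_rot_rotb hx.1 hx' v

/-- The rotation of the ambient space. -/
noncomputable def rotR_rotb (e : E m) (c σ : ℝ) (z : E m × ℝ) : E m × ℝ :=
  (z.1 + ((c - 1) * ⟪z.1, e⟫ + σ * z.2) • e, -σ * ⟪z.1, e⟫ + c * z.2)

theorem locLip_rotR_rotb (e : E m) (c σ : ℝ) : LocallyLipschitz (rotR_rotb e c σ) := by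
  have h1 : ContDiff ℝ 1 fun z : E m × ℝ => ⟪z.1, e⟫ := contDiff_fst.inner ℝ contDiff_const
  have h2 : ContDiff ℝ 1 fun z : E m × ℝ => z.1 + ((c - 1) * ⟪z.1, e⟫ + σ * z.2) • e :=
    contDiff_fst.add (((contDiff_const.mul h1).add (contDiff_const.mul contDiff_snd)).smul
      contDiff_const)
  have h3 : ContDiff ℝ 1 fun z : E m × ℝ => -σ * ⟪z.1, e⟫ + c * z.2 :=
    (contDiff_const.mul h1).add (contDiff_const.mul contDiff_snd)
  have h4 : ContDiff ℝ 1 (rotR_rotb e c σ) := h2.prodMk h3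
  exact h4.locallyLipschitz

theorem locLip_graph_rotb {ψ : E m × ℝ → ℝ} (hψ : LocallyLipschitz ψ) {v : E m → ℝ} {L : ℝ≥0}
    (hv : LipschitzWith L v) : LocallyLipschitz fun y => ψ (y, v y) := by
  have h1 : LocallyLipschitz fun y : E m => (y, v y) :=
    (LipschitzWith.id.prodMk hv).locallyLipschitz
  exact hψ.comp h1

theorem Stat.rot {s : Finset ι} {u u' : ι → E m → ℝ} {L L' : ℝ≥0}
    (hL : ∀ i, LipschitzWith L (u i)) (hL' : ∀ i, LipschitzWith L' (u' i)) {e : E m} {c σ : ℝ}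
    (he : ‖e‖ = 1) (hcσ : c ^ 2 + σ ^ 2 = 1) (hσ : 0 ≤ σ) (hc : 0 < c - σ * L)
    (hrot : ∀ i, IsRot e c σ (u i) (u' i))
    (hinv : ∀ i x y, ‖x - y‖ ≤ L' * ‖rotX e c σ (u i) x - rotX e c σ (u i) y‖)
    {Ω Ω' : Set (E m)} (h : Stat s u Ω)
    (hΩ : ∀ i ∈ s, ∀ x, rotX e c σ (u i) x ∈ Ω' → x ∈ Ω) : Stat s u' Ω' := by
  intro ψ' hψ' K' hK' hKΩ' h0'
  obtain ⟨R, hR, hval⟩ : ∃ R : E m × ℝ → E m × ℝ, LocallyLipschitz R ∧
      ∀ i x, R (x, u i x) = (rotX e c σ (u i) x, u' i (rotX e c σ (u i) x)) := by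
    refine ⟨rotR_rotb e c σ, locLip_rotR_rotb e c σ, fun i x => ?_⟩
    rw [(hrot i).val]
    rfl
  have hψ : LocallyLipschitz fun z => ψ' (R z) := hψ'.comp hR
  have hK : IsCompact (⋃ i ∈ s, rotX e c σ (u i) ⁻¹' K') := by
    refine s.isCompact_biUnion fun i _ => ?_
    have hanti : AntilipschitzWith L' (rotX e c σ (u i)) :=
      AntilipschitzWith.of_le_mul_dist fun x y => by
        rw [dist_eq_norm, dist_eq_norm]
        exact hinv i x y
    exact isCompact_of_isClosed_isBounded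
      (hK'.isClosed.preimage (cont_rotX_rotb e c σ (hL i).continuous))
      (hanti.isBounded_preimage hK'.isBounded)
  have hKΩ : (⋃ i ∈ s, rotX e c σ (u i) ⁻¹' K') ⊆ Ω := by
    intro x hx
    obtain ⟨i, hi, hx⟩ := mem_iUnion₂.mp hx
    exact hΩ i hi x (hKΩ' hx)
  have h0 : ∀ i ∈ s, ∀ x, x ∉ (⋃ i ∈ s, rotX e c σ (u i) ⁻¹' K') → ψ' (R (x, u i x)) = 0 := by
    intro i hi x hx
    rw [hval]
    exact h0' i hi _ fun hx' => hx (mem_iUnion₂.mpr ⟨i, hi, hx'⟩)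
  obtain ⟨hV, hH⟩ := h (fun z => ψ' (R z)) hψ _ hK hKΩ h0
  have hΨ : ∀ i, LocallyLipschitz fun y => ψ' (R (y, u i y)) := fun i =>
    locLip_graph_rotb hψ (hL i)
  have hΨ' : ∀ i, LocallyLipschitz fun y => ψ' (y, u' i y) := fun i =>
    locLip_graph_rotb hψ' (hL' i)
  have hcomp : ∀ i, (fun y => ψ' (R (y, u i y))) =
      fun y => (fun y => ψ' (y, u' i y)) (rotX e c σ (u i) y) := fun i => by
    funext y
    rw [hval]
  have hMM : ∀ e' : E m, Continuous fun p : E m => MM p e' := fun e' => by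
    have h1 : Continuous fun p : E m => (p, e') := continuous_id.prodMk continuous_const
    exact Continuous.comp (g := fun z : E m × E m => MM z.1 z.2) (f := fun p : E m => (p, e'))
      continuous_MM h1
  have haa : Continuous (aa : E m → E m) := contDiff_aa.continuous
  refine ⟨?_, fun e' => ?_⟩
  · have h1 : ∀ i ∈ s, ∫ x, ⟪aa (gradient (u' i) x), gradient (fun y => ψ' (y, u' i y)) x⟫ =
        -σ * (∫ x, ⟪MM (gradient (u i) x) e, gradient (fun y => ψ' (R (y, u i y))) x⟫) +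
        c * ∫ x, ⟪aa (gradient (u i) x), gradient (fun y => ψ' (R (y, u i y))) x⟫ :=
      fun i hi => sheet_rotb (F := aa) (F₁ := fun p => MM p e) (F₂ := aa) (hrot i) (hL i) (hL' i)
        hσ he hc (hΨ i) (hΨ' i) (hcomp i) hK hK' (h0 i hi) (h0' i hi) haa (hMM e) haa
        fun p g g' hJ hg => alg_aa_rotb he hcσ hJ hg
    rw [Finset.sum_congr rfl h1, Finset.sum_add_distrib, ← Finset.mul_sum, ← Finset.mul_sum, hV,
      hH e, mul_zero, mul_zero, add_zero]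
  · have h1 : ∀ i ∈ s, ∫ x, ⟪MM (gradient (u' i) x) e', gradient (fun y => ψ' (y, u' i y)) x⟫ =
        1 * (∫ x, ⟪MM (gradient (u i) x) (e' + ((c - 1) * ⟪e', e⟫) • e),
          gradient (fun y => ψ' (R (y, u i y))) x⟫) +
        σ * ⟪e', e⟫ * ∫ x, ⟪aa (gradient (u i) x), gradient (fun y => ψ' (R (y, u i y))) x⟫ :=
      fun i hi => sheet_rotb (F := fun p => MM p e')
        (F₁ := fun p => MM p (e' + ((c - 1) * ⟪e', e⟫) • e)) (F₂ := aa) (hrot i) (hL i) (hL' i)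
        hσ he hc (hΨ i) (hΨ' i) (hcomp i) hK hK' (h0 i hi) (h0' i hi) (hMM e') (hMM _) haa
        fun p g g' hJ hg => alg_MM_rotb he hcσ hJ hg e'
    rw [Finset.sum_congr rfl h1, Finset.sum_add_distrib, ← Finset.mul_sum, ← Finset.mul_sum, hV,
      hH _, mul_zero, mul_zero, add_zero]

end Pool.Agent.Lib.MP_8daebb_an.LG
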