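import Pool.Agent.Lib.MP_8daebb_an.LG.SDef

open MeasureTheory Metric Set Filter Topology
open scoped RealInnerProductSpace NNReal ContDiff

namespace Pool.Agent.Lib.MP_8daebb_an.LG

variable {m : ℕ}

/-! SA. Closure properties of the Hoelder classes. -/

variable {G G' G'' : Type} [NormedAddCommGroup G] [NormedSpace ℝ G] [NormedAddCommGroup G']
  [NormedSpace ℝ G'] [NormedAddCommGroup G''] [NormedSpace ℝ G''] {U : Set (E m)} {k : ℕ}

theorem Hol.mono {Φ : E m → G} (h : Hol U k Φ) {V : Set (E m)} (hV : V ⊆ U) : Hol V k Φ := by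
  induction k generalizing Φ with
  | zero => exact fun x hx => h x (hV hx)
  | succ k ih => exact ⟨fun x hx => h.1 x (hV hx), fun e => ih (h.2 e)⟩

/-- The Hoelder bound with a nonnegative constant on a ball inside a given neighbourhood. -/
theorem hol_zero_sa {Φ : E m → G} (h : Hol U 0 Φ) {x : E m} (hx : x ∈ U) {s : Set (E m)}
    (hs : s ∈ 𝓝 x) : ∃ C r : ℝ, 0 ≤ C ∧ 0 < r ∧ ball x r ⊆ s ∧ ∀ y ∈ ball x r, ∀ z ∈ ball x r,
      ‖Φ y - Φ z‖ ≤ C * √‖y - z‖ := by
  obtain ⟨C, r, hr, H⟩ := h x hx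
  obtain ⟨r', hr', hs⟩ := Metric.mem_nhds_iff.1 hs
  refine ⟨|C|, min r r', abs_nonneg C, lt_min hr hr',
    (ball_subset_ball (min_le_right _ _)).trans hs, fun y hy z hz => ?_⟩
  exact (H y (ball_subset_ball (min_le_left _ _) hy) z
    (ball_subset_ball (min_le_left _ _) hz)).trans
    (mul_le_mul_of_nonneg_right (le_abs_self C) (Real.sqrt_nonneg _))

theorem Hol.congr {Φ Φ' : E m → G} (hU : IsOpen U) (h : Hol U k Φ) (h' : EqOn Φ' Φ U) :
    Hol U k Φ' := by
  induction k generalizing Φ Φ' with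
  | zero =>
    intro x hx
    obtain ⟨C, r, -, hr, hs, H⟩ := hol_zero_sa h hx (hU.mem_nhds hx)
    exact ⟨C, r, hr, fun y hy z hz => by rw [h' (hs hy), h' (hs hz)]; exact H y hy z hz⟩
  | succ k ih =>
    have h1 : ∀ x ∈ U, Φ' =ᶠ[𝓝 x] Φ := fun x hx => h'.eventuallyEq_of_mem (hU.mem_nhds hx)
    exact ⟨fun x hx => (h.1 x hx).congr_of_eventuallyEq (h1 x hx),
      fun e => ih (h.2 e) fun x hx => by simp only [(h1 x hx).fderiv_eq]⟩

theorem Hol.of_local {Φ : E m → G} (h : ∀ x ∈ U, ∃ r > 0, Hol (ball x r) k Φ) : Hol U k Φ := by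
  induction k generalizing Φ with
  | zero =>
    intro x hx
    obtain ⟨r, hr, H⟩ := h x hx
    exact H x (mem_ball_self hr)
  | succ k ih =>
    refine ⟨fun x hx => ?_, fun e => ih fun x hx => ?_⟩
    · obtain ⟨r, hr, H⟩ := h x hx
      exact H.1 x (mem_ball_self hr)
    · obtain ⟨r, hr, H⟩ := h x hx
      exact ⟨r, hr, H.2 e⟩

theorem Hol.continuousAt {Φ : E m → G} (h : Hol U k Φ) {x : E m} (hx : x ∈ U) :
    ContinuousAt Φ x := by
  cases k with
  | zero =>
    obtain ⟨C, r, hr, H⟩ := h x hx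
    have h1 : Tendsto (fun y => C * √‖y - x‖) (𝓝 x) (𝓝 (C * √‖x - x‖)) :=
      Continuous.tendsto (by fun_prop) x
    rw [sub_self, norm_zero, Real.sqrt_zero, mul_zero] at h1
    refine tendsto_iff_norm_sub_tendsto_zero.2
      (squeeze_zero' (Eventually.of_forall fun y => norm_nonneg _) ?_ h1)
    filter_upwards [ball_mem_nhds x hr] with y hy using H y hy x (mem_ball_self hr)
  | succ k => exact (h.1 x hx).continuousAt

theorem Hol.of_lip {Φ : E m → G} (h : ∀ x ∈ U, ∃ C r : ℝ, 0 < r ∧ ∀ y ∈ ball x r, ∀ z ∈ ball x r,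
    ‖Φ y - Φ z‖ ≤ C * ‖y - z‖) : Hol U 0 Φ := by
  intro x hx
  obtain ⟨C, r, hr, H⟩ := h x hx
  refine ⟨|C|, min r (1 / 2), lt_min hr (by norm_num), fun y hy z hz => ?_⟩
  refine (H y (ball_subset_ball (min_le_left _ _) hy) z
    (ball_subset_ball (min_le_left _ _) hz)).trans ?_
  refine mul_le_mul (le_abs_self C) ?_ (norm_nonneg _) (abs_nonneg C)
  have h1 : ‖y - z‖ ≤ 1 := by
    have h2 := dist_triangle_right y z x
    have h3 := (mem_ball.1 hy).trans_le (min_le_right _ _)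
    have h4 := (mem_ball.1 hz).trans_le (min_le_right _ _)
    rw [← dist_eq_norm]
    linarith
  exact Real.le_sqrt_of_sq_le (by nlinarith [norm_nonneg (y - z)])

theorem Hol.const (c : G) : Hol U k fun _ : E m => c := by
  induction k generalizing c with
  | zero => exact fun x _ => ⟨0, 1, one_pos, fun y _ z _ => by simp⟩
  | succ k ih =>
    refine ⟨fun x _ => differentiableAt_const c, fun e => ?_⟩
    simpa using ih 0

theorem Hol.add {Φ Γ : E m → G} (hU : IsOpen U) (h : Hol U k Φ) (h' : Hol U k Γ) :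
    Hol U k fun x => Φ x + Γ x := by
  induction k generalizing Φ Γ with
  | zero =>
    intro x hx
    obtain ⟨C, r, hr, H⟩ := h x hx
    obtain ⟨C', r', -, hr', hs, H'⟩ := hol_zero_sa h' hx (ball_mem_nhds x hr)
    refine ⟨C + C', r', hr', fun y hy z hz => ?_⟩
    rw [add_sub_add_comm, add_mul]
    exact norm_add_le_of_le (H y (hs hy) z (hs hz)) (H' y hy z hz)
  | succ k ih =>
    refine ⟨fun x hx => (h.1 x hx).fun_add (h'.1 x hx), fun e => ?_⟩
    refine (ih (h.2 e) (h'.2 e)).congr hU fun x hx => ?_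
    simp only [fderiv_fun_add (h.1 x hx) (h'.1 x hx), add_apply]

theorem Hol.sum {ι : Type} (s : Finset ι) {Φ : ι → E m → G} (hU : IsOpen U)
    (h : ∀ i ∈ s, Hol U k (Φ i)) : Hol U k fun x => ∑ i ∈ s, Φ i x := by
  classical
  induction s using Finset.induction_on with
  | empty => simpa using Hol.const (0 : G)
  | insert i s hi ih =>
    simp only [Finset.sum_insert hi]
    exact (h i (Finset.mem_insert_self i s)).add hU
      (ih fun j hj => h j (Finset.mem_insert_of_mem hj))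

theorem Hol.clm {Φ : E m → G} (hU : IsOpen U) (h : Hol U k Φ) (T : G →L[ℝ] G') :
    Hol U k fun x => T (Φ x) := by
  induction k generalizing Φ with
  | zero =>
    intro x hx
    obtain ⟨C, r, hr, H⟩ := h x hx
    refine ⟨‖T‖ * C, r, hr, fun y hy z hz => ?_⟩
    rw [← map_sub, mul_assoc]
    exact T.le_opNorm_of_le (H y hy z hz)
  | succ k ih =>
    have h1 : ∀ x ∈ U, HasFDerivAt (fun x => T (Φ x)) (T.comp (fderiv ℝ Φ x)) x := fun x hx =>
      T.hasFDerivAt.comp x (h.1 x hx).hasFDerivAt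
    refine ⟨fun x hx => (h1 x hx).differentiableAt, fun e => ?_⟩
    refine (ih (h.2 e)).congr hU fun x hx => ?_
    simp only [(h1 x hx).fderiv, ContinuousLinearMap.comp_apply]

/-- Operator valued maps are Hoelder if all their values on vectors are. -/
theorem hol_op_sa {A : E m → E m →L[ℝ] G} (hU : IsOpen U) (h : ∀ e, Hol U k fun x => A x e) :
    Hol U k A := by
  refine (Hol.sum Finset.univ hU fun b _ => (h (EuclideanSpace.basisFun (Fin m) ℝ b)).clm hU
    (ContinuousLinearMap.smulRightL ℝ (E m) G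
      (innerSL ℝ (EuclideanSpace.basisFun (Fin m) ℝ b)))).congr hU fun x _ => ?_
  ext1 v
  conv_lhs => rw [← (EuclideanSpace.basisFun (Fin m) ℝ).sum_repr' v, map_sum]
  simp only [map_smul, sum_apply, ContinuousLinearMap.smulRightL_apply_apply,
    ContinuousLinearMap.smulRight_apply, innerSL_apply_apply]

theorem bdd_sa {Φ : E m → G} (h : Hol U k Φ) {x : E m} (hx : x ∈ U) :
    {y | ‖Φ y‖ ≤ ‖Φ x‖ + 1} ∈ 𝓝 x :=
  (h.continuousAt hx).norm.eventually (eventually_le_nhds (lt_add_one _))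

/-- First order Hoelder maps are locally Lipschitz. -/
theorem Hol.lip {Φ : E m → G} (hU : IsOpen U) (h : Hol U (k + 1) Φ) : ∀ x ∈ U, ∃ C r : ℝ, 0 < r ∧
    ∀ y ∈ ball x r, ∀ z ∈ ball x r, ‖Φ y - Φ z‖ ≤ C * ‖y - z‖ := by
  intro x hx
  obtain ⟨r, hr, hs⟩ :=
    Metric.mem_nhds_iff.1 (inter_mem (hU.mem_nhds hx) (bdd_sa (hol_op_sa hU h.2) hx))
  exact ⟨_, r, hr, fun y hy z hz => (convex_ball x r).norm_image_sub_le_of_norm_fderiv_le
    (fun w hw => h.1 w (hs hw).1) (fun w hw => (hs hw).2) hz hy⟩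

theorem Hol.pred {Φ : E m → G} (hU : IsOpen U) (h : Hol U (k + 1) Φ) : Hol U k Φ := by
  induction k generalizing Φ with
  | zero => exact Hol.of_lip (h.lip hU)
  | succ k ih => exact ⟨h.1, fun e => ih (h.2 e)⟩

theorem Hol.bilin {Φ : E m → G} {Γ : E m → G'} (hU : IsOpen U) (h : Hol U k Φ) (h' : Hol U k Γ)
    (B : G →L[ℝ] G' →L[ℝ] G'') : Hol U k fun x => B (Φ x) (Γ x) := by
  induction k generalizing Φ Γ with
  | zero =>
    intro x hx
    obtain ⟨C, r, hC, hr, hs, H⟩ := hol_zero_sa h hx (inter_mem (bdd_sa h hx) (bdd_sa h' hx))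
    obtain ⟨C', r', hC', hr', hs', H'⟩ := hol_zero_sa h' hx (ball_mem_nhds x hr)
    refine ⟨‖B‖ * C * (‖Γ x‖ + 1) + ‖B‖ * (‖Φ x‖ + 1) * C', r', hr', fun y hy z hz => ?_⟩
    have e : B (Φ y) (Γ y) - B (Φ z) (Γ z) = B (Φ y - Φ z) (Γ y) + B (Φ z) (Γ y - Γ z) := by
      simp only [map_sub, sub_apply]
      abel
    have h1 := B.le_of_opNorm₂_le_of_le le_rfl (H y (hs' hy) z (hs' hz)) (hs (hs' hy)).2
    have h2 := B.le_of_opNorm₂_le_of_le le_rfl (hs (hs' hz)).1 (H' y hy z hz)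
    rw [e]
    exact (norm_add_le_of_le h1 h2).trans (le_of_eq (by ring))
  | succ k ih =>
    have h1 := fun x hx => B.hasFDerivAt_of_bilinear (h.1 x hx).hasFDerivAt (h'.1 x hx).hasFDerivAt
    refine ⟨fun x hx => (h1 x hx).differentiableAt, fun e => ?_⟩
    refine ((ih (h.pred hU) (h'.2 e)).add hU (ih (h.2 e) (h'.pred hU))).congr hU fun x hx => ?_
    simp only [(h1 x hx).fderiv]
    rfl

theorem Hol.apply {A : E m → G →L[ℝ] G'} {Γ : E m → G} (hU : IsOpen U) (h : Hol U k A)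
    (h' : Hol U k Γ) : Hol U k fun x => A x (Γ x) :=
  h.bilin hU h' (ContinuousLinearMap.id ℝ (G →L[ℝ] G'))

theorem Hol.comp {Φ : E m → G} (hU : IsOpen U) (h : Hol U k Φ) {φ : G → G'}
    (hφ : ContDiff ℝ ∞ φ) : Hol U k fun x => φ (Φ x) := by
  induction k generalizing G' with
  | zero =>
    intro x hx
    obtain ⟨K, t, ht, hK⟩ :=
      (hφ.of_le (by exact_mod_cast le_top)).contDiffAt.exists_lipschitzOnWith (x := Φ x)
    obtain ⟨C, r, -, hr, hs, H⟩ := hol_zero_sa h hx ((h.continuousAt hx).preimage_mem_nhds ht)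
    refine ⟨K * C, r, hr, fun y hy z hz => ?_⟩
    rw [mul_assoc]
    exact (hK.norm_sub_le (hs hy) (hs hz)).trans
      (mul_le_mul_of_nonneg_left (H y hy z hz) K.coe_nonneg)
  | succ k ih =>
    have h1 : ∀ x ∈ U, HasFDerivAt (fun x => φ (Φ x)) ((fderiv ℝ φ (Φ x)).comp (fderiv ℝ Φ x)) x :=
      fun x hx => (hφ.differentiable (by simp) (Φ x)).hasFDerivAt.comp x (h.1 x hx).hasFDerivAt
    refine ⟨fun x hx => (h1 x hx).differentiableAt, fun e => ?_⟩
    refine ((ih (h.pred hU) (hφ.fderiv_right (m := ∞) le_rfl)).apply hU (h.2 e)).congr hU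
      fun x hx => ?_
    simp only [(h1 x hx).fderiv, ContinuousLinearMap.comp_apply]

theorem contDiffOn_sa {Φ : E m → G} (hU : IsOpen U) (h : Hol U k Φ) : ContDiffOn ℝ k Φ U := by
  induction k generalizing Φ with
  | zero => exact contDiffOn_zero.2 fun x hx => (h.continuousAt hx).continuousWithinAt
  | succ k ih =>
    rw [Nat.cast_succ, contDiffOn_succ_iff_fderiv_of_isOpen hU]
    exact ⟨fun x hx => (h.1 x hx).differentiableWithinAt, fun h => absurd h (by simp),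
      contDiffOn_clm_apply.2 fun e => ih (h.2 e)⟩

theorem contDiffOn_of_hol {Φ : E m → G} (hU : IsOpen U) (h : ∀ k, Hol U k Φ) :
    ContDiffOn ℝ ∞ Φ U :=
  contDiffOn_infty.2 fun k => contDiffOn_sa hU (h k)

/-- Uniform Hoelder bound for difference quotients. -/
theorem Hol.quot {Φ : E m → G} (hU : IsOpen U) (h : Hol U 1 Φ) {x : E m} (hx : x ∈ U) :
    ∃ C r : ℝ, 0 < C ∧ 0 < r ∧ ball x (2 * r) ⊆ U ∧ ∀ v : E m, ‖v‖ < r →
      (∀ y ∈ ball x r, ‖Φ (y + v) - Φ y‖ ≤ C * ‖v‖) ∧ ∀ y ∈ ball x r, ∀ z ∈ ball x r,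
        ‖(Φ (y + v) - Φ y) - (Φ (z + v) - Φ z)‖ ≤ C * ‖v‖ * √‖y - z‖ := by
  obtain ⟨C, r, hr, H⟩ := h.lip hU x hx
  obtain ⟨C', r', hC', hr', hs, H'⟩ := hol_zero_sa (hol_op_sa hU h.2) hx
    (inter_mem (hU.mem_nhds hx) (ball_mem_nhds x hr))
  have h1 : ∀ y ∈ ball x (r' / 2), ∀ w ∈ ball (0 : E m) (r' / 2), y + w ∈ ball x r' := by
    intro y hy w hw
    have h2 := ball_add_ball (half_pos hr') (half_pos hr') x (0 : E m) ▸ add_mem_add hy hw
    rwa [add_zero, add_halves] at h2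
  have h0 : (0 : E m) ∈ ball (0 : E m) (r' / 2) := mem_ball_self (half_pos hr')
  refine ⟨|C| + C' + 1, r' / 2, by positivity, half_pos hr', fun y hy => (hs ?_).1,
    fun v hv => ⟨fun y hy => ?_, fun y hy z hz => ?_⟩⟩
  · rwa [mul_div_cancel₀ _ two_ne_zero] at hy
  · have h2 := H _ (hs (h1 y hy v (mem_ball_zero_iff.2 hv))).2 _ (hs (h1 y hy 0 h0)).2
    rw [add_zero, add_sub_cancel_left] at h2
    exact h2.trans (mul_le_mul_of_nonneg_right (by linarith [le_abs_self C]) (norm_nonneg _))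
  · have h3 : ∀ y ∈ ball x (r' / 2), ∀ w ∈ ball (0 : E m) (r' / 2),
        HasFDerivAt (fun w => Φ (y + w)) (fderiv ℝ Φ (y + w)) w := fun y hy w hw =>
      (hasFDerivAt_comp_add_left y).2 (h.1 _ (hs (h1 y hy w hw)).1).hasFDerivAt
    have h4 := (convex_ball (0 : E m) (r' / 2)).norm_image_sub_le_of_norm_hasFDerivWithin_le
      (C := C' * √‖y - z‖) (fun w hw => ((h3 y hy w hw).fun_sub (h3 z hz w hw)).hasFDerivWithinAt)
      (fun w hw => by simpa using H' _ (h1 y hy w hw) _ (h1 z hz w hw)) h0 (mem_ball_zero_iff.2 hv)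
    rw [add_zero, add_zero, sub_zero, sub_sub_sub_comm] at h4
    refine h4.trans ?_
    rw [mul_right_comm]
    gcongr
    linarith [abs_nonneg C]

end Pool.Agent.Lib.MP_8daebb_an.LG
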