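import Pool.Agent.Lib.MP_8daebb_an.LG.Alg
import Pool.Agent.Lib.MP_8daebb_an.LG.Cut
import Pool.Agent.Lib.MP_8daebb_an.LG.Weak
import Pool.Agent.Lib.MP_8daebb_an.LG.LipD

open MeasureTheory Metric Set Filter Topology
open scoped RealInnerProductSpace NNReal ContDiff

namespace Pool.Agent.Lib.MP_8daebb_an.LG

variable {m : ℕ}

/-! SB. The Caccioppoli inequality for linear equations close to the Laplace equation. -/

theorem pt_sb {c κ : ℝ} (hc0 : 0 ≤ c) (hc1 : c ≤ 1) (hκ : 0 ≤ κ)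
    {D R g H : E m} (hmono : ‖g‖ ^ 2 ≤ 2 * ⟪D, g⟫) (hD : ‖D‖ ≤ 2 * ‖g‖) (hH : ‖H‖ ≤ c * κ) :
    c ^ 2 * ‖g‖ ^ 2 ≤ 4 * ⟪D + R, (c ^ 2) • g + H⟫ + 40 * κ ^ 2 + 16 * ‖R‖ ^ 2 := by
  have hg := norm_nonneg g
  have hR := norm_nonneg R
  have a1 : (c * ‖g‖) ^ 2 ≤ 2 * (c ^ 2 * ⟪D, g⟫) := by
    have := mul_le_mul_of_nonneg_left hmono (sq_nonneg c)
    nlinarith
  have a2 : -(2 * (c * ‖g‖) * κ) ≤ ⟪D, H⟫ := by
    have h1 := (abs_le.1 (abs_real_inner_le_norm D H)).1
    have h2 : ‖D‖ * ‖H‖ ≤ 2 * ‖g‖ * (c * κ) := mul_le_mul hD hH (norm_nonneg _) (by positivity)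
    nlinarith
  have a3 : -(c * ‖g‖ * ‖R‖) ≤ c ^ 2 * ⟪R, g⟫ := by
    have h1 := (abs_le.1 (abs_real_inner_le_norm R g)).1
    have h2 := mul_le_mul_of_nonneg_left h1 (sq_nonneg c)
    have h3 : 0 ≤ (1 - c) * (c * ‖g‖ * ‖R‖) := mul_nonneg (by linarith) (by positivity)
    nlinarith
  have a4 : -(2 * ‖R‖ * κ) ≤ ⟪R, H⟫ := by
    have h1 := (abs_le.1 (abs_real_inner_le_norm R H)).1
    have h2 : ‖R‖ * ‖H‖ ≤ ‖R‖ * (c * κ) := mul_le_mul_of_nonneg_left hH hR
    have h3 : 0 ≤ (2 - c) * (‖R‖ * κ) := mul_nonneg (by linarith) (by positivity)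
    nlinarith
  simp only [inner_add_left, inner_add_right, real_inner_smul_right]
  nlinarith [sq_nonneg (c * ‖g‖ - 8 * κ), sq_nonneg (c * ‖g‖ - 4 * ‖R‖),
    sq_nonneg (κ - ‖R‖), sq_nonneg κ, sq_nonneg ‖R‖]

theorem int_inner_sb {A B : E m → E m} {μ : Measure (E m)} (hA : MemLp A 2 μ)
    (hB : MemLp B 2 μ) : Integrable (fun x => ⟪A x, B x⟫) μ :=
  (hA.norm.integrable_mul hB.norm).mono' (hA.1.inner hB.1)
    (ae_of_all _ fun x => norm_inner_le_norm (A x) (B x))

theorem norm_grad_chi_sb (c : E m) {ρ : ℝ} (hρ : 0 < ρ) (x : E m) :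
    ‖gradient (chi c (3 * ρ / 2)) x‖ ≤ √(chi c (3 * ρ / 2) x) * (4 / ρ) := by
  have hr : 0 < 3 * ρ / 2 := by positivity
  have ho := om_nonneg c (3 * ρ / 2) x
  have h1 : om c (3 * ρ / 2) x ≤ 3 * √(chi c (3 * ρ / 2) x) := by
    refine abs_le_of_sq_le_sq' ?_ (by positivity) |>.2
    rw [mul_pow, Real.sq_sqrt (chi_nonneg _ _ _)]
    linarith [om_sq_le c (3 * ρ / 2) x]
  rw [grad_chi, norm_smul, norm_neg, Real.norm_of_nonneg (by positivity)]
  by_cases hx : x ∈ ball c (3 * ρ / 2)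
  · have h2 : ‖x - c‖ ≤ 3 * ρ / 2 := (mem_ball_iff_norm.1 hx).le
    calc 2 * om c (3 * ρ / 2) x / (3 * ρ / 2) ^ 2 * ‖x - c‖
        ≤ 2 * (3 * √(chi c (3 * ρ / 2) x)) / (3 * ρ / 2) ^ 2 * (3 * ρ / 2) := by gcongr
      _ = _ := by field_simp; ring
  · have : om c (3 * ρ / 2) x = 0 := by rw [om, pr_eq_zero hr hx]; simp
    rw [this]
    simp only [mul_zero, zero_div, zero_mul]
    positivity

theorem near_id_sb {A : E m →L[ℝ] E m} (hA : ‖A - ContinuousLinearMap.id ℝ (E m)‖ ≤ 1 / 2)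
    (g : E m) : ‖g‖ ^ 2 ≤ 2 * ⟪A g, g⟫ ∧ ‖A g‖ ≤ 2 * ‖g‖ := by
  have hg := norm_nonneg g
  have h1 : ‖A g - g‖ ≤ 1 / 2 * ‖g‖ := by
    have := (A - ContinuousLinearMap.id ℝ (E m)).le_of_opNorm_le hA g
    simpa using this
  have e : A g = g + (A g - g) := by abel
  constructor
  · have h2 := (abs_le.1 (abs_real_inner_le_norm (A g - g) g)).1
    have h3 : ‖A g - g‖ * ‖g‖ ≤ 1 / 2 * ‖g‖ * ‖g‖ := mul_le_mul_of_nonneg_right h1 hg
    have h4 : ⟪A g, g⟫ = ‖g‖ ^ 2 + ⟪A g - g, g⟫ := by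
      rw [inner_sub_left, real_inner_self_eq_norm_sq]; ring
    nlinarith
  · have h2 : ‖A g‖ ≤ ‖g‖ + ‖A g - g‖ := by
      conv_lhs => rw [e]
      exact norm_add_le _ _
    linarith

/-- The pairing with the gradient of a test function lives on any set containing the support. -/
theorem setInt_test_sb {ζ : E m → ℝ} {Ω : Set (E m)} (hs : tsupport ζ ⊆ Ω) (T : E m → E m) :
    ∫ y in Ω, ⟪T y, gradient ζ y⟫ = ∫ y, ⟪T y, gradient ζ y⟫ :=
  setIntegral_eq_integral_of_forall_compl_eq_zero fun y hy => by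
    rw [grad_eq_zero_of_notMem fun h => hy (hs h), inner_zero_right]

theorem lin_cacc : ∃ C > 0, ∀ (m : ℕ) (k : E m → ℝ) (A : E m → E m →L[ℝ] E m) (F : E m → E m)
    (c : E m) (ρ : ℝ), LocallyLipschitz k → 0 < ρ →
      AEStronglyMeasurable A (volume.restrict (ball c (2 * ρ))) →
      (∀ y ∈ ball c (2 * ρ), ‖A y - ContinuousLinearMap.id ℝ (E m)‖ ≤ 1 / 2) →
      MemLp F 2 (volume.restrict (ball c (2 * ρ))) →
      DivFree (fun y => A y (gradient k y) + F y) (ball c (2 * ρ)) →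
      ∫ y in ball c ρ, ‖gradient k y‖ ^ 2 ≤
        C * ((∫ y in ball c (2 * ρ), k y ^ 2) / ρ ^ 2 + ∫ y in ball c (2 * ρ), ‖F y‖ ^ 2) := by
  refine ⟨27 * 640, by positivity, ?_⟩
  intro m k A F c ρ hk hρ hAm hA hF hdiv
  have hr : 0 < 3 * ρ / 2 := by positivity
  set χ : E m → ℝ := chi c (3 * ρ / 2) with hχ
  have hχ1 : ContDiff ℝ 1 χ := contDiff_chi _ _
  have hζ : LocallyLipschitz fun y => χ y * k y := locLip_mul hχ1.locallyLipschitz hk
  have hts : tsupport (fun y => χ y * k y) ⊆ closedBall c (3 * ρ / 2) :=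
    (tsupport_mul_subset_left (f := χ) (g := k)).trans (tsupport_chi hr)
  have hcs : HasCompactSupport fun y => χ y * k y :=
    (isCompact_closedBall _ _).of_isClosed_subset (isClosed_tsupport _) hts
  have hsub : tsupport (fun y => χ y * k y) ⊆ ball c (2 * ρ) :=
    hts.trans (closedBall_subset_ball (by linarith))
  have hgz := memLp_grad hζ c (2 * ρ)
  have hgk := memLp_grad hk c (2 * ρ)
  have hAg : MemLp (fun y => A y (gradient k y)) 2 (volume.restrict (ball c (2 * ρ))) := by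
    have hm : AEStronglyMeasurable (fun y => A y (gradient k y))
        (volume.restrict (ball c (2 * ρ))) :=
      (isBoundedBilinearMap_apply (𝕜 := ℝ) (E := E m) (F := E m)).continuous.comp_aestronglyMeasurable
        (hAm.prodMk hgk.1)
    refine (hgk.const_smul (2 : ℝ)).of_le hm ?_
    rw [ae_restrict_iff' measurableSet_ball]
    refine ae_of_all _ fun y hy => ?_
    rw [Pi.smul_apply, norm_smul, Real.norm_of_nonneg (by norm_num)]
    exact (near_id_sb (hA y hy) _).2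
  have hΞ : MemLp (fun y => A y (gradient k y) + F y) 2 (volume.restrict (ball c (2 * ρ))) :=
    hAg.add hF
  have i1 := int_inner_sb hΞ hgz
  have z1 := (setInt_test_sb hsub fun y => A y (gradient k y) + F y).trans (hdiv _ hζ hcs hsub)
  have i3 : IntegrableOn (fun y => k y ^ 2) (ball c (2 * ρ)) :=
    ((hk.continuous.pow 2).continuousOn.integrableOn_compact (isCompact_closedBall _ _)).mono_set
      ball_subset_closedBall
  have i4 : IntegrableOn (fun y => ‖F y‖ ^ 2) (ball c (2 * ρ)) :=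
    hF.integrable_norm_pow two_ne_zero
  have pt : ∀ᵐ y ∂volume.restrict (ball c (2 * ρ)),
      (ball c ρ).indicator (fun y => ‖gradient k y‖ ^ 2) y ≤
        108 * ⟪A y (gradient k y) + F y, gradient (fun y => χ y * k y) y⟫ +
        27 * (640 / ρ ^ 2 * k y ^ 2 + 16 * ‖F y‖ ^ 2) := by
    rw [ae_restrict_iff' measurableSet_ball]
    filter_upwards [locLip_ae_diff hk] with y hy hyB
    have hc2 : √(χ y) ^ 2 = χ y := Real.sq_sqrt (chi_nonneg _ _ _)
    have e1 : gradient (fun y => χ y * k y) y =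
        (√(χ y) ^ 2) • gradient k y + k y • gradient χ y := by
      rw [grad_mul (hχ1.differentiable one_ne_zero y) hy, hc2]
    have hH : ‖k y • gradient χ y‖ ≤ √(χ y) * (4 / ρ * |k y|) := by
      rw [norm_smul, Real.norm_eq_abs]
      have := mul_le_mul_of_nonneg_left (norm_grad_chi_sb c hρ y) (abs_nonneg (k y))
      linarith
    have key := pt_sb (Real.sqrt_nonneg (χ y)) (Real.sqrt_le_one.2 (chi_le_one _ _ _))
      (by positivity) (R := F y) (near_id_sb (hA y hyB) (gradient k y)).1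
      (near_id_sb (hA y hyB) (gradient k y)).2 hH
    rw [← e1, hc2, mul_pow, sq_abs, div_pow] at key
    have hind : (ball c ρ).indicator (fun y => ‖gradient k y‖ ^ 2) y ≤
        27 * (χ y * ‖gradient k y‖ ^ 2) := by
      by_cases hyρ : y ∈ ball c ρ
      · rw [indicator_of_mem hyρ]
        have h1 : 1 / 3 ≤ pr c (3 * ρ / 2) y :=
          pr_ge hr (by norm_num) (by norm_num) (by convert hyρ using 2; ring)
        have h2 : 1 / 27 ≤ χ y := by
          have := pow_le_pow_left₀ (by norm_num) h1 3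
          rw [hχ, chi]; linarith
        nlinarith [sq_nonneg ‖gradient k y‖]
      · rw [indicator_of_notMem hyρ]
        exact mul_nonneg (by norm_num) (mul_nonneg (chi_nonneg _ _ _) (sq_nonneg _))
    have e3 : 640 / ρ ^ 2 * k y ^ 2 = 40 * (4 ^ 2 / ρ ^ 2 * k y ^ 2) := by ring
    rw [e3]
    linarith
  have j1 := i1.const_mul 108
  have j2 := (i3.const_mul (640 / ρ ^ 2)).add (i4.const_mul 16)
  have j3 := j2.const_mul 27
  have main := integral_mono_of_nonneg (ae_of_all _ fun y =>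
    indicator_nonneg (fun y _ => sq_nonneg ‖gradient k y‖) y) (j1.add j3) pt
  rw [setIntegral_indicator measurableSet_ball,
    inter_eq_right.2 (ball_subset_ball (by linarith)), integral_add' j1 j3, integral_const_mul,
    integral_const_mul, z1, integral_add' (i3.const_mul _) (i4.const_mul 16), integral_const_mul,
    integral_const_mul] at main
  have n4 : 0 ≤ ∫ y in ball c (2 * ρ), ‖F y‖ ^ 2 := integral_nonneg fun y => sq_nonneg _
  have e5 : 640 / ρ ^ 2 * ∫ y in ball c (2 * ρ), k y ^ 2 =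
      640 * ((∫ y in ball c (2 * ρ), k y ^ 2) / ρ ^ 2) := by ring
  rw [e5] at main
  linarith

theorem DivFree.sub {Ξ Ξ' : E m → E m} {c : E m} {ρ : ℝ} (h : DivFree Ξ (ball c ρ))
    (h' : DivFree Ξ' (ball c ρ)) (hΞ : MemLp Ξ 2 (volume.restrict (ball c ρ)))
    (hΞ' : MemLp Ξ' 2 (volume.restrict (ball c ρ))) :
    DivFree (fun y => Ξ y - Ξ' y) (ball c ρ) := by
  intro ζ hζ hc hs
  have hg := memLp_grad hζ c ρ
  rw [← setInt_test_sb hs]
  simp only [inner_sub_left]
  rw [integral_sub (int_inner_sb hΞ hg) (int_inner_sb hΞ' hg), setInt_test_sb hs,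
    setInt_test_sb hs, h ζ hζ hc hs, h' ζ hζ hc hs, sub_zero]

/-- Constant fields may be subtracted. -/
theorem DivFree.sub_const {Ξ : E m → E m} {c : E m} {ρ : ℝ} (h : DivFree Ξ (ball c ρ))
    (hΞ : MemLp Ξ 2 (volume.restrict (ball c ρ))) (b : E m) :
    DivFree (fun y => Ξ y - b) (ball c ρ) := by
  refine h.sub (Ξ' := fun _ => b) (fun ζ hζ hc _ => ?_) hΞ
    (memLp_bdd aestronglyMeasurable_const (C := ‖b‖) (ae_of_all _ fun _ _ => le_rfl))
  simpa only [real_inner_comm] using integral_grad_eq_zero hζ hc b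

theorem DivFree.translate {Ξ : E m → E m} {c v : E m} {ρ : ℝ} (h : DivFree Ξ (ball c (ρ + ‖v‖))) :
    DivFree (fun y => Ξ (y + v)) (ball c ρ) := by
  intro ζ hζ hc hs
  let e : E m ≃ₜ E m := Homeomorph.addRight (-v)
  have hl : LocallyLipschitz fun y => ζ (y + -v) :=
    hζ.comp (isometry_add_right (-v)).lipschitz.locallyLipschitz
  have hc' : HasCompactSupport fun y => ζ (y + -v) := hc.comp_homeomorph e
  have hs' : tsupport (fun y => ζ (y + -v)) ⊆ ball c (ρ + ‖v‖) := by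
    intro y hy
    have h1 : y + -v ∈ tsupport ζ :=
      tsupport_comp_subset_preimage ζ (f := fun y => y + -v) (by fun_prop) hy
    have h2 := mem_ball_iff_norm.1 (hs h1)
    rw [mem_ball_iff_norm]
    have h3 : y - c = (y + -v - c) + v := by abel
    rw [h3]
    exact (norm_add_le _ _).trans_lt (by linarith)
  have h0 := h _ hl hc' hs'
  rw [← integral_add_right_eq_self _ v] at h0
  refine Eq.trans (integral_congr_ae (ae_of_all _ fun y => ?_)) h0
  have e1 : gradient (fun y => ζ (y + -v)) (y + v) = gradient ζ y := by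
    unfold gradient
    rw [fderiv_comp_add_right, add_neg_cancel_right]
  simp only [e1]

end Pool.Agent.Lib.MP_8daebb_an.LG
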