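import Pool.Agent.Lib.MP_8daebb_an.LG.SB
import Pool.Agent.Lib.MP_8daebb_an.LG.HA
import Pool.Agent.Lib.MP_8daebb_an.LG.Scal

open MeasureTheory Metric Set Filter Topology
open scoped RealInnerProductSpace NNReal ContDiff

namespace Pool.Agent.Lib.MP_8daebb_an.LG

variable {m : ℕ}

/-! SC. One step of the linear excess decay. -/

theorem aff_sc {k : E m → ℝ} (hk : LocallyLipschitz k) (a : ℝ) (p : E m) :
    LocallyLipschitz (fun y => k y - (a + ⟪p, y⟫)) ∧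
      ∀ᵐ y, gradient (fun y => k y - (a + ⟪p, y⟫)) y = gradient k y - p := by
  have hq1 : ContDiff ℝ 1 fun y : E m => a + ⟪p, y⟫ :=
    contDiff_const.add (contDiff_const.inner ℝ contDiff_id)
  refine ⟨by simpa [sub_eq_add_neg] using hk.add hq1.locallyLipschitz.neg, ?_⟩
  filter_upwards [locLip_ae_diff hk] with y hy
  have hq : HasGradientAt (fun y : E m => a + ⟪p, y⟫) p y := by
    rw [hasGradientAt_iff_hasFDerivAt]
    exact ((InnerProductSpace.toDual ℝ (E m) p).hasFDerivAt (x := y)).const_add a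
  rw [grad_sub hy hq.differentiableAt, hq.gradient]

theorem memLp_app_sc {B : E m → E m →L[ℝ] E m} {g : E m → E m} {c : E m} {r ε : ℝ}
    (hB : AEStronglyMeasurable B (volume.restrict (ball c r))) (h : ∀ y ∈ ball c r, ‖B y‖ ≤ ε)
    (hg : MemLp g 2 (volume.restrict (ball c r))) :
    MemLp (fun y => B y (g y)) 2 (volume.restrict (ball c r)) ∧
      ∫ y in ball c r, ‖B y (g y)‖ ^ 2 ≤ ε ^ 2 * ∫ y in ball c r, ‖g y‖ ^ 2 := by
  have hm : AEStronglyMeasurable (fun y => B y (g y)) (volume.restrict (ball c r)) :=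
    (isBoundedBilinearMap_apply (𝕜 := ℝ) (E := E m) (F := E m)).continuous.comp_aestronglyMeasurable
      (hB.prodMk hg.1)
  have hle : ∀ᵐ y ∂volume.restrict (ball c r), ‖B y (g y)‖ ≤ ε * ‖g y‖ := by
    rw [ae_restrict_iff' measurableSet_ball]
    exact ae_of_all _ fun y hy =>
      ((B y).le_opNorm _).trans (mul_le_mul_of_nonneg_right (h y hy) (norm_nonneg _))
  have h1 := hg.of_le_mul hm hle
  refine ⟨h1, ?_⟩
  rw [← integral_const_mul]
  refine integral_mono_ae (h1.integrable_norm_pow two_ne_zero)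
    ((hg.integrable_norm_pow two_ne_zero).const_mul _) ?_
  filter_upwards [hle] with y hy
  rw [← mul_pow]
  exact pow_le_pow_left₀ (norm_nonneg _) hy 2

theorem num_sc {Cc C₁ C₂ v w θ T ε EE G H K I J : ℝ} (hCc : 0 < Cc) (hC₁ : 0 < C₁)
    (hθ : 0 < θ) (hθ1 : θ ≤ 1) (hT : 0 < T) (hEE : 0 ≤ EE) (hG : 0 ≤ G)
    (h1 : 8 * (Cc * (2 * C₁ + 8 * C₁ ^ 2 * v * w)) * θ ≤ 1)
    (h2 : 4 * (Cc * (4 * C₂ * v / θ ^ 2 + 2 * C₁ ^ 2 * v)) * ε ≤ T * θ)
    (hH : H ≤ C₁ * (T * θ ^ 6) * EE + T * θ ^ 3 / (16 * Cc) * EE + C₂ * (v * (2 * ε * EE + 2 * G)))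
    (hK : K ≤ 2 * H + 8 * (C₁ ^ 2 * EE) * θ ^ 4 * (v * (w * T)))
    (hI : I ≤ 2 * G + 2 * (ε * (C₁ ^ 2 * EE * v))) (hJ : J ≤ Cc * (K / θ ^ 2 + I)) :
    J ≤ (θ / 2 * EE + (C₁ + Cc * (4 * C₂ * v / θ ^ 2 + 2) / T) * G) * T := by
  have h3 : θ ^ 4 ≤ θ ^ 2 := pow_le_pow_of_le_one hθ.le hθ1 (by norm_num)
  have e1 : K / θ ^ 2 ≤ (2 * (C₁ * (T * θ ^ 6) * EE + T * θ ^ 3 / (16 * Cc) * EE +
      C₂ * (v * (2 * ε * EE + 2 * G))) + 8 * (C₁ ^ 2 * EE) * θ ^ 4 * (v * (w * T))) / θ ^ 2 :=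
    div_le_div_of_nonneg_right (by linarith) (by positivity)
  have e2 : Cc * ((2 * (C₁ * (T * θ ^ 6) * EE + T * θ ^ 3 / (16 * Cc) * EE +
      C₂ * (v * (2 * ε * EE + 2 * G))) + 8 * (C₁ ^ 2 * EE) * θ ^ 4 * (v * (w * T))) / θ ^ 2 +
      (2 * G + 2 * (ε * (C₁ ^ 2 * EE * v)))) =
      2 * Cc * C₁ * θ ^ 4 * (T * EE) + 8 * Cc * C₁ ^ 2 * v * w * θ ^ 2 * (T * EE) +
        θ / 8 * (T * EE) + Cc * (4 * C₂ * v / θ ^ 2 + 2 * C₁ ^ 2 * v) * ε * EE +
        Cc * (4 * C₂ * v / θ ^ 2 + 2) / T * G * T := by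
    field_simp
    ring
  have hTE : 0 ≤ T * EE := by positivity
  have e3 : 2 * Cc * C₁ * θ ^ 4 * (T * EE) ≤ 2 * Cc * C₁ * θ ^ 2 * (T * EE) := by gcongr
  have e4 : 8 * (Cc * (2 * C₁ + 8 * C₁ ^ 2 * v * w)) * θ * (θ * (T * EE)) ≤ 1 * (θ * (T * EE)) :=
    mul_le_mul_of_nonneg_right h1 (by positivity)
  have e5 := mul_le_mul_of_nonneg_right h2 hEE
  have e6 : 0 ≤ C₁ * G * T := by positivity
  have e7 : J ≤ Cc * ((2 * (C₁ * (T * θ ^ 6) * EE + T * θ ^ 3 / (16 * Cc) * EE +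
      C₂ * (v * (2 * ε * EE + 2 * G))) + 8 * (C₁ ^ 2 * EE) * θ ^ 4 * (v * (w * T))) / θ ^ 2 +
      (2 * G + 2 * (ε * (C₁ ^ 2 * EE * v)))) :=
    hJ.trans (mul_le_mul_of_nonneg_left (add_le_add e1 hI) hCc.le)
  rw [e2] at e7
  nlinarith

theorem lin_step_unit (m : ℕ) : ∃ θ : ℝ, 0 < θ ∧ θ ≤ 1 / 8 ∧ ∃ ε₀ > 0, ε₀ ≤ 1 / 2 ∧ ∃ C > 0,
    ∀ (k : E m → ℝ) (A : E m → E m →L[ℝ] E m) (F : E m → E m) (EE G : ℝ), LocallyLipschitz k →
      AEStronglyMeasurable A (volume.restrict (ball 0 1)) →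
      (∀ y ∈ ball (0 : E m) 1, ‖A y - ContinuousLinearMap.id ℝ (E m)‖ ≤ ε₀) →
      MemLp F 2 (volume.restrict (ball 0 1)) →
      DivFree (fun y => A y (gradient k y) + F y) (ball 0 1) →
      ∫ y in ball 0 1, ‖gradient k y‖ ^ 2 ≤ EE → ∫ y in ball 0 1, ‖F y‖ ^ 2 ≤ G →
      ∃ p : E m, ‖p‖ ≤ C * √EE ∧
        ∫ y in ball 0 θ, ‖gradient k y - p‖ ^ 2 ≤ (θ / 2 * EE + C * G) * θ ^ m := by
  obtain ⟨Cc, hCc, HC⟩ := lin_cacc
  obtain ⟨C₁, hC₁, H⟩ := harm_approx m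
  have hv := vb_pos m
  obtain ⟨θ, hθ, hθ8, hθC⟩ : ∃ θ : ℝ, 0 < θ ∧ θ ≤ 1 / 8 ∧
      8 * (Cc * (2 * C₁ + 8 * C₁ ^ 2 * vb m * 2 ^ m)) * θ ≤ 1 := by
    refine ⟨min (1 / 8) (1 / (8 * (Cc * (2 * C₁ + 8 * C₁ ^ 2 * vb m * 2 ^ m)))), by positivity,
      min_le_left _ _, ?_⟩
    rw [mul_comm, ← le_div_iff₀ (by positivity)]
    exact min_le_right _ _
  obtain ⟨C₂, hC₂, H⟩ := H θ hθ hθ8 (θ ^ m * θ ^ 3 / (16 * Cc)) (by positivity)
  obtain ⟨ε, hε, hε2, hεC⟩ : ∃ ε : ℝ, 0 < ε ∧ ε ≤ 1 / 2 ∧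
      4 * (Cc * (4 * C₂ * vb m / θ ^ 2 + 2 * C₁ ^ 2 * vb m)) * ε ≤ θ ^ m * θ := by
    refine ⟨min (1 / 2) (θ ^ m * θ / (4 * (Cc * (4 * C₂ * vb m / θ ^ 2 + 2 * C₁ ^ 2 * vb m)))),
      by positivity, min_le_left _ _, ?_⟩
    rw [mul_comm, ← le_div_iff₀ (by positivity)]
    exact min_le_right _ _
  have hεC2 : 4 * (Cc * (4 * C₂ * vb m / θ ^ 2 + 2 * C₁ ^ 2 * vb m)) * ε ^ 2 ≤ θ ^ m * θ :=
    le_trans (mul_le_mul_of_nonneg_left (by nlinarith) (by positivity)) hεC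
  have hCC : C₁ ≤ C₁ + Cc * (4 * C₂ * vb m / θ ^ 2 + 2) / θ ^ m :=
    le_add_of_nonneg_right (by positivity)
  refine ⟨θ, hθ, hθ8, ε, hε, hε2, _, hC₁.trans_le hCC, fun k A F EE G hk hAm hA hF hd hE hI => ?_⟩
  have hEE0 : 0 ≤ EE := (integral_nonneg fun y => by positivity).trans hE
  have hG0 : 0 ≤ G := (integral_nonneg fun y => by positivity).trans hI
  set B : E m → E m →L[ℝ] E m := fun y => A y - ContinuousLinearMap.id ℝ (E m) with hBdef
  have hBm : AEStronglyMeasurable B (volume.restrict (ball 0 1)) :=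
    hAm.sub aestronglyMeasurable_const
  have hAB : ∀ y q, A y q = q + B y q := fun y q => by simp [hBdef]
  have hgk := memLp_grad hk 0 1
  obtain ⟨m1, i1⟩ := memLp_app_sc hBm hA hgk
  have mΦ : MemLp (fun y => B y (gradient k y) + F y) 2 (volume.restrict (ball 0 1)) := m1.add hF
  have iΦ : ∫ y in ball 0 1, ‖B y (gradient k y) + F y‖ ^ 2 ≤ 2 * ε ^ 2 * EE + 2 * G := by
    have h1 := int_sq_add_le m1 hF
    have h2 : ε ^ 2 * ∫ y in ball 0 1, ‖gradient k y‖ ^ 2 ≤ ε ^ 2 * EE := by gcongr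
    linarith
  have hT := (int_le_sqrt (f := fun y => ‖B y (gradient k y) + F y‖) (c := (0 : E m)) one_pos
    mΦ.1.norm (mΦ.integrable_norm_pow two_ne_zero)).2
  simp only [abs_norm, one_pow, mul_one] at hT
  have : IsFiniteMeasure (volume.restrict (ball (0 : E m) 1)) :=
    isFiniteMeasure_restrict.2 measure_ball_lt_top.ne
  obtain ⟨a, p, S, -, hp, hS, -, hH⟩ := H k (fun y => -(B y (gradient k y) + F y)) EE
    (√(vb m) * √(2 * ε ^ 2 * EE + 2 * G)) hk (mΦ.integrable one_le_two).neg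
    (hd.congr (ae_of_all _ fun y _ => by rw [hAB]; abel)) hE (by
      simp only [norm_neg]
      exact hT.trans (by gcongr))
  rw [mul_pow, Real.sq_sqrt hv.le, Real.sq_sqrt (by positivity), pow_add] at hH
  have hp2 : ‖p‖ ^ 2 ≤ C₁ ^ 2 * EE := by
    calc ‖p‖ ^ 2 ≤ (C₁ * √EE) ^ 2 := pow_le_pow_left₀ (norm_nonneg _) hp 2
      _ = _ := by rw [mul_pow, Real.sq_sqrt hEE0]
  have hS2 : ‖S‖ ^ 2 ≤ C₁ ^ 2 * EE := by
    calc ‖S‖ ^ 2 ≤ (C₁ * √EE) ^ 2 := pow_le_pow_left₀ (norm_nonneg _) hS 2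
      _ = _ := by rw [mul_pow, Real.sq_sqrt hEE0]
  obtain ⟨hk', hg'⟩ := aff_sc hk a p
  have hsub : ball (0 : E m) (2 * θ) ⊆ ball 0 1 := ball_subset_ball (by linarith)
  have hle : volume.restrict (ball (0 : E m) (2 * θ)) ≤ volume.restrict (ball 0 1) :=
    Measure.restrict_mono hsub le_rfl
  obtain ⟨m2, i2⟩ := memLp_app_sc hBm hA (g := fun _ => p) (memLp_const p)
  have mF' : MemLp (fun y => F y + B y p) 2 (volume.restrict (ball 0 1)) := hF.add m2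
  have iF' : ∫ y in ball 0 (2 * θ), ‖F y + B y p‖ ^ 2 ≤
      2 * G + 2 * (ε ^ 2 * (C₁ ^ 2 * EE * vb m)) := by
    have h1 := int_sq_add_le hF m2
    have h2 : ∫ _y in ball (0 : E m) 1, ‖p‖ ^ 2 ≤ C₁ ^ 2 * EE * vb m := by
      rw [setIntegral_const, smul_eq_mul, mul_comm]
      exact mul_le_mul_of_nonneg_right hp2 hv.le
    have h3 : ε ^ 2 * ∫ _y in ball (0 : E m) 1, ‖p‖ ^ 2 ≤ ε ^ 2 * (C₁ ^ 2 * EE * vb m) := by
      gcongr
    have h4 := setIntegral_mono_set (mF'.integrable_norm_pow two_ne_zero)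
      (Eventually.of_forall fun y => by positivity) hsub.eventuallyLE
    linarith
  have mΞ : MemLp (fun y => A y (gradient k y) + F y) 2 (volume.restrict (ball 0 1)) := by
    have := hgk.add mΦ
    refine (memLp_congr_ae (ae_of_all _ fun y => ?_)).1 this
    simp only [Pi.add_apply]
    rw [hAB]; abel
  have hd' : DivFree (fun y => A y (gradient (fun y => k y - (a + ⟪p, y⟫)) y) + (F y + B y p))
      (ball 0 (2 * θ)) := by
    refine ((hd.sub_const mΞ p).mono hsub).congr ?_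
    filter_upwards [hg'] with y hy _
    rw [hy, map_sub, hAB y p]
    abel
  have hJ := HC m (fun y => k y - (a + ⟪p, y⟫)) A (fun y => F y + B y p) 0 θ hk' hθ
    (hAm.mono_measure hle) (fun y hy => (hA y (hsub hy)).trans hε2) (mF'.mono_measure hle) hd'
  have hJ' : ∫ y in ball 0 θ, ‖gradient k y - p‖ ^ 2 =
      ∫ y in ball 0 θ, ‖gradient (fun y => k y - (a + ⟪p, y⟫)) y‖ ^ 2 := by
    refine integral_congr_ae (ae_restrict_of_ae ?_)
    filter_upwards [hg'] with y hy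
    rw [hy]
  have hK : ∫ y in ball 0 (2 * θ), (k y - (a + ⟪p, y⟫)) ^ 2 ≤
      2 * (∫ y in ball 0 (2 * θ), (k y - (a + ⟪p, y⟫ + ⟪S y, y⟫ / 2)) ^ 2) +
        8 * (C₁ ^ 2 * EE) * θ ^ 4 * (vb m * (2 ^ m * θ ^ m)) := by
    have hc := hk.continuous
    have j1 : IntegrableOn (fun y => (k y - (a + ⟪p, y⟫)) ^ 2) (ball 0 (2 * θ)) :=
      ((hk'.continuous.pow 2).continuousOn.integrableOn_compact
        (isCompact_closedBall _ _)).mono_set ball_subset_closedBall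
    have j2 : IntegrableOn (fun y => (k y - (a + ⟪p, y⟫ + ⟪S y, y⟫ / 2)) ^ 2) (ball 0 (2 * θ)) :=
      ((by fun_prop : Continuous fun y => (k y - (a + ⟪p, y⟫ + ⟪S y, y⟫ / 2)) ^ 2).continuousOn.integrableOn_compact
        (isCompact_closedBall _ _)).mono_set ball_subset_closedBall
    have j3 : IntegrableOn (fun _ : E m => 8 * (C₁ ^ 2 * EE) * θ ^ 4) (ball 0 (2 * θ)) :=
      integrableOn_const measure_ball_lt_top.ne
    calc ∫ y in ball 0 (2 * θ), (k y - (a + ⟪p, y⟫)) ^ 2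
        ≤ ∫ y in ball 0 (2 * θ), (2 * (k y - (a + ⟪p, y⟫ + ⟪S y, y⟫ / 2)) ^ 2 +
            8 * (C₁ ^ 2 * EE) * θ ^ 4) := by
          refine setIntegral_mono_on j1 ((j2.const_mul 2).add j3) measurableSet_ball fun y hy => ?_
          have h1 : ‖y‖ ≤ 2 * θ := (mem_ball_zero_iff.1 hy).le
          have h2 : |⟪S y, y⟫| ≤ ‖S‖ * (2 * θ) ^ 2 := by
            calc |⟪S y, y⟫| ≤ ‖S y‖ * ‖y‖ := abs_real_inner_le_norm _ _
              _ ≤ ‖S‖ * ‖y‖ * ‖y‖ := by gcongr; exact S.le_opNorm y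
              _ ≤ ‖S‖ * (2 * θ) * (2 * θ) := by gcongr
              _ = _ := by ring
          have h3 : ⟪S y, y⟫ ^ 2 ≤ 16 * (C₁ ^ 2 * EE) * θ ^ 4 := by
            calc ⟪S y, y⟫ ^ 2 = |⟪S y, y⟫| ^ 2 := (sq_abs _).symm
              _ ≤ (‖S‖ * (2 * θ) ^ 2) ^ 2 := pow_le_pow_left₀ (abs_nonneg _) h2 2
              _ = 16 * ‖S‖ ^ 2 * θ ^ 4 := by ring
              _ ≤ _ := by gcongr
          nlinarith [sq_nonneg (k y - (a + ⟪p, y⟫ + ⟪S y, y⟫ / 2) - ⟪S y, y⟫ / 2)]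
      _ = _ := by
          rw [integral_add (j2.const_mul 2) j3, integral_const_mul, setIntegral_const, smul_eq_mul,
            vol_ball 0 (by positivity), mul_pow]
          ring
  refine ⟨p, hp.trans (by gcongr), ?_⟩
  rw [hJ']
  exact num_sc hCc hC₁ hθ (by linarith) (by positivity) hEE0 hG0 hθC hεC2 hH hK iF' hJ

theorem meas_scale_sc {A : E m → E m →L[ℝ] E m} {x : E m} {s : ℝ} (hs : 0 < s)
    (h : AEStronglyMeasurable A (volume.restrict (ball x s))) :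
    AEStronglyMeasurable (fun y => A (x + s • y)) (volume.restrict (ball 0 1)) ∧
      MapsTo (fun y : E m => x + s • y) (ball 0 1) (ball x s) := by
  have hm : MapsTo (fun y : E m => x + s • y) (ball 0 1) (ball x s) := fun y hy => by
    rw [mem_ball_iff_norm, add_sub_cancel_left, norm_smul, Real.norm_of_nonneg hs.le]
    exact mul_lt_of_lt_one_right hs (mem_ball_zero_iff.1 hy)
  have hq : Measure.QuasiMeasurePreserving (fun y : E m => x + s • y) volume volume :=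
    (measurePreserving_add_left volume x).quasiMeasurePreserving.comp
      (Measure.quasiMeasurePreserving_smul volume hs.ne')
  exact ⟨h.comp_quasiMeasurePreserving (hq.restrict hm), hm⟩

theorem lin_step (m : ℕ) : ∃ θ : ℝ, 0 < θ ∧ θ ≤ 1 / 8 ∧ ∃ ε₀ > 0, ε₀ ≤ 1 / 2 ∧ ∃ C > 0,
    ∀ (h : E m → ℝ) (A : E m → E m →L[ℝ] E m) (F : E m → E m) (x p : E m) (s EE G : ℝ),
      LocallyLipschitz h → 0 < s → AEStronglyMeasurable A (volume.restrict (ball x s)) →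
      (∀ y ∈ ball x s, ‖A y - ContinuousLinearMap.id ℝ (E m)‖ ≤ ε₀) →
      MemLp F 2 (volume.restrict (ball x s)) →
      DivFree (fun y => A y (gradient h y - p) + F y) (ball x s) →
      ∫ y in ball x s, ‖gradient h y - p‖ ^ 2 ≤ EE * s ^ m →
      ∫ y in ball x s, ‖F y‖ ^ 2 ≤ G * s ^ m →
      ∃ p' : E m, ‖p' - p‖ ≤ C * √EE ∧
        ∫ y in ball x (θ * s), ‖gradient h y - p'‖ ^ 2 ≤ (θ / 2 * EE + C * G) * (θ * s) ^ m := by
  obtain ⟨θ, hθ, hθ8, ε₀, hε₀, hε2, C, hC, H⟩ := lin_step_unit m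
  refine ⟨θ, hθ, hθ8, ε₀, hε₀, hε2, C, hC,
    fun h A F x p s EE G hh hs hAm hA hF hd hE hI => ?_⟩
  have hsm : 0 < s ^ m := pow_pos hs m
  obtain ⟨hk, hg⟩ := aff_sc hh 0 p
  set h' : E m → ℝ := fun y => h y - (0 + ⟪p, y⟫) with hh'
  obtain ⟨hAm', hmap⟩ := meas_scale_sc hs hAm
  have key : ∀ (q : E m) (r : ℝ),
      ∫ y in ball 0 r, ‖gradient (fun y => (h' (x + s • y) - 0) / s) y - q‖ ^ 2 =
        (∫ y in ball x (s * r), ‖gradient h y - (p + q)‖ ^ 2) / s ^ m := by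
    intro q r
    have h1 : ∫ y in ball x (s * r), ‖gradient h y - (p + q)‖ ^ 2 =
        ∫ y in ball x (s * r), ‖gradient h' y - q‖ ^ 2 := by
      refine integral_congr_ae (ae_restrict_of_ae ?_)
      filter_upwards [hg] with y hy
      rw [hy, sub_sub]
    rw [h1, ← setInt_scale _ x hs r]
    simp only [grad_scale h' x 0 hs]
  have hd' : DivFree (fun y => A y (gradient h' y) + F y) (ball x (s * 1)) := by
    rw [mul_one]
    refine hd.congr ?_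
    filter_upwards [hg] with y hy _
    rw [hy]
  obtain ⟨q, hq, hJ⟩ := H (fun y => (h' (x + s • y) - 0) / s) (fun y => A (x + s • y))
    (fun y => F (x + s • y)) EE G (locLip_scale hk x 0 s) hAm' (fun y hy => hA _ (hmap hy))
    (memLp_scale hs (by rwa [mul_one])) (by
      simp only [grad_scale h' x 0 hs]
      exact DivFree.scale hs hd') (by
      have h1 := key 0 1
      simp only [sub_zero, add_zero, mul_one] at h1
      simp only [sub_zero]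
      rwa [h1, div_le_iff₀ hsm]) (by
      have h1 := setInt_scale (fun y => ‖F y‖ ^ 2) x hs 1
      rwa [h1, mul_one, div_le_iff₀ hsm])
  refine ⟨p + q, by rwa [add_sub_cancel_left], ?_⟩
  rw [key, div_le_iff₀ hsm, mul_comm s θ] at hJ
  rw [mul_pow θ s m, ← mul_assoc]
  exact hJ

end Pool.Agent.Lib.MP_8daebb_an.LG
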