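import Pool.Agent.Lib.MP_8daebb_an.LG.Vit
import Pool.Agent.Lib.MP_8daebb_an.LG.LipD
import Pool.Agent.Lib.MP_8daebb_an.LG.Weak

open MeasureTheory Metric Set Filter Topology
open scoped RealInnerProductSpace NNReal ContDiff

namespace Pool.Agent.Lib.MP_8daebb_an.LG

variable {m : ℕ}

/-! SD. The Campanato criterion for Hoelder continuity, and differentiability. -/

theorem fin_ball_sd (c : E m) (r : ℝ) : IsFiniteMeasure (volume.restrict (ball c r)) :=
  isFiniteMeasure_restrict.mpr measure_ball_lt_top.ne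

theorem int_sq_sd {Ψ : E m → E m} {c : E m} {r : ℝ}
    (hΨ : MemLp Ψ 2 (volume.restrict (ball c r))) (p : E m) :
    IntegrableOn (fun y => ‖Ψ y - p‖ ^ 2) (ball c r) := by
  have := fin_ball_sd c r
  have h : MemLp (fun y => Ψ y - p) 2 (volume.restrict (ball c r)) := hΨ.sub (memLp_const p)
  exact (memLp_two_iff_integrable_sq_norm h.1).mp h

/-- Approximating vectors on nested balls of comparable size are close. -/
theorem close_sd {Ψ : E m → E m} (hΨ : ∀ c r, MemLp Ψ 2 (volume.restrict (ball c r)))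
    {θ T s : ℝ} (hθ : 0 < θ) (hT : 0 ≤ T) (hs : 0 < s) {x y p q : E m}
    (hsub : ball y (θ * s) ⊆ ball x s) (hp : ∫ z in ball x s, ‖Ψ z - p‖ ^ 2 ≤ T ^ 2 * s ^ m)
    (hq : ∫ z in ball y (θ * s), ‖Ψ z - q‖ ^ 2 ≤ T ^ 2 * s ^ m) :
    ‖p - q‖ ≤ 2 / √(vb m * θ ^ m) * T := by
  have hvb := vb_pos m
  have hk : 0 < vb m * θ ^ m := by positivity
  have h1 := close_of_int (mul_pos hθ hs) (hΨ y (θ * s)) p q
  have h2 : ∫ z in ball y (θ * s), ‖Ψ z - p‖ ^ 2 ≤ ∫ z in ball x s, ‖Ψ z - p‖ ^ 2 :=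
    setIntegral_mono_set (int_sq_sd (hΨ x s) p) (Eventually.of_forall fun z => sq_nonneg _)
      hsub.eventuallyLE
  have h5 : ‖p - q‖ ^ 2 * (vb m * θ ^ m) ≤ 4 * T ^ 2 := by
    refine le_of_mul_le_mul_right ?_ (pow_pos hs m)
    rw [mul_pow] at h1
    linarith
  apply le_of_sq_le_sq _ (by positivity)
  rw [mul_pow, div_pow, Real.sq_sqrt hk.le, div_mul_eq_mul_div, le_div_iff₀ hk]
  linarith

/-- At a Lebesgue point the approximating vector is close to the value. -/
theorem leb_sd {Ψ : E m → E m} (hΨ : ∀ c r, MemLp Ψ 2 (volume.restrict (ball c r)))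
    {A s t : ℝ} (hs : 0 < s) (ht : 0 < t) {x p : E m}
    (hp : ∫ z in ball x s, ‖Ψ z - p‖ ^ 2 ≤ (A * t) ^ 2 * s ^ m) :
    ‖p - Ψ x‖ ≤
      (vb m)⁻¹ * ((∫ z in ball x s, ‖Ψ z - Ψ x‖) / s ^ m + (vb m + A ^ 2) * t) := by
  have := fin_ball_sd x s
  have hvb := vb_pos m
  have hsm : 0 < s ^ m := pow_pos hs m
  have hI : IntegrableOn Ψ (ball x s) := (hΨ x s).integrable (by norm_num)
  have i1 : IntegrableOn (fun z => ‖Ψ z - Ψ x‖) (ball x s) := (hI.sub (integrable_const _)).norm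
  have i2 := int_sq_sd (hΨ x s) p
  have i3 : IntegrableOn (fun _ : E m => t) (ball x s) := integrable_const _
  have i4 : IntegrableOn (fun z => t + t⁻¹ * ‖Ψ z - p‖ ^ 2) (ball x s) := i3.add (i2.const_mul _)
  have h1 : ∫ _ in ball x s, ‖p - Ψ x‖ ≤
      ∫ z in ball x s, (‖Ψ z - Ψ x‖ + (t + t⁻¹ * ‖Ψ z - p‖ ^ 2)) := by
    refine integral_mono (integrable_const _) (i1.add i4) fun z => ?_
    have a1 : ‖p - Ψ x‖ ≤ ‖Ψ z - Ψ x‖ + ‖Ψ z - p‖ := by
      calc ‖p - Ψ x‖ = ‖(Ψ z - Ψ x) - (Ψ z - p)‖ := by congr 1; abel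
        _ ≤ _ := norm_sub_le _ _
    have a2 : ‖Ψ z - p‖ ≤ t + t⁻¹ * ‖Ψ z - p‖ ^ 2 := by
      rw [← sub_le_iff_le_add', le_inv_mul_iff₀ ht]
      nlinarith [sq_nonneg (‖Ψ z - p‖ - t), sq_nonneg ‖Ψ z - p‖, sq_nonneg t]
    change ‖p - Ψ x‖ ≤ ‖Ψ z - Ψ x‖ + (t + t⁻¹ * ‖Ψ z - p‖ ^ 2)
    linarith
  rw [integral_add i1 i4, integral_add i3 (i2.const_mul _),
    integral_const_mul, setIntegral_const, setIntegral_const, vol_ball x hs, smul_eq_mul,
    smul_eq_mul] at h1
  have h2 : t⁻¹ * ∫ z in ball x s, ‖Ψ z - p‖ ^ 2 ≤ A ^ 2 * t * s ^ m := by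
    rw [inv_mul_le_iff₀ ht]
    exact hp.trans (le_of_eq (by ring))
  rw [le_inv_mul_iff₀ hvb, ← sub_le_iff_le_add, le_div_iff₀ hsm]
  linarith

theorem hol_rep (m : ℕ) {θ : ℝ} (hθ : 0 < θ) (hθ' : θ ≤ 1 / 8) : ∃ C > 0,
    ∀ (Ψ : E m → E m) (A B : ℝ), (∀ c r, MemLp Ψ 2 (volume.restrict (ball c r))) → 0 ≤ A →
      (∀ x ∈ ball (0 : E m) (1 / 8), ∀ j : ℕ, ∃ p : E m, ‖p‖ ≤ B ∧
        ∫ y in ball x (θ ^ j / 3), ‖Ψ y - p‖ ^ 2 ≤ A ^ 2 * (θ ^ j / 3) ^ (m + 1)) →
      ∃ Ψ' : E m → E m,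
        (∀ x ∈ ball (0 : E m) (1 / 8), ∀ y ∈ ball (0 : E m) (1 / 8),
          ‖Ψ' x - Ψ' y‖ ≤ C * A * √‖x - y‖) ∧
        (∀ x ∈ ball (0 : E m) (1 / 8), ‖Ψ' x‖ ≤ B) ∧
        ∀ᵐ x, x ∈ ball (0 : E m) (1 / 8) → Ψ' x = Ψ x := by
  have hvb := vb_pos m
  have hsq : 0 < √(vb m * θ ^ m) := Real.sqrt_pos.mpr (by positivity)
  set C₀ : ℝ := 2 / √(vb m * θ ^ m) with hC₀
  have hC₀0 : 0 < C₀ := by positivity
  have hθ1 : θ < 1 := by linarith
  obtain ⟨σ, hσ, rfl⟩ : ∃ σ : ℝ, 0 < σ ∧ θ = σ ^ 2 :=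
    ⟨√θ, Real.sqrt_pos.2 hθ, (Real.sq_sqrt hθ.le).symm⟩
  have hσ2 : σ ≤ 1 / 2 := by nlinarith
  have hσ1 : σ < 1 := by linarith
  refine ⟨10 * C₀ / σ, by positivity, ?_⟩
  intro Ψ A B hΨ hA H
  choose! p hpB hp0 using H
  have hs : ∀ j : ℕ, 0 < (σ ^ 2) ^ j / 3 := fun j => by positivity
  have hs' : ∀ j : ℕ, (σ ^ 2) ^ (j + 1) / 3 = σ ^ 2 * ((σ ^ 2) ^ j / 3) := fun j => by ring
  have hp : ∀ x ∈ ball (0 : E m) (1 / 8), ∀ j : ℕ,
      ∫ y in ball x ((σ ^ 2) ^ j / 3), ‖Ψ y - p x j‖ ^ 2 ≤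
        (A * σ ^ j) ^ 2 * ((σ ^ 2) ^ j / 3) ^ m := fun x hx j => by
    refine (hp0 x hx j).trans ?_
    have h1 : 0 ≤ (A * σ ^ j) ^ 2 * ((σ ^ 2) ^ j / 3) ^ m := by positivity
    have h2 : A ^ 2 * ((σ ^ 2) ^ j / 3) ^ (m + 1) =
        (A * σ ^ j) ^ 2 * ((σ ^ 2) ^ j / 3) ^ m / 3 := by
      rw [pow_succ _ m]
      ring
    linarith
  have hcl : ∀ x ∈ ball (0 : E m) (1 / 8), ∀ y ∈ ball (0 : E m) (1 / 8), ∀ j : ℕ,
      dist y x ≤ (1 - σ ^ 2) * ((σ ^ 2) ^ j / 3) →
        ‖p x j - p y (j + 1)‖ ≤ C₀ * A * σ ^ j := by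
    intro x hx y hy j hd
    have hq := hp y hy (j + 1)
    rw [hs' j] at hq
    rw [mul_assoc]
    refine close_sd hΨ hθ (by positivity) (hs j) (ball_subset_ball' (by linarith)) (hp x hx j)
      (hq.trans ?_)
    have h1 : σ ^ (j + 1) ≤ σ ^ j := pow_le_pow_of_le_one hσ.le hσ1.le j.le_succ
    have h2 := mul_le_of_le_one_left (hs j).le hθ1.le
    gcongr
  have hgeo : ∀ x ∈ ball (0 : E m) (1 / 8), ∀ j : ℕ,
      dist (p x j) (p x (j + 1)) ≤ C₀ * A * σ ^ j := by
    intro x hx j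
    rw [dist_eq_norm]
    exact hcl x hx x hx j (by
      rw [dist_self]
      exact mul_nonneg (by linarith) (hs j).le)
  have hlim : ∀ x ∈ ball (0 : E m) (1 / 8), ∃ P : E m, Tendsto (p x) atTop (𝓝 P) := fun x hx =>
    cauchySeq_tendsto_of_complete (cauchySeq_of_le_geometric σ _ hσ1 (hgeo x hx))
  choose! P hP using hlim
  have hPd : ∀ x ∈ ball (0 : E m) (1 / 8), ∀ j : ℕ, ‖p x j - P x‖ ≤ 2 * (C₀ * A * σ ^ j) := by
    intro x hx j
    have h1 := dist_le_of_le_geometric_of_tendsto σ _ hσ1 (hgeo x hx) (hP x hx) j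
    rw [dist_eq_norm] at h1
    refine h1.trans ?_
    rw [div_le_iff₀ (by linarith)]
    have h2 : 0 ≤ C₀ * A * σ ^ j := by positivity
    nlinarith
  refine ⟨P, fun x hx y hy => ?_, fun x hx => le_of_tendsto' (hP x hx).norm (hpB x hx), ?_⟩
  · rcases eq_or_ne x y with rfl | hxy
    · simp
    rw [← dist_eq_norm x y]
    have hd0 : 0 < dist x y := dist_pos.mpr hxy
    have hd1 : dist x y < 1 / 4 := by
      have := dist_triangle_right x y 0
      have h1 := mem_ball.mp hx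
      have h2 := mem_ball.mp hy
      linarith
    have hc : 0 < (1 - σ ^ 2) / 3 := by linarith
    obtain ⟨j, hj1, hj2⟩ := exists_nat_pow_near_of_lt_one (div_pos hd0 hc)
      ((div_le_one hc).mpr (by linarith)) hθ hθ1
    rw [lt_div_iff₀ hc] at hj1
    rw [div_le_iff₀ hc] at hj2
    have a1 := hcl x hx y hy j (by rw [dist_comm]; linarith)
    have a2 := hPd x hx j
    have a3 := hPd y hy (j + 1)
    have a4 : C₀ * A * σ ^ (j + 1) ≤ C₀ * A * σ ^ j :=
      mul_le_mul_of_nonneg_left (pow_le_pow_of_le_one hσ.le hσ1.le j.le_succ) (by positivity)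
    have a5 : ‖P x - P y‖ ≤ 5 * (C₀ * A * σ ^ j) := by
      have e : P x - P y = (p x j - p y (j + 1)) - (p x j - P x) + (p y (j + 1) - P y) := by abel
      rw [e]
      have b1 := norm_add_le (p x j - p y (j + 1) - (p x j - P x)) (p y (j + 1) - P y)
      have b2 := norm_sub_le (p x j - p y (j + 1)) (p x j - P x)
      linarith
    have a6 : σ ^ j * σ / 2 ≤ √(dist x y) := by
      refine Real.le_sqrt_of_sq_le ?_
      have h3 : 0 < (σ ^ 2) ^ (j + 1) := by positivity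
      have h4 : (σ ^ j * σ / 2) ^ 2 = (σ ^ 2) ^ (j + 1) / 4 := by ring
      nlinarith
    calc ‖P x - P y‖ ≤ 5 * (C₀ * A * σ ^ j) := a5
      _ = 10 * C₀ / σ * A * (σ ^ j * σ / 2) := by field_simp; ring
      _ ≤ _ := by gcongr
  · have hloc : LocallyIntegrable Ψ := fun x => by
      have := fin_ball_sd x 1
      exact ⟨ball x 1, ball_mem_nhds x one_pos, (hΨ x 1).integrable (by norm_num)⟩
    filter_upwards [ae_lebesgue_norm hloc] with x hx hxb
    have h0 : Tendsto (fun j : ℕ => (σ ^ 2) ^ j / 3) atTop (𝓝 0) := by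
      simpa using (tendsto_pow_atTop_nhds_zero_of_lt_one hθ.le hθ1).div_const 3
    have h1 : Tendsto (fun j : ℕ => (σ ^ 2) ^ j / 3) atTop (𝓝[>] 0) :=
      tendsto_nhdsWithin_iff.mpr ⟨h0, Eventually.of_forall hs⟩
    have h2 := ((hx.comp h1).add ((tendsto_pow_atTop_nhds_zero_of_lt_one hσ.le hσ1).const_mul
      (vb m + A ^ 2))).const_mul (vb m)⁻¹
    simp only [mul_zero, add_zero] at h2
    have h3 : Tendsto (p x) atTop (𝓝 (Ψ x)) := by
      rw [tendsto_iff_norm_sub_tendsto_zero]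
      exact squeeze_zero (fun j => norm_nonneg _)
        (fun j => leb_sd hΨ (hs j) (pow_pos hσ j) (hp x hxb j)) h2
    exact tendsto_nhds_unique (hP x hxb) h3

/-- The mean value inequality from an almost everywhere bound for the gradient. -/
theorem mvt_sd {f : E m → ℝ} {K : ℝ≥0} (hf : LipschitzWith K f) {x p v : E m} {η δ : ℝ}
    (hη : 0 ≤ η) (hv : ‖v‖ < δ) (h : ∀ᵐ z, z ∈ ball x δ → ‖gradient f z - p‖ ≤ η) :
    |f (x + v) - f x - ⟪p, v⟫| ≤ η * ‖v‖ := by
  have hfc := hf.continuous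
  have key : ∀ r, 0 < r → r + ‖v‖ ≤ δ → |f (x + v) - f x - ⟪p, v⟫| ≤ η * ‖v‖ + 2 * K * r := by
    intro r hr hrδ
    have := fin_ball_sd x r
    have hFc : ∀ t : ℝ, Continuous fun z => f (z + t • v) := fun t => by fun_prop
    have hFi : ∀ t : ℝ, IntegrableOn (fun z => f (z + t • v)) (ball x r) := fun t =>
      ((hFc t).continuousOn.integrableOn_compact (isCompact_closedBall x r)).mono_set
        ball_subset_closedBall
    have hder : ∀ t : ℝ, Integrable (fun z => fderiv ℝ f (z + t • v) v)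
        (volume.restrict (ball x r)) ∧ HasDerivAt (fun s : ℝ => ∫ z in ball x r, f (z + s • v))
          (∫ z in ball x r, fderiv ℝ f (z + t • v) v) t := by
      intro t
      refine hasDerivAt_integral_of_dominated_loc_of_lip (μ := volume.restrict (ball x r))
        (F := fun s z => f (z + s • v)) (s := univ) (bound := fun _ => K * ‖v‖)
        univ_mem (Eventually.of_forall fun s => (hFc s).aestronglyMeasurable) (hFi t)
        ((measurable_fderiv_apply_const ℝ f v).comp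
          (measurable_add_const _)).aestronglyMeasurable ?_ (integrable_const _) ?_
      · refine Eventually.of_forall fun z => ?_
        refine LipschitzWith.lipschitzOnWith (LipschitzWith.of_dist_le_mul fun s s' => ?_)
        have := hf.dist_le_mul (z + s • v) (z + s' • v)
        rw [dist_eq_norm (z + s • v), add_sub_add_left_eq_sub, ← sub_smul, norm_smul,
          Real.norm_eq_abs] at this
        rw [Real.dist_eq s, Real.coe_nnabs, abs_of_nonneg (a := K * ‖v‖) (by positivity)]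
        linarith
      · have h1 : ∀ᵐ z : E m, DifferentiableAt ℝ f (z + t • v) :=
          (measurePreserving_add_right volume (t • v)).quasiMeasurePreserving.ae
            (hf.ae_differentiableAt (μ := volume))
        refine (ae_restrict_of_ae h1).mono fun z hz => ?_
        have h2 : HasDerivAt (fun s : ℝ => z + s • v) v t := by
          simpa using ((hasDerivAt_id t).smul_const v).const_add z
        exact hz.hasFDerivAt.comp_hasDerivAt t h2
    obtain ⟨t, ht, hte⟩ := exists_hasDerivAt_eq_slope (fun s : ℝ => ∫ z in ball x r, f (z + s • v))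
      (fun s => ∫ z in ball x r, fderiv ℝ f (z + s • v) v) one_pos
      (fun s _ => (hder s).2.continuousAt.continuousWithinAt) (fun s _ => (hder s).2)
    rw [sub_zero, div_one] at hte
    have hb : ‖∫ z in ball x r, ((f (x + v) - f x - ⟪p, v⟫) + (fderiv ℝ f (z + t • v) v -
        (f (z + (1 : ℝ) • v) - f (z + (0 : ℝ) • v))))‖ ≤
        (η * ‖v‖ + 2 * K * r) * volume.real (ball x r) := by
      refine norm_setIntegral_le_of_norm_le_const_ae measure_ball_lt_top ?_
      have h1 := (measurePreserving_add_right volume (t • v)).quasiMeasurePreserving.ae h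
      filter_upwards [ae_restrict_of_ae h1, ae_restrict_mem measurableSet_ball] with z h2 hz
      have h3 : ‖gradient f (z + t • v) - p‖ ≤ η := h2 (by
        have h4 : ‖t • v‖ ≤ ‖v‖ := by
          rw [norm_smul, Real.norm_of_nonneg ht.1.le]
          exact mul_le_of_le_one_left (norm_nonneg _) ht.2.le
        have h5 := dist_triangle (z + t • v) z x
        rw [dist_self_add_left] at h5
        rw [mem_ball] at hz ⊢
        linarith)
      have h4 := abs_le.1 ((abs_real_inner_le_norm (gradient f (z + t • v) - p) v).trans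
        (mul_le_mul_of_nonneg_right h3 (norm_nonneg v)))
      rw [inner_sub_left, inner_grad] at h4
      have h5 : (K : ℝ) * dist z x ≤ K * r :=
        mul_le_mul_of_nonneg_left (mem_ball.1 hz).le K.coe_nonneg
      have h6 := abs_le.1 ((hf.dist_le_mul z x).trans h5)
      have h7 := hf.dist_le_mul (z + v) (x + v)
      rw [dist_add_right] at h7
      have h8 := abs_le.1 (h7.trans h5)
      rw [one_smul, zero_smul, add_zero, Real.norm_eq_abs, abs_le]
      constructor <;> linarith [h4.1, h4.2, h6.1, h6.2, h8.1, h8.2]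
    have i0 : IntegrableOn (fun z => f (z + (1 : ℝ) • v) - f (z + (0 : ℝ) • v)) (ball x r) :=
      (hFi 1).sub (hFi 0)
    have i1 : IntegrableOn (fun z => fderiv ℝ f (z + t • v) v -
        (f (z + (1 : ℝ) • v) - f (z + (0 : ℝ) • v))) (ball x r) := (hder t).1.sub i0
    rw [integral_add (integrable_const _) i1, integral_sub (hder t).1 i0,
      integral_sub (hFi 1) (hFi 0), hte, sub_self, add_zero, setIntegral_const,
      norm_smul, Real.norm_of_nonneg measureReal_nonneg, mul_comm] at hb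
    have hvol : 0 < volume.real (ball x r) := by
      rw [vol_ball x hr]
      exact mul_pos (vb_pos m) (pow_pos hr m)
    exact le_of_mul_le_mul_right hb hvol
  refine le_of_forall_pos_le_add fun ε hε => ?_
  have h1 : 0 < min (δ - ‖v‖) (ε / (2 * K + 1)) := lt_min (by linarith) (by positivity)
  refine (key _ h1 (by linarith [min_le_left (δ - ‖v‖) (ε / (2 * K + 1))])).trans ?_
  have h2 := (le_div_iff₀ (by positivity)).1 (min_le_right (δ - ‖v‖) (ε / (2 * K + 1)))
  linarith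

/-- A locally Lipschitz function whose gradient agrees almost everywhere with a continuous field
is differentiable. -/
theorem hasGradientAt_of_ae {h : E m → ℝ} (hh : LocallyLipschitz h) {Φ : E m → E m}
    {U : Set (E m)} (hU : IsOpen U) (hΦ : ContinuousOn Φ U)
    (he : ∀ᵐ x, x ∈ U → Φ x = gradient h x) {x : E m} (hx : x ∈ U) :
    HasGradientAt h (Φ x) x := by
  rw [hasGradientAt_iff_hasFDerivAt, hasFDerivAt_iff_isLittleO_nhds_zero, Asymptotics.isLittleO_iff]
  intro η hη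
  have h1 : ∀ᶠ z in 𝓝 x, z ∈ U ∧ dist (Φ z) (Φ x) < η :=
    (hU.eventually_mem hx).and (Metric.tendsto_nhds.1 (hΦ.continuousAt (hU.mem_nhds hx)) η hη)
  obtain ⟨δ, hδ, h2⟩ := Metric.eventually_nhds_iff_ball.1 h1
  obtain ⟨f, K, hf, hfh⟩ := locLip_extend hh x δ
  filter_upwards [ball_mem_nhds (0 : E m) hδ] with v hv
  have hv' : ‖v‖ < δ := mem_ball_zero_iff.1 hv
  have h3 := mvt_sd hf (p := Φ x) hη.le hv' (he.mono fun z hz hzb => by
    rw [grad_congr_open isOpen_ball hfh hzb, ← hz (h2 z hzb).1, ← dist_eq_norm]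
    exact (h2 z hzb).2.le)
  rw [hfh (mem_ball_self hδ), hfh (by simpa using hv')] at h3
  simpa using h3

end Pool.Agent.Lib.MP_8daebb_an.LG
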