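import Pool.Agent.Lib.MP_8daebb_an.LG.Base

open MeasureTheory Metric Set Filter Topology
open scoped RealInnerProductSpace NNReal ContDiff

namespace Pool.Agent.Lib.MP_8daebb_an.LG

variable {m : ℕ}

/-! SDEF. Local Hoelder classes with exponent one half. -/

/-- `Hol U k Φ`: the map `Φ` has derivatives up to order `k` on `U`, locally Hoelder continuous
with exponent one half. -/
def Hol {G : Type} [NormedAddCommGroup G] [NormedSpace ℝ G] (U : Set (E m)) :
    ℕ → (E m → G) → Prop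
  | 0, Φ => ∀ x ∈ U, ∃ C r : ℝ, 0 < r ∧ ∀ y ∈ ball x r, ∀ z ∈ ball x r,
      ‖Φ y - Φ z‖ ≤ C * √‖y - z‖
  | k + 1, Φ => (∀ x ∈ U, DifferentiableAt ℝ Φ x) ∧ ∀ e : E m, Hol U k fun x => fderiv ℝ Φ x e

end Pool.Agent.Lib.MP_8daebb_an.LG
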