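import Mathlib

/-!
Stationary sums of Lipschitz graphs of codimension one: the definitions used in the statement.
-/

open MeasureTheory Metric Set Filter Topology
open scoped RealInnerProductSpace ContDiff

namespace Pool.Agent.Lib.MP_8daebb_an.LS

variable {V : Type} [NormedAddCommGroup V] [InnerProductSpace ℝ V]

/-- The trace of a linear map of `V × ℝ`. -/
noncomputable def tr (A : (V × ℝ) →L[ℝ] (V × ℝ)) : ℝ :=
  LinearMap.trace ℝ (V × ℝ) (A : (V × ℝ) →ₗ[ℝ] (V × ℝ))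

/-- The Euclidean product `⟨A n, n⟩` for `n = (-p, 1)`. -/
noncomputable def nn (p : V) (A : (V × ℝ) →L[ℝ] (V × ℝ)) : ℝ :=
  ⟪(A (-p, 1)).1, -p⟫ + (A (-p, 1)).2

/-- The area element `√(1 + |p|²)` times the tangential divergence `tr A - ⟨A ν, ν⟩`, where
`ν = (-p, 1) / √(1 + |p|²)` is the unit normal of a graph of slope `p`. -/
noncomputable def firstVar (p : V) (A : (V × ℝ) →L[ℝ] (V × ℝ)) : ℝ :=
  √(1 + ‖p‖ ^ 2) * (tr A - nn p A / (1 + ‖p‖ ^ 2))

variable [FiniteDimensional ℝ V] [MeasurableSpace V] [BorelSpace V]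

/-- The sum of the graphs of the functions `u i` is a stationary varifold in `Ω × ℝ`. -/
def IsStationaryGraph {Q : ℕ} (u : Fin Q → V → ℝ) (Ω : Set V) : Prop :=
  ∀ X : V × ℝ → V × ℝ, ContDiff ℝ 1 X → HasCompactSupport X → tsupport X ⊆ Ω ×ˢ univ →
    ∑ i, ∫ x, firstVar (gradient (u i) x) (fderiv ℝ X (x, u i x)) = 0

/-- The set where the sheets do not all coincide has density zero at the origin. -/
def DensityCond (m : ℕ) {Q : ℕ} (u : Fin Q → V → ℝ) : Prop :=
  Tendsto (fun r : ℝ => volume.real ({x | ∃ i j, u i x ≠ u j x} ∩ ball 0 r) / r ^ m)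
    (𝓝[>] 0) (𝓝 0)

omit [FiniteDimensional ℝ V] [MeasurableSpace V] [BorelSpace V] in
/-- Near the origin all sheets equal one smooth function. -/
def SmoothNear {Q : ℕ} (u : Fin Q → V → ℝ) : Prop :=
  ∃ r > 0, ∃ w : V → ℝ, ContDiffOn ℝ ∞ w (ball 0 r) ∧ ∀ i, EqOn (u i) w (ball 0 r)

end Pool.Agent.Lib.MP_8daebb_an.LS
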