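import Pool.Agent.Lib.MP_8daebb_an.LG.SC
import Pool.Agent.Lib.MP_8daebb_an.LG.SD

open MeasureTheory Metric Set Filter Topology
open scoped RealInnerProductSpace NNReal ContDiff

namespace Pool.Agent.Lib.MP_8daebb_an.LG

variable {m : ℕ}

/-! SE. The first order Schauder estimate. -/

theorem hol_cont_se {F : Type} [NormedAddCommGroup F] {Φ : E m → F} {U : Set (E m)} {C : ℝ}
    (h : ∀ y ∈ U, ∀ z ∈ U, ‖Φ y - Φ z‖ ≤ C * √‖y - z‖) : ContinuousOn Φ U := by
  intro x hx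
  rw [ContinuousWithinAt, tendsto_iff_norm_sub_tendsto_zero]
  have h1 : Continuous fun y : E m => C * √‖y - x‖ := by fun_prop
  have h2 := (h1.tendsto x).mono_left (nhdsWithin_le_nhds (s := U))
  simp only [sub_self, norm_zero, Real.sqrt_zero, mul_zero] at h2
  exact squeeze_zero' (Eventually.of_forall fun _ => norm_nonneg _)
    (eventually_mem_nhdsWithin.mono fun y hy => h y hy x hx) h2

theorem memLp_bdd_se {Ξ : E m → E m} {c : E m} {r C : ℝ} (hΞ : ContinuousOn Ξ (ball c r))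
    (h : ∀ x ∈ ball c r, ‖Ξ x‖ ≤ C) : MemLp Ξ 2 (volume.restrict (ball c r)) := by
  have : IsFiniteMeasure (volume.restrict (ball c r)) :=
    ⟨by rw [Measure.restrict_apply_univ]; exact measure_ball_lt_top⟩
  exact MemLp.of_bound (hΞ.aestronglyMeasurable measurableSet_ball) C
    ((ae_restrict_mem measurableSet_ball).mono h)

theorem iter_se (m : ℕ) : ∃ θ : ℝ, 0 < θ ∧ θ ≤ 1 / 8 ∧ ∃ ε₀ > 0, ε₀ ≤ 1 / 2 ∧ ∃ K > 0,
    ∀ (h : E m → ℝ) (A : E m → E m →L[ℝ] E m) (G : E m → E m) (M : ℝ), LocallyLipschitz h →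
      0 ≤ M → (∀ y ∈ ball (0 : E m) 1, ‖A y - ContinuousLinearMap.id ℝ (E m)‖ ≤ ε₀) →
      (∀ y ∈ ball (0 : E m) 1, ∀ z ∈ ball (0 : E m) 1, ‖A y - A z‖ ≤ ε₀ * √‖y - z‖) →
      (∀ y ∈ ball (0 : E m) 1, ∀ z ∈ ball (0 : E m) 1, ‖G y - G z‖ ≤ M * √‖y - z‖) →
      DivFree (fun y => A y (gradient h y) + G y) (ball 0 1) →
      ∫ y in ball 0 1, ‖gradient h y‖ ^ 2 ≤ M ^ 2 →
      ∀ x ∈ ball (0 : E m) (1 / 8), ∀ j : ℕ, ∃ p : E m, ‖p‖ ≤ K * M ∧
        ∫ y in ball x (θ ^ j / 3), ‖gradient h y - p‖ ^ 2 ≤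
          (K * M) ^ 2 * (θ ^ j / 3) ^ (m + 1) := by
  obtain ⟨θ, hθ, hθ8, ε₁, hε₁, hε₁2, C, hC, H⟩ := lin_step m
  have hv := vb_pos m
  obtain ⟨ρ, hρ0, hρ⟩ : ∃ ρ : ℝ, 0 < ρ ∧ θ = ρ ^ 2 :=
    ⟨√θ, Real.sqrt_pos.2 hθ, (Real.sq_sqrt hθ.le).symm⟩
  have hρ1 : ρ ≤ 1 / 2 := by nlinarith
  obtain ⟨k, hk0, hk⟩ : ∃ k : ℝ, 0 < k ∧ k ^ 2 = 3 ^ m + 8 * C * vb m / θ :=
    ⟨√(3 ^ m + 8 * C * vb m / θ), Real.sqrt_pos.2 (by positivity), Real.sq_sqrt (by positivity)⟩
  have hk1 : 3 ^ m ≤ k ^ 2 := by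
    have : 0 < 8 * C * vb m / θ := by positivity
    linarith
  have hk2 : 8 * C * vb m ≤ k ^ 2 * θ := by
    rw [← div_le_iff₀ hθ, hk]
    have : (0 : ℝ) < 3 ^ m := by positivity
    linarith
  have hK0 : 0 < 2 * C * k := by positivity
  refine ⟨θ, hθ, hθ8, min ε₁ (1 / (2 * C * k)), lt_min hε₁ (by positivity),
    (min_le_left _ _).trans hε₁2, 2 * C * k + 2 * k, by positivity, ?_⟩
  intro h A G M hh hM hA1 hA hG hd hE x hx
  set ε₀ := min ε₁ (1 / (2 * C * k)) with hε₀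
  have he0 : 0 < ε₀ := lt_min hε₁ (by positivity)
  have he1 : ε₀ ≤ ε₁ := min_le_left _ _
  have he2 : ε₀ * (2 * C * k) ≤ 1 := by
    have : ε₀ ≤ 1 / (2 * C * k) := min_le_right _ _
    rwa [le_div_iff₀ hK0] at this
  have hx' : ‖x‖ < 1 / 8 := mem_ball_zero_iff.mp hx
  have hx1 : x ∈ ball (0 : E m) 1 := ball_subset_ball (by norm_num) hx
  have cA := hol_cont_se hA
  have cG := hol_cont_se hG
  have key : ∀ i : ℕ, ∃ p : E m, ‖p‖ ≤ 2 * C * k * M * (1 - ρ ^ i) ∧
      ∫ y in ball x (θ ^ i / 3), ‖gradient h y - p‖ ^ 2 ≤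
        k ^ 2 * M ^ 2 * θ ^ i * (θ ^ i / 3) ^ m := by
    intro i
    induction i with
    | zero =>
      refine ⟨0, by simp, ?_⟩
      simp only [pow_zero, sub_zero]
      have h1 := memLp_grad hh 0 1
      have hsub : ball x (1 / 3) ⊆ ball 0 1 :=
        ball_subset_ball' (by rw [dist_zero_right]; linarith)
      refine ((setIntegral_mono_set ((memLp_two_iff_integrable_sq_norm h1.1).1 h1)
        (Eventually.of_forall fun y => by positivity) hsub.eventuallyLE).trans hE).trans ?_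
      have e : k ^ 2 * M ^ 2 * 1 * (1 / 3) ^ m = M ^ 2 * (k ^ 2 / 3 ^ m) := by
        rw [one_div_pow]; ring
      rw [e]
      exact le_mul_of_one_le_right (sq_nonneg _) ((one_le_div (by positivity)).2 hk1)
    | succ i ih =>
      obtain ⟨p, h3, h5⟩ := ih
      have t0 : 0 < θ ^ i := pow_pos hθ i
      have t1 : θ ^ i ≤ 1 := pow_le_one₀ hθ.le (by linarith)
      have t2 : 0 < ρ ^ i := pow_pos hρ0 i
      have t4 : θ ^ i = (ρ ^ i) ^ 2 := by rw [hρ, ← pow_mul, ← pow_mul, mul_comm]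
      have e0 : θ ^ (i + 1) / 3 = θ * (θ ^ i / 3) := by ring
      rw [e0, pow_succ θ i, pow_succ ρ i]
      obtain ⟨s, hs⟩ : ∃ s, s = θ ^ i / 3 := ⟨_, rfl⟩
      rw [← hs] at h5 ⊢
      have hs0 : 0 < s := by rw [hs]; positivity
      have hsub : ball x s ⊆ ball 0 1 := ball_subset_ball' (by rw [dist_zero_right]; linarith)
      have hsq : ∀ y ∈ ball x s, √‖y - x‖ ≤ ρ ^ i := fun y hy =>
        Real.sqrt_le_iff.2 ⟨t2.le, by
          have := mem_ball_iff_norm.1 hy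
          rw [← t4]; linarith⟩
      have hKM : 0 ≤ 2 * C * k * M := by positivity
      have hp : ε₀ * ‖p‖ ≤ M := by
        have h1 : ‖p‖ ≤ 2 * C * k * M := h3.trans (mul_le_of_le_one_right hKM (by linarith))
        calc ε₀ * ‖p‖ ≤ ε₀ * (2 * C * k * M) := by gcongr
          _ = ε₀ * (2 * C * k) * M := by ring
          _ ≤ M := mul_le_of_le_one_left hM he2
      have hGb : ∀ y ∈ ball x s, ‖G y - G x‖ ≤ M * ρ ^ i := fun y hy =>
        (hG y (hsub hy) x hx1).trans (mul_le_mul_of_nonneg_left (hsq y hy) hM)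
      have hFb : ∀ y ∈ ball x s, ‖(A y - A x) p + (G y - G x)‖ ≤ 2 * M * ρ ^ i := by
        intro y hy
        have h1 : ‖(A y - A x) p‖ ≤ M * ρ ^ i :=
          calc _ ≤ ‖A y - A x‖ * ‖p‖ := ContinuousLinearMap.le_opNorm _ _
            _ ≤ ε₀ * ρ ^ i * ‖p‖ := by
              gcongr
              exact (hA y (hsub hy) x hx1).trans (mul_le_mul_of_nonneg_left (hsq y hy) he0.le)
            _ = ε₀ * ‖p‖ * ρ ^ i := by ring
            _ ≤ _ := by gcongr
        refine (norm_add_le _ _).trans ?_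
        linarith [hGb y hy]
      have mA : AEStronglyMeasurable A (volume.restrict (ball x s)) :=
        (cA.mono hsub).aestronglyMeasurable measurableSet_ball
      have mF : MemLp (fun y => (A y - A x) p + (G y - G x)) 2 (volume.restrict (ball x s)) :=
        memLp_bdd_se (((((cA.mono hsub).sub continuousOn_const)).clm_apply
          continuousOn_const).add ((cG.mono hsub).sub continuousOn_const)) hFb
      have mG : MemLp G 2 (volume.restrict (ball x s)) :=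
        memLp_bdd_se (C := ‖G x‖ + M * ρ ^ i) (cG.mono hsub) fun y hy =>
          (norm_le_norm_add_norm_sub' _ (G x)).trans (by linarith [hGb y hy])
      have mg := memLp_grad hh x s
      have mAg : MemLp (fun y => A y (gradient h y)) 2 (volume.restrict (ball x s)) := by
        refine MemLp.of_le_mul (c := 2) mg
          (isBoundedBilinearMap_apply.continuous.comp_aestronglyMeasurable (mA.prodMk mg.1)) ?_
        filter_upwards [ae_restrict_mem measurableSet_ball] with y hy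
        refine (ContinuousLinearMap.le_opNorm _ _).trans ?_
        gcongr
        have h1 := norm_le_norm_add_norm_sub' (A y) (ContinuousLinearMap.id ℝ (E m))
        have h2 : ‖ContinuousLinearMap.id ℝ (E m)‖ ≤ 1 := ContinuousLinearMap.norm_id_le
        linarith [hA1 y (hsub hy)]
      have hd' := DivFree.sub_const (hd.mono hsub) (mAg.add mG) (A x p + G x)
      have eF : (fun y => A y (gradient h y) + G y - (A x p + G x)) =
          fun y => A y (gradient h y - p) + ((A y - A x) p + (G y - G x)) := by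
        funext y
        rw [map_sub, _root_.sub_apply]
        abel
      rw [eF] at hd'
      have hFi : ∫ y in ball x s, ‖(A y - A x) p + (G y - G x)‖ ^ 2 ≤
          4 * vb m * M ^ 2 * θ ^ i * s ^ m := by
        have h2 : ‖∫ y in ball x s, ‖(A y - A x) p + (G y - G x)‖ ^ 2‖ ≤
            (2 * M * ρ ^ i) ^ 2 * volume.real (ball x s) :=
          norm_setIntegral_le_of_norm_le_const measure_ball_lt_top fun y hy => by
            rw [Real.norm_eq_abs, abs_of_nonneg (sq_nonneg _)]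
            exact pow_le_pow_left₀ (norm_nonneg _) (hFb y hy) 2
        rw [vol_ball x hs0, Real.norm_eq_abs] at h2
        refine ((le_abs_self _).trans h2).trans (le_of_eq ?_)
        rw [t4]; ring
      obtain ⟨p', g1, g2⟩ := H h A _ x p s _ _ hh hs0 mA
        (fun y hy => (hA1 y (hsub hy)).trans he1) mF hd' h5 hFi
      have e1 : √(k ^ 2 * M ^ 2 * θ ^ i) = k * M * ρ ^ i := by
        rw [t4, ← mul_pow, ← mul_pow, Real.sqrt_sq (by positivity)]
      rw [e1] at g1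
      refine ⟨p', ?_, g2.trans ?_⟩
      · have h1 := norm_le_norm_add_norm_sub' p' p
        have h2 : 0 ≤ C * (k * M * ρ ^ i) := by positivity
        have h4 : C * (k * M * ρ ^ i) * (2 * ρ) ≤ C * (k * M * ρ ^ i) :=
          mul_le_of_le_one_right h2 (by linarith)
        linarith
      · refine mul_le_mul_of_nonneg_right ?_ (by positivity)
        have h1 : 8 * C * vb m * (M ^ 2 * θ ^ i) ≤ k ^ 2 * θ * (M ^ 2 * θ ^ i) :=
          mul_le_mul_of_nonneg_right hk2 (by positivity)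
        linarith
  intro j
  obtain ⟨p, h1, h2⟩ := key j
  have t2 : 0 < ρ ^ j := pow_pos hρ0 j
  have hkM : 0 ≤ k * M := by positivity
  have hKM : 0 ≤ 2 * C * k * M := by positivity
  refine ⟨p, ?_, h2.trans ?_⟩
  · have := h1.trans (mul_le_of_le_one_right hKM (by linarith))
    linarith
  · have h3 : 3 * (k * M) ^ 2 ≤ ((2 * C * k + 2 * k) * M) ^ 2 := by
      have h4 : 2 * (k * M) ≤ (2 * C * k + 2 * k) * M := by linarith
      have h5 := pow_le_pow_left₀ (by positivity) h4 2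
      nlinarith
    calc _ = 3 * (k * M) ^ 2 * (θ ^ j / 3) ^ (m + 1) := by ring
      _ ≤ _ := by gcongr

theorem schauder_unit (m : ℕ) : ∃ ε₀ > 0, ε₀ ≤ 1 / 2 ∧ ∃ C > 0,
    ∀ (h : E m → ℝ) (A : E m → E m →L[ℝ] E m) (G : E m → E m) (M : ℝ), LocallyLipschitz h →
      0 ≤ M → (∀ y ∈ ball (0 : E m) 1, ‖A y - ContinuousLinearMap.id ℝ (E m)‖ ≤ ε₀) →
      (∀ y ∈ ball (0 : E m) 1, ∀ z ∈ ball (0 : E m) 1, ‖A y - A z‖ ≤ ε₀ * √‖y - z‖) →
      (∀ y ∈ ball (0 : E m) 1, ∀ z ∈ ball (0 : E m) 1, ‖G y - G z‖ ≤ M * √‖y - z‖) →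
      DivFree (fun y => A y (gradient h y) + G y) (ball 0 1) →
      ∫ y in ball 0 1, ‖gradient h y‖ ^ 2 ≤ M ^ 2 →
      ∀ y ∈ ball (0 : E m) (1 / 8), DifferentiableAt ℝ h y ∧ ‖gradient h y‖ ≤ C * M ∧
        ∀ z ∈ ball (0 : E m) (1 / 8), ‖gradient h y - gradient h z‖ ≤ C * M * √‖y - z‖ := by
  obtain ⟨θ, hθ, hθ8, ε₀, hε₀, hε2, K, hK, H⟩ := iter_se m
  obtain ⟨C, hC, H'⟩ := hol_rep m hθ hθ8
  refine ⟨ε₀, hε₀, hε2, K + C * K, by positivity, ?_⟩
  intro h A G M hh hM hA1 hA hG hd hE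
  obtain ⟨Ψ, h1, h2, h3⟩ := H' (gradient h) (K * M) (K * M) (memLp_grad hh) (by positivity)
    (H h A G M hh hM hA1 hA hG hd hE)
  have h4 : ∀ y ∈ ball (0 : E m) (1 / 8), HasGradientAt h (Ψ y) y := fun y hy =>
    hasGradientAt_of_ae hh isOpen_ball (hol_cont_se h1) h3 hy
  have a1 : 0 ≤ K * M := by positivity
  have a2 : 0 ≤ C * (K * M) := by positivity
  intro y hy
  refine ⟨(h4 y hy).differentiableAt, ?_, fun z hz => ?_⟩
  · rw [(h4 y hy).gradient]
    linarith [h2 y hy]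
  · rw [(h4 y hy).gradient, (h4 z hz).gradient]
    exact (h1 y hy z hz).trans (mul_le_mul_of_nonneg_right (by linarith) (Real.sqrt_nonneg _))

theorem schauder0 (m : ℕ) : ∃ ε₀ > 0, ε₀ ≤ 1 / 2 ∧ ∃ C > 0,
    ∀ (h : E m → ℝ) (A : E m → E m →L[ℝ] E m) (G : E m → E m) (x : E m) (l M : ℝ),
      LocallyLipschitz h → 0 < l → 0 ≤ M →
      (∀ y ∈ ball x l, ‖A y - ContinuousLinearMap.id ℝ (E m)‖ ≤ ε₀) →
      (∀ y ∈ ball x l, ∀ z ∈ ball x l, ‖A y - A z‖ ≤ ε₀ * √(‖y - z‖ / l)) →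
      (∀ y ∈ ball x l, ∀ z ∈ ball x l, ‖G y - G z‖ ≤ M * √(‖y - z‖ / l)) →
      DivFree (fun y => A y (gradient h y) + G y) (ball x l) →
      ∫ y in ball x l, ‖gradient h y‖ ^ 2 ≤ M ^ 2 * l ^ m →
      ∀ y ∈ ball x (l / 8), DifferentiableAt ℝ h y ∧ ‖gradient h y‖ ≤ C * M ∧
        ∀ z ∈ ball x (l / 8), ‖gradient h y - gradient h z‖ ≤ C * M * √(‖y - z‖ / l) := by
  obtain ⟨ε₀, hε₀, hε2, C, hC, H⟩ := schauder_unit m
  refine ⟨ε₀, hε₀, hε2, C, hC, fun h A G x l M hh hl hM hA1 hA hG hd hE => ?_⟩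
  have hin : ∀ y ∈ ball (0 : E m) 1, x + l • y ∈ ball x l := fun y hy => by
    rw [mem_ball_iff_norm, add_sub_cancel_left, norm_smul, Real.norm_of_nonneg hl.le]
    exact mul_lt_of_lt_one_right hl (mem_ball_zero_iff.mp hy)
  have hdist : ∀ y z : E m, ‖x + l • y - (x + l • z)‖ / l = ‖y - z‖ := fun y z => by
    rw [add_sub_add_left_eq_sub, ← smul_sub, norm_smul, Real.norm_of_nonneg hl.le]
    field_simp
  have H1 := H (fun y => (h (x + l • y) - 0) / l) (fun y => A (x + l • y))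
    (fun y => G (x + l • y)) M (locLip_scale hh x 0 l) hM (fun y hy => hA1 _ (hin y hy))
    (fun y hy z hz => by simpa only [hdist] using hA _ (hin y hy) _ (hin z hz))
    (fun y hy z hz => by simpa only [hdist] using hG _ (hin y hy) _ (hin z hz))
    (by
      simp only [grad_scale h x 0 hl]
      exact DivFree.scale (Ξ := fun y => A y (gradient h y) + G y) hl (by rwa [mul_one]))
    (by
      have h1 := setInt_scale (fun y => ‖gradient h y‖ ^ 2) x hl 1
      simp only [grad_scale h x 0 hl]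
      rwa [h1, mul_one, div_le_iff₀ (pow_pos hl m)])
  simp only [grad_scale h x 0 hl] at H1
  have hback : ∀ y : E m, x + l • l⁻¹ • (y - x) = y := fun y => by
    rw [smul_smul, mul_inv_cancel₀ hl.ne', one_smul, add_sub_cancel]
  have hout : ∀ y ∈ ball x (l / 8), l⁻¹ • (y - x) ∈ ball (0 : E m) (1 / 8) := fun y hy => by
    rw [mem_ball_zero_iff, norm_smul, Real.norm_of_nonneg (inv_pos.2 hl).le,
      inv_mul_lt_iff₀ hl]
    linarith [mem_ball_iff_norm.1 hy]
  intro y hy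
  obtain ⟨h1, h2, h3⟩ := H1 _ (hout y hy)
  rw [hback] at h2 h3
  refine ⟨?_, h2, fun z hz => ?_⟩
  · have h4 : DifferentiableAt ℝ (fun w : E m => l⁻¹ • (w - x)) y := by fun_prop
    have h5 := (h1.comp y h4).const_mul l
    refine h5.congr_of_eventuallyEq (Eventually.of_forall fun w => ?_)
    simp only [Function.comp, hback, sub_zero]
    field_simp
  · have h4 := h3 _ (hout z hz)
    rwa [hback, ← hdist (l⁻¹ • (y - x)), hback, hback] at h4

end Pool.Agent.Lib.MP_8daebb_an.LG
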