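import Pool.Agent.Lib.MP_8daebb_an.LG.Weak
import Pool.Agent.Lib.MP_8daebb_an.LG.LipD

open MeasureTheory Metric Set Filter Topology
open scoped RealInnerProductSpace NNReal ContDiff

namespace Pool.Agent.Lib.MP_8daebb_an.LG

variable {m : ℕ}

/-! SF. Differentiating a divergence free field. -/

theorem ext_sf {G : Type} [NormedAddCommGroup G] [NormedSpace ℝ G] [FiniteDimensional ℝ G]
    {Ξ : E m → G} {s : Set (E m)} {K : ℝ} (hK : ∀ y ∈ s, ∀ z ∈ s, ‖Ξ y - Ξ z‖ ≤ K * ‖y - z‖) :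
    ∃ (Ψ : E m → G) (K' : ℝ≥0), LipschitzWith K' Ψ ∧ EqOn Ψ Ξ s := by
  have h1 : LipschitzOnWith K.toNNReal Ξ s := by
    refine LipschitzOnWith.of_dist_le_mul fun y hy z hz => ?_
    rw [dist_eq_norm, dist_eq_norm]
    exact (hK y hy z hz).trans
      (mul_le_mul_of_nonneg_right (Real.le_coe_toNNReal K) (norm_nonneg _))
  obtain ⟨g, hg, he⟩ := h1.extend_finite_dimension
  exact ⟨g, _, hg, he.symm⟩

theorem grad_c1_sf {ζ : E m → ℝ} (h : ContDiff ℝ 2 ζ) : ContDiff ℝ 1 (gradient ζ) := by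
  have h1 : ContDiff ℝ 1 (fderiv ℝ ζ) := h.fderiv_right (by norm_num)
  refine contDiff_euclidean.2 fun b => ?_
  have h2 : (fun x => gradient ζ x b) = fun x => fderiv ℝ ζ x (EuclideanSpace.single b 1) := by
    funext x
    rw [← inner_grad, EuclideanSpace.inner_single_right]
    simp
  rw [h2]
  exact h1.clm_apply contDiff_const

theorem inner_fderiv_sf {Y : E m → E m} {x : E m} (hY : DifferentiableAt ℝ Y x) (v w : E m) :
    ⟪fderiv ℝ Y x v, w⟫ = fderiv ℝ (fun y => ⟪Y y, w⟫) x v := by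
  rw [fderiv_inner_apply ℝ hY (differentiableAt_const w) v]
  simp

theorem grad_sym_sf {ζ : E m → ℝ} (h : ContDiff ℝ 2 ζ) (x e : E m) :
    fderiv ℝ (gradient ζ) x e = gradient (fun y => fderiv ℝ ζ y e) x := by
  have h1 : DifferentiableAt ℝ (fderiv ℝ ζ) x :=
    (h.fderiv_right (m := 1) (by norm_num)).differentiable one_ne_zero x
  refine ext_inner_right ℝ fun v => ?_
  rw [inner_fderiv_sf ((grad_c1_sf h).differentiable one_ne_zero x), inner_grad]
  simp only [inner_grad]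
  rw [fderiv_clm_apply h1 (differentiableAt_const v),
    fderiv_clm_apply h1 (differentiableAt_const e)]
  simpa using (h.contDiffAt.isSymmSndFDerivAt (by simp)).eq e v

theorem glob_sf {Ψ : E m → E m} {Ω : Set (E m)} (hΩ : IsOpen Ω) {K : ℝ≥0} (h : DivFree Ψ Ω)
    (hK : LipschitzWith K Ψ) (e : E m) : DivFree (fun x => fderiv ℝ Ψ x e) Ω := by
  refine divFree_of_smooth hΩ (fun C hC _ => ?_) fun ζ hζ hc hs => ?_
  · refine Measure.integrableOn_of_bounded (M := K * ‖e‖) hC.measure_lt_top.ne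
      (measurable_fderiv_apply_const ℝ Ψ e).aestronglyMeasurable
      (Eventually.of_forall fun x => ?_)
    exact ((fderiv ℝ Ψ x).le_opNorm e).trans
      (mul_le_mul_of_nonneg_right (norm_fderiv_le_of_lipschitz ℝ hK) (norm_nonneg _))
  · have hG := grad_c1_sf hζ
    have h1 : ContDiff ℝ 1 (fderiv ℝ ζ) := hζ.fderiv_right (by norm_num)
    have hη : ContDiff ℝ 1 fun y => fderiv ℝ ζ y e := h1.clm_apply contDiff_const
    have hηc : HasCompactSupport fun y => fderiv ℝ ζ y e := hc.fderiv_apply ℝ e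
    have hηs : tsupport (fun y => fderiv ℝ ζ y e) ⊆ tsupport ζ := tsupport_fderiv_apply_subset ℝ e
    have e1 := h _ hη.locallyLipschitz hηc (hηs.trans hs)
    have e2 := integral_grad_eq_zero (f := fun x => ⟪Ψ x, gradient ζ x⟫)
      (locLip_inner hK.locallyLipschitz hG.locallyLipschitz)
      (HasCompactSupport.intro hc fun x hx => by
        simp only [grad_eq_zero_of_notMem hx, inner_zero_right]) e
    have e3 : (fun x => ⟪gradient (fun x => ⟪Ψ x, gradient ζ x⟫) x, e⟫) =ᵐ[volume] fun x =>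
        ⟪Ψ x, gradient (fun y => fderiv ℝ ζ y e) x⟫ + ⟪fderiv ℝ Ψ x e, gradient ζ x⟫ := by
      filter_upwards [locLip_ae_diff hK.locallyLipschitz] with x hx
      rw [inner_grad, fderiv_inner_apply ℝ hx (hG.differentiable one_ne_zero x), grad_sym_sf hζ]
    have i1 : Integrable fun x => ⟪Ψ x, gradient (fun y => fderiv ℝ ζ y e) x⟫ := by
      refine Continuous.integrable_of_hasCompactSupport ?_
        (HasCompactSupport.intro hηc fun x hx => by
          simp only [grad_eq_zero_of_notMem hx, inner_zero_right])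
      simp only [← grad_sym_sf hζ]
      exact hK.continuous.inner
        ((hG.continuous_fderiv one_ne_zero).clm_apply continuous_const)
    by_cases i2 : Integrable fun x => ⟪fderiv ℝ Ψ x e, gradient ζ x⟫
    · rw [integral_congr_ae e3, integral_add i1 i2, e1, zero_add] at e2
      exact e2
    · exact integral_undef i2

theorem DivFree.fderiv_apply {Ξ : E m → E m} {c : E m} {ρ K : ℝ} (h : DivFree Ξ (ball c ρ))
    (hK : ∀ y ∈ ball c ρ, ∀ z ∈ ball c ρ, ‖Ξ y - Ξ z‖ ≤ K * ‖y - z‖) (e : E m) :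
    DivFree (fun x => fderiv ℝ Ξ x e) (ball c ρ) := by
  obtain ⟨Ψ, K', hΨ, he⟩ := ext_sf hK
  have h1 : DivFree Ψ (ball c ρ) := h.congr (Eventually.of_forall fun x hx => he hx)
  refine (glob_sf isOpen_ball h1 hΨ e).congr (Eventually.of_forall fun x hx => ?_)
  rw [(he.eventuallyEq_of_mem (isOpen_ball.mem_nhds hx)).fderiv_eq]

/-- The derivative of a Lipschitz gradient is symmetric almost everywhere. -/
theorem ae_fderiv_grad {h : E m → ℝ} (hh : LocallyLipschitz h) {c : E m} {ρ K : ℝ}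
    (hK : ∀ y ∈ ball c ρ, ∀ z ∈ ball c ρ, ‖gradient h y - gradient h z‖ ≤ K * ‖y - z‖) :
    ∀ᵐ x, x ∈ ball c ρ → DifferentiableAt ℝ (gradient h) x ∧ ∀ e : E m,
      fderiv ℝ (gradient h) x e = gradient (fun y => ⟪gradient h y, e⟫) x := by
  obtain ⟨Ψ, K', hΨ, he⟩ := ext_sf hK
  obtain ⟨f, K'', hf, hfe⟩ := locLip_extend hh c ρ
  have h1 := sym_of_limit hΨ (c := c) (ρ := ρ) fun η hη => ⟨f, ⟨_, hf⟩, by
    rw [setIntegral_congr_fun (g := fun _ => (0 : ℝ)) measurableSet_ball fun x hx => by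
      simp only [he hx, grad_congr_open isOpen_ball hfe hx, sub_self, norm_zero, ne_eq,
        OfNat.ofNat_ne_zero, not_false_eq_true, zero_pow]]
    simpa using hη.le⟩
  filter_upwards [h1, locLip_ae_diff hΨ.locallyLipschitz] with x h2 h3 hx
  have h4 : Ψ =ᶠ[𝓝 x] gradient h := he.eventuallyEq_of_mem (isOpen_ball.mem_nhds hx)
  have h5 : DifferentiableAt ℝ (gradient h) x := h4.differentiableAt_iff.1 h3
  refine ⟨h5, fun e => ext_inner_right ℝ fun v => ?_⟩
  have h6 := h2 hx e v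
  rw [h4.fderiv_eq] at h6
  rw [h6, real_inner_comm, inner_fderiv_sf h5, inner_grad]

/-- Extension of a function that is Lipschitz on a ball. -/
theorem extend_ball {f : E m → ℝ} {c : E m} {ρ K : ℝ}
    (hK : ∀ y ∈ ball c ρ, ∀ z ∈ ball c ρ, |f y - f z| ≤ K * ‖y - z‖) :
    ∃ f' : E m → ℝ, LocallyLipschitz f' ∧ EqOn f' f (ball c ρ) := by
  obtain ⟨Ψ, K', hΨ, he⟩ := ext_sf (Ξ := f) (s := ball c ρ) (K := K) hK
  exact ⟨Ψ, hΨ.locallyLipschitz, he⟩

end Pool.Agent.Lib.MP_8daebb_an.LG
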