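import Pool.Agent.Lib.MP_8daebb_an.LG.SA
import Pool.Agent.Lib.MP_8daebb_an.LG.SE

open MeasureTheory Metric Set Filter Topology
open scoped RealInnerProductSpace NNReal ContDiff

namespace Pool.Agent.Lib.MP_8daebb_an.LG

variable {m : ℕ}

/-! SG. Hoelder and Lipschitz bounds for the gradient of a solution of a linear equation. -/

theorem exists_scale_sg {r ε : ℝ} (C : ℝ) (hr : 0 < r) (hε : 0 < ε) :
    ∃ l, 0 < l ∧ l ≤ r ∧ l ≤ 1 ∧ |C| * √l ≤ ε := by
  have hC : 0 < |C| + 1 := by positivity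
  refine ⟨min (min r 1) ((ε / (|C| + 1)) ^ 2), by positivity,
    (min_le_left _ _).trans (min_le_left _ _), (min_le_left _ _).trans (min_le_right _ _), ?_⟩
  have h1 : √(min (min r 1) ((ε / (|C| + 1)) ^ 2)) ≤ ε / (|C| + 1) := by
    rw [Real.sqrt_le_left (by positivity)]
    exact min_le_right _ _
  calc |C| * √(min (min r 1) ((ε / (|C| + 1)) ^ 2)) ≤ (|C| + 1) * (ε / (|C| + 1)) := by
        gcongr
        linarith
    _ = ε := by field_simp

theorem resc_sg {a C l t e : ℝ} (hl : 0 < l) (h : a ≤ C * √t) (he : |C| * √l ≤ e) :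
    a ≤ e * √(t / l) := by
  have h1 : √t = √l * √(t / l) := by
    rw [← Real.sqrt_mul hl.le]
    congr 1
    field_simp
  calc a ≤ C * √t := h
    _ ≤ |C| * √t := by gcongr; exact le_abs_self C
    _ = |C| * √l * √(t / l) := by rw [h1, mul_assoc]
    _ ≤ _ := by gcongr

theorem int_sq_le_sg {f : E m → ℝ} {c : E m} {r B : ℝ} (hr : 0 < r)
    (h : ∀ y ∈ ball c r, |f y| ≤ B) : ∫ y in ball c r, f y ^ 2 ≤ B ^ 2 * (vb m * r ^ m) := by
  rw [← vol_ball c hr]
  refine (le_abs_self _).trans ?_
  rw [← Real.norm_eq_abs]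
  refine norm_setIntegral_le_of_norm_le_const measure_ball_lt_top fun y hy => ?_
  rw [Real.norm_eq_abs, abs_pow]
  exact pow_le_pow_left₀ (abs_nonneg _) (h y hy) 2

theorem memLp_cont_sg {Ξ : E m → E m} {c : E m} {r : ℝ} (h : ContinuousOn Ξ (closedBall c r)) :
    MemLp Ξ 2 (volume.restrict (ball c r)) := by
  have : IsFiniteMeasure (volume.restrict (ball c r)) :=
    isFiniteMeasure_restrict.mpr measure_ball_lt_top.ne
  obtain ⟨B, hB⟩ := (isCompact_closedBall c r).exists_bound_of_continuousOn h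
  refine MemLp.of_bound ((h.mono ball_subset_closedBall).aestronglyMeasurable measurableSet_ball)
    B ?_
  exact (ae_restrict_mem measurableSet_ball).mono fun y hy => hB y (ball_subset_closedBall hy)

theorem grad_transl_sg (h : E m → ℝ) (v y : E m) :
    gradient (fun y => h (y + v)) y = gradient h (y + v) := by
  unfold gradient
  rw [fderiv_comp_add_right]

theorem sqrt_le_one_sg {C l : ℝ} (hl : l ≤ 1) : |C| * √l ≤ |C| :=
  mul_le_of_le_one_right (abs_nonneg C) (Real.sqrt_le_one.mpr hl)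

theorem schauder_zero (m : ℕ) : ∃ ε₀ > 0, ∀ (U : Set (E m)) (h : E m → ℝ)
    (A : E m → E m →L[ℝ] E m) (G : E m → E m), IsOpen U → LocallyLipschitz h →
      (∀ y ∈ U, ‖A y - ContinuousLinearMap.id ℝ (E m)‖ ≤ ε₀) →
      DivFree (fun y => A y (gradient h y) + G y) U →
      (Hol U 0 A → Hol U 0 G → (∀ x ∈ U, DifferentiableAt ℝ h x) ∧ Hol U 0 (gradient h)) ∧
      (Hol U 1 A → Hol U 1 G → ∀ x ∈ U, ∃ K r : ℝ, 0 < r ∧ ∀ y ∈ ball x r, ∀ z ∈ ball x r,
        ‖gradient h y - gradient h z‖ ≤ K * ‖y - z‖) := by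
  obtain ⟨ε₀, hε₀, hε₁, C, hC, H⟩ := schauder0 m
  obtain ⟨Cc, hCc, Hc⟩ := lin_cacc
  have hvb := vb_pos m
  refine ⟨ε₀, hε₀, fun U h A G hU hh hA hdiv => ?_⟩
  have part1 : Hol U 0 A → Hol U 0 G →
      (∀ x ∈ U, DifferentiableAt ℝ h x) ∧ Hol U 0 (gradient h) := by
    intro hHA hHG
    have key : ∀ x ∈ U, ∃ l M : ℝ, 0 < l ∧ ∀ y ∈ ball x (l / 8), DifferentiableAt ℝ h y ∧
        ‖gradient h y‖ ≤ C * M ∧
        ∀ z ∈ ball x (l / 8), ‖gradient h y - gradient h z‖ ≤ C * M * √(‖y - z‖ / l) := by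
      intro x hx
      obtain ⟨r₀, hr₀, hb⟩ := Metric.isOpen_iff.mp hU x hx
      obtain ⟨CA, rA, hrA, hAH⟩ := hHA x hx
      obtain ⟨CG, rG, hrG, hGH⟩ := hHG x hx
      obtain ⟨B, hB⟩ := locLip_grad_bdd hh x 1
      obtain ⟨l, hl, hlr, hl1, hlA⟩ := exists_scale_sg CA
        (lt_min hr₀ (lt_min hrA hrG)) hε₀
      have s0 : ball x l ⊆ U := (ball_subset_ball (hlr.trans (min_le_left _ _))).trans hb
      have sA : ball x l ⊆ ball x rA :=
        ball_subset_ball (hlr.trans ((min_le_right _ _).trans (min_le_left _ _)))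
      have sG : ball x l ⊆ ball x rG :=
        ball_subset_ball (hlr.trans ((min_le_right _ _).trans (min_le_right _ _)))
      have hM : 0 ≤ √(vb m) * |B| := by positivity
      refine ⟨l, |CG| + √(vb m) * |B|, hl, H h A G x l _ hh hl (by positivity)
        (fun y hy => hA y (s0 hy)) (fun y hy z hz => resc_sg hl (hAH y (sA hy) z (sA hz)) hlA)
        (fun y hy z hz => resc_sg hl (hGH y (sG hy) z (sG hz))
          ((sqrt_le_one_sg hl1).trans (by linarith))) (hdiv.mono s0) ?_⟩
      have h1 := int_sq_le_sg (f := fun y => ‖gradient h y‖) (c := x) (B := |B|) hl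
        fun y hy => by
          rw [abs_norm]
          exact (hB y (ball_subset_ball hl1 hy)).trans (le_abs_self B)
      calc _ ≤ |B| ^ 2 * (vb m * l ^ m) := h1
        _ = (√(vb m) * |B|) ^ 2 * l ^ m := by
            rw [mul_pow, Real.sq_sqrt hvb.le]
            ring
        _ ≤ _ := by
            gcongr
            linarith [abs_nonneg CG]
    refine ⟨fun x hx => ?_, fun x hx => ?_⟩
    · obtain ⟨l, M, hl, hk⟩ := key x hx
      exact (hk x (mem_ball_self (by positivity))).1
    · obtain ⟨l, M, hl, hk⟩ := key x hx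
      refine ⟨C * M / √l, l / 8, by positivity, fun y hy z hz => ?_⟩
      refine ((hk y hy).2.2 z hz).trans (le_of_eq ?_)
      rw [Real.sqrt_div' _ hl.le]
      ring
  refine ⟨part1, fun hHA hHG x hx => ?_⟩
  have hA0 := hHA.pred hU
  have hG0 := hHG.pred hU
  obtain ⟨hdiff, hgr⟩ := part1 hA0 hG0
  have cA : ContinuousOn A U := fun y hy => (hA0.continuousAt hy).continuousWithinAt
  have cG : ContinuousOn G U := fun y hy => (hG0.continuousAt hy).continuousWithinAt
  have cH : ContinuousOn (gradient h) U := fun y hy => (hgr.continuousAt hy).continuousWithinAt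
  obtain ⟨C₁, r₁, hC₁, hr₁, hb₁, hq₁⟩ := hHA.quot hU hx
  obtain ⟨C₂, r₂, hC₂, hr₂, -, hq₂⟩ := hHG.quot hU hx
  obtain ⟨CA, rA, hrA, hAH⟩ := hA0 x hx
  obtain ⟨CH, rH, hrH, hHH⟩ := hgr x hx
  obtain ⟨B, hB⟩ := locLip_grad_bdd hh x 3
  have hB0 : 0 ≤ B := (norm_nonneg _).trans (hB x (mem_ball_self (by norm_num)))
  obtain ⟨h', K, hK, hh'⟩ := locLip_extend hh x 3
  obtain ⟨l, hl, hlr, hl1, hlA⟩ := exists_scale_sg (r := min (min r₁ r₂) (min rA rH) / 3) CA
    (by positivity) hε₀
  have l1 : 3 * l ≤ r₁ := by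
    have := (min_le_left (min r₁ r₂) (min rA rH)).trans (min_le_left r₁ r₂)
    linarith
  have l2 : 3 * l ≤ r₂ := by
    have := (min_le_left (min r₁ r₂) (min rA rH)).trans (min_le_right r₁ r₂)
    linarith
  have lA : 3 * l ≤ rA := by
    have := (min_le_right (min r₁ r₂) (min rA rH)).trans (min_le_left rA rH)
    linarith
  have lH : 3 * l ≤ rH := by
    have := (min_le_right (min r₁ r₂) (min rA rH)).trans (min_le_right rA rH)
    linarith
  have sU : closedBall x (3 * l) ⊆ U := (closedBall_subset_ball (by linarith)).trans hb₁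
  have sU2 : closedBall x (2 * l) ⊆ U := (closedBall_subset_closedBall (by linarith)).trans sU
  have sU2' : ball x (2 * l) ⊆ U := ball_subset_closedBall.trans sU2
  have s12 : ball x l ⊆ ball x (2 * l) := ball_subset_ball (by linarith)
  set C₃ : ℝ := C₁ * B + C₁ * |CH| + C₂ with hC₃
  have hC₃0 : 0 ≤ C₃ := by positivity
  set C₄ : ℝ := Cc * (vb m * 2 ^ m * ((K : ℝ) ^ 2 / l ^ 2 + C₃ ^ 2)) with hC₄
  have hC₄0 : 0 ≤ C₄ := by positivity
  have main : ∀ v : E m, ‖v‖ < l → ∀ y ∈ ball x (l / 8),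
      ‖gradient h (y + v) - gradient h y‖ ≤ C * ((C₃ + √C₄) * ‖v‖) := by
    intro v hv
    have hv0 := norm_nonneg v
    have mv : ∀ y ∈ closedBall x (2 * l), y + v ∈ ball x (3 * l) := fun y hy => by
      have h1 := mem_closedBall.mp hy
      have h2 := dist_triangle (y + v) y x
      rw [dist_self_add_left] at h2
      exact mem_ball.mpr (by linarith)
    have mU : MapsTo (fun y => y + v) (closedBall x (2 * l)) U := fun y hy =>
      sU (ball_subset_closedBall (mv y hy))
    have ct : ContinuousOn (fun y : E m => y + v) (closedBall x (2 * l)) := by fun_prop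
    have cA' : ContinuousOn (fun y => A (y + v)) (closedBall x (2 * l)) := cA.comp ct mU
    have cG' : ContinuousOn (fun y => G (y + v)) (closedBall x (2 * l)) := cG.comp ct mU
    have cH' : ContinuousOn (fun y => gradient h (y + v)) (closedBall x (2 * l)) := cH.comp ct mU
    set hv' : E m → ℝ := fun y => h (y + v) - h y with hhv
    set Gv : E m → E m := fun y => (A (y + v) - A y) (gradient h (y + v)) + (G (y + v) - G y)
      with hGv
    have lipv : LocallyLipschitz hv' :=
      (hh.comp (isometry_add_right v).lipschitz.locallyLipschitz).sub hh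
    have gv : ∀ y ∈ ball x (2 * l), gradient hv' y = gradient h (y + v) - gradient h y := by
      intro y hy
      have d1 : DifferentiableAt ℝ (fun y => h (y + v)) y :=
        (hdiff _ (mU (ball_subset_closedBall hy))).comp y (differentiableAt_id.add_const v)
      rw [hhv, grad_sub d1 (hdiff y (sU2' hy)), grad_transl_sg]
    have cGv : ContinuousOn Gv (closedBall x (2 * l)) :=
      ((cA'.sub (cA.mono sU2)).clm_apply cH').add (cG'.sub (cG.mono sU2))
    have dv' : DivFree (fun y => A y (gradient hv' y) + Gv y) (ball x (2 * l)) := by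
      have d1 : DivFree (fun y => A (y + v) (gradient h (y + v)) + G (y + v)) (ball x (2 * l)) :=
        DivFree.translate (Ξ := fun y => A y (gradient h y) + G y)
          (hdiv.mono ((ball_subset_closedBall.trans
            (closedBall_subset_closedBall (by linarith))).trans sU))
      have d2 := d1.sub (hdiv.mono sU2') (memLp_cont_sg ((cA'.clm_apply cH').add cG'))
        (memLp_cont_sg (((cA.mono sU2).clm_apply (cH.mono sU2)).add (cG.mono sU2)))
      refine d2.congr (Eventually.of_forall fun y hy => ?_)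
      simp only [gv y hy, hGv, map_sub, sub_apply]
      abel
    have q₁ := hq₁ v (by linarith)
    have q₂ := hq₂ v (by linarith)
    have t₁ : ball x (2 * l) ⊆ ball x r₁ := ball_subset_ball (by linarith)
    have t₂ : ball x (2 * l) ⊆ ball x r₂ := ball_subset_ball (by linarith)
    have tH : ball x (3 * l) ⊆ ball x rH := ball_subset_ball lH
    have t3 : ball x (3 * l) ⊆ ball x 3 := ball_subset_ball (by linarith)
    have bG : ∀ y ∈ ball x (2 * l), |‖Gv y‖| ≤ C₃ * ‖v‖ := by
      intro y hy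
      rw [abs_norm]
      have a1 : ‖(A (y + v) - A y) (gradient h (y + v))‖ ≤ C₁ * ‖v‖ * B :=
        ((A (y + v) - A y).le_opNorm _).trans (mul_le_mul (q₁.1 y (t₁ hy))
          (hB _ (t3 (mv y (ball_subset_closedBall hy)))) (norm_nonneg _) (by positivity))
      have a2 := q₂.1 y (t₂ hy)
      have a3 : 0 ≤ C₁ * |CH| * ‖v‖ := by positivity
      calc ‖Gv y‖ ≤ C₁ * ‖v‖ * B + C₂ * ‖v‖ := (norm_add_le _ _).trans (add_le_add a1 a2)
        _ ≤ _ := by rw [hC₃]; nlinarith
    have hGH : ∀ y ∈ ball x (2 * l), ∀ z ∈ ball x (2 * l),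
        ‖Gv y - Gv z‖ ≤ C₃ * ‖v‖ * √‖y - z‖ := by
      intro y hy z hz
      have my := mv y (ball_subset_closedBall hy)
      have mz := mv z (ball_subset_closedBall hz)
      have e : Gv y - Gv z = (A (y + v) - A y - (A (z + v) - A z)) (gradient h (y + v)) +
          (A (z + v) - A z) (gradient h (y + v) - gradient h (z + v)) +
          (G (y + v) - G y - (G (z + v) - G z)) := by
        simp only [hGv, map_sub, sub_apply]
        abel
      have a1 : ‖(A (y + v) - A y - (A (z + v) - A z)) (gradient h (y + v))‖ ≤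
          C₁ * ‖v‖ * √‖y - z‖ * B :=
        (ContinuousLinearMap.le_opNorm _ _).trans (mul_le_mul (q₁.2 y (t₁ hy) z (t₁ hz))
          (hB _ (t3 my)) (norm_nonneg _) (by positivity))
      have a0 : ‖gradient h (y + v) - gradient h (z + v)‖ ≤ |CH| * √‖y - z‖ := by
        have := hHH _ (tH my) _ (tH mz)
        rw [add_sub_add_right_eq_sub] at this
        exact this.trans (mul_le_mul_of_nonneg_right (le_abs_self CH) (Real.sqrt_nonneg _))
      have a2 : ‖(A (z + v) - A z) (gradient h (y + v) - gradient h (z + v))‖ ≤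
          C₁ * ‖v‖ * (|CH| * √‖y - z‖) :=
        (ContinuousLinearMap.le_opNorm _ _).trans (mul_le_mul (q₁.1 z (t₁ hz)) a0
          (norm_nonneg _) (by positivity))
      have a3 := q₂.2 y (t₂ hy) z (t₂ hz)
      rw [e]
      refine (norm_add₃_le).trans ((add_le_add (add_le_add a1 a2) a3).trans (le_of_eq ?_))
      rw [hC₃]
      ring
    have bh : ∀ y ∈ ball x (2 * l), |hv' y| ≤ K * ‖v‖ := by
      intro y hy
      have my := t3 (mv y (ball_subset_closedBall hy))
      have my' : y ∈ ball x 3 := ball_subset_ball (by linarith) hy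
      have := hK.dist_le_mul (y + v) y
      rwa [dist_self_add_left, hh' my, hh' my', Real.dist_eq] at this
    have h2l : 0 < 2 * l := by linarith
    have en := Hc m hv' A Gv x l lipv hl
      ((cA.mono sU2').aestronglyMeasurable measurableSet_ball)
      (fun y hy => (hA y (sU2' hy)).trans hε₁) (memLp_cont_sg cGv) dv'
    have en2 : ∫ y in ball x l, ‖gradient hv' y‖ ^ 2 ≤ ((C₃ + √C₄) * ‖v‖) ^ 2 * l ^ m := by
      have i1 := int_sq_le_sg h2l bh
      have i2 := int_sq_le_sg (f := fun y => ‖Gv y‖) h2l bG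
      calc _ ≤ _ := en
        _ ≤ Cc * ((K * ‖v‖) ^ 2 * (vb m * (2 * l) ^ m) / l ^ 2 +
            (C₃ * ‖v‖) ^ 2 * (vb m * (2 * l) ^ m)) := by gcongr
        _ = (√C₄ * ‖v‖) ^ 2 * l ^ m := by
            rw [mul_pow (√C₄), Real.sq_sqrt hC₄0, hC₄, mul_pow 2 l]
            ring
        _ ≤ _ := by
            gcongr
            linarith
    have sA : ball x l ⊆ ball x rA := ball_subset_ball (by linarith)
    have fin := H hv' A Gv x l ((C₃ + √C₄) * ‖v‖) lipv hl (by positivity)
      (fun y hy => hA y (sU2' (s12 hy)))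
      (fun y hy z hz => resc_sg hl (hAH y (sA hy) z (sA hz)) hlA)
      (fun y hy z hz => resc_sg hl (hGH y (s12 hy) z (s12 hz)) ((sqrt_le_one_sg hl1).trans (by
        rw [abs_of_nonneg (by positivity)]
        gcongr
        linarith [Real.sqrt_nonneg C₄]))) (dv'.mono s12) en2
    intro y hy
    rw [← gv y (ball_subset_ball (by linarith) hy)]
    exact (fin y hy).2.1
  refine ⟨C * (C₃ + √C₄), l / 8, by positivity, fun y hy z hz => ?_⟩
  have hyz : ‖y - z‖ < l := by
    have h1 := dist_triangle_right y z x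
    have h2 := mem_ball.mp hy
    have h3 := mem_ball.mp hz
    rw [← dist_eq_norm]
    linarith
  have := main (y - z) hyz z hz
  rw [add_sub_cancel] at this
  exact this.trans (le_of_eq (by ring))

end Pool.Agent.Lib.MP_8daebb_an.LG
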