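import Pool.Agent.Lib.MP_8daebb_an.LG.SG
import Pool.Agent.Lib.MP_8daebb_an.LG.SF

open MeasureTheory Metric Set Filter Topology
open scoped RealInnerProductSpace NNReal ContDiff

namespace Pool.Agent.Lib.MP_8daebb_an.LG

variable {m : ℕ}

/-! SH. The Schauder estimates of all orders and the smoothness of solutions. -/

theorem hol_one_sh {F : Type} [NormedAddCommGroup F] [NormedSpace ℝ F] {U : Set (E m)}
    {Φ : E m → F} (hU : IsOpen U) {k : ℕ} (h : Hol U (k + 1) Φ) : Hol U 1 Φ := by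
  induction k with
  | zero => exact h
  | succ k ih => exact ih (h.pred hU)

theorem hol_succ_sh {U : Set (E m)} {f : E m → ℝ} (hU : IsOpen U) {k : ℕ}
    (hd : ∀ x ∈ U, DifferentiableAt ℝ f x) (h : Hol U k (gradient f)) : Hol U (k + 1) f := by
  refine ⟨hd, fun e => (h.clm hU (innerSL ℝ e)).congr hU fun x _ => ?_⟩
  rw [innerSL_apply_apply, real_inner_comm, inner_grad]

theorem norm_le_sh {S : E m →L[ℝ] E m} {ε : ℝ} (h : ‖S - ContinuousLinearMap.id ℝ (E m)‖ ≤ ε) :
    ‖S‖ ≤ ε + 1 := by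
  linarith [norm_sub_norm_le S (ContinuousLinearMap.id ℝ (E m)),
    ContinuousLinearMap.norm_id_le (𝕜 := ℝ) (E := E m)]

theorem sum_eb_sh (v : E m) : ∑ b, ⟪v, eb b⟫ • eb b = v := by
  refine ext_inner_right ℝ fun y => ?_
  rw [sum_inner, ← sum_inner_eb]
  refine Finset.sum_congr rfl fun b _ => ?_
  rw [real_inner_smul_left, real_inner_comm y]

theorem asm_sh {h : E m → ℝ} {c : E m} {ρ K : ℝ} {k : ℕ} (hh : LocallyLipschitz h)
    (hK : ∀ y ∈ ball c ρ, ∀ z ∈ ball c ρ, ‖gradient h y - gradient h z‖ ≤ K * ‖y - z‖)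
    (H : ∀ (e : E m) (h' : E m → ℝ), LocallyLipschitz h' →
      (∀ᵐ x, x ∈ ball c ρ → DifferentiableAt ℝ (gradient h) x ∧
        fderiv ℝ (gradient h) x e = gradient h' x) →
      (∀ x ∈ ball c ρ, DifferentiableAt ℝ h' x) ∧ Hol (ball c ρ) k (gradient h')) :
    Hol (ball c ρ) (k + 1) (gradient h) := by
  have key : ∀ e : E m, Hol (ball c ρ) (k + 1) fun y => (⟪gradient h y, e⟫ : ℝ) := fun e => by
    obtain ⟨h', l, q⟩ := extend_ball (f := fun y => (⟪gradient h y, e⟫ : ℝ)) (c := c) (ρ := ρ)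
      (K := K * ‖e‖) fun y hy z hz => by
        rw [← inner_sub_left, mul_right_comm]
        exact (abs_real_inner_le_norm _ _).trans
          (mul_le_mul_of_nonneg_right (hK y hy z hz) (norm_nonneg _))
    obtain ⟨d, p⟩ := H e h' l (by
      filter_upwards [ae_fderiv_grad hh hK] with x hx hx'
      exact ⟨(hx hx').1, ((hx hx').2 e).trans (grad_congr_open isOpen_ball q hx').symm⟩)
    exact (hol_succ_sh isOpen_ball d p).congr isOpen_ball q.symm
  refine (Hol.sum Finset.univ isOpen_ball fun b _ =>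
    (key (eb b)).clm isOpen_ball (ContinuousLinearMap.toSpanSingleton ℝ (eb b))).congr
    isOpen_ball fun y _ => ?_
  simp only [ContinuousLinearMap.toSpanSingleton_apply, sum_eb_sh]

theorem schauder_all (m : ℕ) : ∃ ε₀ > 0, ∀ (k : ℕ) (U : Set (E m)) (h : E m → ℝ)
    (A : E m → E m →L[ℝ] E m) (G : E m → E m), IsOpen U → LocallyLipschitz h →
      (∀ y ∈ U, ‖A y - ContinuousLinearMap.id ℝ (E m)‖ ≤ ε₀) →
      DivFree (fun y => A y (gradient h y) + G y) U → Hol U k A → Hol U k G →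
      (∀ x ∈ U, DifferentiableAt ℝ h x) ∧ Hol U k (gradient h) := by
  obtain ⟨ε₀, hε, H⟩ := schauder_zero m
  refine ⟨ε₀, hε, fun k => ?_⟩
  induction k with
  | zero => exact fun U h A G hU hh hA hd a g => (H U h A G hU hh hA hd).1 a g
  | succ k ih =>
    intro U h A G hU hh hA hd a g
    obtain ⟨d0, p0⟩ := ih U h A G hU hh hA hd (a.pred hU) (g.pred hU)
    refine ⟨d0, Hol.of_local fun x hx => ?_⟩
    obtain ⟨K, r1, hr1, hK⟩ := (H U h A G hU hh hA hd).2 (hol_one_sh hU a) (hol_one_sh hU g) x hx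
    obtain ⟨CA, r2, hr2, hCA⟩ := a.lip hU x hx
    obtain ⟨CG, r3, hr3, hCG⟩ := g.lip hU x hx
    obtain ⟨r4, hr4, hsub⟩ := Metric.isOpen_iff.1 hU x hx
    set ρ := min (min r1 r2) (min r3 r4) with hρ
    have s1 : ball x ρ ⊆ ball x r1 := ball_subset_ball ((min_le_left _ _).trans (min_le_left _ _))
    have s2 : ball x ρ ⊆ ball x r2 := ball_subset_ball ((min_le_left _ _).trans (min_le_right _ _))
    have s3 : ball x ρ ⊆ ball x r3 := ball_subset_ball ((min_le_right _ _).trans (min_le_left _ _))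
    have s4 : ball x ρ ⊆ U :=
      (ball_subset_ball ((min_le_right _ _).trans (min_le_right _ _))).trans hsub
    obtain ⟨M, hM⟩ := locLip_grad_bdd hh x ρ
    have hL : ∀ y ∈ ball x ρ, ∀ z ∈ ball x ρ,
        ‖(A y (gradient h y) + G y) - (A z (gradient h z) + G z)‖ ≤
          ((ε₀ + 1) * K + CA * M + CG) * ‖y - z‖ := fun y hy z hz => by
      have e : (A y (gradient h y) + G y) - (A z (gradient h z) + G z) =
          A y (gradient h y - gradient h z) + (A y - A z) (gradient h z) + (G y - G z) := by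
        rw [map_sub, _root_.sub_apply]
        abel
      have b1 : ‖A y (gradient h y - gradient h z)‖ ≤ (ε₀ + 1) * (K * ‖y - z‖) :=
        ((A y).le_opNorm _).trans (mul_le_mul (norm_le_sh (hA y (s4 hy))) (hK y (s1 hy) z (s1 hz))
          (norm_nonneg _) (by positivity))
      have b0 := hCA y (s2 hy) z (s2 hz)
      have b2 : ‖(A y - A z) (gradient h z)‖ ≤ CA * ‖y - z‖ * M :=
        ((A y - A z).le_opNorm _).trans (mul_le_mul b0 (hM z hz) (norm_nonneg _)
          ((norm_nonneg _).trans b0))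
      have b3 := hCG y (s3 hy) z (s3 hz)
      rw [e]
      refine norm_add₃_le.trans ?_
      linarith
    refine ⟨ρ, by positivity, asm_sh hh (fun y hy z hz => hK y (s1 hy) z (s1 hz))
      fun e h' hh' hae => ?_⟩
    refine ih (ball x ρ) h' A (fun y => fderiv ℝ A y e (gradient h y) + fderiv ℝ G y e)
      isOpen_ball hh' (fun y hy => hA y (s4 hy)) ?_ ((a.pred hU).mono s4)
      ((((a.2 e).apply hU p0).add hU (g.2 e)).mono s4)
    refine ((hd.mono s4).fderiv_apply hL e).congr ?_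
    filter_upwards [hae] with y hy hy'
    obtain ⟨d1, e1⟩ := hy hy'
    have d2 := a.1 y (s4 hy')
    have d3 := g.1 y (s4 hy')
    rw [fderiv_fun_add (d2.clm_apply d1) d3, fderiv_clm_apply d2 d1, ← e1]
    simp only [_root_.add_apply, ContinuousLinearMap.comp_apply,
      ContinuousLinearMap.flip_apply]
    abel

/-- A solution with small Lipschitz gradient is smooth. -/
theorem smooth_of_lip_grad (m : ℕ) {a : E m → E m} (ha : ContDiff ℝ ∞ a)
    (ha0 : fderiv ℝ a 0 = ContinuousLinearMap.id ℝ (E m)) : ∃ ε > 0,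
    ∀ (f : E m → ℝ) (c : E m) (ρ K : ℝ), LocallyLipschitz f →
      (∀ y ∈ ball c ρ, DifferentiableAt ℝ f y ∧ ‖gradient f y‖ ≤ ε) →
      (∀ y ∈ ball c ρ, ∀ z ∈ ball c ρ, ‖gradient f y - gradient f z‖ ≤ K * ‖y - z‖) →
      DivFree (fun y => a (gradient f y)) (ball c ρ) → ContDiffOn ℝ ∞ f (ball c ρ) := by
  obtain ⟨ε₀, hε, H⟩ := schauder_all m
  have ha1 : ContDiff ℝ ∞ (fderiv ℝ a) := ha.fderiv_right (le_of_eq (by rfl))
  have had : Differentiable ℝ a := ha.differentiable (by simp)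
  obtain ⟨δ, hδ, hc⟩ := Metric.continuousAt_iff.1 (ha1.continuous.continuousAt (x := 0)) ε₀ hε
  have hA : ∀ p : E m, ‖p‖ ≤ δ / 2 → ‖fderiv ℝ a p - ContinuousLinearMap.id ℝ (E m)‖ ≤ ε₀ :=
    fun p hp => by
      have h1 := hc (x := p) (by rw [dist_zero_right]; linarith)
      rw [ha0, dist_eq_norm] at h1
      exact h1.le
  refine ⟨δ / 2, by positivity, fun f c ρ K hf hd hK hdiv => ?_⟩
  have hL : ∀ y ∈ ball c ρ, ∀ z ∈ ball c ρ,
      ‖a (gradient f y) - a (gradient f z)‖ ≤ (ε₀ + 1) * K * ‖y - z‖ := fun y hy z hz => by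
    have h1 := (convex_closedBall (0 : E m) (δ / 2)).norm_image_sub_le_of_norm_fderiv_le
      (𝕜 := ℝ) (f := a) (C := ε₀ + 1) (fun p _ => had p)
      (fun p hp => norm_le_sh (hA p (mem_closedBall_zero_iff.1 hp)))
      (mem_closedBall_zero_iff.2 (hd z hz).2) (mem_closedBall_zero_iff.2 (hd y hy).2)
    rw [mul_assoc]
    exact h1.trans (mul_le_mul_of_nonneg_left (hK y hy z hz) (by positivity))
  have key : ∀ k, Hol (ball c ρ) k (gradient f) := fun k => by
    induction k with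
    | zero =>
      refine Hol.of_lip fun x hx => ?_
      obtain ⟨r, hr, hs⟩ := Metric.isOpen_iff.1 isOpen_ball x hx
      exact ⟨K, r, hr, fun y hy z hz => hK y (hs hy) z (hs hz)⟩
    | succ k ih =>
      refine asm_sh hf hK fun e h' hh' hae => ?_
      refine H k (ball c ρ) h' (fun y => fderiv ℝ a (gradient f y)) (fun _ => 0) isOpen_ball hh'
        (fun y hy => hA _ (hd y hy).2) ?_ (ih.comp isOpen_ball ha1) (Hol.const 0)
      refine (hdiv.fderiv_apply hL e).congr ?_
      filter_upwards [hae] with y hy hy'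
      obtain ⟨d1, e1⟩ := hy hy'
      rw [fderiv_fun_comp y (had _) d1, ← e1, add_zero, ContinuousLinearMap.comp_apply]
  exact contDiffOn_of_hol isOpen_ball fun k =>
    (hol_succ_sh isOpen_ball (fun x hx => (hd x hx).1) (key k)).pred isOpen_ball

end Pool.Agent.Lib.MP_8daebb_an.LG
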