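import Pool.Agent.Lib.MP_8daebb_an.LG.HA
import Pool.Agent.Lib.MP_8daebb_an.LG.Cacc

open MeasureTheory Metric Set Filter Topology
open scoped RealInnerProductSpace NNReal

namespace Pool.Agent.Lib.MP_8daebb_an.LG

variable {m : ℕ} {ι : Type}

/-! STEPA. The improved quadratic polynomial at unit scale. -/

theorem int_inner_stepa {A : E m → E m} {Ω : Set (E m)} (hA : IntegrableOn A Ω) {ζ : E m → ℝ}
    (hζ : LocallyLipschitz ζ) (hc : HasCompactSupport ζ) (hs : tsupport ζ ⊆ Ω) :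
    Integrable fun x => ⟪A x, gradient ζ x⟫ := by
  obtain ⟨K, hK⟩ := locLip_compact hζ hc
  have h1 : IntegrableOn (fun x => ⟪A x, gradient ζ x⟫) (tsupport ζ) := by
    have hA' : IntegrableOn A (tsupport ζ) := hA.mono_set hs
    refine Integrable.mono' (hA'.norm.mul_const (K : ℝ)) ?_ (Eventually.of_forall fun x => ?_)
    · exact hA'.aestronglyMeasurable.inner (meas_grad ζ).aestronglyMeasurable
    · exact (norm_inner_le_norm _ _).trans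
        (mul_le_mul_of_nonneg_left (norm_grad_le hK x) (norm_nonneg _))
  refine h1.integrable_of_forall_notMem_eq_zero fun x hx => ?_
  rw [grad_eq_zero_of_notMem hx, inner_zero_right]

theorem divFree_sub_stepa {A B : E m → E m} {Ω : Set (E m)} (hA : IntegrableOn A Ω)
    (hB : IntegrableOn B Ω) (h1 : DivFree A Ω) (h2 : DivFree B Ω) :
    DivFree (fun y => A y - B y) Ω := by
  intro ζ hζ hc hs
  simp_rw [inner_sub_left]
  rw [integral_sub (int_inner_stepa hA hζ hc hs) (int_inner_stepa hB hζ hc hs), h1 ζ hζ hc hs,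
    h2 ζ hζ hc hs, sub_zero]

theorem norm_eb_stepa (b : Fin m) : ‖(eb b : E m)‖ = 1 := by
  simp [eb]

theorem trace_stepa (p p1 : E m) (S S1 : E m →L[ℝ] E m) (h : trA p S = 0)
    (hp : ‖p + p1‖ ≤ 1 / 2) :
    ∃ μ : ℝ, trA (p + p1) (S + S1 - μ • ContinuousLinearMap.id ℝ (E m)) = 0 ∧
      |μ| ≤ 12 * ‖p1‖ * ‖S‖ + 4 * ‖p + p1‖ ^ 2 * ‖S1‖ + 2 * |trS S1| := by
  rcases Nat.eq_zero_or_pos m with hm | hm
  · subst hm
    refine ⟨0, by simp [trA], ?_⟩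
    rw [abs_zero]
    positivity
  have hm1 : (1 : ℝ) ≤ m := by exact_mod_cast hm
  set q := p + p1 with hq
  set t : ℝ := ∑ b, ⟪AA q (eb b), eb b⟫ with ht
  have hq2 : ‖q‖ ^ 2 ≤ 1 / 4 := by nlinarith [norm_nonneg q]
  have ht1 : |t - m| ≤ m * (2 * ‖q‖ ^ 2) := by
    have e1 : t - m = ∑ b, ⟪AA q (eb b) - eb b, eb b⟫ := by
      simp_rw [inner_sub_left, Finset.sum_sub_distrib, real_inner_self_eq_norm_sq, norm_eb_stepa]
      simp [ht]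
    rw [e1]
    refine abs_sum_eb_le (fun x => AA q x - x) fun b => ?_
    simpa [norm_eb_stepa] using AA_sub_self q (eb b)
  have ht2 : (m : ℝ) / 2 ≤ t := by
    have := (abs_le.1 ht1).1
    nlinarith
  have ht0 : 0 < t := by linarith
  have hSb : ∀ (T : E m →L[ℝ] E m) (b : Fin m), ‖T (eb b)‖ ≤ ‖T‖ := fun T b => by
    simpa [norm_eb_stepa] using T.le_opNorm (eb b)
  have h1 : |trA q S| ≤ m * (6 * ‖p1‖ * ‖S‖) := by
    have e1 : trA q S = ∑ b, ⟪AA q (S (eb b)) - AA p (S (eb b)), eb b⟫ := by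
      simp_rw [inner_sub_left, Finset.sum_sub_distrib]
      have : ∑ b, ⟪AA p (S (eb b)), eb b⟫ = 0 := h
      rw [this, sub_zero]
      rfl
    rw [e1]
    refine abs_sum_eb_le (fun x => AA q (S x) - AA p (S x)) fun b => ?_
    refine (AA_lip q p _).trans ?_
    have : q - p = p1 := by rw [hq]; abel
    rw [this]
    exact mul_le_mul_of_nonneg_left (hSb S b) (by positivity)
  have h2 : |trA q S1 - trS S1| ≤ m * (2 * ‖q‖ ^ 2 * ‖S1‖) := by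
    have e1 : trA q S1 - trS S1 = ∑ b, ⟪AA q (S1 (eb b)) - S1 (eb b), eb b⟫ := by
      simp_rw [inner_sub_left, Finset.sum_sub_distrib]
      rfl
    rw [e1]
    refine abs_sum_eb_le (fun x => AA q (S1 x) - S1 x) fun b => ?_
    exact (AA_sub_self q _).trans (mul_le_mul_of_nonneg_left (hSb S1 b) (by positivity))
  refine ⟨(trA q S + trA q S1) / t, ?_, ?_⟩
  · have e1 : ∀ (μ : ℝ) (b : Fin m),
        AA q ((S + S1 - μ • ContinuousLinearMap.id ℝ (E m)) (eb b)) =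
          AA q (S (eb b)) + AA q (S1 (eb b)) + (-μ) • AA q (eb b) := by
      intro μ b
      rw [← AA_smul, ← AA_add, ← AA_add]
      congr 1
      simp [sub_eq_add_neg]
    unfold trA
    simp_rw [e1, inner_add_left, real_inner_smul_left, Finset.sum_add_distrib, ← Finset.mul_sum]
    rw [← ht]
    field_simp
    ring
  · rw [abs_div, abs_of_pos ht0, div_le_iff₀ ht0]
    have h3 : |trA q S + trA q S1| ≤ |trA q S| + |trA q S1 - trS S1| + |trS S1| := by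
      have := abs_add_le (trA q S) (trA q S1)
      have := abs_add_le (trA q S1 - trS S1) (trS S1)
      rw [sub_add_cancel] at this
      linarith
    have h4 : 0 ≤ 12 * ‖p1‖ * ‖S‖ + 4 * ‖q‖ ^ 2 * ‖S1‖ + 2 * |trS S1| := by positivity
    have h5 := mul_le_mul_of_nonneg_left ht2 h4
    have h6 : |trS S1| ≤ |trS S1| * m := le_mul_of_one_le_right (abs_nonneg _) hm1
    nlinarith

theorem point_stepa {L₁ : ℝ} (hL₁ : 1 ≤ L₁) {p : E m} (hp : ‖p‖ ≤ 1 / 2) (g w X : E m) {s : ℝ}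
    (hw : ‖w‖ ≤ s) :
    ‖g - (X - (aa p + AA p w))‖ ≤
      2 * ‖p‖ ^ 2 * ‖g‖ + 12 * ‖g‖ ^ 2 + 12 * s ^ 2 + ‖X - ta L₁ (p + (g + w))‖ := by
  have e1 : g - (X - (aa p + AA p w)) = -(AA p g - g) +
      -(ta L₁ (p + (g + w)) - aa p - AA p (g + w)) + -(X - ta L₁ (p + (g + w))) := by
    rw [AA_add]
    abel
  rw [e1]
  have h1 := AA_sub_self p g
  have h2 := ta_taylor hL₁ hp (g + w)
  have h3 : ‖g + w‖ ^ 2 ≤ 2 * ‖g‖ ^ 2 + 2 * s ^ 2 := by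
    have h4 : ‖g + w‖ ≤ ‖g‖ + s := (norm_add_le g w).trans (by linarith)
    have h5 := pow_le_pow_left₀ (norm_nonneg _) h4 2
    nlinarith [sq_nonneg (‖g‖ - s)]
  have h6 := norm_add₃_le (a := -(AA p g - g))
    (b := -(ta L₁ (p + (g + w)) - aa p - AA p (g + w))) (c := -(X - ta L₁ (p + (g + w))))
  simp only [norm_neg] at h6
  linarith

theorem locLip_quad_stepa (a : ℝ) (p : E m) (S : E m →L[ℝ] E m) :
    LocallyLipschitz fun y : E m => a + ⟪p, y⟫ + ⟪S y, y⟫ / 2 := by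
  have : ContDiff ℝ 1 fun y : E m => a + ⟪p, y⟫ + ⟪S y, y⟫ / 2 :=
    (contDiff_const.add (contDiff_const.inner ℝ contDiff_id)).add
      ((S.contDiff.inner ℝ contDiff_id).div_const 2)
  exact this.locallyLipschitz

theorem norm_int_stepa {A : E m → E m} (hA : MemLp A 2 (volume.restrict (ball 0 1))) {B : ℝ}
    (hB : ∫ y in ball 0 1, ‖A y‖ ^ 2 ≤ B) :
    IntegrableOn (fun y => ‖A y‖ ^ 2) (ball 0 1) ∧ IntegrableOn (fun y => ‖A y‖) (ball 0 1) ∧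
      ∫ y in ball 0 1, ‖A y‖ ≤ √(vb m) * √B := by
  have h1 : IntegrableOn (fun y => ‖A y‖ ^ 2) (ball 0 1) :=
    (memLp_two_iff_integrable_sq_norm hA.aestronglyMeasurable).1 hA
  obtain ⟨h2, h3⟩ := int_le_sqrt (f := fun y => ‖A y‖) (c := 0) one_pos
    hA.aestronglyMeasurable.norm h1
  refine ⟨h1, h2, ?_⟩
  simp only [abs_norm, one_pow, mul_one] at h3
  exact h3.trans (mul_le_mul_of_nonneg_left (Real.sqrt_le_sqrt hB) (Real.sqrt_nonneg _))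

theorem grad_stepa {f : E m → ℝ} {p : E m} {S : E m →L[ℝ] E m} (hf : LocallyLipschitz f)
    (hS : Sym S) : ∀ᵐ y, gradient (fun y => f y - (0 + ⟪p, y⟫ + ⟪S y, y⟫ / 2)) y =
      gradient f y - p - S y := by
  filter_upwards [locLip_ae_diff hf] with y hy
  have h1 := grad_quad hS p 0 0 y
  simp only [sub_zero] at h1
  rw [grad_sub hy h1.differentiableAt, h1.gradient]
  abel

theorem normS_stepa (S : E m →L[ℝ] E m) : ∀ y ∈ ball (0 : E m) 1, ‖S y‖ ≤ ‖S‖ := fun y hy => by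
  have h1 : ‖y‖ ≤ 1 := (mem_ball_zero_iff.1 hy).le
  exact (S.le_opNorm y).trans (mul_le_of_le_one_right (norm_nonneg _) h1)

theorem intA_stepa (p : E m) (S : E m →L[ℝ] E m) :
    IntegrableOn (fun y : E m => aa p + AA p (S y)) (ball 0 1) := by
  have h0 : Continuous fun y : E m => ((p, S y) : E m × E m) :=
    continuous_const.prodMk S.continuous
  have h1 : Continuous fun y : E m => AA p (S y) := by
    have := continuous_AA.comp h0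
    exact this
  have hcA : Continuous fun y : E m => aa p + AA p (S y) := continuous_const.add h1
  refine intOn_ball hcA.aestronglyMeasurable (C := ‖aa p‖ + ‖S‖)
    (Eventually.of_forall fun y hy => (norm_add_le _ _).trans ?_)
  linarith [norm_AA_le p (S y), normS_stepa S y hy]

theorem field_stepa {L₁ : ℝ} (hL₁ : 1 ≤ L₁) {f k : E m → ℝ} {Ξ : E m → E m} {p : E m}
    {S : E m →L[ℝ] E m} {EE G : ℝ} (hf : LocallyLipschitz f) (hkl : LocallyLipschitz k)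
    (hgr : ∀ᵐ y, gradient k y = gradient f y - p - S y) (htr : trA p S = 0)
    (hp : ‖p‖ ≤ 1 / 2) (hΞ : MemLp Ξ 2 (volume.restrict (ball 0 1))) (hd : DivFree Ξ (ball 0 1))
    (hE : ∫ y in ball 0 1, ‖gradient f y - p - S y‖ ^ 2 ≤ EE)
    (hG : ∫ y in ball 0 1, ‖Ξ y - ta L₁ (gradient f y)‖ ^ 2 ≤ G) :
    ∃ F : E m → E m, IntegrableOn F (ball 0 1) ∧
      DivFree (fun y => gradient k y - F y) (ball 0 1) ∧
      ∫ y in ball 0 1, ‖gradient k y‖ ^ 2 ≤ EE ∧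
      ∫ y in ball 0 1, ‖F y‖ ≤
        2 * ‖p‖ ^ 2 * (√(vb m) * √EE) + 12 * EE + 12 * ‖S‖ ^ 2 * vb m + √(vb m) * √G := by
  have : IsFiniteMeasure (volume.restrict (ball (0 : E m) 1)) :=
    isFiniteMeasure_restrict.2 measure_ball_lt_top.ne
  have hSy := normS_stepa S
  have hiA := intA_stepa p S
  have hiΞ : IntegrableOn Ξ (ball 0 1) := hΞ.integrable one_le_two
  have hmk : MemLp (gradient k) 2 (volume.restrict (ball 0 1)) := memLp_grad hkl 0 1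
  have hE' : ∫ y in ball 0 1, ‖gradient k y‖ ^ 2 ≤ EE := by
    refine le_trans (le_of_eq (integral_congr_ae (ae_restrict_of_ae ?_))) hE
    filter_upwards [hgr] with y hy
    rw [hy]
  have hmG : MemLp (fun y => Ξ y - ta L₁ (gradient f y)) 2 (volume.restrict (ball 0 1)) :=
    hΞ.sub (memLp_ta L₁ (memLp_grad hf 0 1))
  obtain ⟨i1, i2, i3⟩ := norm_int_stepa hmk hE'
  obtain ⟨-, j2, j3⟩ := norm_int_stepa hmG hG
  have hiF : IntegrableOn (fun y => gradient k y - (Ξ y - (aa p + AA p (S y)))) (ball 0 1) :=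
    (hmk.integrable one_le_two).sub (hiΞ.sub hiA)
  refine ⟨fun y => gradient k y - (Ξ y - (aa p + AA p (S y))), hiF, ?_, hE', ?_⟩
  · simp only [sub_sub_cancel]
    refine divFree_sub_stepa hiΞ hiA hd ?_
    have h1 := divFree_affine p 0 (aa p) S htr (ball 0 1)
    simp only [sub_zero] at h1
    exact h1
  · have hc : IntegrableOn (fun _ : E m => 12 * ‖S‖ ^ 2) (ball 0 1) := integrable_const _
    have k1 : IntegrableOn (fun y => 2 * ‖p‖ ^ 2 * ‖gradient k y‖) (ball 0 1) := i2.const_mul _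
    have k2 : IntegrableOn (fun y => 12 * ‖gradient k y‖ ^ 2) (ball 0 1) := i1.const_mul _
    have k3 : IntegrableOn (fun y => 2 * ‖p‖ ^ 2 * ‖gradient k y‖ + 12 * ‖gradient k y‖ ^ 2)
        (ball 0 1) := k1.add k2
    have k4 : IntegrableOn (fun y => 2 * ‖p‖ ^ 2 * ‖gradient k y‖ + 12 * ‖gradient k y‖ ^ 2 +
        12 * ‖S‖ ^ 2) (ball 0 1) := k3.add hc
    have h1 : ∫ y in ball 0 1, ‖gradient k y - (Ξ y - (aa p + AA p (S y)))‖ ≤
        ∫ y in ball 0 1, (2 * ‖p‖ ^ 2 * ‖gradient k y‖ + 12 * ‖gradient k y‖ ^ 2 + 12 * ‖S‖ ^ 2 +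
          ‖Ξ y - ta L₁ (gradient f y)‖) := by
      refine integral_mono_ae hiF.norm (k4.add j2) ?_
      filter_upwards [ae_restrict_of_ae hgr, ae_restrict_mem measurableSet_ball] with y hy hy1
      have h2 := point_stepa hL₁ hp (gradient k y) (S y) (Ξ y) (hSy y hy1)
      have h3 : p + (gradient k y + S y) = gradient f y := by rw [hy]; abel
      rw [h3] at h2
      exact h2
    rw [integral_add k4 j2, integral_add k3 hc, integral_add k1 k2, integral_const_mul,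
      integral_const_mul, setIntegral_const, vol_ball 0 one_pos, one_pow, mul_one,
      smul_eq_mul] at h1
    have h4 := mul_le_mul_of_nonneg_left i3 (show 0 ≤ 2 * ‖p‖ ^ 2 by positivity)
    linarith

theorem shift_stepa {h : E m → ℝ} (hh : Continuous h) (μ : ℝ) {r : ℝ} (hr : 0 < r) (hr1 : r ≤ 1) :
    ∫ y in ball (0 : E m) r, (h y + μ * ‖y‖ ^ 2 / 2) ^ 2 ≤
      2 * (∫ y in ball (0 : E m) r, h y ^ 2) + μ ^ 2 * vb m := by
  have hi : ∀ g : E m → ℝ, Continuous g → IntegrableOn g (ball (0 : E m) r) := fun g hg =>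
    (hg.continuousOn.integrableOn_compact (isCompact_closedBall 0 r)).mono_set
      ball_subset_closedBall
  have k1 : IntegrableOn (fun y => 2 * h y ^ 2) (ball (0 : E m) r) := hi _ (by fun_prop)
  have k2 : IntegrableOn (fun _ : E m => μ ^ 2) (ball (0 : E m) r) := hi _ continuous_const
  have h1 : ∫ y in ball (0 : E m) r, (h y + μ * ‖y‖ ^ 2 / 2) ^ 2 ≤
      ∫ y in ball (0 : E m) r, (2 * h y ^ 2 + μ ^ 2) := by
    refine setIntegral_mono_on (hi _ (by fun_prop)) (k1.add k2) measurableSet_ball fun y hy => ?_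
    have h2 : ‖y‖ ≤ 1 := (mem_ball_zero_iff.1 hy).le.trans hr1
    have h3 : (‖y‖ ^ 2) ^ 2 ≤ 1 := pow_le_one₀ (by positivity) (pow_le_one₀ (norm_nonneg _) h2)
    have h4 := mul_le_mul_of_nonneg_left h3 (sq_nonneg μ)
    nlinarith [sq_nonneg (h y - μ * ‖y‖ ^ 2 / 2), sq_nonneg μ]
  rw [integral_add k1 k2, integral_const_mul, setIntegral_const, vol_ball 0 hr, smul_eq_mul] at h1
  have h5 : r ^ m ≤ 1 := pow_le_one₀ hr.le hr1
  have h6 := mul_le_mul_of_nonneg_left h5 (mul_nonneg (sq_nonneg μ) (vb_pos m).le)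
  nlinarith

theorem arT_stepa {V sV ε e g s P : ℝ} (hV : 0 ≤ V) (hsV : 0 ≤ sV) (hε : 0 ≤ ε) (hε1 : ε ≤ 1 / 2)
    (he : 0 ≤ e) (heε : e ≤ ε) (hg : 0 ≤ g) (hP0 : 0 ≤ P) (hP : P ≤ ε) :
    2 * P ^ 2 * (sV * e) + 12 * e ^ 2 + 12 * s ^ 2 * V + sV * g ≤
      (12 + 12 * V + 2 * sV) * (ε * e + s ^ 2 + g) := by
  have h1 : P ^ 2 ≤ ε := by nlinarith
  have h2 : P ^ 2 * (sV * e) ≤ ε * (sV * e) := mul_le_mul_of_nonneg_right h1 (by positivity)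
  have h3 : e ^ 2 ≤ ε * e := by nlinarith
  have h4 := mul_nonneg hV (mul_nonneg hε he)
  have h5 := mul_nonneg hV hg
  have h6 := mul_nonneg hsV (sq_nonneg s)
  have h7 := mul_nonneg hsV hg
  have h8 := sq_nonneg s
  linarith

theorem arM_stepa {C₁ c₀ ε e X a s b q t : ℝ} (hC₁ : 0 ≤ C₁) (hε : 0 ≤ ε)
    (hε1 : (1 + C₁) * ε ≤ 1 / 2) (he : 0 ≤ e) (hX : ε * e ≤ X) (ha : a ≤ C₁ * e) (hs0 : 0 ≤ s)
    (hs : s ≤ ε) (hb0 : 0 ≤ b) (hb : b ≤ C₁ * e) (hq0 : 0 ≤ q) (hq : q ≤ (1 + C₁) * ε)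
    (ht : t ≤ C₁ * (c₀ * X)) :
    12 * a * s + 4 * q ^ 2 * b + 2 * t ≤ (12 * C₁ + 2 * (1 + C₁) * C₁ + 2 * C₁ * c₀) * X := by
  have h1 : a * s ≤ C₁ * e * ε := mul_le_mul ha hs hs0 (by positivity)
  have h2 : 2 * q ^ 2 ≤ (1 + C₁) * ε := by nlinarith
  have h3 : 2 * q ^ 2 * b ≤ (1 + C₁) * ε * (C₁ * e) := mul_le_mul h2 hb hb0 (by positivity)
  have h4 := mul_le_mul_of_nonneg_left hX hC₁
  have h5 := mul_le_mul_of_nonneg_left hX (show 0 ≤ (1 + C₁) * C₁ by positivity)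
  linarith

theorem arS_stepa {C₁ c₁ c₂ ε e g s : ℝ} (hC₁ : 0 ≤ C₁) (hc₁ : 0 ≤ c₁) (hc₂ : 0 ≤ c₂)
    (hε1 : ε ≤ 1 / 2) (he : 0 ≤ e) (hg : 0 ≤ g) :
    C₁ * e + c₁ * (ε * e + s ^ 2 + g) ≤ (C₁ + c₁ + c₂) * (e + g + s ^ 2) := by
  have h3 : ε * e + s ^ 2 + g ≤ e + g + s ^ 2 := by nlinarith
  have h4 := mul_le_mul_of_nonneg_left h3 hc₁
  have h5 : 0 ≤ c₂ * (e + g + s ^ 2) := by positivity
  have h6 : 0 ≤ C₁ * (g + s ^ 2) := by positivity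
  linarith

theorem arH_stepa {C₁ C₂ V c₀ c₁ ε δ e g s μ I A : ℝ} (hC₁ : 0 ≤ C₁) (hC₂ : 0 ≤ C₂) (hV : 0 ≤ V)
    (hc₁ : 0 ≤ c₁) (hε : 0 ≤ ε) (hε1 : ε ≤ 1 / 2)
    (hε2 : 3 * (2 * C₂ * c₀ ^ 2 + V * c₁ ^ 2) * ε ≤ δ / 2)
    (hμ : |μ| ≤ c₁ * (ε * e + s ^ 2 + g))
    (hI : I ≤ C₁ * A * e ^ 2 + δ / 4 * e ^ 2 + C₂ * (c₀ * (ε * e + s ^ 2 + g)) ^ 2) :
    2 * I + μ ^ 2 * V ≤ 2 * C₁ * A * e ^ 2 + δ * e ^ 2 +
      (C₁ + c₁ + 3 * (2 * C₂ * c₀ ^ 2 + V * c₁ ^ 2)) * (g ^ 2 + s ^ 4) := by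
  have h2 : (ε * e + s ^ 2 + g) ^ 2 ≤ 3 * (ε ^ 2 * e ^ 2 + (g ^ 2 + s ^ 4)) := by
    nlinarith [sq_nonneg (ε * e - s ^ 2), sq_nonneg (ε * e - g), sq_nonneg (s ^ 2 - g)]
  generalize ε * e + s ^ 2 + g = X at *
  have h1 : μ ^ 2 ≤ (c₁ * X) ^ 2 := by
    rw [← sq_abs]
    exact pow_le_pow_left₀ (abs_nonneg _) hμ 2
  have h0 : 0 ≤ 2 * C₂ * c₀ ^ 2 + V * c₁ ^ 2 := by positivity
  have h9 : 2 * (C₂ * (c₀ * X) ^ 2) + (c₁ * X) ^ 2 * V =
      (2 * C₂ * c₀ ^ 2 + V * c₁ ^ 2) * X ^ 2 := by ring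
  generalize 2 * C₂ * c₀ ^ 2 + V * c₁ ^ 2 = c at *
  have h3 := mul_le_mul_of_nonneg_right h1 hV
  have h4 := mul_le_mul_of_nonneg_left h2 h0
  have h10 : ε ^ 2 ≤ ε := by nlinarith
  have h11 := mul_le_mul_of_nonneg_left h10 h0
  have h5 : 3 * c * ε ^ 2 ≤ δ / 2 := by linarith
  have h6 := mul_le_mul_of_nonneg_right h5 (sq_nonneg e)
  have h7 : 0 ≤ (C₁ + c₁) * (g ^ 2 + s ^ 4) := by positivity
  linarith

theorem sym_stepa {S S1 : E m →L[ℝ] E m} (hS : Sym S) (hS1 : Sym S1) (μ : ℝ) :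
    Sym (S + S1 - μ • ContinuousLinearMap.id ℝ (E m)) := by
  intro x y
  simp only [sub_apply, add_apply,
    smul_apply, ContinuousLinearMap.id_apply, inner_sub_left,
    inner_sub_right, inner_add_left, inner_add_right, real_inner_smul_left,
    real_inner_smul_right, hS x y, hS1 x y]

theorem nrm_stepa (S S1 : E m →L[ℝ] E m) (μ : ℝ) :
    ‖S + S1 - μ • ContinuousLinearMap.id ℝ (E m) - S‖ ≤ ‖S1‖ + |μ| := by
  have e1 : S + S1 - μ • ContinuousLinearMap.id ℝ (E m) - S =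
      S1 - μ • ContinuousLinearMap.id ℝ (E m) := by abel
  rw [e1]
  have h1 : ‖μ • ContinuousLinearMap.id ℝ (E m)‖ ≤ |μ| := by
    rw [norm_smul, Real.norm_eq_abs]
    exact mul_le_of_le_one_right (abs_nonneg _) ContinuousLinearMap.norm_id_le
  have h2 := norm_sub_le S1 (μ • ContinuousLinearMap.id ℝ (E m))
  linarith

theorem split_stepa (S S1 : E m →L[ℝ] E m) (μ a z : ℝ) (p p1 y : E m) :
    z - (a + ⟪p + p1, y⟫ + ⟪(S + S1 - μ • ContinuousLinearMap.id ℝ (E m)) y, y⟫ / 2) =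
      (z - (0 + ⟪p, y⟫ + ⟪S y, y⟫ / 2) - (a + ⟪p1, y⟫ + ⟪S1 y, y⟫ / 2)) + μ * ‖y‖ ^ 2 / 2 := by
  simp only [sub_apply, add_apply,
    smul_apply, ContinuousLinearMap.id_apply, inner_sub_left,
    inner_add_left, real_inner_smul_left, real_inner_self_eq_norm_sq]
  ring

theorem step_height (m : ℕ) {L₁ : ℝ} (hL₁ : 1 ≤ L₁) : ∃ C₁ > 0, ∀ θ : ℝ, 0 < θ → θ ≤ 1 / 8 →
    ∀ δ > 0, ∃ ε₂ > 0, ∃ C > 0,
    ∀ (f : E m → ℝ) (Ξ : E m → E m) (p : E m) (S : E m →L[ℝ] E m) (EE G : ℝ),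
      LocallyLipschitz f → Sym S → trA p S = 0 → ‖p‖ ≤ ε₂ → ‖S‖ ≤ ε₂ → EE ≤ ε₂ ^ 2 → G ≤ ε₂ ^ 2 →
      MemLp Ξ 2 (volume.restrict (ball 0 1)) → DivFree Ξ (ball 0 1) →
      ∫ y in ball 0 1, ‖gradient f y - p - S y‖ ^ 2 ≤ EE →
      ∫ y in ball 0 1, ‖Ξ y - ta L₁ (gradient f y)‖ ^ 2 ≤ G →
      ∃ (a : ℝ) (p' : E m) (S' : E m →L[ℝ] E m), Sym S' ∧ trA p' S' = 0 ∧
        ‖p' - p‖ ≤ C * √EE ∧ ‖S' - S‖ ≤ C * (√EE + √G + ‖S‖ ^ 2) ∧
        ∫ y in ball 0 (2 * θ), (f y - (a + ⟪p', y⟫ + ⟪S' y, y⟫ / 2)) ^ 2 ≤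
          C₁ * θ ^ (m + 6) * EE + δ * EE + C * (G + ‖S‖ ^ 4) := by
  obtain ⟨C₁, hC₁, H⟩ := harm_approx m
  refine ⟨2 * C₁, by positivity, fun θ hθ hθ1 δ hδ => ?_⟩
  obtain ⟨C₂, hC₂, H⟩ := H θ hθ hθ1 (δ / 4) (by positivity)
  have hV := vb_pos m
  have hsV := Real.sqrt_nonneg (vb m)
  obtain ⟨c₀, hc₀⟩ : ∃ c₀ : ℝ, c₀ = 12 + 12 * vb m + 2 * √(vb m) := ⟨_, rfl⟩
  have hc₀p : 0 < c₀ := by rw [hc₀]; positivity
  obtain ⟨c₁, hc₁⟩ : ∃ c₁ : ℝ, c₁ = 12 * C₁ + 2 * (1 + C₁) * C₁ + 2 * C₁ * c₀ := ⟨_, rfl⟩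
  have hc₁p : 0 < c₁ := by rw [hc₁]; positivity
  obtain ⟨c₂, hc₂⟩ : ∃ c₂ : ℝ, c₂ = 3 * (2 * C₂ * c₀ ^ 2 + vb m * c₁ ^ 2) := ⟨_, rfl⟩
  have hc₂p : 0 < c₂ := by rw [hc₂]; positivity
  obtain ⟨ε, hε, hε1, hε2⟩ : ∃ ε : ℝ, 0 < ε ∧ (1 + C₁) * ε ≤ 1 / 2 ∧ c₂ * ε ≤ δ / 2 := by
    refine ⟨min (1 / 2 / (1 + C₁)) (δ / 2 / c₂), by positivity, ?_, ?_⟩
    · rw [← le_div_iff₀' (by positivity)]
      exact min_le_left _ _
    · rw [← le_div_iff₀' hc₂p]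
      exact min_le_right _ _
  have hεh : ε ≤ 1 / 2 := by linarith [mul_pos hC₁ hε]
  refine ⟨ε, hε, C₁ + c₁ + c₂, by positivity, ?_⟩
  intro f Ξ p S EE G hf hS htr hp hSε hEε _ hΞ hd hE hG
  have hE0 : 0 ≤ EE := le_trans (integral_nonneg fun y => by positivity) hE
  have hG0 : 0 ≤ G := le_trans (integral_nonneg fun y => by positivity) hG
  have hkl : LocallyLipschitz fun y => f y - (0 + ⟪p, y⟫ + ⟪S y, y⟫ / 2) :=
    hf.sub (locLip_quad_stepa 0 p S)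
  obtain ⟨F, hF, hdF, hE', hT⟩ :=
    field_stepa hL₁ hf hkl (grad_stepa hf hS) htr (hp.trans hεh) hΞ hd hE hG
  obtain ⟨e, he0, rfl⟩ : ∃ e : ℝ, 0 ≤ e ∧ EE = e ^ 2 :=
    ⟨√EE, Real.sqrt_nonneg _, (Real.sq_sqrt hE0).symm⟩
  obtain ⟨g, hg0, rfl⟩ : ∃ g : ℝ, 0 ≤ g ∧ G = g ^ 2 :=
    ⟨√G, Real.sqrt_nonneg _, (Real.sq_sqrt hG0).symm⟩
  rw [Real.sqrt_sq he0, Real.sqrt_sq hg0] at hT ⊢
  have heε : e ≤ ε := (pow_le_pow_iff_left₀ he0 hε.le two_ne_zero).1 hEε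
  have hT' : ∫ y in ball 0 1, ‖F y‖ ≤ c₀ * (ε * e + ‖S‖ ^ 2 + g) := by
    rw [hc₀]
    exact hT.trans (arT_stepa hV.le hsV hε.le hεh he0 heε hg0 (norm_nonneg p) hp)
  obtain ⟨a, p1, S1, hS1, hp1, hS1n, htr1, hH⟩ := H _ F _ _ hkl hF hdF hE' hT'
  rw [Real.sqrt_sq he0] at hp1 hS1n
  have hC₁e : C₁ * e ≤ C₁ * ε := mul_le_mul_of_nonneg_left heε hC₁.le
  have hq : ‖p + p1‖ ≤ (1 + C₁) * ε := (norm_add_le _ _).trans (by linarith)
  obtain ⟨μ, hμ0, hμ⟩ := trace_stepa p p1 S S1 htr (hq.trans hε1)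
  have hμ' : |μ| ≤ c₁ * (ε * e + ‖S‖ ^ 2 + g) := by
    rw [hc₁]
    exact hμ.trans (arM_stepa hC₁.le hε.le hε1 he0 (by linarith [sq_nonneg ‖S‖]) hp1
      (norm_nonneg _) hSε (norm_nonneg _) hS1n (norm_nonneg _) hq htr1)
  refine ⟨a, p + p1, S + S1 - μ • ContinuousLinearMap.id ℝ (E m), sym_stepa hS hS1 μ, hμ0,
    ?_, ?_, ?_⟩
  · rw [add_sub_cancel_left]
    linarith [mul_nonneg hc₁p.le he0, mul_nonneg hc₂p.le he0]
  · exact (nrm_stepa S S1 μ).trans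
      ((add_le_add hS1n hμ').trans (arS_stepa hC₁.le hc₁p.le hc₂p.le hεh he0 hg0))
  · simp_rw [split_stepa S S1 μ a _ p p1]
    have hcont : Continuous fun y : E m =>
        f y - (0 + ⟪p, y⟫ + ⟪S y, y⟫ / 2) - (a + ⟪p1, y⟫ + ⟪S1 y, y⟫ / 2) :=
      hkl.continuous.sub (locLip_quad_stepa a p1 S1).continuous
    refine (shift_stepa hcont μ (by positivity) (by linarith)).trans ?_
    rw [hc₂] at hε2 ⊢
    exact arH_stepa hC₁.le hC₂.le hV.le hc₁p.le hε.le hεh hε2 hμ' hH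

end Pool.Agent.Lib.MP_8daebb_an.LG
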